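import Mathlib

/-!
# Places of function fields: definitions and basic properties
-/

set_option autoImplicit false

open Polynomial

namespace Pool.Agent.LowDeg

/-- A place of `E / K` with residue field `K`. The value of `ord` at `0` is `0` by convention. -/
@[ext] structure Place (K E : Type) [Field K] [Field E] [Algebra K E] where
  ord : E → ℤ
  ord_zero : ord 0 = 0
  ord_mul : ∀ x y, x ≠ 0 → y ≠ 0 → ord (x * y) = ord x + ord y
  ord_add : ∀ x y, x ≠ 0 → y ≠ 0 → x + y ≠ 0 → min (ord x) (ord y) ≤ ord (x + y)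
  ord_const : ∀ c : K, c ≠ 0 → ord (algebraMap K E c) = 0
  exists_unif : ∃ τ, τ ≠ 0 ∧ ord τ = 1
  exists_res : ∀ x, x ≠ 0 → 0 ≤ ord x →
    ∃ c : K, x = algebraMap K E c ∨ 0 < ord (x - algebraMap K E c)

namespace Place

variable {K E : Type} [Field K] [Field E] [Algebra K E] (P : Place K E)

/-- `x` is integral at `P`. -/
def Int (x : E) : Prop := x = 0 ∨ 0 ≤ P.ord x

/-- `x` vanishes at `P`. -/
def Sm (x : E) : Prop := x = 0 ∨ 0 < P.ord x

/-- `x` has the value `c` at `P`. -/
def IsVal (x : E) (c : K) : Prop := P.Sm (x - algebraMap K E c)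

lemma ord_one : P.ord 1 = 0 := by
  have := P.ord_const 1 one_ne_zero
  simpa using this

lemma ord_neg (x : E) : P.ord (-x) = P.ord x := by
  rcases eq_or_ne x 0 with rfl | hx
  · simp
  have h := P.ord_const (-1) (neg_ne_zero.2 one_ne_zero)
  have h2 : -x = algebraMap K E (-1) * x := by simp
  rw [h2, P.ord_mul _ _ (by simp) hx, h, zero_add]

lemma ord_inv (x : E) : P.ord x⁻¹ = -P.ord x := by
  rcases eq_or_ne x 0 with rfl | hx
  · simp [P.ord_zero]
  have h := P.ord_mul x x⁻¹ hx (inv_ne_zero hx)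
  rw [mul_inv_cancel₀ hx, P.ord_one] at h
  omega

lemma ord_div {x y : E} (hx : x ≠ 0) (hy : y ≠ 0) : P.ord (x / y) = P.ord x - P.ord y := by
  rw [div_eq_mul_inv, P.ord_mul _ _ hx (inv_ne_zero hy), P.ord_inv]; ring

lemma ord_pow {x : E} (hx : x ≠ 0) (n : ℕ) : P.ord (x ^ n) = n * P.ord x := by
  induction n with
  | zero => simp [P.ord_one]
  | succ n ih => rw [pow_succ, P.ord_mul _ _ (pow_ne_zero _ hx) hx, ih]; push_cast; ring

lemma ord_zpow {x : E} (hx : x ≠ 0) (n : ℤ) : P.ord (x ^ n) = n * P.ord x := by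
  cases n with
  | ofNat n => simpa using P.ord_pow hx n
  | negSucc n =>
    rw [zpow_negSucc, P.ord_inv, P.ord_pow hx]
    push_cast [Int.negSucc_eq]; ring

lemma int_zero : P.Int 0 := Or.inl rfl
lemma sm_zero : P.Sm 0 := Or.inl rfl
lemma int_one : P.Int 1 := Or.inr (by rw [P.ord_one])

lemma Sm.int {P : Place K E} {x : E} (h : P.Sm x) : P.Int x := h.imp id le_of_lt

lemma int_const (c : K) : P.Int (algebraMap K E c) := by
  rcases eq_or_ne c 0 with rfl | hc
  · simp [P.int_zero]
  · exact Or.inr (by rw [P.ord_const c hc])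

lemma not_sm_const {c : K} (hc : c ≠ 0) : ¬ P.Sm (algebraMap K E c) := by
  rintro (h | h)
  · exact hc (by simpa using h)
  · rw [P.ord_const c hc] at h; exact lt_irrefl _ h

lemma not_sm_one : ¬ P.Sm (1 : E) := by
  have := P.not_sm_const (c := (1 : K)) one_ne_zero
  simpa using this

variable {P} {x y : E}

lemma Int.add (hx : P.Int x) (hy : P.Int y) : P.Int (x + y) := by
  by_cases hx0 : x = 0
  · simpa [hx0] using hy
  by_cases hy0 : y = 0
  · simpa [hy0] using hx
  by_cases h : x + y = 0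
  · exact Or.inl h
  · exact Or.inr ((le_min (hx.resolve_left hx0) (hy.resolve_left hy0)).trans
      (P.ord_add x y hx0 hy0 h))

lemma Sm.add (hx : P.Sm x) (hy : P.Sm y) : P.Sm (x + y) := by
  by_cases hx0 : x = 0
  · simpa [hx0] using hy
  by_cases hy0 : y = 0
  · simpa [hy0] using hx
  by_cases h : x + y = 0
  · exact Or.inl h
  · exact Or.inr ((lt_min (hx.resolve_left hx0) (hy.resolve_left hy0)).trans_le
      (P.ord_add x y hx0 hy0 h))

lemma Int.mul (hx : P.Int x) (hy : P.Int y) : P.Int (x * y) := by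
  by_cases hx0 : x = 0
  · exact Or.inl (by simp [hx0])
  by_cases hy0 : y = 0
  · exact Or.inl (by simp [hy0])
  have h1 := hx.resolve_left hx0
  have h2 := hy.resolve_left hy0
  exact Or.inr (by rw [P.ord_mul x y hx0 hy0]; omega)

lemma Sm.mul_int (hx : P.Sm x) (hy : P.Int y) : P.Sm (x * y) := by
  by_cases hx0 : x = 0
  · exact Or.inl (by simp [hx0])
  by_cases hy0 : y = 0
  · exact Or.inl (by simp [hy0])
  have h1 := hx.resolve_left hx0
  have h2 := hy.resolve_left hy0
  exact Or.inr (by rw [P.ord_mul x y hx0 hy0]; omega)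

lemma Int.mul_sm (hx : P.Int x) (hy : P.Sm y) : P.Sm (x * y) := by
  rw [mul_comm]; exact hy.mul_int hx

lemma Int.neg (hx : P.Int x) : P.Int (-x) := by
  rcases hx with h | h
  · exact Or.inl (by simp [h])
  · exact Or.inr (by rwa [P.ord_neg])

lemma Sm.neg (hx : P.Sm x) : P.Sm (-x) := by
  rcases hx with h | h
  · exact Or.inl (by simp [h])
  · exact Or.inr (by rwa [P.ord_neg])

lemma Int.sub (hx : P.Int x) (hy : P.Int y) : P.Int (x - y) := by
  rw [sub_eq_add_neg]; exact hx.add hy.neg

lemma Sm.sub (hx : P.Sm x) (hy : P.Sm y) : P.Sm (x - y) := by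
  rw [sub_eq_add_neg]; exact hx.add hy.neg

lemma Int.pow (hx : P.Int x) (n : ℕ) : P.Int (x ^ n) := by
  induction n with
  | zero => simpa using P.int_one
  | succ n ih => rw [pow_succ]; exact ih.mul hx

lemma Int.sum {ι : Type*} (s : Finset ι) {f : ι → E} (h : ∀ i ∈ s, P.Int (f i)) :
    P.Int (∑ i ∈ s, f i) := by
  classical
  induction s using Finset.induction_on with
  | empty => simpa using P.int_zero
  | insert i s hi ih =>
    rw [Finset.sum_insert hi]
    exact (h i (by simp)).add (ih fun j hj => h j (by simp [hj]))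

lemma Sm.sum {ι : Type*} (s : Finset ι) {f : ι → E} (h : ∀ i ∈ s, P.Sm (f i)) :
    P.Sm (∑ i ∈ s, f i) := by
  classical
  induction s using Finset.induction_on with
  | empty => simpa using P.sm_zero
  | insert i s hi ih =>
    rw [Finset.sum_insert hi]
    exact (h i (by simp)).add (ih fun j hj => h j (by simp [hj]))

lemma Int.prod {ι : Type*} (s : Finset ι) {f : ι → E} (h : ∀ i ∈ s, P.Int (f i)) :
    P.Int (∏ i ∈ s, f i) := by
  classical
  induction s using Finset.induction_on with
  | empty => simpa using P.int_one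
  | insert i s hi ih =>
    rw [Finset.prod_insert hi]
    exact (h i (by simp)).mul (ih fun j hj => h j (by simp [hj]))

lemma sm_iff_ord (hx : x ≠ 0) : P.Sm x ↔ 0 < P.ord x := by simp [Sm, hx]
lemma int_iff_ord (hx : x ≠ 0) : P.Int x ↔ 0 ≤ P.ord x := by simp [Int, hx]

lemma Int.inv_of_not_sm (hx : P.Int x) (h : ¬ P.Sm x) : P.Int x⁻¹ := by
  have hx0 : x ≠ 0 := fun h0 => h (Or.inl h0)
  have h1 := hx.resolve_left hx0
  have h2 : ¬ 0 < P.ord x := fun h' => h (Or.inr h')
  exact Or.inr (by rw [P.ord_inv]; omega)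

lemma sm_inv_of_not_int (h : ¬ P.Int x) : P.Sm x⁻¹ := by
  have h1 : x ≠ 0 := fun h0 => h (Or.inl h0)
  have h2 : ¬ 0 ≤ P.ord x := fun h' => h (Or.inr h')
  exact Or.inr (by rw [P.ord_inv]; omega)

lemma Int.exists_isVal (hx : P.Int x) : ∃ c, P.IsVal x c := by
  rcases hx with rfl | h
  · exact ⟨0, Or.inl (by simp)⟩
  by_cases hx0 : x = 0
  · exact ⟨0, Or.inl (by simp [hx0])⟩
  obtain ⟨c, hc⟩ := P.exists_res x hx0 h
  exact ⟨c, hc.imp (fun h => by rw [h, sub_self]) id⟩

lemma IsVal.int {c : K} (h : P.IsVal x c) : P.Int x := by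
  have := (Sm.int h).add (P.int_const c)
  simpa using this

lemma IsVal.unique {c c' : K} (h : P.IsVal x c) (h' : P.IsVal x c') : c = c' := by
  by_contra hne
  have h1 : P.Sm (algebraMap K E (c' - c)) := by
    have h2 := Sm.sub h h'
    have h3 : x - algebraMap K E c - (x - algebraMap K E c') = algebraMap K E (c' - c) := by
      rw [map_sub]; ring
    rwa [h3] at h2
  exact P.not_sm_const (sub_ne_zero.2 (Ne.symm hne)) h1

lemma isVal_const (c : K) : P.IsVal (algebraMap K E c) c := Or.inl (by simp)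

lemma isVal_zero_iff : P.IsVal x 0 ↔ P.Sm x := by simp [IsVal]

lemma isVal_one : P.IsVal (1 : E) 1 := Or.inl (by simp)

lemma IsVal.add {c c' : K} (h : P.IsVal x c) (h' : P.IsVal y c') : P.IsVal (x + y) (c + c') := by
  have h2 := Sm.add h h'
  have h3 : x - algebraMap K E c + (y - algebraMap K E c') =
    x + y - algebraMap K E (c + c') := by rw [map_add]; ring
  rw [IsVal, ← h3]; exact h2

lemma IsVal.neg {c : K} (h : P.IsVal x c) : P.IsVal (-x) (-c) := by
  have h3 : -(x - algebraMap K E c) = -x - algebraMap K E (-c) := by rw [map_neg]; ring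
  rw [IsVal, ← h3]; exact Sm.neg h

lemma IsVal.sub {c c' : K} (h : P.IsVal x c) (h' : P.IsVal y c') : P.IsVal (x - y) (c - c') := by
  rw [sub_eq_add_neg, sub_eq_add_neg]; exact h.add h'.neg

lemma IsVal.mul {c c' : K} (h : P.IsVal x c) (h' : P.IsVal y c') : P.IsVal (x * y) (c * c') := by
  have h3 : x * y - algebraMap K E (c * c') =
    (x - algebraMap K E c) * y + algebraMap K E c * (y - algebraMap K E c') := by
      rw [map_mul]; ring
  rw [IsVal, h3]
  exact (Sm.mul_int h h'.int).add ((P.int_const c).mul_sm h')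

lemma IsVal.pow {c : K} (h : P.IsVal x c) (n : ℕ) : P.IsVal (x ^ n) (c ^ n) := by
  induction n with
  | zero => simpa using P.isVal_one
  | succ n ih => rw [pow_succ, pow_succ]; exact ih.mul h

lemma IsVal.sum {ι : Type*} (s : Finset ι) {f : ι → E} {g : ι → K}
    (h : ∀ i ∈ s, P.IsVal (f i) (g i)) : P.IsVal (∑ i ∈ s, f i) (∑ i ∈ s, g i) := by
  classical
  induction s using Finset.induction_on with
  | empty => simpa using P.isVal_const (0 : K)
  | insert i s hi ih =>
    rw [Finset.sum_insert hi, Finset.sum_insert hi]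
    exact (h i (by simp)).add (ih fun j hj => h j (by simp [hj]))

lemma IsVal.prod {ι : Type*} (s : Finset ι) {f : ι → E} {g : ι → K}
    (h : ∀ i ∈ s, P.IsVal (f i) (g i)) : P.IsVal (∏ i ∈ s, f i) (∏ i ∈ s, g i) := by
  classical
  induction s using Finset.induction_on with
  | empty => simpa using P.isVal_one
  | insert i s hi ih =>
    rw [Finset.prod_insert hi, Finset.prod_insert hi]
    exact (h i (by simp)).mul (ih fun j hj => h j (by simp [hj]))

/-- Values of polynomials. -/
lemma IsVal.aeval {R : Type*} [CommRing R] [Algebra R K] [Algebra R E] [IsScalarTower R K E]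
    {σ : Type*} {f : σ → E} {g : σ → K} (h : ∀ i, P.IsVal (f i) (g i)) (p : MvPolynomial σ R) :
    P.IsVal (MvPolynomial.aeval f p) (MvPolynomial.aeval g p) := by
  induction p using MvPolynomial.induction_on with
  | C a =>
    rw [MvPolynomial.aeval_C, MvPolynomial.aeval_C, IsScalarTower.algebraMap_apply R K E]
    exact P.isVal_const _
  | add p q hp hq => rw [map_add, map_add]; exact hp.add hq
  | mul_X p i hp =>
    rw [map_mul, map_mul, MvPolynomial.aeval_X, MvPolynomial.aeval_X]; exact hp.mul (h i)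

/-- Values of one-variable polynomials. -/
lemma IsVal.polyAeval {c : K} (h : P.IsVal x c) (p : K[X]) :
    P.IsVal (Polynomial.aeval x p) (p.eval c) := by
  induction p using Polynomial.induction_on' with
  | add p q hp hq => rw [map_add, Polynomial.eval_add]; exact hp.add hq
  | monomial n a =>
    rw [Polynomial.aeval_monomial, Polynomial.eval_monomial]
    exact (P.isVal_const a).mul (h.pow n)

lemma IsVal.ne_zero {c : K} (h : P.IsVal x c) (hc : c ≠ 0) : x ≠ 0 := by
  rintro rfl
  exact hc (h.unique (isVal_zero_iff.2 P.sm_zero))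

lemma IsVal.ord_eq_zero {c : K} (h : P.IsVal x c) (hc : c ≠ 0) : P.ord x = 0 := by
  have hx := h.ne_zero hc
  have h1 := h.int.resolve_left hx
  by_contra h2
  have h3 : P.Sm x := Or.inr (by omega)
  exact hc (h.unique (isVal_zero_iff.2 h3))

lemma IsVal.inv {c : K} (h : P.IsVal x c) (hc : c ≠ 0) : P.IsVal x⁻¹ c⁻¹ := by
  have hx := h.ne_zero hc
  have h3 : x⁻¹ - algebraMap K E c⁻¹ =
      (x - algebraMap K E c) * (-(x⁻¹ * algebraMap K E c⁻¹)) := by
    rw [map_inv₀]
    have hc' : algebraMap K E c ≠ 0 := by simpa using hc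
    field_simp; ring
  rw [IsVal, h3]
  refine Sm.mul_int h (Int.neg (Int.mul ?_ (P.int_const _)))
  exact Or.inr (by rw [P.ord_inv, h.ord_eq_zero hc]; simp)

lemma IsVal.div {c c' : K} (h : P.IsVal x c) (h' : P.IsVal y c') (hc : c' ≠ 0) :
    P.IsVal (x / y) (c / c') := by
  rw [div_eq_mul_inv, div_eq_mul_inv]; exact h.mul (h'.inv hc)

lemma ord_add_eq_of_lt (hx : x ≠ 0) (hy : y ≠ 0) (h : P.ord x < P.ord y) :
    x + y ≠ 0 ∧ P.ord (x + y) = P.ord x := by
  have h0 : x + y ≠ 0 := by
    intro h0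
    have : x = -y := eq_neg_of_add_eq_zero_left h0
    rw [this, P.ord_neg] at h; exact lt_irrefl _ h
  refine ⟨h0, le_antisymm ?_ ?_⟩
  · have h1 := P.ord_add (x + y) (-y) h0 (neg_ne_zero.2 hy) (by simpa using hx)
    rw [add_neg_cancel_right, P.ord_neg] at h1
    rcases min_le_iff.1 h1 with h2 | h2 <;> omega
  · have h1 := P.ord_add x y hx hy h0
    rw [min_eq_left h.le] at h1; exact h1

end Place

end Pool.Agent.LowDeg
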