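import Mathlib

/-! Module B1 (doc section 4): extension of derivations. -/

set_option autoImplicit false

open Polynomial IntermediateField

namespace Pool.Agent.LowDeg

namespace DerExtAux

open TensorProduct

/-- derivations extend along formally etale maps -/
theorem exists_of_formallyEtale {k A E : Type} [CommRing k] [CommRing A] [CommRing E]
    [Algebra k A] [Algebra k E] [Algebra A E] [IsScalarTower k A E] [Algebra.FormallyEtale A E]
    (d : Derivation k A E) : ∃ D : Derivation k E E, ∀ x : A, D (algebraMap A E x) = d x := by
  let f : Ω[A⁄k] →ₗ[A] E := d.liftKaehlerDifferential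
  let g : E ⊗[A] Ω[A⁄k] →ₗ[E] E := LinearMap.liftBaseChange E f
  let h : Ω[E⁄k] →ₗ[E] E :=
    g ∘ₗ (KaehlerDifferential.tensorKaehlerEquivOfFormallyEtale k A E).symm.toLinearMap
  refine ⟨h.compDer (KaehlerDifferential.D k E), fun x => ?_⟩
  have h1 := KaehlerDifferential.tensorKaehlerEquivOfFormallyEtale_symm_D_algebraMap k A E x
  have h2 : (h.compDer (KaehlerDifferential.D k E)) (algebraMap A E x) =
      g ((KaehlerDifferential.tensorKaehlerEquivOfFormallyEtale k A E).symm
        (KaehlerDifferential.D k E (algebraMap A E x))) := rfl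
  rw [h2, h1, LinearMap.liftBaseChange_tmul, one_smul]
  exact d.liftKaehlerDifferential_comp_D x

/-- the derivation of `K[X]` with values in `E` (a `K[X]`-module through `X ↦ a`) -/
theorem exists_poly {k K E : Type} [CommRing k] [Field K] [Algebra k K] [Field E]
    [Algebra K E] [Algebra k E] [IsScalarTower k K E] [Algebra K[X] E] [IsScalarTower K K[X] E]
    (δ : Derivation k K K) (ε : E) :
    ∃ d : Derivation k K[X] E, (∀ c : K, d (C c) = algebraMap K E (δ c)) ∧ d X = ε := by
  have hC : ∀ c : K, algebraMap K[X] E (C c) = algebraMap K E c := fun c => by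
    rw [IsScalarTower.algebraMap_apply K K[X] E]
    rfl
  let L : K[X] →ₗ[k] E :=
    { toFun := fun p => p.sum (fun i c => algebraMap K E (δ c) * algebraMap K[X] E X ^ i) +
        algebraMap K[X] E (derivative p) * ε
      map_add' := fun p q => by
        rw [Polynomial.sum_add_index]
        · simp only [map_add]
          ring
        · intro i
          simp
        · intro i c c'
          simp only [map_add]
          ring
      map_smul' := fun r p => by
        have h1 : r • p = (C (algebraMap k K r)) * p := by
          rw [← smul_eq_C_mul, algebraMap_smul]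
        have h2 : (r • p).sum (fun i c => algebraMap K E (δ c) * algebraMap K[X] E X ^ i) =
            r • p.sum (fun i c => algebraMap K E (δ c) * algebraMap K[X] E X ^ i) := by
          rw [Polynomial.sum_smul_index', Polynomial.sum_def, Polynomial.sum_def, Finset.smul_sum]
          · refine Finset.sum_congr rfl (fun i _ => ?_)
            rw [Derivation.map_smul, Algebra.smul_def r (δ (p.coeff i)), map_mul,
              ← IsScalarTower.algebraMap_apply k K E, mul_assoc, ← Algebra.smul_def]
          · intro i
            simp
        simp only [RingHom.id_apply]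
        rw [h2, smul_add, h1, Polynomial.derivative_C_mul, map_mul, hC, mul_assoc, Algebra.smul_def r
          (algebraMap K[X] E (derivative p) * ε), ← IsScalarTower.algebraMap_apply k K E] }
  have hLm : ∀ (i : ℕ) (c : K), L (monomial i c) =
      algebraMap K E (δ c) * algebraMap K[X] E X ^ i +
        algebraMap K[X] E (derivative (monomial i c)) * ε := by
    intro i c
    have h0 : L (monomial i c) =
      (monomial i c).sum (fun i c => algebraMap K E (δ c) * algebraMap K[X] E X ^ i) +
        algebraMap K[X] E (derivative (monomial i c)) * ε := rfl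
    rw [h0, Polynomial.sum_monomial_index]
    simp
  have hmon : ∀ (i : ℕ) (c : K), algebraMap K[X] E (monomial i c) =
      algebraMap K E c * algebraMap K[X] E X ^ i := by
    intro i c
    rw [← C_mul_X_pow_eq_monomial, map_mul, map_pow, hC]
  refine ⟨Derivation.mk' L (fun p q => ?_), fun c => ?_, ?_⟩
  · induction p using Polynomial.induction_on' with
    | add p p' h1 h2 =>
      rw [add_mul, map_add, h1, h2, map_add, add_smul, smul_add]
      abel
    | monomial i c =>
      induction q using Polynomial.induction_on' with
      | add q q' h1 h2 =>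
        rw [mul_add, map_add, h1, h2, map_add, add_smul, smul_add]
        abel
      | monomial j e =>
        rw [Polynomial.monomial_mul_monomial, hLm, hLm, hLm, Derivation.leibniz,
          ← Polynomial.monomial_mul_monomial, Polynomial.derivative_mul]
        simp only [Algebra.smul_def, map_add, map_mul, hmon]
        simp only [Algebra.algebraMap_self, RingHom.id_apply]
        ring
  · change L (C c) = _
    rw [← monomial_zero_left, hLm]
    simp
  · change L X = _
    rw [← monomial_one_one_eq_X, hLm]
    simp

end DerExtAux

open DerExtAux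
open scoped IntermediateField.algebraAdjoinAdjoin

/-- Extension of derivations: `E` algebraic over `K(a)`, `a` transcendental over `K`, `char K = 0`. -/
theorem exists_derivation {k K E : Type} [CommRing k] [Field K] [Algebra k K] [CharZero K] [Field E]
    [Algebra K E] [Algebra k E] [IsScalarTower k K E] (a : E) (ha : Transcendental K a)
    [FiniteDimensional K⟮a⟯ E] (δ : Derivation k K K) (ε : E) :
    ∃ D : Derivation k E E, (∀ c : K, D (algebraMap K E c) = algebraMap K E (δ c)) ∧ D a = ε := by
  have hinj : Function.Injective (aeval a : K[X] →ₐ[K] E) := transcendental_iff_injective.1 ha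
  let : Algebra K[X] E := (aeval a : K[X] →ₐ[K] E).toRingHom.toAlgebra
  have : IsScalarTower K K[X] E := IsScalarTower.of_algebraMap_eq (fun c => by
    change _ = aeval a (algebraMap K K[X] c)
    simp)
  have hAlg : ∀ p : K[X], algebraMap K[X] E p = aeval a p := fun _ => rfl
  -- formally etale
  have hA0 : ∀ x : E, x ∈ (Algebra.adjoin K {a}) ↔ ∃ p : K[X], aeval a p = x := fun x => by
    rw [Algebra.adjoin_singleton_eq_range_aeval]
    rfl
  let e : K[X] →ₐ[K] (Algebra.adjoin K {a}) := (aeval a : K[X] →ₐ[K] E).codRestrict (Algebra.adjoin K {a}) (fun p =>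
    (hA0 _).2 ⟨p, rfl⟩)
  have he : Function.Bijective e := by
    constructor
    · intro p q h
      apply hinj
      exact congrArg Subtype.val h
    · rintro ⟨x, hx⟩
      obtain ⟨p, hp⟩ := (hA0 x).1 hx
      exact ⟨p, Subtype.ext hp⟩
  let : Algebra K[X] (Algebra.adjoin K {a}) := e.toRingHom.toAlgebra
  have : IsScalarTower K[X] (Algebra.adjoin K {a}) E := IsScalarTower.of_algebraMap_eq (fun _ => rfl)
  have : CharZero K⟮a⟯ := charZero_of_injective_algebraMap (algebraMap K K⟮a⟯).injective
  have h1 : Algebra.FormallyEtale K[X] (Algebra.adjoin K {a}) :=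
    Algebra.FormallyEtale.of_equiv
      (AlgEquiv.ofBijective (Algebra.ofId K[X] (Algebra.adjoin K {a})) he)
  have h2 : Algebra.FormallyEtale (Algebra.adjoin K {a}) K⟮a⟯ :=
    Algebra.FormallyEtale.of_isLocalization (nonZeroDivisors (Algebra.adjoin K {a}))
  have h3 : Algebra.FormallyEtale K⟮a⟯ E := Algebra.FormallyEtale.of_isSeparable _ _
  have h4 : Algebra.FormallyEtale (Algebra.adjoin K {a}) E := Algebra.FormallyEtale.comp (Algebra.adjoin K {a}) K⟮a⟯ E
  have h5 : Algebra.FormallyEtale K[X] E := Algebra.FormallyEtale.comp K[X] (Algebra.adjoin K {a}) E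
  have : IsScalarTower k K[X] E := IsScalarTower.of_algebraMap_eq (fun c => by
    rw [IsScalarTower.algebraMap_apply k K E, IsScalarTower.algebraMap_apply k K K[X],
      ← IsScalarTower.algebraMap_apply K K[X] E])
  obtain ⟨d, hd1, hd2⟩ := exists_poly (k := k) (K := K) (E := E) δ ε
  obtain ⟨D, hD⟩ := exists_of_formallyEtale (k := k) (A := K[X]) (E := E) d
  refine ⟨D, fun c => ?_, ?_⟩
  · rw [← hd1 c, ← hD, hAlg, aeval_C]
  · rw [← hd2, ← hD, hAlg, aeval_X]

/-- Uniqueness. -/
theorem derivation_ext {k K E : Type} [CommRing k] [Field K] [Algebra k K] [CharZero K] [Field E]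
    [Algebra K E] [Algebra k E] (a : E) [FiniteDimensional K⟮a⟯ E]
    (D D' : Derivation k E E) (h : ∀ c : K, D (algebraMap K E c) = D' (algebraMap K E c))
    (ha : D a = D' a) : D = D' := by
  have : CharZero K⟮a⟯ := charZero_of_injective_algebraMap (algebraMap K K⟮a⟯).injective
  set d : Derivation k E E := D - D' with hd
  have hdK : ∀ c : K, d (algebraMap K E c) = 0 := fun c => by
    rw [hd, Derivation.sub_apply, h, sub_self]
  have hda : d a = 0 := by rw [hd, Derivation.sub_apply, ha, sub_self]
  let F : IntermediateField K E :=
    { carrier := {x | d x = 0}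
      mul_mem' := fun {x y} hx hy => by
        rw [Set.mem_ofPred_eq] at *
        rw [Derivation.leibniz, hx, hy, smul_zero, smul_zero, add_zero]
      add_mem' := fun {x y} hx hy => by
        rw [Set.mem_ofPred_eq] at *
        rw [map_add, hx, hy, add_zero]
      algebraMap_mem' := hdK
      inv_mem' := fun x hx => by
        rw [Set.mem_ofPred_eq] at *
        rw [Derivation.leibniz_inv, hx, smul_zero] }
  have hF : K⟮a⟯ ≤ F := by
    rw [IntermediateField.adjoin_simple_le_iff]
    exact hda
  let d' : Derivation K⟮a⟯ E E :=
    Derivation.mk'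
      { toFun := d
        map_add' := map_add d
        map_smul' := fun r x => by
          have hr : d (algebraMap K⟮a⟯ E r) = 0 := hF r.2
          rw [Algebra.smul_def, Derivation.leibniz, hr, smul_zero, add_zero, RingHom.id_apply,
            smul_eq_mul]
          exact (Algebra.smul_def r (d x)).symm }
      (fun x y => d.leibniz x y)
  have : Algebra.FormallyEtale K⟮a⟯ E := Algebra.FormallyEtale.of_isSeparable _ _
  have : Subsingleton (Ω[E⁄K⟮a⟯]) := inferInstance
  have hz : ∀ x : E, d' x = 0 := by
    intro x
    rw [← d'.liftKaehlerDifferential_comp_D x, Subsingleton.elim (KaehlerDifferential.D K⟮a⟯ E x) 0,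
      map_zero]
  ext x
  have h1 : d x = 0 := hz x
  rw [hd, Derivation.sub_apply] at h1
  exact sub_eq_zero.1 h1

end Pool.Agent.LowDeg
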