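import Pool.Agent.LowDeg.TraceVal

/-! Module A3 (doc sections 2.2, 2.3): the residue theorem for simple poles. -/

set_option autoImplicit false

open Polynomial IntermediateField

namespace Pool.Agent.LowDeg

variable {K E : Type} [Field K] [IsAlgClosed K] [CharZero K] [Field E] [Algebra K E]

namespace ResidueAux

omit [IsAlgClosed K] [CharZero K] in
lemma comp_eval (p : K[X]) (a0 : K) : (p.comp (X - C a0)).eval a0 = p.eval 0 := by
  rw [eval_comp]; simp

omit [IsAlgClosed K] [CharZero K] in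
/-- What a local identity at `a0` says about a reduced fraction `A / B`. -/
lemma fin_point (A B p q : K[X]) (a0 : K) (hAB : IsCoprime A B)
    (hq : q.eval 0 ≠ 0)
    (h : (X - C a0) * A * q.comp (X - C a0) = B * p.comp (X - C a0)) :
    (¬ (X - C a0) ^ 2 ∣ B) ∧ (B.eval a0 ≠ 0 → p.eval 0 = 0) ∧
    (∀ B' : K[X], B = (X - C a0) * B' → p.eval 0 / q.eval 0 = A.eval a0 / B'.eval a0) := by
  have hX : (X - C a0 : K[X]) ≠ 0 := X_sub_C_ne_zero a0
  have hsq : ¬ (X - C a0) ^ 2 ∣ B := by
    rintro ⟨B1, hB1⟩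
    have h1 : A * q.comp (X - C a0) = (X - C a0) * B1 * p.comp (X - C a0) := by
      apply mul_left_cancel₀ hX
      rw [← mul_assoc, h, hB1]; ring
    have h2 := congrArg (eval a0) h1
    rw [eval_mul, comp_eval, eval_mul, eval_mul, eval_sub, eval_X, eval_C, sub_self, zero_mul,
      zero_mul] at h2
    have h3 : A.eval a0 = 0 := (mul_eq_zero.mp h2).resolve_right hq
    have h4 : B.eval a0 = 0 := by rw [hB1]; simp
    obtain ⟨u, v, huv⟩ := hAB
    have h5 := congrArg (eval a0) huv
    rw [eval_add, eval_mul, eval_mul, h3, h4, mul_zero, mul_zero, add_zero, eval_one] at h5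
    exact zero_ne_one h5
  refine ⟨hsq, ?_, ?_⟩
  · intro hB0
    have h2 := congrArg (eval a0) h
    rw [eval_mul, eval_mul, eval_sub, eval_X, eval_C, sub_self, zero_mul, zero_mul, eval_mul,
      comp_eval] at h2
    exact (mul_eq_zero.mp h2.symm).resolve_left hB0
  · intro B' hB'
    have h1 : A * q.comp (X - C a0) = B' * p.comp (X - C a0) := by
      apply mul_left_cancel₀ hX
      rw [← mul_assoc, h, hB']; ring
    have h2 := congrArg (eval a0) h1
    rw [eval_mul, comp_eval, eval_mul, comp_eval] at h2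
    have h3 : B'.eval a0 ≠ 0 := by
      intro h0
      apply hsq
      obtain ⟨B1, hB1⟩ := dvd_iff_isRoot.mpr h0
      exact ⟨B1, by rw [hB', hB1]; ring⟩
    rw [div_eq_div_iff hq h3, h2]; ring

omit [CharZero K] in
/-- The sum of the residues of a reduced fraction with simple poles which is `O(X ^ (-2))`. -/
lemma sum_res (A B : K[X]) (hB : B ≠ 0) (hsq : ∀ a0 : K, ¬ (X - C a0) ^ 2 ∣ B)
    (hdeg : A.natDegree + 2 ≤ B.natDegree) :
    ∃ s : Finset K, (∀ a0, a0 ∈ s ↔ B.eval a0 = 0) ∧ ∃ B' : K → K[X],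
      (∀ a0 ∈ s, B = (X - C a0) * B' a0) ∧ ∑ a0 ∈ s, A.eval a0 / (B' a0).eval a0 = 0 := by
  classical
  have hnd : B.roots.Nodup := by
    rw [Multiset.nodup_iff_count_le_one]
    intro a0
    rw [count_roots]
    by_contra hc
    exact hsq a0 ((le_rootMultiplicity_iff hB).mp (by omega))
  set s : Finset K := ⟨B.roots, hnd⟩ with hs
  have hspl : B.Splits := IsAlgClosed.splits B
  have hcard : s.card = B.natDegree := by
    rw [hs, Finset.card_mk]
    exact hspl.natDegree_eq_card_roots.symm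
  have hprod : B = C B.leadingCoeff * ∏ a ∈ s, (X - C a) := by
    conv_lhs => rw [hspl.eq_prod_roots]
    rfl
  refine ⟨s, ?_, fun a0 => C B.leadingCoeff * ∏ a ∈ s.erase a0, (X - C a), ?_, ?_⟩
  · intro a0
    rw [hs, Finset.mem_mk, mem_roots hB]
    rfl
  · intro a0 ha0
    conv_lhs => rw [hprod]
    rw [← Finset.mul_prod_erase s _ ha0]
    ring
  · have hdegA : A.degree < s.card := by
      rw [hcard]
      exact lt_of_le_of_lt degree_le_natDegree (by exact_mod_cast (by omega : A.natDegree < B.natDegree))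
    have h1 := Lagrange.coeff_eq_sum (v := fun x : K => x) (s := s) (fun x _ y _ h => h) hdegA
    have h2 : A.coeff (s.card - 1) = 0 := by
      apply coeff_eq_zero_of_natDegree_lt
      omega
    have h3 : ∑ a0 ∈ s, A.eval a0 / (C B.leadingCoeff * ∏ a ∈ s.erase a0, (X - C a)).eval a0 =
        (B.leadingCoeff)⁻¹ * ∑ i ∈ s, A.eval i / ∏ j ∈ s.erase i, (i - j) := by
      rw [Finset.mul_sum]
      refine Finset.sum_congr rfl fun a0 _ => ?_
      rw [eval_mul, eval_C, eval_prod]
      simp only [eval_sub, eval_X, eval_C]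
      rw [div_eq_mul_inv, mul_inv, div_eq_mul_inv]
      ring
    rw [h3, ← h1, h2, mul_zero]

omit [IsAlgClosed K] [CharZero K] in
lemma adjoin_sub (a : E) (a0 : K) : K⟮a - algebraMap K E a0⟯ = K⟮a⟯ := by
  apply le_antisymm
  · rw [adjoin_simple_le_iff]
    exact sub_mem (mem_adjoin_simple_self K a) (IntermediateField.algebraMap_mem _ a0)
  · rw [adjoin_simple_le_iff]
    have h1 := add_mem (mem_adjoin_simple_self K (a - algebraMap K E a0))
      (IntermediateField.algebraMap_mem K⟮a - algebraMap K E a0⟯ a0)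
    rwa [sub_add_cancel] at h1

omit [IsAlgClosed K] [CharZero K] in
lemma adjoin_inv (a : E) : K⟮a⁻¹⟯ = K⟮a⟯ := by
  apply le_antisymm
  · rw [adjoin_simple_le_iff]
    exact inv_mem (mem_adjoin_simple_self K a)
  · rw [adjoin_simple_le_iff]
    have h1 := inv_mem (mem_adjoin_simple_self K a⁻¹)
    rwa [inv_inv] at h1

omit [IsAlgClosed K] [CharZero K] in
lemma aeval_inj (a : E) (ha : Transcendental K a) {p q : K[X]} (h : aeval a p = aeval a q) :
    p = q :=
  transcendental_iff_injective.mp ha h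

omit [IsAlgClosed K] [CharZero K] in
/-- Reduced fractions. -/
lemma rat_rep (a : E) (ha : Transcendental K a) (R : K⟮a⟯) :
    ∃ A B : K[X], B ≠ 0 ∧ IsCoprime A B ∧ (R : E) * aeval a B = aeval a A := by
  classical
  obtain ⟨r, s, hrs⟩ := (mem_adjoin_simple_iff K (R : E)).mp R.2
  by_cases hs : s = 0
  · refine ⟨0, 1, one_ne_zero, isCoprime_one_right, ?_⟩
    rw [hrs, hs]; simp
  · have hs' : aeval a s ≠ 0 := by
      intro h0
      apply hs
      apply aeval_inj a ha
      rw [h0, map_zero]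
    have hg : GCDMonoid.gcd r s ≠ 0 := gcd_ne_zero_of_right hs
    have h1 : GCDMonoid.gcd r s * (r / GCDMonoid.gcd r s) = r :=
      EuclideanDomain.mul_div_cancel' hg (gcd_dvd_left _ _)
    have h2 : GCDMonoid.gcd r s * (s / GCDMonoid.gcd r s) = s :=
      EuclideanDomain.mul_div_cancel' hg (gcd_dvd_right _ _)
    refine ⟨r / GCDMonoid.gcd r s, s / GCDMonoid.gcd r s, ?_, isCoprime_div_gcd_div_gcd hs, ?_⟩
    · intro h0
      rw [h0, mul_zero] at h2
      exact hs h2.symm
    · rw [hrs]
      have hg' : aeval a (GCDMonoid.gcd r s) ≠ 0 := by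
        intro h0
        apply hg
        apply aeval_inj a ha
        rw [h0, map_zero]
      have h3 : aeval a r = aeval a (GCDMonoid.gcd r s) * aeval a (r / GCDMonoid.gcd r s) := by
        rw [← map_mul, h1]
      have h4 : aeval a s = aeval a (GCDMonoid.gcd r s) * aeval a (s / GCDMonoid.gcd r s) := by
        rw [← map_mul, h2]
      have h5 : aeval a (s / GCDMonoid.gcd r s) ≠ 0 := by
        intro h0
        rw [h0, mul_zero] at h4
        exact hs' h4
      rw [h3, h4]
      field_simp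

/-- The local identity at a finite point. -/
lemma local_id (a : E) (ha : Transcendental K a) [FiniteDimensional K⟮a⟯ E] (θ : E)
    (A B : K[X]) (hR : (Algebra.trace K⟮a⟯ E θ : E) * aeval a B = aeval a A)
    (a0 : K) (v : Place K E → K)
    (hv : ∀ P : Place K E, P.IsVal a a0 → P.IsVal ((a - algebraMap K E a0) * θ) (v P)) :
    ∃ S : Finset (Place K E), (∀ P, P ∈ S ↔ P.IsVal a a0) ∧ ∃ p q : K[X], q.eval 0 ≠ 0 ∧
      (X - C a0) * A * q.comp (X - C a0) = B * p.comp (X - C a0) ∧
      p.eval 0 / q.eval 0 = ∑ P ∈ S, (P.ord (a - algebraMap K E a0) : K) * v P := by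
  obtain ⟨S, hS, p, q, hq, hpq, hval⟩ := trace_val a ha (a - algebraMap K E a0)
    (adjoin_sub a a0) ((a - algebraMap K E a0) * θ) (fun P hP => (hv P hP).int)
  refine ⟨S, hS, p, q, hq, ?_, hval v (fun P hP => hv P ((hS P).mp hP))⟩
  have hmem : a - algebraMap K E a0 ∈ K⟮a⟯ :=
    sub_mem (mem_adjoin_simple_self K a) (IntermediateField.algebraMap_mem _ a0)
  have h1 : (a - algebraMap K E a0) * θ = (⟨a - algebraMap K E a0, hmem⟩ : K⟮a⟯) • θ := by
    rw [Algebra.smul_def]; rfl
  have h2 : (Algebra.trace K⟮a⟯ E ((a - algebraMap K E a0) * θ) : E) =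
      (a - algebraMap K E a0) * (Algebra.trace K⟮a⟯ E θ : E) := by
    rw [h1, map_smul]; rfl
  have h3 : aeval (a - algebraMap K E a0) p = aeval a (p.comp (X - C a0)) := by
    rw [aeval_comp]; simp
  have h4 : aeval (a - algebraMap K E a0) q = aeval a (q.comp (X - C a0)) := by
    rw [aeval_comp]; simp
  rw [h2, h3, h4] at hpq
  apply aeval_inj a ha
  rw [map_mul, map_mul, map_mul, ← hR, ← hpq, map_sub, aeval_X, aeval_C]
  ring

omit [IsAlgClosed K] [CharZero K] in
lemma aeval_inv_mul_pow (a : E) (ha : a ≠ 0) (f : K[X]) (N : ℕ) (hf : f.natDegree ≤ N) :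
    aeval a⁻¹ f * a ^ N = aeval a (reflect N f) := by
  let _ : Invertible a⁻¹ := invertibleOfNonzero (inv_ne_zero ha)
  have h := eval₂_reflect_mul_pow (algebraMap K E) a⁻¹ N f hf
  have h1 : ⅟(a⁻¹) = a := by
    rw [invOf_eq_inv, inv_inv]
  rw [h1] at h
  rw [aeval_def, aeval_def, ← h, mul_assoc, ← mul_pow, inv_mul_cancel₀ ha, one_pow, mul_one]

/-- The identity at infinity. -/
lemma inf_deg (a : E) (ha : Transcendental K a) [FiniteDimensional K⟮a⟯ E] (θ : E)
    (A B : K[X]) (hR : (Algebra.trace K⟮a⟯ E θ : E) * aeval a B = aeval a A)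
    (hinf : ∀ P : Place K E, ¬ P.Int a → P.Sm (a * θ)) :
    A = 0 ∨ A.natDegree + 2 ≤ B.natDegree := by
  have ha0 : a ≠ 0 := by
    rintro rfl
    exact ha (isAlgebraic_zero)
  have hinf' : ∀ P : Place K E, P.Sm a⁻¹ → P.IsVal (a * θ) 0 := by
    intro P hP
    rw [Place.isVal_zero_iff]
    apply hinf
    intro hint
    rcases hP with h | h
    · exact ha0 (inv_eq_zero.mp h)
    · rw [P.ord_inv] at h
      have := hint.resolve_left ha0
      omega
  obtain ⟨S, hS, p, q, hq, hpq, hval⟩ := trace_val a ha a⁻¹ (adjoin_inv a) (a * θ)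
    (fun P hP => (hinf' P hP).int)
  have hp0 : p.eval 0 = 0 := by
    have h := hval (fun _ => 0) (fun P hP => hinf' P ((hS P).mp hP))
    simp only [mul_zero, Finset.sum_const_zero] at h
    exact (div_eq_zero_iff.mp h).resolve_right hq
  have h1 : a * θ = (⟨a, mem_adjoin_simple_self K a⟩ : K⟮a⟯) • θ := by
    rw [Algebra.smul_def]; rfl
  have h2 : (Algebra.trace K⟮a⟯ E (a * θ) : E) = a * (Algebra.trace K⟮a⟯ E θ : E) := by
    rw [h1, map_smul]; rfl
  rw [h2] at hpq
  by_cases hA : A = 0
  · exact Or.inl hA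
  right
  set N := max p.natDegree q.natDegree with hN
  have h3 := aeval_inv_mul_pow a ha0 p N (le_max_left _ _)
  have h4 := aeval_inv_mul_pow a ha0 q N (le_max_right _ _)
  have h5 : X * A * reflect N q = B * reflect N p := by
    apply aeval_inj a ha
    rw [map_mul, map_mul, map_mul, ← hR, ← h3, ← h4, ← hpq, aeval_X]
    ring
  have hcq : (reflect N q).coeff N ≠ 0 := by
    rw [coeff_reflect, revAt_le le_rfl, Nat.sub_self, coeff_zero_eq_eval_zero]
    exact hq
  have hcp : (reflect N p).coeff N = 0 := by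
    rw [coeff_reflect, revAt_le le_rfl, Nat.sub_self, coeff_zero_eq_eval_zero]
    exact hp0
  have hrq : reflect N q ≠ 0 := by
    intro h0; rw [h0] at hcq; exact hcq rfl
  have hL : X * A * reflect N q ≠ 0 := mul_ne_zero (mul_ne_zero X_ne_zero hA) hrq
  have hRr : B * reflect N p ≠ 0 := h5 ▸ hL
  have hB : B ≠ 0 := left_ne_zero_of_mul hRr
  have hrp : reflect N p ≠ 0 := right_ne_zero_of_mul hRr
  have hdq : N ≤ (reflect N q).natDegree := le_natDegree_of_ne_zero hcq
  have hdp : (reflect N p).natDegree < N := by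
    have h6 : (reflect N p).natDegree ≤ N := by
      rw [natDegree_le_iff_coeff_eq_zero]
      intro i hi
      rw [coeff_reflect]
      have : revAt N i = i := by
        rw [revAt_eq_self_of_lt hi]
      rw [this]
      exact coeff_eq_zero_of_natDegree_lt (lt_of_le_of_lt (le_max_left _ _) hi)
    rcases h6.lt_or_eq with h | h
    · exact h
    · exfalso
      have h7 : (reflect N p).leadingCoeff ≠ 0 := leadingCoeff_ne_zero.mpr hrp
      rw [leadingCoeff, h] at h7
      exact h7 hcp
  have h8 := congrArg natDegree h5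
  rw [natDegree_mul (mul_ne_zero X_ne_zero hA) hrq, natDegree_mul X_ne_zero hA, natDegree_X,
    natDegree_mul hB hrp] at h8
  omega

end ResidueAux

open ResidueAux

/-- (RES) -/
theorem residue_sum (a : E) (ha : Transcendental K a) [FiniteDimensional K⟮a⟯ E] (θ : E)
    (S : Finset (Place K E)) (c ρ : Place K E → K)
    (hS : ∀ P ∈ S, P.IsVal a (c P) ∧ P.IsVal ((a - algebraMap K E (c P)) * θ) (ρ P))
    (hout : ∀ P : Place K E, P ∉ S → ∀ c₀ : K, P.IsVal a c₀ →
      P.Sm ((a - algebraMap K E c₀) * θ))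
    (hinf : ∀ P : Place K E, ¬ P.Int a → P.Sm (a * θ)) :
    ∑ P ∈ S, (P.ord (a - algebraMap K E (c P)) : K) * ρ P = 0 := by
  classical
  obtain ⟨A, B, hB, hAB, hR⟩ := rat_rep a ha (Algebra.trace K⟮a⟯ E θ)
  set v : Place K E → K := fun P => if P ∈ S then ρ P else 0 with hvdef
  have hv : ∀ (a0 : K) (P : Place K E), P.IsVal a a0 →
      P.IsVal ((a - algebraMap K E a0) * θ) (v P) := by
    intro a0 P hP
    by_cases hPS : P ∈ S
    · have h1 := hS P hPS
      have h2 : c P = a0 := h1.1.unique hP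
      rw [hvdef]
      simp only [hPS, if_true]
      rw [← h2]
      exact h1.2
    · rw [hvdef]
      simp only [hPS, if_false]
      rw [Place.isVal_zero_iff]
      exact hout P hPS a0 hP
  have hloc := fun a0 => local_id a ha θ A B hR a0 v (hv a0)
  set D : K → K := fun a0 => ∑ P ∈ S.filter (fun P => c P = a0),
    (P.ord (a - algebraMap K E a0) : K) * ρ P with hD
  have hDval : ∀ a0 : K, ∃ p q : K[X], q.eval 0 ≠ 0 ∧
      (X - C a0) * A * q.comp (X - C a0) = B * p.comp (X - C a0) ∧
      p.eval 0 / q.eval 0 = D a0 := by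
    intro a0
    obtain ⟨S0, hS0, p, q, hq, hpq, hval⟩ := hloc a0
    refine ⟨p, q, hq, hpq, ?_⟩
    rw [hval, hD]
    symm
    have hsub : S.filter (fun P => c P = a0) ⊆ S0 := by
      intro P hP
      rw [Finset.mem_filter] at hP
      rw [hS0, ← hP.2]
      exact (hS P hP.1).1
    rw [← Finset.sum_subset hsub]
    · refine Finset.sum_congr rfl fun P hP => ?_
      rw [Finset.mem_filter] at hP
      rw [hvdef]
      simp only [hP.1, if_true]
    · intro P hP hPn
      have h1 : P ∉ S := by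
        intro hPS
        apply hPn
        rw [Finset.mem_filter]
        exact ⟨hPS, (hS P hPS).1.unique ((hS0 P).mp hP)⟩
      rw [hvdef]
      simp only [h1, if_false, mul_zero]
  have hsum : ∑ P ∈ S, (P.ord (a - algebraMap K E (c P)) : K) * ρ P =
      ∑ a0 ∈ S.image c, D a0 := by
    rw [← Finset.sum_fiberwise_of_maps_to (g := c) (t := S.image c)
      (fun P hP => Finset.mem_image_of_mem c hP)]
    refine Finset.sum_congr rfl fun a0 _ => ?_
    rw [hD]
    refine Finset.sum_congr rfl fun P hP => ?_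
    rw [(Finset.mem_filter.mp hP).2]
  rw [hsum]
  have hD0 : ∀ a0, B.eval a0 ≠ 0 → D a0 = 0 := by
    intro a0 hBa0
    obtain ⟨p, q, hq, hpq, hval⟩ := hDval a0
    rw [← hval, (fin_point A B p q a0 hAB hq hpq).2.1 hBa0, zero_div]
  rcases inf_deg a ha θ A B hR hinf with hA | hdeg
  · apply Finset.sum_eq_zero
    intro a0 _
    apply hD0
    rw [hA, isCoprime_zero_left] at hAB
    intro h0
    obtain ⟨u, hu⟩ := hAB.exists_left_inv
    have h2 := congrArg (eval a0) hu
    rw [eval_mul, h0, mul_zero, eval_one] at h2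
    exact zero_ne_one h2
  · obtain ⟨s, hs, B', hB', hsum0⟩ := sum_res A B hB (fun a0 => by
      obtain ⟨p, q, hq, hpq, _⟩ := hDval a0
      exact (fin_point A B p q a0 hAB hq hpq).1) hdeg
    have h1 : ∑ a0 ∈ S.image c, D a0 = ∑ a0 ∈ S.image c ∪ s, D a0 := by
      apply Finset.sum_subset Finset.subset_union_left
      intro a0 _ hn
      rw [hD]
      apply Finset.sum_eq_zero
      intro P hP
      exfalso
      apply hn
      rw [Finset.mem_filter] at hP
      rw [← hP.2]
      exact Finset.mem_image_of_mem c hP.1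
    have h2 : ∑ a0 ∈ s, D a0 = ∑ a0 ∈ S.image c ∪ s, D a0 := by
      apply Finset.sum_subset Finset.subset_union_right
      intro a0 _ hn
      apply hD0
      intro h0
      exact hn ((hs a0).mpr h0)
    rw [h1, ← h2, ← hsum0]
    refine Finset.sum_congr rfl fun a0 ha0 => ?_
    obtain ⟨p, q, hq, hpq, hval⟩ := hDval a0
    rw [← hval]
    exact (fin_point A B p q a0 hAB hq hpq).2.2 (B' a0) (hB' a0 ha0)

/-- (TRZ) -/
theorem trace_zero (a : E) (ha : Transcendental K a) [FiniteDimensional K⟮a⟯ E] (θ : E)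
    (hfin : ∀ (P : Place K E) (c₀ : K), P.IsVal a c₀ → P.Sm ((a - algebraMap K E c₀) * θ))
    (hinf : ∀ P : Place K E, ¬ P.Int a → P.Sm (a * θ)) :
    Algebra.trace K⟮a⟯ E θ = 0 := by
  classical
  obtain ⟨A, B, hB, hAB, hR⟩ := rat_rep a ha (Algebra.trace K⟮a⟯ E θ)
  have hno : ∀ a0 : K, B.eval a0 ≠ 0 := by
    intro a0 h0
    obtain ⟨S0, hS0, p, q, hq, hpq, hval⟩ := local_id a ha θ A B hR a0 (fun _ => 0)
      (fun P hP => Place.isVal_zero_iff.mpr (hfin P a0 hP))
    simp only [mul_zero, Finset.sum_const_zero] at hval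
    obtain ⟨hsq, _, h3⟩ := fin_point A B p q a0 hAB hq hpq
    obtain ⟨B', hB'⟩ := dvd_iff_isRoot.mpr h0
    have h4 := h3 B' hB'
    rw [hval] at h4
    have h5 : B'.eval a0 ≠ 0 := by
      intro h0'
      apply hsq
      obtain ⟨B1, hB1⟩ := dvd_iff_isRoot.mpr h0'
      exact ⟨B1, by rw [hB', hB1]; ring⟩
    have h6 : A.eval a0 = 0 := (div_eq_zero_iff.mp h4.symm).resolve_right h5
    obtain ⟨u, w, huw⟩ := hAB
    have h7 := congrArg (eval a0) huw
    rw [eval_add, eval_mul, eval_mul, h6, h0, mul_zero, mul_zero, add_zero, eval_one] at h7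
    exact zero_ne_one h7
  have hB0 : B.natDegree = 0 := by
    by_contra hne
    obtain ⟨a0, ha0⟩ := IsAlgClosed.exists_root B (by
      intro h
      apply hne
      exact natDegree_eq_of_degree_eq_some h)
    exact hno a0 ha0
  have hA : A = 0 := by
    rcases inf_deg a ha θ A B hR hinf with hA | hdeg
    · exact hA
    · omega
  rw [hA, map_zero] at hR
  have hBa : aeval a B ≠ 0 := by
    intro h0
    apply hB
    apply aeval_inj a ha
    rw [h0, map_zero]
  have h := (mul_eq_zero.mp hR).resolve_right hBa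
  exact Subtype.ext (by simpa using h)

end Pool.Agent.LowDeg
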