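import Pool.Agent.LowDeg.Place

/-! Module A1 (doc section 1): derivations at a place. -/

set_option autoImplicit false
set_option linter.unusedSectionVars false

open Polynomial IntermediateField

namespace Pool.Agent.LowDeg

namespace LocalDerAux

open scoped IntermediateField.algebraAdjoinAdjoin

variable {K E : Type} [Field K] [Field E] [Algebra K E] (P : Place K E)

/-- `y` has order at least `n` -/
def Ge (n : ℤ) (y : E) : Prop := y = 0 ∨ n ≤ P.ord y

variable {P} {m n : ℤ} {x y z : E}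

lemma ge_zero_iff : Ge P 0 y ↔ P.Int y := Iff.rfl

lemma ge_one_iff : Ge P 1 y ↔ P.Sm y := Iff.rfl

lemma Ge.mono (h : Ge P n y) (hmn : m ≤ n) : Ge P m y := h.imp id hmn.trans

lemma ge_zero : Ge P n 0 := Or.inl rfl

lemma Ge.add (hx : Ge P n x) (hy : Ge P n y) : Ge P n (x + y) := by
  by_cases hx0 : x = 0
  · simpa [hx0] using hy
  by_cases hy0 : y = 0
  · simpa [hy0] using hx
  by_cases h : x + y = 0
  · exact Or.inl h
  · exact Or.inr ((le_min (hx.resolve_left hx0) (hy.resolve_left hy0)).trans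
      (P.ord_add x y hx0 hy0 h))

lemma Ge.mul (hx : Ge P m x) (hy : Ge P n y) : Ge P (m + n) (x * y) := by
  by_cases hx0 : x = 0
  · exact Or.inl (by simp [hx0])
  by_cases hy0 : y = 0
  · exact Or.inl (by simp [hy0])
  have h1 := hx.resolve_left hx0
  have h2 := hy.resolve_left hy0
  exact Or.inr (by rw [P.ord_mul x y hx0 hy0]; omega)

lemma Ge.mul_int (hx : Ge P n x) (hy : P.Int y) : Ge P n (x * y) := by
  have := Ge.mul hx (ge_zero_iff.2 hy)
  simpa using this

lemma Ge.int_mul (hx : P.Int x) (hy : Ge P n y) : Ge P n (x * y) := by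
  have := Ge.mul (ge_zero_iff.2 hx) hy
  simpa using this

lemma Ge.neg (hx : Ge P n x) : Ge P n (-x) := by
  rcases hx with h | h
  · exact Or.inl (by simp [h])
  · exact Or.inr (by rwa [P.ord_neg])

lemma Ge.sub (hx : Ge P n x) (hy : Ge P n y) : Ge P n (x - y) := by
  rw [sub_eq_add_neg]; exact hx.add hy.neg

lemma Ge.sum {ι : Type*} (s : Finset ι) {f : ι → E} (h : ∀ i ∈ s, Ge P n (f i)) :
    Ge P n (∑ i ∈ s, f i) := by
  classical
  induction s using Finset.induction_on with
  | empty => simpa using (ge_zero : Ge P n 0)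
  | insert i s hi ih =>
    rw [Finset.sum_insert hi]
    exact (h i (by simp)).add (ih fun j hj => h j (by simp [hj]))

lemma int_natCast (i : ℕ) : P.Int (i : E) := by
  have := P.int_const (i : K)
  simpa using this

lemma ge_pow {τ : E} (hτ : P.ord τ = 1) (hτ0 : τ ≠ 0) (N : ℕ) : Ge P N (τ ^ N) :=
  Or.inr (by rw [P.ord_pow hτ0, hτ, mul_one])

/-- power differences -/
lemma pow_sub_pow (hx : P.Int x) (hy : P.Int y) (i : ℕ) :
    ∃ q, P.Int q ∧ x ^ i - y ^ i = (x - y) * q := by
  induction i with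
  | zero => exact ⟨0, P.int_zero, by simp⟩
  | succ i ih =>
    obtain ⟨q, hq, h⟩ := ih
    refine ⟨x * q + y ^ i, (hx.mul hq).add (hy.pow i), ?_⟩
    have : x ^ (i + 1) - y ^ (i + 1) = x * (x ^ i - y ^ i) + (x - y) * y ^ i := by ring
    rw [this, h]; ring

section adj
variable (P)
variable {τ : E} (hτ : P.ord τ = 1) (hτ0 : τ ≠ 0)
include hτ hτ0

lemma isVal_tau : P.IsVal τ 0 := by
  rw [Place.isVal_zero_iff]; exact Or.inr (by omega)

lemma transcendental_tau : Transcendental K τ := by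
  intro h
  have hi : IsIntegral K τ := h.isIntegral
  have h1 := (isVal_tau P hτ hτ0).polyAeval (minpoly K τ)
  rw [minpoly.aeval] at h1
  have h2 : P.IsVal (0 : E) 0 := Place.isVal_zero_iff.2 P.sm_zero
  have h3 := h1.unique h2
  rw [← Polynomial.coeff_zero_eq_eval_zero] at h3
  exact hτ0 ((minpoly.coeff_zero_eq_zero hi).1 h3)

lemma int_tau : P.Int τ := Or.inr (by omega)

lemma int_mem {c : E} (hc : c ∈ Algebra.adjoin K {τ}) : P.Int c := by
  rw [Algebra.adjoin_singleton_eq_range_aeval] at hc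
  obtain ⟨q, rfl⟩ := hc
  exact ((isVal_tau P hτ hτ0).polyAeval q).int

lemma div_mem (N : ℕ) : ∀ c ∈ Algebra.adjoin K {τ}, Ge P N c →
    ∃ c' ∈ Algebra.adjoin K {τ}, c = τ ^ N * c' := by
  induction N with
  | zero => exact fun c hc _ => ⟨c, hc, by simp⟩
  | succ N ih =>
    intro c hc h
    obtain ⟨c', hc', rfl⟩ := ih c hc (h.mono (by push_cast; omega))
    have h1 : P.Sm c' := by
      by_cases h0 : c' = 0
      · exact Or.inl h0
      right
      have h2 := h.resolve_left (mul_ne_zero (pow_ne_zero _ hτ0) h0)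
      rw [P.ord_mul _ _ (pow_ne_zero _ hτ0) h0, P.ord_pow hτ0, hτ] at h2
      push_cast at h2; omega
    have hc2 := hc'
    rw [Algebra.adjoin_singleton_eq_range_aeval] at hc2
    obtain ⟨q, hq⟩ := hc2
    have hq : Polynomial.aeval τ q = c' := hq
    have h3 := (isVal_tau P hτ hτ0).polyAeval q
    rw [hq] at h3
    have h4 : q.eval 0 = 0 := h3.unique (Place.isVal_zero_iff.2 h1)
    have h5 : (X : K[X]) ∣ q := by
      rw [Polynomial.X_dvd_iff, Polynomial.coeff_zero_eq_eval_zero]; exact h4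
    obtain ⟨q2, rfl⟩ := h5
    refine ⟨Polynomial.aeval τ q2, ?_, ?_⟩
    · rw [Algebra.adjoin_singleton_eq_range_aeval]; exact ⟨q2, rfl⟩
    · rw [← hq, map_mul, Polynomial.aeval_X]; ring

lemma approx {x : E} (hx : P.Int x) (N : ℕ) :
    ∃ c ∈ Algebra.adjoin K {τ}, Ge P N (x - c) := by
  induction N with
  | zero => exact ⟨0, Subalgebra.zero_mem _, by simpa using ge_zero_iff.2 hx⟩
  | succ N ih =>
    obtain ⟨c, hc, h⟩ := ih
    by_cases h0 : x - c = 0
    · exact ⟨c, hc, Or.inl h0⟩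
    have hN := h.resolve_left h0
    have hp : τ ^ N ≠ 0 := pow_ne_zero _ hτ0
    have h1 : P.Int ((x - c) / τ ^ N) := Or.inr (by
      rw [P.ord_div h0 hp, P.ord_pow hτ0, hτ]; omega)
    obtain ⟨b, hb⟩ := h1.exists_isVal
    refine ⟨c + τ ^ N * algebraMap K E b, ?_, ?_⟩
    · exact Subalgebra.add_mem _ hc (Subalgebra.mul_mem _
        (Subalgebra.pow_mem _ (Algebra.self_mem_adjoin_singleton K τ) _)
        (Subalgebra.algebraMap_mem _ _))
    · have h2 : x - (c + τ ^ N * algebraMap K E b)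
          = τ ^ N * ((x - c) / τ ^ N - algebraMap K E b) := by
        field_simp; ring
      rw [h2]
      have h3 : Ge P 1 ((x - c) / τ ^ N - algebraMap K E b) := hb
      have h4 := Ge.mul (ge_pow hτ hτ0 N) h3
      push_cast
      exact h4

end adj

section der
variable {k : Type} [CommRing k] [Algebra k E]

/-- the polynomial with differentiated coefficients, evaluated at `y` -/
noncomputable def dEval (A : Subalgebra K E) (D : Derivation k E E) (f : A[X]) (y : E) : E :=
  f.sum fun i c => D (c : E) * y ^ i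

lemma der_aeval (A : Subalgebra K E) (D : Derivation k E E) (f : A[X]) (y : E) :
    D (Polynomial.aeval y f) = dEval A D f y + Polynomial.aeval y f.derivative * D y := by
  induction f using Polynomial.induction_on' with
  | add p q hp hq =>
    have h1 : dEval A D (p + q) y = dEval A D p y + dEval A D q y := by
      unfold dEval
      refine Polynomial.sum_add_index p q _ (by intro i; simp) ?_
      intro i a b
      simp [add_mul]
    rw [map_add, map_add, hp, hq, h1, Polynomial.derivative_add, map_add]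
    ring
  | monomial n c =>
    have h1 : dEval A D (Polynomial.monomial n c) y = D (c : E) * y ^ n := by
      unfold dEval
      rw [Polynomial.sum_monomial_index _ _ (by simp)]
    rw [h1, Polynomial.aeval_monomial, Polynomial.derivative_monomial,
      Polynomial.aeval_monomial, Derivation.leibniz, Derivation.leibniz_pow]
    simp only [smul_eq_mul, nsmul_eq_mul, map_mul, map_natCast]
    change (c : E) * (n * (y ^ (n - 1) * D y)) + y ^ n * D (c : E) =
      D (c : E) * y ^ n + (c : E) * n * y ^ (n - 1) * D y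
    ring

/-- (V0), with the order predicate -/
lemma ge_der [CharZero K] (halg : ∀ x : E, Transcendental K x → Algebra.IsAlgebraic K⟮x⟯ E)
    (D : Derivation k E E) (hD : ∀ c : K, ∃ c' : K, D (algebraMap K E c) = algebraMap K E c')
    (τ : E) (hτ : P.ord τ = 1) (hτ0 : τ ≠ 0) (ρ : ℤ) (hρ : ρ ≤ 0) (hρ' : Ge P ρ (D τ))
    (x : E) (hx : P.Int x) : Ge P ρ (D x) := by
  have hcz : CharZero E := charZero_of_injective_algebraMap (algebraMap K E).injective
  obtain ⟨A, hA⟩ : ∃ A : Subalgebra K E, A = Algebra.adjoin K {τ} := ⟨_, rfl⟩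
  have hAint : ∀ c ∈ A, P.Int c := fun c hc => int_mem P hτ hτ0 (hA ▸ hc)
  have hDA : ∀ c ∈ A, Ge P ρ (D c) := by
    intro c hc
    rw [hA, Algebra.adjoin_singleton_eq_range_aeval] at hc
    obtain ⟨q, rfl⟩ := hc
    change Ge P ρ (D (Polynomial.aeval τ q))
    induction q using Polynomial.induction_on' with
    | add p q hp hq => rw [map_add, map_add]; exact hp.add hq
    | monomial n a =>
      rw [Polynomial.aeval_monomial, Derivation.leibniz, Derivation.leibniz_pow]
      simp only [smul_eq_mul, nsmul_eq_mul]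
      obtain ⟨a', ha'⟩ := hD a
      rw [ha']
      have hi : P.Int τ := int_tau P hτ hτ0
      refine Ge.add (Ge.int_mul (P.int_const a) (Ge.int_mul (int_natCast n)
        (Ge.int_mul (hi.pow _) hρ'))) ?_
      have h1 : Ge P 0 (τ ^ n * algebraMap K E a') :=
        ge_zero_iff.2 ((hi.pow n).mul (P.int_const a'))
      exact h1.mono hρ
  -- an algebraic equation
  have htr := transcendental_tau P hτ hτ0
  have halgx : IsAlgebraic A x := by
    have h1 : IsAlgebraic K⟮τ⟯ x := (halg τ htr).isAlgebraic x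
    rw [hA]
    exact (IsFractionRing.isAlgebraic_iff (Algebra.adjoin K {τ}) K⟮τ⟯ E).2 h1
  obtain ⟨f, hf0, hf, hmin⟩ : ∃ f : A[X], f ≠ 0 ∧ Polynomial.aeval x f = 0 ∧
      ∀ g : A[X], g ≠ 0 → Polynomial.aeval x g = 0 → f.natDegree ≤ g.natDegree := by
    classical
    have hex : ∃ n : ℕ, ∃ f : A[X], f ≠ 0 ∧ Polynomial.aeval x f = 0 ∧ f.natDegree = n := by
      obtain ⟨f, h0, h1⟩ := halgx
      exact ⟨_, f, h0, h1, rfl⟩
    obtain ⟨f, h0, h1, h2⟩ := Nat.find_spec hex
    refine ⟨f, h0, h1, fun g hg0 hg => ?_⟩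
    rw [h2]
    exact Nat.find_min' hex ⟨g, hg0, hg, rfl⟩
  have hf' : Polynomial.aeval x f.derivative ≠ 0 := by
    intro h
    have hdeg : f.natDegree ≠ 0 := by
      intro h0
      rw [Polynomial.eq_C_of_natDegree_eq_zero h0, Polynomial.aeval_C] at hf
      apply hf0
      rw [Polynomial.eq_C_of_natDegree_eq_zero h0]
      have : f.coeff 0 = 0 := by
        apply Subtype.ext
        exact hf
      rw [this, Polynomial.C_0]
    by_cases hd : f.derivative = 0
    · exact hdeg (Polynomial.derivative_eq_zero.1 hd)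
    · have h1 := hmin _ hd h
      have h2 := Polynomial.natDegree_derivative_lt hdeg
      omega
  -- approximation
  obtain ⟨d, hd⟩ : ∃ d : ℤ, d = P.ord (Polynomial.aeval x f.derivative) := ⟨_, rfl⟩
  obtain ⟨N, hN1, hNd⟩ : ∃ N : ℕ, 1 ≤ N ∧ d + 1 ≤ (N : ℤ) :=
    ⟨d.toNat + 1, by omega, by push_cast; have := Int.self_le_toNat d; omega⟩
  obtain ⟨c, hc, hxc⟩ := approx P hτ hτ0 hx N
  rw [← hA] at hc
  have hcint := hAint c hc
  have hlip : ∀ (r : ℤ) (s : Finset ℕ) (g : ℕ → E), (∀ i, Ge P r (g i)) →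
      Ge P (r + N) (∑ i ∈ s, g i * x ^ i - ∑ i ∈ s, g i * c ^ i) := by
    intro r s g hg
    rw [← Finset.sum_sub_distrib]
    refine Ge.sum _ fun i _ => ?_
    obtain ⟨q, hq, h⟩ := pow_sub_pow hx hcint i
    rw [← mul_sub, h]
    exact (hg i).mul (hxc.mul_int hq)
  have hae : ∀ (g : A[X]) (y : E), Polynomial.aeval y g =
      ∑ i ∈ g.support, ((g.coeff i : A) : E) * y ^ i := by
    intro g y
    rw [Polynomial.aeval_def, Polynomial.eval₂_eq_sum, Polynomial.sum_def]
    rfl
  have hlip1 : ∀ g : A[X], Ge P N (Polynomial.aeval x g - Polynomial.aeval c g) := by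
    intro g
    rw [hae, hae]
    have := hlip 0 g.support (fun i => ((g.coeff i : A) : E))
      (fun i => ge_zero_iff.2 (hAint _ (g.coeff i).2))
    simpa using this
  have hlip2 : Ge P (ρ + N) (dEval A D f x - dEval A D f c) := by
    unfold dEval
    rw [Polynomial.sum_def, Polynomial.sum_def]
    exact hlip ρ f.support (fun i => D ((f.coeff i : A) : E)) (fun i => hDA _ (f.coeff i).2)
  have hfc : Polynomial.aeval c f ∈ A := by
    have h1 : Polynomial.aeval c f = ((f.eval (⟨c, hc⟩ : A) : A) : E) := by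
      have := Polynomial.aeval_algebraMap_apply_eq_algebraMap_eval (⟨c, hc⟩ : A) (A := E) f
      exact this
    rw [h1]; exact (f.eval (⟨c, hc⟩ : A)).2
  have hfcN : Ge P N (Polynomial.aeval c f) := by
    have := (hlip1 f).neg
    rw [hf] at this
    simpa using this
  obtain ⟨q, hq, hfq⟩ := div_mem P hτ hτ0 N _ (hA ▸ hfc) hfcN
  rw [← hA] at hq
  have hDf : Ge P (N - 1 + ρ) (D (Polynomial.aeval c f)) := by
    rw [hfq, Derivation.leibniz, Derivation.leibniz_pow]
    simp only [smul_eq_mul, nsmul_eq_mul]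
    refine Ge.add ?_ ?_
    · have h1 := Ge.mul (ge_pow hτ hτ0 N) (hDA q hq)
      exact h1.mono (by omega)
    · have h1 : Ge P ((N - 1 : ℕ) + ρ) (τ ^ (N - 1) * D τ) :=
        Ge.mul (ge_pow hτ hτ0 (N - 1)) hρ'
      have h2 : Ge P ((N - 1 : ℕ) + ρ) (q * (N * (τ ^ (N - 1) * D τ))) :=
        Ge.int_mul (hAint q hq) (Ge.int_mul (int_natCast N) h1)
      exact h2.mono (by push_cast [Nat.cast_sub hN1]; omega)
  have e1 := der_aeval A D f c
  have e2 := der_aeval A D f x
  rw [hf, map_zero] at e2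
  have hDc := hDA c hc
  have key : Polynomial.aeval x f.derivative * (D x - D c) =
      -(dEval A D f x - dEval A D f c) - D (Polynomial.aeval c f)
        - (Polynomial.aeval x f.derivative - Polynomial.aeval c f.derivative) * D c := by
    rw [e1]
    linear_combination -e2
  have hkey : Ge P (N - 1 + ρ) (Polynomial.aeval x f.derivative * (D x - D c)) := by
    rw [key]
    refine Ge.sub (Ge.sub (hlip2.neg.mono (by omega)) hDf) ?_
    exact ((hlip1 f.derivative).mul hDc).mono (by omega)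
  have hdiff : Ge P ρ (D x - D c) := by
    have h1 : Ge P (-d) (Polynomial.aeval x f.derivative)⁻¹ :=
      Or.inr (by rw [P.ord_inv, ← hd])
    have h2 := Ge.mul h1 hkey
    rw [← mul_assoc, inv_mul_cancel₀ hf', one_mul] at h2
    exact h2.mono (by omega)
  have := hdiff.add hDc
  simpa using this

lemma log_mul (D : Derivation k E E) {x y : E} (hx : x ≠ 0) (hy : y ≠ 0) :
    D (x * y) / (x * y) = D x / x + D y / y := by
  rw [Derivation.leibniz]
  simp only [smul_eq_mul]
  field_simp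
  ring

lemma log_pow (D : Derivation k E E) {x : E} (hx : x ≠ 0) (n : ℕ) :
    D (x ^ n) / x ^ n = n * (D x / x) := by
  induction n with
  | zero => simp
  | succ n ih => rw [pow_succ, log_mul D (pow_ne_zero _ hx) hx, ih]; push_cast; ring

lemma log_inv (D : Derivation k E E) {x : E} (hx : x ≠ 0) :
    D x⁻¹ / x⁻¹ = -(D x / x) := by
  have h1 := log_mul D hx (inv_ne_zero hx)
  rw [mul_inv_cancel₀ hx] at h1
  simp only [Derivation.map_one_eq_zero, zero_div] at h1
  linear_combination -h1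

/-- the uniformiser in (V) -/
lemma sm_der_unif [CharZero K] (halg : ∀ x : E, Transcendental K x → Algebra.IsAlgebraic K⟮x⟯ E)
    (D : Derivation k E E) (hD : ∀ c : K, ∃ c' : K, D (algebraMap K E c) = algebraMap K E c')
    (t : E) (ht0 : t ≠ 0) (ht : P.Sm t) (hDt : ∃ ε : K, D t = algebraMap K E ε * t)
    (τ : E) (hτ : P.ord τ = 1) (hτ0 : τ ≠ 0) : P.Sm (D τ) := by
  by_contra hcon
  have hDτ0 : D τ ≠ 0 := fun h => hcon (Or.inl h)
  have hρ : P.ord (D τ) ≤ 0 := by
    by_contra h; exact hcon (Or.inr (by omega))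
  obtain ⟨ε, hε⟩ := hDt
  have hord : 0 < P.ord t := ht.resolve_left ht0
  obtain ⟨e, he⟩ : ∃ e : ℕ, (e : ℤ) = P.ord t := ⟨(P.ord t).toNat, Int.toNat_of_nonneg hord.le⟩
  have he0 : e ≠ 0 := by rintro rfl; simp at he; omega
  have hp : τ ^ e ≠ 0 := pow_ne_zero _ hτ0
  set u := t / τ ^ e with hu
  have hu0 : u ≠ 0 := div_ne_zero ht0 hp
  have hordu : P.ord u = 0 := by
    rw [hu, P.ord_div ht0 hp, P.ord_pow hτ0, hτ, ← he]; ring
  have ht' : t = τ ^ e * u := by rw [hu]; field_simp
  have h1 : D t / t = e * (D τ / τ) + D u / u := by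
    conv_lhs => rw [ht']
    rw [log_mul D hp hu0, log_pow D hτ0]
  have h2 : D t / t = algebraMap K E ε := by rw [hε]; field_simp
  have h3 : Ge P (P.ord (D τ)) (D u) :=
    ge_der halg D hD τ hτ hτ0 _ hρ (Or.inr le_rfl) u (Or.inr hordu.ge)
  have h4 : Ge P (P.ord (D τ)) (D u / u) := by
    rw [div_eq_mul_inv]
    exact h3.mul_int (Or.inr (by rw [P.ord_inv, hordu]; simp))
  have h5 : (e : E) * (D τ / τ) = algebraMap K E ε - D u / u := by
    rw [← h2, h1]; ring
  have h6 : Ge P (P.ord (D τ)) ((e : E) * (D τ / τ)) := by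
    rw [h5]
    exact ((ge_zero_iff.2 (P.int_const ε)).mono hρ).sub h4
  have hcz : CharZero E := charZero_of_injective_algebraMap (algebraMap K E).injective
  have heE : (e : E) ≠ 0 := by exact_mod_cast he0
  have h7 : P.ord ((e : E) * (D τ / τ)) = P.ord (D τ) - 1 := by
    rw [P.ord_mul _ _ heE (div_ne_zero hDτ0 hτ0), P.ord_div hDτ0 hτ0, hτ]
    have h8 := P.ord_const (e : K) (by exact_mod_cast he0)
    rw [map_natCast] at h8
    rw [h8]; ring
  have h9 := h6.resolve_left (mul_ne_zero heE (div_ne_zero hDτ0 hτ0))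
  omega

end der

end LocalDerAux

open LocalDerAux

variable {K E : Type} [Field K] [CharZero K] [Field E] [Algebra K E] (P : Place K E)
  {k : Type} [CommRing k] [Algebra k E]

/-- (V0) a derivation `D` with `D(K) ⊆ K` loses at most `max 0 (-ord (D τ))`. -/
theorem ord_der_ge (halg : ∀ x : E, Transcendental K x → Algebra.IsAlgebraic K⟮x⟯ E)
    (D : Derivation k E E) (hD : ∀ c : K, ∃ c' : K, D (algebraMap K E c) = algebraMap K E c')
    (τ : E) (hτ : P.ord τ = 1) (hτ0 : τ ≠ 0) (ρ : ℤ) (hρ : ρ ≤ 0) (hρ' : D τ = 0 ∨ ρ ≤ P.ord (D τ))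
    (x : E) (hx : P.Int x) : D x = 0 ∨ ρ ≤ P.ord (D x) :=
  ge_der halg D hD τ hτ hτ0 ρ hρ hρ' x hx

/-- (V) -/
theorem der_log_int (halg : ∀ x : E, Transcendental K x → Algebra.IsAlgebraic K⟮x⟯ E)
    (D : Derivation k E E) (hD : ∀ c : K, ∃ c' : K, D (algebraMap K E c) = algebraMap K E c')
    (t : E) (ht0 : t ≠ 0) (ht : P.Sm t) (hDt : ∃ ε : K, D t = algebraMap K E ε * t) :
    (∀ x, x ≠ 0 → P.Int (D x / x)) ∧ (∀ x, P.Sm x → P.Sm (D x)) ∧
    (∀ x c c', P.IsVal x c → D (algebraMap K E c) = algebraMap K E c' → P.IsVal (D x) c') := by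
  obtain ⟨τ, hτ0, hτ⟩ := P.exists_unif
  have hDτ : P.Sm (D τ) := sm_der_unif halg D hD t ht0 ht hDt τ hτ hτ0
  have hint : ∀ x, P.Int x → P.Int (D x) := fun x hx =>
    ord_der_ge P halg D hD τ hτ hτ0 0 le_rfl hDτ.int x hx
  have hLτ : P.Int (D τ / τ) := by
    have h1 : Ge P 1 (D τ) := hDτ
    have h2 : Ge P (-1) τ⁻¹ := Or.inr (by rw [P.ord_inv, hτ])
    have := h1.mul h2
    rw [div_eq_mul_inv]
    exact this
  have hpos : ∀ x, x ≠ 0 → 0 ≤ P.ord x → P.Int (D x / x) := by
    intro x hx hord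
    obtain ⟨e, he⟩ : ∃ e : ℕ, (e : ℤ) = P.ord x := ⟨(P.ord x).toNat, Int.toNat_of_nonneg hord⟩
    have hp : τ ^ e ≠ 0 := pow_ne_zero _ hτ0
    have hu0 : x / τ ^ e ≠ 0 := div_ne_zero hx hp
    have hordu : P.ord (x / τ ^ e) = 0 := by
      rw [P.ord_div hx hp, P.ord_pow hτ0, hτ, ← he]; ring
    have hx' : x = τ ^ e * (x / τ ^ e) := by field_simp
    have h1 : D x / x = e * (D τ / τ) + D (x / τ ^ e) / (x / τ ^ e) := by
      conv_lhs => rw [hx']
      rw [log_mul D hp hu0, log_pow D hτ0]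
    rw [h1]
    refine Place.Int.add ((int_natCast e).mul hLτ) ?_
    rw [div_eq_mul_inv (D (x / τ ^ e))]
    exact (hint _ (Or.inr hordu.ge)).mul (Or.inr (by rw [P.ord_inv, hordu]; simp))
  have h1 : ∀ x, x ≠ 0 → P.Int (D x / x) := by
    intro x hx
    rcases le_total 0 (P.ord x) with h | h
    · exact hpos x hx h
    · have h2 := hpos x⁻¹ (inv_ne_zero hx) (by rw [P.ord_inv]; omega)
      rw [log_inv D hx] at h2
      have := h2.neg
      simpa using this
  have h2 : ∀ x, P.Sm x → P.Sm (D x) := by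
    intro x hx
    by_cases hx0 : x = 0
    · rw [hx0, map_zero]; exact P.sm_zero
    have h3 : D x = x * (D x / x) := by field_simp
    rw [h3]
    exact hx.mul_int (h1 x hx0)
  refine ⟨h1, h2, ?_⟩
  intro x c c' hx hc
  have h3 := h2 _ hx
  rw [map_sub, hc] at h3
  exact h3

/-- (V1) -/
theorem der_log_val (halg : ∀ x : E, Transcendental K x → Algebra.IsAlgebraic K⟮x⟯ E)
    (D : Derivation k E E) (hD : ∀ c : K, D (algebraMap K E c) = 0)
    (t : E) (ht0 : t ≠ 0) (ht : P.Sm t) (hDt : D t = t) :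
    (∀ x, x ≠ 0 → P.IsVal (D x / x) ((P.ord x : K) / (P.ord t : K))) ∧
    (∀ x, P.Int x → P.Sm (D x)) := by
  obtain ⟨τ, hτ0, hτ⟩ := P.exists_unif
  have hDD : ∀ c : K, ∃ c' : K, D (algebraMap K E c) = algebraMap K E c' :=
    fun c => ⟨0, by rw [hD c, map_zero]⟩
  obtain ⟨-, hSm, hVal⟩ := der_log_int P halg D hDD t ht0 ht ⟨1, by rw [hDt]; simp⟩
  have hIntSm : ∀ x, P.Int x → P.Sm (D x) := by
    intro x hx
    obtain ⟨c, hc⟩ := hx.exists_isVal
    exact Place.isVal_zero_iff.1 (hVal x c 0 hc (by rw [hD c, map_zero]))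
  refine ⟨?_, hIntSm⟩
  have hunit : ∀ u, u ≠ 0 → P.ord u = 0 → P.IsVal (D u / u) 0 := by
    intro u hu hord
    rw [Place.isVal_zero_iff, div_eq_mul_inv]
    exact (hIntSm u (Or.inr hord.ge)).mul_int (Or.inr (by rw [P.ord_inv, hord]; simp))
  have hdecomp : ∀ x, x ≠ 0 → 0 ≤ P.ord x → ∃ r : E, P.IsVal r 0 ∧
      D x / x = (P.ord x : E) * (D τ / τ) + r := by
    intro x hx hord
    obtain ⟨e, he⟩ : ∃ e : ℕ, (e : ℤ) = P.ord x := ⟨(P.ord x).toNat, Int.toNat_of_nonneg hord⟩
    have hp : τ ^ e ≠ 0 := pow_ne_zero _ hτ0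
    have hu0 : x / τ ^ e ≠ 0 := div_ne_zero hx hp
    have hordu : P.ord (x / τ ^ e) = 0 := by
      rw [P.ord_div hx hp, P.ord_pow hτ0, hτ, ← he]; ring
    have hx' : x = τ ^ e * (x / τ ^ e) := by field_simp
    refine ⟨_, hunit _ hu0 hordu, ?_⟩
    conv_lhs => rw [hx']
    rw [log_mul D hp hu0, log_pow D hτ0, ← he, Int.cast_natCast]
  have hdec : ∀ x, x ≠ 0 → ∃ r : E, P.IsVal r 0 ∧
      D x / x = (P.ord x : E) * (D τ / τ) + r := by
    intro x hx
    rcases le_total 0 (P.ord x) with h | h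
    · exact hdecomp x hx h
    · obtain ⟨r, hr, h2⟩ := hdecomp x⁻¹ (inv_ne_zero hx) (by rw [P.ord_inv]; omega)
      rw [log_inv D hx, P.ord_inv] at h2
      refine ⟨-r, ?_, ?_⟩
      · have := hr.neg
        simpa using this
      · push_cast at h2
        linear_combination -h2
  have hordt : 0 < P.ord t := ht.resolve_left ht0
  have htK : (P.ord t : K) ≠ 0 := by exact_mod_cast hordt.ne'
  have hτval : P.IsVal (D τ / τ) (1 / (P.ord t : K)) := by
    obtain ⟨r, hr, h2⟩ := hdec t ht0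
    rw [hDt, div_self ht0] at h2
    have h3 : D τ / τ = (1 - r) * algebraMap K E (1 / (P.ord t : K)) := by
      have h4 : (P.ord t : E) * algebraMap K E (1 / (P.ord t : K)) = 1 := by
        have h5 : (P.ord t : E) = algebraMap K E (P.ord t : K) := by simp
        rw [h5, ← map_mul, mul_one_div_cancel htK, map_one]
      calc D τ / τ = ((P.ord t : E) * algebraMap K E (1 / (P.ord t : K))) * (D τ / τ) := by
            rw [h4, one_mul]
        _ = (1 - r) * algebraMap K E (1 / (P.ord t : K)) := by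
            rw [h2]; ring
    rw [h3]
    have h6 := (P.isVal_one.sub hr).mul (P.isVal_const (1 / (P.ord t : K)))
    simpa using h6
  intro x hx
  obtain ⟨r, hr, h2⟩ := hdec x hx
  rw [h2]
  have h5 : (P.ord x : E) = algebraMap K E (P.ord x : K) := by simp
  rw [h5]
  have h6 := ((P.isVal_const (P.ord x : K)).mul hτval).add hr
  have h7 : (P.ord x : K) * (1 / (P.ord t : K)) + 0 = (P.ord x : K) / (P.ord t : K) := by
    rw [add_zero, mul_one_div]
  rw [h7] at h6
  exact h6

end Pool.Agent.LowDeg
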