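import Pool.Agent.LowDeg.Defs

/-! Modules L1, L2 (doc section 16): specialisation. -/

set_option autoImplicit false

open MvPolynomial
open scoped LinearAlgebra.Projectivization

namespace Pool.Agent.LowDeg

open Pool.Agent.Chow0 (IsChowForm cyc CH0 Z0 ratTriv)

variable {K : Type} [Field K] [Algebra ℂ K] [IsAlgClosed K]

namespace SpecAux

theorem mul_lt {G : Type*} [LinearOrderedCommGroupWithZero G] {a b : G} (ha : a ≤ 1) (hb : b < 1) :
    a * b < 1 := by
  calc a * b ≤ 1 * b := by gcongr
    _ = b := one_mul b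
    _ < 1 := hb

omit [IsAlgClosed K] in
/-- a valuation ring dominating a homomorphism to `ℂ` -/
theorem exists_val (R : Subalgebra ℂ K) (φ : R →ₐ[ℂ] ℂ) :
    ∃ V : ValuationSubring K, (∀ z : R, V.valuation (z : K) ≤ 1) ∧
      ∀ z : R, φ z = 0 → V.valuation (z : K) < 1 := by
  have hI : RingHom.ker (φ.toRingHom : R.toSubring →+* ℂ) ≠ ⊤ := RingHom.ker_ne_top _
  obtain ⟨V, hV, hV'⟩ := Ideal.image_subset_nonunits_valuationSubring
    (A := R.toSubring) (RingHom.ker (φ.toRingHom : R.toSubring →+* ℂ)) hI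
  refine ⟨V, fun z => ?_, fun z hz => ?_⟩
  · rw [V.valuation_le_one_iff]
    exact hV z.2
  · have h1 : (z : K) ∈ V.nonunits := hV' ⟨z, hz, rfl⟩
    exact h1

variable {R : Subalgebra ℂ K} {φ : R →ₐ[ℂ] ℂ} {V : ValuationSubring K}

omit [IsAlgClosed K] in
theorem val_const (h1 : ∀ z : R, V.valuation (z : K) ≤ 1) {c : ℂ} (hc : c ≠ 0) :
    V.valuation (algebraMap ℂ K c) = 1 := by
  have h2 := h1 (algebraMap ℂ R c)
  have h3 := h1 (algebraMap ℂ R c⁻¹)
  have e1 : ((algebraMap ℂ R c : R) : K) = algebraMap ℂ K c := rfl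
  have e2 : ((algebraMap ℂ R c⁻¹ : R) : K) = (algebraMap ℂ K c)⁻¹ := by
    rw [← map_inv₀]; rfl
  rw [e1] at h2
  rw [e2, map_inv₀] at h3
  have h4 : V.valuation (algebraMap ℂ K c) ≠ 0 := by
    rw [Valuation.ne_zero_iff]
    exact (map_ne_zero _).2 hc
  refine le_antisymm h2 ?_
  by_contra hlt
  rw [not_le] at hlt
  have h5 : 1 < (V.valuation (algebraMap ℂ K c))⁻¹ := (one_lt_inv₀ (zero_lt_iff.2 h4)).2 hlt
  exact absurd h3 (not_le.2 h5)

omit [IsAlgClosed K] in
theorem val_const_le (h1 : ∀ z : R, V.valuation (z : K) ≤ 1) (c : ℂ) :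
    V.valuation (algebraMap ℂ K c) ≤ 1 := h1 (algebraMap ℂ R c)

omit [IsAlgClosed K] in
theorem val_sub (h2 : ∀ z : R, φ z = 0 → V.valuation (z : K) < 1) (z : R) :
    V.valuation ((z : K) - algebraMap ℂ K (φ z)) < 1 := by
  have h3 := h2 (z - algebraMap ℂ R (φ z)) (by simp)
  exact h3

omit [IsAlgClosed K] in
theorem unique_const (h1 : ∀ z : R, V.valuation (z : K) ≤ 1) {z : K} {c c' : ℂ}
    (h : V.valuation (z - algebraMap ℂ K c) < 1) (h' : V.valuation (z - algebraMap ℂ K c') < 1) :
    c = c' := by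
  by_contra hne
  have h3 : V.valuation (algebraMap ℂ K (c' - c)) < 1 := by
    have e : algebraMap ℂ K (c' - c) = (z - algebraMap ℂ K c) - (z - algebraMap ℂ K c') := by
      rw [map_sub]; ring
    rw [e]
    exact Valuation.map_sub_lt _ h h'
  rw [val_const h1 (sub_ne_zero.2 (Ne.symm hne))] at h3
  exact lt_irrefl _ h3

omit [IsAlgClosed K] in
/-- the elements with residue in `ℂ` -/
def resAlg (h1 : ∀ z : R, V.valuation (z : K) ≤ 1) : Subalgebra ℂ K where
  carrier := {z | ∃ c : ℂ, V.valuation (z - algebraMap ℂ K c) < 1}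
  mul_mem' := by
    rintro x y ⟨c, hc⟩ ⟨c', hc'⟩
    refine ⟨c * c', ?_⟩
    have hy : V.valuation y ≤ 1 := by
      have e : y = (y - algebraMap ℂ K c') + algebraMap ℂ K c' := by ring
      rw [e]
      exact Valuation.map_add_le _ hc'.le (val_const_le h1 c')
    have e : x * y - algebraMap ℂ K (c * c') =
        (x - algebraMap ℂ K c) * y + algebraMap ℂ K c * (y - algebraMap ℂ K c') := by
      rw [map_mul]; ring
    rw [e]
    refine Valuation.map_add_lt _ ?_ ?_
    · rw [map_mul]
      rw [mul_comm]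
      exact mul_lt hy hc
    · rw [map_mul]
      exact mul_lt (val_const_le h1 c) hc'
  add_mem' := by
    rintro x y ⟨c, hc⟩ ⟨c', hc'⟩
    refine ⟨c + c', ?_⟩
    have e : x + y - algebraMap ℂ K (c + c') =
        (x - algebraMap ℂ K c) + (y - algebraMap ℂ K c') := by
      rw [map_add]; ring
    rw [e]
    exact Valuation.map_add_lt _ hc hc'
  algebraMap_mem' := fun c => ⟨c, by simp⟩

omit [IsAlgClosed K] in
/-- the residue -/
noncomputable def resHom (h1 : ∀ z : R, V.valuation (z : K) ≤ 1) : resAlg h1 →ₐ[ℂ] ℂ where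
  toFun z := Classical.choose z.2
  map_one' := by
    refine unique_const h1 (Classical.choose_spec (1 : resAlg h1).2) ?_
    simp
  map_mul' x y := by
    have hx := Classical.choose_spec x.2
    have hy := Classical.choose_spec y.2
    refine unique_const h1 (Classical.choose_spec (x * y).2) ?_
    have hy' : V.valuation (y : K) ≤ 1 := by
      have e : (y : K) = (y - algebraMap ℂ K (Classical.choose y.2)) +
        algebraMap ℂ K (Classical.choose y.2) := by ring
      rw [e]
      exact Valuation.map_add_le _ hy.le (val_const_le h1 _)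
    have e : ((x * y : resAlg h1) : K) -
        algebraMap ℂ K (Classical.choose x.2 * Classical.choose y.2) =
        (x - algebraMap ℂ K (Classical.choose x.2)) * y +
          algebraMap ℂ K (Classical.choose x.2) * (y - algebraMap ℂ K (Classical.choose y.2)) := by
      rw [map_mul]
      push_cast
      ring
    rw [e]
    refine Valuation.map_add_lt _ ?_ ?_
    · rw [map_mul]
      rw [mul_comm]
      exact mul_lt hy' hx
    · rw [map_mul]
      exact mul_lt (val_const_le h1 _) hy
  map_zero' := by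
    refine unique_const h1 (Classical.choose_spec (0 : resAlg h1).2) ?_
    simp
  map_add' x y := by
    have hx := Classical.choose_spec x.2
    have hy := Classical.choose_spec y.2
    refine unique_const h1 (Classical.choose_spec (x + y).2) ?_
    have e : ((x + y : resAlg h1) : K) -
        algebraMap ℂ K (Classical.choose x.2 + Classical.choose y.2) =
        (x - algebraMap ℂ K (Classical.choose x.2)) +
          (y - algebraMap ℂ K (Classical.choose y.2)) := by
      rw [map_add]
      push_cast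
      ring
    rw [e]
    exact Valuation.map_add_lt _ hx hy
  commutes' c := by
    refine unique_const h1 (Classical.choose_spec (algebraMap ℂ (resAlg h1) c).2) ?_
    have e : ((algebraMap ℂ (resAlg h1) c : resAlg h1) : K) = algebraMap ℂ K c := rfl
    rw [e]
    simp

omit [IsAlgClosed K] in
theorem resHom_spec (h1 : ∀ z : R, V.valuation (z : K) ≤ 1) (z : resAlg h1) :
    V.valuation ((z : K) - algebraMap ℂ K (resHom h1 z)) < 1 := Classical.choose_spec z.2

omit [IsAlgClosed K] in
/-- roots of polynomials with coefficients in `R` and invertible leading coefficient -/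
theorem root_mem (h1 : ∀ z : R, V.valuation (z : K) ≤ 1)
    (h2 : ∀ z : R, φ z = 0 → V.valuation (z : K) < 1) {y : K} {p : Polynomial R}
    (hlead : φ p.leadingCoeff ≠ 0) (hp : Polynomial.aeval y p = 0) : y ∈ resAlg h1 := by
  have hvl : V.valuation ((p.leadingCoeff : R) : K) = 1 := by
    have h3 := val_sub h2 p.leadingCoeff
    have h4 := val_const h1 hlead
    have e : ((p.leadingCoeff : R) : K) = ((p.leadingCoeff : R) : K) -
      algebraMap ℂ K (φ p.leadingCoeff) + algebraMap ℂ K (φ p.leadingCoeff) := by ring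
    rw [e, Valuation.map_add_eq_of_lt_right _ (by rw [h4]; exact h3), h4]
  have hsum : Polynomial.aeval y p = ∑ i ∈ Finset.range (p.natDegree + 1),
      ((p.coeff i : R) : K) * y ^ i := by
    rw [Polynomial.aeval_eq_sum_range]
    rfl
  -- `v y ≤ 1`
  have hy : V.valuation y ≤ 1 := by
    by_contra hlt
    rw [not_le] at hlt
    rw [hp, Finset.sum_range_succ] at hsum
    have h5 : V.valuation (∑ i ∈ Finset.range p.natDegree, ((p.coeff i : R) : K) * y ^ i) <
        V.valuation y ^ p.natDegree := by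
      refine Valuation.map_sum_lt _ (pow_ne_zero _ (zero_lt_one.trans hlt).ne') fun i hi => ?_
      rw [map_mul, map_pow]
      calc V.valuation ((p.coeff i : R) : K) * V.valuation y ^ i ≤ 1 * V.valuation y ^ i :=
            mul_le_mul_left (h1 _) _
        _ = V.valuation y ^ i := one_mul _
        _ < V.valuation y ^ p.natDegree := pow_lt_pow_right₀ hlt (Finset.mem_range.1 hi)
    have h6 : V.valuation (((p.coeff p.natDegree : R) : K) * y ^ p.natDegree) =
        V.valuation y ^ p.natDegree := by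
      rw [map_mul, map_pow]
      have : V.valuation ((p.coeff p.natDegree : R) : K) = 1 := hvl
      rw [this, one_mul]
    have h7 : ∑ i ∈ Finset.range p.natDegree, ((p.coeff i : R) : K) * y ^ i =
        -(((p.coeff p.natDegree : R) : K) * y ^ p.natDegree) := by
      linear_combination -hsum
    rw [h7, Valuation.map_neg, h6] at h5
    exact lt_irrefl _ h5
  -- the polynomial over `ℂ`
  set q : Polynomial ℂ := p.map φ.toRingHom with hq
  have hqdeg : q.natDegree = p.natDegree :=
    Polynomial.natDegree_map_of_leadingCoeff_ne_zero _ hlead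
  have hqlead : q.leadingCoeff = φ p.leadingCoeff := by
    rw [Polynomial.leadingCoeff, hqdeg, hq, Polynomial.coeff_map]
    rfl
  have hqy : V.valuation (Polynomial.aeval y q) < 1 := by
    have e : Polynomial.aeval y q = -∑ i ∈ Finset.range (p.natDegree + 1),
        (((p.coeff i : R) : K) - algebraMap ℂ K (φ (p.coeff i))) * y ^ i := by
      have e1 : Polynomial.aeval y q = ∑ i ∈ Finset.range (p.natDegree + 1),
          algebraMap ℂ K (φ (p.coeff i)) * y ^ i := by
        rw [Polynomial.aeval_eq_sum_range, hqdeg]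
        refine Finset.sum_congr rfl fun i _ => ?_
        rw [Algebra.smul_def, hq, Polynomial.coeff_map]
        rfl
      simp only [sub_mul]
      rw [Finset.sum_sub_distrib, ← hsum, hp, ← e1]
      ring
    rw [e, Valuation.map_neg]
    refine Valuation.map_sum_lt _ one_ne_zero fun i _ => ?_
    rw [map_mul, map_pow]
    rw [mul_comm]
    exact mul_lt (pow_le_one' hy i) (val_sub h2 _)
  have hsplit : q.Splits := IsAlgClosed.splits q
  have hprod : Polynomial.aeval y q = algebraMap ℂ K q.leadingCoeff *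
      (q.roots.map fun c => y - algebraMap ℂ K c).prod := by
    conv_lhs => rw [hsplit.eq_prod_roots]
    rw [map_mul, Polynomial.aeval_C, map_multiset_prod, Multiset.map_map]
    congr 2
    refine Multiset.map_congr rfl fun c _ => ?_
    simp
  rw [hprod, map_mul, hqlead, val_const h1 hlead, one_mul, map_multiset_prod,
    Multiset.map_map] at hqy
  by_contra hne
  have h8 : ∀ c : ℂ, 1 ≤ V.valuation (y - algebraMap ℂ K c) := by
    intro c
    by_contra hlt
    exact hne ⟨c, not_le.1 hlt⟩
  have h9 : 1 ≤ (q.roots.map (V.valuation ∘ fun c => y - algebraMap ℂ K c)).prod := by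
    refine Multiset.one_le_prod fun v hv => ?_
    obtain ⟨c, -, rfl⟩ := Multiset.mem_map.1 hv
    exact h8 c
  exact absurd hqy (not_lt.2 h9)

end SpecAux

open SpecAux

/-- extension of homomorphisms to integral elements -/
theorem exists_ext (R : Subalgebra ℂ K) (φ : R →ₐ[ℂ] ℂ) (S : Finset K) (r : R) (hr : φ r ≠ 0)
    (hS : ∀ y ∈ S, ∃ p : Polynomial R, ∃ N : ℕ, p.leadingCoeff = r ^ N ∧
      Polynomial.aeval y p = 0) :
    ∃ (R' : Subalgebra ℂ K) (hR' : R ≤ R') (φ' : R' →ₐ[ℂ] ℂ), (∀ y ∈ S, y ∈ R') ∧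
      ∀ y : R, φ' (Subalgebra.inclusion hR' y) = φ y := by
  obtain ⟨V, h1, h2⟩ := exists_val R φ
  refine ⟨resAlg h1, fun z hz => ⟨φ ⟨z, hz⟩, val_sub h2 ⟨z, hz⟩⟩, resHom h1, ?_, ?_⟩
  · intro y hy
    obtain ⟨p, N, hp, hpy⟩ := hS y hy
    refine root_mem h1 h2 ?_ hpy
    rw [hp, map_pow]
    exact pow_ne_zero _ hr
  · intro y
    exact unique_const h1 (resHom_spec h1 _) (val_sub h2 y)

namespace SpecAux

/-- homogenisation with respect to the variable `0` -/
noncomputable def homog (g : MvPolynomial (Fin 4) ℂ) : MvPolynomial (Fin 4) ℂ :=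
  ∑ k ∈ Finset.range (g.totalDegree + 1), X 0 ^ (g.totalDegree - k) * homogeneousComponent k g

theorem homog_isHomogeneous (g : MvPolynomial (Fin 4) ℂ) :
    (homog g).IsHomogeneous g.totalDegree := by
  refine IsHomogeneous.sum _ _ _ fun k hk => ?_
  have h := ((isHomogeneous_X ℂ (0 : Fin 4)).pow (g.totalDegree - k)).mul
    (homogeneousComponent_isHomogeneous k g)
  have e : 1 * (g.totalDegree - k) + k = g.totalDegree := by
    have := Finset.mem_range.1 hk
    omega
  rw [e] at h
  exact h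

theorem aeval_homog {B : Type*} [CommRing B] [Algebra ℂ B] (g : MvPolynomial (Fin 4) ℂ)
    (u : Fin 4 → B) (hu : u 0 = 1) : aeval u (homog g) = aeval u g := by
  conv_rhs => rw [← sum_homogeneousComponent g]
  rw [homog, map_sum, map_sum]
  refine Finset.sum_congr rfl fun k _ => ?_
  rw [map_mul, map_pow, aeval_X, hu, one_pow, one_mul]

theorem aeval_scale {B : Type*} [CommRing B] [Algebra ℂ B] {m : ℕ} {p : MvPolynomial (Fin 4) ℂ}
    (hp : p.IsHomogeneous m) (a : B) (u : Fin 4 → B) :
    aeval (fun i => a * u i) p = a ^ m * aeval u p := by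
  rw [aeval_def, aeval_def, eval₂_eq', eval₂_eq', Finset.mul_sum]
  refine Finset.sum_congr rfl fun d hd => ?_
  have h1 : d.degree = m := by
    by_contra hc
    exact (mem_support_iff.1 hd) (IsHomogeneous.coeff_eq_zero hp hc)
  have h2 : ∏ i : Fin 4, (a * u i) ^ d i = a ^ m * ∏ i : Fin 4, u i ^ d i := by
    simp only [mul_pow]
    rw [Finset.prod_mul_distrib, Finset.prod_pow_eq_pow_sum, ← h1, Finsupp.degree_eq_sum]
  rw [h2]
  ring

omit [IsAlgClosed K] in
/-- points of the surface are specialisations of the coordinates of the generic point -/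
theorem exists_hom {F : MvPolynomial (Fin 4) ℂ} {ξ : Fin 4 → K} (hξ : IsGenericPoint F ξ)
    (x : Fin 4 → ℂ) (hx : aeval x F = 0) (hx0 : x 0 ≠ 0) :
    ∃ φ : (aeval ξ : MvPolynomial (Fin 4) ℂ →ₐ[ℂ] K).range →ₐ[ℂ] ℂ,
      ∀ g : MvPolynomial (Fin 4) ℂ, φ ⟨aeval ξ g, g, rfl⟩ = aeval (fun i => x i / x 0) g := by
  have hu0 : x 0 / x 0 = 1 := div_self hx0
  have hker : ∀ g : MvPolynomial (Fin 4) ℂ, aeval ξ g = 0 → aeval (fun i => x i / x 0) g = 0 := by
    intro g hg
    have h1 : aeval ξ (homog g) = 0 := by rw [aeval_homog g ξ hξ.one, hg]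
    obtain ⟨q, hq⟩ := hξ.gen _ _ (homog_isHomogeneous g) h1
    have h2 : aeval x (homog g) = 0 := by rw [hq, map_mul, hx, zero_mul]
    have h3 := aeval_scale (homog_isHomogeneous g) (x 0) (fun i => x i / x 0)
    have h4 : (fun i => x 0 * (x i / x 0)) = x := by
      funext i
      field_simp
    rw [h4, h2, aeval_homog g _ hu0] at h3
    rcases mul_eq_zero.1 h3.symm with h5 | h5
    · exact absurd h5 (pow_ne_zero _ hx0)
    · exact h5
  set f : MvPolynomial (Fin 4) ℂ →ₐ[ℂ] K := aeval ξ with hf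
  have hker' : ∀ g ∈ RingHom.ker f,
      (aeval (fun i => x i / x 0) : MvPolynomial (Fin 4) ℂ →ₐ[ℂ] ℂ) g = 0 :=
    fun g hg => hker g hg
  refine ⟨(Ideal.Quotient.liftₐ (RingHom.ker f)
    (aeval (fun i => x i / x 0) : MvPolynomial (Fin 4) ℂ →ₐ[ℂ] ℂ) hker').comp
    (Ideal.quotientKerEquivRange f).symm.toAlgHom, fun g => ?_⟩
  have h : (Ideal.quotientKerEquivRange f).symm ⟨f g, g, rfl⟩ =
      Ideal.Quotient.mk (RingHom.ker f) g := by
    rw [AlgEquiv.symm_apply_eq]
    rfl
  change (Ideal.Quotient.liftₐ (RingHom.ker f)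
    (aeval (fun i => x i / x 0) : MvPolynomial (Fin 4) ℂ →ₐ[ℂ] ℂ) hker')
      ((Ideal.quotientKerEquivRange f).symm ⟨f g, g, rfl⟩) = _
  rw [h]
  rfl

theorem map_linF {B B' : Type*} [CommRing B] [CommRing B'] (f : B →+* B') (z : Fin 4 → B) :
    map f (linF z) = linF (fun i => f (z i)) := by
  simp [linF]

theorem map_prod_linF {B B' : Type*} [CommRing B] [CommRing B'] (f : B →+* B')
    (T : Multiset (Fin 4 → B)) :
    map f (T.map linF).prod = ((T.map fun z i => f (z i)).map linF).prod := by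
  rw [map_multiset_prod, Multiset.map_map, Multiset.map_map]
  congr 1
  refine Multiset.map_congr rfl fun z _ => ?_
  exact map_linF f z

/-- the polynomial in `t` -/
noncomputable def specPoly {R : Subalgebra ℂ K} (φ : R →ₐ[ℂ] ℂ)
    (FF : MvPolynomial (Fin 4) (Polynomial R)) : Polynomial (MvPolynomial (Fin 4) ℂ) :=
  MvPolynomial.eval₂Hom
    (Polynomial.mapRingHom ((C : ℂ →+* MvPolynomial (Fin 4) ℂ).comp φ.toRingHom))
    (fun j => Polynomial.C (X j)) FF

omit [IsAlgClosed K] in
theorem eval_specPoly {R : Subalgebra ℂ K} (φ : R →ₐ[ℂ] ℂ)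
    (FF : MvPolynomial (Fin 4) (Polynomial R)) (t : ℂ) :
    (specPoly φ FF).eval (C t) =
      map (φ.toRingHom.comp (Polynomial.evalRingHom (algebraMap ℂ R t))) FF := by
  have h : (Polynomial.evalRingHom (C t : MvPolynomial (Fin 4) ℂ)).comp
      (MvPolynomial.eval₂Hom
        (Polynomial.mapRingHom ((C : ℂ →+* MvPolynomial (Fin 4) ℂ).comp φ.toRingHom))
        (fun j : Fin 4 => Polynomial.C (X j))) =
      MvPolynomial.map (φ.toRingHom.comp (Polynomial.evalRingHom (algebraMap ℂ R t))) := by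
    refine MvPolynomial.ringHom_ext (fun p => ?_) (fun j => ?_)
    · have h2 : ((Polynomial.evalRingHom (C t : MvPolynomial (Fin 4) ℂ)).comp
          (Polynomial.mapRingHom ((C : ℂ →+* MvPolynomial (Fin 4) ℂ).comp φ.toRingHom))) =
          (C : ℂ →+* MvPolynomial (Fin 4) ℂ).comp
            (φ.toRingHom.comp (Polynomial.evalRingHom (algebraMap ℂ R t))) := by
        refine Polynomial.ringHom_ext (fun a => ?_) ?_
        · simp
        · simp
      have h3 := RingHom.congr_fun h2 p
      simpa using h3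
    · simp
  exact RingHom.congr_fun h FF

/-- a product of linear forms is a Chow form -/
theorem exists_chow {F : MvPolynomial (Fin 4) ℂ} {d : ℕ} (hF : F.IsHomogeneous d)
    (T : Multiset (Fin 4 → ℂ)) (hT : ∀ z ∈ T, aeval z F = 0 ∧ z ≠ 0) :
    ∃ (s : Multiset (surf F)) (a : ℂ), a ≠ 0 ∧
      (T.map linF).prod = C a * Chow0.chowForm (s.map Subtype.val) := by
  induction T using Multiset.induction_on with
  | empty => exact ⟨0, 1, one_ne_zero, by simp [Chow0.chowForm]⟩
  | cons z T ih =>
    obtain ⟨s, a, ha, hs⟩ := ih fun w hw => hT w (Multiset.mem_cons_of_mem hw)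
    obtain ⟨hz, hz0⟩ := hT z (Multiset.mem_cons_self z T)
    obtain ⟨b, hb⟩ := Projectivization.exists_smul_eq_mk_rep ℂ z hz0
    have hmem : Projectivization.mk ℂ z hz0 ∈ surf F := by
      change aeval (Projectivization.mk ℂ z hz0).rep F = 0
      rw [← hb]
      have := aeval_scale hF (b : ℂ) z
      rw [hz, mul_zero] at this
      exact this
    refine ⟨⟨Projectivization.mk ℂ z hz0, hmem⟩ ::ₘ s, a * (b : ℂ)⁻¹,
      mul_ne_zero ha (inv_ne_zero b.ne_zero), ?_⟩
    have h1 : Chow0.linForm (Projectivization.mk ℂ z hz0).rep = C (b : ℂ) * linF z := by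
      rw [← hb, Chow0.linForm, linF, Finset.mul_sum]
      refine Finset.sum_congr rfl fun i _ => ?_
      rw [← mul_assoc, ← C_mul]
      rfl
    have h2 : (C (b : ℂ)⁻¹ * C (b : ℂ) : MvPolynomial (Fin 4) ℂ) = 1 := by
      rw [← C_mul, inv_mul_cancel₀ b.ne_zero, C_1]
    rw [Multiset.map_cons, Multiset.prod_cons, hs]
    unfold Chow0.chowForm
    rw [Multiset.map_cons, Multiset.map_cons, Multiset.prod_cons, h1, C_mul]
    linear_combination (-(linF z * C a * (Multiset.map (fun p => Chow0.linForm p.rep)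
      (Multiset.map Subtype.val s)).prod)) * h2

end SpecAux

/-- (L1) almost all points of the surface are specialisations of the generic point. -/
theorem exists_spec {F : MvPolynomial (Fin 4) ℂ} {d : ℕ} (hd : 2 ≤ d) (hF : F.IsHomogeneous d)
    {ξ : Fin 4 → K} (hξ : IsGenericPoint F ξ) (R : Subalgebra ℂ K) (hR : R.FG)
    (hξR : ∀ i, ξ i ∈ R) :
    ∃ (e : ℕ) (D : MvPolynomial (Fin 4) ℂ), D.IsHomogeneous e ∧ ¬ F ∣ D ∧
      ∀ x : Fin 4 → ℂ, aeval x F = 0 → aeval x D ≠ 0 →
        x 0 ≠ 0 ∧ ∃ φ : R →ₐ[ℂ] ℂ, ∀ i, φ ⟨ξ i, hξR i⟩ = x i / x 0 := by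
  classical
  set A : Subalgebra ℂ K := (aeval ξ : MvPolynomial (Fin 4) ℂ →ₐ[ℂ] K).range with hA
  have hAadj : Algebra.adjoin ℂ (Set.range ξ) = A := Algebra.adjoin_range_eq_range_aeval ℂ ξ
  -- `K` is algebraic over `A`
  have halg : ∀ y : K, IsAlgebraic A y := by
    have h1 := hξ.alg
    have h2 : Algebra.IsAlgebraic (Algebra.adjoin ℂ (Set.range ξ)) K := by
      open scoped IntermediateField.algebraAdjoinAdjoin in
      exact (IsFractionRing.comap_isAlgebraic_iff (A := Algebra.adjoin ℂ (Set.range ξ))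
        (K := IntermediateField.adjoin ℂ (Set.range ξ)) (C := K)).2 h1
    rw [hAadj] at h2
    exact fun y => h2.isAlgebraic y
  choose p hp0 hp using halg
  obtain ⟨s, hs⟩ := hR
  set r : A := ∏ y ∈ s, (p y).leadingCoeff with hr
  have hr0 : r ≠ 0 := Finset.prod_ne_zero_iff.2 fun y _ => Polynomial.leadingCoeff_ne_zero.2 (hp0 y)
  obtain ⟨g, hg⟩ : ∃ g : MvPolynomial (Fin 4) ℂ, aeval ξ g = (r : K) := r.2
  have hlead : ∀ y ∈ s, ∃ q : Polynomial A, ∃ N : ℕ, q.leadingCoeff = r ^ N ∧
      Polynomial.aeval y q = 0 := by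
    intro y hy
    refine ⟨Polynomial.C (∏ z ∈ s.erase y, (p z).leadingCoeff) * p y, 1, ?_, ?_⟩
    · rw [Polynomial.leadingCoeff_mul, Polynomial.leadingCoeff_C, pow_one, hr,
        Finset.prod_erase_mul _ _ hy]
    · rw [map_mul, hp y, mul_zero]
  refine ⟨1 + g.totalDegree, X 0 * homog g, (isHomogeneous_X ℂ (0 : Fin 4)).mul
    (homog_isHomogeneous g), ?_, fun x hx hDx => ?_⟩
  · rintro ⟨q, hq⟩
    have h1 : aeval ξ (X 0 * homog g) = (0 : K) := by rw [hq, map_mul, hξ.zero, zero_mul]
    rw [map_mul, aeval_X, hξ.one, one_mul, aeval_homog g ξ hξ.one, hg] at h1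
    exact hr0 (Subtype.ext h1)
  · rw [map_mul, aeval_X] at hDx
    have hx0 : x 0 ≠ 0 := left_ne_zero_of_mul hDx
    refine ⟨hx0, ?_⟩
    obtain ⟨φ, hφ⟩ := exists_hom hξ x hx hx0
    have hφr : φ r ≠ 0 := by
      have e : r = ⟨aeval ξ g, g, rfl⟩ := Subtype.ext hg.symm
      rw [e, hφ g]
      intro h0
      have h3 := aeval_scale (homog_isHomogeneous g) (x 0) (fun i => x i / x 0)
      have h4 : (fun i => x 0 * (x i / x 0)) = x := by
        funext i
        field_simp
      rw [h4, aeval_homog g (fun i => x i / x 0) (div_self hx0), h0, mul_zero] at h3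
      rw [h3, mul_zero] at hDx
      exact hDx rfl
    obtain ⟨R', hR', φ', hSR', hφ'⟩ := exists_ext A φ s r hφr hlead
    have hle : R ≤ R' := by
      rw [← hs]
      exact Algebra.adjoin_le fun y hy => hSR' y hy
    refine ⟨φ'.comp (Subalgebra.inclusion hle), fun i => ?_⟩
    have h5 := hφ' ⟨aeval ξ (X i : MvPolynomial (Fin 4) ℂ), X i, rfl⟩
    have h6 : aeval (fun i => x i / x 0) (X i : MvPolynomial (Fin 4) ℂ) = x i / x 0 :=
      aeval_X _ _
    rw [hφ (X i), h6] at h5
    rw [← h5]
    change φ' (Subalgebra.inclusion hle ⟨ξ i, hξR i⟩) = _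
    congr 1
    exact Subtype.ext (aeval_X ξ i).symm

/-- the point of the surface with coordinates `φ z` -/
def IsSpecPt (F : MvPolynomial (Fin 4) ℂ) (R : Subalgebra ℂ K) (φ : R →ₐ[ℂ] ℂ) (z : Fin 4 → R)
    (p : surf F) : Prop :=
  ∃ c : ℂ, c ≠ 0 ∧ ∀ i, p.1.rep i = c * φ (z i)

namespace SpecAux

omit [IsAlgClosed K] in
theorem chow_of_rel {F : MvPolynomial (Fin 4) ℂ} {R : Subalgebra ℂ K} {φ : R →ₐ[ℂ] ℂ}
    {T : Multiset (Fin 4 → R)} {S : Multiset (surf F)}
    (h : Multiset.Rel (IsSpecPt F R φ) T S) : ∃ a : ℂ, a ≠ 0 ∧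
      map φ.toRingHom (T.map linF).prod = C a * Chow0.chowForm (S.map Subtype.val) := by
  induction h with
  | zero => exact ⟨1, one_ne_zero, by simp [Chow0.chowForm]⟩
  | @cons z p T S hzp _ ih =>
    obtain ⟨a, ha, hs⟩ := ih
    obtain ⟨b, hb0, hb⟩ := hzp
    refine ⟨a * b⁻¹, mul_ne_zero ha (inv_ne_zero hb0), ?_⟩
    have h1 : Chow0.linForm p.1.rep = C b * linF (fun i => φ (z i)) := by
      rw [Chow0.linForm, linF, Finset.mul_sum]
      refine Finset.sum_congr rfl fun i _ => ?_
      rw [← mul_assoc, ← C_mul, hb i]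
    have h2 : (C b⁻¹ * C b : MvPolynomial (Fin 4) ℂ) = 1 := by
      rw [← C_mul, inv_mul_cancel₀ hb0, C_1]
    have h3 : map φ.toRingHom (linF z) = linF (fun i => φ (z i)) := map_linF _ z
    rw [Multiset.map_cons, Multiset.prod_cons, map_mul, hs, h3]
    unfold Chow0.chowForm
    rw [Multiset.map_cons, Multiset.map_cons, Multiset.prod_cons, h1, C_mul]
    linear_combination (-(linF (fun i => φ (z i)) * C a *
      (Multiset.map (fun p => Chow0.linForm p.rep) (Multiset.map Subtype.val S)).prod)) * h2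

omit [IsAlgClosed K] in
theorem exists_lift_mset {R' : Subalgebra ℂ K} (T : Multiset (Fin 4 → K))
    (h : ∀ z ∈ T, ∀ i, z i ∈ R') :
    ∃ T' : Multiset (Fin 4 → R'), T'.map (fun z i => ((z i : R') : K)) = T := by
  induction T using Multiset.induction_on with
  | empty => exact ⟨0, rfl⟩
  | cons z T ih =>
    obtain ⟨T', hT'⟩ := ih fun w hw => h w (Multiset.mem_cons_of_mem hw)
    refine ⟨(fun i => ⟨z i, h z (Multiset.mem_cons_self z T) i⟩) ::ₘ T', ?_⟩
    rw [Multiset.map_cons, hT']

/-- the specialisation of a product of linear forms -/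
theorem spec_eval {F : MvPolynomial (Fin 4) ℂ} {d : ℕ} (hF : F.IsHomogeneous d)
    (R : Subalgebra ℂ K) (φ : R →ₐ[ℂ] ℂ) (ℓ : Fin 4 → ℂ) (r : R) (hr : φ r ≠ 0) (N : ℕ)
    (G : MvPolynomial (Fin 4) R) (T : Multiset (Fin 4 → K))
    (hT : ∀ z ∈ T, aeval z F = 0 ∧ ∑ i, algebraMap ℂ K (ℓ i) * z i = 1)
    (hG : map R.val.toRingHom G = C (r : K) ^ N * (T.map linF).prod) :
    ∃ (s : Multiset (surf F)) (a : ℂ), a ≠ 0 ∧
      map φ.toRingHom G = C a * Chow0.chowForm (s.map Subtype.val) := by
  classical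
  -- integrality of the coordinates
  set S : Finset K := T.toFinset.biUnion fun z => Finset.univ.image z with hS
  have hSint : ∀ y ∈ S, ∃ p : Polynomial R, ∃ N : ℕ, p.leadingCoeff = r ^ N ∧
      Polynomial.aeval y p = 0 := by
    intro y hy
    rw [hS, Finset.mem_biUnion] at hy
    obtain ⟨z, hz, hzy⟩ := hy
    obtain ⟨i, -, rfl⟩ := Finset.mem_image.1 hzy
    rw [Multiset.mem_toFinset] at hz
    -- substitute `λ_j = T ℓ_j - δ_ij`
    set sub : MvPolynomial (Fin 4) R →+* Polynomial R :=
      eval₂Hom Polynomial.C (fun j => Polynomial.C (algebraMap ℂ R (ℓ j)) * Polynomial.X -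
        Polynomial.C (if j = i then 1 else 0)) with hsub
    set sub' : MvPolynomial (Fin 4) K →+* Polynomial K :=
      eval₂Hom Polynomial.C (fun j => Polynomial.C (algebraMap ℂ K (ℓ j)) * Polynomial.X -
        Polynomial.C (if j = i then 1 else 0)) with hsub'
    have hcomm : (Polynomial.mapRingHom R.val.toRingHom).comp sub =
        sub'.comp (map R.val.toRingHom) := by
      refine MvPolynomial.ringHom_ext (fun c => ?_) (fun j => ?_)
      · simp [hsub, hsub']
      · simp only [hsub, hsub', RingHom.coe_comp, Function.comp_apply, coe_eval₂Hom, eval₂_X,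
          map_X, map_sub, map_mul, Polynomial.coe_mapRingHom, Polynomial.map_C, Polynomial.map_X]
        congr 2
        split_ifs <;> simp
    have hlin : ∀ w ∈ T, sub' (linF w) = Polynomial.X - Polynomial.C (w i) := by
      intro w hw
      have h1 := (hT w hw).2
      rw [linF, map_sum]
      simp only [hsub', map_mul, coe_eval₂Hom, eval₂_C, eval₂_X, mul_sub]
      rw [Finset.sum_sub_distrib]
      congr 1
      · calc ∑ j, Polynomial.C (w j) * (Polynomial.C (algebraMap ℂ K (ℓ j)) * Polynomial.X)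
            = Polynomial.C (∑ j, algebraMap ℂ K (ℓ j) * w j) * Polynomial.X := by
              rw [map_sum, Finset.sum_mul]
              refine Finset.sum_congr rfl fun j _ => ?_
              rw [Polynomial.C_mul]
              ring
          _ = Polynomial.X := by rw [h1, Polynomial.C_1, one_mul]
      · simp [← Polynomial.C_mul]
    have hmap : (sub G).map R.val.toRingHom = Polynomial.C (r : K) ^ N *
        (T.map fun w => (Polynomial.X - Polynomial.C (w i) : Polynomial K)).prod := by
      have h1 := RingHom.congr_fun hcomm G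
      simp only [RingHom.coe_comp, Function.comp_apply, Polynomial.coe_mapRingHom] at h1
      rw [h1, hG, map_mul, map_pow, map_multiset_prod, Multiset.map_map]
      congr 1
      · simp [hsub']
      · congr 1
        exact Multiset.map_congr rfl fun w hw => hlin w hw
    refine ⟨sub G, N, ?_, ?_⟩
    · have hinj : Function.Injective R.val.toRingHom := Subtype.val_injective
      apply hinj
      have h2 := Polynomial.leadingCoeff_map_of_injective hinj (sub G)
      rw [← h2, hmap, Polynomial.leadingCoeff_mul, Polynomial.leadingCoeff_pow,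
        Polynomial.leadingCoeff_C, Polynomial.leadingCoeff_multiset_prod, Multiset.map_map]
      have h3 : (T.map (Polynomial.leadingCoeff ∘
          fun w => (Polynomial.X - Polynomial.C (w i) : Polynomial K))).prod = 1 := by
        rw [Multiset.map_congr rfl (g := fun _ => (1 : K)) fun w _ => by simp]
        simp
      rw [h3, mul_one, map_pow]
      rfl
    · have h2 : Polynomial.aeval (z i) (sub G) =
          ((sub G).map R.val.toRingHom).eval (z i) := by
        rw [Polynomial.eval_map]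
        rfl
      rw [h2, hmap, Polynomial.eval_mul, Polynomial.eval_multiset_prod, Multiset.map_map]
      have h3 : (T.map ((Polynomial.eval (z i)) ∘
          fun w => (Polynomial.X - Polynomial.C (w i) : Polynomial K))).prod = 0 := by
        apply Multiset.prod_eq_zero
        rw [Multiset.mem_map]
        exact ⟨z, hz, by simp⟩
      rw [h3, mul_zero]
  obtain ⟨R', hR', φ', hSR', hφ'⟩ := exists_ext R φ S r hr hSint
  have hcoord : ∀ z ∈ T, ∀ i, z i ∈ R' := by
    intro z hz i
    apply hSR'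
    rw [hS, Finset.mem_biUnion]
    exact ⟨z, Multiset.mem_toFinset.2 hz, Finset.mem_image_of_mem _ (Finset.mem_univ i)⟩
  obtain ⟨T', hT'⟩ := exists_lift_mset T hcoord
  -- the equation over `R'`
  have heq : map (Subalgebra.inclusion hR').toRingHom G =
      C (Subalgebra.inclusion hR' r) ^ N * (T'.map linF).prod := by
    apply map_injective R'.val.toRingHom Subtype.val_injective
    rw [map_map, map_mul, map_pow, map_C, map_prod_linF]
    have e1 : R'.val.toRingHom.comp (Subalgebra.inclusion hR').toRingHom = R.val.toRingHom := rfl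
    have e2 : (T'.map fun z i => R'.val.toRingHom (z i)) = T := hT'
    rw [e1, e2, hG]
    rfl
  have heq2 : map φ.toRingHom G = C (φ r) ^ N *
      ((T'.map fun z i => φ' (z i)).map linF).prod := by
    have e1 : φ'.toRingHom.comp (Subalgebra.inclusion hR').toRingHom = φ.toRingHom := by
      refine RingHom.ext fun y => ?_
      exact hφ' y
    have h1 := congrArg (map φ'.toRingHom) heq
    rw [map_map, e1, map_mul, map_pow, map_C, map_prod_linF] at h1
    rw [h1]
    have e2 : φ'.toRingHom (Subalgebra.inclusion hR' r) = φ r := hφ' r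
    rw [e2]
    rfl
  have hpts : ∀ z ∈ (T'.map fun z i => φ' (z i)), aeval z F = 0 ∧ z ≠ 0 := by
    intro z hz
    obtain ⟨w, hw, rfl⟩ := Multiset.mem_map.1 hz
    have hwT : (fun i => ((w i : R') : K)) ∈ T := by
      rw [← hT']
      exact Multiset.mem_map_of_mem _ hw
    obtain ⟨h1, h2⟩ := hT _ hwT
    have h3 : aeval w F = 0 := by
      have h4 : R'.val (aeval w F) = 0 := by
        rw [← h1, comp_aeval_apply]
        rfl
      exact Subtype.ext h4
    constructor
    · have h4 := congrArg φ' h3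
      rw [map_zero, comp_aeval_apply] at h4
      exact h4
    · intro h0
      have h4 : ∑ i, algebraMap ℂ R' (ℓ i) * w i = 1 := by
        have h4 : R'.val (∑ i, algebraMap ℂ R' (ℓ i) * w i) = R'.val 1 := by
          rw [map_sum, map_one, ← h2]
          rfl
        exact Subtype.ext h4
      have h5 := congrArg φ' h4
      rw [map_sum, map_one] at h5
      have h6 : ∀ i, φ' (w i) = 0 := fun i => congrFun h0 i
      simp [h6] at h5
  obtain ⟨s, a, ha, hs⟩ := exists_chow hF _ hpts
  refine ⟨s, φ r ^ N * a, mul_ne_zero (pow_ne_zero _ hr) ha, ?_⟩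
  rw [heq2, hs, C_mul, C_pow]
  ring

end SpecAux

open scoped Classical in
/-- (L2) specialisation of a rational equivalence. -/
theorem spec_link {F : MvPolynomial (Fin 4) ℂ} {d : ℕ} (hF : F.IsHomogeneous d)
    (R : Subalgebra ℂ K) (φ : R →ₐ[ℂ] ℂ) (ℓ : Fin 4 → ℂ) (c : Polynomial R)
    (hc0 : φ (c.eval 0) ≠ 0) (hc1 : φ (c.eval 1) ≠ 0) (N : ℕ)
    (FF : MvPolynomial (Fin 4) (Polynomial R))
    (hFF : ∀ s : ℂ, φ (c.eval (algebraMap ℂ R s)) ≠ 0 → ∃ T : Multiset (Fin 4 → K),
      (∀ z ∈ T, aeval z F = 0 ∧ ∑ i, algebraMap ℂ K (ℓ i) * z i = 1) ∧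
      map (R.val.toRingHom.comp (Polynomial.evalRingHom (algebraMap ℂ R s))) FF =
        C ((c.eval (algebraMap ℂ R s) : R) : K) ^ N * (T.map linF).prod)
    (T₀ T₁ : Multiset (Fin 4 → R))
    (h0 : map (Polynomial.evalRingHom 0) FF = C (c.eval 0) ^ N * (T₀.map linF).prod)
    (h1 : map (Polynomial.evalRingHom 1) FF = C (c.eval 1) ^ N * (T₁.map linF).prod)
    (S₀ S₁ : Multiset (surf F))
    (hS₀ : Multiset.Rel (IsSpecPt F R φ) T₀ S₀) (hS₁ : Multiset.Rel (IsSpecPt F R φ) T₁ S₁) :
    cyc S₀ - cyc S₁ ∈ ratTriv (surf F) := by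
  refine AddSubgroup.subset_closure ⟨S₀, S₁, ⟨specPoly φ FF, ?_, ?_, ?_⟩, rfl⟩
  · -- almost all `t`
    have hfin : {t : ℂ | φ (c.eval (algebraMap ℂ R t)) = 0}.Finite := by
      have hne : c.map φ.toRingHom ≠ 0 := by
        intro h
        have h2 := congrArg (Polynomial.eval 0) h
        rw [Polynomial.eval_zero] at h2
        apply hc0
        rw [← h2]
        have h3 := Polynomial.eval_map_apply φ.toRingHom (p := c) (0 : R)
        rw [map_zero] at h3
        exact h3.symm
      refine (Polynomial.rootSet_finite (c.map φ.toRingHom) ℂ).subset fun t ht => ?_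
      rw [Polynomial.mem_rootSet]
      refine ⟨hne, ?_⟩
      have h3 := Polynomial.eval_map_apply φ.toRingHom (p := c) (algebraMap ℂ R t)
      have h4 : φ.toRingHom (algebraMap ℂ R t) = t := φ.commutes t
      rw [h4] at h3
      rw [Polynomial.coe_aeval_eq_eval, h3]
      exact ht
    rw [Filter.eventually_cofinite]
    refine hfin.subset fun t ht => ?_
    by_contra hne
    apply ht
    obtain ⟨T, hT, hmap⟩ := hFF t hne
    rw [← map_map] at hmap
    obtain ⟨s, a, ha, hs⟩ := spec_eval hF R φ ℓ _ hne N _ T hT hmap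
    refine ⟨s, a, ha, ?_⟩
    rw [eval_specPoly, ← map_map, hs]
  · obtain ⟨a, ha, hs⟩ := chow_of_rel hS₀
    refine ⟨φ (c.eval 0) ^ N * a, mul_ne_zero (pow_ne_zero _ hc0) ha, ?_⟩
    rw [eval_specPoly, ← map_map, map_zero, h0, map_mul, hs, map_pow, map_C, C_mul, C_pow]
    have e : φ.toRingHom (Polynomial.eval 0 c) = φ (Polynomial.eval 0 c) := rfl
    rw [e]
    ring
  · obtain ⟨a, ha, hs⟩ := chow_of_rel hS₁
    refine ⟨φ (c.eval 1) ^ N * a, mul_ne_zero (pow_ne_zero _ hc1) ha, ?_⟩
    rw [eval_specPoly, ← map_map, map_one, h1, map_mul, hs, map_pow, map_C, C_mul, C_pow]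
    have e : φ.toRingHom (Polynomial.eval 1 c) = φ (Polynomial.eval 1 c) := rfl
    rw [e]
    ring

end Pool.Agent.LowDeg
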