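import Pool.Agent.LowDeg.TraceVal
import Pool.Agent.LowDeg.LocalDer

/-! Module A4 (doc sections 2.4, 2.5): traces of logarithmic derivatives and power sums. -/

set_option autoImplicit false

open Polynomial IntermediateField

namespace Pool.Agent.LowDeg

namespace PowerSumAux

section basic

variable {K E : Type} [Field K] [Field E] [Algebra K E]

lemma aeval_inj {a : E} (ha : Transcendental K a) {p q : K[X]} (h : aeval a p = aeval a q) :
    p = q :=
  transcendental_iff_injective.1 ha h

lemma aeval_ne_zero {a : E} (ha : Transcendental K a) {p : K[X]} (hp : p ≠ 0) :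
    aeval a p ≠ 0 := fun h => hp (aeval_inj ha (by rw [h, map_zero]))

lemma sub_const_ne_zero {a : E} (ha : Transcendental K a) (c : K) :
    a - algebraMap K E c ≠ 0 := by
  have h := aeval_ne_zero ha (X_sub_C_ne_zero c)
  simpa using h

lemma aeval_sub_const (a : E) (c : K) (q : K[X]) :
    aeval (a - algebraMap K E c) q = aeval a (q.comp (X - C c)) := by
  rw [aeval_comp]
  simp

lemma adjoin_sub_const (a : E) (c : K) : K⟮a - algebraMap K E c⟯ = K⟮a⟯ := by
  apply le_antisymm
  · rw [adjoin_simple_le_iff]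
    exact sub_mem (mem_adjoin_simple_self K a) (K⟮a⟯.algebraMap_mem c)
  · rw [adjoin_simple_le_iff]
    have h := add_mem (mem_adjoin_simple_self K (a - algebraMap K E c))
      (K⟮a - algebraMap K E c⟯.algebraMap_mem c)
    simpa using h

/-- an element of `K(a)` regular at all finite places of `K(a)` is a polynomial in `a` -/
lemma poly_of_regular [IsAlgClosed K] {a : E} (ha : Transcendental K a) (r : E)
    (hr : r ∈ K⟮a⟯)
    (hreg : ∀ c : K, ∃ p q : K[X], q.eval 0 ≠ 0 ∧
      (a - algebraMap K E c) * r * aeval (a - algebraMap K E c) q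
        = aeval (a - algebraMap K E c) p ∧ p.eval 0 = 0) :
    ∃ T : K[X], r = aeval a T := by
  have key : ∀ (n : ℕ) (u v : K[X]), v.natDegree = n → v ≠ 0 →
      r * aeval a v = aeval a u → ∃ T : K[X], r = aeval a T := by
    intro n
    induction n with
    | zero =>
      intro u v hn hv h
      obtain ⟨c, hc⟩ : ∃ c, v = C c := ⟨_, eq_C_of_natDegree_eq_zero hn⟩
      have hc0 : c ≠ 0 := by rintro rfl; exact hv (by simp [hc])
      refine ⟨C c⁻¹ * u, ?_⟩
      rw [map_mul, ← h, hc, aeval_C, aeval_C]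
      have hc0' : algebraMap K E c ≠ 0 := by simpa using hc0
      rw [map_inv₀]
      field_simp
    | succ n ih =>
      intro u v hn hv h
      obtain ⟨c, hc⟩ : ∃ c, v.IsRoot c := by
        apply IsAlgClosed.exists_root
        intro h0
        rw [degree_eq_natDegree hv, hn] at h0
        have h1 : n + 1 = 0 := by exact_mod_cast h0
        omega
      obtain ⟨v', hv'⟩ := dvd_iff_isRoot.2 hc
      obtain ⟨p, q, hq, hpq, hp⟩ := hreg c
      have ht0 := sub_const_ne_zero ha c
      obtain ⟨p₁, hp₁⟩ : X ∣ p := by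
        rw [X_dvd_iff, coeff_zero_eq_eval_zero]; exact hp
      have h1 : r * aeval (a - algebraMap K E c) q = aeval (a - algebraMap K E c) p₁ := by
        rw [hp₁, map_mul, aeval_X, mul_assoc] at hpq
        exact mul_left_cancel₀ ht0 hpq
      have h2 : u * q.comp (X - C c) = v * p₁.comp (X - C c) := by
        apply aeval_inj ha
        rw [map_mul, map_mul, ← aeval_sub_const, ← aeval_sub_const, ← h1, ← h]
        ring
      have h3 := congrArg (eval c) h2
      rw [eval_mul, eval_mul, eval_comp, eval_comp, hc.eq_zero, zero_mul] at h3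
      simp only [eval_sub, eval_X, eval_C, sub_self, mul_eq_zero] at h3
      have h4 : u.IsRoot c := h3.resolve_right hq
      obtain ⟨u', hu'⟩ := dvd_iff_isRoot.2 h4
      have hv'0 : v' ≠ 0 := by rintro rfl; exact hv (by simp [hv'])
      have hdeg : v'.natDegree = n := by
        have h5 : v.natDegree = 1 + v'.natDegree := by
          rw [hv', natDegree_mul (X_sub_C_ne_zero c) hv'0, natDegree_X_sub_C]
        omega
      refine ih u' v' hdeg hv'0 ?_
      rw [hv', hu', map_mul, map_mul] at h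
      have h6 : aeval a (X - C c) = a - algebraMap K E c := by simp
      rw [h6] at h
      have h7 : (a - algebraMap K E c) * (r * aeval a v')
          = (a - algebraMap K E c) * aeval a u' := by
        rw [← h]; ring
      exact mul_left_cancel₀ ht0 h7
  obtain ⟨u, v, huv⟩ := (mem_adjoin_simple_iff K r).1 hr
  by_cases hv : aeval a v = 0
  · exact ⟨0, by rw [huv, hv, div_zero, map_zero]⟩
  · refine key _ u v rfl (fun h0 => hv (by rw [h0, map_zero])) ?_
    rw [huv, div_mul_cancel₀ _ hv]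

end basic

section tri

variable {K E : Type} [Field K] [IsAlgClosed K] [CharZero K] [Field E] [Algebra K E]

lemma halg (a : E) (ha : Transcendental K a) [FiniteDimensional K⟮a⟯ E] :
    ∀ x : E, Transcendental K x → Algebra.IsAlgebraic K⟮x⟯ E :=
  fun x hx => (algebraic_of_transcendental a ha x hx).1

lemma trace_mul_t (a : E) [FiniteDimensional K⟮a⟯ E] (c : K) (z : E) :
    (Algebra.trace K⟮a⟯ E ((a - algebraMap K E c) * z) : E)
      = (a - algebraMap K E c) * (Algebra.trace K⟮a⟯ E z : E) := by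
  obtain ⟨s, hs⟩ : ∃ s : K⟮a⟯, (s : E) = a - algebraMap K E c :=
    ⟨⟨a - algebraMap K E c, sub_mem (mem_adjoin_simple_self K a) (K⟮a⟯.algebraMap_mem c)⟩, rfl⟩
  rw [← hs]
  have h : (s : E) * z = s • z := rfl
  rw [h, map_smul, smul_eq_mul]
  rfl

/-- log-type derivation at `c` -/
lemma log_der (a : E) (ha : Transcendental K a) [FiniteDimensional K⟮a⟯ E]
    (del : Derivation K E E) (hdel : del a = 1) (c : K) (P : Place K E)
    (hP : P.Sm (a - algebraMap K E c)) :
    (∀ x, x ≠ 0 → P.IsVal ((a - algebraMap K E c) * del x / x)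
      ((P.ord x : K) / (P.ord (a - algebraMap K E c) : K))) ∧
    (∀ x, P.Int x → P.Sm ((a - algebraMap K E c) * del x)) := by
  have h := der_log_val P (halg a ha) ((a - algebraMap K E c) • del)
    (fun c' => by simp) (a - algebraMap K E c) (sub_const_ne_zero ha c) hP (by simp [hdel])
  simpa using h

lemma int_a_of_sm {a : E} {c : K} {P : Place K E} (hP : P.Sm (a - algebraMap K E c)) :
    P.Int a := Place.IsVal.int (c := c) hP

end tri

section jacobi

lemma der_prod {k A ι : Type*} [CommRing k] [CommRing A] [Algebra k A] [DecidableEq ι]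
    (D : Derivation k A A) (s : Finset ι) (f : ι → A) :
    D (∏ i ∈ s, f i) = ∑ i ∈ s, (∏ j ∈ s.erase i, f j) * D (f i) := by
  induction s using Finset.induction_on with
  | empty => simp
  | insert i s hi ih =>
    rw [Finset.prod_insert hi, D.leibniz, ih, Finset.sum_insert hi, Finset.erase_insert hi,
      smul_eq_mul, smul_eq_mul, Finset.mul_sum, add_comm]
    congr 1
    refine Finset.sum_congr rfl fun j hj => ?_
    have hij : i ≠ j := fun h => hi (h ▸ hj)
    rw [Finset.erase_insert_of_ne hij, Finset.prod_insert (fun h => hi (Finset.mem_of_mem_erase h))]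
    ring

lemma der_det {k A n : Type*} [CommRing k] [CommRing A] [Algebra k A] [Fintype n] [DecidableEq n]
    (D : Derivation k A A) (M : Matrix n n A) :
    D M.det = (M.adjugate * M.map D).trace := by
  have h1 : D M.det = ∑ i, (M.updateCol i (fun l => D (M l i))).det := by
    simp only [Matrix.det_apply]
    rw [map_sum, Finset.sum_comm]
    refine Finset.sum_congr rfl fun σ _ => ?_
    rw [← Finset.smul_sum, Units.smul_def, Units.smul_def, map_zsmul]
    congr 1
    rw [der_prod]
    refine Finset.sum_congr rfl fun i _ => ?_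
    rw [← Finset.mul_prod_erase Finset.univ _ (Finset.mem_univ i), Matrix.updateCol_self, mul_comm]
    congr 1
    refine Finset.prod_congr rfl fun j hj => ?_
    rw [Matrix.updateCol_ne (Finset.ne_of_mem_erase hj)]
  rw [h1, Matrix.trace]
  refine Finset.sum_congr rfl fun i _ => ?_
  rw [← Matrix.cramer_apply, Matrix.cramer_eq_adjugate_mulVec, Matrix.diag_apply,
    Matrix.mul_apply, Matrix.mulVec, dotProduct]
  rfl

/-- logarithmic derivative of the norm -/
lemma norm_log_der {k F E : Type*} [CommRing k] [Field F] [Field E] [Algebra k F] [Algebra k E]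
    [Algebra F E] [FiniteDimensional F E] (DF : Derivation k F F) (D : Derivation k E E)
    (hD : ∀ r : F, D (algebraMap F E r) = algebraMap F E (DF r)) (x : E) (hx : x ≠ 0) :
    DF (Algebra.norm F x) = Algebra.norm F x * Algebra.trace F E (D x / x) := by
  classical
  let b := Module.finBasis F E
  let A : Matrix (Fin (Module.finrank F E)) (Fin (Module.finrank F E)) F :=
    Matrix.of fun i j => b.repr (D (b j)) i
  have hrepr : ∀ (y : E) (i), b.repr (D y) i = DF (b.repr y i) + ∑ j, A i j * b.repr y j := by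
    intro y i
    have h1 : y = ∑ j, algebraMap F E (b.repr y j) * b j := by
      conv_lhs => rw [← b.sum_repr y]
      simp only [Algebra.smul_def]
    have h2 : D y = ∑ j, (b.repr y j • D (b j) + DF (b.repr y j) • b j) := by
      conv_lhs => rw [h1]
      rw [map_sum]
      refine Finset.sum_congr rfl fun j _ => ?_
      rw [D.leibniz, hD, smul_eq_mul, smul_eq_mul, Algebra.smul_def (b.repr y j),
        Algebra.smul_def (DF (b.repr y j))]
      ring
    rw [h2, map_sum, Finset.sum_apply']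
    simp only [map_add, map_smul, Finsupp.add_apply, Finsupp.smul_apply, smul_eq_mul,
      Finset.sum_add_distrib, Module.Basis.repr_self, Finsupp.single_apply]
    rw [add_comm]
    congr 1
    · simp
    · exact Finset.sum_congr rfl fun j _ => by rw [mul_comm]; rfl
  let M := Algebra.leftMulMatrix b x
  have hM : ∀ y : E, ∀ i, b.repr (x * y) i = ∑ j, M i j * b.repr y j := by
    intro y i
    have h := congrFun (Algebra.leftMulMatrix_mulVec_repr b x y) i
    rw [← h]
    rfl
  have hL : Algebra.leftMulMatrix b (D x) + M * A = M.map DF + A * M := by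
    ext i j
    have h1 := hrepr (x * b j) i
    rw [D.leibniz, smul_eq_mul, smul_eq_mul, mul_comm (b j) (D x), map_add, Finsupp.add_apply,
      hM, ← Algebra.leftMulMatrix_eq_repr_mul b (D x)] at h1
    have h3 : ∀ l, b.repr (x * b j) l = M l j := fun l =>
      (Algebra.leftMulMatrix_eq_repr_mul b x l j).symm
    simp only [h3] at h1
    rw [Matrix.add_apply, Matrix.add_apply, Matrix.mul_apply, Matrix.mul_apply, Matrix.map_apply,
      add_comm]
    exact h1
  let M' := Algebra.leftMulMatrix b x⁻¹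
  have hMM' : M' * M = 1 := by
    rw [← map_mul, inv_mul_cancel₀ hx, map_one]
  have hM'M : M * M' = 1 := by
    rw [← map_mul, mul_inv_cancel₀ hx, map_one]
  have hdet : M.det = Algebra.norm F x := (Algebra.norm_eq_matrix_det b x).symm
  have hadj : M.adjugate = M.det • M' := by
    calc M.adjugate = M.adjugate * (M * M') := by rw [hM'M, mul_one]
      _ = (M.adjugate * M) * M' := by rw [mul_assoc]
      _ = _ := by rw [Matrix.adjugate_mul, smul_mul_assoc, one_mul]
  have htr : Algebra.trace F E (D x / x) = (M' * M.map DF).trace := by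
    have h4 : D x / x = x⁻¹ * D x := by rw [div_eq_inv_mul]
    rw [h4, Algebra.trace_eq_matrix_trace b, map_mul]
    have h5 : Algebra.leftMulMatrix b (D x) = M.map DF + A * M - M * A := by
      rw [← hL, add_sub_cancel_right]
    rw [h5]
    change (M' * (M.map DF + A * M - M * A)).trace = _
    rw [mul_sub, mul_add, Matrix.trace_sub, Matrix.trace_add]
    have h6 : (M' * (A * M)).trace = A.trace := by
      rw [Matrix.trace_mul_comm, mul_assoc, hM'M, mul_one]
    have h7 : (M' * (M * A)).trace = A.trace := by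
      rw [← mul_assoc, hMM', one_mul]
    rw [h6, h7, add_sub_cancel_right]
  rw [← hdet, der_det, hadj, htr, smul_mul_assoc, Matrix.trace_smul, smul_eq_mul]

end jacobi

section normpoly

variable {K E : Type} [Field K] [IsAlgClosed K] [CharZero K] [Field E] [Algebra K E]

open scoped IntermediateField.algebraAdjoinAdjoin in
lemma norm_poly (a : E) (ha : Transcendental K a) [FiniteDimensional K⟮a⟯ E] (x : E)
    (hx0 : x ≠ 0)
    (hx : ∃ p : K[X][X], p.Monic ∧ p.eval₂ (aeval a : K[X] →ₐ[K] E).toRingHom x = 0) :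
    (∃ N : K[X], (Algebra.norm K⟮a⟯ x : E) = aeval a N) ∧
      ∀ P : Place K E, P.Int a → P.Int x → P.Int ((Algebra.norm K⟮a⟯ x : E) / x) := by
  let R := Algebra.adjoin K {a}
  have hR : ∀ r : R, ∃ q : K[X], (r : E) = aeval a q := by
    intro r
    have h : (r : E) ∈ Algebra.adjoin K {a} := r.2
    rw [Algebra.adjoin_singleton_eq_range_aeval] at h
    obtain ⟨q, hq⟩ := h
    exact ⟨q, hq.symm⟩
  have hR' : ∀ q : K[X], aeval a q ∈ R := by
    intro q
    change aeval a q ∈ Algebra.adjoin K {a}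
    rw [Algebra.adjoin_singleton_eq_range_aeval]
    exact ⟨q, rfl⟩
  let e0 : K[X] →+* R := (aeval a : K[X] →ₐ[K] E).toRingHom.codRestrict R hR'
  have he0 : Function.Bijective e0 := by
    constructor
    · intro p q hpq
      exact transcendental_iff_injective.1 ha (congrArg Subtype.val hpq)
    · intro r
      obtain ⟨q, hq⟩ := hR r
      exact ⟨q, Subtype.ext hq.symm⟩
  let e : K[X] ≃+* R := RingEquiv.ofBijective e0 he0
  have : IsIntegrallyClosed R := IsIntegrallyClosed.of_equiv e
  have hxR : IsIntegral R x := by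
    obtain ⟨p, hp, hpx⟩ := hx
    refine ⟨p.map e0, hp.map e0, ?_⟩
    rw [eval₂_map]
    exact hpx
  have hmin : minpoly K⟮a⟯ x = (minpoly R x).map (algebraMap R K⟮a⟯) :=
    minpoly.isIntegrallyClosed_eq_field_fractions' K⟮a⟯ hxR
  have hcoef : ∀ i, ∃ q : K[X], (((minpoly K⟮a⟯ x).coeff i : K⟮a⟯) : E) = aeval a q := by
    intro i
    rw [hmin, coeff_map]
    exact hR _
  have hxF : IsIntegral K⟮a⟯ x := .of_finite _ _
  obtain ⟨k, hk⟩ : ∃ k, Module.finrank K⟮a⟯⟮x⟯ E = k + 1 :=
    ⟨Module.finrank K⟮a⟯⟮x⟯ E - 1, (Nat.succ_pred_eq_of_pos Module.finrank_pos).symm⟩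
  have hnorm : ∃ ε : K, (Algebra.norm K⟮a⟯ x : E)
      = algebraMap K E ε * ((((minpoly K⟮a⟯ x).coeff 0 : K⟮a⟯)) : E) ^ (k + 1) := by
    have h1 := Algebra.norm_eq_norm_adjoin (K := K⟮a⟯) x
    have h2 := Algebra.PowerBasis.norm_gen_eq_coeff_zero_minpoly (adjoin.powerBasis hxF)
    rw [adjoin.powerBasis_gen, minpoly_gen] at h2
    refine ⟨((-1) ^ (adjoin.powerBasis hxF).dim) ^ (k + 1), ?_⟩
    rw [h1, h2, hk, mul_pow]
    push_cast
    simp
  obtain ⟨ε, hε⟩ := hnorm
  constructor
  · obtain ⟨q, hq⟩ := hcoef 0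
    refine ⟨C ε * q ^ (k + 1), ?_⟩
    rw [hε, hq, map_mul, map_pow, aeval_C]
  · intro P hPa hPx
    obtain ⟨c, hc⟩ := hPa.exists_isVal
    have hint : ∀ i, P.Int (((minpoly K⟮a⟯ x).coeff i : K⟮a⟯) : E) := by
      intro i
      obtain ⟨q, hq⟩ := hcoef i
      rw [hq]
      exact (hc.polyAeval q).int
    have hw : P.Int (aeval x (minpoly K⟮a⟯ x).divX) := by
      rw [aeval_eq_sum_range]
      refine Place.Int.sum _ fun i _ => ?_
      rw [coeff_divX, Algebra.smul_def]
      exact (hint _).mul (hPx.pow i)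
    have h0 : (((minpoly K⟮a⟯ x).coeff 0 : K⟮a⟯) : E)
        = x * (-(aeval x (minpoly K⟮a⟯ x).divX)) := by
      have h1 := minpoly.aeval K⟮a⟯ x
      rw [← divX_mul_X_add (minpoly K⟮a⟯ x)] at h1
      rw [map_add, map_mul, aeval_X, aeval_C] at h1
      have h2 : algebraMap K⟮a⟯ E ((minpoly K⟮a⟯ x).coeff 0)
        = (((minpoly K⟮a⟯ x).coeff 0 : K⟮a⟯) : E) := rfl
      rw [h2] at h1
      linear_combination h1
    have h3 : (Algebra.norm K⟮a⟯ x : E) / x = algebraMap K E ε *
        ((((minpoly K⟮a⟯ x).coeff 0 : K⟮a⟯)) : E) ^ k *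
        (-(aeval x (minpoly K⟮a⟯ x).divX)) := by
      rw [hε, pow_succ]
      nth_rewrite 2 [h0]
      field_simp
    rw [h3]
    exact ((P.int_const ε).mul ((hint 0).pow k)).mul hw.neg

end normpoly

section poly

variable {K : Type} [Field K]

lemma eval_ne_zero_of_not_dvd {c : K} {N₁ : K[X]} (h : ¬ (X - C c) ∣ N₁) : N₁.eval c ≠ 0 :=
  fun h0 => h (dvd_iff_isRoot.2 h0)

lemma poly_mult {N : K[X]} (hN : N ≠ 0) (c : K) (p q : K[X]) (hq : q.eval c ≠ 0)
    (h : (X - C c) * derivative N * q = p * N) :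
    (rootMultiplicity c N : K) = p.eval c / q.eval c := by
  obtain ⟨N₁, hN₁, hnd⟩ := exists_eq_pow_rootMultiplicity_mul_and_not_dvd N hN c
  have hne := eval_ne_zero_of_not_dvd hnd
  obtain ⟨m, hm⟩ : ∃ m, m = rootMultiplicity c N := ⟨_, rfl⟩
  rw [← hm] at hN₁ ⊢
  have hder : (X - C c) * derivative N = (X - C c) ^ m * (C (m : K) * N₁ + (X - C c) * derivative N₁) := by
    rw [hN₁, derivative_mul, derivative_X_sub_C_pow]
    cases m with
    | zero => simp
    | succ m =>
      rw [Nat.add_sub_cancel, pow_succ]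
      push_cast
      ring
  rw [hder, hN₁] at h
  have h1 : (C (m : K) * N₁ + (X - C c) * derivative N₁) * q = p * N₁ := by
    have h2 : (X - C c) ^ m * ((C (m : K) * N₁ + (X - C c) * derivative N₁) * q)
        = (X - C c) ^ m * (p * N₁) := by
      rw [← mul_assoc, h]; ring
    exact mul_left_cancel₀ (pow_ne_zero _ (X_sub_C_ne_zero c)) h2
  have h3 := congrArg (eval c) h1
  simp only [eval_mul, eval_add, eval_C, eval_sub, eval_X, sub_self, zero_mul, add_zero] at h3
  rw [eq_div_iff hq]
  have h4 : (m : K) * q.eval c * N₁.eval c = p.eval c * N₁.eval c := by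
    rw [← h3]; ring
  exact mul_right_cancel₀ hne h4

lemma poly_dvd [IsAlgClosed K] {N G : K[X]} (hN : N ≠ 0)
    (h : ∀ c, (X - C c) ^ rootMultiplicity c N ∣ G) : N ∣ G := by
  by_cases hG : G = 0
  · rw [hG]; exact dvd_zero _
  have h1 : N.roots ≤ G.roots := by
    classical
    rw [Multiset.le_iff_count]
    intro c
    rw [count_roots, count_roots]
    exact (le_rootMultiplicity_iff hG).2 (h c)
  have h2 := (Multiset.prod_X_sub_C_dvd_iff_le_roots hG N.roots).2 h1
  have h3 : C N.leadingCoeff * (N.roots.map fun a => X - C a).prod = N :=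
    (IsAlgClosed.splits N).eq_prod_roots.symm
  rw [← h3]
  have h4 : IsUnit (C N.leadingCoeff) := isUnit_C.2 (isUnit_iff_ne_zero.2 (leadingCoeff_ne_zero.2 hN))
  exact (h4.mul_left_dvd).2 h2

lemma poly_rem [IsAlgClosed K] [DecidableEq K] {N T : K[X]} (hN : N ≠ 0) (σ : K → K)
    (h : ∀ c, ∃ p q : K[X], q.eval c ≠ 0 ∧ (X - C c) * T * q = p * N ∧
      p.eval c / q.eval c = σ c) :
    (T %ₘ (C N.leadingCoeff⁻¹ * N)).coeff (N.natDegree - 1) =
      N.leadingCoeff * ∑ c ∈ N.roots.toFinset, σ c := by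
  have hlc : N.leadingCoeff ≠ 0 := leadingCoeff_ne_zero.2 hN
  have hroot : ∀ c ∈ N.roots.toFinset, (X - C c) * (N /ₘ (X - C c)) = N := by
    intro c hc
    exact mul_divByMonic_eq_iff_isRoot.2 ((mem_roots hN).1 (Multiset.mem_toFinset.1 hc))
  obtain ⟨T₀, hT₀⟩ : ∃ T₀, T₀ = ∑ c ∈ N.roots.toFinset, C (σ c) * (N /ₘ (X - C c)) := ⟨_, rfl⟩
  have hdvd : N ∣ T - T₀ := by
    apply poly_dvd hN
    intro c
    by_cases hc : c ∈ N.roots.toFinset
    swap
    · have hc' : ¬ N.IsRoot c := fun h' => hc (Multiset.mem_toFinset.2 ((mem_roots hN).2 h'))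
      rw [rootMultiplicity_eq_zero hc', pow_zero]
      exact one_dvd _
    have hcr : N.IsRoot c := (mem_roots hN).1 (Multiset.mem_toFinset.1 hc)
    obtain ⟨N₁, hN₁, hnd⟩ := exists_eq_pow_rootMultiplicity_mul_and_not_dvd N hN c
    have hpos : 0 < rootMultiplicity c N := (rootMultiplicity_pos hN).2 hcr
    obtain ⟨m, hm⟩ : ∃ m, rootMultiplicity c N = m + 1 :=
      ⟨rootMultiplicity c N - 1, (Nat.succ_pred_eq_of_pos hpos).symm⟩
    rw [hm] at hN₁ ⊢
    have hNc : N /ₘ (X - C c) = (X - C c) ^ m * N₁ := by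
      have h1 := hroot c hc
      have h2 : (X - C c) * (N /ₘ (X - C c)) = (X - C c) * ((X - C c) ^ m * N₁) := by
        rw [h1]
        conv_lhs => rw [hN₁]
        rw [pow_succ]; ring
      exact mul_left_cancel₀ (X_sub_C_ne_zero c) h2
    obtain ⟨p, q, hq, hpq, hσ⟩ := h c
    have hTq : T * q = p * ((X - C c) ^ m * N₁) := by
      have h2 : (X - C c) * (T * q) = (X - C c) * (p * ((X - C c) ^ m * N₁)) := by
        rw [← mul_assoc, hpq]
        conv_lhs => rw [hN₁]
        rw [pow_succ]; ring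
      exact mul_left_cancel₀ (X_sub_C_ne_zero c) h2
    have hcop : ∀ G : K[X], G.eval c ≠ 0 → IsCoprime ((X - C c) ^ (m + 1)) G := by
      intro G hG
      apply IsCoprime.pow_left
      rw [← isCoprime_comm]
      exact ((irreducible_X_sub_C c).coprime_iff_not_dvd.2
        (fun hd => hG (dvd_iff_isRoot.1 hd))).symm
    have hmain : (X - C c) ^ (m + 1) ∣ T - C (σ c) * (N /ₘ (X - C c)) := by
      have h3 : (X - C c) ∣ p - C (σ c) * q := by
        rw [dvd_iff_isRoot, IsRoot, eval_sub, eval_mul, eval_C, ← hσ, div_mul_cancel₀ _ hq, sub_self]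
      obtain ⟨r, hr⟩ := h3
      have h4 : (X - C c) ^ (m + 1) ∣ (T - C (σ c) * (N /ₘ (X - C c))) * q := by
        refine ⟨N₁ * r, ?_⟩
        have h5 : (T - C (σ c) * (N /ₘ (X - C c))) * q
            = (X - C c) ^ m * N₁ * (p - C (σ c) * q) := by
          rw [sub_mul, hTq, hNc]; ring
        rw [h5, hr]; ring
      exact (hcop q hq).dvd_of_dvd_mul_right h4
    have hsplit : T₀ = C (σ c) * (N /ₘ (X - C c))
        + ∑ b ∈ N.roots.toFinset.erase c, C (σ b) * (N /ₘ (X - C b)) := by
      rw [hT₀]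
      exact (Finset.add_sum_erase _ (fun b => C (σ b) * (N /ₘ (X - C b))) hc).symm
    rw [hsplit, ← sub_sub]
    refine dvd_sub hmain (Finset.dvd_sum fun b hb => ?_)
    apply dvd_mul_of_dvd_right
    have hbc : b ≠ c := Finset.ne_of_mem_erase hb
    have h6 : (X - C c) ^ (m + 1) ∣ (X - C b) * (N /ₘ (X - C b)) := by
      rw [hroot b (Finset.mem_of_mem_erase hb)]
      exact ⟨N₁, hN₁⟩
    refine (hcop (X - C b) ?_).dvd_of_dvd_mul_left h6
    rw [eval_sub, eval_X, eval_C]
    exact sub_ne_zero.2 hbc.symm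
  obtain ⟨Q, hQ⟩ := hdvd
  have hmonic : (C N.leadingCoeff⁻¹ * N).Monic := by
    rw [Monic, leadingCoeff_mul, leadingCoeff_C, inv_mul_cancel₀ hlc]
  have hdegN : (C N.leadingCoeff⁻¹ * N).degree = N.degree := by
    rw [degree_C_mul (inv_ne_zero hlc)]
  have hdeg : T₀.degree < N.degree := by
    rw [hT₀]
    by_cases hR : N.roots.toFinset = ∅
    · rw [hR, Finset.sum_empty, degree_zero]
      exact bot_lt_iff_ne_bot.2 (degree_ne_bot.2 hN)
    refine (degree_sum_le _ _).trans_lt ?_
    rw [Finset.sup_lt_iff (bot_lt_iff_ne_bot.2 (degree_ne_bot.2 hN))]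
    intro c hc
    have h1 : (C (σ c) * (N /ₘ (X - C c))).degree ≤ (N /ₘ (X - C c)).degree := by
      by_cases h0 : σ c = 0
      · rw [h0]; simp
      · rw [degree_C_mul h0]
    refine h1.trans_lt (degree_divByMonic_lt N (X - C c) hN ?_)
    rw [degree_X_sub_C]
    exact one_pos
  have hmod : T %ₘ (C N.leadingCoeff⁻¹ * N) = T₀ := by
    refine (div_modByMonic_unique (C N.leadingCoeff * Q) T₀ hmonic ⟨?_, ?_⟩).2
    · have h7 : C N.leadingCoeff⁻¹ * N * (C N.leadingCoeff * Q) = N * Q := by
        have h8 : C N.leadingCoeff⁻¹ * C N.leadingCoeff = (1 : K[X]) := by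
          rw [← C_mul, inv_mul_cancel₀ hlc, C_1]
        calc C N.leadingCoeff⁻¹ * N * (C N.leadingCoeff * Q)
            = (C N.leadingCoeff⁻¹ * C N.leadingCoeff) * (N * Q) := by ring
          _ = _ := by rw [h8, one_mul]
      rw [h7, ← hQ]; ring
    · rw [hdegN]; exact hdeg
  rw [hmod, hT₀, finsetSum_coeff, Finset.mul_sum]
  refine Finset.sum_congr rfl fun c hc => ?_
  rw [coeff_C_mul]
  have hcr : N.IsRoot c := (mem_roots hN).1 (Multiset.mem_toFinset.1 hc)
  have hd0 : N.degree ≠ 0 := by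
    intro h0
    rw [eq_C_of_degree_eq_zero h0] at hcr hN
    rw [IsRoot, eval_C] at hcr
    exact hN (by rw [hcr, C_0])
  have h9 : (N /ₘ (X - C c)).coeff (N.natDegree - 1) = N.leadingCoeff := by
    have h10 := leadingCoeff_divByMonic_X_sub_C N hd0 c
    rw [← h10, leadingCoeff, natDegree_divByMonic N (monic_X_sub_C c), natDegree_X_sub_C]
  rw [h9, mul_comm]

lemma natDegree_eq_sum [IsAlgClosed K] [DecidableEq K] (N : K[X]) :
    N.natDegree = ∑ c ∈ N.roots.toFinset, rootMultiplicity c N := by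
  rw [(IsAlgClosed.splits N).natDegree_eq_card_roots, ← Multiset.toFinset_sum_count_eq]
  exact Finset.sum_congr rfl fun c _ => count_roots N

end poly

end PowerSumAux

variable {K E : Type} [Field K] [IsAlgClosed K] [CharZero K] [Field E] [Algebra K E]

open PowerSumAux in
/-- (TRI) -/
theorem trace_integral (a : E) (ha : Transcendental K a) [FiniteDimensional K⟮a⟯ E]
    (del : Derivation K E E) (hdel : del a = 1) (x y : E)
    (hx : ∀ P : Place K E, P.Int a → P.Int x) (hy : ∀ P : Place K E, P.Int a → P.Int y) :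
    ∃ T : K[X], (Algebra.trace K⟮a⟯ E (x * del y) : E) = aeval a T := by
  apply poly_of_regular ha _ (Algebra.trace K⟮a⟯ E (x * del y)).2
  intro c
  have hg : ∀ P : Place K E, P.Sm (a - algebraMap K E c) →
      P.Sm ((a - algebraMap K E c) * (x * del y)) := by
    intro P hP
    have h1 := (log_der a ha del hdel c P hP).2 y (hy P (int_a_of_sm hP))
    have h2 : (a - algebraMap K E c) * (x * del y) = x * ((a - algebraMap K E c) * del y) := by
      ring
    rw [h2]
    exact (hx P (int_a_of_sm hP)).mul_sm h1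
  obtain ⟨S, hS, p, q, hq, hpq, hv⟩ := trace_val a ha (a - algebraMap K E c)
    (adjoin_sub_const a c) _ (fun P hP => (hg P hP).int)
  refine ⟨p, q, hq, ?_, ?_⟩
  · rw [← trace_mul_t]; exact hpq
  · have h3 := hv (fun _ => 0) (fun P hP => Place.isVal_zero_iff.2 (hg P ((hS P).1 hP)))
    simp only [mul_zero, Finset.sum_const_zero] at h3
    exact (div_eq_zero_iff.1 h3).resolve_right hq

namespace PowerSumAux

lemma residue_at (a : E) (ha : Transcendental K a) [FiniteDimensional K⟮a⟯ E]
    (del : Derivation K E E) (hdel : del a = 1) (x ψ : E) (hx0 : x ≠ 0)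
    (w : Place K E → K) (hw : ∀ P : Place K E, P.Int a → P.IsVal ψ (w P))
    (valA : Place K E → K) (hvalA : ∀ P : Place K E, P.Int a → P.IsVal a (valA P))
    [DecidableEq K] (S : Finset (Place K E)) (hS : ∀ P, P ∈ S ↔ P.Int a ∧ P.ord x ≠ 0)
    (N T : K[X]) (hN0 : N ≠ 0)
    (hN : (Algebra.norm K⟮a⟯ x : E) = aeval a N)
    (hT : (Algebra.norm K⟮a⟯ x : E) * (Algebra.trace K⟮a⟯ E (ψ * (del x / x)) : E) = aeval a T)
    (c : K) :
    ∃ p q : K[X], q.eval c ≠ 0 ∧ (X - C c) * T * q = p * N ∧
      p.eval c / q.eval c = ∑ P ∈ S.filter (fun P => valA P = c), (P.ord x : K) * w P := by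
  obtain ⟨t, ht⟩ : ∃ t, t = a - algebraMap K E c := ⟨_, rfl⟩
  have ht0 : t ≠ 0 := ht ▸ sub_const_ne_zero ha c
  have hordt : ∀ P : Place K E, P.Sm t → (P.ord t : K) ≠ 0 := by
    intro P hP
    have := (Place.sm_iff_ord ht0).1 hP
    exact_mod_cast this.ne'
  have hval : ∀ P : Place K E, P.Sm t →
      P.IsVal (t * (ψ * (del x / x))) (w P * ((P.ord x : K) / (P.ord t : K))) := by
    intro P hP
    have h1 := (log_der a ha del hdel c P (ht ▸ hP)).1 x hx0
    rw [← ht] at h1
    have h2 := (hw P (int_a_of_sm (ht ▸ hP))).mul h1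
    have h3 : t * (ψ * (del x / x)) = ψ * (t * del x / x) := by ring
    rw [h3]; exact h2
  obtain ⟨S', hS', p, q, hq, hpq, hv⟩ := trace_val a ha t (ht ▸ adjoin_sub_const a c)
    (t * (ψ * (del x / x))) (fun P hP => (hval P hP).int)
  have hv' := hv (fun P => w P * ((P.ord x : K) / (P.ord t : K)))
    (fun P hP => hval P ((hS' P).1 hP))
  refine ⟨p.comp (X - C c), q.comp (X - C c), ?_, ?_, ?_⟩
  · simpa [eval_comp] using hq
  · apply aeval_inj ha
    rw [map_mul, map_mul, map_mul, ← aeval_sub_const, ← aeval_sub_const, ← ht, ← hpq, ← hT, ← hN]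
    have h4 : aeval a (X - C c) = t := by rw [ht]; simp
    have h5 : (Algebra.trace K⟮a⟯ E (t * (ψ * (del x / x))) : E)
        = t * (Algebra.trace K⟮a⟯ E (ψ * (del x / x)) : E) := by
      rw [ht]; exact trace_mul_t a c _
    rw [h4, h5]
    ring
  · have h6 : ∑ P ∈ S', (P.ord t : K) * (w P * ((P.ord x : K) / (P.ord t : K)))
        = ∑ P ∈ S', (P.ord x : K) * w P := by
      refine Finset.sum_congr rfl fun P hP => ?_
      have := hordt P ((hS' P).1 hP)
      field_simp
    have h7 : ∑ P ∈ S.filter (fun P => valA P = c), (P.ord x : K) * w P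
        = ∑ P ∈ S', (P.ord x : K) * w P := by
      refine Finset.sum_subset ?_ ?_
      · intro P hP
        rw [Finset.mem_filter] at hP
        rw [hS', ht, ← hP.2]
        exact hvalA P ((hS P).1 hP.1).1
      · intro P hP hP'
        have hPt := (hS' P).1 hP
        have hInt : P.Int a := int_a_of_sm (ht ▸ hPt)
        have hvc : valA P = c := (hvalA P hInt).unique (show P.Sm (a - algebraMap K E c) from ht ▸ hPt)
        have hord : P.ord x = 0 := by
          by_contra h0
          exact hP' (Finset.mem_filter.2 ⟨(hS P).2 ⟨hInt, h0⟩, hvc⟩)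
        rw [hord]; simp
    rw [h7, ← h6, ← hv']
    simp [eval_comp]

end PowerSumAux

open PowerSumAux in
/-- (PS) -/
theorem power_sum (a : E) (ha : Transcendental K a) [FiniteDimensional K⟮a⟯ E]
    (del : Derivation K E E) (hdel : del a = 1) (x φ : E) (hx0 : x ≠ 0)
    (hx : ∀ P : Place K E, P.Int a → P.Int x) (hφ : ∀ P : Place K E, P.Int a → P.Int φ) :
    ∃ S : Finset (Place K E), (∀ P, P ∈ S ↔ P.Int a ∧ P.ord x ≠ 0) ∧ ∃ N T : K[X], N ≠ 0 ∧
      (Algebra.norm K⟮a⟯ x : E) = aeval a N ∧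
      (Algebra.norm K⟮a⟯ x : E) * (Algebra.trace K⟮a⟯ E (φ * (del x / x)) : E) = aeval a T ∧
      (N.natDegree : ℤ) = ∑ P ∈ S, P.ord x ∧
      ∀ v : Place K E → K, (∀ P ∈ S, P.IsVal φ (v P)) →
        (T %ₘ (C N.leadingCoeff⁻¹ * N)).coeff (N.natDegree - 1) =
          N.leadingCoeff * ∑ P ∈ S, (P.ord x : K) * v P := by
  classical
  -- the set S
  obtain ⟨S, hS⟩ : ∃ S : Finset (Place K E), ∀ P, P ∈ S ↔ P.Int a ∧ P.ord x ≠ 0 :=
    ⟨(finite_zeros a ha x hx0).toFinset.filter (fun P => P.Int a), fun P => by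
      rw [Finset.mem_filter, Set.Finite.mem_toFinset, Set.mem_ofPred_eq, and_comm]⟩
  -- the norm
  obtain ⟨⟨N, hN⟩, hNx⟩ := norm_poly a ha x hx0 (isIntegral_of_places a ha x hx)
  have hnorm0 : (Algebra.norm K⟮a⟯ x : E) ≠ 0 := by
    intro h0
    have h1 : Algebra.norm K⟮a⟯ x = 0 := Subtype.ext h0
    exact hx0 (Algebra.norm_eq_zero_iff.1 h1)
  have hN0 : N ≠ 0 := by
    rintro rfl
    exact hnorm0 (by rw [hN, map_zero])
  have hNtr : ∀ z : E, (Algebra.norm K⟮a⟯ x : E) * (Algebra.trace K⟮a⟯ E z : E)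
      = (Algebra.trace K⟮a⟯ E ((Algebra.norm K⟮a⟯ x : E) * z) : E) := by
    intro z
    have h : (Algebra.norm K⟮a⟯ x : E) * z = (Algebra.norm K⟮a⟯ x) • z := rfl
    rw [h, map_smul, smul_eq_mul]
    rfl
  have hTex : ∀ ψ : E, (∀ P : Place K E, P.Int a → P.Int ψ) → ∃ T : K[X],
      (Algebra.norm K⟮a⟯ x : E) * (Algebra.trace K⟮a⟯ E (ψ * (del x / x)) : E) = aeval a T := by
    intro ψ hψ
    obtain ⟨T, hT⟩ := trace_integral a ha del hdel ((Algebra.norm K⟮a⟯ x : E) / x * ψ) x
      (fun P hP => (hNx P hP (hx P hP)).mul (hψ P hP)) hx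
    refine ⟨T, ?_⟩
    rw [← hT, hNtr]
    have h : (Algebra.norm K⟮a⟯ x : E) * (ψ * (del x / x))
        = (Algebra.norm K⟮a⟯ x : E) / x * ψ * del x := by
      field_simp
    rw [h]
  obtain ⟨T, hT⟩ := hTex φ hφ
  -- values
  have hvA : ∃ valA : Place K E → K, ∀ P : Place K E, P.Int a → P.IsVal a (valA P) := by
    have h : ∀ P : Place K E, ∃ c : K, P.Int a → P.IsVal a c := fun P => by
      by_cases hP : P.Int a
      · obtain ⟨c, hc⟩ := hP.exists_isVal
        exact ⟨c, fun _ => hc⟩
      · exact ⟨0, fun h => absurd h hP⟩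
    exact ⟨fun P => (h P).choose, fun P => (h P).choose_spec⟩
  obtain ⟨valA, hvalA⟩ := hvA
  have hwex : ∃ w : Place K E → K, ∀ P : Place K E, P.Int a → P.IsVal φ (w P) := by
    have h : ∀ P : Place K E, ∃ c : K, P.Int a → P.IsVal φ c := fun P => by
      by_cases hP : P.Int a
      · obtain ⟨c, hc⟩ := (hφ P hP).exists_isVal
        exact ⟨c, fun _ => hc⟩
      · exact ⟨0, fun h => absurd h hP⟩
    exact ⟨fun P => (h P).choose, fun P => (h P).choose_spec⟩
  obtain ⟨w, hw⟩ := hwex
  -- the derivative of the norm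
  have hpres : ∀ r : K⟮a⟯, del (r : E) ∈ K⟮a⟯ := by
    intro r
    obtain ⟨u, v, huv⟩ := (mem_adjoin_simple_iff K (r : E)).1 r.2
    have hpoly : ∀ u : K[X], del (aeval a u) = aeval a (derivative u) := by
      intro u
      rw [Derivation.map_aeval, hdel, smul_eq_mul, mul_one]
    have hmem : ∀ u : K[X], aeval a u ∈ K⟮a⟯ := by
      intro u
      have h := aeval_mem_adjoin_singleton K a (p := u)
      exact algebra_adjoin_le_adjoin K {a} h
    rw [huv, div_eq_mul_inv, del.leibniz, Derivation.leibniz_inv, hpoly, hpoly, smul_eq_mul,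
      smul_eq_mul, smul_eq_mul]
    exact add_mem (mul_mem (hmem _) (mul_mem (neg_mem (pow_mem (inv_mem (hmem _)) 2)) (hmem _)))
      (mul_mem (inv_mem (hmem _)) (hmem _))
  obtain ⟨DF, hDF⟩ : ∃ DF : Derivation K K⟮a⟯ K⟮a⟯, ∀ r : K⟮a⟯, ((DF r : K⟮a⟯) : E) = del (r : E) := by
    refine ⟨Derivation.mk' { toFun := fun r => ⟨del (r : E), hpres r⟩
                             map_add' := fun r s => Subtype.ext (by simp)
                             map_smul' := fun k r => Subtype.ext (by simp) } ?_, fun r => rfl⟩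
    intro r s
    apply Subtype.ext
    simp [smul_eq_mul]
  have hlog := norm_log_der DF del (fun r => (hDF r).symm) x hx0
  have hT1 : (Algebra.norm K⟮a⟯ x : E) * (Algebra.trace K⟮a⟯ E (1 * (del x / x)) : E)
      = aeval a (derivative N) := by
    have h1 := congrArg (fun r : K⟮a⟯ => (r : E)) hlog
    simp only [hDF] at h1
    rw [hN, Derivation.map_aeval, hdel, smul_eq_mul, mul_one] at h1
    rw [one_mul, h1]
    rfl
  have hmult : ∀ c, (rootMultiplicity c N : ℤ) = ∑ P ∈ S.filter (fun P => valA P = c), P.ord x := by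
    intro c
    obtain ⟨p, q, hq, hpq, hσ⟩ := residue_at a ha del hdel x 1 hx0 (fun _ => 1)
      (fun P _ => P.isVal_one) valA hvalA S hS N _ hN0 hN hT1 c
    have h2 := poly_mult hN0 c p q hq hpq
    rw [hσ] at h2
    simp only [mul_one] at h2
    have h3 : (((rootMultiplicity c N : ℕ) : ℤ) : K)
        = ((∑ P ∈ S.filter (fun P => valA P = c), P.ord x : ℤ) : K) := by
      push_cast
      exact h2
    exact_mod_cast h3
  have hposS : ∀ P ∈ S, 0 < P.ord x := by
    intro P hP
    have h1 := (hS P).1 hP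
    have h2 := (Place.int_iff_ord hx0).1 (hx P h1.1)
    omega
  have hmaps : ∀ P ∈ S, valA P ∈ N.roots.toFinset := by
    intro P hP
    rw [Multiset.mem_toFinset, mem_roots hN0, ← rootMultiplicity_pos hN0]
    have h1 := hmult (valA P)
    have h2 : P.ord x ≤ ∑ Q ∈ S.filter (fun Q => valA Q = valA P), Q.ord x :=
      Finset.single_le_sum (f := fun Q : Place K E => Q.ord x)
        (fun Q hQ => (hposS Q (Finset.mem_filter.1 hQ).1).le)
        (Finset.mem_filter.2 ⟨hP, rfl⟩)
    have h3 := hposS P hP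
    omega
  refine ⟨S, hS, N, T, hN0, hN, hT, ?_, ?_⟩
  · rw [natDegree_eq_sum N]
    push_cast
    rw [Finset.sum_congr rfl fun c _ => hmult c]
    exact Finset.sum_fiberwise_of_maps_to hmaps _
  · intro v hv
    rw [poly_rem hN0 (fun c => ∑ P ∈ S.filter (fun P => valA P = c), (P.ord x : K) * w P)
      (fun c => residue_at a ha del hdel x φ hx0 w hw valA hvalA S hS N T hN0 hN hT c)]
    congr 1
    rw [Finset.sum_fiberwise_of_maps_to hmaps]
    refine Finset.sum_congr rfl fun P hP => ?_
    rw [(hw P ((hS P).1 hP).1).unique (hv P hP)]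

end Pool.Agent.LowDeg
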