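import Pool.Agent.LowDeg.ModelPoint
import Pool.Agent.LowDeg.PowerSum
import Pool.Agent.LowDeg.DerExt

/-! Module C4 (doc sections 3.4, 3.5): the intersection cycle. -/

set_option autoImplicit false

open Polynomial IntermediateField

namespace Pool.Agent.LowDeg.ModelCycleAux

open Pool.Agent.LowDeg

variable {K E : Type} [Field K] [Field E] [Algebra K E]

lemma aeval_mul_left {σ : Type} [Fintype σ] (F : MvPolynomial σ K) {d : ℕ}
    (hF : F.IsHomogeneous d) (c : E) (g : σ → E) :
    MvPolynomial.aeval (fun i => c * g i) F = c ^ d * MvPolynomial.aeval g F := by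
  rw [MvPolynomial.aeval_def, MvPolynomial.aeval_def, MvPolynomial.eval₂_eq',
    MvPolynomial.eval₂_eq', Finset.mul_sum]
  refine Finset.sum_congr rfl fun e he => ?_
  have h1 : ∑ i, e i = d := by
    have h2 := hF (MvPolynomial.mem_support_iff.1 he)
    rw [← h2, Finsupp.weight_apply, Finsupp.sum_fintype]
    · simp
    · simp
  simp only [mul_pow, Finset.prod_mul_distrib]
  rw [Finset.prod_pow_eq_pow_sum, h1]
  ring

lemma aeval_eq_eval' {σ : Type} (F : MvPolynomial σ K) (z : σ → K) :
    MvPolynomial.aeval z F = MvPolynomial.eval z F := by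
  rw [MvPolynomial.aeval_def]; rfl

lemma adjoin_inv_sub_eq (a : E) (c : K) :
    K⟮(a - algebraMap K E c)⁻¹⟯ = K⟮a⟯ := by
  apply le_antisymm
  · rw [adjoin_simple_le_iff]
    exact inv_mem (sub_mem (mem_adjoin_simple_self K a) (IntermediateField.algebraMap_mem _ c))
  · rw [adjoin_simple_le_iff]
    have h1 : (a - algebraMap K E c)⁻¹ ∈ K⟮(a - algebraMap K E c)⁻¹⟯ := mem_adjoin_simple_self K _
    have h2 := inv_mem h1
    rw [inv_inv] at h2
    have h3 := add_mem h2 (IntermediateField.algebraMap_mem K⟮(a - algebraMap K E c)⁻¹⟯ c)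
    rwa [sub_add_cancel] at h3

lemma norm_congr (L L' : IntermediateField K E) (h : L = L') (y : E) :
    (Algebra.norm L y : E) = (Algebra.norm L' y : E) := by
  subst h; rfl

lemma transcendental_inv_sub (a : E) (ha : Transcendental K a) (c : K) :
    Transcendental K (a - algebraMap K E c)⁻¹ := by
  intro h
  apply ha
  have h2 := h.inv
  rw [inv_inv] at h2
  have h3 := h2.add (isAlgebraic_algebraMap c)
  rwa [sub_add_cancel] at h3

/-- degree of the polynomial in `1/(a-c)` -/
lemma natDegree_of_inv (a : E) (ha : Transcendental K a) (c : K) (N N' : K[X]) (m : ℕ)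
    (hN : N.eval c ≠ 0)
    (h : aeval (a - algebraMap K E c)⁻¹ N' = aeval a N * ((a - algebraMap K E c)⁻¹) ^ m) :
    N'.natDegree = m := by
  set t : E := (a - algebraMap K E c)⁻¹ with ht
  have htr := transcendental_inv_sub a ha c
  rw [← ht] at htr
  have ht0 : t ≠ 0 := by
    intro h0
    rw [h0] at htr
    exact htr isAlgebraic_zero
  have hat : a = t⁻¹ + algebraMap K E c := by rw [ht, inv_inv, sub_add_cancel]
  set Nc : K[X] := N.comp (X + C c) with hNc
  have h1 : aeval a N = aeval t⁻¹ Nc := by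
    rw [hNc, aeval_comp]
    congr 1
    simp [hat]
  have hNc0 : Nc.coeff 0 ≠ 0 := by
    rw [hNc, coeff_zero_eq_eval_zero, eval_comp]
    simpa using hN
  let _ : Invertible t⁻¹ := invertibleOfNonzero (inv_ne_zero ht0)
  have h2 := eval₂_reverse_mul_pow (algebraMap K E) t⁻¹ Nc
  have h3 : ⅟(t⁻¹) = t := by
    rw [invOf_eq_inv, inv_inv]
  rw [h3] at h2
  have h4 : aeval t (X ^ Nc.natDegree * N') = aeval t (X ^ m * Nc.reverse) := by
    rw [map_mul, map_mul, map_pow, map_pow, aeval_X, h, h1]
    have h5 : aeval t⁻¹ Nc = aeval t Nc.reverse * (t⁻¹) ^ Nc.natDegree := by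
      rw [aeval_def, aeval_def, h2]
    have h8 : t ^ Nc.natDegree * (t⁻¹) ^ Nc.natDegree = 1 := by
      rw [← mul_pow, mul_inv_cancel₀ ht0, one_pow]
    rw [h5]
    linear_combination (aeval t Nc.reverse * t ^ m) * h8
  have h6 : X ^ Nc.natDegree * N' = X ^ m * Nc.reverse := by
    have hinj := transcendental_iff_injective.1 htr
    exact hinj h4
  have hNcne : Nc ≠ 0 := by
    rintro h0
    rw [h0] at hNc0
    simp at hNc0
  have hrev : Nc.reverse ≠ 0 := by
    rw [Ne, reverse_eq_zero]; exact hNcne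
  have hN'0 : N' ≠ 0 := by
    rintro rfl
    rw [mul_zero] at h6
    exact mul_ne_zero (pow_ne_zero _ X_ne_zero) hrev h6.symm
  have h7 := congrArg natDegree h6
  rw [natDegree_mul (pow_ne_zero _ X_ne_zero) hN'0, natDegree_mul (pow_ne_zero _ X_ne_zero) hrev,
    natDegree_X_pow, natDegree_X_pow, reverse_natDegree] at h7
  have h8 : Nc.natTrailingDegree = 0 := by
    apply natTrailingDegree_eq_zero.2
    exact Or.inr hNc0
  omega

end Pool.Agent.LowDeg.ModelCycleAux

namespace Pool.Agent.LowDeg.ModelCycleAux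

variable {K : Type} [Field K] {h : ℕ} (M : CurveModel K h)

lemma xint [IsAlgClosed K] [CharZero K] (F : MvPolynomial (Fin 4) K) (P : Place K M.E) (hP : P.Int M.a) :
    P.Int (MvPolynomial.aeval M.pt F) := by
  obtain ⟨z, hz⟩ := M.exists_centre P hP
  have h1 : P.IsVal (MvPolynomial.aeval M.pt F) (MvPolynomial.aeval z F) := Place.IsVal.aeval hz F
  exact h1.int

/-- the value of `x / a ^ d` at infinity -/
lemma xval_inf (F : MvPolynomial (Fin 4) K) {d : ℕ} (hF : F.IsHomogeneous d)
    (P : Place K M.E) (z : Fin 4 → K) (hz : M.IsCentreInf P z) :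
    P.IsVal (MvPolynomial.aeval M.pt F / M.a ^ d) (MvPolynomial.eval z F) := by
  have h1 : P.IsVal (MvPolynomial.aeval (fun i => M.pt i / M.a) F) (MvPolynomial.aeval z F) :=
    Place.IsVal.aeval hz F
  have h2 : (fun i => M.pt i / M.a) = fun i => M.a⁻¹ * M.pt i := by
    funext i
    rw [div_eq_mul_inv, mul_comm]
  rw [h2, aeval_mul_left F hF, inv_pow, mul_comm, ← div_eq_mul_inv, aeval_eq_eval'] at h1
  exact h1

end Pool.Agent.LowDeg.ModelCycleAux

namespace Pool.Agent.LowDeg.CurveModel

open Pool.Agent.LowDeg.ModelCycleAux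

variable {K : Type} [Field K] [IsAlgClosed K] [CharZero K] {h : ℕ} (M : CurveModel K h)

/-- a form of degree `d` has at most `d h` zeros on a curve of degree `h`, and exactly `d h` if it
has no zero at infinity -/
theorem degree_le (F : MvPolynomial (Fin 4) K) {d : ℕ} (hF : F.IsHomogeneous d)
    (hx : MvPolynomial.aeval M.pt F ≠ 0) (S : Finset (Place K M.E))
    (hS : ∀ P, P ∈ S ↔ P.Int M.a ∧ P.ord (MvPolynomial.aeval M.pt F) ≠ 0) :
    ∑ P ∈ S, P.ord (MvPolynomial.aeval M.pt F) ≤ d * h ∧
    ((∀ z : Fin 4 → K, z 0 = 0 → z 1 = 1 → M.On z → MvPolynomial.eval z F ≠ 0) →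
      ∑ P ∈ S, P.ord (MvPolynomial.aeval M.pt F) = d * h) := by
  classical
  set x : M.E := MvPolynomial.aeval M.pt F with hxdef
  have hxi : ∀ P : Place K M.E, P.Int M.a → P.Int x := fun P hP => xint M F P hP
  -- the norm of x
  obtain ⟨del, -, hdel⟩ := exists_derivation (k := K) M.a M.trans 0 (1 : M.E)
  obtain ⟨S0, hS0, N, T, hN0, hN, -, -, -⟩ := power_sum M.a M.trans del hdel x 1 hx hxi
    (fun P _ => P.int_one)
  -- choice of c
  have hv : ∀ P ∈ S, ∃ v : K, P.IsVal M.a v := fun P hP => ((hS P).1 hP).1.exists_isVal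
  choose! v hv using hv
  obtain ⟨c, hc⟩ := Infinite.exists_notMem_finset (N.roots.toFinset ∪ S.image v)
  have hcN : N.eval c ≠ 0 := by
    intro h0
    apply hc
    rw [Finset.mem_union]
    left
    rw [Multiset.mem_toFinset, mem_roots hN0]
    exact h0
  have hcv : ∀ P ∈ S, v P ≠ c := by
    intro P hP h0
    apply hc
    rw [Finset.mem_union]
    right
    rw [← h0]
    exact Finset.mem_image_of_mem v hP
  set t : M.E := (M.a - algebraMap K M.E c)⁻¹ with ht
  have hac : M.a ≠ algebraMap K M.E c := by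
    intro h0
    have h1 := M.trans
    rw [h0] at h1
    exact h1 (isAlgebraic_algebraMap c)
  have hac0 : M.a - algebraMap K M.E c ≠ 0 := sub_ne_zero.2 hac
  have ht0 : t ≠ 0 := inv_ne_zero hac0
  have hKt : K⟮t⟯ = K⟮M.a⟯ := adjoin_inv_sub_eq M.a c
  have httr : Transcendental K t := transcendental_inv_sub M.a M.trans c
  have htfin : FiniteDimensional K⟮t⟯ M.E := by rw [hKt]; infer_instance
  have ha0 : M.a ≠ 0 := by
    intro h0
    have h1 := M.trans
    rw [h0] at h1
    exact h1 isAlgebraic_zero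
  -- the function y
  set y : M.E := x * t ^ d with hy
  have hy0 : y ≠ 0 := mul_ne_zero hx (pow_ne_zero _ ht0)
  have hat : M.a * t = 1 + algebraMap K M.E c * t := by
    rw [ht]; field_simp; ring
  have hyinf : y = x / M.a ^ d * (M.a * t) ^ d := by
    rw [hy, mul_pow]; field_simp
  have hyi : ∀ P : Place K M.E, P.Int t → P.Int y := by
    intro P hPt
    by_cases hPa : P.Int M.a
    · exact (hxi P hPa).mul (hPt.pow d)
    · obtain ⟨z, hz⟩ := M.exists_centreInf P hPa
      rw [hyinf]
      refine (xval_inf M F hF P z hz).int.mul (Place.Int.pow ?_ d)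
      rw [hat]
      exact P.int_one.add ((P.int_const c).mul hPt)
  obtain ⟨del', -, hdel'⟩ := exists_derivation (k := K) t httr 0 (1 : M.E)
  obtain ⟨S', hS', N', T', hN'0, hN', -, hdeg, -⟩ := power_sum t httr del' hdel' y 1 hy0 hyi
    (fun P _ => P.int_one)
  -- comparison of norms
  have hnorm : (Algebra.norm K⟮t⟯ y : M.E) = aeval M.a N * t ^ (d * h) := by
    rw [norm_congr _ _ hKt, hy, map_mul, map_pow]
    have h1 : t = algebraMap K⟮M.a⟯ M.E ⟨t, by rw [← hKt]; exact mem_adjoin_simple_self K t⟩ := rfl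
    have h2 : (Algebra.norm K⟮M.a⟯ t : M.E) = t ^ h := by
      rw [h1, Algebra.norm_algebraMap, M.rank]
      rfl
    push_cast
    rw [hN, h2]
    ring
  have hdegN' : N'.natDegree = d * h := by
    refine natDegree_of_inv M.a M.trans c N N' (d * h) hcN ?_
    rw [← hnorm, hN']
  rw [hdegN'] at hdeg
  push_cast at hdeg
  rw [hdeg]
  -- comparison of orders
  have hord : ∀ P ∈ S, P.ord x = P.ord y ∧ P ∈ S' := by
    intro P hP
    have h1 : P.IsVal (M.a - algebraMap K M.E c) (v P - c) := (hv P hP).sub (P.isVal_const c)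
    have h2 : P.ord t = 0 := by
      rw [ht, P.ord_inv, h1.ord_eq_zero (sub_ne_zero.2 (hcv P hP)), neg_zero]
    have h3 : P.ord y = P.ord x := by
      rw [hy, P.ord_mul _ _ hx (pow_ne_zero _ ht0), P.ord_pow ht0, h2]
      ring
    refine ⟨h3.symm, (hS' P).2 ⟨Or.inr (by rw [h2]), ?_⟩⟩
    rw [h3]
    exact ((hS P).1 hP).2
  have hpos : ∀ P ∈ S', 0 ≤ P.ord y := by
    intro P hP
    exact (hyi P ((hS' P).1 hP).1).resolve_left hy0
  have hsub : S ⊆ S' := fun P hP => (hord P hP).2
  rw [Finset.sum_congr rfl fun P hP => (hord P hP).1]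
  refine ⟨Finset.sum_le_sum_of_subset_of_nonneg hsub fun P hP _ => hpos P hP, ?_⟩
  intro hinf
  have hSS : S = S' := by
    refine Finset.Subset.antisymm hsub fun P hP => ?_
    obtain ⟨h1, h2⟩ := (hS' P).1 hP
    by_cases hPa : P.Int M.a
    · rw [hS]
      refine ⟨hPa, ?_⟩
      have h3 : 0 ≤ P.ord t := h1.resolve_left ht0
      have h4 : 0 ≤ P.ord (M.a - algebraMap K M.E c) :=
        (hPa.sub (P.int_const c)).resolve_left hac0
      rw [ht, P.ord_inv] at h3
      have h5 : P.ord t = 0 := by rw [ht, P.ord_inv]; omega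
      rw [hy, P.ord_mul _ _ hx (pow_ne_zero _ ht0), P.ord_pow ht0, h5] at h2
      simpa using h2
    · exfalso
      obtain ⟨z, hz⟩ := M.exists_centreInf P hPa
      obtain ⟨h3, h4, h5⟩ := hz.on hPa
      have h6 := hinf z h3 h4 h5
      have h7 := xval_inf M F hF P z hz
      have h8 : P.Sm t := by
        have h9 : ¬ P.Int (M.a - algebraMap K M.E c) := by
          intro h10
          apply hPa
          have h11 := h10.add (P.int_const c)
          rwa [sub_add_cancel] at h11
        exact Place.sm_inv_of_not_int h9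
      have h12 : P.IsVal (M.a * t) 1 := by
        rw [hat]
        have h13 : P.IsVal (algebraMap K M.E c * t) 0 :=
          Place.isVal_zero_iff.2 ((P.int_const c).mul_sm h8)
        simpa using P.isVal_one.add h13
      have h14 : P.IsVal y (MvPolynomial.eval z F * 1 ^ d) := by
        rw [hyinf]
        exact h7.mul (h12.pow d)
      rw [one_pow, mul_one] at h14
      exact h2 (h14.ord_eq_zero h6)
  rw [← hSS]

theorem exists_cycle (F : MvPolynomial (Fin 4) K) {d : ℕ} (hF : F.IsHomogeneous d)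
    (hx : MvPolynomial.aeval M.pt F ≠ 0) :
    ∃ μ : (Fin 4 → K) →₀ ℕ, M.IsCycle (MvPolynomial.aeval M.pt F) μ ∧
      (∀ z, μ z ≠ 0 ↔ z 0 = 1 ∧ MvPolynomial.eval z F = 0 ∧ M.On z) ∧
      (μ.sum fun _ k => k) ≤ d * h := by
  classical
  have hfin := finite_zeros M.a M.trans _ hx
  have hfin2 : {P : Place K M.E | P.Int M.a ∧ P.ord (MvPolynomial.aeval M.pt F) ≠ 0}.Finite :=
    hfin.subset fun P hP => hP.2
  set S : Finset (Place K M.E) := hfin2.toFinset with hSdef
  have hS : ∀ P, P ∈ S ↔ P.Int M.a ∧ P.ord (MvPolynomial.aeval M.pt F) ≠ 0 := by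
    intro P
    rw [hSdef, Set.Finite.mem_toFinset]
    rfl
  have hctr : ∀ P ∈ S, ∃ z, M.IsCentre P z := fun P hP => M.exists_centre P ((hS P).1 hP).1
  choose! ctr hctr using hctr
  have hpos : ∀ P ∈ S, 0 < P.ord (MvPolynomial.aeval M.pt F) := by
    intro P hP
    obtain ⟨h1, h2⟩ := (hS P).1 hP
    have h3 := (xint M F P h1).resolve_left hx
    omega
  set μ : (Fin 4 → K) →₀ ℕ :=
    ∑ P ∈ S, Finsupp.single (ctr P) (P.ord (MvPolynomial.aeval M.pt F)).toNat with hμ
  have hμz : ∀ z, (μ z : ℤ) = ∑ P ∈ S, if ctr P = z then P.ord (MvPolynomial.aeval M.pt F) else 0 := by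
    intro z
    rw [hμ, Finsupp.finsetSum_apply]
    push_cast
    refine Finset.sum_congr rfl fun P hP => ?_
    rw [Finsupp.single_apply]
    split_ifs
    · exact Int.toNat_of_nonneg (hpos P hP).le
    · rfl
  refine ⟨μ, ⟨S, ctr, hS, hctr, fun z => ?_⟩, ?_, ?_⟩
  · rw [hμz z]
  · intro z
    have h1 : μ z ≠ 0 ↔ ∃ P ∈ S, ctr P = z := by
      constructor
      · intro h0
        by_contra hcon
        push Not at hcon
        apply h0
        have h2 := hμz z
        rw [Finset.sum_eq_zero fun P hP => if_neg (hcon P hP)] at h2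
        exact_mod_cast h2
      · rintro ⟨P, hP, hPz⟩ h0
        have h2 := hμz z
        rw [h0] at h2
        have h3 : 0 < ∑ P ∈ S, if ctr P = z then P.ord (MvPolynomial.aeval M.pt F) else 0 := by
          refine Finset.sum_pos' (fun Q hQ => ?_) ⟨P, hP, ?_⟩
          · split_ifs
            · exact (hpos Q hQ).le
            · exact le_rfl
          · rw [if_pos hPz]; exact hpos P hP
        rw [← h2] at h3
        simp at h3
    rw [h1]
    constructor
    · rintro ⟨P, hP, rfl⟩
      obtain ⟨h2, h3⟩ := (hctr P hP).on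
      refine ⟨h2, ?_, h3⟩
      have h4 : P.IsVal (MvPolynomial.aeval M.pt F) (MvPolynomial.aeval (ctr P) F) :=
        Place.IsVal.aeval (hctr P hP) F
      have h5 : P.IsVal (MvPolynomial.aeval M.pt F) 0 :=
        Place.isVal_zero_iff.2 (Or.inr (hpos P hP))
      have h6 := h4.unique h5
      rwa [aeval_eq_eval'] at h6
    · rintro ⟨h2, h3, h4⟩
      obtain ⟨P, hP⟩ := M.exists_place z h2 h4
      have h5 : P.IsVal (MvPolynomial.aeval M.pt F) (MvPolynomial.aeval z F) :=
        Place.IsVal.aeval hP F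
      rw [aeval_eq_eval'] at h5
      have h6 : P.Int M.a := (hP 1).int
      have h7 : P ∈ S := by
        rw [hS]
        refine ⟨h6, ?_⟩
        have h8 : P.Sm (MvPolynomial.aeval M.pt F) := by
          rw [← Place.isVal_zero_iff, ← h3]
          exact h5
        have h9 := h8.resolve_left hx
        omega
      refine ⟨P, h7, ?_⟩
      funext i
      exact (hctr P h7 i).unique (hP i)
  · have h1 : ((μ.sum fun _ k => k : ℕ) : ℤ) = ∑ P ∈ S, P.ord (MvPolynomial.aeval M.pt F) := by
      have h2 : (μ.sum fun _ k => k) =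
          ∑ P ∈ S, (P.ord (MvPolynomial.aeval M.pt F)).toNat := by
        rw [hμ, ← Finsupp.sum_finsetSum_index]
        · refine Finset.sum_congr rfl fun P _ => ?_
          rw [Finsupp.sum_single_index rfl]
        · intro _; rfl
        · intro _ _ _; rfl
      rw [h2]
      push_cast
      refine Finset.sum_congr rfl fun P hP => ?_
      exact Int.toNat_of_nonneg (hpos P hP).le
    have h3 := (M.degree_le F hF hx S hS).1
    rw [← h1] at h3
    exact_mod_cast h3

end Pool.Agent.LowDeg.CurveModel
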