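import Pool.Agent.LowDeg.Defs

/-! Module F3 (doc section 8): from power sums to Chow forms (Newton identities). -/

set_option autoImplicit false

open Polynomial

namespace Pool.Agent.LowDeg

namespace NewtonChowAux

variable {K : Type} [Field K]

/-- families of polynomials which are rational in the parameter with denominator a power of `c` -/
def Good (c : K[X]) (g : K → MvPolynomial (Fin 4) K) : Prop :=
  ∃ (N : ℕ) (FF : MvPolynomial (Fin 4) K[X]), ∀ s, c.eval s ≠ 0 →
    MvPolynomial.map (evalRingHom s) FF = MvPolynomial.C ((c.eval s) ^ N) * g s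

variable {c : K[X]}

theorem map_C_pow (s : K) (n : ℕ) :
    MvPolynomial.map (evalRingHom s) (MvPolynomial.C (c ^ n) : MvPolynomial (Fin 4) K[X]) =
      MvPolynomial.C ((c.eval s) ^ n) := by
  rw [MvPolynomial.map_C]
  simp

theorem Good.congr {g g' : K → MvPolynomial (Fin 4) K} (h : Good c g)
    (e : ∀ s, c.eval s ≠ 0 → g s = g' s) : Good c g' := by
  obtain ⟨N, FF, hF⟩ := h
  exact ⟨N, FF, fun s hs => by rw [hF s hs, e s hs]⟩

theorem Good.const (r : MvPolynomial (Fin 4) K) : Good c fun _ => r := by
  refine ⟨0, MvPolynomial.map Polynomial.C r, fun s _ => ?_⟩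
  rw [MvPolynomial.map_map, pow_zero, map_one, one_mul]
  have : (evalRingHom s).comp Polynomial.C = RingHom.id K := by
    ext x
    simp
  rw [this, MvPolynomial.map_id]

theorem Good.mul {g g' : K → MvPolynomial (Fin 4) K} (h : Good c g) (h' : Good c g') :
    Good c fun s => g s * g' s := by
  obtain ⟨N, FF, hF⟩ := h
  obtain ⟨N', FF', hF'⟩ := h'
  refine ⟨N + N', FF * FF', fun s hs => ?_⟩
  rw [map_mul, hF s hs, hF' s hs, pow_add, map_mul]
  ring

theorem Good.add {g g' : K → MvPolynomial (Fin 4) K} (h : Good c g) (h' : Good c g') :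
    Good c fun s => g s + g' s := by
  obtain ⟨N, FF, hF⟩ := h
  obtain ⟨N', FF', hF'⟩ := h'
  refine ⟨N + N', MvPolynomial.C (c ^ N') * FF + MvPolynomial.C (c ^ N) * FF', fun s hs => ?_⟩
  rw [map_add, map_mul, map_mul, map_C_pow, map_C_pow, hF s hs, hF' s hs, pow_add, map_mul]
  ring

theorem Good.sum {ι : Type*} (S : Finset ι) {g : ι → K → MvPolynomial (Fin 4) K}
    (h : ∀ i ∈ S, Good c (g i)) : Good c fun s => ∑ i ∈ S, g i s := by
  classical
  induction S using Finset.induction_on with
  | empty => simpa using Good.const (c := c) 0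
  | insert a S ha ih =>
    refine Good.congr (Good.add (h a (Finset.mem_insert_self _ _))
      (ih fun i hi => h i (Finset.mem_insert_of_mem hi))) fun s _ => ?_
    rw [Finset.sum_insert ha]

theorem sum_map_sum' {ι β M : Type*} [AddCommMonoid M] (S : Finset ι) (f : ι → β → M)
    (t : Multiset β) : (t.map fun z => ∑ i ∈ S, f i z).sum = ∑ i ∈ S, (t.map (f i)).sum := by
  induction t using Multiset.induction_on with
  | empty => simp
  | cons a t ih =>
    simp only [Multiset.map_cons, Multiset.sum_cons, ih, Finset.sum_add_distrib]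

/-- the power sums of the linear forms -/
theorem good_psum (T : K → Multiset (Fin 4 → K))
    (hp : ∀ α : Fin 4 → ℕ, ∃ (m : ℕ) (q : K[X]), ∀ s, c.eval s ≠ 0 →
      (c.eval s) ^ m * ((T s).map fun z => ∏ i, z i ^ α i).sum = q.eval s) (k : ℕ) :
    Good c fun s => ((T s).map fun z => linF z ^ k).sum := by
  classical
  have h1 : ∀ s, ((T s).map fun z => linF z ^ k).sum
      = ∑ α ∈ Finset.piAntidiag (Finset.univ : Finset (Fin 4)) k,
        ((Nat.multinomial Finset.univ α : MvPolynomial (Fin 4) K) *
          ∏ i, MvPolynomial.X i ^ α i) *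
          MvPolynomial.C ((T s).map fun z => ∏ i, z i ^ α i).sum := by
    intro s
    have h2 : ∀ z : Fin 4 → K, linF z ^ k
        = ∑ α ∈ Finset.piAntidiag (Finset.univ : Finset (Fin 4)) k,
          ((Nat.multinomial Finset.univ α : MvPolynomial (Fin 4) K) *
            ∏ i, MvPolynomial.X i ^ α i) * MvPolynomial.C (∏ i, z i ^ α i) := by
      intro z
      rw [linF, Finset.sum_pow_eq_sum_piAntidiag]
      refine Finset.sum_congr rfl fun α _ => ?_
      simp only [mul_pow, Finset.prod_mul_distrib, map_prod, map_pow]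
      ring
    have h3 : ((T s).map fun z => linF z ^ k) = (T s).map fun z =>
        ∑ α ∈ Finset.piAntidiag (Finset.univ : Finset (Fin 4)) k,
          ((Nat.multinomial Finset.univ α : MvPolynomial (Fin 4) K) *
            ∏ i, MvPolynomial.X i ^ α i) * MvPolynomial.C (∏ i, z i ^ α i) :=
      Multiset.map_congr rfl fun z _ => h2 z
    rw [h3, sum_map_sum']
    refine Finset.sum_congr rfl fun α _ => ?_
    rw [Multiset.sum_map_mul_left]
    congr 1
    rw [map_multiset_sum, Multiset.map_map]
    rfl
  refine Good.congr (Good.sum (Finset.piAntidiag (Finset.univ : Finset (Fin 4)) k)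
    (g := fun α s => ((Nat.multinomial Finset.univ α : MvPolynomial (Fin 4) K) *
          ∏ i, MvPolynomial.X i ^ α i) *
          MvPolynomial.C ((T s).map fun z => ∏ i, z i ^ α i).sum) ?_) fun s _ => (h1 s).symm
  intro α _
  refine Good.mul (Good.const _) ?_
  obtain ⟨m, q, hq⟩ := hp α
  refine ⟨m, MvPolynomial.C q, fun s hs => ?_⟩
  rw [MvPolynomial.map_C, coe_evalRingHom, ← hq s hs, map_mul]

end NewtonChowAux

open NewtonChowAux

theorem chow_of_power_sums {K : Type} [Field K] [CharZero K] (c : K[X]) (D : ℕ)
    (T : K → Multiset (Fin 4 → K)) (hT : ∀ s, c.eval s ≠ 0 → Multiset.card (T s) = D)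
    (hp : ∀ α : Fin 4 → ℕ, ∃ (m : ℕ) (q : K[X]), ∀ s, c.eval s ≠ 0 →
      (c.eval s) ^ m * ((T s).map fun z => ∏ i, z i ^ α i).sum = q.eval s) :
    ∃ (N : ℕ) (FF : MvPolynomial (Fin 4) K[X]), ∀ s, c.eval s ≠ 0 →
      MvPolynomial.map (evalRingHom s) FF =
        MvPolynomial.C ((c.eval s) ^ N) * ((T s).map linF).prod := by
  classical
  -- enumerate the points
  have hz : ∀ s, ∃ z : Fin D → Fin 4 → K, c.eval s ≠ 0 → T s = Finset.univ.val.map z := by
    intro s
    by_cases hs : c.eval s ≠ 0
    · obtain ⟨l, hl⟩ := Quot.exists_rep (T s)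
      have hlen : l.length = D := by
        have := hT s hs
        rw [← hl] at this
        simpa using this
      subst hlen
      refine ⟨fun i => l.get i, fun _ => ?_⟩
      rw [← hl]
      have : (Finset.univ.val : Multiset (Fin l.length)) = (List.finRange l.length : Multiset _) :=
        rfl
      rw [this, Multiset.map_coe, List.map_get_finRange]
      rfl
    · exact ⟨fun _ _ => 0, fun h => absurd h hs⟩
  choose z hz using hz
  set E : ℕ → K → MvPolynomial (Fin 4) K := fun k s =>
    MvPolynomial.aeval (fun i => linF (z s i)) (MvPolynomial.esymm (Fin D) ℤ k) with hE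
  set P : ℕ → K → MvPolynomial (Fin 4) K := fun k s =>
    MvPolynomial.aeval (fun i => linF (z s i)) (MvPolynomial.psum (Fin D) ℤ k) with hP
  have hPgood : ∀ k, Good c (P k) := by
    intro k
    refine Good.congr (good_psum T hp k) fun s hs => ?_
    simp only [hP]
    rw [MvPolynomial.psum, map_sum, hz s hs]
    simp only [map_pow, MvPolynomial.aeval_X]
    rw [Multiset.map_map]
    rfl
  have newton : ∀ (k : ℕ) (s : K), (k : MvPolynomial (Fin 4) K) * E k s = (-1) ^ (k + 1) *
      ∑ a ∈ (Finset.HasAntidiagonal.antidiagonal k).filter (fun a => a.1 < k),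
        (-1) ^ a.1 * E a.1 s * P a.2 s := by
    intro k s
    have := congrArg (MvPolynomial.aeval (fun i => linF (z s i)))
      (MvPolynomial.mul_esymm_eq_sum (Fin D) ℤ k)
    simpa only [map_mul, map_natCast, map_pow, map_neg, map_one, map_sum] using this
  have hEgood : ∀ k, Good c (E k) := by
    intro k
    induction k using Nat.strong_induction_on with
    | _ k ih =>
      rcases Nat.eq_zero_or_pos k with rfl | hk
      · refine Good.congr (Good.const (c := c) 1) fun s _ => ?_
        simp only [hE]
        rw [MvPolynomial.esymm_zero, map_one]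
      · have h1 : Good c fun s => MvPolynomial.C ((k : K)⁻¹) * ((-1) ^ (k + 1) *
            ∑ a ∈ (Finset.HasAntidiagonal.antidiagonal k).filter (fun a => a.1 < k),
              (-1) ^ a.1 * E a.1 s * P a.2 s) := by
          refine Good.mul (Good.const _) (Good.mul (Good.const _) (Good.sum _ ?_))
          intro a ha
          rw [Finset.mem_filter] at ha
          exact Good.mul (Good.mul (Good.const _) (ih a.1 ha.2)) (hPgood a.2)
        refine Good.congr h1 fun s _ => ?_
        rw [← newton k s, ← mul_assoc]
        have hk0 : (k : K) ≠ 0 := by exact_mod_cast hk.ne'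
        have : (MvPolynomial.C ((k : K)⁻¹) : MvPolynomial (Fin 4) K) * (k : MvPolynomial (Fin 4) K)
            = 1 := by
          have e : (k : MvPolynomial (Fin 4) K) = MvPolynomial.C (k : K) := by simp
          rw [e, ← map_mul, inv_mul_cancel₀ hk0, map_one]
        rw [this, one_mul]
  obtain ⟨N, FF, hF⟩ := hEgood D
  refine ⟨N, FF, fun s hs => ?_⟩
  rw [hF s hs]
  congr 1
  simp only [hE]
  rw [hz s hs, Multiset.map_map, MvPolynomial.esymm]
  have hpow : Finset.powersetCard D (Finset.univ : Finset (Fin D)) = {Finset.univ} := by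
    have := Finset.powersetCard_self (Finset.univ : Finset (Fin D))
    simpa using this
  rw [hpow, Finset.sum_singleton, map_prod]
  simp only [MvPolynomial.aeval_X]
  rfl

end Pool.Agent.LowDeg
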