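import Pool.Agent.LowDeg.FamTrace
import Pool.Agent.LowDeg.NewtonChow
import Pool.Agent.LowDeg.ModelCycle
import Pool.Agent.LowDeg.DerExt

set_option autoImplicit false

open Polynomial IntermediateField

namespace Pool.Agent.LowDeg

namespace ChowFamilyAux

section Poly

variable {K E : Type} [Field K] [Field E] [Algebra K E]

/-- all coefficients integral -/
def IntPoly (P : Place K E) (p : E[X]) : Prop := ∀ i, P.Int (p.coeff i)

variable {P : Place K E}

lemma IntPoly.add {p q : E[X]} (hp : IntPoly P p) (hq : IntPoly P q) : IntPoly P (p + q) := by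
  intro i; rw [coeff_add]; exact (hp i).add (hq i)

lemma IntPoly.mul {p q : E[X]} (hp : IntPoly P p) (hq : IntPoly P q) : IntPoly P (p * q) := by
  intro i; rw [coeff_mul]; exact Place.Int.sum _ fun x _ => (hp _).mul (hq _)

lemma intPoly_C {x : E} (hx : P.Int x) : IntPoly P (C x) := by
  intro i; rw [coeff_C]; split_ifs
  · exact hx
  · exact P.int_zero

lemma intPoly_X : IntPoly P (X : E[X]) := by
  intro i; rw [coeff_X]; split_ifs
  · exact P.int_one
  · exact P.int_zero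

lemma intPoly_one : IntPoly P (1 : E[X]) := by
  rw [← C_1]; exact intPoly_C P.int_one

lemma intPoly_aeval {f : Fin 4 → E[X]} (hf : ∀ i, IntPoly P (f i)) (F : MvPolynomial (Fin 4) K) :
    IntPoly P (MvPolynomial.aeval f F) := by
  induction F using MvPolynomial.induction_on with
  | C a =>
    rw [MvPolynomial.aeval_C, Polynomial.algebraMap_apply]
    exact intPoly_C (P.int_const a)
  | add p q hp hq => rw [map_add]; exact hp.add hq
  | mul_X p i hp => rw [map_mul, MvPolynomial.aeval_X]; exact hp.mul (hf i)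

lemma intPoly_prod {ι : Type*} (s : Finset ι) {f : ι → E[X]} (hf : ∀ i ∈ s, IntPoly P (f i)) :
    IntPoly P (∏ i ∈ s, f i) := by
  classical
  induction s using Finset.induction_on with
  | empty => simpa using intPoly_one
  | insert i s hi ih =>
    rw [Finset.prod_insert hi]
    exact (hf i (by simp)).mul (ih fun j hj => hf j (by simp [hj]))

lemma intPoly_pow {f : E[X]} (hf : IntPoly P f) (n : ℕ) : IntPoly P (f ^ n) := by
  induction n with
  | zero => simpa using intPoly_one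
  | succ n ih => rw [pow_succ]; exact ih.mul hf

lemma eval_aeval (f : Fin 4 → E[X]) (e : E) (F : MvPolynomial (Fin 4) K) :
    (MvPolynomial.aeval f F).eval e = MvPolynomial.aeval (fun i => (f i).eval e) F := by
  induction F using MvPolynomial.induction_on with
  | C a => simp [Polynomial.algebraMap_apply]
  | add p q hp hq => simp [hp, hq]
  | mul_X p i hp => simp [hp]

lemma transcendental_inj {a : E} (ha : Transcendental K a) {p q : K[X]}
    (h : aeval a p = aeval a q) : p = q := by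
  rw [transcendental_iff_injective] at ha
  exact ha h

end Poly

section Deg

variable {K E : Type} [Field K] [IsAlgClosed K] [CharZero K] [Field E] [Algebra K E]

/-- the degree of the norm is the number of zeros -/
lemma natDegree_norm (a : E) (ha : Transcendental K a) [FiniteDimensional K⟮a⟯ E]
    (del : Derivation K E E) (hdel : del a = 1) (x : E) (hx0 : x ≠ 0)
    (hx : ∀ P : Place K E, P.Int a → P.Int x) (N : K[X])
    (hN : (Algebra.norm K⟮a⟯ x : E) = aeval a N) (S : Finset (Place K E))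
    (hS : ∀ P, P ∈ S ↔ P.Int a ∧ P.ord x ≠ 0) :
    N ≠ 0 ∧ (N.natDegree : ℤ) = ∑ P ∈ S, P.ord x := by
  obtain ⟨S', hS', N', T', hN'0, hN', -, hdeg, -⟩ :=
    power_sum a ha del hdel x 1 hx0 hx (fun P _ => P.int_one)
  have h1 : N = N' := transcendental_inj ha (by rw [← hN, ← hN'])
  have h2 : S = S' := by ext P; rw [hS, hS']
  subst h1; subst h2
  exact ⟨hN'0, hdeg⟩

/-- the number of points over `a₀` is the degree of the field extension -/
lemma sum_ord_sub (a : E) (ha : Transcendental K a) [FiniteDimensional K⟮a⟯ E]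
    (del : Derivation K E E) (hdel : del a = 1) (a₀ : K) (S : Finset (Place K E))
    (hS : ∀ P, P ∈ S ↔ P.Int a ∧ P.ord (a - algebraMap K E a₀) ≠ 0) :
    ∑ P ∈ S, P.ord (a - algebraMap K E a₀) = Module.finrank K⟮a⟯ E := by
  have hne : a - algebraMap K E a₀ ≠ 0 := by
    intro h
    have h2 : aeval a (X - C a₀ : K[X]) = aeval a (0 : K[X]) := by simpa using h
    exact X_sub_C_ne_zero a₀ (transcendental_inj ha h2)
  have hx : ∀ P : Place K E, P.Int a → P.Int (a - algebraMap K E a₀) :=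
    fun P hP => hP.sub (P.int_const a₀)
  have hN : (Algebra.norm K⟮a⟯ (a - algebraMap K E a₀) : E) =
      aeval a ((X - C a₀ : K[X]) ^ Module.finrank K⟮a⟯ E) := by
    have h1 : a - algebraMap K E a₀ = algebraMap K⟮a⟯ E
        (AdjoinSimple.gen K a - algebraMap K K⟮a⟯ a₀) := by
      rw [map_sub, AdjoinSimple.algebraMap_gen, ← IsScalarTower.algebraMap_apply]
    rw [h1, Algebra.norm_algebraMap]
    simp only [map_pow, map_sub, aeval_X, aeval_C]
    push_cast
    rw [AdjoinSimple.coe_gen]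
  have h3 := (natDegree_norm a ha del hdel _ hne hx _ hN S hS).2
  rw [← h3, natDegree_pow, natDegree_X_sub_C, mul_one]

end Deg

section Fam

variable {K : Type} [Field K] {h : ℕ} (M : CurveModel K h) (β₂ β₃ : K)

/-- the moving generic point, as polynomials in `s` -/
noncomputable def fam : Fin 4 → M.E[X] :=
  ![1, C M.a, C M.b + X * C (algebraMap K M.E β₂ * M.a - M.b),
    C M.w + X * C (algebraMap K M.E β₃ * M.a - M.w)]

/-- the linear maps, on points -/
def zs (s : K) (z : Fin 4 → K) : Fin 4 → K :=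
  ![z 0, z 1, z 2 + s * (β₂ * z 1 - z 2), z 3 + s * (β₃ * z 1 - z 3)]

/-- the linear maps, on forms -/
noncomputable def lin (s : K) : Fin 4 → MvPolynomial (Fin 4) K :=
  ![MvPolynomial.X 0, MvPolynomial.X 1,
    MvPolynomial.C (1 - s) * MvPolynomial.X 2 + MvPolynomial.C (s * β₂) * MvPolynomial.X 1,
    MvPolynomial.C (1 - s) * MvPolynomial.X 3 + MvPolynomial.C (s * β₃) * MvPolynomial.X 1]

lemma lin_hom (s : K) (i : Fin 4) : (lin β₂ β₃ s i).IsHomogeneous 1 := by
  have h1 : ∀ (c : K) (j : Fin 4), (MvPolynomial.C c * MvPolynomial.X j :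
      MvPolynomial (Fin 4) K).IsHomogeneous 1 := fun c j => by
    simpa using (MvPolynomial.isHomogeneous_C (Fin 4) c).mul (MvPolynomial.isHomogeneous_X K j)
  fin_cases i
  · exact MvPolynomial.isHomogeneous_X K 0
  · exact MvPolynomial.isHomogeneous_X K 1
  · exact (h1 _ _).add (h1 _ _)
  · exact (h1 _ _).add (h1 _ _)

/-- the transformed form -/
noncomputable def Fs (F : MvPolynomial (Fin 4) K) (s : K) : MvPolynomial (Fin 4) K :=
  MvPolynomial.aeval (lin β₂ β₃ s) F

lemma Fs_hom {F : MvPolynomial (Fin 4) K} {d : ℕ} (hF : F.IsHomogeneous d) (s : K) :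
    (Fs β₂ β₃ F s).IsHomogeneous d := by
  have := hF.aeval (lin β₂ β₃ s) (lin_hom β₂ β₃ s)
  simpa [Fs] using this

lemma eval_Fs (F : MvPolynomial (Fin 4) K) (s : K) (z : Fin 4 → K) :
    MvPolynomial.eval z (Fs β₂ β₃ F s) = MvPolynomial.eval (zs β₂ β₃ s z) F := by
  have h1 : MvPolynomial.aeval z (Fs β₂ β₃ F s) = MvPolynomial.aeval (zs β₂ β₃ s z) F := by
    rw [Fs, MvPolynomial.comp_aeval_apply]
    congr 2
    funext i
    fin_cases i <;> simp [lin, zs] <;> ring
  simpa [MvPolynomial.coe_aeval_eq_eval] using h1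

/-- the restriction of the form to the moving curve -/
noncomputable def xs (F : MvPolynomial (Fin 4) K) (s : K) : M.E :=
  (MvPolynomial.aeval (fam M β₂ β₃) F).eval (algebraMap K M.E s)

lemma eval_fam (s : K) (i : Fin 4) : (fam M β₂ β₃ i).eval (algebraMap K M.E s) =
    MvPolynomial.aeval M.pt (lin β₂ β₃ s i) := by
  fin_cases i <;> simp [fam, lin, CurveModel.pt] <;> ring

lemma xs_eq (F : MvPolynomial (Fin 4) K) (s : K) :
    xs M β₂ β₃ F s = MvPolynomial.aeval M.pt (Fs β₂ β₃ F s) := by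
  rw [xs, eval_aeval, Fs, MvPolynomial.comp_aeval_apply]
  congr 2
  funext i
  exact eval_fam M β₂ β₃ s i

lemma xs_zero (F : MvPolynomial (Fin 4) K) : xs M β₂ β₃ F 0 = MvPolynomial.aeval M.pt F := by
  rw [xs, eval_aeval]
  congr 2
  funext i
  fin_cases i <;> simp [fam, CurveModel.pt]

/-- the restriction of the form to the line -/
noncomputable def f1 (F : MvPolynomial (Fin 4) K) : K[X] :=
  MvPolynomial.aeval ![1, X, C β₂ * X, C β₃ * X] F

lemma xs_one (F : MvPolynomial (Fin 4) K) : xs M β₂ β₃ F 1 = aeval M.a (f1 β₂ β₃ F) := by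
  rw [xs, eval_aeval, f1, MvPolynomial.comp_aeval_apply]
  congr 2
  funext i
  fin_cases i <;> simp [fam]

lemma isVal_fam {P : Place K M.E} {z : Fin 4 → K} (hz : M.IsCentre P z) (s : K) (i : Fin 4) :
    P.IsVal ((fam M β₂ β₃ i).eval (algebraMap K M.E s)) (zs β₂ β₃ s z i) := by
  rw [eval_fam]
  have h1 := Place.IsVal.aeval (R := K) hz (lin β₂ β₃ s i)
  convert h1 using 1
  fin_cases i <;> simp [lin, zs] <;> ring

lemma isVal_xs {P : Place K M.E} {z : Fin 4 → K} (hz : M.IsCentre P z)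
    (F : MvPolynomial (Fin 4) K) (s : K) :
    P.IsVal (xs M β₂ β₃ F s) (MvPolynomial.eval (zs β₂ β₃ s z) F) := by
  rw [xs, eval_aeval, ← MvPolynomial.coe_aeval_eq_eval]
  exact Place.IsVal.aeval (isVal_fam M β₂ β₃ hz s) F

end Fam

section Fam2

variable {K : Type} [Field K] [IsAlgClosed K] [CharZero K] {h : ℕ} (M : CurveModel K h) (β₂ β₃ : K)

lemma int_pt (P : Place K M.E) (hP : P.Int M.a) (i : Fin 4) : P.Int (M.pt i) := by
  fin_cases i
  · exact P.int_one
  · exact hP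
  · exact M.int_b P hP
  · exact M.int_w P hP

lemma intPoly_fam (P : Place K M.E) (hP : P.Int M.a) (i : Fin 4) : IntPoly P (fam M β₂ β₃ i) := by
  fin_cases i
  · exact intPoly_one
  · exact intPoly_C hP
  · exact (intPoly_C (M.int_b P hP)).add (intPoly_X.mul (intPoly_C
      (((P.int_const _).mul hP).sub (M.int_b P hP))))
  · exact (intPoly_C (M.int_w P hP)).add (intPoly_X.mul (intPoly_C
      (((P.int_const _).mul hP).sub (M.int_w P hP))))

lemma int_xs (F : MvPolynomial (Fin 4) K) (s : K) (P : Place K M.E) (hP : P.Int M.a) :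
    P.Int (xs M β₂ β₃ F s) := by
  obtain ⟨z, hz⟩ := M.exists_centre P hP
  exact (isVal_xs M β₂ β₃ hz F s).int

open scoped Classical in
/-- the finite zeros of `x_s` -/
noncomputable def SS (F : MvPolynomial (Fin 4) K) (s : K) : Finset (Place K M.E) :=
  if hs : xs M β₂ β₃ F s = 0 then ∅
  else ((finite_zeros M.a M.trans (xs M β₂ β₃ F s) hs).toFinset).filter fun P => P.Int M.a

lemma mem_SS (F : MvPolynomial (Fin 4) K) (s : K) (hs : xs M β₂ β₃ F s ≠ 0) (P : Place K M.E) :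
    P ∈ SS M β₂ β₃ F s ↔ P.Int M.a ∧ P.ord (xs M β₂ β₃ F s) ≠ 0 := by
  classical
  rw [SS, dif_neg hs]
  simp [and_comm]

open scoped Classical in
/-- the centre of a finite place -/
noncomputable def ctr (P : Place K M.E) : Fin 4 → K :=
  if hP : P.Int M.a then (M.exists_centre P hP).choose else 0

lemma ctr_spec (P : Place K M.E) (hP : P.Int M.a) : M.IsCentre P (ctr M P) := by
  rw [ctr, dif_pos hP]; exact (M.exists_centre P hP).choose_spec

/-- the moving cycle -/
noncomputable def TT (F : MvPolynomial (Fin 4) K) (s : K) : Multiset (Fin 4 → K) :=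
  ∑ P ∈ SS M β₂ β₃ F s,
    Multiset.replicate (P.ord (xs M β₂ β₃ F s)).toNat (zs β₂ β₃ s (ctr M P))

lemma ord_nonneg (F : MvPolynomial (Fin 4) K) (s : K) (hs : xs M β₂ β₃ F s ≠ 0)
    {P : Place K M.E} (hP : P ∈ SS M β₂ β₃ F s) : 0 ≤ P.ord (xs M β₂ β₃ F s) := by
  have h1 := (mem_SS M β₂ β₃ F s hs P).1 hP
  exact (int_xs M β₂ β₃ F s P h1.1).resolve_left hs

lemma card_TT (F : MvPolynomial (Fin 4) K) (s : K) (hs : xs M β₂ β₃ F s ≠ 0) :
    (Multiset.card (TT M β₂ β₃ F s) : ℤ) = ∑ P ∈ SS M β₂ β₃ F s, P.ord (xs M β₂ β₃ F s) := by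
  rw [TT, Multiset.card_sum]
  push_cast
  refine Finset.sum_congr rfl fun P hP => ?_
  rw [Multiset.card_replicate, Int.toNat_of_nonneg (ord_nonneg M β₂ β₃ F s hs hP)]

lemma sum_TT (F : MvPolynomial (Fin 4) K) (s : K) (hs : xs M β₂ β₃ F s ≠ 0) (g : (Fin 4 → K) → K) :
    ((TT M β₂ β₃ F s).map g).sum = ∑ P ∈ SS M β₂ β₃ F s,
      (P.ord (xs M β₂ β₃ F s) : K) * g (zs β₂ β₃ s (ctr M P)) := by
  rw [TT, ← Multiset.coe_mapAddMonoidHom, map_sum, ← Multiset.coe_sumAddMonoidHom, map_sum]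
  refine Finset.sum_congr rfl fun P hP => ?_
  have h1 := ord_nonneg M β₂ β₃ F s hs hP
  rw [Multiset.coe_mapAddMonoidHom, Multiset.coe_sumAddMonoidHom, Multiset.map_replicate,
    Multiset.sum_replicate, nsmul_eq_mul]
  congr 1
  rw [← Int.cast_natCast, Int.toNat_of_nonneg h1]

lemma prod_TT {R : Type*} [CommMonoid R] (F : MvPolynomial (Fin 4) K) (s : K)
    (g : (Fin 4 → K) → R) :
    ((TT M β₂ β₃ F s).map g).prod = ∏ P ∈ SS M β₂ β₃ F s,
      g (zs β₂ β₃ s (ctr M P)) ^ (P.ord (xs M β₂ β₃ F s)).toNat := by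
  classical
  rw [TT]
  induction SS M β₂ β₃ F s using Finset.induction_on with
  | empty => simp
  | insert i s hi ih =>
    rw [Finset.sum_insert hi, Finset.prod_insert hi, Multiset.map_add, Multiset.prod_add, ih]
    simp

lemma mem_TT (F : MvPolynomial (Fin 4) K) (s : K) (hs : xs M β₂ β₃ F s ≠ 0) (z : Fin 4 → K)
    (hz : z ∈ TT M β₂ β₃ F s) : z 0 = 1 ∧ MvPolynomial.eval z F = 0 := by
  rw [TT, Multiset.mem_sum] at hz
  obtain ⟨P, hP, hz⟩ := hz
  have h1 := (mem_SS M β₂ β₃ F s hs P).1 hP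
  have h2 := ctr_spec M P h1.1
  rw [Multiset.eq_of_mem_replicate hz]
  refine ⟨?_, ?_⟩
  · have h3 := h2 0
    have h4 : M.pt 0 = 1 := rfl
    rw [h4] at h3
    have h5 := h3.unique P.isVal_one
    simpa [zs] using h5
  · have h3 := isVal_xs M β₂ β₃ h2 F s
    refine h3.unique (Place.isVal_zero_iff.2 (Or.inr ?_))
    have h4 := ord_nonneg M β₂ β₃ F s hs hP
    have h5 := h1.2
    omega

end Fam2

section Final

lemma prod_cycle {ι V R : Type*} [DecidableEq V] [CommMonoid R] (S : Finset ι) (c : ι → V)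
    (n : ι → ℕ) (μ : V →₀ ℕ) (hμ : ∀ z, μ z = ∑ P ∈ S, if c P = z then n P else 0) (g : V → R) :
    ∏ P ∈ S, g (c P) ^ n P = μ.prod fun z k => g z ^ k := by
  have hsub : μ.support ⊆ S.image c := by
    intro z hz
    rw [Finsupp.mem_support_iff, hμ] at hz
    obtain ⟨P, hP, hP2⟩ := Finset.exists_ne_zero_of_sum_ne_zero hz
    rw [Finset.mem_image]
    refine ⟨P, hP, ?_⟩
    by_contra h
    exact hP2 (if_neg h)
  rw [Finsupp.prod_of_support_subset μ hsub _ (fun z _ => pow_zero _),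
    ← Finset.prod_fiberwise_of_maps_to (s := S) (t := S.image c) (g := c)
      (fun P hP => Finset.mem_image_of_mem c hP)]
  refine Finset.prod_congr rfl fun z _ => ?_
  rw [hμ, ← Finset.sum_filter, Finset.prod_congr rfl (g := fun P => g z ^ n P),
    Finset.prod_pow_eq_pow_sum]
  intro P hP
  rw [(Finset.mem_filter.1 hP).2]

variable {K : Type} [Field K] [IsAlgClosed K] [CharZero K]

lemma f1_ne_zero {d : ℕ} (F : MvPolynomial (Fin 4) K) (hF : F.IsHomogeneous d) (β₂ β₃ : K)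
    (hβ : MvPolynomial.eval ![0, 1, β₂, β₃] F ≠ 0) : f1 β₂ β₃ F ≠ 0 := by
  intro h0
  set g : K[X] := MvPolynomial.aeval ![X, 1, C β₂, C β₃] F with hg
  have hgu : ∀ u, g.eval u = MvPolynomial.eval ![u, 1, β₂, β₃] F := by
    intro u
    rw [hg, eval_aeval, MvPolynomial.aeval_eq_eval]
    congr 2
    funext i
    fin_cases i <;> simp
  have hfu : ∀ u, (f1 β₂ β₃ F).eval u = MvPolynomial.eval ![1, u, β₂ * u, β₃ * u] F := by
    intro u
    rw [f1, eval_aeval, MvPolynomial.aeval_eq_eval]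
    congr 2
    funext i
    fin_cases i <;> simp
  have h1 : ∀ u, u ≠ 0 → g.eval u = 0 := by
    intro u hu
    have h2 := hfu u⁻¹
    rw [h0, eval_zero] at h2
    have h3 : (![1, u⁻¹, β₂ * u⁻¹, β₃ * u⁻¹] : Fin 4 → K) = fun i => u⁻¹ * ![u, 1, β₂, β₃] i := by
      funext i
      fin_cases i <;> simp [hu, mul_comm]
    rw [h3] at h2
    have h4 : MvPolynomial.eval (fun i => u⁻¹ * ![u, 1, β₂, β₃] i) F =
        u⁻¹ ^ d * MvPolynomial.eval ![u, 1, β₂, β₃] F := by
      rw [MvPolynomial.eval_eq, MvPolynomial.eval_eq, Finset.mul_sum]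
      refine Finset.sum_congr rfl fun m hm => ?_
      simp only [mul_pow, Finset.prod_mul_distrib]
      rw [Finset.prod_pow_eq_pow_sum, hF.degree_eq_sum_deg_support hm]
      ring
    rw [h4] at h2
    rw [hgu]
    rcases mul_eq_zero.1 h2.symm with h5 | h5
    · exact absurd h5 (pow_ne_zero _ (inv_ne_zero hu))
    · exact h5
  have h2 : g = 0 := by
    by_contra hne
    have h3 : (X * g : K[X]) = 0 := by
      apply Polynomial.funext
      intro u
      rcases eq_or_ne u 0 with rfl | hu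
      · simp
      · simp [h1 u hu]
    rcases mul_eq_zero.1 h3 with h4 | h4
    · exact X_ne_zero h4
    · exact hne h4
  have h3 := hgu 0
  rw [h2, eval_zero] at h3
  exact hβ h3.symm

lemma prod_line {h : ℕ} (M : CurveModel K h) (β₂ β₃ : K) (F : MvPolynomial (Fin 4) K)
    (del : Derivation K M.E M.E) (hdel : del M.a = 1) (hf : f1 β₂ β₃ F ≠ 0)
    (hx : xs M β₂ β₃ F 1 ≠ 0) :
    ((TT M β₂ β₃ F 1).map linF).prod =
      (((f1 β₂ β₃ F).roots.map fun a₀ => linF ![1, a₀, β₂ * a₀, β₃ * a₀]).prod) ^ h := by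
  classical
  set f := f1 β₂ β₃ F with hfdef
  -- local structure at a place
  have hne : ∀ a₀ : K, M.a - algebraMap K M.E a₀ ≠ 0 := by
    intro a₀ h0
    have h2 : aeval M.a (X - C a₀ : K[X]) = aeval M.a (0 : K[X]) := by simpa using h0
    exact X_sub_C_ne_zero a₀ (transcendental_inj M.trans h2)
  have hloc : ∀ P : Place K M.E, P.Int M.a →
      P.ord (xs M β₂ β₃ F 1) =
        f.rootMultiplicity (ctr M P 1) * P.ord (M.a - algebraMap K M.E (ctr M P 1)) := by
    intro P hP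
    have hc : P.IsVal M.a (ctr M P 1) := ctr_spec M P hP 1
    obtain ⟨g, hg, hg2⟩ := Polynomial.exists_eq_pow_rootMultiplicity_mul_and_not_dvd f hf (ctr M P 1)
    have hg3 : g.eval (ctr M P 1) ≠ 0 := fun h0 => hg2 (dvd_iff_isRoot.2 h0)
    have hval : P.IsVal (aeval M.a g) (g.eval (ctr M P 1)) := hc.polyAeval g
    rw [xs_one, ← hfdef]
    conv_lhs => rw [hg]
    rw [map_mul, map_pow, map_sub, aeval_X, aeval_C, P.ord_mul _ _ (pow_ne_zero _ (hne _))
      (hval.ne_zero hg3), P.ord_pow (hne _), hval.ord_eq_zero hg3, add_zero]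
  have hctr0 : ∀ P : Place K M.E, P.Int M.a →
      zs β₂ β₃ 1 (ctr M P) = ![1, ctr M P 1, β₂ * ctr M P 1, β₃ * ctr M P 1] := by
    intro P hP
    have h3 := ctr_spec M P hP 0
    have h4 : M.pt 0 = 1 := rfl
    rw [h4] at h3
    have h5 := h3.unique P.isVal_one
    funext i
    fin_cases i <;> simp [zs, h5]
  rw [prod_TT]
  set ℓ : K → MvPolynomial (Fin 4) K := fun a₀ => linF ![1, a₀, β₂ * a₀, β₃ * a₀] with hℓ
  have hmaps : ∀ P ∈ SS M β₂ β₃ F 1, ctr M P 1 ∈ f.roots.toFinset := by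
    intro P hP
    have h1 := (mem_SS M β₂ β₃ F 1 hx P).1 hP
    have h2 := h1.2
    rw [hloc P h1.1] at h2
    rw [Multiset.mem_toFinset, mem_roots hf]
    have h3 : f.rootMultiplicity (ctr M P 1) ≠ 0 := by
      intro h0; rw [h0] at h2; simp at h2
    exact (rootMultiplicity_pos hf).1 (Nat.pos_of_ne_zero h3)
  rw [← Finset.prod_fiberwise_of_maps_to (s := SS M β₂ β₃ F 1) (t := f.roots.toFinset)
      (g := fun P => ctr M P 1) hmaps, Finset.prod_multiset_map_count, ← Finset.prod_pow]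
  refine Finset.prod_congr rfl fun a₀ ha₀ => ?_
  rw [Multiset.mem_toFinset, mem_roots hf] at ha₀
  have hmpos : 0 < f.rootMultiplicity a₀ := (rootMultiplicity_pos hf).2 ha₀
  set S₀ := (SS M β₂ β₃ F 1).filter fun P => ctr M P 1 = a₀ with hS₀
  have hS : ∀ P, P ∈ S₀ ↔ P.Int M.a ∧ P.ord (M.a - algebraMap K M.E a₀) ≠ 0 := by
    intro P
    rw [hS₀, Finset.mem_filter, mem_SS M β₂ β₃ F 1 hx]
    constructor
    · rintro ⟨⟨h1, h2⟩, h3⟩
      refine ⟨h1, ?_⟩
      rw [hloc P h1, h3] at h2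
      exact right_ne_zero_of_mul h2
    · rintro ⟨h1, h2⟩
      have h3 : ctr M P 1 = a₀ := by
        have hc : P.IsVal M.a (ctr M P 1) := ctr_spec M P h1 1
        have h4 : P.Int (M.a - algebraMap K M.E a₀) := h1.sub (P.int_const a₀)
        have h5 := h4.resolve_left (hne a₀)
        exact hc.unique (Or.inr (lt_of_le_of_ne h5 (Ne.symm h2)))
      refine ⟨⟨h1, ?_⟩, h3⟩
      rw [hloc P h1, h3]
      exact mul_ne_zero (by exact_mod_cast hmpos.ne') h2
  have hsum := sum_ord_sub M.a M.trans del hdel a₀ S₀ hS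
  rw [M.rank] at hsum
  have hterm : ∀ P ∈ S₀, linF (zs β₂ β₃ 1 (ctr M P)) ^ (P.ord (xs M β₂ β₃ F 1)).toNat =
      (ℓ a₀ ^ f.rootMultiplicity a₀) ^ (P.ord (M.a - algebraMap K M.E a₀)).toNat := by
    intro P hP
    have h1 := (hS P).1 hP
    have h2 : ctr M P 1 = a₀ := (Finset.mem_filter.1 hP).2
    rw [hctr0 P h1.1, h2, hloc P h1.1, h2, ← pow_mul]
    congr 1
    rw [Int.toNat_mul (by positivity) ((h1.1.sub (P.int_const a₀)).resolve_left (hne a₀))]
    simp
  rw [Finset.prod_congr rfl hterm, Finset.prod_pow_eq_pow_sum, count_roots]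
  congr 1
  zify
  rw [← hsum]
  refine Finset.sum_congr rfl fun P hP => ?_
  have h1 := (hS P).1 hP
  exact Int.toNat_of_nonneg ((h1.1.sub (P.int_const a₀)).resolve_left (hne a₀))

end Final

end ChowFamilyAux

open ChowFamilyAux in
/-- (C) -/
theorem chow_family {K : Type} [Field K] [IsAlgClosed K] [CharZero K] {d h : ℕ}
    (F : MvPolynomial (Fin 4) K) (hF : F.IsHomogeneous d)
    (M : CurveModel K h) (hx : MvPolynomial.aeval M.pt F ≠ 0)
    (hinf : ∀ z : Fin 4 → K, z 0 = 0 → z 1 = 1 → M.On z → MvPolynomial.eval z F ≠ 0)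
    (μ : (Fin 4 → K) →₀ ℕ) (hμ : M.IsCycle (MvPolynomial.aeval M.pt F) μ) (β₂ β₃ : K)
    (hβ : MvPolynomial.eval ![0, 1, β₂, β₃] F ≠ 0) :
    ∃ (c : K[X]) (N : ℕ) (FF : MvPolynomial (Fin 4) K[X]), c.eval 0 ≠ 0 ∧ c.eval 1 ≠ 0 ∧
      (∀ s, c.eval s ≠ 0 → ∃ T : Multiset (Fin 4 → K),
        (∀ z ∈ T, z 0 = 1 ∧ MvPolynomial.eval z F = 0) ∧
        MvPolynomial.map (evalRingHom s) FF =
          MvPolynomial.C ((c.eval s) ^ N) * (T.map linF).prod) ∧
      MvPolynomial.map (evalRingHom 0) FF =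
        MvPolynomial.C ((c.eval 0) ^ N) * (μ.prod fun z k => linF z ^ k) ∧
      MvPolynomial.map (evalRingHom 1) FF =
        MvPolynomial.C ((c.eval 1) ^ N) *
          (((MvPolynomial.aeval ![1, X, C β₂ * X, C β₃ * X] F : K[X]).roots.map
            fun a₀ => linF ![1, a₀, β₂ * a₀, β₃ * a₀]).prod) ^ h := by
  classical
  obtain ⟨del, -, hdel⟩ := exists_derivation (k := K) M.a M.trans (0 : Derivation K K K) (1 : M.E)
  have hxint : ∀ (i : ℕ) (P : Place K M.E), P.Int M.a →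
      P.Int ((MvPolynomial.aeval (fam M β₂ β₃) F).coeff i) :=
    fun i P hP => intPoly_aeval (intPoly_fam M β₂ β₃ P hP) F i
  obtain ⟨N, T₀, hNT⟩ := family_trace M.a M.trans del hdel
    (MvPolynomial.aeval (fam M β₂ β₃) F) 1 hxint (fun i P hP => intPoly_one i)
  have hN : ∀ s : K, (Algebra.norm K⟮M.a⟯ (xs M β₂ β₃ F s) : M.E) =
      aeval M.a (N.map (evalRingHom s)) := fun s => (hNT s).1
  have hdeg : ∀ s, xs M β₂ β₃ F s ≠ 0 → N.map (evalRingHom s) ≠ 0 ∧
      ((N.map (evalRingHom s)).natDegree : ℤ) =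
        ∑ P ∈ SS M β₂ β₃ F s, P.ord (xs M β₂ β₃ F s) := fun s hs =>
    natDegree_norm M.a M.trans del hdel _ hs (int_xs M β₂ β₃ F s) _ (hN s) _
      (mem_SS M β₂ β₃ F s hs)
  have hle : ∀ s, xs M β₂ β₃ F s ≠ 0 → (N.map (evalRingHom s)).natDegree ≤ d * h ∧
      ((∀ z : Fin 4 → K, z 0 = 0 → z 1 = 1 → M.On z →
        MvPolynomial.eval (zs β₂ β₃ s z) F ≠ 0) →
        (N.map (evalRingHom s)).natDegree = d * h) := by
    intro s hs
    have h1 := M.degree_le (Fs β₂ β₃ F s) (Fs_hom β₂ β₃ hF s) (by rw [← xs_eq]; exact hs)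
      (SS M β₂ β₃ F s) (by rw [← xs_eq]; exact mem_SS M β₂ β₃ F s hs)
    rw [← xs_eq, ← (hdeg s hs).2] at h1
    refine ⟨by exact_mod_cast h1.1, fun hz => ?_⟩
    have h2 := h1.2 (fun z h0 h1' hon => by rw [eval_Fs]; exact hz z h0 h1' hon)
    exact_mod_cast h2
  have hcoeff : ∀ (i : ℕ) (s : K), (N.coeff i).eval s = (N.map (evalRingHom s)).coeff i := by
    intro i s; rw [coeff_map]; rfl
  have hND : N.natDegree ≤ d * h := by
    rw [natDegree_le_iff_coeff_eq_zero]
    intro i hi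
    apply Polynomial.funext
    intro s
    rw [hcoeff, eval_zero]
    by_cases hs : xs M β₂ β₃ F s = 0
    · have h1 := hN s
      rw [hs, Algebra.norm_zero] at h1
      have h2 : N.map (evalRingHom s) = 0 := by
        apply transcendental_inj M.trans
        rw [← h1]; simp
      rw [h2, coeff_zero]
    · exact coeff_eq_zero_of_natDegree_lt (lt_of_le_of_lt (hle s hs).1 hi)
  set c : K[X] := N.coeff (d * h) with hc
  have hcs : ∀ s, c.eval s ≠ 0 → xs M β₂ β₃ F s ≠ 0 ∧
      (N.map (evalRingHom s)).natDegree = d * h := by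
    intro s hs
    rw [hc, hcoeff] at hs
    have h1 : xs M β₂ β₃ F s ≠ 0 := by
      intro h0
      have h1 := hN s
      rw [h0, Algebra.norm_zero] at h1
      have h2 : N.map (evalRingHom s) = 0 := by
        apply transcendental_inj M.trans
        rw [← h1]; simp
      rw [h2, coeff_zero] at hs
      exact hs rfl
    exact ⟨h1, le_antisymm (hle s h1).1 (le_natDegree_of_ne_zero hs)⟩
  have hcs' : ∀ s, xs M β₂ β₃ F s ≠ 0 → (∀ z : Fin 4 → K, z 0 = 0 → z 1 = 1 → M.On z →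
        MvPolynomial.eval (zs β₂ β₃ s z) F ≠ 0) → c.eval s ≠ 0 := by
    intro s hs hz
    rw [hc, hcoeff, ← (hle s hs).2 hz]
    exact leadingCoeff_ne_zero.2 (hdeg s hs).1
  have hx0 : xs M β₂ β₃ F 0 ≠ 0 := by rw [xs_zero]; exact hx
  have hzs0 : ∀ z : Fin 4 → K, zs β₂ β₃ 0 z = z := by
    intro z; funext i; fin_cases i <;> simp [zs]
  have hc0 : c.eval 0 ≠ 0 := hcs' 0 hx0 fun z h0 h1 hon => by
    rw [hzs0]; exact hinf z h0 h1 hon
  have hf1 := f1_ne_zero F hF β₂ β₃ hβ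
  have hx1 : xs M β₂ β₃ F 1 ≠ 0 := by
    rw [xs_one]
    intro h0
    exact hf1 (transcendental_inj M.trans (by rw [h0, map_zero]))
  have hc1 : c.eval 1 ≠ 0 := hcs' 1 hx1 fun z h0 h1 hon => by
    have : zs β₂ β₃ 1 z = ![0, 1, β₂, β₃] := by
      funext i; fin_cases i <;> simp [zs, h0, h1]
    rw [this]; exact hβ
  have hcard : ∀ s, c.eval s ≠ 0 → Multiset.card (TT M β₂ β₃ F s) = d * h := by
    intro s hs
    have h1 := hcs s hs
    have h2 := card_TT M β₂ β₃ F s h1.1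
    rw [← (hdeg s h1.1).2, h1.2] at h2
    exact_mod_cast h2
  have hp : ∀ α : Fin 4 → ℕ, ∃ (m : ℕ) (q : K[X]), ∀ s, c.eval s ≠ 0 →
      (c.eval s) ^ m * ((TT M β₂ β₃ F s).map fun z => ∏ i, z i ^ α i).sum = q.eval s := by
    intro α
    obtain ⟨m, q, hmq⟩ := family_power_sum M.a M.trans del hdel
      (MvPolynomial.aeval (fam M β₂ β₃) F) (∏ i, fam M β₂ β₃ i ^ α i) hxint
      (fun i P hP => intPoly_prod _ (fun j _ => intPoly_pow (intPoly_fam M β₂ β₃ P hP j) _) i)
      N (fun s => (hNT s).1) (d * h) hND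
    refine ⟨m, q, fun s hs => ?_⟩
    have h1 := hcs s hs
    rw [sum_TT M β₂ β₃ F s h1.1]
    refine hmq s hs (SS M β₂ β₃ F s) (fun P => ∏ i, zs β₂ β₃ s (ctr M P) i ^ α i)
      (mem_SS M β₂ β₃ F s h1.1) fun P hP => ?_
    have h2 := ctr_spec M P ((mem_SS M β₂ β₃ F s h1.1 P).1 hP).1
    rw [eval_prod]
    refine Place.IsVal.prod _ fun i _ => ?_
    rw [eval_pow]
    exact (isVal_fam M β₂ β₃ h2 s i).pow _
  obtain ⟨Nn, FF, hFF⟩ := chow_of_power_sums c (d * h) (TT M β₂ β₃ F) hcard hp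
  refine ⟨c, Nn, FF, hc0, hc1, fun s hs => ⟨TT M β₂ β₃ F s,
    mem_TT M β₂ β₃ F s (hcs s hs).1, hFF s hs⟩, ?_, ?_⟩
  · rw [hFF 0 hc0]
    congr 1
    obtain ⟨S, ctr', hS, hctr', hμz⟩ := hμ
    have hSS : S = SS M β₂ β₃ F 0 := by
      ext P; rw [hS, mem_SS M β₂ β₃ F 0 hx0, xs_zero]
    rw [prod_TT, hSS.symm]
    have hn : ∀ P ∈ S, 0 ≤ P.ord (xs M β₂ β₃ F 0) := by
      intro P hP; exact ord_nonneg M β₂ β₃ F 0 hx0 (hSS ▸ hP)
    have h1 : ∀ P ∈ S, linF (zs β₂ β₃ 0 (ctr M P)) ^ (P.ord (xs M β₂ β₃ F 0)).toNat =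
        linF (ctr' P) ^ (P.ord (xs M β₂ β₃ F 0)).toNat := by
      intro P hP
      congr 2
      rw [hzs0]
      funext i
      exact (ctr_spec M P ((hS P).1 hP).1 i).unique (hctr' P hP i)
    rw [Finset.prod_congr rfl h1]
    refine prod_cycle S ctr' (fun P => (P.ord (xs M β₂ β₃ F 0)).toNat) μ (fun z => ?_) linF
    have h2 := hμz z
    zify
    rw [h2]
    refine Finset.sum_congr rfl fun P hP => ?_
    split_ifs
    · rw [Int.toNat_of_nonneg (hn P hP), xs_zero]
    · rfl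
  · rw [hFF 1 hc1]
    congr 1
    exact prod_line M β₂ β₃ F del hdel hf1 hx1

end Pool.Agent.LowDeg
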