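import Mathlib

/-! Module G4 (doc section 12): the numerical inequalities. -/

set_option autoImplicit false

namespace Pool.Agent.LowDeg

theorem num_ineq (d h w : ℤ) (hh : 1 ≤ h) (hd : 6 * h ≤ d)
    (h1 : h * (2 * d - 1 - 3 * h) - 2 ≤ 2 * w)
    (h2 : ∀ r : ℤ, 2 ≤ r → 2 * r * d * h - r ^ 2 * h * (1 + 3 * h) - 2 * r ≤ 2 * w) :
    (d - 3) * (d + 1) ≤ 8 * w := by
  by_cases hcase : h = 1 ∧ d = 6
  · obtain ⟨rfl, rfl⟩ := hcase
    norm_num at h1 ⊢
    omega
  obtain ⟨q, hq⟩ : ∃ q : ℤ, q = h * (1 + 3 * h) := ⟨_, rfl⟩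
  obtain ⟨A, hA⟩ : ∃ A : ℤ, A = d * h - 1 := ⟨_, rfl⟩
  have hqpos : 0 < q := by
    rw [hq]
    positivity
  -- `3 q ≤ 2 A`
  have h3 : 3 * q ≤ 2 * A := by
    rw [hq, hA]
    rcases eq_or_lt_of_le hh with h0 | h0
    · have hd7 : 7 ≤ d := by
        have : d ≠ 6 := fun h6 => hcase ⟨h0.symm, h6⟩
        omega
      rw [← h0]
      omega
    · have h5 : 2 ≤ h := h0
      nlinarith [mul_le_mul_of_nonneg_right hd (by omega : (0 : ℤ) ≤ h)]
  obtain ⟨r, hr⟩ : ∃ r : ℤ, r = (2 * A + q) / (2 * q) := ⟨_, rfl⟩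
  have hr2 : 2 ≤ r := by
    rw [hr, Int.le_ediv_iff_mul_le (by omega)]
    linarith
  have hle : r * (2 * q) ≤ 2 * A + q := by
    rw [hr]
    exact Int.ediv_mul_le _ (by omega)
  have hge : 2 * A + q < (r + 1) * (2 * q) := by
    rw [hr]
    exact Int.lt_ediv_add_one_mul_self _ (by omega)
  have hsq : (2 * A - 2 * q * r) ^ 2 ≤ q ^ 2 := by
    apply sq_le_sq'
    · linarith
    · linarith
  have h4 := h2 r hr2
  have h5 : 2 * r * A - r ^ 2 * q ≤ 2 * w := by
    rw [hA, hq]
    linarith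
  have h6 : 4 * A ^ 2 - q ^ 2 ≤ 8 * w * q := by
    have h7 : 4 * q * (2 * r * A - r ^ 2 * q) ≤ 4 * q * (2 * w) :=
      mul_le_mul_of_nonneg_left h5 (by omega)
    nlinarith
  have h8 : q * ((d - 3) * (d + 1)) ≤ 4 * A ^ 2 - q ^ 2 := by
    have h9 : 4 * A ^ 2 - q ^ 2 - q * ((d - 3) * (d + 1)) =
        d ^ 2 * (h * (h - 1)) + 6 * d * (h * (h - 1)) +
          (4 + 3 * h + 8 * h ^ 2 - 6 * h ^ 3 - 9 * h ^ 4) := by
      rw [hA, hq]
      ring
    have h10 : 0 ≤ h * (h - 1) := mul_nonneg (by omega) (by omega)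
    have h11 : (6 * h) ^ 2 ≤ d ^ 2 := pow_le_pow_left₀ (by omega) hd 2
    have h12 := mul_le_mul_of_nonneg_right h11 h10
    have h13 := mul_le_mul_of_nonneg_right hd h10
    have h14 : 0 ≤ 27 * h ^ 4 - 6 * h ^ 3 - 28 * h ^ 2 + 3 * h + 4 := by
      obtain ⟨k, hk⟩ : ∃ k : ℤ, h = k + 1 := ⟨h - 1, by ring⟩
      have hk0 : 0 ≤ k := by omega
      have h15 : 27 * h ^ 4 - 6 * h ^ 3 - 28 * h ^ 2 + 3 * h + 4 =
          27 * k ^ 4 + 102 * k ^ 3 + 116 * k ^ 2 + 37 * k := by
        rw [hk]
        ring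
      rw [h15]
      positivity
    nlinarith
  have h16 : q * ((d - 3) * (d + 1)) ≤ q * (8 * w) := by linarith
  exact le_of_mul_le_mul_left h16 hqpos

/-- the counting inequality for one curve: each value `v = N / μ` is taken at most
`|S| - L2 / 2` times on `S'` -/
theorem count_ineq {ι : Type} [DecidableEq ι] (S S' : Finset ι) (hS : S' ⊆ S) (N : ι → ℤ)
    (μ : ι → ℕ) (hμ : ∀ i ∈ S, 1 ≤ μ i) (D L2 : ℤ) (hD : ∑ i ∈ S, (μ i : ℤ) ≤ D)
    (hv : ∀ v : ℤ, 2 * ((S'.filter fun i => N i = v * μ i).card : ℤ) ≤ 2 * S.card - L2) :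
    L2 - 2 * ((S.card : ℤ) - S'.card) ≤ 2 * ∑ i ∈ S', |N i| ∧
    ∀ r : ℤ, 2 ≤ r → 2 * r * D - r ^ 2 * (2 * D - L2) - 2 * r * ((S.card : ℤ) - S'.card) ≤
      2 * ∑ i ∈ S', |N i| := by
  constructor
  · have h0 := hv 0
    have h1 : (S'.card : ℤ) = ((S'.filter fun i => N i = 0 * μ i).card : ℤ) +
        ((S'.filter fun i => ¬ N i = 0 * μ i).card : ℤ) := by
      exact_mod_cast (Finset.card_filter_add_card_filter_not (s := S')
        (p := fun i => N i = 0 * μ i)).symm
    have h2 : ((S'.filter fun i => ¬ N i = 0 * μ i).card : ℤ) ≤ ∑ i ∈ S', |N i| := by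
      calc ((S'.filter fun i => ¬ N i = 0 * μ i).card : ℤ)
          = ∑ i ∈ S'.filter fun i => ¬ N i = 0 * μ i, (1 : ℤ) := by simp
        _ ≤ ∑ i ∈ S'.filter fun i => ¬ N i = 0 * μ i, |N i| := by
            refine Finset.sum_le_sum fun i hi => ?_
            have h3 := (Finset.mem_filter.1 hi).2
            rw [zero_mul] at h3
            exact Int.one_le_abs h3
        _ ≤ ∑ i ∈ S', |N i| :=
            Finset.sum_le_sum_of_subset_of_nonneg (Finset.filter_subset _ _)
              fun i _ _ => abs_nonneg _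
    linarith
  · intro r hr
    obtain ⟨n, rfl⟩ := Int.eq_ofNat_of_zero_le (by omega : 0 ≤ r)
    -- the elements with `μ = 1`
    have hcard : (S.card : ℤ) ≤ D := by
      calc (S.card : ℤ) = ∑ i ∈ S, (1 : ℤ) := by simp
        _ ≤ ∑ i ∈ S, (μ i : ℤ) := Finset.sum_le_sum fun i hi => by exact_mod_cast hμ i hi
        _ ≤ D := hD
    have hge2 : ((S'.filter fun i => ¬ μ i = 1).card : ℤ) ≤ D - S.card := by
      calc ((S'.filter fun i => ¬ μ i = 1).card : ℤ)
          ≤ ((S.filter fun i => ¬ μ i = 1).card : ℤ) := by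
            exact_mod_cast Finset.card_le_card (Finset.filter_subset_filter _ hS)
        _ = ∑ i ∈ S.filter fun i => ¬ μ i = 1, (1 : ℤ) := by simp
        _ ≤ ∑ i ∈ S.filter fun i => ¬ μ i = 1, ((μ i : ℤ) - 1) := by
            refine Finset.sum_le_sum fun i hi => ?_
            rw [Finset.mem_filter] at hi
            have := hμ i hi.1
            omega
        _ ≤ ∑ i ∈ S, ((μ i : ℤ) - 1) := by
            refine Finset.sum_le_sum_of_subset_of_nonneg (Finset.filter_subset _ _) ?_
            intro i hi _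
            have := hμ i hi
            omega
        _ ≤ D - S.card := by
            rw [Finset.sum_sub_distrib]
            simp only [Finset.sum_const, nsmul_eq_mul, mul_one]
            linarith
    set T := S'.filter fun i => μ i = 1 with hT
    have hTc : (S'.card : ℤ) = (T.card : ℤ) + ((S'.filter fun i => ¬ μ i = 1).card : ℤ) := by
      exact_mod_cast (Finset.card_filter_add_card_filter_not (s := S')
        (p := fun i => μ i = 1)).symm
    -- few small values
    have hsmall : ∀ v : ℕ, 2 * ((T.filter fun i => |N i| ≤ (v : ℤ)).card : ℤ) ≤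
        (2 * v + 1) * (2 * S.card - L2) := by
      intro v
      have h1 : T.filter (fun i => |N i| ≤ (v : ℤ)) ⊆
          (Finset.Icc (-(v : ℤ)) v).biUnion fun u => S'.filter fun i => N i = u * μ i := by
        intro i hi
        rw [Finset.mem_filter, hT, Finset.mem_filter, abs_le] at hi
        rw [Finset.mem_biUnion]
        refine ⟨N i, Finset.mem_Icc.2 hi.2, ?_⟩
        rw [Finset.mem_filter]
        refine ⟨hi.1.1, ?_⟩
        rw [hi.1.2]
        simp
      have h2 : ((T.filter fun i => |N i| ≤ (v : ℤ)).card : ℤ) ≤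
          ∑ u ∈ Finset.Icc (-(v : ℤ)) v, ((S'.filter fun i => N i = u * μ i).card : ℤ) := by
        have h3 := (Finset.card_le_card h1).trans Finset.card_biUnion_le
        exact_mod_cast h3
      calc 2 * ((T.filter fun i => |N i| ≤ (v : ℤ)).card : ℤ)
          ≤ 2 * ∑ u ∈ Finset.Icc (-(v : ℤ)) v, ((S'.filter fun i => N i = u * μ i).card : ℤ) := by
            linarith
        _ = ∑ u ∈ Finset.Icc (-(v : ℤ)) v, 2 * ((S'.filter fun i => N i = u * μ i).card : ℤ) := by
            rw [Finset.mul_sum]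
        _ ≤ ∑ u ∈ Finset.Icc (-(v : ℤ)) v, (2 * (S.card : ℤ) - L2) :=
            Finset.sum_le_sum fun u _ => hv u
        _ = (2 * v + 1) * (2 * S.card - L2) := by
            rw [Finset.sum_const, Int.card_Icc, nsmul_eq_mul]
            congr 1
            have : ((v : ℤ) + 1 - -(v : ℤ)).toNat = 2 * v + 1 := by omega
            rw [this]
            push_cast
            ring
    -- the sum of the absolute values
    have hsum : ∑ v ∈ Finset.range n, ((T.filter fun i => ¬ |N i| ≤ (v : ℤ)).card : ℤ) ≤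
        ∑ i ∈ S', |N i| := by
      calc ∑ v ∈ Finset.range n, ((T.filter fun i => ¬ |N i| ≤ (v : ℤ)).card : ℤ)
          = ∑ v ∈ Finset.range n, ∑ i ∈ T, (if ¬ |N i| ≤ (v : ℤ) then (1 : ℤ) else 0) := by
            refine Finset.sum_congr rfl fun v _ => ?_
            rw [Finset.sum_boole]
        _ = ∑ i ∈ T, ∑ v ∈ Finset.range n, (if ¬ |N i| ≤ (v : ℤ) then (1 : ℤ) else 0) :=
            Finset.sum_comm
        _ ≤ ∑ i ∈ T, |N i| := by
            refine Finset.sum_le_sum fun i _ => ?_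
            rw [Finset.sum_boole]
            have h1 : (Finset.range n).filter (fun v : ℕ => ¬ |N i| ≤ (v : ℤ)) ⊆
                Finset.range (N i).natAbs := by
              intro v hv'
              rw [Finset.mem_filter, Int.abs_eq_natAbs] at hv'
              rw [Finset.mem_range]
              omega
            have h2 := Finset.card_le_card h1
            rw [Finset.card_range] at h2
            have h3 : ((N i).natAbs : ℤ) = |N i| := (Int.abs_eq_natAbs _).symm
            exact (Int.ofNat_le.2 h2).trans (le_of_eq h3)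
        _ ≤ ∑ i ∈ S', |N i| :=
            Finset.sum_le_sum_of_subset_of_nonneg (Finset.filter_subset _ _)
              fun i _ _ => abs_nonneg _
    have hlower : ∑ v ∈ Finset.range n, (2 * (T.card : ℤ) - (2 * v + 1) * (2 * S.card - L2)) ≤
        2 * ∑ v ∈ Finset.range n, ((T.filter fun i => ¬ |N i| ≤ (v : ℤ)).card : ℤ) := by
      rw [Finset.mul_sum]
      refine Finset.sum_le_sum fun v _ => ?_
      have h1 := hsmall v
      have h2 : (T.card : ℤ) = ((T.filter fun i => |N i| ≤ (v : ℤ)).card : ℤ) +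
          ((T.filter fun i => ¬ |N i| ≤ (v : ℤ)).card : ℤ) := by
        exact_mod_cast (Finset.card_filter_add_card_filter_not (s := T)
          (p := fun i => |N i| ≤ (v : ℤ))).symm
      linarith
    have hodd : ∀ k : ℕ, ∑ v ∈ Finset.range k, (2 * (v : ℤ) + 1) = (k : ℤ) ^ 2 := by
      intro k
      induction k with
      | zero => simp
      | succ k ih =>
        rw [Finset.sum_range_succ, ih]
        push_cast
        ring
    have hlower2 : ∑ v ∈ Finset.range n,
        (2 * (T.card : ℤ) - (2 * v + 1) * (2 * S.card - L2)) =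
        (n : ℤ) * (2 * T.card) - (n : ℤ) ^ 2 * (2 * S.card - L2) := by
      rw [Finset.sum_sub_distrib, ← hodd n, Finset.sum_mul, Finset.sum_const, Finset.card_range,
        nsmul_eq_mul]
    rw [hlower2] at hlower
    have hfin : (n : ℤ) * (2 * (T.card : ℤ)) ≥ n * (2 * ((S'.card : ℤ) + S.card - D)) :=
      mul_le_mul_of_nonneg_left (by linarith) (by omega)
    have hn2 : (2 : ℤ) ≤ n := hr
    have hfin2 : 0 ≤ (2 * D - 2 * (S.card : ℤ)) * ((n : ℤ) * (n - 2)) :=
      mul_nonneg (by linarith) (mul_nonneg (by linarith) (by linarith))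
    nlinarith

end Pool.Agent.LowDeg
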