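import Pool.Agent.LowDeg.PlaneCount
import Pool.Agent.LowDeg.NumIneq

/-! Module G5 (doc section 12): the combinatorial theorem. -/

set_option autoImplicit false

open MvPolynomial

namespace Pool.Agent.LowDeg

namespace PlaneCombAux

open scoped Classical in
/-- a relation covered by the curves of `A`, multiplied by the product of the forms of
`A.erase j`, bounds from below the number of its points which only lie on the curve `j` -/
theorem count_T {k : Type} [Field k] [CharZero k] {n : ℕ}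
    {J : Type} (G : J → MvPolynomial (Fin 3) k) (h : J → ℕ)
    (hG : ∀ j, Irreducible (G j) ∧ (G j).IsHomogeneous (h j) ∧ 1 ≤ h j)
    {ι : Type} [Fintype ι] (u : ι → Fin 3 → k) (hu : PairNP u)
    (c : ι → k)
    (hcr : ∀ f : MvPolynomial (Fin 3) k, f.IsHomogeneous n → ∑ i, c i * eval (u i) f = 0)
    (A : Finset J) (j : J) (hj : j ∈ A)
    (hcov : ∀ i, c i ≠ 0 → ∃ l ∈ A, eval (u i) (G l) = 0)
    (hn : 6 * ∑ l ∈ A, h l ≤ n + 4)
    (T : Finset ι)
    (hT : ∀ i, i ∈ T ↔ c i ≠ 0 ∧ ∀ l ∈ A.erase j, eval (u i) (G l) ≠ 0)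
    (hne : T.Nonempty) :
    (h j : ℤ) * (2 * n - 2 * ((∑ l ∈ A, h l : ℕ) : ℤ) + 7 - h j) ≤ 2 * T.card := by
  set g : MvPolynomial (Fin 3) k := ∏ l ∈ A.erase j, G l with hg
  have hgh : g.IsHomogeneous (∑ l ∈ A.erase j, h l) :=
    MvPolynomial.IsHomogeneous.prod _ _ _ fun l _ => (hG l).2.1
  have hsum : ∑ l ∈ A.erase j, h l + h j = ∑ l ∈ A, h l := Finset.sum_erase_add _ _ hj
  have hj1 := (hG j).2.2
  have hge : ∀ i, eval (u i) g = ∏ l ∈ A.erase j, eval (u i) (G l) := by
    intro i
    rw [hg, map_prod]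
  have hge0 : ∀ i, eval (u i) g ≠ 0 ↔ ∀ l ∈ A.erase j, eval (u i) (G l) ≠ 0 := by
    intro i
    rw [hge, Finset.prod_ne_zero_iff]
  obtain ⟨m, hm⟩ : ∃ m, m + ∑ l ∈ A.erase j, h l = n :=
    ⟨n - ∑ l ∈ A.erase j, h l, by omega⟩
  have hNR : NR (fun i : {i // i ∈ T} => u i) m := by
    refine ⟨fun i => c i * eval (u i) g, ?_, ?_⟩
    · intro i
      have := (hT i).1 i.2
      exact mul_ne_zero this.1 ((hge0 _).2 this.2)
    · intro f hf
      have h1 := hcr (f * g) (by
        rw [← hm]
        exact hf.mul hgh)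
      rw [← Finset.sum_subset (Finset.subset_univ T)] at h1
      · rw [← h1, ← Finset.sum_coe_sort T]
        refine Finset.sum_congr rfl fun i _ => ?_
        rw [map_mul]
        ring
      · intro i _ hi
        by_contra hne0
        apply hi
        rw [hT, ← hge0]
        refine ⟨left_ne_zero_of_mul hne0, ?_⟩
        have := right_ne_zero_of_mul hne0
        rw [map_mul] at this
        exact right_ne_zero_of_mul this
  haveI : Nonempty {i // i ∈ T} := ⟨⟨hne.choose, hne.choose_spec⟩⟩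
  have hu' : PairNP (fun i : {i // i ∈ T} => u i) :=
    ⟨fun i => hu.1 i, fun i i' hii r => hu.2 i i' (fun h => hii (Subtype.ext h)) r⟩
  have hp := plane_count (fun i : {i // i ∈ T} => u i) hu' (m := m) (h := h j)
    (N := m + 2 - h j) hNR (by omega) (G j) (hG j).2.1 (hG j).1 (by
      intro i
      have := (hT i).1 i.2
      obtain ⟨l, hl, hl0⟩ := hcov i this.1
      by_cases hlj : l = j
      · rw [← hlj]; exact hl0
      · exact absurd hl0 (this.2 l (Finset.mem_erase.2 ⟨hlj, hl⟩)))
  rw [Fintype.card_coe] at hp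
  have e1 : (m : ℤ) = n - ((∑ l ∈ A, h l : ℕ) : ℤ) + h j := by
    rw [← hm, ← hsum]
    push_cast
    ring
  rw [e1] at hp
  calc _ = (h j : ℤ) * (2 * (n - ((∑ l ∈ A, h l : ℕ) : ℤ) + h j) + 7 - 3 * h j) := by ring
    _ ≤ _ := hp

open scoped Classical in
theorem main {k : Type} [Field k] [CharZero k] {n d : ℕ} (hd : d = n + 4)
    {J : Type} [Fintype J] (G : J → MvPolynomial (Fin 3) k) (h : J → ℕ)
    (hG : ∀ j, Irreducible (G j) ∧ (G j).IsHomogeneous (h j) ∧ 1 ≤ h j)
    (hh : 6 * ∑ j, h j ≤ d)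
    {ι : Type} [Fintype ι] (u : ι → Fin 3 → k) (hu : PairNP u) (Jc : ι → k)
    (hJ : ∀ i, Jc i ≠ 0) (μ : J → ι → ℕ) (hμ : ∀ j i, μ j i ≠ 0 ↔ eval (u i) (G j) = 0)
    (hμd : ∀ j, ∑ i, μ j i ≤ d * h j)
    (hμr : ∀ j (f : MvPolynomial (Fin 3) k), f.IsHomogeneous n →
      ∑ i, (μ j i : k) * (Jc i * eval (u i) f) = 0)
    (i₀ : Option ι) (A : Finset J) :
    ∀ (N : ι → ℤ) (ν : ι → k) (_ : ∀ i, some i ≠ i₀ → ν i = N i)
    (_ : ∀ f : MvPolynomial (Fin 3) k, f.IsHomogeneous n →
      ∑ i, ν i * (Jc i * eval (u i) f) = 0)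
    (_ : ∀ i, ν i ≠ 0 → ∃ j ∈ A, eval (u i) (G j) = 0)
    (_ : 8 * ∑ i ∈ Finset.univ.filter (fun i => some i ≠ i₀), |N i| <
      ((d : ℤ) - 3) * (d + 1)),
    ∃ κ : J → ℤ, ∀ i, ν i = ∑ j, (κ j : k) * μ j i := by
  induction A using Finset.strongInduction with
  | H A ih =>
  intro N ν hν hνr hcov hw
  -- the case of a smaller cover
  by_cases hmin : ∃ j ∈ A, ∀ i, ν i ≠ 0 → ∃ l ∈ A.erase j, eval (u i) (G l) = 0
  · obtain ⟨j, hj, hc⟩ := hmin
    exact ih (A.erase j) (Finset.erase_ssubset hj) N ν hν hνr hc hw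
  push Not at hmin
  -- the empty case
  rcases A.eq_empty_or_nonempty with hA | hA
  · refine ⟨0, fun i => ?_⟩
    by_contra hne
    have : ν i ≠ 0 := by
      intro h0
      apply hne
      simp [h0]
    obtain ⟨j, hj, -⟩ := hcov i this
    simp [hA] at hj
  -- notation
  have hd6 : 6 * ∑ l ∈ A, h l ≤ n + 4 := by
    have : ∑ l ∈ A, h l ≤ ∑ l, h l := Finset.sum_le_sum_of_subset (Finset.subset_univ A)
    omega
  set H : ℕ := ∑ l ∈ A, h l with hH
  let S : J → Finset ι := fun j => Finset.univ.filter fun i =>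
    eval (u i) (G j) = 0 ∧ ∀ l ∈ A.erase j, eval (u i) (G l) ≠ 0
  have hS : ∀ j i, i ∈ S j ↔ eval (u i) (G j) = 0 ∧ ∀ l ∈ A.erase j, eval (u i) (G l) ≠ 0 := by
    intro j i
    simp [S]
  let T : J → ℤ → Finset ι := fun j v => (S j).filter fun i => ν i ≠ v * μ j i
  have hT : ∀ j v i, i ∈ T j v ↔ i ∈ S j ∧ ν i ≠ v * μ j i := by
    intro j v i
    simp only [T, Finset.mem_filter]
  -- the count
  have hcount : ∀ j ∈ A, ∀ v : ℤ, (T j v).Nonempty →
      (h j : ℤ) * (2 * n - 2 * (H : ℤ) + 7 - h j) ≤ 2 * (T j v).card := by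
    intro j hj v hne
    have hcovc : ∀ i, (ν i - v * μ j i) * Jc i ≠ 0 → ∃ l ∈ A, eval (u i) (G l) = 0 := by
      intro i hi
      have h1 := left_ne_zero_of_mul hi
      by_cases h0 : ν i = 0
      · rw [h0, zero_sub, neg_ne_zero] at h1
        have h2 : μ j i ≠ 0 := by
          intro h3
          apply h1
          simp [h3]
        exact ⟨j, hj, (hμ j i).1 h2⟩
      · exact hcov i h0
    refine count_T G h hG u hu (fun i => (ν i - v * μ j i) * Jc i) ?_ A j hj hcovc hd6
      (T j v) ?_ hne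
    · intro f hf
      have h1 := hνr f hf
      have h2 := hμr j f hf
      calc ∑ i, (ν i - v * μ j i) * Jc i * eval (u i) f
          = ∑ i, ν i * (Jc i * eval (u i) f) - v * ∑ i, (μ j i : k) * (Jc i * eval (u i) f) := by
            rw [Finset.mul_sum, ← Finset.sum_sub_distrib]
            exact Finset.sum_congr rfl fun i _ => by ring
        _ = 0 := by rw [h1, h2]; simp
    · intro i
      rw [hT, hS]
      constructor
      · rintro ⟨⟨h1, h2⟩, h3⟩
        exact ⟨mul_ne_zero (sub_ne_zero.2 h3) (hJ i), h2⟩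
      · rintro ⟨h1, h2⟩
        refine ⟨⟨?_, h2⟩, sub_ne_zero.1 (left_ne_zero_of_mul h1)⟩
        obtain ⟨l, hl, hl0⟩ := hcovc i h1
        by_cases hlj : l = j
        · rw [← hlj]; exact hl0
        · exact absurd hl0 (h2 l (Finset.mem_erase.2 ⟨hlj, hl⟩))
  -- the sets `S j` are nonempty, with many elements
  have hSj : ∀ j ∈ A, (h j : ℤ) * (2 * n - 2 * (H : ℤ) + 7 - h j) ≤ 2 * (S j).card := by
    intro j hj
    obtain ⟨i, hi, hi'⟩ := hmin j hj
    have hiT : i ∈ T j 0 := by
      rw [hT, hS]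
      refine ⟨⟨?_, hi'⟩, by simpa using hi⟩
      obtain ⟨l, hl, hl0⟩ := hcov i hi
      by_cases hlj : l = j
      · rw [← hlj]; exact hl0
      · exact absurd hl0 (hi' l (Finset.mem_erase.2 ⟨hlj, hl⟩))
    refine (hcount j hj 0 ⟨i, hiT⟩).trans ?_
    have : (T j 0).card ≤ (S j).card := Finset.card_le_card (Finset.filter_subset _ _)
    exact_mod_cast Nat.mul_le_mul_left 2 this
  have hhj : ∀ j ∈ A, h j ≤ H := fun j hj =>
    Finset.single_le_sum (f := h) (fun _ _ => Nat.zero_le _) hj
  have hSd : ∀ j ∈ A, (d : ℤ) * h j + 1 ≤ 2 * (S j).card := by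
    intro j hj
    refine le_trans ?_ (hSj j hj)
    have h1 := (hG j).2.2
    have h2 := hhj j hj
    have h3 : (1 : ℤ) ≤ h j := by exact_mod_cast h1
    have h4 : (h j : ℤ) ≤ H := by exact_mod_cast h2
    have h5 : 6 * (H : ℤ) ≤ n + 4 := by exact_mod_cast hd6
    have h6 : (d : ℤ) = n + 4 := by rw [hd]; push_cast; ring
    rw [h6]
    nlinarith
  -- splitting off the exceptional point
  let S' : J → Finset ι := fun j => (S j).filter fun i => some i ≠ i₀
  have hS'sub : ∀ j, S' j ⊆ S j := fun j => Finset.filter_subset _ _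
  have hS'mem : ∀ j i, i ∈ S' j ↔ i ∈ S j ∧ some i ≠ i₀ := by
    intro j i
    simp only [S', Finset.mem_filter]
  have hdisj : ∀ j ∈ A, ∀ l ∈ A, j ≠ l → ∀ i, i ∈ S j → i ∉ S l := by
    intro j hj l hl hjl i hi hi'
    exact ((hS j i).1 hi).2 l (Finset.mem_erase.2 ⟨hjl.symm, hl⟩) ((hS l i).1 hi').1
  have hμ1 : ∀ j i, i ∈ S j → (1 : ℤ) ≤ μ j i := by
    intro j i hi
    exact_mod_cast Nat.one_le_iff_ne_zero.2 ((hμ j i).2 ((hS j i).1 hi).1)
  have hsd : ∀ j i, i ∈ S j \ S' j → some i = i₀ := by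
    intro j i hi
    rw [Finset.mem_sdiff, hS'mem] at hi
    by_contra hne
    exact hi.2 ⟨hi.1, hne⟩
  have hsd1 : ∀ j, (S j \ S' j).card ≤ 1 := by
    intro j
    rw [Finset.card_le_one]
    intro a ha b hb
    have := (hsd j a ha).trans (hsd j b hb).symm
    exact Option.some_injective _ this
  by_cases hb : ∃ j ∈ A, ∃ v : ℤ, T j v = ∅
  · -- subtract a multiple of `μ j`
    obtain ⟨j, hj, v, hTv⟩ := hb
    have hTv' : ∀ i ∈ S j, ν i = v * μ j i := by
      intro i hi
      by_contra hne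
      have : i ∈ T j v := (hT j v i).2 ⟨hi, hne⟩
      rw [hTv] at this
      simp at this
    obtain ⟨κ, hκ⟩ := ih (A.erase j) (Finset.erase_ssubset hj) (fun i => N i - v * μ j i)
      (fun i => ν i - v * μ j i) (by
        intro i hi
        rw [hν i hi]
        push_cast
        ring) (by
        intro f hf
        have h1 := hνr f hf
        have h2 := hμr j f hf
        calc ∑ i, (ν i - v * μ j i) * (Jc i * eval (u i) f)
            = ∑ i, ν i * (Jc i * eval (u i) f) - v * ∑ i, (μ j i : k) * (Jc i * eval (u i) f) := by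
              rw [Finset.mul_sum, ← Finset.sum_sub_distrib]
              exact Finset.sum_congr rfl fun i _ => by ring
          _ = 0 := by rw [h1, h2]; simp) (by
        intro i hi
        by_contra hcon
        push Not at hcon
        have h1 : ∃ l ∈ A, eval (u i) (G l) = 0 := by
          by_cases h0 : ν i = 0
          · rw [h0, zero_sub, neg_ne_zero] at hi
            have h2 : μ j i ≠ 0 := by
              intro h3
              apply hi
              simp [h3]
            exact ⟨j, hj, (hμ j i).1 h2⟩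
          · exact hcov i h0
        obtain ⟨l, hl, hl0⟩ := h1
        have hlj : l = j := by
          by_contra hlj
          exact hcon l (Finset.mem_erase.2 ⟨hlj, hl⟩) hl0
        rw [hlj] at hl0
        exact hi (sub_eq_zero.2 (hTv' i ((hS j i).2 ⟨hl0, hcon⟩)))) (by
        refine lt_of_le_of_lt ?_ hw
        refine mul_le_mul_of_nonneg_left ?_ (by norm_num)
        -- the weight does not increase
        set U : Finset ι := Finset.univ.filter (fun i => some i ≠ i₀) with hU
        have hsub : S' j ⊆ U := by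
          intro i hi
          rw [hU, Finset.mem_filter]
          exact ⟨Finset.mem_univ _, ((hS'mem j i).1 hi).2⟩
        have hN : ∀ i ∈ S' j, N i = v * μ j i := by
          intro i hi
          have h1 := (hS'mem j i).1 hi
          have h2 := hTv' i h1.1
          rw [hν i h1.2] at h2
          exact_mod_cast h2
        rw [← Finset.sum_sdiff hsub, ← Finset.sum_sdiff hsub]
        have e1 : ∑ i ∈ S' j, |N i - v * μ j i| = 0 := by
          apply Finset.sum_eq_zero
          intro i hi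
          rw [hN i hi]
          simp
        have e2 : ∑ i ∈ S' j, |N i| = |v| * ∑ i ∈ S' j, (μ j i : ℤ) := by
          rw [Finset.mul_sum]
          refine Finset.sum_congr rfl fun i hi => ?_
          rw [hN i hi, abs_mul, Nat.abs_cast]
        have e3 : ∑ i ∈ U \ S' j, |N i - v * μ j i| ≤
            ∑ i ∈ U \ S' j, |N i| + |v| * ∑ i ∈ U \ S' j, (μ j i : ℤ) := by
          rw [Finset.mul_sum, ← Finset.sum_add_distrib]
          refine Finset.sum_le_sum fun i _ => ?_
          calc |N i - v * μ j i| ≤ |N i| + |v * μ j i| := abs_sub _ _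
            _ = _ := by rw [abs_mul, Nat.abs_cast]
        have e4 : ∑ i ∈ U \ S' j, (μ j i : ℤ) ≤ ∑ i ∈ S' j, (μ j i : ℤ) := by
          have f1 : ((S j \ S' j).card : ℤ) ≤ ∑ i ∈ S j \ S' j, (μ j i : ℤ) := by
            rw [Finset.cast_card]
            exact Finset.sum_le_sum fun i hi => hμ1 j i (Finset.mem_sdiff.1 hi).1
          have f2 : ((S' j).card : ℤ) ≤ ∑ i ∈ S' j, (μ j i : ℤ) := by
            rw [Finset.cast_card]
            exact Finset.sum_le_sum fun i hi => hμ1 j i (hS'sub j hi)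
          have f3 : ((S j \ S' j).card : ℤ) + (S' j).card = (S j).card := by
            exact_mod_cast Finset.card_sdiff_add_card_eq_card (hS'sub j)
          have f4 : ∑ i ∈ U \ S' j, (μ j i : ℤ) + ∑ i ∈ S' j, (μ j i : ℤ) =
              ∑ i ∈ U, (μ j i : ℤ) := Finset.sum_sdiff hsub
          have f5 : ∑ i ∈ U, (μ j i : ℤ) + ∑ i ∈ S j \ S' j, (μ j i : ℤ) ≤ d * h j := by
            have hdis : Disjoint U (S j \ S' j) := by
              rw [Finset.disjoint_left]
              intro i hi hi'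
              exact (Finset.mem_filter.1 hi).2 (hsd j i hi')
            rw [← Finset.sum_union hdis]
            calc ∑ i ∈ U ∪ (S j \ S' j), (μ j i : ℤ) ≤ ∑ i, (μ j i : ℤ) :=
                  Finset.sum_le_sum_of_subset_of_nonneg (Finset.subset_univ _)
                    (fun i _ _ => Int.natCast_nonneg _)
              _ ≤ d * h j := by exact_mod_cast hμd j
          have f6 := hSd j hj
          have f7 : ((S j \ S' j).card : ℤ) ≤ 1 := by exact_mod_cast hsd1 j
          linarith
        rw [e1, e2]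
        have := mul_le_mul_of_nonneg_left e4 (abs_nonneg v)
        linarith)
    refine ⟨fun l => κ l + if l = j then v else 0, fun i => ?_⟩
    have h1 := hκ i
    have h2 : ν i = ∑ l, (κ l : k) * μ l i + v * μ j i := by
      rw [← h1]; ring
    rw [h2]
    push_cast
    simp only [add_mul, Finset.sum_add_distrib]
    congr 1
    simp [Finset.sum_ite_eq']
  · -- the count of all the points contradicts the bound on the weight
    exfalso
    push Not at hb
    set U : Finset ι := Finset.univ.filter (fun i => some i ≠ i₀) with hU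
    have hci : ∀ j ∈ A, _ := fun j hj =>
      count_ineq (S j) (S' j) (hS'sub j) N (μ j) (fun i hi => by exact_mod_cast hμ1 j i hi)
        ((d : ℤ) * h j) ((h j : ℤ) * (2 * n - 2 * (H : ℤ) + 7 - h j))
        (by
          calc ∑ i ∈ S j, (μ j i : ℤ) ≤ ∑ i, (μ j i : ℤ) :=
                Finset.sum_le_sum_of_subset_of_nonneg (Finset.subset_univ _)
                  (fun i _ _ => Int.natCast_nonneg _)
            _ ≤ d * h j := by exact_mod_cast hμd j)
        (by
          intro v
          have g1 := hcount j hj v (hb j hj v)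
          have g2 : (S' j).filter (fun i => N i = v * μ j i) ⊆ S j \ T j v := by
            intro i hi
            rw [Finset.mem_filter] at hi
            rw [Finset.mem_sdiff, hT]
            have h1 := (hS'mem j i).1 hi.1
            refine ⟨h1.1, fun h2 => h2.2 ?_⟩
            rw [hν i h1.2, hi.2]
            push_cast
            ring
          have g3 := Finset.card_le_card g2
          have g4 : (S j \ T j v).card + (T j v).card = (S j).card :=
            Finset.card_sdiff_add_card_eq_card (Finset.filter_subset _ _)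
          have g5 : (((S' j).filter (fun i => N i = v * μ j i)).card : ℤ) ≤
              (S j \ T j v).card := by exact_mod_cast g3
          have g6 : ((S j \ T j v).card : ℤ) + (T j v).card = (S j).card := by
            exact_mod_cast g4
          linarith)
    -- the sums over the curves
    have hδ : ∀ j, ((S j).card : ℤ) - (S' j).card = ((S j \ S' j).card : ℤ) := by
      intro j
      have : ((S j \ S' j).card : ℤ) + (S' j).card = (S j).card := by
        exact_mod_cast Finset.card_sdiff_add_card_eq_card (hS'sub j)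
      linarith
    have hδ1 : ∑ j ∈ A, ((S j \ S' j).card : ℤ) ≤ 1 := by
      have hdis : (A : Set J).PairwiseDisjoint (fun j => S j \ S' j) := by
        intro j hj l hl hjl
        change Disjoint (S j \ S' j) (S l \ S' l)
        rw [Finset.disjoint_left]
        intro i hi hi'
        exact hdisj j hj l hl hjl i (Finset.mem_sdiff.1 hi).1 (Finset.mem_sdiff.1 hi').1
      have h1 := Finset.card_biUnion hdis
      have h2 : (A.biUnion fun j => S j \ S' j).card ≤ 1 := by
        rw [Finset.card_le_one]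
        intro a ha b hb
        rw [Finset.mem_biUnion] at ha hb
        obtain ⟨j, -, ha⟩ := ha
        obtain ⟨l, -, hb⟩ := hb
        have := (hsd j a ha).trans (hsd l b hb).symm
        exact Option.some_injective _ this
      rw [h1] at h2
      exact_mod_cast h2
    have hδ0 : 0 ≤ ∑ j ∈ A, ((S j \ S' j).card : ℤ) :=
      Finset.sum_nonneg fun _ _ => Int.natCast_nonneg _
    have hwt : ∑ j ∈ A, ∑ i ∈ S' j, |N i| ≤ ∑ i ∈ U, |N i| := by
      have hdis : (A : Set J).PairwiseDisjoint S' := by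
        intro j hj l hl hjl
        change Disjoint (S' j) (S' l)
        rw [Finset.disjoint_left]
        intro i hi hi'
        exact hdisj j hj l hl hjl i (hS'sub j hi) (hS'sub l hi')
      rw [← Finset.sum_biUnion hdis]
      refine Finset.sum_le_sum_of_subset_of_nonneg ?_ (fun i _ _ => abs_nonneg _)
      intro i hi
      rw [Finset.mem_biUnion] at hi
      obtain ⟨j, -, hi⟩ := hi
      rw [hU, Finset.mem_filter]
      exact ⟨Finset.mem_univ _, ((hS'mem j i).1 hi).2⟩
    have hHs : (H : ℤ) = ∑ j ∈ A, (h j : ℤ) := by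
      rw [hH]; push_cast; rfl
    have hsq : ∑ j ∈ A, (h j : ℤ) * h j ≤ H * H := by
      calc ∑ j ∈ A, (h j : ℤ) * h j ≤ ∑ j ∈ A, (h j : ℤ) * H := by
            refine Finset.sum_le_sum fun j hj => ?_
            exact mul_le_mul_of_nonneg_left (by exact_mod_cast hhj j hj) (Int.natCast_nonneg _)
        _ = H * H := by rw [← Finset.sum_mul, ← hHs]
    have hd' : (d : ℤ) = n + 4 := by rw [hd]; push_cast; ring
    have hL : ∑ j ∈ A, (h j : ℤ) * (2 * n - 2 * (H : ℤ) + 7 - h j) =
        H * (2 * d - 1 - 2 * H) - ∑ j ∈ A, (h j : ℤ) * h j := by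
      rw [hHs, Finset.sum_mul, ← Finset.sum_sub_distrib]
      refine Finset.sum_congr rfl fun j _ => ?_
      rw [← hHs, hd']
      ring
    have hD : ∑ j ∈ A, (d : ℤ) * h j = d * H := by
      rw [← Finset.mul_sum, ← hHs]
    have hmain := num_ineq (d : ℤ) (H : ℤ) (∑ i ∈ U, |N i|) (by
        obtain ⟨j, hj⟩ := hA
        have := hhj j hj
        have := (hG j).2.2
        have : 1 ≤ H := by omega
        exact_mod_cast this) (by rw [hd']; exact_mod_cast hd6) (by
        have s1 : ∑ j ∈ A, ((h j : ℤ) * (2 * n - 2 * (H : ℤ) + 7 - h j) -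
            2 * (((S j).card : ℤ) - (S' j).card)) ≤ ∑ j ∈ A, 2 * ∑ i ∈ S' j, |N i| :=
          Finset.sum_le_sum fun j hj => (hci j hj).1
        rw [Finset.sum_sub_distrib, ← Finset.mul_sum, ← Finset.mul_sum, hL,
          Finset.sum_congr rfl fun j _ => hδ j] at s1
        nlinarith) (by
        intro r hr
        have s1 : ∑ j ∈ A, (2 * r * ((d : ℤ) * h j) - r ^ 2 * (2 * ((d : ℤ) * h j) -
            (h j : ℤ) * (2 * n - 2 * (H : ℤ) + 7 - h j)) -
            2 * r * (((S j).card : ℤ) - (S' j).card)) ≤ ∑ j ∈ A, 2 * ∑ i ∈ S' j, |N i| :=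
          Finset.sum_le_sum fun j hj => (hci j hj).2 r hr
        have s0 : ∑ j ∈ A, 2 * ∑ i ∈ S' j, |N i| = 2 * ∑ j ∈ A, ∑ i ∈ S' j, |N i| :=
          (Finset.mul_sum _ _ _).symm
        rw [s0, Finset.sum_sub_distrib, Finset.sum_sub_distrib, ← Finset.mul_sum,
          ← Finset.mul_sum, ← Finset.mul_sum, ← Finset.mul_sum, Finset.sum_sub_distrib,
          ← Finset.mul_sum, hL, hD,
          Finset.sum_congr rfl fun j _ => hδ j, ← hHs] at s1
        have s2 : r ^ 2 * ((H : ℤ) * (1 + 2 * H) + ∑ j ∈ A, (h j : ℤ) * h j) ≤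
            r ^ 2 * ((H : ℤ) * (1 + 3 * H)) :=
          mul_le_mul_of_nonneg_left (by linarith) (sq_nonneg r)
        have s3 : 2 * r * ∑ j ∈ A, ((S j \ S' j).card : ℤ) ≤ 2 * r * 1 :=
          mul_le_mul_of_nonneg_left hδ1 (by linarith)
        linarith)
    linarith

end PlaneCombAux

open scoped Classical in
/-- (COMB) -/
theorem plane_comb {k : Type} [Field k] [CharZero k] {n d : ℕ} (hd : d = n + 4)
    {J : Type} [Fintype J] (G : J → MvPolynomial (Fin 3) k) (h : J → ℕ)
    (hG : ∀ j, Irreducible (G j) ∧ (G j).IsHomogeneous (h j) ∧ 1 ≤ h j)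
    (hna : ∀ i j, i ≠ j → ¬ Associated (G i) (G j)) (hh : 6 * ∑ j, h j ≤ d)
    {ι : Type} [Fintype ι] (u : ι → Fin 3 → k) (hu : PairNP u) (Jc : ι → k)
    (hJ : ∀ i, Jc i ≠ 0) (μ : J → ι → ℕ) (hμ : ∀ j i, μ j i ≠ 0 ↔ eval (u i) (G j) = 0)
    (hμd : ∀ j, ∑ i, μ j i ≤ d * h j)
    (hμr : ∀ j (f : MvPolynomial (Fin 3) k), f.IsHomogeneous n →
      ∑ i, (μ j i : k) * (Jc i * eval (u i) f) = 0)
    (i₀ : Option ι) (N : ι → ℤ) (ν : ι → k) (hν : ∀ i, some i ≠ i₀ → ν i = N i)
    (hνr : ∀ f : MvPolynomial (Fin 3) k, f.IsHomogeneous n →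
      ∑ i, ν i * (Jc i * eval (u i) f) = 0)
    (hcov : ∀ i, ν i ≠ 0 → ∃ j, eval (u i) (G j) = 0)
    (hw : 8 * ∑ i ∈ Finset.univ.filter (fun i => some i ≠ i₀), |N i| <
      ((d : ℤ) - 3) * (d + 1)) :
    ∃ κ : J → ℤ, ∀ i, ν i = ∑ j, (κ j : k) * μ j i :=
  PlaneCombAux.main hd G h hG hh u hu Jc hJ μ hμ hμd hμr i₀ Finset.univ N ν hν hνr
    (fun i hi => (hcov i hi).imp fun j hj => ⟨Finset.mem_univ j, hj⟩) hw

end Pool.Agent.LowDeg
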