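import Pool.Agent.LowDeg.Defs

/-! Module B2 (doc section 5): smoothness over extensions, the residue form. -/

set_option autoImplicit false

open MvPolynomial

namespace Pool.Agent.LowDeg

variable {K : Type} [Field K] [Algebra ℂ K]

namespace SmoothExtAux

theorem det4_expand {R : Type*} [CommRing R] (a b c d : Fin 4 → R) :
    det4 a b c d =
      a 0 * (b 1 * (c 2 * d 3 - c 3 * d 2) - b 2 * (c 1 * d 3 - c 3 * d 1)
        + b 3 * (c 1 * d 2 - c 2 * d 1))
      - a 1 * (b 0 * (c 2 * d 3 - c 3 * d 2) - b 2 * (c 0 * d 3 - c 3 * d 0)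
        + b 3 * (c 0 * d 2 - c 2 * d 0))
      + a 2 * (b 0 * (c 1 * d 3 - c 3 * d 1) - b 1 * (c 0 * d 3 - c 3 * d 0)
        + b 3 * (c 0 * d 1 - c 1 * d 0))
      - a 3 * (b 0 * (c 1 * d 2 - c 2 * d 1) - b 1 * (c 0 * d 2 - c 2 * d 0)
        + b 2 * (c 0 * d 1 - c 1 * d 0)) := by
  simp [det4, Matrix.det_succ_row_zero, Fin.sum_univ_succ, Fin.succAbove]
  ring

omit [Algebra ℂ K] in
theorem det4_add_left (v v' b c d : Fin 4 → K) :
    det4 (v + v') b c d = det4 v b c d + det4 v' b c d := by
  simp only [det4_expand, Pi.add_apply]; ring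

omit [Algebra ℂ K] in
theorem det4_smul_left (t : K) (v b c d : Fin 4 → K) :
    det4 (t • v) b c d = t * det4 v b c d := by
  simp only [det4_expand, Pi.smul_apply, smul_eq_mul]; ring

omit [Algebra ℂ K] in
theorem det4_scale (v z a b : Fin 4 → K) (c x y : K) :
    det4 v (c • z) (c • a + x • z) (c • b + y • z) = c ^ 3 * det4 v z a b := by
  simp only [det4_expand, Pi.smul_apply, smul_eq_mul, Pi.add_apply]; ring

omit [Algebra ℂ K] in
theorem det4_comb (v z a b : Fin 4 → K) (α β γ δ : K) :
    det4 v z (α • a + β • b) (γ • a + δ • b) = (α * δ - β * γ) * det4 v z a b := by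
  simp only [det4_expand, Pi.smul_apply, smul_eq_mul, Pi.add_apply]; ring

omit [Algebra ℂ K] in
theorem det4_mulVec (A : Matrix (Fin 4) (Fin 4) K) (a b c d : Fin 4 → K) :
    det4 (A.mulVec a) (A.mulVec b) (A.mulVec c) (A.mulVec d) = A.det * det4 a b c d := by
  have h : (Matrix.of ![A.mulVec a, A.mulVec b, A.mulVec c, A.mulVec d] : Matrix _ _ K) =
      Matrix.of ![a, b, c, d] * A.transpose := by
    ext i j
    fin_cases i <;> simp [Matrix.mul_apply, Matrix.mulVec, dotProduct, mul_comm]
  rw [det4, h, Matrix.det_mul, Matrix.det_transpose, det4, mul_comm]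

theorem dF_add (F : MvPolynomial (Fin 4) ℂ) (z v v' : Fin 4 → K) :
    dF F z (v + v') = dF F z v + dF F z v' := by
  simp only [dF, Pi.add_apply, add_mul, Finset.sum_add_distrib]

theorem dF_smul (F : MvPolynomial (Fin 4) ℂ) (z v : Fin 4 → K) (t : K) :
    dF F z (t • v) = t * dF F z v := by
  simp only [dF, Pi.smul_apply, smul_eq_mul, Finset.mul_sum, mul_assoc]

theorem dF_sub (F : MvPolynomial (Fin 4) ℂ) (z v v' : Fin 4 → K) :
    dF F z (v - v') = dF F z v - dF F z v' := by
  simp only [dF, Pi.sub_apply, sub_mul, Finset.sum_sub_distrib]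

/-- `dF F z` as a linear map. -/
noncomputable def dFlin (F : MvPolynomial (Fin 4) ℂ) (z : Fin 4 → K) : (Fin 4 → K) →ₗ[K] K where
  toFun := dF F z
  map_add' := dF_add F z
  map_smul' := fun t v => dF_smul F z v t

theorem dFlin_apply (F : MvPolynomial (Fin 4) ℂ) (z v : Fin 4 → K) : dFlin F z v = dF F z v := rfl

theorem aeval_smul_hom {G : MvPolynomial (Fin 4) ℂ} {n : ℕ} (hG : G.IsHomogeneous n) (c : K)
    (z : Fin 4 → K) : aeval (c • z) G = c ^ n * aeval z G := by
  rw [aeval_def, aeval_def, eval₂_eq', eval₂_eq', Finset.mul_sum]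
  refine Finset.sum_congr rfl fun m hm => ?_
  have hn : n = ∑ i, m i := by
    rw [hG.degree_eq_sum_deg_support hm]
    refine Finset.sum_subset (Finset.subset_univ _) fun i _ hi => ?_
    simpa using hi
  simp only [Pi.smul_apply, smul_eq_mul, mul_pow, Finset.prod_mul_distrib]
  rw [Finset.prod_pow_eq_pow_sum, ← hn]
  ring

/-- If `dF F z ≠ 0` and the four vectors are killed by `dF F z`, the determinant vanishes. -/
theorem det4_eq_zero (F : MvPolynomial (Fin 4) ℂ) (z : Fin 4 → K)
    (hne : ∃ i, aeval z (pderiv i F) ≠ 0) (a b c d : Fin 4 → K)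
    (ha : dF F z a = 0) (hb : dF F z b = 0) (hc : dF F z c = 0) (hd : dF F z d = 0) :
    det4 a b c d = 0 := by
  rw [det4, ← Matrix.exists_mulVec_eq_zero_iff]
  refine ⟨fun i => aeval z (pderiv i F), ?_, ?_⟩
  · obtain ⟨i, hi⟩ := hne
    intro h
    exact hi (congrFun h i)
  · ext i
    fin_cases i
    · simpa [Matrix.mulVec, dotProduct, dF] using ha
    · simpa [Matrix.mulVec, dotProduct, dF] using hb
    · simpa [Matrix.mulVec, dotProduct, dF] using hc
    · simpa [Matrix.mulVec, dotProduct, dF] using hd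

theorem exists_dF_ne (F : MvPolynomial (Fin 4) ℂ) (z : Fin 4 → K)
    (hne : ∃ i, aeval z (pderiv i F) ≠ 0) : ∃ e, dF F z e ≠ 0 := by
  obtain ⟨i, hi⟩ := hne
  refine ⟨Pi.single i 1, ?_⟩
  rw [dF, Finset.sum_eq_single i]
  · simpa using hi
  · intro j _ hj
    simp [hj]
  · intro h; exact absurd (Finset.mem_univ i) h

end SmoothExtAux

open SmoothExtAux

/-- Euler's formula. -/
theorem dF_self {F : MvPolynomial (Fin 4) ℂ} {d : ℕ} (hF : F.IsHomogeneous d) (z : Fin 4 → K) :
    dF F z z = d * aeval z F := by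
  have h := congrArg (aeval z) hF.sum_X_mul_pderiv
  simpa [dF, map_sum] using h

/-- Chain rule. -/
theorem der_aeval (F : MvPolynomial (Fin 4) ℂ) (D : Derivation ℂ K K) (z : Fin 4 → K) :
    D (aeval z F) = dF F z (fun i => D (z i)) := by
  induction F using MvPolynomial.induction_on with
  | C a => simp [dF]
  | add p q hp hq =>
    rw [map_add, map_add, hp, hq]
    simp only [dF, map_add, mul_add, Finset.sum_add_distrib]
  | mul_X p i hp =>
    rw [map_mul, aeval_X, Derivation.leibniz, hp]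
    simp only [dF, Derivation.leibniz, pderiv_X, smul_eq_mul, map_add, map_mul, aeval_X]
    simp only [mul_add, Finset.sum_add_distrib]
    congr 1
    · rw [Finset.sum_eq_single i]
      · simp [mul_comm]
      · intro j _ hj
        simp [Pi.single_apply, hj.symm]
      · intro h; exact absurd (Finset.mem_univ i) h
    · rw [Finset.mul_sum]
      refine Finset.sum_congr rfl fun j _ => by ring

/-- Smoothness over extension fields. -/
theorem smooth_ext {F : MvPolynomial (Fin 4) ℂ} {d : ℕ} (hF : IsSmoothForm F d) (z : Fin 4 → K)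
    (hz : z ≠ 0) (hz0 : aeval z F = 0) : ∃ i, aeval z (pderiv i F) ≠ 0 := by
  by_contra hcon
  push Not at hcon
  set I : Ideal (MvPolynomial (Fin 4) ℂ) :=
    Ideal.span (insert F (Set.range fun i => pderiv i F)) with hI
  have hFI : F ∈ I := Ideal.subset_span (Set.mem_insert _ _)
  have hdI : ∀ i, pderiv i F ∈ I := fun i =>
    Ideal.subset_span (Set.mem_insert_of_mem _ ⟨i, rfl⟩)
  have hzl : ∀ x ∈ zeroLocus ℂ I, x = 0 := by
    intro x hx
    by_contra hx0
    obtain ⟨i, hi⟩ := hF.smooth x hx0 (hx F hFI)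
    exact hi (hx _ (hdI i))
  have hker : ∀ p ∈ I, aeval z p = 0 := by
    intro p hp
    have : I ≤ RingHom.ker (aeval z : MvPolynomial (Fin 4) ℂ →ₐ[ℂ] K) := by
      rw [hI, Ideal.span_le]
      intro q hq
      rcases hq with rfl | ⟨i, rfl⟩
      · exact hz0
      · exact hcon i
    exact this hp
  apply hz
  funext j
  have hj : (X j : MvPolynomial (Fin 4) ℂ) ∈ I.radical := by
    rw [← vanishingIdeal_zeroLocus_eq_radical (K := ℂ) I]
    intro x hx
    rw [hzl x hx]
    simp
  obtain ⟨N, hN⟩ := hj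
  have := hker _ hN
  rw [map_pow, aeval_X] at this
  exact pow_eq_zero_iff (n := N) (by
    intro h
    rw [h, pow_zero] at this
    exact one_ne_zero this) |>.1 this

/-- The residue form is well defined. -/
theorem exists_isRes {F : MvPolynomial (Fin 4) ℂ} {d : ℕ} (hF : IsSmoothForm F d)
    (D₁ D₂ : Derivation ℂ K K) (z : Fin 4 → K) (hz : z ≠ 0) (hz0 : aeval z F = 0) :
    ∃! J, IsRes F D₁ D₂ z J := by
  have hne := smooth_ext hF z hz hz0
  obtain ⟨e, he⟩ := exists_dF_ne F z hne
  have kz : dF F z z = 0 := by rw [dF_self hF.hom, hz0, mul_zero]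
  have kD : ∀ D : Derivation ℂ K K, dF F z (fun i => D (z i)) = 0 := fun D => by
    rw [← der_aeval, hz0, map_zero]
  refine ⟨det4 e z (fun i => D₁ (z i)) (fun i => D₂ (z i)) / dF F z e, ?_, ?_⟩
  · intro v
    set t := dF F z v / dF F z e with ht
    have hv : v = t • e + (v - t • e) := by abel
    have hk : dF F z (v - t • e) = 0 := by
      rw [dF_sub, dF_smul, ht, div_mul_cancel₀ _ he, sub_self]
    have h0 := det4_eq_zero F z hne (v - t • e) z (fun i => D₁ (z i)) (fun i => D₂ (z i))
      hk kz (kD D₁) (kD D₂)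
    calc det4 v z (fun i => D₁ (z i)) (fun i => D₂ (z i))
        = det4 (t • e + (v - t • e)) z (fun i => D₁ (z i)) (fun i => D₂ (z i)) := by rw [← hv]
      _ = t * det4 e z (fun i => D₁ (z i)) (fun i => D₂ (z i)) := by
          rw [det4_add_left, det4_smul_left, h0, add_zero]
      _ = _ := by
          rw [ht]; field_simp
  · intro J hJ
    rw [eq_div_iff he]
    exact (hJ e).symm

/-- `J` is nonzero if and only if `z, D₁ z, D₂ z` are linearly independent. -/
theorem isRes_zero_iff {F : MvPolynomial (Fin 4) ℂ} {d : ℕ} (hF : IsSmoothForm F d)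
    (D₁ D₂ : Derivation ℂ K K) (z : Fin 4 → K) (hz : z ≠ 0) (hz0 : aeval z F = 0) :
    IsRes F D₁ D₂ z 0 ↔
      ¬ LinearIndependent K ![z, fun i => D₁ (z i), fun i => D₂ (z i)] := by
  have hne := smooth_ext hF z hz hz0
  obtain ⟨e, he⟩ := exists_dF_ne F z hne
  have kz : dF F z z = 0 := by rw [dF_self hF.hom, hz0, mul_zero]
  have kD : ∀ D : Derivation ℂ K K, dF F z (fun i => D (z i)) = 0 := fun D => by
    rw [← der_aeval, hz0, map_zero]
  constructor
  · intro h hli
    have hli4 : LinearIndependent K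
        (Fin.cons e ![z, fun i => D₁ (z i), fun i => D₂ (z i)] : Fin 4 → (Fin 4 → K)) := by
      refine hli.finCons ?_
      intro hmem
      apply he
      have : Submodule.span K (Set.range ![z, fun i => D₁ (z i), fun i => D₂ (z i)]) ≤
          LinearMap.ker (dFlin F z) := by
        rw [Submodule.span_le]
        rintro _ ⟨i, rfl⟩
        fin_cases i
        · exact kz
        · exact kD D₁
        · exact kD D₂
      exact this hmem
    have hu : IsUnit (Matrix.of ![e, z, fun i => D₁ (z i), fun i => D₂ (z i)] :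
        Matrix (Fin 4) (Fin 4) K) := by
      rw [← Matrix.linearIndependent_rows_iff_isUnit]
      exact hli4
    rw [Matrix.isUnit_iff_isUnit_det] at hu
    have h0 := h e
    rw [zero_mul, det4] at h0
    rw [h0] at hu
    exact not_isUnit_zero hu
  · intro hnli v
    rw [zero_mul, det4]
    by_contra hdet
    apply hnli
    have hu : IsUnit (Matrix.of ![v, z, fun i => D₁ (z i), fun i => D₂ (z i)] :
        Matrix (Fin 4) (Fin 4) K) := by
      rw [Matrix.isUnit_iff_isUnit_det]
      exact isUnit_iff_ne_zero.2 hdet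
    rw [← Matrix.linearIndependent_rows_iff_isUnit] at hu
    have hc : LinearIndependent K
        (Fin.cons v ![z, fun i => D₁ (z i), fun i => D₂ (z i)] : Fin 4 → (Fin 4 → K)) := hu
    exact (linearIndependent_finCons.1 hc).1

/-- Scaling. -/
theorem IsRes.smul {F : MvPolynomial (Fin 4) ℂ} {d : ℕ} (hF : IsSmoothForm F d) (hd : 4 ≤ d)
    {D₁ D₂ : Derivation ℂ K K} {z : Fin 4 → K} {J : K} (h : IsRes F D₁ D₂ z J) (c : K)
    (hc : c ≠ 0) : IsRes F D₁ D₂ (c • z) (J * (c ^ (d - 4))⁻¹) := by
  intro v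
  have h1 : ∀ D : Derivation ℂ K K, (fun i => D ((c • z) i)) =
      c • (fun i => D (z i)) + D c • z := by
    intro D
    funext i
    simp only [Pi.smul_apply, smul_eq_mul, Pi.add_apply, Derivation.leibniz]
    ring
  have h2 : dF F (c • z) v = c ^ (d - 1) * dF F z v := by
    simp only [dF, Finset.mul_sum]
    refine Finset.sum_congr rfl fun i _ => ?_
    rw [aeval_smul_hom hF.hom.pderiv]
    ring
  rw [h1, h1, det4_scale, h v, h2]
  have hd' : c ^ (d - 1) = c ^ 3 * c ^ (d - 4) := by
    rw [← pow_add]; congr 1; omega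
  rw [hd']
  have : c ^ (d - 4) ≠ 0 := pow_ne_zero _ hc
  field_simp

/-- Dependence on the pair of derivations. -/
theorem IsRes.comb {F : MvPolynomial (Fin 4) ℂ} {D₁ D₂ : Derivation ℂ K K} {z : Fin 4 → K} {J : K}
    (h : IsRes F D₁ D₂ z J) (α β γ δ : K) :
    IsRes F (α • D₁ + β • D₂) (γ • D₁ + δ • D₂) z ((α * δ - β * γ) * J) := by
  intro v
  have h1 : ∀ x y : K, (fun i => (x • D₁ + y • D₂) (z i)) =
      x • (fun i => D₁ (z i)) + y • (fun i => D₂ (z i)) := by
    intro x y
    funext i
    simp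
  rw [h1, h1, det4_comb, h v]
  ring

namespace SmoothExtAux

theorem aeval_lin (F : MvPolynomial (Fin 4) ℂ) (L' : Matrix (Fin 4) (Fin 4) ℂ) (y : Fin 4 → K) :
    aeval y (bind₁ (fun i => ∑ j, C (L' i j) * X j) F) =
      aeval ((L'.map (algebraMap ℂ K)).mulVec y) F := by
  rw [aeval_bind₁]
  congr 2
  funext i
  simp [Matrix.mulVec, dotProduct, algebraMap_eq]

theorem pderiv_lin (F : MvPolynomial (Fin 4) ℂ) (L' : Matrix (Fin 4) (Fin 4) ℂ) (i : Fin 4) :
    pderiv i (bind₁ (fun i => ∑ j, C (L' i j) * X j) F) =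
      ∑ k, C (L' k i) * bind₁ (fun i => ∑ j, C (L' i j) * X j) (pderiv k F) := by
  induction F using MvPolynomial.induction_on with
  | C a => simp
  | add p q hp hq =>
    rw [map_add, map_add, hp, hq, ← Finset.sum_add_distrib]
    refine Finset.sum_congr rfl fun k _ => by rw [map_add, map_add, mul_add]
  | mul_X p m hp =>
    have hX : ∀ k, pderiv i (∑ j, (C (L' k j) * X j : MvPolynomial (Fin 4) ℂ)) = C (L' k i) := by
      intro k
      rw [map_sum, Finset.sum_eq_single i]
      · simp
      · intro j _ hj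
        simp [pderiv_X, hj.symm]
      · intro h; exact absurd (Finset.mem_univ i) h
    rw [map_mul, bind₁_X_right, Derivation.leibniz, hp, hX]
    generalize hS : (∑ j, (C (L' m j) * X j : MvPolynomial (Fin 4) ℂ)) = S
    have hk : ∀ k, C (L' k i) * bind₁ (fun i => ∑ j, C (L' i j) * X j) (pderiv k (p * X m)) =
        C (L' k i) * (bind₁ (fun i => ∑ j, C (L' i j) * X j) p *
            C (Pi.single (M := fun _ => ℂ) k 1 m)) +
          S * (C (L' k i) * bind₁ (fun i => ∑ j, C (L' i j) * X j) (pderiv k p)) := by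
      intro k
      rw [Derivation.leibniz, pderiv_X, smul_eq_mul, smul_eq_mul, map_add, map_mul, map_mul,
        bind₁_X_right, hS]
      have : (Pi.single (M := fun _ => MvPolynomial (Fin 4) ℂ) k 1 m) =
          C (Pi.single (M := fun _ => ℂ) k 1 m) := by
        rcases eq_or_ne m k with h | h
        · subst h; simp
        · simp [Pi.single_apply, h]
      rw [this, bind₁_C_right]
      ring
    rw [Finset.sum_congr rfl fun k _ => hk k, Finset.sum_add_distrib, ← Finset.mul_sum,
      smul_eq_mul, smul_eq_mul]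
    congr 1
    rw [Finset.sum_eq_single m]
    · simp [mul_comm]
    · intro j _ hj
      simp [Pi.single_apply, hj.symm]
    · intro h; exact absurd (Finset.mem_univ m) h

theorem dF_lin (F : MvPolynomial (Fin 4) ℂ) (L' : Matrix (Fin 4) (Fin 4) ℂ) (y v : Fin 4 → K) :
    dF (bind₁ (fun i => ∑ j, C (L' i j) * X j) F) y v =
      dF F ((L'.map (algebraMap ℂ K)).mulVec y) ((L'.map (algebraMap ℂ K)).mulVec v) := by
  simp only [dF, pderiv_lin, map_sum, map_mul, aeval_lin, aeval_C, Finset.mul_sum]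
  rw [Finset.sum_comm]
  refine Finset.sum_congr rfl fun k _ => ?_
  simp only [Matrix.mulVec, dotProduct, Matrix.map_apply, Finset.sum_mul]
  refine Finset.sum_congr rfl fun i _ => ?_
  ring

end SmoothExtAux

/-- Linear changes of coordinates over `ℂ`. -/
theorem IsRes.linear {F : MvPolynomial (Fin 4) ℂ} {D₁ D₂ : Derivation ℂ K K} {z : Fin 4 → K} {J : K}
    (h : IsRes F D₁ D₂ z J) (L L' : Matrix (Fin 4) (Fin 4) ℂ) (hL : L' * L = 1) :
    IsRes (bind₁ (fun i => ∑ j, C (L' i j) * X j) F) D₁ D₂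
      ((L.map (algebraMap ℂ K)).mulVec z) (algebraMap ℂ K L.det * J) := by
  have hL2 : L * L' = 1 := mul_eq_one_comm.1 hL
  have m1 : (L'.map (algebraMap ℂ K)) * (L.map (algebraMap ℂ K)) = 1 := by
    rw [← Matrix.map_mul, hL]
    exact Matrix.map_one _ (map_zero _) (map_one _)
  have m2 : (L.map (algebraMap ℂ K)) * (L'.map (algebraMap ℂ K)) = 1 := by
    rw [← Matrix.map_mul, hL2]
    exact Matrix.map_one _ (map_zero _) (map_one _)
  intro v
  have hD : ∀ D : Derivation ℂ K K, (fun i => D ((L.map (algebraMap ℂ K)).mulVec z i)) =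
      (L.map (algebraMap ℂ K)).mulVec (fun i => D (z i)) := by
    intro D
    funext i
    simp [Matrix.mulVec, dotProduct, Derivation.leibniz]
  have hv : v = (L.map (algebraMap ℂ K)).mulVec ((L'.map (algebraMap ℂ K)).mulVec v) := by
    rw [Matrix.mulVec_mulVec, m2, Matrix.one_mulVec]
  rw [hD, hD, dF_lin, Matrix.mulVec_mulVec, m1, Matrix.one_mulVec]
  conv_lhs => rw [hv]
  rw [det4_mulVec, h]
  rw [show (L.map (algebraMap ℂ K)).det = algebraMap ℂ K L.det from
    (RingHom.map_det (algebraMap ℂ K) L).symm]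
  ring

/-- Linear changes of coordinates over `ℂ` preserve smoothness. -/
theorem IsSmoothForm.linear {F : MvPolynomial (Fin 4) ℂ} {d : ℕ} (hF : IsSmoothForm F d)
    (L L' : Matrix (Fin 4) (Fin 4) ℂ) (hL : L' * L = 1) :
    IsSmoothForm (bind₁ (fun i => ∑ j, C (L' i j) * X j) F) d := by
  have hL2 : L * L' = 1 := mul_eq_one_comm.1 hL
  have mm : (L'.map (algebraMap ℂ ℂ)) = L' := by
    ext i j; simp
  refine ⟨?_, ?_⟩
  · have := hF.hom.aeval (fun i => ∑ j, (C (L' i j) * X j : MvPolynomial (Fin 4) ℂ))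
      (fun i => IsHomogeneous.sum _ _ 1 fun j _ => isHomogeneous_C_mul_X _ _)
    simpa using this
  · intro x hx hx0
    rw [aeval_lin, mm] at hx0
    have hy : L'.mulVec x ≠ 0 := by
      intro h
      apply hx
      have : L.mulVec (L'.mulVec x) = x := by
        rw [Matrix.mulVec_mulVec, hL2, Matrix.one_mulVec]
      rw [← this, h, Matrix.mulVec_zero]
    obtain ⟨k, hk⟩ := hF.smooth _ hy hx0
    by_contra hcon
    push Not at hcon
    have h0 : ∀ v, dF F (L'.mulVec x) (L'.mulVec v) = 0 := by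
      intro v
      have h1 := dF_lin F L' x v
      rw [mm] at h1
      rw [← h1, dF]
      refine Finset.sum_eq_zero fun i _ => ?_
      rw [hcon i, mul_zero]
    apply hk
    have h2 := h0 (L.mulVec (Pi.single k 1))
    rw [Matrix.mulVec_mulVec, hL, Matrix.one_mulVec, dF, Finset.sum_eq_single k] at h2
    · simpa using h2
    · intro j _ hj
      simp [hj]
    · intro h; exact absurd (Finset.mem_univ k) h

end Pool.Agent.LowDeg
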