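
import Pool.Agent.LowDeg.SmoothExt
import Pool.Agent.LowDeg.ModelCycle
import Pool.Agent.LowDeg.Residue
import Pool.Agent.LowDeg.LocalDer
import Pool.Agent.LowDeg.DerExt

/-! Module B (doc section 7): the relation between the points of a curve section. -/

set_option autoImplicit false

open Polynomial IntermediateField

namespace Pool.Agent.LowDeg

namespace ResBAux

lemma det4_eq {R : Type*} [CommRing R] (u v p q : Fin 4 → R) :
    det4 u v p q =
      u 0 * (v 1 * (p 2 * q 3 - p 3 * q 2) - v 2 * (p 1 * q 3 - p 3 * q 1)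
        + v 3 * (p 1 * q 2 - p 2 * q 1))
      - u 1 * (v 0 * (p 2 * q 3 - p 3 * q 2) - v 2 * (p 0 * q 3 - p 3 * q 0)
        + v 3 * (p 0 * q 2 - p 2 * q 0))
      + u 2 * (v 0 * (p 1 * q 3 - p 3 * q 1) - v 1 * (p 0 * q 3 - p 3 * q 0)
        + v 3 * (p 0 * q 1 - p 1 * q 0))
      - u 3 * (v 0 * (p 1 * q 2 - p 2 * q 1) - v 1 * (p 0 * q 2 - p 2 * q 0)
        + v 2 * (p 0 * q 1 - p 1 * q 0)) := by
  unfold det4
  rw [Matrix.det_succ_row_zero]
  simp only [Fin.sum_univ_four, Matrix.det_fin_three, Matrix.submatrix_apply, Matrix.of_apply,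
    Fin.succ_zero_eq_one, Fin.succ_one_eq_two, Fin.val_zero, Fin.val_one, Fin.val_two]
  simp [Fin.succAbove, Fin.lt_def]
  ring

lemma cramer5 {R : Type*} [CommRing R] (e l p q r g : Fin 4 → R) :
    det4 l p q r * (∑ i, e i * g i) = det4 e p q r * (∑ i, l i * g i)
      - (∑ i, p i * g i) * det4 e l q r + (∑ i, q i * g i) * det4 e l p r
      - (∑ i, r i * g i) * det4 e l p q := by
  simp only [det4_eq, Fin.sum_univ_four]
  ring

section place
variable {K E : Type} [Field K] [Field E] [Algebra K E] {P : Place K E}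

lemma det4_isVal {u v p q : Fin 4 → E} {u' v' p' q' : Fin 4 → K} (hu : ∀ i, P.IsVal (u i) (u' i))
    (hv : ∀ i, P.IsVal (v i) (v' i)) (hp : ∀ i, P.IsVal (p i) (p' i))
    (hq : ∀ i, P.IsVal (q i) (q' i)) : P.IsVal (det4 u v p q) (det4 u' v' p' q') := by
  rw [det4_eq, det4_eq]
  have h2 : ∀ i j, P.IsVal (p i * q j - p j * q i) (p' i * q' j - p' j * q' i) := fun i j =>
    ((hp i).mul (hq j)).sub ((hp j).mul (hq i))
  have h3 : ∀ i j k, P.IsVal (v i * (p j * q k - p k * q j) - v j * (p i * q k - p k * q i)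
      + v k * (p i * q j - p j * q i)) (v' i * (p' j * q' k - p' k * q' j)
      - v' j * (p' i * q' k - p' k * q' i) + v' k * (p' i * q' j - p' j * q' i)) := fun i j k =>
    (((hv i).mul (h2 j k)).sub ((hv j).mul (h2 i k))).add ((hv k).mul (h2 i j))
  exact ((((hu 0).mul (h3 1 2 3)).sub ((hu 1).mul (h3 0 2 3))).add ((hu 2).mul (h3 0 1 3))).sub
    ((hu 3).mul (h3 0 1 2))

lemma det4_sm_left {u v p q : Fin 4 → E} (hu : ∀ i, P.Sm (u i))
    (hv : ∀ i, P.Int (v i)) (hp : ∀ i, P.Int (p i))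
    (hq : ∀ i, P.Int (q i)) : P.Sm (det4 u v p q) := by
  choose v' hv' using fun i => (hv i).exists_isVal
  choose p' hp' using fun i => (hp i).exists_isVal
  choose q' hq' using fun i => (hq i).exists_isVal
  have h := det4_isVal (u' := fun _ => 0) (fun i => Place.isVal_zero_iff.2 (hu i)) hv' hp' hq'
  have h0 : det4 (fun _ => (0:K)) v' p' q' = 0 := by
    rw [det4_eq]; ring
  rw [h0] at h
  exact Place.isVal_zero_iff.1 h

lemma det4_sm_second {u v p q : Fin 4 → E} (hu : ∀ i, P.Int (u i))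
    (hv : ∀ i, P.Sm (v i)) (hp : ∀ i, P.Int (p i))
    (hq : ∀ i, P.Int (q i)) : P.Sm (det4 u v p q) := by
  have h := det4_sm_left hv hu hp hq
  have h0 : det4 u v p q = - det4 v u p q := by
    rw [det4_eq, det4_eq]; ring
  rw [h0]
  exact h.neg

end place

section fin
variable {K : Type} [Field K] [IsAlgClosed K] [CharZero K] [Algebra ℂ K]

/-- the data at a finite place -/
lemma fin_place {F : MvPolynomial (Fin 4) ℂ} {d h : ℕ} (hF : IsSmoothForm F d)
    (M : CurveModel K h) [Algebra ℂ M.E] [IsScalarTower ℂ K M.E]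
    (hx : MvPolynomial.aeval M.pt F ≠ 0) (δ₁ δ₂ : Derivation ℂ K K)
    (D0 D1 D2 : Derivation ℂ M.E M.E)
    (hD0K : ∀ c : K, D0 (algebraMap K M.E c) = 0) (hD0a : D0 M.a = 1)
    (hD1K : ∀ c : K, D1 (algebraMap K M.E c) = algebraMap K M.E (δ₁ c)) (hD1a : D1 M.a = 0)
    (hD2K : ∀ c : K, D2 (algebraMap K M.E c) = algebraMap K M.E (δ₂ c)) (hD2a : D2 M.a = 0)
    (f : MvPolynomial (Fin 4) K) (P : Place K M.E) (z : Fin 4 → K) (hz : M.IsCentre P z) :
    (P.ord (MvPolynomial.aeval M.pt F) = 0 →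
      P.Sm ((M.a - algebraMap K M.E (z 1)) * (MvPolynomial.aeval M.pt f *
        det4 M.pt (fun i => D0 (M.pt i)) (fun i => D1 (M.pt i)) (fun i => D2 (M.pt i)) /
          MvPolynomial.aeval M.pt F))) ∧
    (0 < P.ord (MvPolynomial.aeval M.pt F) → ∀ J, IsRes F δ₁ δ₂ z J →
      P.IsVal ((M.a - algebraMap K M.E (z 1)) * (MvPolynomial.aeval M.pt f *
        det4 M.pt (fun i => D0 (M.pt i)) (fun i => D1 (M.pt i)) (fun i => D2 (M.pt i)) /
          MvPolynomial.aeval M.pt F))
        (-(MvPolynomial.eval z f * J) * ((P.ord (MvPolynomial.aeval M.pt F) : K) /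
          (P.ord (M.a - algebraMap K M.E (z 1)) : K)))) := by
  have halg : ∀ x : M.E, Transcendental K x → Algebra.IsAlgebraic K⟮x⟯ M.E := fun x hx' =>
    (algebraic_of_transcendental M.a M.trans x hx').1
  have hz1 : P.IsVal M.a (z 1) := hz 1
  have hz0 : z 0 = 1 := (hz 0).unique (by
    show P.IsVal (1 : M.E) 1
    exact Place.isVal_one)
  set c : K := z 1 with hc
  set t : M.E := M.a - algebraMap K M.E c with ht
  have ht0 : t ≠ 0 := by
    intro h0
    apply M.trans
    have h1 : M.a = algebraMap K M.E c := sub_eq_zero.mp h0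
    rw [h1]
    exact isAlgebraic_algebraMap c
  have htS : P.Sm t := hz1
  -- the derivations adapted to the place
  set L : Derivation ℂ M.E M.E := t • D0 with hL
  set D1' : Derivation ℂ M.E M.E := D1 + (algebraMap K M.E (δ₁ c)) • D0 with hD1'
  set D2' : Derivation ℂ M.E M.E := D2 + (algebraMap K M.E (δ₂ c)) • D0 with hD2'
  have hLx : ∀ y, L y = t * D0 y := fun y => rfl
  have hD1x : ∀ y, D1' y = D1 y + algebraMap K M.E (δ₁ c) * D0 y := fun y => rfl
  have hD2x : ∀ y, D2' y = D2 y + algebraMap K M.E (δ₂ c) * D0 y := fun y => rfl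
  have hD0t : D0 t = 1 := by rw [ht, map_sub, hD0a, hD0K, sub_zero]
  have hLK : ∀ k : K, L (algebraMap K M.E k) = 0 := fun k => by rw [hLx, hD0K, mul_zero]
  have hLt : L t = t := by rw [hLx, hD0t, mul_one]
  have hD1K' : ∀ k : K, D1' (algebraMap K M.E k) = algebraMap K M.E (δ₁ k) := fun k => by
    rw [hD1x, hD0K, hD1K, mul_zero, add_zero]
  have hD2K' : ∀ k : K, D2' (algebraMap K M.E k) = algebraMap K M.E (δ₂ k) := fun k => by
    rw [hD2x, hD0K, hD2K, mul_zero, add_zero]
  have hD1t : D1' t = 0 := by rw [hD1x, hD0t, ht, map_sub, hD1a, hD1K]; ring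
  have hD2t : D2' t = 0 := by rw [hD2x, hD0t, ht, map_sub, hD2a, hD2K]; ring
  obtain ⟨hLlog, hLsm⟩ := der_log_val P halg L hLK t ht0 htS hLt
  obtain ⟨hD1log, -, hD1val⟩ := der_log_int P halg D1' (fun k => ⟨_, hD1K' k⟩) t ht0 htS
    ⟨0, by rw [hD1t]; simp⟩
  obtain ⟨hD2log, -, hD2val⟩ := der_log_int P halg D2' (fun k => ⟨_, hD2K' k⟩) t ht0 htS
    ⟨0, by rw [hD2t]; simp⟩
  -- values of the rows
  have hpt : ∀ i, P.IsVal (M.pt i) (z i) := hz
  have hLpt : ∀ i, P.Sm (L (M.pt i)) := fun i => hLsm _ (hpt i).int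
  have hD1pt : ∀ i, P.IsVal (D1' (M.pt i)) (δ₁ (z i)) := fun i => hD1val _ _ _ (hpt i) (hD1K' _)
  have hD2pt : ∀ i, P.IsVal (D2' (M.pt i)) (δ₂ (z i)) := fun i => hD2val _ _ _ (hpt i) (hD2K' _)
  have hfv : P.IsVal (MvPolynomial.aeval M.pt f) (MvPolynomial.eval z f) := by
    have := Place.IsVal.aeval hpt f
    rwa [MvPolynomial.aeval_eq_eval] at this
  set x : M.E := MvPolynomial.aeval M.pt F with hxd
  have hdet : t * (MvPolynomial.aeval M.pt f *
        det4 M.pt (fun i => D0 (M.pt i)) (fun i => D1 (M.pt i)) (fun i => D2 (M.pt i)) / x)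
      = MvPolynomial.aeval M.pt f *
        (-det4 (fun i => L (M.pt i)) M.pt (fun i => D1' (M.pt i)) (fun i => D2' (M.pt i)) / x) := by
    have e : t * det4 M.pt (fun i => D0 (M.pt i)) (fun i => D1 (M.pt i)) (fun i => D2 (M.pt i))
        = -det4 (fun i => L (M.pt i)) M.pt (fun i => D1' (M.pt i)) (fun i => D2' (M.pt i)) := by
      simp only [det4_eq, hLx, hD1x, hD2x]
      ring
    rw [← e]
    ring
  rw [hdet]
  constructor
  · intro hord
    have h1 : P.Sm (det4 (fun i => L (M.pt i)) M.pt (fun i => D1' (M.pt i))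
        (fun i => D2' (M.pt i))) :=
      det4_sm_left hLpt (fun i => (hpt i).int) (fun i => (hD1pt i).int) (fun i => (hD2pt i).int)
    have h2 : P.Int x⁻¹ := Or.inr (by rw [P.ord_inv, hord]; simp)
    rw [div_eq_mul_inv]
    exact hfv.int.mul_sm (h1.neg.mul_int h2)
  · intro hord J hJ
    have hxv : P.IsVal x (MvPolynomial.aeval z F) := Place.IsVal.aeval hpt F
    have hxS : P.Sm x := Or.inr hord
    have hzF : MvPolynomial.aeval z F = 0 := hxv.unique (Place.isVal_zero_iff.2 hxS)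
    have hzne : z ≠ 0 := by
      intro h0
      rw [h0] at hz0
      simp at hz0
    obtain ⟨i, hi⟩ := smooth_ext hF z hzne hzF
    set e : Fin 4 → K := Pi.single i 1 with he
    have hφ0 : dF F z e ≠ 0 := by
      have : dF F z e = MvPolynomial.aeval z (MvPolynomial.pderiv i F) := by
        unfold dF
        rw [Finset.sum_eq_single i]
        · rw [he]; simp
        · intro j _ hj
          rw [he, Pi.single_eq_of_ne hj, zero_mul]
        · intro h; exact absurd (Finset.mem_univ _) h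
      rw [this]; exact hi
    set e' : Fin 4 → M.E := fun j => algebraMap K M.E (e j) with he'
    have hev : ∀ j, P.IsVal (e' j) (e j) := fun j => Place.isVal_const _
    set g : Fin 4 → M.E := fun j => MvPolynomial.aeval M.pt (MvPolynomial.pderiv j F) with hg
    have hgv : ∀ j, P.IsVal (g j) (MvPolynomial.aeval z (MvPolynomial.pderiv j F)) := fun j =>
      Place.IsVal.aeval hpt _
    have hφv : P.IsVal (∑ j, e' j * g j) (dF F z e) :=
      Place.IsVal.sum _ (fun j _ => (hev j).mul (hgv j))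
    have hφne : (∑ j, e' j * g j) ≠ 0 := hφv.ne_zero hφ0
    have hcr := cramer5 e' (fun i => L (M.pt i)) M.pt (fun i => D1' (M.pt i))
      (fun i => D2' (M.pt i)) g
    have s1 : (∑ j, M.pt j * g j) = (d : M.E) * x := dF_self hF.hom M.pt
    have s2 : (∑ j, L (M.pt j) * g j) = L x := (der_aeval F L M.pt).symm
    have s3 : (∑ j, D1' (M.pt j) * g j) = D1' x := (der_aeval F D1' M.pt).symm
    have s4 : (∑ j, D2' (M.pt j) * g j) = D2' x := (der_aeval F D2' M.pt).symm
    beta_reduce at hcr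
    rw [s1, s2, s3, s4] at hcr
    have hq : det4 (fun i => L (M.pt i)) M.pt (fun i => D1' (M.pt i)) (fun i => D2' (M.pt i)) / x
        = (det4 e' M.pt (fun i => D1' (M.pt i)) (fun i => D2' (M.pt i)) * (L x / x)
          - (d : M.E) * det4 e' (fun i => L (M.pt i)) (fun i => D1' (M.pt i))
            (fun i => D2' (M.pt i))
          + (D1' x / x) * det4 e' (fun i => L (M.pt i)) M.pt (fun i => D2' (M.pt i))
          - (D2' x / x) * det4 e' (fun i => L (M.pt i)) M.pt (fun i => D1' (M.pt i)))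
          / (∑ j, e' j * g j) := by
      rw [div_eq_div_iff hx hφne, hcr]
      field_simp
    have v1 : P.IsVal (det4 e' M.pt (fun i => D1' (M.pt i)) (fun i => D2' (M.pt i)))
        (J * dF F z e) := by
      rw [← hJ e]
      exact det4_isVal hev hpt hD1pt hD2pt
    have v2 : P.IsVal (L x / x) ((P.ord x : K) / (P.ord t : K)) := hLlog x hx
    have v3 : P.IsVal ((d : M.E) * det4 e' (fun i => L (M.pt i)) (fun i => D1' (M.pt i))
            (fun i => D2' (M.pt i))) 0 := by
      have hdI : P.Int (d : M.E) := by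
        have := P.int_const (d : K)
        simpa using this
      exact Place.isVal_zero_iff.2 (hdI.mul_sm (det4_sm_second (fun j => (hev j).int) hLpt
        (fun j => (hD1pt j).int) (fun j => (hD2pt j).int)))
    have v4 : P.IsVal ((D1' x / x) * det4 e' (fun i => L (M.pt i)) M.pt
        (fun i => D2' (M.pt i))) 0 :=
      Place.isVal_zero_iff.2 ((hD1log x hx).mul_sm (det4_sm_second (fun j => (hev j).int) hLpt
        (fun j => (hpt j).int) (fun j => (hD2pt j).int)))
    have v5 : P.IsVal ((D2' x / x) * det4 e' (fun i => L (M.pt i)) M.pt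
        (fun i => D1' (M.pt i))) 0 :=
      Place.isVal_zero_iff.2 ((hD2log x hx).mul_sm (det4_sm_second (fun j => (hev j).int) hLpt
        (fun j => (hpt j).int) (fun j => (hD1pt j).int)))
    have v6 := ((((v1.mul v2).sub v3).add v4).sub v5).div hφv hφ0
    rw [← hq] at v6
    have v7 := hfv.mul v6.neg
    have e1 : MvPolynomial.eval z f * -((J * dF F z e * ((P.ord x : K) / (P.ord t : K)) - 0 + 0 - 0)
        / dF F z e) = -(MvPolynomial.eval z f * J) * ((P.ord x : K) / (P.ord t : K)) := by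
      field_simp
      ring
    rw [e1] at v7
    rw [neg_div]
    exact v7

end fin

lemma aeval_scale {R S : Type*} [CommRing R] [CommRing S] [Algebra R S]
    (φ : MvPolynomial (Fin 4) R) {n : ℕ} (hφ : φ.IsHomogeneous n) (a : S) (q : Fin 4 → S) :
    MvPolynomial.aeval (fun i => a * q i) φ = a ^ n * MvPolynomial.aeval q φ := by
  rw [MvPolynomial.aeval_def, MvPolynomial.aeval_def, MvPolynomial.eval₂_eq', MvPolynomial.eval₂_eq',
    Finset.mul_sum]
  apply Finset.sum_congr rfl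
  intro m hm
  have h1 := hφ (MvPolynomial.mem_support_iff.mp hm)
  have h2 : ∑ i, m i = n := by
    rw [← h1, Finsupp.weight_apply, Finsupp.sum_fintype]
    · simp
    · simp
  simp only [mul_pow, Finset.prod_mul_distrib, Finset.prod_pow_eq_pow_sum, h2]
  ring

section inf
variable {K : Type} [Field K] [IsAlgClosed K] [CharZero K] [Algebra ℂ K]

/-- the data at an infinite place -/
lemma inf_place {F : MvPolynomial (Fin 4) ℂ} {d n h : ℕ} (hd : d = n + 4)
    (hF : F.IsHomogeneous d) (M : CurveModel K h) [Algebra ℂ M.E] [IsScalarTower ℂ K M.E]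
    (hinf : ∀ z : Fin 4 → K, z 0 = 0 → z 1 = 1 → M.On z → MvPolynomial.aeval z F ≠ 0)
    (δ₁ δ₂ : Derivation ℂ K K)
    (D0 D1 D2 : Derivation ℂ M.E M.E)
    (hD0K : ∀ c : K, D0 (algebraMap K M.E c) = 0) (hD0a : D0 M.a = 1)
    (hD1K : ∀ c : K, D1 (algebraMap K M.E c) = algebraMap K M.E (δ₁ c)) (hD1a : D1 M.a = 0)
    (hD2K : ∀ c : K, D2 (algebraMap K M.E c) = algebraMap K M.E (δ₂ c)) (hD2a : D2 M.a = 0)
    (f : MvPolynomial (Fin 4) K) (hf : f.IsHomogeneous n) (P : Place K M.E) (hP : ¬ P.Int M.a) :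
    P.Sm (M.a * (MvPolynomial.aeval M.pt f *
        det4 M.pt (fun i => D0 (M.pt i)) (fun i => D1 (M.pt i)) (fun i => D2 (M.pt i)) /
          MvPolynomial.aeval M.pt F)) := by
  have halg : ∀ x : M.E, Transcendental K x → Algebra.IsAlgebraic K⟮x⟯ M.E := fun x hx' =>
    (algebraic_of_transcendental M.a M.trans x hx').1
  have ha0 : M.a ≠ 0 := fun h0 => hP (Or.inl h0)
  obtain ⟨z, hz⟩ := M.exists_centreInf P hP
  obtain ⟨hz0, hz1, hzG⟩ := CurveModel.IsCentreInf.on hP hz
  have hzF := hinf z hz0 hz1 hzG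
  set t : M.E := M.a⁻¹ with ht
  have ht0 : t ≠ 0 := inv_ne_zero ha0
  have htS : P.Sm t := Place.sm_inv_of_not_int hP
  set q : Fin 4 → M.E := fun i => M.pt i / M.a with hq
  have hqv : ∀ i, P.IsVal (q i) (z i) := hz
  have hpq : ∀ i, M.pt i = M.a * q i := fun i => by
    rw [hq]
    show M.pt i = M.a * (M.pt i / M.a)
    field_simp
  have hpq' : M.pt = fun i => M.a * q i := funext hpq
  set L : Derivation ℂ M.E M.E := (-M.a) • D0 with hL
  have hLx : ∀ y, L y = -M.a * D0 y := fun y => rfl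
  have hLK : ∀ k : K, L (algebraMap K M.E k) = 0 := fun k => by rw [hLx, hD0K, mul_zero]
  have hLt : L t = t := by
    rw [hLx, ht, Derivation.leibniz_inv, hD0a, smul_eq_mul]
    field_simp
  have hD1t : D1 t = 0 := by rw [ht, Derivation.leibniz_inv, hD1a, smul_zero]
  have hD2t : D2 t = 0 := by rw [ht, Derivation.leibniz_inv, hD2a, smul_zero]
  obtain ⟨-, hLsm⟩ := der_log_val P halg L hLK t ht0 htS hLt
  obtain ⟨-, -, hD1val⟩ := der_log_int P halg D1 (fun k => ⟨_, hD1K k⟩) t ht0 htS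
    ⟨0, by rw [hD1t]; simp⟩
  obtain ⟨-, -, hD2val⟩ := der_log_int P halg D2 (fun k => ⟨_, hD2K k⟩) t ht0 htS
    ⟨0, by rw [hD2t]; simp⟩
  have hLq : ∀ i, P.Sm (L (q i)) := fun i => hLsm _ (hqv i).int
  have hD1q : ∀ i, P.IsVal (D1 (q i)) (δ₁ (z i)) := fun i => hD1val _ _ _ (hqv i) (hD1K _)
  have hD2q : ∀ i, P.IsVal (D2 (q i)) (δ₂ (z i)) := fun i => hD2val _ _ _ (hqv i) (hD2K _)
  have e0 : ∀ i, D0 (M.pt i) = q i - L (q i) := fun i => by
    rw [hpq i, Derivation.leibniz, hD0a, hLx, smul_eq_mul, smul_eq_mul]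
    ring
  have e1 : ∀ i, D1 (M.pt i) = M.a * D1 (q i) := fun i => by
    rw [hpq i, Derivation.leibniz, hD1a, smul_eq_mul, smul_zero, add_zero]
  have e2 : ∀ i, D2 (M.pt i) = M.a * D2 (q i) := fun i => by
    rw [hpq i, Derivation.leibniz, hD2a, smul_eq_mul, smul_zero, add_zero]
  have e3 : det4 M.pt (fun i => D0 (M.pt i)) (fun i => D1 (M.pt i)) (fun i => D2 (M.pt i)) =
      -(M.a ^ 3 * det4 q (fun i => L (q i)) (fun i => D1 (q i)) (fun i => D2 (q i))) := by
    simp only [det4_eq, e0, e1, e2]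
    simp only [hpq]
    ring
  have e4 : MvPolynomial.aeval M.pt f = M.a ^ n * MvPolynomial.aeval q f := by
    rw [hpq']; exact aeval_scale f hf M.a q
  have e5 : MvPolynomial.aeval M.pt F = M.a ^ d * MvPolynomial.aeval q F := by
    rw [hpq']; exact aeval_scale F hF M.a q
  have hFv : P.IsVal (MvPolynomial.aeval q F) (MvPolynomial.aeval z F) := Place.IsVal.aeval hqv F
  have hFne : MvPolynomial.aeval q F ≠ 0 := hFv.ne_zero hzF
  have e6 : M.a * (MvPolynomial.aeval M.pt f *
        det4 M.pt (fun i => D0 (M.pt i)) (fun i => D1 (M.pt i)) (fun i => D2 (M.pt i)) /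
          MvPolynomial.aeval M.pt F) =
      -((MvPolynomial.aeval q f * (MvPolynomial.aeval q F)⁻¹) *
        det4 q (fun i => L (q i)) (fun i => D1 (q i)) (fun i => D2 (q i))) := by
    rw [e3, e4, e5, hd]
    field_simp
    ring
  rw [e6]
  have hfv : P.IsVal (MvPolynomial.aeval q f) (MvPolynomial.aeval z f) := Place.IsVal.aeval hqv f
  exact ((hfv.int.mul (hFv.inv hzF).int).mul_sm (det4_sm_second (fun j => (hqv j).int) hLq
    (fun j => (hD1q j).int) (fun j => (hD2q j).int))).neg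

end inf

end ResBAux

variable {K : Type} [Field K] [IsAlgClosed K] [CharZero K] [Algebra ℂ K]

theorem section_relation {F : MvPolynomial (Fin 4) ℂ} {d n h : ℕ} (hd : d = n + 4)
    (hF : IsSmoothForm F d) (M : CurveModel K h) (hx : M.xF F ≠ 0)
    (hinf : ∀ z : Fin 4 → K, z 0 = 0 → z 1 = 1 → M.On z → MvPolynomial.aeval z F ≠ 0)
    (μ : (Fin 4 → K) →₀ ℕ) (hμ : M.IsCycle (M.xF F) μ) (δ₁ δ₂ : Derivation ℂ K K)
    (J : (Fin 4 → K) → K) (hJ : ∀ z, μ z ≠ 0 → IsRes F δ₁ δ₂ z (J z))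
    (f : MvPolynomial (Fin 4) K) (hf : f.IsHomogeneous n) :
    μ.sum (fun z k => (k : K) * (MvPolynomial.eval z f * J z)) = 0 := by
  classical
  let _ : Algebra ℂ M.E := ((algebraMap K M.E).comp (algebraMap ℂ K)).toAlgebra
  have _ : IsScalarTower ℂ K M.E := IsScalarTower.of_algebraMap_eq (fun _ => rfl)
  have hxF : M.xF F = MvPolynomial.aeval M.pt F := by
    unfold CurveModel.xF
    rw [MvPolynomial.aeval_map_algebraMap]
  rw [hxF] at hx hμ
  obtain ⟨D0, hD0K, hD0a⟩ := exists_derivation (k := ℂ) M.a M.trans (0 : Derivation ℂ K K)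
    (1 : M.E)
  obtain ⟨D1, hD1K, hD1a⟩ := exists_derivation (k := ℂ) M.a M.trans δ₁ (0 : M.E)
  obtain ⟨D2, hD2K, hD2a⟩ := exists_derivation (k := ℂ) M.a M.trans δ₂ (0 : M.E)
  have hD0K' : ∀ c : K, D0 (algebraMap K M.E c) = 0 := fun c => by
    rw [hD0K]; simp
  obtain ⟨S, ctr, hS, hctr, hμz⟩ := hμ
  set x : M.E := MvPolynomial.aeval M.pt F with hxd
  -- integrality at finite places
  have hxint : ∀ P ∈ S, 0 < P.ord x := by
    intro P hP
    have h1 := (hS P).1 hP
    have h2 : P.IsVal x (MvPolynomial.aeval (ctr P) F) := Place.IsVal.aeval (hctr P hP) F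
    have h3 := h2.int.resolve_left hx
    have h4 := h1.2
    omega
  have hμpos : ∀ P ∈ S, μ (ctr P) ≠ 0 := by
    intro P hP h0
    have h1 := hμz (ctr P)
    rw [h0] at h1
    have h2 : ∀ Q ∈ S, (0 : ℤ) ≤ if ctr Q = ctr P then Q.ord x else 0 := by
      intro Q hQ
      split_ifs
      · exact (hxint Q hQ).le
      · exact le_rfl
    have h3 := (Finset.sum_eq_zero_iff_of_nonneg h2).1 (by simpa using h1.symm) P hP
    rw [if_pos rfl] at h3
    exact absurd h3 (hxint P hP).ne'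
  have hfin := fun (P : Place K M.E) (z : Fin 4 → K) (hz : M.IsCentre P z) =>
    ResBAux.fin_place hF M hx δ₁ δ₂ D0 D1 D2 hD0K' hD0a hD1K hD1a hD2K hD2a f P z hz
  have hres := residue_sum M.a M.trans (MvPolynomial.aeval M.pt f *
        det4 M.pt (fun i => D0 (M.pt i)) (fun i => D1 (M.pt i)) (fun i => D2 (M.pt i)) / x)
    S (fun P => ctr P 1)
    (fun P => -(MvPolynomial.eval (ctr P) f * J (ctr P)) * ((P.ord x : K) /
          (P.ord (M.a - algebraMap K M.E (ctr P 1)) : K)))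
    (fun P hP => ⟨hctr P hP 1, (hfin P (ctr P) (hctr P hP)).2 (hxint P hP) _
      (hJ _ (hμpos P hP))⟩)
    (by
      intro P hP c₀ hc₀
      obtain ⟨z, hz⟩ := M.exists_centre P hc₀.int
      have h1 : c₀ = z 1 := hc₀.unique (hz 1)
      rw [h1]
      refine (hfin P z hz).1 ?_
      by_contra h2
      exact hP ((hS P).2 ⟨hc₀.int, h2⟩))
    (fun P hP => ResBAux.inf_place hd hF.hom M hinf δ₁ δ₂ D0 D1 D2 hD0K' hD0a hD1K hD1a hD2K
      hD2a f hf P hP)
  -- simplify the sum
  have hord : ∀ P ∈ S, (P.ord (M.a - algebraMap K M.E (ctr P 1)) : K) ≠ 0 := by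
    intro P hP
    have h1 : P.Sm (M.a - algebraMap K M.E (ctr P 1)) := hctr P hP 1
    have h2 : M.a - algebraMap K M.E (ctr P 1) ≠ 0 := by
      intro h0
      apply M.trans
      rw [sub_eq_zero.mp h0]
      exact isAlgebraic_algebraMap _
    have h3 := h1.resolve_left h2
    exact_mod_cast h3.ne'
  have hsum : ∑ P ∈ S, (P.ord x : K) * (MvPolynomial.eval (ctr P) f * J (ctr P)) = 0 := by
    have e1 : ∀ P ∈ S, (P.ord (M.a - algebraMap K M.E (ctr P 1)) : K) *
        (-(MvPolynomial.eval (ctr P) f * J (ctr P)) * ((P.ord x : K) /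
          (P.ord (M.a - algebraMap K M.E (ctr P 1)) : K))) =
        -((P.ord x : K) * (MvPolynomial.eval (ctr P) f * J (ctr P))) := by
      intro P hP
      have := hord P hP
      field_simp
    rw [Finset.sum_congr rfl e1, Finset.sum_neg_distrib, neg_eq_zero] at hres
    exact hres
  have hμK : ∀ z, (μ z : K) = ∑ P ∈ S, if ctr P = z then (P.ord x : K) else 0 := by
    intro z
    have h1 := hμz z
    have h2 : (μ z : K) = ((μ z : ℤ) : K) := by push_cast; rfl
    rw [h2, h1, Int.cast_sum]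
    apply Finset.sum_congr rfl
    intro P _
    split_ifs <;> simp
  rw [← hsum]
  unfold Finsupp.sum
  have e2 : ∀ z ∈ μ.support, (μ z : K) * (MvPolynomial.eval z f * J z) =
      ∑ P ∈ S, if ctr P = z then (P.ord x : K) * (MvPolynomial.eval z f * J z) else 0 := by
    intro z _
    rw [hμK z, Finset.sum_mul]
    apply Finset.sum_congr rfl
    intro P _
    split_ifs
    · rfl
    · rw [zero_mul]
  rw [Finset.sum_congr rfl e2, Finset.sum_comm]
  apply Finset.sum_congr rfl
  intro P hP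
  rw [Finset.sum_ite_eq, if_pos (Finsupp.mem_support_iff.2 (hμpos P hP))]

end Pool.Agent.LowDeg
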