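import Pool.Agent.LowDeg.Sys
import Pool.Agent.LowDeg.PlaneComb
import Pool.Agent.LowDeg.ResB

/-! Module MK4 (doc section 13): the decomposition of a null cycle. -/

set_option autoImplicit false

open MvPolynomial

namespace Pool.Agent.LowDeg

namespace DecompAux

/-- A relation of degree `n` stays true after extension of scalars. -/
theorem rel_ext {k k' σ T : Type} [Field k] [Field k'] [Algebra k k'] [Fintype T] [Fintype σ]
    (z : T → σ → k) (c : T → k) (n : ℕ)
    (h : ∀ f : MvPolynomial σ k, f.IsHomogeneous n → ∑ t, c t * eval (z t) f = 0)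
    (g : MvPolynomial σ k') (hg : g.IsHomogeneous n) :
    ∑ t, algebraMap k k' (c t) * eval (fun i => algebraMap k k' (z t i)) g = 0 := by
  have h1 : ∀ t, algebraMap k k' (c t) * eval (fun i => algebraMap k k' (z t i)) g =
      ∑ m ∈ g.support, g.coeff m * algebraMap k k' (c t * ∏ i, z t i ^ m i) := by
    intro t
    rw [eval_eq', Finset.mul_sum]
    refine Finset.sum_congr rfl fun m _ => ?_
    rw [map_mul, map_prod]
    simp only [map_pow]
    ring
  rw [Finset.sum_congr rfl fun t _ => h1 t, Finset.sum_comm]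
  refine Finset.sum_eq_zero fun m hm => ?_
  rw [← Finset.mul_sum, ← map_sum]
  have h2 := h (monomial m 1) (isHomogeneous_monomial _ (by
    have := hg (mem_support_iff.1 hm)
    rw [← this, Finsupp.degree_eq_weight_one]; rfl))
  have h3 : ∑ t, c t * ∏ i, z t i ^ m i = 0 := by
    rw [← h2]
    refine Finset.sum_congr rfl fun t _ => ?_
    rw [eval_monomial, one_mul, Finsupp.prod_fintype _ _ (fun i => pow_zero _)]
  rw [h3, map_zero, mul_zero]

/-- the substitution of the projection -/
noncomputable def sub3 (k : Type) [Field k] (f : MvPolynomial (Fin 3) (RatFunc k)) :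
    MvPolynomial (Fin 4) (RatFunc k) :=
  aeval ![X 0, X 1, X 2 + C RatFunc.X * X 3] f

theorem sub3_hom {k : Type} [Field k] {f : MvPolynomial (Fin 3) (RatFunc k)} {n : ℕ}
    (hf : f.IsHomogeneous n) : (sub3 k f).IsHomogeneous n := by
  have := hf.aeval (![X 0, X 1, X 2 + C RatFunc.X * X 3] :
    Fin 3 → MvPolynomial (Fin 4) (RatFunc k)) (n := 1) (fun i => by
      fin_cases i
      · exact isHomogeneous_X _ _
      · exact isHomogeneous_X _ _
      · exact (isHomogeneous_X _ _).add (isHomogeneous_C_mul_X _ _))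
  simpa [sub3] using this

theorem eval_sub3 {k : Type} [Field k] (f : MvPolynomial (Fin 3) (RatFunc k)) (z : Fin 4 → k) :
    eval (fun i => algebraMap k (RatFunc k) (z i)) (sub3 k f) = eval (uR z) f := by
  have h : (eval (fun i => algebraMap k (RatFunc k) (z i))).comp
      (aeval (![X 0, X 1, X 2 + C RatFunc.X * X 3] :
        Fin 3 → MvPolynomial (Fin 4) (RatFunc k)) :
          MvPolynomial (Fin 3) (RatFunc k) →ₐ[RatFunc k] _).toRingHom = eval (uR z) := by
    apply MvPolynomial.ringHom_ext
    · intro r; simp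
    · intro i
      have hC : ∀ a : k, algebraMap (Polynomial k) (RatFunc k) (Polynomial.C a) =
          algebraMap k (RatFunc k) a := by
        intro a
        rw [RatFunc.algebraMap_C, RatFunc.algebraMap_eq_C]
      have hX : algebraMap (Polynomial k) (RatFunc k) Polynomial.X = RatFunc.X :=
        RatFunc.algebraMap_X
      fin_cases i
      · show eval _ (aeval _ (X 0)) = _
        rw [aeval_X, eval_X]
        show eval _ (X 0) = algebraMap (Polynomial k) (RatFunc k) (Polynomial.C (z 0))
        rw [eval_X, hC]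
      · show eval _ (aeval _ (X 1)) = _
        rw [aeval_X, eval_X]
        show eval _ (X 1) = algebraMap (Polynomial k) (RatFunc k) (Polynomial.C (z 1))
        rw [eval_X, hC]
      · show eval _ (aeval _ (X 2)) = _
        rw [aeval_X, eval_X]
        show eval _ (X 2 + C RatFunc.X * X 3) = algebraMap (Polynomial k) (RatFunc k)
          (Polynomial.C (z 2) + Polynomial.C (z 3) * Polynomial.X)
        rw [map_add, map_mul, map_add, map_mul, eval_X, eval_X, eval_C, hC, hC, hX, mul_comm]
  exact congrFun (congrArg DFunLike.coe h) f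

theorem on_iff {k : Type} [Field k] {h : ℕ} (M : CurveModel k h) (z : Fin 4 → k) :
    M.On z ↔ eval (uR z) M.GR = 0 := by
  have h1 : eval (uR z) M.GR = algebraMap (Polynomial k) (RatFunc k) (eval (uK z) M.G) := by
    rw [CurveModel.GR, eval_map, ← eval₂_id, eval₂_comp_left, RingHom.comp_id]
    rfl
  rw [h1, CurveModel.On]
  constructor
  · intro h0; rw [h0, map_zero]
  · intro h0
    exact (map_eq_zero_iff _ (RatFunc.algebraMap_injective k)).1 h0

theorem uR_zero {k : Type} [Field k] {z : Fin 4 → k} (hz : z 0 = 1) : uR z 0 = 1 := by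
  simp [uR, uK, hz]

theorem uR_inj {k : Type} [Field k] {z z' : Fin 4 → k} (h : uR z = uR z') : z = z' := by
  have h1 : ∀ i, uK z i = uK z' i := fun i =>
    RatFunc.algebraMap_injective k (congrFun h i)
  have h0 := h1 0
  have h2 := h1 1
  have h3 := h1 2
  simp only [uK, Matrix.cons_val_zero, Matrix.cons_val_one] at h0 h2
  have h3' : Polynomial.C (z 2) + Polynomial.C (z 3) * Polynomial.X =
      Polynomial.C (z' 2) + Polynomial.C (z' 3) * Polynomial.X := h3
  have e0 := congrArg (fun p => Polynomial.coeff p 0) h3'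
  have e1 := congrArg (fun p => Polynomial.coeff p 1) h3'
  simp [Polynomial.coeff_C] at e0 e1
  funext i
  fin_cases i
  · exact Polynomial.C_injective h0
  · exact Polynomial.C_injective h2
  · exact e0
  · exact e1

theorem pairNP {k T : Type} [Field k] (z : T → Fin 4 → k) (hinj : Function.Injective z)
    (h0 : ∀ t, z t 0 = 1) : PairNP (fun t => uR (z t)) := by
  refine ⟨fun t h => ?_, fun t s hts r h => ?_⟩
  · have h1 : uR (z t) 0 = 0 := congrFun h 0
    rw [uR_zero (h0 t)] at h1
    exact one_ne_zero h1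
  · have h' : uR (z t) = r • uR (z s) := h
    have h1 : uR (z t) 0 = (r • uR (z s)) 0 := congrFun h' 0
    rw [Pi.smul_apply, uR_zero (h0 t), uR_zero (h0 s), smul_eq_mul, mul_one] at h1
    rw [← h1, one_smul] at h'
    exact hts (hinj (uR_inj h'))

end DecompAux

open DecompAux

variable {K : Type} [Field K] [IsAlgClosed K] [CharZero K] [Algebra ℂ K]

open scoped Classical in
theorem decomp {F : MvPolynomial (Fin 4) ℂ} {d n : ℕ} (hd : d = n + 4)
    (hF : IsSmoothForm F d) (δ₁ δ₂ : Derivation ℂ K K) {ι : Type} [Fintype ι]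
    (y : ι → Fin 4 → K) (J ν : ι → K) (hR : RelData F n δ₁ δ₂ y J ν) (hy0 : ∀ i, y i 0 = 1)
    (i₀ : Option ι) (N : ι → ℤ) (hN : ∀ i, some i ≠ i₀ → ν i = N i)
    (hw : 8 * ∑ i ∈ Finset.univ.filter (fun i => some i ≠ i₀), |N i| <
      ((d : ℤ) - 3) * (d + 1))
    (S : ModelSys n (fun i : {i // J i ≠ 0} => y i)) (hx : ∀ j, (S.M j).xF F ≠ 0)
    (hinf : ∀ z : Fin 4 → K, z ≠ 0 → z 0 = 0 → aeval z F = 0 → ∀ j, ¬ (S.M j).On z)
    (μ : S.J → (Fin 4 → K) →₀ ℕ) (hμ : ∀ j, (S.M j).IsCycle ((S.M j).xF F) (μ j))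
    (hμs : ∀ j z, μ j z ≠ 0 ↔ z 0 = 1 ∧ aeval z F = 0 ∧ (S.M j).On z)
    (hμd : ∀ j, ((μ j).sum fun _ k => k) ≤ d * S.h j) :
    ∃ κ : S.J → ℤ, ∀ z : Fin 4 → K, z 0 = 1 → aeval z F = 0 → ¬ IsRes F δ₁ δ₂ z 0 →
      ∑ j, (κ j : K) * (μ j z : K) = ∑ i, if y i = z then ν i else 0 := by
  -- the residue function
  have hz_ne : ∀ z : Fin 4 → K, z 0 = 1 → z ≠ 0 := by
    intro z hz h; rw [h] at hz; exact zero_ne_one hz
  have hex : ∀ z : Fin 4 → K, ∃ j, (z 0 = 1 → aeval z F = 0 → IsRes F δ₁ δ₂ z j) := by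
    intro z
    by_cases h : z 0 = 1 ∧ aeval z F = 0
    · obtain ⟨j, hj, -⟩ := exists_isRes hF δ₁ δ₂ z (hz_ne z h.1) h.2
      exact ⟨j, fun _ _ => hj⟩
    · exact ⟨0, fun h1 h2 => absurd ⟨h1, h2⟩ h⟩
  choose R hRes using hex
  have huniq : ∀ z : Fin 4 → K, z 0 = 1 → aeval z F = 0 → ∀ j, IsRes F δ₁ δ₂ z j → j = R z := by
    intro z h1 h2 j hj
    obtain ⟨j0, _, hu⟩ := exists_isRes hF δ₁ δ₂ z (hz_ne z h1) h2
    rw [hu j hj, hu _ (hRes z h1 h2)]
  have hinjy : Function.Injective y := by
    intro i j hij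
    by_contra hne
    exact hR.np.2 i j hne 1 (by rw [hij, one_smul])
  -- the finite set of dominating points
  set T : Finset (Fin 4 → K) :=
    (Finset.univ.biUnion fun j => (μ j).support).filter (fun z => R z ≠ 0) with hT
  have hTmem : ∀ z, z ∈ T ↔ (∃ j, μ j z ≠ 0) ∧ R z ≠ 0 := by
    intro z
    rw [hT, Finset.mem_filter, Finset.mem_biUnion]
    simp
  have hT1 : ∀ z ∈ T, z 0 = 1 ∧ aeval z F = 0 := by
    intro z hz
    obtain ⟨⟨j, hj⟩, _⟩ := (hTmem z).1 hz
    have := (hμs j z).1 hj
    exact ⟨this.1, this.2.1⟩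
  -- points y i with J i ≠ 0 are in T
  have hJR : ∀ i, J i = R (y i) := fun i => huniq (y i) (hy0 i) (hR.mem i) (J i) (hR.res i)
  have hyT : ∀ i, J i ≠ 0 → y i ∈ T := by
    intro i hi
    rw [hTmem]
    refine ⟨?_, by rw [← hJR]; exact hi⟩
    obtain ⟨j, hj⟩ := S.cover ⟨i, hi⟩
    exact ⟨j, (hμs j _).2 ⟨hy0 i, hR.mem i, hj⟩⟩
  -- transported data
  let ν' : (Fin 4 → K) → K := fun z => ∑ i, if y i = z then ν i else 0
  let N' : (Fin 4 → K) → ℤ := fun z => ∑ i, if y i = z then N i else 0
  have hν'y : ∀ i, ν' (y i) = ν i := by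
    intro i
    show (∑ i', if y i' = y i then ν i' else 0) = ν i
    rw [Finset.sum_eq_single i]
    · simp
    · intro j _ hj
      rw [if_neg fun h => hj (hinjy h)]
    · intro h; exact absurd (Finset.mem_univ i) h
  have hN'y : ∀ i, N' (y i) = N i := by
    intro i
    show (∑ i', if y i' = y i then N i' else 0) = N i
    rw [Finset.sum_eq_single i]
    · simp
    · intro j _ hj
      rw [if_neg fun h => hj (hinjy h)]
    · intro h; exact absurd (Finset.mem_univ i) h
  have hν'0 : ∀ z, (∀ i, y i ≠ z) → ν' z = 0 := by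
    intro z hz
    exact Finset.sum_eq_zero fun i _ => if_neg (hz i)
  have hN'0 : ∀ z, (∀ i, y i ≠ z) → N' z = 0 := by
    intro z hz
    exact Finset.sum_eq_zero fun i _ => if_neg (hz i)
  let i₀' : Option {z // z ∈ T} :=
    i₀.bind (fun i => if h : y i ∈ T then some ⟨y i, h⟩ else none)
  have hi₀' : ∀ (t : {z // z ∈ T}) (i : ι), y i = t.1 → some t ≠ i₀' → some i ≠ i₀ := by
    intro t i hi ht h
    apply ht
    have hm : y i ∈ T := by rw [hi]; exact t.2
    have h5 : i₀' = (some i).bind
        (fun i => if h : y i ∈ T then some (⟨y i, h⟩ : {z // z ∈ T}) else none) := by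
      rw [h]
    rw [h5, Option.bind_some, dif_pos hm]
    congr 1
    exact Subtype.ext hi.symm
  -- main relation for cycles
  have hrelμ : ∀ j (f : MvPolynomial (Fin 4) K), f.IsHomogeneous n →
      ∑ t : {z // z ∈ T}, ((μ j t.1 : K) * R t.1) * eval t.1 f = 0 := by
    intro j f hf
    have h1 := section_relation hd hF (S.M j) (hx j) (fun z hz0 hz1 hon hzF =>
      hinf z (fun h => by rw [h] at hz1; exact zero_ne_one hz1) hz0 hzF j hon) (μ j) (hμ j) δ₁ δ₂ R
      (fun z hz => hRes z ((hμs j z).1 hz).1 ((hμs j z).1 hz).2.1) f hf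
    rw [Finset.sum_coe_sort T (fun z => ((μ j z : K) * R z) * eval z f)]
    rw [Finsupp.sum] at h1
    rw [← h1]
    have h2 : ∑ z ∈ (μ j).support, (μ j z : K) * (eval z f * R z) =
        ∑ z ∈ (μ j).support ∩ T, (μ j z : K) * (eval z f * R z) := by
      symm
      apply Finset.sum_subset Finset.inter_subset_left
      intro z hz hz2
      have : z ∉ T := fun h => hz2 (Finset.mem_inter.2 ⟨hz, h⟩)
      rw [hTmem] at this
      have h3 : R z = 0 := by
        by_contra h4
        exact this ⟨⟨j, Finsupp.mem_support_iff.1 hz⟩, h4⟩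
      rw [h3]; ring
    rw [h2]
    symm
    rw [Finset.sum_subset (Finset.inter_subset_right)]
    · refine Finset.sum_congr rfl fun z _ => by ring
    · intro z hz hz2
      have : z ∉ (μ j).support := fun h => hz2 (Finset.mem_inter.2 ⟨h, hz⟩)
      rw [Finsupp.notMem_support_iff.1 this]
      simp
  have hrelν : ∀ (f : MvPolynomial (Fin 4) K), f.IsHomogeneous n →
      ∑ t : {z // z ∈ T}, (ν' t.1 * R t.1) * eval t.1 f = 0 := by
    intro f hf
    rw [Finset.sum_coe_sort T (fun z => (ν' z * R z) * eval z f), ← hR.rel f hf]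
    have h1 : ∑ i, ν i * (J i * eval (y i) f) =
        ∑ z ∈ Finset.univ.image y, (ν' z * R z) * eval z f := by
      rw [Finset.sum_image (fun a _ b _ h => hinjy h)]
      refine Finset.sum_congr rfl fun i _ => ?_
      rw [hν'y, hJR]; ring
    rw [h1]
    have h2 : ∑ z ∈ Finset.univ.image y, (ν' z * R z) * eval z f =
        ∑ z ∈ Finset.univ.image y ∩ T, (ν' z * R z) * eval z f := by
      symm
      apply Finset.sum_subset Finset.inter_subset_left
      intro z hz hz2
      have hzT : z ∉ T := fun h => hz2 (Finset.mem_inter.2 ⟨hz, h⟩)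
      obtain ⟨i, -, rfl⟩ := Finset.mem_image.1 hz
      have h3 : J i = 0 := by
        by_contra h4
        exact hzT (hyT i h4)
      rw [← hJR, h3]; ring
    rw [h2]
    symm
    apply Finset.sum_subset Finset.inter_subset_right
    intro z hz hz2
    have : ∀ i, y i ≠ z := by
      intro i hi
      exact hz2 (Finset.mem_inter.2 ⟨Finset.mem_image.2 ⟨i, Finset.mem_univ _, hi⟩, hz⟩)
    rw [hν'0 z this]; ring
  -- apply the combinatorial theorem
  have key := plane_comb (k := RatFunc K) hd (fun j => (S.M j).GR) S.h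
    (fun j => ⟨S.irr j, (S.M j).G_hom.map _, S.one_le j⟩) S.na (by rw [hd]; exact S.deg)
    (ι := {z // z ∈ T}) (fun t => uR t.1)
    (pairNP _ Subtype.coe_injective (fun t => (hT1 t.1 t.2).1))
    (fun t => algebraMap K (RatFunc K) (R t.1))
    (fun t => by
      rw [Ne, map_eq_zero]
      exact ((hTmem t.1).1 t.2).2)
    (fun j t => μ j t.1)
    (fun j t => by
      rw [hμs, on_iff]
      exact ⟨fun h => h.2.2, fun h => ⟨(hT1 t.1 t.2).1, (hT1 t.1 t.2).2, h⟩⟩)
    (fun j => by
      refine le_trans ?_ (hμd j)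
      rw [Finset.sum_coe_sort T (fun z => μ j z), Finsupp.sum]
      have : ∑ z ∈ T, μ j z = ∑ z ∈ T ∩ (μ j).support, μ j z := by
        symm
        apply Finset.sum_subset Finset.inter_subset_left
        intro z hz hz2
        have : z ∉ (μ j).support := fun h => hz2 (Finset.mem_inter.2 ⟨hz, h⟩)
        exact Finsupp.notMem_support_iff.1 this
      rw [this]
      exact Finset.sum_le_sum_of_subset Finset.inter_subset_right)
    (fun j f hf => by
      have h1 := rel_ext (k' := RatFunc K) (fun t : {z // z ∈ T} => t.1)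
        (fun t => (μ j t.1 : K) * R t.1) n (hrelμ j) (sub3 K f) (sub3_hom hf)
      rw [← h1]
      refine Finset.sum_congr rfl fun t _ => ?_
      rw [eval_sub3, map_mul, map_natCast]; ring)
    i₀' (fun t => N' t.1) (fun t => algebraMap K (RatFunc K) (ν' t.1))
    (fun t ht => by
      by_cases h : ∃ i, y i = t.1
      · obtain ⟨i, hi⟩ := h
        rw [← hi, hν'y, hN'y, hN i (hi₀' t i hi ht), map_intCast]
      · push Not at h
        rw [hν'0 _ h, hN'0 _ h]; simp)
    (fun f hf => by
      have h1 := rel_ext (k' := RatFunc K) (fun t : {z // z ∈ T} => t.1)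
        (fun t => ν' t.1 * R t.1) n hrelν (sub3 K f) (sub3_hom hf)
      rw [← h1]
      refine Finset.sum_congr rfl fun t _ => ?_
      rw [eval_sub3, map_mul]; ring)
    (fun t _ => by
      obtain ⟨⟨j, hj⟩, _⟩ := (hTmem t.1).1 t.2
      exact ⟨j, (on_iff _ _).1 ((hμs j _).1 hj).2.2⟩)
    (by
      refine lt_of_le_of_lt ?_ hw
      have h8 : (0 : ℤ) ≤ 8 := by norm_num
      refine mul_le_mul_of_nonneg_left ?_ h8
      -- injection
      calc _ = ∑ t ∈ Finset.univ.filter (fun t : {z // z ∈ T} => some t ≠ i₀'), |N' t.1| := by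
            congr!
        _ = ∑ t ∈ (Finset.univ.filter (fun t : {z // z ∈ T} => some t ≠ i₀')).filter
              (fun t => ∃ i, y i = t.1), |N' t.1| := by
            symm
            apply Finset.sum_filter_of_ne
            intro t _ ht
            by_contra h
            push Not at h
            exact ht (by rw [hN'0 _ h, abs_zero])
        _ = ∑ z ∈ ((Finset.univ.filter (fun t : {z // z ∈ T} => some t ≠ i₀')).filter
              (fun t => ∃ i, y i = t.1)).image Subtype.val, |N' z| := by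
            rw [Finset.sum_image (fun a _ b _ h => Subtype.ext h)]
        _ ≤ ∑ z ∈ (Finset.univ.filter (fun i => some i ≠ i₀)).image y, |N' z| := by
            apply Finset.sum_le_sum_of_subset_of_nonneg
            · intro z hz
              obtain ⟨t, ht, rfl⟩ := Finset.mem_image.1 hz
              obtain ⟨ht1, i, hi⟩ := Finset.mem_filter.1 ht
              refine Finset.mem_image.2 ⟨i, Finset.mem_filter.2 ⟨Finset.mem_univ _, ?_⟩, hi⟩
              exact hi₀' t i hi (Finset.mem_filter.1 ht1).2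
            · intro z _ _; exact abs_nonneg _
        _ = ∑ i ∈ Finset.univ.filter (fun i => some i ≠ i₀), |N i| := by
            rw [Finset.sum_image (fun a _ b _ h => hinjy h)]
            refine Finset.sum_congr rfl fun i _ => by rw [hN'y])
  obtain ⟨κ, hκ⟩ := key
  refine ⟨κ, fun z hz0 hzF hzR => ?_⟩
  have hRz : R z ≠ 0 := by
    intro h
    apply hzR
    have := hRes z hz0 hzF
    rwa [h] at this
  by_cases hzT : z ∈ T
  · have h1 := hκ ⟨z, hzT⟩
    have h2 : algebraMap K (RatFunc K) (∑ j, (κ j : K) * (μ j z : K)) =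
        algebraMap K (RatFunc K) (ν' z) := by
      rw [h1, map_sum]
      refine Finset.sum_congr rfl fun j _ => ?_
      rw [map_mul, map_intCast, map_natCast]
    exact (algebraMap K (RatFunc K)).injective h2
  · have h1 : ∀ j, μ j z = 0 := by
      intro j
      by_contra h
      exact hzT ((hTmem z).2 ⟨⟨j, h⟩, hRz⟩)
    have h2 : ∀ i, y i ≠ z := by
      intro i hi
      apply hzT
      rw [← hi]
      apply hyT
      rw [hJR, hi]; exact hRz
    rw [Finset.sum_eq_zero fun j _ => by rw [h1 j]; simp]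
    exact (hν'0 z h2).symm

end Pool.Agent.LowDeg
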