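import Mathlib
import Pool.Agent.Chow0.Defs

/-!
# Correspondences of low degree on smooth surfaces in projective space: definitions
-/

set_option autoImplicit false

open scoped LinearAlgebra.Projectivization
open MvPolynomial

namespace Pool.Agent.LowDeg

open Pool.Agent.Chow0 (IsChowForm cyc CH0 Z0)

/-- The determinant of four vectors. -/
noncomputable def det4 {K : Type*} [CommRing K] (v₀ v₁ v₂ v₃ : Fin 4 → K) : K :=
  Matrix.det (Matrix.of ![v₀, v₁, v₂, v₃])

/-- The differential of `F` at `z` in the direction `v`. -/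
noncomputable def dF {K : Type*} [CommRing K] [Algebra ℂ K] (F : MvPolynomial (Fin 4) ℂ)
    (z v : Fin 4 → K) : K :=
  ∑ i, v i * aeval z (pderiv i F)

/-- `F` is a form of degree `d` in four variables whose zero set is a smooth surface of `ℙ³`. -/
structure IsSmoothForm (F : MvPolynomial (Fin 4) ℂ) (d : ℕ) : Prop where
  hom : F.IsHomogeneous d
  smooth : ∀ x : Fin 4 → ℂ, x ≠ 0 → aeval x F = 0 → ∃ i, aeval x (pderiv i F) ≠ 0

/-- The set of zeros of the form `F` in projective space. -/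
def surf (F : MvPolynomial (Fin 4) ℂ) : Set (ℙ ℂ (Fin 4 → ℂ)) := {p | aeval p.rep F = 0}

/-- The linear form `∑ z_j λ_j`. -/
noncomputable def linF {K : Type*} [CommRing K] (z : Fin 4 → K) : MvPolynomial (Fin 4) K :=
  ∑ j, C (z j) * X j

section

variable {K : Type} [Field K] [Algebra ℂ K]

/-- `ξ` is a generic point (over an algebraic closure `K` of the function field) of the surface
`F = 0`. -/
structure IsGenericPoint (F : MvPolynomial (Fin 4) ℂ) (ξ : Fin 4 → K) : Prop where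
  one : ξ 0 = 1
  zero : aeval ξ F = 0
  gen : ∀ (e : ℕ) (G : MvPolynomial (Fin 4) ℂ), G.IsHomogeneous e → aeval ξ G = 0 → F ∣ G
  alg : Algebra.IsAlgebraic (IntermediateField.adjoin ℂ (Set.range ξ)) K

/-- `J` is the value at the point `z` of the surface `F = 0` of the 2-form `Res (Ω / F)`,
`Ω = ∑ ± x_i dx_j dx_k dx_l`, on the pair of derivations `D₁, D₂`. -/
def IsRes (F : MvPolynomial (Fin 4) ℂ) (D₁ D₂ : Derivation ℂ K K) (z : Fin 4 → K) (J : K) : Prop :=
  ∀ v : Fin 4 → K, det4 v z (fun i => D₁ (z i)) (fun i => D₂ (z i)) = J * dF F z v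

/-- An effective correspondence of degree `w` from the surface `F = 0` to itself: an effective
zero-cycle of degree `w` of the generic fibre of the first projection, given by its Chow form. -/
structure EffCorr (F : MvPolynomial (Fin 4) ℂ) (ξ : Fin 4 → K) (w : ℕ) where
  /-- the Chow form; the coefficients are forms in `x`, the variables are the `λ_j` -/
  Φ : MvPolynomial (Fin 4) (MvPolynomial (Fin 4) ℂ)
  /-- the degree in `x` -/
  e : ℕ
  hom : ∀ m, (coeff m Φ).IsHomogeneous e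
  /-- the points of the cycle over the generic point -/
  pts : Fin w → Fin 4 → K
  pts_ne : ∀ i, pts i ≠ 0
  pts_mem : ∀ i, aeval (pts i) F = 0
  /-- the constant factor -/
  c : K
  c_ne : c ≠ 0
  fac : map (aeval ξ : MvPolynomial (Fin 4) ℂ →ₐ[ℂ] K).toRingHom Φ = C c * ∏ i, linF (pts i)

/-- The Chow form of the cycle of the correspondence over the point `x`. -/
noncomputable def EffCorr.at {F : MvPolynomial (Fin 4) ℂ} {ξ : Fin 4 → K} {w : ℕ}
    (Γ : EffCorr F ξ w) (x : Fin 4 → ℂ) : MvPolynomial (Fin 4) ℂ :=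
  map (eval x) Γ.Φ

/-- The correspondence `Γ⁺ - Γ⁻` acts on the 2-forms `Res (f Ω / F)`, `deg f = n`, by the
scalar `m`. -/
def ActsByScalar (F : MvPolynomial (Fin 4) ℂ) (n : ℕ) {ξ : Fin 4 → K} {w w' : ℕ}
    (Γ : EffCorr F ξ w) (Γ' : EffCorr F ξ w') (m : ℂ) : Prop :=
  ∀ (D₁ D₂ : Derivation ℂ K K) (f : MvPolynomial (Fin 4) ℂ), f.IsHomogeneous n →
    ∀ (J : Fin w → K) (J' : Fin w' → K) (J₀ : K), (∀ i, IsRes F D₁ D₂ (Γ.pts i) (J i)) →
      (∀ i, IsRes F D₁ D₂ (Γ'.pts i) (J' i)) → IsRes F D₁ D₂ ξ J₀ →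
      ∑ i, aeval (Γ.pts i) f * J i - ∑ i, aeval (Γ'.pts i) f * J' i =
        algebraMap ℂ K m * (aeval ξ f * J₀)

/-- The zero-cycle `∑ m_i [p_i]` has degree zero and is killed by all correspondences from the
surface `F = 0` to curves `F = G₀ = 0` whose fibres at the `p_i` are defined. -/
def AlbTrivial (F : MvPolynomial (Fin 4) ℂ) (ξ : Fin 4 → K) {ι : Type} [Fintype ι]
    (p : ι → surf F) (m : ι → ℤ) : Prop :=
  ∑ i, m i = 0 ∧
    ∀ (e : ℕ) (G₀ : MvPolynomial (Fin 4) ℂ), G₀.IsHomogeneous e → ¬ F ∣ G₀ →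
      ∀ (w : ℕ) (W : EffCorr F ξ w), (∀ i, aeval (W.pts i) G₀ = 0) →
        ∀ t : ι → Multiset (surf F ∩ surf G₀ : Set (ℙ ℂ (Fin 4 → ℂ))),
          (∀ i, IsChowForm (surf F ∩ surf G₀) (W.at (p i).1.rep) (t i)) →
          (QuotientAddGroup.mk (∑ i, m i • cyc (t i)) :
            CH0 (surf F ∩ surf G₀ : Set (ℙ ℂ (Fin 4 → ℂ)))) = 0

end

/-- **The main theorem** (statement). -/
def MainStatement : Prop :=
  ∀ (F : MvPolynomial (Fin 4) ℂ) (d : ℕ), 5 ≤ d → IsSmoothForm F d →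
    ∀ (K : Type) [Field K] [Algebra ℂ K] [IsAlgClosed K] (ξ : Fin 4 → K), IsGenericPoint F ξ →
      ∀ (w w' : ℕ) (Γ : EffCorr F ξ w) (Γ' : EffCorr F ξ w') (m : ℂ),
        8 * (w + w') < (d - 3) * (d + 1) → ActsByScalar F (d - 4) Γ Γ' m →
        ∃ m₀ : ℤ, m = m₀ ∧ ∃ (e : ℕ) (D : MvPolynomial (Fin 4) ℂ), D.IsHomogeneous e ∧ ¬ F ∣ D ∧
          (∀ p : surf F, aeval p.1.rep D ≠ 0 →
            (∃ s, IsChowForm (surf F) (Γ.at p.1.rep) s) ∧
              ∃ s', IsChowForm (surf F) (Γ'.at p.1.rep) s') ∧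
          ∀ (ι : Type) [Fintype ι] (p : ι → surf F) (k : ι → ℤ),
            (∀ i, aeval (p i).1.rep D ≠ 0) → AlbTrivial F ξ p k →
            ∀ s s' : ι → Multiset (surf F),
              (∀ i, IsChowForm (surf F) (Γ.at (p i).1.rep) (s i)) →
              (∀ i, IsChowForm (surf F) (Γ'.at (p i).1.rep) (s' i)) →
              (QuotientAddGroup.mk (∑ i, k i • (cyc (s i) - cyc (s' i))) : CH0 (surf F)) =
                QuotientAddGroup.mk (∑ i, k i • m₀ • FreeAbelianGroup.of (p i))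

end Pool.Agent.LowDeg
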