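import Pool.Agent.LowDeg.SmoothExt

/-! Module B3 (doc section 13): a basis of the derivations of `K` over `ℂ`. -/

set_option autoImplicit false

open MvPolynomial

namespace Pool.Agent.LowDeg.DerKAux

open scoped TensorProduct
open scoped IntermediateField.algebraAdjoinAdjoin

/-- derivations can be prescribed on a transcendence basis -/
theorem exists_der {k K ι : Type} [Field k] [CharZero k] [Field K] [Algebra k K] {v : ι → K}
    (hv : IsTranscendenceBasis k v) (c : ι → K) :
    ∃ D : Derivation k K K, ∀ i, D (v i) = c i := by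
  classical
  have hk : CharZero K := charZero_of_injective_algebraMap (algebraMap k K).injective
  let A0 := Algebra.adjoin k (Set.range v)
  let L0 := IntermediateField.adjoin k (Set.range v)
  have hL : CharZero L0 := charZero_of_injective_algebraMap (algebraMap k L0).injective
  have h1 : Algebra.FormallyEtale A0 L0 := Algebra.FormallyEtale.of_isLocalization (nonZeroDivisors A0)
  have halg : Algebra.IsAlgebraic L0 K := hv.isAlgebraic_field
  have h2 : Algebra.FormallyEtale L0 K := Algebra.FormallyEtale.of_isSeparable L0 K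
  have h3 : Algebra.FormallyEtale A0 K := Algebra.FormallyEtale.comp A0 L0 K
  -- derivation on A0
  let e : MvPolynomial ι k ≃ₐ[k] A0 := hv.1.aevalEquiv
  let _ : Module (MvPolynomial ι k) K := Module.compHom K (e : MvPolynomial ι k →+* A0)
  have : IsScalarTower k (MvPolynomial ι k) K := by
    refine ⟨fun a p x => ?_⟩
    change (e (a • p)) • x = a • ((e p) • x)
    rw [map_smul, smul_assoc]
  let D1 : Derivation k (MvPolynomial ι k) K := MvPolynomial.mkDerivation k c
  let D0 : Derivation k A0 K := Derivation.mk' ((D1 : MvPolynomial ι k →ₗ[k] K) ∘ₗ (e.symm : A0 →ₐ[k] MvPolynomial ι k).toLinearMap) (by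
    intro a b
    have h := D1.leibniz (e.symm a) (e.symm b)
    simp only [LinearMap.comp_apply]
    change D1 (e.symm (a * b)) = a • D1 (e.symm b) + b • D1 (e.symm a)
    rw [map_mul, h]
    change (e (e.symm a)) • (D1 (e.symm b)) + (e (e.symm b)) • (D1 (e.symm a)) = _
    rw [e.apply_symm_apply, e.apply_symm_apply])
  have hD0 : ∀ i, D0 (e (X i)) = c i := by
    intro i
    change D1 (e.symm (e (X i))) = c i
    rw [e.symm_apply_apply]
    exact MvPolynomial.mkDerivation_X k c i
  let f : K ⊗[A0] Ω[A0⁄k] →ₗ[K] K := LinearMap.liftBaseChange K D0.liftKaehlerDifferential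
  let g : Ω[K⁄k] →ₗ[K] K :=
    f ∘ₗ (KaehlerDifferential.tensorKaehlerEquivOfFormallyEtale k A0 K).symm.toLinearMap
  refine ⟨g.compDer (KaehlerDifferential.D k K), fun i => ?_⟩
  have hvi : v i = algebraMap A0 K (e (X i)) := by
    have h := AlgebraicIndependent.algebraMap_aevalEquiv hv.1 (X i)
    rw [aeval_X] at h
    exact h.symm
  change g (KaehlerDifferential.D k K (v i)) = c i
  rw [hvi]
  change f ((KaehlerDifferential.tensorKaehlerEquivOfFormallyEtale k A0 K).symm _) = _
  rw [KaehlerDifferential.tensorKaehlerEquivOfFormallyEtale_symm_D_algebraMap]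
  simp only [f, LinearMap.liftBaseChange_tmul, Derivation.liftKaehlerDifferential_comp_D, one_smul]
  exact hD0 i

/-- a derivation vanishing on a set over which `K` is algebraic is zero -/
theorem der_eq_zero {k K : Type} [Field k] [CharZero k] [Field K] [Algebra k K] (s : Set K)
    [halg : Algebra.IsAlgebraic (IntermediateField.adjoin k s) K] (D : Derivation k K K)
    (h : ∀ x ∈ s, D x = 0) : D = 0 := by
  have hk : CharZero K := charZero_of_injective_algebraMap (algebraMap k K).injective
  let L1 : IntermediateField k K :=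
    { carrier := {x | D x = 0}
      mul_mem' := by
        intro a b ha hb
        simp only [Set.mem_ofPred_eq] at *
        rw [D.leibniz, ha, hb, smul_zero, smul_zero, add_zero]
      one_mem' := D.map_one_eq_zero
      add_mem' := by
        intro a b ha hb
        simp only [Set.mem_ofPred_eq] at *
        rw [map_add, ha, hb, add_zero]
      zero_mem' := map_zero D
      algebraMap_mem' := fun r => D.map_algebraMap r
      inv_mem' := by
        intro a ha
        simp only [Set.mem_ofPred_eq] at *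
        rw [Derivation.leibniz_inv, ha, smul_zero] }
  have hle : IntermediateField.adjoin k s ≤ L1 := IntermediateField.adjoin_le_iff.mpr h
  let D' : Derivation L1 K K := Derivation.mk'
    { toFun := D
      map_add' := map_add D
      map_smul' := fun a x => by
        rw [Algebra.smul_def, D.leibniz]
        have ha : D (algebraMap L1 K a) = 0 := a.2
        rw [ha, smul_zero, add_zero]
        rfl } (fun a b => D.leibniz a b)
  have hL1 : CharZero L1 := charZero_of_injective_algebraMap (algebraMap k L1).injective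
  have halg1 : Algebra.IsAlgebraic L1 K := by
    let _ : Algebra (IntermediateField.adjoin k s) L1 := (IntermediateField.inclusion hle).toAlgebra
    have : IsScalarTower (IntermediateField.adjoin k s) L1 K := IsScalarTower.of_algebraMap_eq fun x => rfl
    exact Algebra.IsAlgebraic.tower_top (K := IntermediateField.adjoin k s) L1
  ext x
  have hx : IsIntegral L1 x := (halg1.isAlgebraic x).isIntegral
  have h1 : D' (Polynomial.aeval x (minpoly L1 x)) =
      Polynomial.aeval x (Polynomial.derivative (minpoly L1 x)) • D' x := D'.map_aeval _ _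
  rw [minpoly.aeval, map_zero] at h1
  have h2 : Polynomial.aeval x (Polynomial.derivative (minpoly L1 x)) ≠ 0 :=
    (minpoly.irreducible hx).separable.aeval_derivative_ne_zero (minpoly.aeval _ _)
  rcases smul_eq_zero.mp h1.symm with h3 | h3
  · exact absurd h3 h2
  · exact h3


theorem idx : ∀ l i : Fin 4, i ≠ l → ∃ j k : Fin 4, j ≠ l ∧ j ≠ i ∧ k ≠ l ∧ k ≠ i ∧ j ≠ k ∧
    ∀ m, m = l ∨ m = i ∨ m = j ∨ m = k := by
  decide

variable {K : Type} [Field K] [Algebra ℂ K]

/-- homogenisation -/
theorem algInd {F : MvPolynomial (Fin 4) ℂ} {z : Fin 4 → K} {l i j k : Fin 4} (hz : z l = 1)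
    (gen : ∀ (e : ℕ) (G : MvPolynomial (Fin 4) ℂ), G.IsHomogeneous e → aeval z G = 0 → F ∣ G)
    (hi : aeval z (pderiv i F) ≠ 0) (hil : i ≠ l) (hjl : j ≠ l) (hji : j ≠ i) (hkl : k ≠ l)
    (hki : k ≠ i) (hjk : j ≠ k) : AlgebraicIndependent ℂ ![z j, z k] := by
  classical
  rw [algebraicIndependent_iff]
  intro g hg
  set G : MvPolynomial (Fin 4) ℂ := ∑ m ∈ Finset.range (g.totalDegree + 1),
    X l ^ (g.totalDegree - m) * rename ![j, k] (homogeneousComponent m g) with hG
  have hcomp : z ∘ ![j, k] = ![z j, z k] := by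
    funext a
    fin_cases a <;> rfl
  have hsum : ∑ m ∈ Finset.range (g.totalDegree + 1), homogeneousComponent m g = g :=
    sum_homogeneousComponent g
  have h1 : G.IsHomogeneous g.totalDegree := by
    refine IsHomogeneous.sum _ _ _ fun m hm => ?_
    have hm' : m ≤ g.totalDegree := Nat.lt_succ_iff.mp (Finset.mem_range.mp hm)
    have h2 := (isHomogeneous_X_pow (R := ℂ) l (g.totalDegree - m)).mul
      ((homogeneousComponent_isHomogeneous m g).rename_isHomogeneous (f := ![j, k]))
    rwa [Nat.sub_add_cancel hm'] at h2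
  have h2 : aeval z G = 0 := by
    rw [hG, map_sum]
    simp only [map_mul, map_pow, aeval_X, hz, one_pow, one_mul, aeval_rename, hcomp]
    rw [← map_sum, hsum, hg]
  have h3 := gen _ _ h1 h2
  -- dehomogenise
  have hG0 : G = 0 := by
    by_contra hne
    obtain ⟨H, hH⟩ := h3
    have hF : F ≠ 0 := fun h => hne (by rw [hH, h, zero_mul])
    have hH0 : H ≠ 0 := fun h => hne (by rw [hH, h, mul_zero])
    have h4 : degreeOf i G = 0 := by
      have h5 : i ∉ G.vars := by
        intro hmem
        have h6 := vars_sum_subset _ _ hmem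
        rw [Finset.mem_biUnion] at h6
        obtain ⟨m, -, h7⟩ := h6
        have h8 := vars_mul _ _ h7
        rw [Finset.mem_union] at h8
        rcases h8 with h8 | h8
        · have h9 := vars_pow _ _ h8
          rw [vars_X, Finset.mem_singleton] at h9
          exact hil h9
        · have h9 := vars_rename _ _ h8
          rw [Finset.mem_image] at h9
          obtain ⟨a, -, ha⟩ := h9
          fin_cases a
          · exact hji ha
          · exact hki ha
      by_contra h
      exact h5 (mem_vars_iff_degreeOf_ne_zero.mpr h)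
    rw [hH, degreeOf_mul_eq hF hH0] at h4
    have h5 : degreeOf i F = 0 := by omega
    have h6 : i ∉ F.vars := fun h => mem_vars_iff_degreeOf_ne_zero.mp h h5
    rw [pderiv_eq_zero_of_notMem_vars h6, map_zero] at hi
    exact hi rfl
  let φ : MvPolynomial (Fin 4) ℂ →ₐ[ℂ] MvPolynomial (Fin 2) ℂ :=
    aeval (fun m => if m = j then X 0 else if m = k then X 1 else if m = l then 1 else 0)
  have h4 : φ G = g := by
    rw [hG, map_sum]
    have h5 : (fun m => if m = j then (X 0 : MvPolynomial (Fin 2) ℂ) else if m = k then X 1 else if m = l then 1 else 0) ∘ ![j, k] = X := by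
      funext a
      fin_cases a
      · simp
      · simp [hjk.symm]
    have h6 : ∀ m ∈ Finset.range (g.totalDegree + 1), φ (X l ^ (g.totalDegree - m) *
        rename ![j, k] (homogeneousComponent m g)) = homogeneousComponent m g := by
      intro m _
      rw [map_mul, map_pow]
      simp only [φ, aeval_X, aeval_rename, h5, hjl.symm, hkl.symm, if_false, if_true, one_pow,
        one_mul, aeval_X_left, AlgHom.id_apply]
    rw [Finset.sum_congr rfl h6, hsum]
  rw [← h4, hG0, map_zero]

/-- Euler -/
theorem exists_pderiv {F : MvPolynomial (Fin 4) ℂ} {d : ℕ} (hF : IsSmoothForm F d)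
    {z : Fin 4 → K} {l : Fin 4} (hz : z l = 1) (hz0 : aeval z F = 0) :
    ∃ i, i ≠ l ∧ aeval z (pderiv i F) ≠ 0 := by
  have hne : z ≠ 0 := fun h => by rw [h] at hz; exact zero_ne_one hz
  obtain ⟨i, hi⟩ := smooth_ext hF z hne hz0
  by_cases h : i = l
  · by_contra hcon
    push Not at hcon
    have h1 := dF_self hF.hom z
    rw [hz0, mul_zero] at h1
    unfold dF at h1
    rw [Finset.sum_eq_single l] at h1
    · rw [hz, one_mul, ← h] at h1
      exact hi h1
    · intro b _ hb
      rw [hcon b hb, mul_zero]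
    · intro hb
      exact absurd (Finset.mem_univ l) hb
  · exact ⟨i, h, hi⟩

theorem derivative_aeval {L : Type} [Field L] [Algebra ℂ L] (i : Fin 4) (c : Fin 4 → L)
    (F : MvPolynomial (Fin 4) ℂ) :
    Polynomial.derivative (aeval (fun m => if m = i then (Polynomial.X : Polynomial L)
      else Polynomial.C (c m)) F) =
    aeval (fun m => if m = i then (Polynomial.X : Polynomial L) else Polynomial.C (c m))
      (pderiv i F) := by
  classical
  induction F using MvPolynomial.induction_on with
  | C a =>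
    rw [pderiv_C, map_zero, aeval_C]
    change Polynomial.derivative (Polynomial.C (algebraMap ℂ L a)) = 0
    exact Polynomial.derivative_C
  | add p q hp hq => rw [map_add, map_add, hp, hq, map_add, map_add]
  | mul_X p m hp =>
    rw [map_mul, Polynomial.derivative_mul, hp, Derivation.leibniz, aeval_X, pderiv_X, map_add,
      smul_eq_mul, smul_eq_mul, map_mul, map_mul, aeval_X]
    by_cases hm : m = i
    · subst hm
      simp [add_comm, mul_comm]
    · simp [hm, mul_comm]

theorem isAlg {F : MvPolynomial (Fin 4) ℂ} {z : Fin 4 → K} {l i j k : Fin 4} (hz : z l = 1)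
    (hz0 : aeval z F = 0) (hi : aeval z (pderiv i F) ≠ 0)
    (hall : ∀ m, m = l ∨ m = i ∨ m = j ∨ m = k)
    [Algebra.IsAlgebraic (IntermediateField.adjoin ℂ (Set.range z)) K] :
    Algebra.IsAlgebraic (IntermediateField.adjoin ℂ (Set.range ![z j, z k])) K := by
  classical
  let L0 := IntermediateField.adjoin ℂ (Set.range ![z j, z k])
  have hmem : ∀ m, m ≠ i → z m ∈ L0 := by
    intro m hm
    rcases hall m with h | h | h | h
    · rw [h, hz]; exact one_mem _
    · exact absurd h hm
    · rw [h]; exact IntermediateField.subset_adjoin _ _ ⟨0, rfl⟩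
    · rw [h]; exact IntermediateField.subset_adjoin _ _ ⟨1, rfl⟩
  let c : Fin 4 → L0 := fun m => if h : m = i then 0 else ⟨z m, hmem m h⟩
  let p : Polynomial L0 := aeval (fun m => if m = i then (Polynomial.X : Polynomial L0)
      else Polynomial.C (c m)) F
  have hev : ∀ P : MvPolynomial (Fin 4) ℂ, Polynomial.aeval (z i) (aeval (fun m => if m = i then
      (Polynomial.X : Polynomial L0) else Polynomial.C (c m)) P) = aeval z P := by
    intro P
    have h1 : ((Polynomial.aeval (R := L0) (z i)).restrictScalars ℂ).comp (aeval (fun m => if m = i then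
      (Polynomial.X : Polynomial L0) else Polynomial.C (c m))) = (aeval z : MvPolynomial (Fin 4) ℂ →ₐ[ℂ] K) := by
      refine MvPolynomial.algHom_ext fun m => ?_
      rw [AlgHom.comp_apply, aeval_X, aeval_X]
      by_cases hm : m = i
      · simp [hm]
      · simp only [hm, if_false, AlgHom.restrictScalars_apply, Polynomial.aeval_C]
        change ((c m : L0) : K) = z m
        simp only [c, hm, dif_neg, not_false_eq_true]
    exact DFunLike.congr_fun h1 P
  have hp : Polynomial.aeval (z i) p = 0 := by rw [hev, hz0]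
  have hp0 : p ≠ 0 := by
    intro h
    apply hi
    rw [← hev (pderiv i F), ← derivative_aeval]
    change Polynomial.aeval (z i) (Polynomial.derivative p) = 0
    rw [h, Polynomial.derivative_zero, map_zero]
  have hzi : IsAlgebraic L0 (z i) := ⟨p, hp0, hp⟩
  -- the field L2 = algebraic closure of L0 in K
  have hmem2 : ∀ m, IsAlgebraic L0 (z m) := by
    intro m
    by_cases hm : m = i
    · rw [hm]; exact hzi
    · exact isAlgebraic_algebraMap (⟨z m, hmem m hm⟩ : L0)
  let L2 : IntermediateField L0 K := algebraicClosure L0 K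
  have hle : IntermediateField.adjoin ℂ (Set.range z) ≤ L2.restrictScalars ℂ := by
    rw [IntermediateField.adjoin_le_iff]
    rintro _ ⟨m, rfl⟩
    exact mem_algebraicClosure_iff.mpr (hmem2 m)
  have h2 : Algebra.IsAlgebraic L2 K := by
    let _ : Algebra (IntermediateField.adjoin ℂ (Set.range z)) L2 :=
      (IntermediateField.inclusion hle).toAlgebra
    have : IsScalarTower (IntermediateField.adjoin ℂ (Set.range z)) L2 K :=
      IsScalarTower.of_algebraMap_eq fun x => rfl
    exact Algebra.IsAlgebraic.tower_top (K := IntermediateField.adjoin ℂ (Set.range z)) L2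
  exact Algebra.IsAlgebraic.trans L0 L2 K


/-- the pair of coordinates of the generic point is a transcendence basis -/
theorem exists_basis {F : MvPolynomial (Fin 4) ℂ} {d : ℕ} (hF : IsSmoothForm F d)
    {ξ : Fin 4 → K} (hξ : IsGenericPoint F ξ) :
    ∃ j k : Fin 4, IsTranscendenceBasis ℂ ![ξ j, ξ k] := by
  obtain ⟨i, hi0, hi⟩ := exists_pderiv hF hξ.one hξ.zero
  obtain ⟨j, k, hj0, hji, hk0, hki, hjk, hall⟩ := idx 0 i hi0
  have halg := hξ.alg
  have h1 : AlgebraicIndependent ℂ ![ξ j, ξ k] :=
    algInd hξ.one hξ.gen hi hi0 hj0 hji hk0 hki hjk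
  have h2 : Algebra.IsAlgebraic (IntermediateField.adjoin ℂ (Set.range ![ξ j, ξ k])) K :=
    isAlg hξ.one hξ.zero hi hall
  refine ⟨j, k, h1.isTranscendenceBasis_iff_isAlgebraic.mpr ?_⟩
  exact IntermediateField.isAlgebraic_adjoin_iff_top.mp h2

theorem aeval_scale {G : MvPolynomial (Fin 4) ℂ} {e : ℕ} (hG : G.IsHomogeneous e) (z : Fin 4 → K)
    (c : K) : aeval (fun m => c * z m) G = c ^ e * aeval z G := by
  rw [aeval_def, aeval_def, eval₂_eq', eval₂_eq', Finset.mul_sum]
  refine Finset.sum_congr rfl fun t ht => ?_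
  have h1 : t.degree = e := by
    by_contra h
    exact (mem_support_iff.mp ht) (hG.coeff_eq_zero h)
  have h2 : ∏ i, (c * z i) ^ t i = c ^ e * ∏ i, z i ^ t i := by
    simp only [mul_pow, Finset.prod_mul_distrib, Finset.prod_pow_eq_pow_sum]
    congr 2
    rw [← h1, Finsupp.degree_eq_sum]
  rw [h2]
  ring

theorem indep_of_comb {δ₁ δ₂ : Derivation ℂ K K}
    (hδ : ∀ D : Derivation ℂ K K, ∃ α β : K, D = α • δ₁ + β • δ₂) {u v : K}
    (hv : IsTranscendenceBasis ℂ ![u, v]) {b c : K} (h : b • δ₁ + c • δ₂ = 0) : b = 0 ∧ c = 0 := by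
  obtain ⟨e1, he1⟩ := exists_der hv ![1, 0]
  obtain ⟨e2, he2⟩ := exists_der hv ![0, 1]
  have h11 : e1 u = 1 := he1 0
  have h12 : e1 v = 0 := he1 1
  have h21 : e2 u = 0 := he2 0
  have h22 : e2 v = 1 := he2 1
  obtain ⟨a1, b1, rfl⟩ := hδ e1
  obtain ⟨a2, b2, rfl⟩ := hδ e2
  have hu : b * δ₁ u + c * δ₂ u = 0 := by
    have := DFunLike.congr_fun h u
    simpa using this
  have hv' : b * δ₁ v + c * δ₂ v = 0 := by
    have := DFunLike.congr_fun h v
    simpa using this
  simp only [Derivation.add_apply, Derivation.smul_apply, smul_eq_mul] at h11 h12 h21 h22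
  have hdet : (a1 * b2 - b1 * a2) * (δ₁ u * δ₂ v - δ₁ v * δ₂ u) = 1 := by
    linear_combination (a2 * δ₁ v + b2 * δ₂ v) * h11 + h22 - (a2 * δ₁ u + b2 * δ₂ u) * h12
  have hne : δ₁ u * δ₂ v - δ₁ v * δ₂ u ≠ 0 := by
    intro h0
    rw [h0, mul_zero] at hdet
    exact zero_ne_one hdet
  constructor
  · have : b * (δ₁ u * δ₂ v - δ₁ v * δ₂ u) = 0 := by
      linear_combination δ₂ v * hu - δ₂ u * hv'
    exact (mul_eq_zero.mp this).resolve_right hne
  · have : c * (δ₁ u * δ₂ v - δ₁ v * δ₂ u) = 0 := by
      linear_combination δ₁ u * hv' - δ₁ v * hu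
    exact (mul_eq_zero.mp this).resolve_right hne

end Pool.Agent.LowDeg.DerKAux

namespace Pool.Agent.LowDeg

open DerKAux

variable {K : Type} [Field K] [Algebra ℂ K] [IsAlgClosed K]

/-- `K` has transcendence degree 2: there is a basis of the derivations, and the generic point is
dominating. -/
theorem exists_basis_der {F : MvPolynomial (Fin 4) ℂ} {d : ℕ} (hd : 2 ≤ d) (hF : IsSmoothForm F d)
    {ξ : Fin 4 → K} (hξ : IsGenericPoint F ξ) :
    ∃ δ₁ δ₂ : Derivation ℂ K K,
      (∀ D : Derivation ℂ K K, ∃ α β : K, D = α • δ₁ + β • δ₂) ∧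
      LinearIndependent K ![ξ, fun i => δ₁ (ξ i), fun i => δ₂ (ξ i)] := by
  obtain ⟨j, k, hb⟩ := exists_basis hF hξ
  obtain ⟨δ₁, h1⟩ := exists_der hb ![1, 0]
  obtain ⟨δ₂, h2⟩ := exists_der hb ![0, 1]
  have h11 : δ₁ (ξ j) = 1 := h1 0
  have h12 : δ₁ (ξ k) = 0 := h1 1
  have h21 : δ₂ (ξ j) = 0 := h2 0
  have h22 : δ₂ (ξ k) = 1 := h2 1
  refine ⟨δ₁, δ₂, fun D => ⟨D (ξ j), D (ξ k), ?_⟩, ?_⟩
  · have halg := hb.isAlgebraic_field
    rw [← sub_eq_zero]
    refine der_eq_zero (Set.range ![ξ j, ξ k]) _ ?_
    rintro _ ⟨a, rfl⟩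
    fin_cases a
    · simp [h11, h21]
    · simp [h12, h22]
  · rw [Fintype.linearIndependent_iff]
    intro g hg
    rw [Fin.sum_univ_three] at hg
    have key : ∀ m, g 0 * ξ m + g 1 * δ₁ (ξ m) + g 2 * δ₂ (ξ m) = 0 := by
      intro m
      have := congrFun hg m
      simpa using this
    have k0 := key 0
    rw [hξ.one, δ₁.map_one_eq_zero, δ₂.map_one_eq_zero] at k0
    have h0 : g 0 = 0 := by simpa using k0
    have kj := key j
    have kk := key k
    rw [h11, h21, h0] at kj
    rw [h12, h22, h0] at kk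
    intro i
    fin_cases i
    · exact h0
    · simpa using kj
    · simpa using kk

/-- (ND) a point whose coordinates satisfy a differential dependence lies on a curve. -/
theorem exists_form_of_dependent {F : MvPolynomial (Fin 4) ℂ} {d : ℕ} (hd : 2 ≤ d)
    (hF : IsSmoothForm F d) {ξ : Fin 4 → K} (hξ : IsGenericPoint F ξ) (δ₁ δ₂ : Derivation ℂ K K)
    (hδ : ∀ D : Derivation ℂ K K, ∃ α β : K, D = α • δ₁ + β • δ₂)
    (z : Fin 4 → K) (hz : z ≠ 0) (hz0 : aeval z F = 0)
    (hdep : ¬ LinearIndependent K ![z, fun i => δ₁ (z i), fun i => δ₂ (z i)]) :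
    ∃ (e : ℕ) (G : MvPolynomial (Fin 4) ℂ), G.IsHomogeneous e ∧ aeval z G = 0 ∧ ¬ F ∣ G := by
  by_contra hcon
  have gen : ∀ (e : ℕ) (G : MvPolynomial (Fin 4) ℂ), G.IsHomogeneous e → aeval z G = 0 → F ∣ G := by
    intro e G hG h0
    by_contra h
    exact hcon ⟨e, G, hG, h0, h⟩
  obtain ⟨l, hl⟩ : ∃ l, z l ≠ 0 := by
    by_contra h
    push Not at h
    exact hz (funext h)
  set z' : Fin 4 → K := fun m => (z l)⁻¹ * z m with hz'
  have hz'l : z' l = 1 := inv_mul_cancel₀ hl
  have hsc : ∀ (e : ℕ) (G : MvPolynomial (Fin 4) ℂ), G.IsHomogeneous e →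
      aeval z' G = (z l)⁻¹ ^ e * aeval z G := fun e G hG => aeval_scale hG z _
  have gen' : ∀ (e : ℕ) (G : MvPolynomial (Fin 4) ℂ), G.IsHomogeneous e → aeval z' G = 0 →
      F ∣ G := by
    intro e G hG h0
    rw [hsc e G hG] at h0
    exact gen e G hG ((mul_eq_zero.mp h0).resolve_left (pow_ne_zero _ (inv_ne_zero hl)))
  have hz'0 : aeval z' F = 0 := by rw [hsc d F hF.hom, hz0, mul_zero]
  obtain ⟨i, hil, hi⟩ := exists_pderiv hF hz'l hz'0
  obtain ⟨j, k, hjl, hji, hkl, hki, hjk, -⟩ := idx l i hil
  have hind : AlgebraicIndependent ℂ ![z' j, z' k] := algInd hz'l gen' hi hil hjl hji hkl hki hjk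
  obtain ⟨j0, k0, hb0⟩ := exists_basis hF hξ
  have htr : Algebra.trdeg ℂ K = Cardinal.mk (Fin 2) := hb0.cardinalMk_eq_trdeg.symm
  have hb : IsTranscendenceBasis ℂ ![z' j, z' k] :=
    hind.isTranscendenceBasis_of_trdeg_le_of_finite (le_of_eq htr)
  -- the relation
  rw [Fintype.linearIndependent_iff] at hdep
  push Not at hdep
  obtain ⟨g, hg, i0, hi0⟩ := hdep
  rw [Fin.sum_univ_three] at hg
  have key : ∀ m, g 0 * z m + g 1 * δ₁ (z m) + g 2 * δ₂ (z m) = 0 := by
    intro m
    have := congrFun hg m
    simpa using this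
  have hD : ∀ m, (g 1 • δ₁ + g 2 • δ₂) (z' m) = 0 := by
    intro m
    have h1 : z m = z' m * z l := by
      simp only [hz']
      field_simp
    have h2 : (g 1 • δ₁ + g 2 • δ₂) (z m) = - g 0 * z m := by
      simp only [Derivation.add_apply, Derivation.smul_apply, smul_eq_mul]
      linear_combination key m
    have h3 : (g 1 • δ₁ + g 2 • δ₂) (z l) = - g 0 * z l := by
      simp only [Derivation.add_apply, Derivation.smul_apply, smul_eq_mul]
      linear_combination key l
    have h4 : (g 1 • δ₁ + g 2 • δ₂) (z m) = z' m * (g 1 • δ₁ + g 2 • δ₂) (z l) +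
        z l * (g 1 • δ₁ + g 2 • δ₂) (z' m) := by
      conv_lhs => rw [h1]
      rw [Derivation.leibniz, smul_eq_mul, smul_eq_mul]
    rw [h2, h3] at h4
    have h5 : z l * (g 1 • δ₁ + g 2 • δ₂) (z' m) = 0 := by
      rw [h1] at h4
      linear_combination -h4
    exact (mul_eq_zero.mp h5).resolve_left hl
  have hD0 : g 1 • δ₁ + g 2 • δ₂ = 0 := by
    have halg := hb.isAlgebraic_field
    refine der_eq_zero (Set.range ![z' j, z' k]) _ ?_
    rintro _ ⟨a, rfl⟩
    fin_cases a
    · exact hD j
    · exact hD k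
  obtain ⟨hg1, hg2⟩ := indep_of_comb hδ hb0 hD0
  have hg0 : g 0 = 0 := by
    have := key l
    rw [hg1, hg2, zero_mul, zero_mul, add_zero, add_zero] at this
    exact (mul_eq_zero.mp this).resolve_right hl
  apply hi0
  fin_cases i0
  · exact hg0
  · exact hg1
  · exact hg2

end Pool.Agent.LowDeg
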