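import Mathlib
import Pool.Agent.LowDeg.Defs

/-!
# Existence of generic points of smooth surfaces of `ℙ³`
-/

set_option autoImplicit false

open MvPolynomial

namespace Pool.Agent.LowDeg

namespace ExistsAux

/-- Put the first `k` coordinates to zero. -/
noncomputable def kill (k : ℕ) : MvPolynomial (Fin 4) ℂ →ₐ[ℂ] MvPolynomial (Fin 4) ℂ :=
  aeval (fun i => if i.1 < k then 0 else X i)

lemma kill_comp (k : ℕ) : (kill (k + 1)).comp (kill k) = kill (k + 1) := by
  apply MvPolynomial.algHom_ext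
  intro i
  simp only [kill, AlgHom.comp_apply, aeval_X]
  by_cases h1 : i.1 < k
  · have h2 : i.1 < k + 1 := by omega
    rw [if_pos h1, if_pos h2, map_zero]
  · rw [if_neg h1, aeval_X]

lemma ker_lt (k : ℕ) (hk : k < 4) :
    RingHom.ker (kill k).toRingHom < RingHom.ker (kill (k + 1)).toRingHom := by
  refine lt_of_le_of_ne ?_ ?_
  · intro p hp
    rw [RingHom.mem_ker] at hp ⊢
    have h := AlgHom.congr_fun (kill_comp k) p
    change kill (k + 1) p = 0
    change kill k p = 0 at hp
    rw [← h, AlgHom.comp_apply, hp, map_zero]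
  · intro h
    have h1 : (X ⟨k, hk⟩ : MvPolynomial (Fin 4) ℂ) ∈ RingHom.ker (kill (k + 1)).toRingHom := by
      rw [RingHom.mem_ker]
      change kill (k + 1) (X ⟨k, hk⟩) = 0
      simp [kill]
    rw [← h, RingHom.mem_ker] at h1
    change kill k (X ⟨k, hk⟩) = 0 at h1
    simp [kill] at h1

lemma height_ker (k : ℕ) (hk : k ≤ 4) : (k : ℕ∞) ≤ (RingHom.ker (kill k).toRingHom).height := by
  induction k with
  | zero => simp
  | succ k ih =>
    have h1 := ih (by omega)
    have : (RingHom.ker (kill k).toRingHom).IsPrime := RingHom.ker_isPrime _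
    have : (RingHom.ker (kill (k + 1)).toRingHom).IsPrime := RingHom.ker_isPrime _
    have h2 := Ideal.height_add_one_le_of_lt_of_isPrime (ker_lt k (by omega))
    calc ((k + 1 : ℕ) : ℕ∞) = (k : ℕ∞) + 1 := by push_cast; rfl
      _ ≤ (RingHom.ker (kill k).toRingHom).height + 1 := by gcongr
      _ ≤ _ := h2

lemma ker_four (p : MvPolynomial (Fin 4) ℂ) :
    p ∈ RingHom.ker (kill 4).toRingHom ↔ eval 0 p = 0 := by
  rw [RingHom.mem_ker]
  change kill 4 p = 0 ↔ _
  have h : kill 4 = (Algebra.ofId ℂ (MvPolynomial (Fin 4) ℂ)).comp (aeval (0 : Fin 4 → ℂ)) := by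
    apply MvPolynomial.algHom_ext
    intro i
    simp [kill]
  rw [h, AlgHom.comp_apply]
  rw [show (aeval (0 : Fin 4 → ℂ)) p = eval 0 p from by rw [← coe_aeval_eq_eval]; rfl]
  change C (eval 0 p) = 0 ↔ _
  rw [C_eq_zero]

/-- Two polynomials without constant term have a common zero outside the origin. -/
theorem common_zero (G H : MvPolynomial (Fin 4) ℂ) (hG : eval 0 G = 0) (hH : eval 0 H = 0) :
    ∃ x : Fin 4 → ℂ, x ≠ 0 ∧ aeval x G = 0 ∧ aeval x H = 0 := by
  by_contra hcon
  push Not at hcon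
  set I : Ideal (MvPolynomial (Fin 4) ℂ) := Ideal.span {G, H} with hI
  set M : Ideal (MvPolynomial (Fin 4) ℂ) := RingHom.ker (kill 4).toRingHom with hM
  have hMp : M.IsPrime := RingHom.ker_isPrime _
  have hIM : I ≤ M := by
    rw [hI, Ideal.span_le]
    rintro p (rfl | rfl)
    · exact (ker_four _).2 hG
    · exact (ker_four _).2 hH
  have hzero : zeroLocus ℂ I ⊆ {0} := by
    intro x hx
    by_contra hx0
    rw [mem_zeroLocus_iff] at hx
    exact hcon x hx0 (hx G (Ideal.subset_span (by simp))) (hx H (Ideal.subset_span (by simp)))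
  have hrad : M ≤ I.radical := by
    rw [← vanishingIdeal_zeroLocus_eq_radical (K := ℂ)]
    intro p hp
    rw [mem_vanishingIdeal_iff]
    intro x hx
    have hx0 : x = 0 := hzero hx
    subst hx0
    rw [show (aeval (0 : Fin 4 → ℂ)) p = eval 0 p from by rw [← coe_aeval_eq_eval]; rfl]
    exact (ker_four _).1 hp
  have hmin : M ∈ I.minimalPrimes := by
    refine ⟨⟨hMp, hIM⟩, ?_⟩
    rintro P ⟨hP, hIP⟩ _
    exact hrad.trans ((Ideal.IsPrime.radical_le_iff hP).2 hIP)
  have h2 : M.height ≤ 2 := by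
    have h3 := Ideal.height_le_card_of_mem_minimalPrimes_span_finset
      (R := MvPolynomial (Fin 4) ℂ) (s := {G, H}) (p := M) (by simpa using hmin)
    refine h3.trans ?_
    exact_mod_cast Finset.card_le_two
  have h4 : (4 : ℕ∞) ≤ M.height := height_ker 4 le_rfl
  have := h4.trans h2
  norm_num at this

/-- The grading map `X i ↦ X i * T`. -/
noncomputable def gr : MvPolynomial (Fin 4) ℂ →ₐ[ℂ] Polynomial (MvPolynomial (Fin 4) ℂ) :=
  aeval (fun i => Polynomial.C (X i) * Polynomial.X)

lemma gr_hom {P : MvPolynomial (Fin 4) ℂ} {e : ℕ} (hP : P.IsHomogeneous e) :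
    gr P = Polynomial.C P * Polynomial.X ^ e := by
  classical
  conv_lhs => rw [P.as_sum]
  conv_rhs => rw [P.as_sum]
  rw [map_sum, map_sum, Finset.sum_mul]
  refine Finset.sum_congr rfl fun m hm => ?_
  have hme : ∑ i, m i = e := by
    rw [← hP (mem_support_iff.1 hm), ← Finsupp.degree_eq_sum, Finsupp.degree_eq_weight_one]
    rfl
  rw [gr, aeval_monomial, ← hme, monomial_eq, Finsupp.prod_fintype _ _ (by simp),
    Finsupp.prod_fintype _ _ (by simp), ← Finset.prod_pow_eq_pow_sum]
  simp only [mul_pow, Finset.prod_mul_distrib, map_mul, map_prod, map_pow]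
  rw [← mul_assoc]
  rfl

lemma gr_eval_one (P : MvPolynomial (Fin 4) ℂ) : (gr P).eval 1 = P := by
  have h : ((Polynomial.aeval (1 : MvPolynomial (Fin 4) ℂ)).restrictScalars ℂ).comp gr =
      AlgHom.id ℂ _ := by
    apply MvPolynomial.algHom_ext
    intro i
    simp [gr]
  have := AlgHom.congr_fun h P
  simpa [Polynomial.aeval_def, Polynomial.eval₂_id] using this

lemma gr_coeff_zero (P : MvPolynomial (Fin 4) ℂ) : (gr P).coeff 0 = C (eval 0 P) := by
  have h : ((Polynomial.aeval (0 : MvPolynomial (Fin 4) ℂ)).restrictScalars ℂ).comp gr =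
      (Algebra.ofId ℂ (MvPolynomial (Fin 4) ℂ)).comp (aeval (0 : Fin 4 → ℂ)) := by
    apply MvPolynomial.algHom_ext
    intro i
    simp [gr]
  have h1 := AlgHom.congr_fun h P
  simp only [AlgHom.comp_apply] at h1
  rw [show (aeval (0 : Fin 4 → ℂ)) P = eval 0 P from by rw [← coe_aeval_eq_eval]; rfl] at h1
  simpa [Polynomial.aeval_def, Polynomial.eval₂_id] using h1

/-- A factor, nonzero at the origin, of a form is a constant. -/
lemma unit_of_factor {G H F : MvPolynomial (Fin 4) ℂ} {d : ℕ} (hF : F.IsHomogeneous d)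
    (hF0 : F ≠ 0) (hGH : F = G * H) (h0 : eval 0 G ≠ 0) : IsUnit G := by
  have hG0 : G ≠ 0 := by rintro rfl; exact hF0 (by rw [hGH, zero_mul])
  have hH0 : H ≠ 0 := by rintro rfl; exact hF0 (by rw [hGH, mul_zero])
  have hinj : ∀ P : MvPolynomial (Fin 4) ℂ, P ≠ 0 → gr P ≠ 0 := by
    intro P hP h
    apply hP
    rw [← gr_eval_one P, h, Polynomial.eval_zero]
  have e1 : gr G * gr H = Polynomial.C F * Polynomial.X ^ d := by
    rw [← map_mul, ← hGH, gr_hom hF]
  have d1 : (gr G).natDegree + (gr H).natDegree = d := by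
    rw [← Polynomial.natDegree_mul (hinj G hG0) (hinj H hH0), e1,
      Polynomial.natDegree_C_mul_X_pow _ _ hF0]
  have d2 : (gr G).natTrailingDegree + (gr H).natTrailingDegree = d := by
    rw [← Polynomial.natTrailingDegree_mul (hinj G hG0) (hinj H hH0), e1,
      Polynomial.natTrailingDegree_mul_X_pow (by simpa using hF0)]
    simp
  have t1 := Polynomial.natTrailingDegree_le_natDegree (gr G)
  have t2 := Polynomial.natTrailingDegree_le_natDegree (gr H)
  have c0 : (gr G).coeff 0 ≠ 0 := by rw [gr_coeff_zero, Ne, C_eq_zero]; exact h0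
  have t0 : (gr G).natTrailingDegree = 0 := by
    have := Polynomial.natTrailingDegree_le_of_ne_zero c0
    omega
  have n0 : (gr G).natDegree = 0 := by omega
  have hC : gr G = Polynomial.C ((gr G).coeff 0) := Polynomial.eq_C_of_natDegree_eq_zero n0
  have hG : G = C (eval 0 G) := by
    conv_lhs => rw [← gr_eval_one G, hC, Polynomial.eval_C, gr_coeff_zero]
  rw [hG]
  exact (isUnit_iff_ne_zero.2 h0).map C

theorem irreducible_of_smooth {F : MvPolynomial (Fin 4) ℂ} {d : ℕ} (hd : 1 ≤ d)
    (hF : IsSmoothForm F d) : Irreducible F := by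
  have hF0 : F ≠ 0 := by
    rintro rfl
    obtain ⟨i, hi⟩ := hF.smooth (fun _ => 1) (by intro h; simpa using congrFun h 0) (by simp)
    exact hi (by simp)
  have hz : eval 0 F = 0 := by
    have h1 := gr_coeff_zero F
    rw [gr_hom hF.hom, Polynomial.coeff_C_mul, Polynomial.coeff_X_pow, if_neg (by omega),
      mul_zero] at h1
    exact C_eq_zero.1 h1.symm
  constructor
  · intro hu
    obtain ⟨c, hc, hcF⟩ := MvPolynomial.isUnit_iff_eq_C_of_isReduced.1 hu
    rw [hcF, eval_C] at hz
    exact hc.ne_zero hz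
  · intro G H hGH
    by_contra hcon
    push Not at hcon
    have hG : eval 0 G = 0 := by
      by_contra h
      exact hcon.1 (unit_of_factor hF.hom hF0 hGH h)
    have hH : eval 0 H = 0 := by
      by_contra h
      exact hcon.2 (unit_of_factor hF.hom hF0 (hGH.trans (mul_comm G H)) h)
    obtain ⟨x, hx, h1, h2⟩ := common_zero G H hG hH
    obtain ⟨i, hi⟩ := hF.smooth x hx (by rw [hGH, map_mul, h1, zero_mul])
    apply hi
    rw [hGH, Derivation.leibniz, map_add, smul_eq_mul, smul_eq_mul, map_mul, map_mul, h1, h2,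
      zero_mul, zero_mul, add_zero]

/-- The value of a form at `c • v`. -/
lemma aeval_smul_form {S : Type} [CommRing S] [Algebra ℂ S] {P : MvPolynomial (Fin 4) ℂ} {e : ℕ}
    (hP : P.IsHomogeneous e) (c : S) (v : Fin 4 → S) :
    aeval (fun i => c * v i) P = c ^ e * aeval v P := by
  let ψ : Polynomial (MvPolynomial (Fin 4) ℂ) →+* S :=
    Polynomial.eval₂RingHom (aeval v : MvPolynomial (Fin 4) ℂ →ₐ[ℂ] S).toRingHom c
  have h : (aeval (fun i => c * v i) : MvPolynomial (Fin 4) ℂ →ₐ[ℂ] S).toRingHom =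
      ψ.comp gr.toRingHom := by
    apply MvPolynomial.ringHom_ext
    · intro a
      simp [ψ, gr]
    · intro i
      change aeval (fun i => c * v i) (X i) = ψ (gr (X i))
      rw [aeval_X, gr, aeval_X]
      change _ = Polynomial.eval₂ (aeval v : MvPolynomial (Fin 4) ℂ →ₐ[ℂ] S).toRingHom c _
      rw [Polynomial.eval₂_mul, Polynomial.eval₂_C, Polynomial.eval₂_X, mul_comm c]
      change _ = aeval v (X i) * c
      rw [aeval_X]
  have h1 := RingHom.congr_fun h P
  change aeval (fun i => c * v i) P = ψ (gr P) at h1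
  rw [h1, gr_hom hP]
  change Polynomial.eval₂ (aeval v : MvPolynomial (Fin 4) ℂ →ₐ[ℂ] S).toRingHom c _ = _
  rw [Polynomial.eval₂_mul, Polynomial.eval₂_C, Polynomial.eval₂_pow, Polynomial.eval₂_X,
    mul_comm]
  rfl

end ExistsAux

open ExistsAux in
/-- Every smooth surface of degree at least two in `ℙ³` has a generic point. -/
theorem exists_genericPoint {F : MvPolynomial (Fin 4) ℂ} {d : ℕ} (hd : 2 ≤ d)
    (hF : IsSmoothForm F d) :
    ∃ (K : Type) (_ : Field K) (_ : Algebra ℂ K) (_ : IsAlgClosed K) (ξ : Fin 4 → K),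
      IsGenericPoint F ξ := by
  have hirr := irreducible_of_smooth (by omega) hF
  have hF0 : F ≠ 0 := hirr.ne_zero
  have hprime : Prime F := hirr.prime
  set I : Ideal (MvPolynomial (Fin 4) ℂ) := Ideal.span {F} with hI
  have hIp : I.IsPrime := (Ideal.span_singleton_prime hF0).2 hprime
  let A := MvPolynomial (Fin 4) ℂ ⧸ I
  let L := FractionRing A
  let π : MvPolynomial (Fin 4) ℂ →ₐ[ℂ] L :=
    (IsScalarTower.toAlgHom ℂ A L).comp (Ideal.Quotient.mkₐ ℂ I)
  have hπ : ∀ P, π P = 0 ↔ F ∣ P := by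
    intro P
    change algebraMap A L (Ideal.Quotient.mk I P) = 0 ↔ _
    rw [map_eq_zero_iff _ (IsFractionRing.injective A L), Ideal.Quotient.eq_zero_iff_mem, hI,
      Ideal.mem_span_singleton]
  have hx0 : π (X 0) ≠ 0 := by
    rw [Ne, hπ]
    intro hdvd
    have h1 := totalDegree_le_of_dvd_of_isDomain hdvd (X_ne_zero 0)
    rw [hF.hom.totalDegree hF0, totalDegree_X] at h1
    omega
  let ξ₀ : Fin 4 → L := fun i => (π (X 0))⁻¹ * π (X i)
  have hπe : ∀ P, aeval (fun i => π (X i)) P = π P := by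
    intro P
    have : aeval (fun i => π (X i)) = π := by
      apply MvPolynomial.algHom_ext
      intro i
      simp
    rw [this]
  let E : IntermediateField ℂ L := IntermediateField.adjoin ℂ (Set.range ξ₀)
  let ξE : Fin 4 → E := fun i => ⟨ξ₀ i, IntermediateField.subset_adjoin _ _ ⟨i, rfl⟩⟩
  have hE : ∀ P : MvPolynomial (Fin 4) ℂ, aeval ξE P = 0 ↔ aeval ξ₀ P = 0 := by
    intro P
    have h1 : E.val (aeval ξE P) = aeval ξ₀ P := by
      have : E.val.comp (aeval ξE) = aeval ξ₀ := by
        apply MvPolynomial.algHom_ext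
        intro i
        simp [ξE]
      rw [← this]; rfl
    rw [← h1]
    exact (map_eq_zero_iff E.val E.val.injective).symm
  let K := AlgebraicClosure E
  let f : E →ₐ[ℂ] K := IsScalarTower.toAlgHom ℂ E K
  let ξ : Fin 4 → K := fun i => f (ξE i)
  have hK : ∀ P : MvPolynomial (Fin 4) ℂ, aeval ξ P = 0 ↔ aeval ξ₀ P = 0 := by
    intro P
    have h1 : f (aeval ξE P) = aeval ξ P := by
      have : f.comp (aeval ξE) = aeval ξ := by
        apply MvPolynomial.algHom_ext
        intro i
        simp [ξ]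
      rw [← this]; rfl
    rw [← h1, ← hE]
    exact map_eq_zero_iff f f.injective
  refine ⟨K, inferInstance, inferInstance, inferInstance, ξ, ?_, ?_, ?_, ?_⟩
  · change f (ξE 0) = 1
    have : ξE 0 = 1 := by
      apply Subtype.ext
      change (π (X 0))⁻¹ * π (X 0) = 1
      exact inv_mul_cancel₀ hx0
    rw [this, map_one]
  · rw [hK]
    change aeval (fun i => (π (X 0))⁻¹ * π (X i)) F = 0
    rw [aeval_smul_form hF.hom, hπe, (hπ F).2 dvd_rfl, mul_zero]
  · intro e G hG hG0
    rw [hK] at hG0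
    change aeval (fun i => (π (X 0))⁻¹ * π (X i)) G = 0 at hG0
    rw [aeval_smul_form hG, hπe] at hG0
    rcases mul_eq_zero.1 hG0 with h | h
    · exact absurd h (pow_ne_zero _ (inv_ne_zero hx0))
    · exact (hπ G).1 h
  · have hrange : ∀ y : E, f y ∈ IntermediateField.adjoin ℂ (Set.range ξ) := by
      intro y
      have hy : (y : L) ∈ IntermediateField.adjoin ℂ (Set.range ξ₀) := y.2
      have h1 : IntermediateField.adjoin ℂ (Set.range ξE) = ⊤ := by
        apply IntermediateField.map_injective E.val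
        rw [IntermediateField.adjoin_map, ← Set.range_comp, ← AlgHom.fieldRange_eq_map,
          IntermediateField.fieldRange_val]
        rfl
      have h2 : f y ∈ (IntermediateField.adjoin ℂ (Set.range ξE)).map f := by
        rw [h1]; exact ⟨y, trivial, rfl⟩
      rw [IntermediateField.adjoin_map, ← Set.range_comp] at h2
      exact h2
    let g : E →+* IntermediateField.adjoin ℂ (Set.range ξ) :=
      f.toRingHom.codRestrict _ hrange
    exact Algebra.IsAlgebraic.ringHom_of_comp_eq (R := E) (A := K) g (RingHom.id K)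
      g.injective Function.surjective_id (by ext y; rfl)

section

variable {K : Type} [Field K] [Algebra ℂ K]

/-- The empty correspondence. -/
noncomputable def emptyCorr (F : MvPolynomial (Fin 4) ℂ) (ξ : Fin 4 → K) : EffCorr F ξ 0 where
  Φ := 1
  e := 0
  hom m := by
    classical
    rw [coeff_one]
    split_ifs
    · exact isHomogeneous_one _ _
    · exact isHomogeneous_zero _ _ _
  pts := Fin.elim0
  pts_ne i := i.elim0
  pts_mem i := i.elim0
  c := 1
  c_ne := one_ne_zero
  fac := by simp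

/-- The diagonal. -/
noncomputable def diagCorr {F : MvPolynomial (Fin 4) ℂ} {ξ : Fin 4 → K}
    (hξ : IsGenericPoint F ξ) : EffCorr F ξ 1 where
  Φ := linF (fun j => X j)
  e := 1
  hom m := by
    classical
    rw [linF, coeff_sum]
    refine IsHomogeneous.sum _ _ _ fun j _ => ?_
    rw [coeff_C_mul, coeff_X, mul_ite, mul_one, mul_zero]
    split_ifs
    · exact isHomogeneous_X _ _
    · exact isHomogeneous_zero _ _ _
  pts := fun _ => ξ
  pts_ne _ h := by
    have := hξ.one
    rw [h] at this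
    exact zero_ne_one this
  pts_mem _ := hξ.zero
  c := 1
  c_ne := one_ne_zero
  fac := by simp [linF]

/-- The diagonal acts on 2-forms by the scalar one. -/
theorem acts_diagCorr {F : MvPolynomial (Fin 4) ℂ} {ξ : Fin 4 → K} (hξ : IsGenericPoint F ξ)
    (hne : ∃ i, aeval ξ (pderiv i F) ≠ 0) (n : ℕ) :
    ActsByScalar F n (diagCorr hξ) (emptyCorr F ξ) 1 := by
  intro D₁ D₂ f _ J J' J₀ hJ _ hJ₀
  obtain ⟨i, hi⟩ := hne
  have h1 := hJ 0 (Pi.single i 1)
  have h2 := hJ₀ (Pi.single i 1)
  change det4 (Pi.single i 1) ξ (fun i => D₁ (ξ i)) (fun i => D₂ (ξ i)) = _ at h1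
  rw [h2] at h1
  have h3 : dF F ξ (Pi.single i 1) = aeval ξ (pderiv i F) := by
    classical
    simp [dF, Pi.single_apply]
  have h4 : J₀ = J 0 := by
    apply mul_right_cancel₀ (b := dF F ξ (Pi.single i 1)) (by rw [h3]; exact hi)
    exact h1
  simp [diagCorr, h4]

end

end Pool.Agent.LowDeg
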