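import Pool.Agent.LowDeg.PowerSum

/-! Module F1 (doc section 8): norms and traces of polynomial families of integral elements. -/

set_option autoImplicit false

open Polynomial IntermediateField

namespace Pool.Agent.LowDeg

namespace FamTraceAux

/-- A polynomial with infinitely many values (at points of `K`) in a `K`-subspace has its
coefficients in this subspace. -/
lemma coeff_mem {K E : Type} [Field K] [Field E] [Algebra K E] (W : Submodule K E) (g : E[X])
    (S : Set K) (hS : S.Infinite) (h : ∀ s ∈ S, g.eval (algebraMap K E s) ∈ W) (i : ℕ) :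
    g.coeff i ∈ W := by
  by_contra hi
  obtain ⟨f, hf, hW⟩ := Submodule.exists_le_ker_of_notMem hi
  let p : K[X] := ∑ k ∈ Finset.range (g.natDegree + 1), monomial k (f (g.coeff k))
  have hp : ∀ s ∈ S, p.IsRoot s := by
    intro s hs
    have h1 : f (g.eval (algebraMap K E s)) = 0 := by
      have := hW (h s hs)
      simpa using this
    rw [Polynomial.eval_eq_sum_range, map_sum] at h1
    rw [Polynomial.IsRoot.def]
    simp only [p, Polynomial.eval_finsetSum, Polynomial.eval_monomial]
    rw [← h1]
    refine Finset.sum_congr rfl fun k _ => ?_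
    rw [← map_pow, mul_comm (g.coeff k), ← Algebra.smul_def, map_smul, smul_eq_mul, mul_comm]
  have hp0 : p = 0 := Polynomial.eq_zero_of_infinite_isRoot p (hS.mono hp)
  have h2 : p.coeff i = 0 := by rw [hp0, Polynomial.coeff_zero]
  by_cases hd : i ≤ g.natDegree
  · apply hf
    rw [← h2]
    simp only [p, Polynomial.finsetSum_coeff, Polynomial.coeff_monomial]
    rw [Finset.sum_ite_eq' (Finset.range (g.natDegree + 1)) i]
    rw [if_pos (by simp; omega)]
  · apply hf
    rw [Polynomial.coeff_eq_zero_of_natDegree_lt (not_le.1 hd), map_zero]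

/-- Assembling a polynomial in two variables. -/
lemma assemble {K E : Type} [Field K] [Field E] [Algebra K E] (a : E) (g : E[X])
    (h : ∀ i, ∃ c : K[X], aeval a c = g.coeff i) :
    ∃ G : K[X][X], ∀ s : K, g.eval (algebraMap K E s) = aeval a (G.map (evalRingHom s)) := by
  choose c hc using h
  refine ⟨∑ i ∈ Finset.range (g.natDegree + 1), (c i).map C * C (X ^ i), fun s => ?_⟩
  rw [Polynomial.eval_eq_sum_range, Polynomial.map_sum, map_sum]
  refine Finset.sum_congr rfl fun i _ => ?_
  rw [Polynomial.map_mul, Polynomial.map_map, Polynomial.map_C, map_mul, aeval_C, ← hc i]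
  have h1 : (evalRingHom s).comp (C : K →+* K[X]) = RingHom.id K := by
    ext x; simp
  rw [h1, Polynomial.map_id]
  simp

/-- from infinitely many values in `K[a]` -/
lemma assemble_of_values {K E : Type} [Field K] [Field E] [Algebra K E] (a : E)
    (g : E[X]) (S : Set K) (hS : S.Infinite)
    (h : ∀ s ∈ S, ∃ c : K[X], g.eval (algebraMap K E s) = aeval a c) :
    ∃ G : K[X][X], ∀ s : K, g.eval (algebraMap K E s) = aeval a (G.map (evalRingHom s)) := by
  refine assemble a g fun i => ?_
  have h1 := coeff_mem (LinearMap.range (aeval a : K[X] →ₐ[K] E).toLinearMap) g S hS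
    (fun s hs => by
      obtain ⟨c, hc⟩ := h s hs
      exact ⟨c, hc.symm⟩) i
  obtain ⟨c, hc⟩ := h1
  exact ⟨c, hc⟩

section mat

variable {F E ι : Type} [Field F] [Field E] [Algebra F E] [Fintype ι] [DecidableEq ι]
  (b : Module.Basis ι F E)

/-- the matrix of multiplication by a polynomial family -/
noncomputable def mat (x : E[X]) : Matrix ι ι F[X] :=
  Matrix.of fun i j => ∑ k ∈ Finset.range (x.natDegree + 1),
    monomial k (Algebra.leftMulMatrix b (x.coeff k) i j)

lemma mat_eval (x : E[X]) (s : F) :
    (mat b x).map (evalRingHom s) = Algebra.leftMulMatrix b (x.eval (algebraMap F E s)) := by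
  ext i j
  rw [Polynomial.eval_eq_sum_range, map_sum, Matrix.sum_apply]
  simp only [mat, Matrix.map_apply, Matrix.of_apply, coe_evalRingHom,
    Polynomial.eval_finsetSum, Polynomial.eval_monomial]
  refine Finset.sum_congr rfl fun k _ => ?_
  rw [← map_pow, mul_comm (x.coeff k), ← Algebra.smul_def, map_smul, Matrix.smul_apply,
    smul_eq_mul, mul_comm]

lemma det_mat_eval (x : E[X]) (s : F) :
    (mat b x).det.eval s = Algebra.norm F (x.eval (algebraMap F E s)) := by
  rw [Algebra.norm_eq_matrix_det b, ← mat_eval, ← coe_evalRingHom, RingHom.map_det]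
  rfl

lemma trace_mat_eval (x z : E[X]) (s : F) (hx : x.eval (algebraMap F E s) ≠ 0) :
    ((mat b x).adjugate * mat b z).trace.eval s =
      Algebra.norm F (x.eval (algebraMap F E s)) *
        Algebra.trace F E (z.eval (algebraMap F E s) / x.eval (algebraMap F E s)) := by
  rw [← coe_evalRingHom, AddMonoidHom.map_trace]
  have h1 : ((mat b x).adjugate * mat b z).map (evalRingHom s) =
      (Algebra.leftMulMatrix b (x.eval (algebraMap F E s))).adjugate *
        Algebra.leftMulMatrix b (z.eval (algebraMap F E s)) := by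
    rw [← mat_eval, ← mat_eval, Matrix.map_mul]
    congr 1
    exact RingHom.map_adjugate (evalRingHom s) (mat b x)
  rw [h1]
  set x' := x.eval (algebraMap F E s) with hx'
  set z' := z.eval (algebraMap F E s) with hz'
  have h2 : Algebra.leftMulMatrix b z' = Algebra.leftMulMatrix b x' *
      Algebra.leftMulMatrix b (z' / x') := by
    rw [← map_mul, mul_div_cancel₀ _ hx]
  rw [h2, ← mul_assoc, Matrix.adjugate_mul, Matrix.smul_mul, one_mul, Matrix.trace_smul,
    ← Algebra.norm_eq_matrix_det b, ← Algebra.trace_eq_matrix_trace b, smul_eq_mul]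

end mat

variable {K E : Type} [Field K] [Field E] [Algebra K E]

lemma int_eval (P : Place K E) (x : E[X]) (h : ∀ i, P.Int (x.coeff i)) (s : K) :
    P.Int (x.eval (algebraMap K E s)) := by
  rw [Polynomial.eval_eq_sum_range]
  refine Place.Int.sum _ fun i _ => ?_
  rw [← map_pow]
  exact (h i).mul (P.int_const _)

/-- the derivation applied to the coefficients -/
noncomputable def dC (del : Derivation K E E) (x : E[X]) : E[X] :=
  ∑ k ∈ Finset.range (x.natDegree + 1), monomial k (del (x.coeff k))

lemma dC_eval (del : Derivation K E E) (x : E[X]) (s : K) :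
    (dC del x).eval (algebraMap K E s) = del (x.eval (algebraMap K E s)) := by
  rw [Polynomial.eval_eq_sum_range (p := x), map_sum]
  simp only [dC, Polynomial.eval_finsetSum, Polynomial.eval_monomial]
  refine Finset.sum_congr rfl fun k _ => ?_
  rw [← map_pow, mul_comm (x.coeff k), ← Algebra.smul_def, Derivation.map_smul, Algebra.smul_def,
    mul_comm]

end FamTraceAux

open FamTraceAux

variable {K E : Type} [Field K] [IsAlgClosed K] [CharZero K] [Field E] [Algebra K E]

/-- `x`, `φ` are polynomials in `s` whose coefficients are integral at all finite places. -/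
theorem family_trace (a : E) (ha : Transcendental K a) [FiniteDimensional K⟮a⟯ E]
    (del : Derivation K E E) (hdel : del a = 1) (x φ : E[X])
    (hx : ∀ (i : ℕ) (P : Place K E), P.Int a → P.Int (x.coeff i))
    (hφ : ∀ (i : ℕ) (P : Place K E), P.Int a → P.Int (φ.coeff i)) :
    ∃ N T : K[X][X], ∀ s : K,
      (Algebra.norm K⟮a⟯ (x.eval (algebraMap K E s)) : E) =
        aeval a (N.map (evalRingHom s)) ∧
      (x.eval (algebraMap K E s) ≠ 0 →
        (Algebra.norm K⟮a⟯ (x.eval (algebraMap K E s)) : E) *
          (Algebra.trace K⟮a⟯ E (φ.eval (algebraMap K E s) *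
            (del (x.eval (algebraMap K E s)) / x.eval (algebraMap K E s))) : E) =
          aeval a (T.map (evalRingHom s))) := by
  classical
  by_cases hx0 : x = 0
  · subst hx0
    refine ⟨0, 0, fun s => ⟨?_, fun h => absurd (by simp) h⟩⟩
    simp only [Polynomial.eval_zero, Polynomial.map_zero, map_zero]
    rw [Algebra.norm_zero]
    simp
  -- the exceptional set is finite
  have hfin : {s : K | x.eval (algebraMap K E s) = 0}.Finite := by
    refine Set.Finite.subset ((x.roots.toFinset.finite_toSet).preimage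
      (f := algebraMap K E) ((algebraMap K E).injective.injOn)) ?_
    intro s hs
    simp only [Set.mem_preimage, Finset.mem_coe, Multiset.mem_toFinset]
    exact (Polynomial.mem_roots hx0).2 hs
  have hinf : {s : K | x.eval (algebraMap K E s) ≠ 0}.Infinite := by
    have := hfin.infinite_compl
    exact this
  let b := Module.finBasis K⟮a⟯ E
  have hval : ∀ s : K, x.eval (algebraMap K E s) ≠ 0 → ∃ N T : K[X],
      (Algebra.norm K⟮a⟯ (x.eval (algebraMap K E s)) : E) = aeval a N ∧
      (Algebra.norm K⟮a⟯ (x.eval (algebraMap K E s)) : E) *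
        (Algebra.trace K⟮a⟯ E (φ.eval (algebraMap K E s) *
          (del (x.eval (algebraMap K E s)) / x.eval (algebraMap K E s))) : E) = aeval a T := by
    intro s hs
    obtain ⟨S, -, N, T, -, h1, h2, -⟩ := power_sum a ha del hdel (x.eval (algebraMap K E s))
      (φ.eval (algebraMap K E s)) hs
      (fun P hP => int_eval P x (fun i => hx i P hP) s)
      (fun P hP => int_eval P φ (fun i => hφ i P hP) s)
    exact ⟨N, T, h1, h2⟩
  have hsc : ∀ s : K, algebraMap K⟮a⟯ E (algebraMap K K⟮a⟯ s) = algebraMap K E s := fun s => rfl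
  -- the norm
  have hN : ∀ s : K, (((mat b x).det).map (algebraMap K⟮a⟯ E)).eval (algebraMap K E s) =
      (Algebra.norm K⟮a⟯ (x.eval (algebraMap K E s)) : E) := by
    intro s
    rw [← hsc s, Polynomial.eval_map_apply, det_mat_eval]
    rfl
  have hT : ∀ s : K, x.eval (algebraMap K E s) ≠ 0 →
      ((((mat b x).adjugate * mat b (φ * dC del x)).trace).map (algebraMap K⟮a⟯ E)).eval
        (algebraMap K E s) =
      (Algebra.norm K⟮a⟯ (x.eval (algebraMap K E s)) : E) *
        (Algebra.trace K⟮a⟯ E (φ.eval (algebraMap K E s) *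
          (del (x.eval (algebraMap K E s)) / x.eval (algebraMap K E s))) : E) := by
    intro s hs
    rw [← hsc s, Polynomial.eval_map_apply, trace_mat_eval b x _ _ (by rwa [hsc]), hsc,
      Polynomial.eval_mul, dC_eval, mul_div_assoc]
    rfl
  obtain ⟨N, hN'⟩ := assemble_of_values a (((mat b x).det).map (algebraMap K⟮a⟯ E)) _ hinf
    (fun s hs => by
      obtain ⟨N, T, h1, -⟩ := hval s hs
      exact ⟨N, by rw [hN s, h1]⟩)
  obtain ⟨T, hT'⟩ := assemble_of_values a
    ((((mat b x).adjugate * mat b (φ * dC del x)).trace).map (algebraMap K⟮a⟯ E)) _ hinf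
    (fun s hs => by
      obtain ⟨N, T, -, h1⟩ := hval s hs
      exact ⟨T, by rw [hT s hs, h1]⟩)
  refine ⟨N, T, fun s => ⟨?_, fun hs => ?_⟩⟩
  · rw [← hN s, hN' s]
  · rw [← hT s hs, hT' s]

/-- power sums of the zeros of a family are rational functions of the parameter, with
denominators powers of the leading coefficient of the norm. -/
theorem family_power_sum (a : E) (ha : Transcendental K a) [FiniteDimensional K⟮a⟯ E]
    (del : Derivation K E E) (hdel : del a = 1) (x φ : E[X])
    (hx : ∀ (i : ℕ) (P : Place K E), P.Int a → P.Int (x.coeff i))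
    (hφ : ∀ (i : ℕ) (P : Place K E), P.Int a → P.Int (φ.coeff i)) (N : K[X][X])
    (hN : ∀ s : K, (Algebra.norm K⟮a⟯ (x.eval (algebraMap K E s)) : E) =
        aeval a (N.map (evalRingHom s))) (D : ℕ) (hD : N.natDegree ≤ D) :
    ∃ (m : ℕ) (q : K[X]), ∀ s : K, (N.coeff D).eval s ≠ 0 →
      ∀ (S : Finset (Place K E)) (v : Place K E → K),
        (∀ P, P ∈ S ↔ P.Int a ∧ P.ord (x.eval (algebraMap K E s)) ≠ 0) →
        (∀ P ∈ S, P.IsVal (φ.eval (algebraMap K E s)) (v P)) →
        ((N.coeff D).eval s) ^ m * ∑ P ∈ S, (P.ord (x.eval (algebraMap K E s)) : K) * v P =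
          q.eval s := by
  obtain ⟨N₀, T, hT⟩ := family_trace a ha del hdel x φ hx hφ
  set c : K[X] := N.coeff D with hc
  by_cases hc0 : c = 0
  · refine ⟨0, 0, fun s hs => absurd ?_ hs⟩
    rw [hc0, Polynomial.eval_zero]
  -- the ring `K[s][1/c]`
  let A := Localization.Away c
  let ι : K[X] →+* A := algebraMap K[X] A
  have hcu : IsUnit (ι c) := IsLocalization.Away.algebraMap_isUnit c
  obtain ⟨u, hu⟩ := hcu
  let M : A[X] := C ((u⁻¹ : Aˣ) : A) * N.map ι
  have hMc : M.coeff D = 1 := by
    simp only [M, Polynomial.coeff_C_mul, Polynomial.coeff_map]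
    rw [← hc, ← hu, Units.inv_mul]
  have hMd : M.natDegree ≤ D := by
    refine (Polynomial.natDegree_C_mul_le _ _).trans ?_
    exact (Polynomial.natDegree_map_le).trans hD
  have hMm : M.Monic := Polynomial.monic_of_natDegree_le_of_coeff_eq_one D hMd hMc
  let w : A := ((T.map ι) %ₘ M).coeff (D - 1)
  obtain ⟨m, q, hq⟩ : ∃ (m : ℕ) (q : K[X]), w * ι (c ^ m) = ι q := by
    obtain ⟨⟨q, ⟨_, m, rfl⟩⟩, hq⟩ := IsLocalization.surj (Submonoid.powers c) w
    exact ⟨m, q, hq⟩
  refine ⟨m + 1, q, fun s hs S v hS hv => ?_⟩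
  have hu' : IsUnit (evalRingHom s c) := (Ne.isUnit hs)
  let e : A →+* K := IsLocalization.Away.lift c hu'
  have he : ∀ p : K[X], e (ι p) = p.eval s := fun p => IsLocalization.Away.lift_eq c hu' p
  have hei : e.comp ι = evalRingHom s := RingHom.ext he
  have heu : e ((u⁻¹ : Aˣ) : A) = (c.eval s)⁻¹ := by
    have h1 : e ((u⁻¹ : Aˣ) : A) * e (u : A) = 1 := by rw [← map_mul, Units.inv_mul, map_one]
    rw [hu, he] at h1
    exact eq_inv_of_mul_eq_one_left h1
  -- the specialised polynomials
  have hMs : M.map e = C (c.eval s)⁻¹ * N.map (evalRingHom s) := by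
    simp only [M, Polynomial.map_mul, Polynomial.map_C, Polynomial.map_map]
    rw [heu, hei]
  have hNsc : (N.map (evalRingHom s)).coeff D = c.eval s := by
    rw [Polynomial.coeff_map, coe_evalRingHom]
  have hNsd : (N.map (evalRingHom s)).natDegree = D := by
    refine le_antisymm ((Polynomial.natDegree_map_le).trans hD) ?_
    refine Polynomial.le_natDegree_of_ne_zero ?_
    rw [hNsc]; exact hs
  have hNs0 : N.map (evalRingHom s) ≠ 0 := by
    intro h0
    rw [h0, Polynomial.coeff_zero] at hNsc
    exact hs hNsc.symm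
  have hinj : Function.Injective (aeval a : K[X] →ₐ[K] E) :=
    transcendental_iff_injective.1 ha
  have hxs : x.eval (algebraMap K E s) ≠ 0 := by
    intro h0
    have h1 := hN s
    rw [h0, Algebra.norm_zero] at h1
    apply hNs0
    apply hinj
    rw [← h1, map_zero]
    simp
  obtain ⟨S', hS', N', T', hN'0, h1, h2, h3, h4⟩ := power_sum a ha del hdel
    (x.eval (algebraMap K E s)) (φ.eval (algebraMap K E s)) hxs
    (fun P hP => int_eval P x (fun i => hx i P hP) s)
    (fun P hP => int_eval P φ (fun i => hφ i P hP) s)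
  have hSS : S' = S := by
    ext P; rw [hS', hS]
  subst hSS
  have hN' : N' = N.map (evalRingHom s) := hinj (by rw [← h1, hN s])
  have hT' : T' = T.map (evalRingHom s) := hinj (by rw [← h2, (hT s).2 hxs])
  have hlc : N'.leadingCoeff = c.eval s := by
    rw [hN', Polynomial.leadingCoeff, hNsd, hNsc]
  have h5 := h4 v hv
  rw [hlc, hN', hT', hNsd] at h5
  have h6 : e w = (T.map (evalRingHom s) %ₘ (C (c.eval s)⁻¹ * N.map (evalRingHom s))).coeff
      (D - 1) := by
    have h7 : e w = (((T.map ι) %ₘ M).map e).coeff (D - 1) := by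
      rw [Polynomial.coeff_map]
    rw [h7, Polynomial.map_modByMonic e hMm, hMs, Polynomial.map_map, hei]
  have h8 : e w * c.eval s ^ m = q.eval s := by
    have := congrArg e hq
    rw [map_mul, he, he, Polynomial.eval_pow] at this
    exact this
  rw [← h8, h6, h5, pow_succ]
  ring

end Pool.Agent.LowDeg
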