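import Pool.Agent.LowDeg.Model

/-! Module I1 (doc section 11.1): general position. -/

set_option autoImplicit false

open MvPolynomial

namespace Pool.Agent.LowDeg

namespace GenPosAux

/-- the exponent vector `(j, i - j, e - i)` -/
noncomputable def mono (e : ℕ) (k : Σ i : Fin (e + 1), Fin (i.val + 1)) : Fin 3 →₀ ℕ :=
  Finsupp.equivFunOnFinite.symm ![k.2.val, k.1.val - k.2.val, e - k.1.val]

lemma mono_injective (e : ℕ) : Function.Injective (mono e) := by
  rintro ⟨i, j⟩ ⟨i', j'⟩ h
  have h' : (![j.val, i.val - j.val, e - i.val] : Fin 3 → ℕ) =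
      ![j'.val, i'.val - j'.val, e - i'.val] := Finsupp.equivFunOnFinite.symm.injective h
  have h0 := congrFun h' 0
  have h2 := congrFun h' 2
  simp at h0 h2
  have hi : i = i' := by
    apply Fin.ext
    have := i.2
    have := i'.2
    omega
  subst hi
  have : j = j' := Fin.ext h0
  subst this
  rfl

lemma mono_degree (e : ℕ) (k : Σ i : Fin (e + 1), Fin (i.val + 1)) : (mono e k).degree = e := by
  obtain ⟨i, j⟩ := k
  rw [Finsupp.degree_eq_sum]
  simp only [mono, Fin.sum_univ_three, Finsupp.equivFunOnFinite_symm_apply_apply]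
  simp
  have := i.2
  have := j.2
  omega

lemma card_index (e : ℕ) :
    2 * Fintype.card (Σ i : Fin (e + 1), Fin (i.val + 1)) = (e + 1) * (e + 2) := by
  rw [Fintype.card_sigma]
  simp only [Fintype.card_fin]
  rw [Fin.sum_univ_eq_sum_range (fun i => i + 1) (e + 1)]
  induction e with
  | zero => simp
  | succ n ih =>
    rw [Finset.sum_range_succ, mul_add, ih]
    ring

lemma exists_form {R : Type*} [CommRing R] [Nontrivial R] {ι : Type*} [Fintype ι]
    (P : ι → Fin 3 → R) (e : ℕ) (hcard : 2 * Fintype.card ι < (e + 1) * (e + 2)) :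
    ∃ f : MvPolynomial (Fin 3) R, f ≠ 0 ∧ f.IsHomogeneous e ∧ ∀ i, eval (P i) f = 0 := by
  classical
  let I := Σ i : Fin (e + 1), Fin (i.val + 1)
  let T : (I → R) →ₗ[R] (ι → R) :=
    { toFun := fun v y => ∑ k, v k * eval (P y) (monomial (mono e k) (1 : R))
      map_add' := by
        intro v w
        funext y
        simp [add_mul, Finset.sum_add_distrib]
      map_smul' := by
        intro c v
        funext y
        simp [Finset.mul_sum, mul_assoc] }
  have hT : ¬ Function.Injective T := by
    intro h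
    have h1 := card_le_of_injective R T h
    have h2 := card_index e
    have : Fintype.card I = Fintype.card (Σ i : Fin (e + 1), Fin (i.val + 1)) := rfl
    omega
  have : ∃ v : I → R, v ≠ 0 ∧ T v = 0 := by
    by_contra hcon
    push Not at hcon
    apply hT
    rw [injective_iff_map_eq_zero]
    intro a ha
    by_contra hne
    exact hcon a hne ha
  obtain ⟨v, hv, hTv⟩ := this
  refine ⟨∑ k, monomial (mono e k) (v k), ?_, ?_, ?_⟩
  · intro h0
    apply hv
    funext k
    have := congrArg (coeff (mono e k)) h0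
    rw [coeff_sum] at this
    rw [Finset.sum_eq_single k] at this
    · simpa using this
    · intro b _ hb
      rw [coeff_monomial, if_neg]
      intro h
      exact hb (mono_injective e h)
    · intro h
      exact absurd (Finset.mem_univ k) h
  · apply IsHomogeneous.sum
    intro k _
    exact isHomogeneous_monomial _ (mono_degree e k)
  · intro y
    have := congrFun hTv y
    rw [map_sum]
    simp only [Pi.zero_apply] at this
    rw [← this]
    show _ = ∑ k, v k * eval (P y) (monomial (mono e k) (1 : R))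
    apply Finset.sum_congr rfl
    intro k _
    rw [eval_monomial, eval_monomial, one_mul]

lemma eval_mul_hom {R : Type*} [CommRing R] {f : MvPolynomial (Fin 3) R} {e : ℕ}
    (hf : f.IsHomogeneous e) (c : R) (x : Fin 3 → R) :
    eval (fun i => c * x i) f = c ^ e * eval x f := by
  rw [eval_eq, eval_eq, Finset.mul_sum]
  apply Finset.sum_congr rfl
  intro d hd
  have hdeg : d.degree = e := by
    have h1 : (Finsupp.weight (fun _ : Fin 3 => (1 : ℕ))) d = e := hf (mem_support_iff.mp hd)
    rw [Finsupp.degree_eq_weight_one]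
    exact h1
  have : ∏ i ∈ d.support, (c * x i) ^ d i = c ^ e * ∏ i ∈ d.support, x i ^ d i := by
    simp_rw [mul_pow]
    rw [Finset.prod_mul_distrib, Finset.prod_pow_eq_pow_sum]
    congr 2
  rw [this]
  ring

/-- the projection from `c` -/
def pr {A : Type*} [CommRing A] (c x : Fin 4 → A) : Fin 3 → A :=
  fun i => c 3 * x i.castSucc - c i.castSucc * x 3

lemma map_pr {A B : Type*} [CommRing A] [CommRing B] (g : A →+* B) (c x : Fin 4 → A) :
    (fun i => g (pr c x i)) = pr (fun i => g (c i)) (fun i => g (x i)) := by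
  funext i
  simp [pr]

lemma exists_basis (c q : Fin 4 → ℂ) (h : pr c q ≠ 0) :
    ∃ W : Matrix (Fin 4) (Fin 4) ℂ, IsUnit W.det ∧ (∀ i, W i 2 = c i - q i) ∧
      ∀ i, W i 3 = - q i := by
  obtain ⟨i, hi⟩ := Function.ne_iff.mp h
  simp only [pr, Pi.zero_apply] at hi
  fin_cases i
  · refine ⟨!![0, 0, c 0 - q 0, - q 0; 1, 0, c 1 - q 1, - q 1; 0, 1, c 2 - q 2, - q 2;
      0, 0, c 3 - q 3, - q 3], ?_, ?_, ?_⟩
    · rw [isUnit_iff_ne_zero]
      intro h0
      apply hi
      simp [Matrix.det_succ_row_zero, Fin.sum_univ_succ, Fin.succAbove] at h0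
      show c 3 * q 0 - c 0 * q 3 = 0
      linear_combination h0
    · intro i; fin_cases i <;> rfl
    · intro i; fin_cases i <;> rfl
  · refine ⟨!![1, 0, c 0 - q 0, - q 0; 0, 0, c 1 - q 1, - q 1; 0, 1, c 2 - q 2, - q 2;
      0, 0, c 3 - q 3, - q 3], ?_, ?_, ?_⟩
    · rw [isUnit_iff_ne_zero]
      intro h0
      apply hi
      simp [Matrix.det_succ_row_zero, Fin.sum_univ_succ, Fin.succAbove] at h0
      show c 3 * q 1 - c 1 * q 3 = 0
      linear_combination -h0
    · intro i; fin_cases i <;> rfl
    · intro i; fin_cases i <;> rfl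
  · refine ⟨!![1, 0, c 0 - q 0, - q 0; 0, 1, c 1 - q 1, - q 1; 0, 0, c 2 - q 2, - q 2;
      0, 0, c 3 - q 3, - q 3], ?_, ?_, ?_⟩
    · rw [isUnit_iff_ne_zero]
      intro h0
      apply hi
      simp [Matrix.det_succ_row_zero, Fin.sum_univ_succ, Fin.succAbove] at h0
      show c 3 * q 2 - c 2 * q 3 = 0
      linear_combination h0
    · intro i; fin_cases i <;> rfl
    · intro i; fin_cases i <;> rfl

lemma hom_eval {σ A B : Type*} [CommRing A] [CommRing B] (g : A →+* B) (x : σ → A)
    (f : MvPolynomial σ A) : g (eval x f) = eval (fun i => g (x i)) (map g f) := by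
  rw [eval_map, eval, coe_eval₂Hom, eval₂_comp_left]
  rfl

lemma exists_centres {K : Type} [Field K] [Algebra ℂ K]
    (f0 : MvPolynomial (Fin 3) (MvPolynomial (Fin 4) K)) (e : ℕ) (hf0 : f0 ≠ 0)
    (hhom : f0.IsHomogeneous e) :
    ∃ q c : Fin 4 → ℂ, eval (fun i => algebraMap ℂ K (c i))
      (eval (pr X (fun i => C (algebraMap ℂ K (q i)))) f0) ≠ (0 : K) := by
  classical
  have hinj : Function.Injective (fun z : ℂ => algebraMap ℂ K z) := (algebraMap ℂ K).injective
  let H : MvPolynomial (Fin 4) (MvPolynomial (Fin 4) K) :=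
    eval₂ C (fun i => C (X 3) * X i.castSucc - C (X i.castSucc) * X 3) f0
  have hHev : ∀ q : Fin 4 → MvPolynomial (Fin 4) K, eval q H = eval (pr X q) f0 := by
    intro q
    show eval q (eval₂ C _ f0) = _
    rw [eval₂_comp_left (eval q)]
    show _ = eval₂ _ _ f0
    congr 1
    · ext <;> simp
    · funext i
      simp [pr]
  have hH0 : H ≠ 0 := by
    obtain ⟨x, hx⟩ : ∃ x : Fin 3 → MvPolynomial (Fin 4) K, eval x f0 ≠ 0 := by
      by_contra hcon
      push Not at hcon
      exact hf0 (funext (fun x => by rw [hcon x, map_zero]))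
    intro h0
    have h1 := hHev (Fin.snoc (α := fun _ => MvPolynomial (Fin 4) K) x 0)
    rw [h0, map_zero] at h1
    have h2 : pr X (Fin.snoc (α := fun _ => MvPolynomial (Fin 4) K) x 0) =
        fun i => (X 3 : MvPolynomial (Fin 4) K) * x i := by
      funext i
      have h3 : (3 : Fin 4) = Fin.last 3 := rfl
      simp only [pr]
      rw [Fin.snoc_castSucc]
      have h4 : Fin.snoc (α := fun _ => MvPolynomial (Fin 4) K) x 0 3 = 0 := by
        rw [h3, Fin.snoc_last]
      rw [h4]
      ring
    rw [h2, eval_mul_hom hhom] at h1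
    have h5 : (X 3 : MvPolynomial (Fin 4) K) ^ e ≠ 0 := pow_ne_zero _ (X_ne_zero _)
    exact (mul_ne_zero h5 hx) h1.symm
  obtain ⟨q, hq⟩ : ∃ q : Fin 4 → ℂ,
      eval (pr X (fun i => C (algebraMap ℂ K (q i)))) f0 ≠ 0 := by
    by_contra hcon
    push Not at hcon
    apply hH0
    refine funext_set (fun _ => Set.range (fun z : ℂ => (C (algebraMap ℂ K z) :
      MvPolynomial (Fin 4) K))) (fun _ => Set.infinite_range_of_injective
        ((C_injective _ _).comp hinj)) ?_
    intro x hx
    have : ∀ i, ∃ z : ℂ, C (algebraMap ℂ K z) = x i := fun i => hx i (Set.mem_univ i)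
    choose z hz using this
    have hxz : x = fun i => C (algebraMap ℂ K (z i)) := by
      funext i
      exact (hz i).symm
    rw [map_zero, hHev, hxz]
    exact hcon z
  obtain ⟨c, hc⟩ : ∃ c : Fin 4 → ℂ, eval (fun i => algebraMap ℂ K (c i))
      (eval (pr X (fun i => C (algebraMap ℂ K (q i)))) f0) ≠ 0 := by
    by_contra hcon
    push Not at hcon
    apply hq
    refine funext_set (fun _ => Set.range (fun z : ℂ => algebraMap ℂ K z))
      (fun _ => Set.infinite_range_of_injective hinj) ?_
    intro x hx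
    have : ∀ i, ∃ z : ℂ, algebraMap ℂ K z = x i := fun i => hx i (Set.mem_univ i)
    choose z hz using this
    have hxz : x = fun i => algebraMap ℂ K (z i) := by
      funext i
      exact (hz i).symm
    rw [map_zero, hxz]
    exact hcon z
  exact ⟨q, c, hc⟩

end GenPosAux

open GenPosAux in
theorem general_position {K : Type} [Field K] [Algebra ℂ K] {ι : Type} [Fintype ι]
    (Y : ι → Fin 4 → K) (e : ℕ) (he : 1 ≤ e)
    (hcard : 2 * Fintype.card ι < (e + 1) * (e + 2)) :
    ∃ (L : Matrix (Fin 4) (Fin 4) ℂ) (f : MvPolynomial (Fin 3) (RatFunc K)), IsUnit L.det ∧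
      f.IsHomogeneous e ∧ eval ![0, 0, 1] f ≠ 0 ∧
      ∀ i, eval (uR ((L.map (algebraMap ℂ K)).mulVec (Y i))) f = 0 := by
  classical
  obtain ⟨f0, hf0, hhom, hv⟩ := exists_form (R := MvPolynomial (Fin 4) K)
    (fun i => pr X (fun j => C (Y i j))) e hcard
  obtain ⟨q, c, hqc⟩ := exists_centres f0 e hf0 hhom
  -- abbreviations
  let cK : Fin 4 → K := fun i => algebraMap ℂ K (c i)
  let qK : Fin 4 → K := fun i => algebraMap ℂ K (q i)
  have hqc' : eval (pr cK qK) (map (eval cK) f0) ≠ 0 := by
    have h1 := hom_eval (eval cK) (pr X (fun i => C (qK i))) f0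
    rw [map_pr] at h1
    have h2 : (pr (fun i => eval cK (X i)) fun i => eval cK (C (qK i))) = pr cK qK := by
      congr 1 <;> funext i <;> simp
    rw [h2] at h1
    rw [← h1]
    exact hqc
  have hpr : pr c q ≠ 0 := by
    intro h0
    apply hqc'
    have h1 : pr cK qK = fun i => (0 : K) * 0 := by
      funext i
      have := congrFun h0 i
      simp only [pr, Pi.zero_apply] at this
      have h2 := congrArg (algebraMap ℂ K) this
      simp only [map_sub, map_mul, map_zero] at h2
      simpa [pr] using h2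
    rw [h1, eval_mul_hom (hhom.map _), zero_pow (by omega), zero_mul]
  obtain ⟨W, hW, hW2, hW3⟩ := exists_basis c q hpr
  let γ : Fin 4 → Polynomial K := fun i =>
    Polynomial.C (qK i) + Polynomial.X * Polynomial.C (cK i - qK i)
  let ev : MvPolynomial (Fin 4) K →+* Polynomial K := eval₂Hom Polynomial.C γ
  let f1 : MvPolynomial (Fin 3) (Polynomial K) := map ev f0
  have hf1 : f1.IsHomogeneous e := hhom.map _
  let WK : Fin 4 → Fin 4 → K := fun i j => algebraMap ℂ K (W i j)
  let MM : Fin 3 → Fin 3 → Polynomial K := fun i j =>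
    pr γ (fun k => Polynomial.C (WK k j.castSucc)) i
  let f2 : MvPolynomial (Fin 3) (Polynomial K) := aeval (fun i => ∑ j, C (MM i j) * X j) f1
  have hf2 : f2.IsHomogeneous e := by
    have := hf1.aeval (n := 1) (fun i => ∑ j, C (MM i j) * X j) (by
      intro i
      apply IsHomogeneous.sum
      intro j _
      exact (isHomogeneous_X _ _).C_mul _)
    rwa [one_mul] at this
  have hf2ev : ∀ x : Fin 3 → Polynomial K, eval x f2 = eval (fun i => ∑ j, MM i j * x j) f1 := by
    intro x
    show eval x (aeval _ f1) = _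
    rw [aeval_def, eval₂_comp_left (eval x)]
    show _ = eval₂ _ _ f1
    congr 1
    · ext <;> simp
    · funext i
      simp
  have hproj : ∀ z : Fin 4 → K, (fun i => ∑ j, MM i j * uK z j) =
      pr γ (fun k => Polynomial.C (∑ l, WK k l * z l)) := by
    intro z
    have e2 : ∀ k, WK k 2 = cK k - qK k := by
      intro k
      simp only [WK, cK, qK, hW2, map_sub]
    have e3 : ∀ k, WK k 3 = - qK k := by
      intro k
      simp only [WK, qK, hW3, map_neg]
    funext i
    have c0 : (Fin.castSucc (0 : Fin 3)) = 0 := rfl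
    have c1 : (Fin.castSucc (1 : Fin 3)) = 1 := rfl
    have c2 : (Fin.castSucc (2 : Fin 3)) = 2 := rfl
    simp only [Fin.sum_univ_three, Fin.sum_univ_four, MM, pr, uK, γ, c0, c1, c2, e2, e3]
    simp only [Matrix.cons_val_zero, Matrix.cons_val_one, Matrix.cons_val_two, Matrix.head_cons,
      Matrix.tail_cons, map_add, map_mul, map_sub, map_neg]
    ring
  refine ⟨W⁻¹, map (algebraMap (Polynomial K) (RatFunc K)) f2, ?_, hf2.map _, ?_, ?_⟩
  · exact Matrix.isUnit_nonsing_inv_det _ hW
  · have h1 : (![0, 0, 1] : Fin 3 → RatFunc K) = fun i =>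
        algebraMap (Polynomial K) (RatFunc K) ((![0, 0, 1] : Fin 3 → Polynomial K) i) := by
      funext i
      fin_cases i <;> simp
    rw [h1, ← hom_eval]
    intro h2
    have h3 : eval ![0, 0, 1] f2 = 0 := by
      apply IsFractionRing.injective (Polynomial K) (RatFunc K)
      rw [h2, map_zero]
    rw [hf2ev] at h3
    have h4 : (fun i => ∑ j, MM i j * (![0, 0, 1] : Fin 3 → Polynomial K) j) =
        fun i => MM i 2 := by
      funext i
      simp [Fin.sum_univ_three]
    rw [h4] at h3
    have h5 := congrArg (Polynomial.evalRingHom (1 : K)) h3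
    rw [hom_eval, map_zero] at h5
    have h6 : map (Polynomial.evalRingHom (1 : K)) f1 = map (eval cK) f0 := by
      show map _ (map ev f0) = _
      rw [MvPolynomial.map_map]
      have h7 : (Polynomial.evalRingHom (1 : K)).comp ev = eval cK := by
        apply MvPolynomial.ringHom_ext
        · intro r
          simp [ev]
        · intro i
          simp [ev, γ]
      rw [h7]
    have h7 : (fun i => Polynomial.evalRingHom (1 : K) (MM i 2)) =
        fun i => (-1 : K) * pr cK qK i := by
      have e2 : ∀ k, WK k 2 = cK k - qK k := by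
        intro k
        simp only [WK, cK, qK, hW2, map_sub]
      have c2 : (Fin.castSucc (2 : Fin 3)) = 2 := rfl
      funext i
      simp only [MM, pr, γ, c2, e2]
      simp
      ring
    rw [h6, h7, eval_mul_hom (hhom.map _)] at h5
    exact mul_ne_zero (pow_ne_zero _ (by norm_num)) hqc' h5
  · intro i
    have h1 : uR ((W⁻¹.map (algebraMap ℂ K)).mulVec (Y i)) = fun j =>
        algebraMap (Polynomial K) (RatFunc K)
          (uK ((W⁻¹.map (algebraMap ℂ K)).mulVec (Y i)) j) := rfl
    rw [h1, ← hom_eval, hf2ev, hproj]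
    have h2 : (fun k => Polynomial.C (∑ l, WK k l *
        ((W⁻¹.map (algebraMap ℂ K)).mulVec (Y i)) l)) = fun k => Polynomial.C (Y i k) := by
      funext k
      congr 1
      have h3 : (W.map (algebraMap ℂ K)).mulVec ((W⁻¹.map (algebraMap ℂ K)).mulVec (Y i)) = Y i := by
        rw [Matrix.mulVec_mulVec, ← Matrix.map_mul, Matrix.mul_nonsing_inv _ hW, Matrix.map_one,
          Matrix.one_mulVec]
        · exact map_zero _
        · exact map_one _
      have h4 := congrFun h3 k
      rw [← h4]
      rfl
    rw [h2]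
    have h5 := hom_eval ev (pr X (fun j => C (Y i j))) f0
    rw [hv i, map_zero, map_pr] at h5
    have h6 : (pr (fun i => ev (X i)) fun j => ev (C (Y i j))) =
        pr γ (fun k => Polynomial.C (Y i k)) := by
      congr 1 <;> funext k <;> simp [ev]
    rw [h6] at h5
    rw [show eval (pr γ fun k => Polynomial.C (Y i k)) f1 = 0 from h5.symm, map_zero]

end Pool.Agent.LowDeg
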