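import Pool.Agent.LowDeg.SysExists
import Pool.Agent.LowDeg.GenPos
import Pool.Agent.LowDeg.ModelCycle

/-! Module MK3 (doc section 11.2-11.4): good coordinates. -/

set_option autoImplicit false
set_option linter.unusedSectionVars false

open MvPolynomial

namespace Pool.Agent.LowDeg

namespace GCAux

/-! ### scaling -/

lemma eval₂_scale {R S σ : Type*} [CommRing R] [CommRing S] {f : MvPolynomial σ R} {e : ℕ}
    (hf : f.IsHomogeneous e) (φ : R →+* S) (g : σ → S) (s : S) :
    eval₂ φ (fun i => s * g i) f = s ^ e * eval₂ φ g f := by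
  rw [eval₂_eq, eval₂_eq, Finset.mul_sum]
  refine Finset.sum_congr rfl fun m hm => ?_
  have h1 : ∑ i ∈ m.support, m i = e := by
    have := hf (mem_support_iff.1 hm)
    rw [Finsupp.weight_apply] at this
    simpa [Finsupp.sum] using this
  simp only [mul_pow]
  rw [Finset.prod_mul_distrib, Finset.prod_pow_eq_pow_sum, h1]
  ring

lemma eval_scale {R σ : Type*} [CommRing R] {f : MvPolynomial σ R} {e : ℕ}
    (hf : f.IsHomogeneous e) (g : σ → R) (s : R) :
    eval (fun i => s * g i) f = s ^ e * eval g f := by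
  rw [eval_eq, eval_eq, Finset.mul_sum]
  refine Finset.sum_congr rfl fun m hm => ?_
  have h1 : ∑ i ∈ m.support, m i = e := by
    have := hf (mem_support_iff.1 hm)
    rw [Finsupp.weight_apply] at this
    simpa [Finsupp.sum] using this
  simp only [mul_pow]
  rw [Finset.prod_mul_distrib, Finset.prod_pow_eq_pow_sum, h1]
  ring

lemma aeval_scale {R S σ : Type*} [CommRing R] [CommRing S] [Algebra R S] {f : MvPolynomial σ R}
    {e : ℕ} (hf : f.IsHomogeneous e) (g : σ → S) (s : S) :
    aeval (fun i => s * g i) f = s ^ e * aeval g f := by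
  rw [aeval_def, aeval_def]; exact eval₂_scale hf _ g s

/-! ### shears of ternary forms -/

section shear
variable {R : Type*} [CommRing R]

/-- the shear `X₀ ↦ X₀ - c X₁` -/
noncomputable def sh (c : R) : MvPolynomial (Fin 3) R →ₐ[R] MvPolynomial (Fin 3) R :=
  aeval ![X 0 - C c * X 1, X 1, X 2]

lemma sh_neg_sh (c : R) (f : MvPolynomial (Fin 3) R) : sh (-c) (sh c f) = f := by
  have h : (sh (-c)).comp (sh c) = AlgHom.id R _ := by
    ext i; fin_cases i <;> simp [sh]
  exact DFunLike.congr_fun h f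

lemma sh_sh_neg (c : R) (f : MvPolynomial (Fin 3) R) : sh c (sh (-c) f) = f := by
  have := sh_neg_sh (-c) f
  rwa [neg_neg] at this

/-- the shear as an isomorphism -/
noncomputable def shE (c : R) : MvPolynomial (Fin 3) R ≃* MvPolynomial (Fin 3) R where
  toFun := sh c
  invFun := sh (-c)
  left_inv := sh_neg_sh c
  right_inv := sh_sh_neg c
  map_mul' := map_mul _

lemma shE_apply (c : R) (f : MvPolynomial (Fin 3) R) : shE c f = sh c f := rfl

lemma eval_sh (c : R) (f : MvPolynomial (Fin 3) R) (u : Fin 3 → R) :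
    eval u (sh c f) = eval ![u 0 - c * u 1, u 1, u 2] f := by
  have h : (aeval u).comp (sh c) = aeval (![u 0 - c * u 1, u 1, u 2] : Fin 3 → R) := by
    ext i; fin_cases i <;> simp [sh]
  have := DFunLike.congr_fun h f
  simpa [aeval_eq_eval] using this

lemma eval₂_sh {S : Type*} [CommRing S] (φ : R →+* S) (c : R) (f : MvPolynomial (Fin 3) R)
    (u : Fin 3 → S) :
    eval₂ φ u (sh c f) = eval₂ φ ![u 0 - φ c * u 1, u 1, u 2] f := by
  have h : (eval₂Hom φ u).comp (sh c).toRingHom =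
      eval₂Hom φ (![u 0 - φ c * u 1, u 1, u 2] : Fin 3 → S) := by
    apply MvPolynomial.ringHom_ext
    · intro r; simp [sh]
    · intro i; fin_cases i <;> simp [sh]
  exact DFunLike.congr_fun h f

lemma map_sh {S : Type*} [CommRing S] (φ : R →+* S) (c : R) (f : MvPolynomial (Fin 3) R) :
    map φ (sh c f) = sh (φ c) (map φ f) := by
  have h : (map φ).comp (sh c).toRingHom = (sh (φ c)).toRingHom.comp (map φ) := by
    apply MvPolynomial.ringHom_ext
    · intro r; simp [sh]
    · intro i; fin_cases i <;> simp [sh]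
  exact DFunLike.congr_fun h f

lemma sh_hom (c : R) {f : MvPolynomial (Fin 3) R} {e : ℕ} (hf : f.IsHomogeneous e) :
    (sh c f).IsHomogeneous e := by
  have := hf.aeval (![X 0 - C c * X 1, X 1, X 2] : Fin 3 → MvPolynomial (Fin 3) R) (n := 1)
    (by
      intro i; fin_cases i
      · exact (isHomogeneous_X R 0).sub (isHomogeneous_C_mul_X c 1)
      · exact isHomogeneous_X R 1
      · exact isHomogeneous_X R 2)
  rwa [one_mul] at this

end shear

/-! ### linear changes of coordinates -/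

section lin
variable {K : Type} [Field K] [Algebra ℂ K]

lemma LK_mul (A B : Matrix (Fin 4) (Fin 4) ℂ) (z : Fin 4 → K) : LK (A * B) z = LK A (LK B z) := by
  unfold LK
  rw [Matrix.mulVec_mulVec, Matrix.map_mul]

lemma LK_one (z : Fin 4 → K) : LK (1 : Matrix (Fin 4) (Fin 4) ℂ) z = z := by
  unfold LK
  rw [Matrix.map_one _ (map_zero _) (map_one _), Matrix.one_mulVec]

lemma LK_apply (A : Matrix (Fin 4) (Fin 4) ℂ) (z : Fin 4 → K) (i : Fin 4) :
    LK A z i = ∑ j, algebraMap ℂ K (A i j) * z j := by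
  simp [LK, Matrix.mulVec, dotProduct]

lemma LK_ne_zero {A : Matrix (Fin 4) (Fin 4) ℂ} (hA : IsUnit A.det) {z : Fin 4 → K}
    (hz : z ≠ 0) : LK A z ≠ 0 := by
  intro h
  apply hz
  have h1 : LK (A⁻¹ * A) z = 0 := by
    rw [LK_mul, h]; funext i; simp [LK_apply]
  rwa [Matrix.nonsing_inv_mul _ hA, LK_one] at h1

lemma LK_smul (A : Matrix (Fin 4) (Fin 4) ℂ) (r : K) (z : Fin 4 → K) :
    LK A (r • z) = r • LK A z := by
  unfold LK; rw [Matrix.mulVec_smul]

lemma aeval_FL (L : Matrix (Fin 4) (Fin 4) ℂ) (F : MvPolynomial (Fin 4) ℂ) (z : Fin 4 → K) :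
    aeval z (FL L F) = aeval (LK L⁻¹ z) F := by
  unfold FL
  rw [aeval_bind₁]
  have h : (fun i => (aeval z) (∑ j, C (L⁻¹ i j) * X j)) = LK L⁻¹ z := by
    funext i
    rw [LK_apply]
    simp
  rw [h]

/-- the shear of `ℂ⁴` -/
noncomputable def Ac (c : ℂ) : Matrix (Fin 4) (Fin 4) ℂ := !![1, c, 0, 0; 0, 1, 0, 0; 0, 0, 1, 0; 0, 0, 0, 1]

lemma Ac_det (c : ℂ) : (Ac c).det = 1 := by
  simp [Ac, Matrix.det_succ_row_zero, Fin.sum_univ_succ]

lemma Ac_mul (c : ℂ) : Ac (-c) * Ac c = 1 := by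
  ext i j; fin_cases i <;> fin_cases j <;> simp [Ac, Matrix.mul_apply, Fin.sum_univ_succ]

lemma Ac_inv (c : ℂ) : (Ac c)⁻¹ = Ac (-c) := Matrix.inv_eq_left_inv (Ac_mul c)

lemma LK_Ac (c : ℂ) (z : Fin 4 → K) :
    LK (Ac c) z = ![z 0 + algebraMap ℂ K c * z 1, z 1, z 2, z 3] := by
  funext i
  rw [LK_apply]
  fin_cases i <;> simp [Ac, Fin.sum_univ_succ]

lemma uK_zero (z : Fin 4 → K) : uK z 0 = Polynomial.C (z 0) := rfl
lemma uK_one (z : Fin 4 → K) : uK z 1 = Polynomial.C (z 1) := rfl
lemma uK_two (z : Fin 4 → K) :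
    uK z 2 = Polynomial.C (z 2) + Polynomial.C (z 3) * Polynomial.X := rfl

lemma eval_uK_Ac (c : ℂ) (G : MvPolynomial (Fin 3) (Polynomial K)) (z : Fin 4 → K) :
    eval (uK (LK (Ac c) z)) (sh (Polynomial.C (algebraMap ℂ K c)) G) = eval (uK z) G := by
  rw [eval_sh, LK_Ac]
  have h : ![uK ![z 0 + (algebraMap ℂ K) c * z 1, z 1, z 2, z 3] 0 -
      Polynomial.C ((algebraMap ℂ K) c) * uK ![z 0 + (algebraMap ℂ K) c * z 1, z 1, z 2, z 3] 1,
      uK ![z 0 + (algebraMap ℂ K) c * z 1, z 1, z 2, z 3] 1,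
      uK ![z 0 + (algebraMap ℂ K) c * z 1, z 1, z 2, z 3] 2] = uK z := by
    funext i
    fin_cases i <;> simp [uK]
  rw [h]

lemma eval_uR_Ac (c : ℂ) (f : MvPolynomial (Fin 3) (RatFunc K)) (z : Fin 4 → K) :
    eval (uR (LK (Ac c) z)) (sh (algebraMap (Polynomial K) (RatFunc K)
      (Polynomial.C (algebraMap ℂ K c))) f) = eval (uR z) f := by
  rw [eval_sh, LK_Ac]
  have h : ![uR ![z 0 + (algebraMap ℂ K) c * z 1, z 1, z 2, z 3] 0 -
      algebraMap (Polynomial K) (RatFunc K) (Polynomial.C ((algebraMap ℂ K) c)) *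
        uR ![z 0 + (algebraMap ℂ K) c * z 1, z 1, z 2, z 3] 1,
      uR ![z 0 + (algebraMap ℂ K) c * z 1, z 1, z 2, z 3] 1,
      uR ![z 0 + (algebraMap ℂ K) c * z 1, z 1, z 2, z 3] 2] = uR z := by
    funext i
    fin_cases i <;> simp [uR, uK]
  rw [h]

lemma FL_mul (A B : Matrix (Fin 4) (Fin 4) ℂ) (F : MvPolynomial (Fin 4) ℂ) :
    FL (A * B) F = FL A (FL B F) := by
  unfold FL
  rw [bind₁_bind₁]
  have h : (fun i => ∑ j, C ((A * B)⁻¹ i j) * X j : Fin 4 → MvPolynomial (Fin 4) ℂ) =
      fun i => bind₁ (fun i => ∑ j, C (A⁻¹ i j) * X j) (∑ j, C (B⁻¹ i j) * X j) := by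
    funext i
    simp only [map_sum, map_mul, bind₁_C_right, bind₁_X_right, Matrix.mul_inv_rev, Matrix.mul_apply,
      Finset.mul_sum, Finset.sum_mul]
    rw [Finset.sum_comm]
    refine Finset.sum_congr rfl fun j _ => Finset.sum_congr rfl fun k _ => ?_
    ring
  rw [h]

lemma FL_Ac (c : ℂ) (F : MvPolynomial (Fin 4) ℂ) :
    FL (Ac c) F = bind₁ ![X 0 - C c * X 1, X 1, X 2, X 3] F := by
  unfold FL
  rw [Ac_inv]
  have h : (fun i => ∑ j, C (Ac (-c) i j) * X j : Fin 4 → MvPolynomial (Fin 4) ℂ) =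
      ![X 0 - C c * X 1, X 1, X 2, X 3] := by
    funext i
    fin_cases i <;> simp [Ac, Fin.sum_univ_succ, sub_eq_add_neg]
  rw [h]

lemma eval₂_FL_Ac {S : Type*} [CommRing S] (ψ : ℂ →+* S) (v : Fin 4 → S) (c : ℂ)
    (F : MvPolynomial (Fin 4) ℂ) :
    eval₂ ψ v (FL (Ac c) F) = eval₂ ψ ![v 0 - ψ c * v 1, v 1, v 2, v 3] F := by
  rw [FL_Ac]
  have h := eval₂Hom_bind₁ ψ v ![X 0 - C c * X 1, X 1, X 2, X 3] F
  have h2 : (fun i => (eval₂Hom ψ v) ((![X 0 - C c * X 1, X 1, X 2, X 3] :
      Fin 4 → MvPolynomial (Fin 4) ℂ) i)) = ![v 0 - ψ c * v 1, v 1, v 2, v 3] := by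
    funext i
    fin_cases i <;> simp
  rw [h2] at h
  exact h

lemma lin_finite {a b : K} (h : a ≠ 0 ∨ b ≠ 0) :
    {c : ℂ | a + algebraMap ℂ K c * b = 0}.Finite := by
  apply Set.Subsingleton.finite
  intro c hc c' hc'
  simp only [Set.mem_ofPred_eq] at hc hc'
  by_contra hne
  have h1 : (algebraMap ℂ K c - algebraMap ℂ K c') * b = 0 := by linear_combination hc - hc'
  rcases mul_eq_zero.1 h1 with h2 | h2
  · rw [← map_sub] at h2
    exact hne (sub_eq_zero.1 ((map_eq_zero _).1 h2))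
  · rw [h2, mul_zero, add_zero] at hc
    rcases h with h | h
    · exact h hc
    · exact h h2

end lin

/-! ### the sheared model -/

section model
variable {K : Type} [Field K] {h : ℕ}

lemma one_add_ne (M : CurveModel K h) (γ : K) : (1 : M.E) + algebraMap K M.E γ * M.a ≠ 0 := by
  intro h0
  by_cases hγ : γ = 0
  · rw [hγ] at h0; simp at h0
  · apply M.trans
    have h1 : M.a = algebraMap K M.E (-γ⁻¹) := by
      have h2 : algebraMap K M.E γ ≠ 0 := by simpa using hγ
      rw [map_neg, map_inv₀]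
      field_simp
      linear_combination h0
    rw [h1]
    exact isAlgebraic_algebraMap _

lemma one_sub_eq (M : CurveModel K h) (γ : K) :
    1 - algebraMap K M.E γ * (M.a / (1 + algebraMap K M.E γ * M.a)) =
      (1 + algebraMap K M.E γ * M.a)⁻¹ := by
  have := one_add_ne M γ
  field_simp
  ring

lemma a_eq (M : CurveModel K h) (γ : K) :
    M.a = (M.a / (1 + algebraMap K M.E γ * M.a)) *
      (1 - algebraMap K M.E γ * (M.a / (1 + algebraMap K M.E γ * M.a)))⁻¹ := by
  rw [one_sub_eq, inv_inv, div_mul_cancel₀ _ (one_add_ne M γ)]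

lemma adj_eq (M : CurveModel K h) (γ : K) :
    IntermediateField.adjoin K {M.a / (1 + algebraMap K M.E γ * M.a)} =
      IntermediateField.adjoin K {M.a} := by
  apply le_antisymm
  · rw [IntermediateField.adjoin_simple_le_iff]
    have h1 := IntermediateField.mem_adjoin_simple_self K M.a
    exact div_mem h1 (add_mem (one_mem _) (mul_mem (algebraMap_mem _ _) h1))
  · rw [IntermediateField.adjoin_simple_le_iff]
    have h1 := IntermediateField.mem_adjoin_simple_self K (M.a / (1 + algebraMap K M.E γ * M.a))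
    have h2 := mul_mem h1 (inv_mem (sub_mem (one_mem _) (mul_mem (algebraMap_mem _ γ) h1)))
    rw [← a_eq M γ] at h2
    exact h2

/-- the model in the coordinates `(z₀ + γ z₁, z₁, z₂, z₃)` -/
noncomputable def shModel (γ : K) (M : CurveModel K h) : CurveModel K h where
  E := M.E
  fE := M.fE
  aE := M.aE
  a := M.a / (1 + algebraMap K M.E γ * M.a)
  b := M.b / (1 + algebraMap K M.E γ * M.a)
  w := M.w / (1 + algebraMap K M.E γ * M.a)
  trans := by
    intro h1
    apply M.trans
    rw [a_eq M γ]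
    exact h1.mul (((isAlgebraic_one).sub ((isAlgebraic_algebraMap γ).mul h1)).inv)
  fin := by
    rw [adj_eq]; exact M.fin
  rank := by
    rw [adj_eq]; exact M.rank
  gen := by
    rw [eq_top_iff, ← M.gen, IntermediateField.adjoin_le_iff]
    set A := IntermediateField.adjoin K
      {M.a / (1 + algebraMap K M.E γ * M.a), M.b / (1 + algebraMap K M.E γ * M.a),
        M.w / (1 + algebraMap K M.E γ * M.a)} with hA
    have ha : M.a / (1 + algebraMap K M.E γ * M.a) ∈ A :=
      IntermediateField.subset_adjoin _ _ (by simp)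
    have hb : M.b / (1 + algebraMap K M.E γ * M.a) ∈ A :=
      IntermediateField.subset_adjoin _ _ (by simp)
    have hw : M.w / (1 + algebraMap K M.E γ * M.a) ∈ A :=
      IntermediateField.subset_adjoin _ _ (by simp)
    have hs : (1 + algebraMap K M.E γ * M.a)⁻¹ ∈ A := by
      rw [← one_sub_eq]
      exact sub_mem (one_mem _) (mul_mem (algebraMap_mem _ _) ha)
    have hs' : (1 + algebraMap K M.E γ * M.a) ∈ A := by
      have := inv_mem hs
      rwa [inv_inv] at this
    have hne := one_add_ne M γ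
    intro x hx
    rcases hx with rfl | rfl | rfl
    · have := mul_mem ha hs'
      rwa [div_mul_cancel₀ _ hne] at this
    · have := mul_mem hb hs'
      rwa [div_mul_cancel₀ _ hne] at this
    · have := mul_mem hw hs'
      rwa [div_mul_cancel₀ _ hne] at this
  G := sh (Polynomial.C γ) M.G
  G_hom := sh_hom _ M.G_hom
  G_top := by
    rw [eval_sh]
    have : (![(![0, 0, 1] : Fin 3 → Polynomial K) 0 - Polynomial.C γ * (![0, 0, 1] : Fin 3 → Polynomial K) 1,
        (![0, 0, 1] : Fin 3 → Polynomial K) 1, (![0, 0, 1] : Fin 3 → Polynomial K) 2]) = ![0, 0, 1] := by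
      funext i; fin_cases i <;> simp
    rw [this]; exact M.G_top
  rel := by
    rw [eval₂_sh]
    have hne := one_add_ne M γ
    have key : (![(![1, Polynomial.C (M.a / (1 + algebraMap K M.E γ * M.a)),
          Polynomial.C (M.b / (1 + algebraMap K M.E γ * M.a)) +
            Polynomial.C (M.w / (1 + algebraMap K M.E γ * M.a)) * Polynomial.X] :
            Fin 3 → Polynomial M.E) 0 -
          Polynomial.mapRingHom (algebraMap K M.E) (Polynomial.C γ) *
            (![1, Polynomial.C (M.a / (1 + algebraMap K M.E γ * M.a)),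
          Polynomial.C (M.b / (1 + algebraMap K M.E γ * M.a)) +
            Polynomial.C (M.w / (1 + algebraMap K M.E γ * M.a)) * Polynomial.X] :
            Fin 3 → Polynomial M.E) 1,
          (![1, Polynomial.C (M.a / (1 + algebraMap K M.E γ * M.a)),
          Polynomial.C (M.b / (1 + algebraMap K M.E γ * M.a)) +
            Polynomial.C (M.w / (1 + algebraMap K M.E γ * M.a)) * Polynomial.X] :
            Fin 3 → Polynomial M.E) 1,
          (![1, Polynomial.C (M.a / (1 + algebraMap K M.E γ * M.a)),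
          Polynomial.C (M.b / (1 + algebraMap K M.E γ * M.a)) +
            Polynomial.C (M.w / (1 + algebraMap K M.E γ * M.a)) * Polynomial.X] :
            Fin 3 → Polynomial M.E) 2] : Fin 3 → Polynomial M.E) =
        fun i => Polynomial.C (1 + algebraMap K M.E γ * M.a)⁻¹ *
          (![1, Polynomial.C M.a, Polynomial.C M.b + Polynomial.C M.w * Polynomial.X] :
            Fin 3 → Polynomial M.E) i := by
      funext i
      fin_cases i
      · simp only [Fin.zero_eta, Matrix.cons_val_zero, Matrix.cons_val_one,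
          Polynomial.coe_mapRingHom, Polynomial.map_C, mul_one]
        rw [← Polynomial.C_mul, ← Polynomial.C_1, ← Polynomial.C_sub, one_sub_eq]
      · simp only [Fin.mk_one, Matrix.cons_val_one, Matrix.cons_val_zero]
        rw [← Polynomial.C_mul, div_eq_inv_mul]
      · simp [div_eq_inv_mul, mul_add, mul_assoc]
    rw [key, eval₂_scale M.G_hom, M.rel, mul_zero]

lemma shModel_GR (γ : K) (M : CurveModel K h) : (shModel γ M).GR =
    sh (algebraMap (Polynomial K) (RatFunc K) (Polynomial.C γ)) M.GR := by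
  unfold CurveModel.GR
  exact map_sh _ _ _

variable [Algebra ℂ K]

lemma shModel_On (c : ℂ) (M : CurveModel K h) (z : Fin 4 → K) :
    (shModel (algebraMap ℂ K c) M).On (LK (Ac c) z) ↔ M.On z := by
  unfold CurveModel.On
  have : (shModel (algebraMap ℂ K c) M).G = sh (Polynomial.C (algebraMap ℂ K c)) M.G := rfl
  rw [this, eval_uK_Ac]

lemma xF_eq (M : CurveModel K h) (F : MvPolynomial (Fin 4) ℂ) :
    M.xF F = eval₂ ((algebraMap K M.E).comp (algebraMap ℂ K)) M.pt F := by
  unfold CurveModel.xF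
  rw [aeval_def, eval₂_map]

lemma shModel_xF (c : ℂ) (M : CurveModel K h) {F : MvPolynomial (Fin 4) ℂ} {d : ℕ}
    (hF : F.IsHomogeneous d) (hx : M.xF F ≠ 0) :
    (shModel (algebraMap ℂ K c) M).xF (FL (Ac c) F) ≠ 0 := by
  set ψ : ℂ →+* M.E := (algebraMap K M.E).comp (algebraMap ℂ K) with hψ
  set v : Fin 4 → M.E := ![1, M.a / (1 + algebraMap K M.E (algebraMap ℂ K c) * M.a),
    M.b / (1 + algebraMap K M.E (algebraMap ℂ K c) * M.a),
    M.w / (1 + algebraMap K M.E (algebraMap ℂ K c) * M.a)] with hv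
  have h0 : (shModel (algebraMap ℂ K c) M).xF (FL (Ac c) F) = eval₂ ψ v (FL (Ac c) F) :=
    xF_eq (shModel (algebraMap ℂ K c) M) _
  have h1 := eval₂_FL_Ac ψ v c F
  have h2 : (![v 0 - ψ c * v 1, v 1, v 2, v 3] : Fin 4 → M.E) =
      fun i => (1 + algebraMap K M.E (algebraMap ℂ K c) * M.a)⁻¹ * M.pt i := by
    funext i
    fin_cases i
    · have := one_sub_eq M (algebraMap ℂ K c)
      simpa [hv, hψ, CurveModel.pt] using this
    · simp [hv, CurveModel.pt, div_eq_inv_mul]
    · simp [hv, CurveModel.pt, div_eq_inv_mul]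
    · simp [hv, CurveModel.pt, div_eq_inv_mul]
  rw [h2, eval₂_scale hF] at h1
  have main : eval₂ ψ v (FL (Ac c) F) ≠ 0 := by
    rw [h1]
    refine mul_ne_zero (pow_ne_zero _ (inv_ne_zero (one_add_ne M _))) ?_
    have h3 := hx
    rw [xF_eq] at h3
    exact h3
  rw [h0]
  exact main

/-- the sheared system -/
noncomputable def shSys (c : ℂ) {n : ℕ} {ι : Type} {y : ι → Fin 4 → K} (S : ModelSys n y) :
    ModelSys n (fun i => LK (Ac c) (y i)) where
  J := S.J
  h := S.h
  M j := shModel (algebraMap ℂ K c) (S.M j)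
  one_le := S.one_le
  irr j := by
    rw [shModel_GR]
    exact (MulEquiv.irreducible_iff (shE _)).2 (S.irr j)
  na i j hij h := by
    rw [shModel_GR, shModel_GR] at h
    apply S.na i j hij
    have h1 := h.map (shE (algebraMap (Polynomial K) (RatFunc K)
      (Polynomial.C (algebraMap ℂ K c)))).symm.toMonoidHom
    have h2 : ∀ g, (shE (algebraMap (Polynomial K) (RatFunc K)
      (Polynomial.C (algebraMap ℂ K c)))).symm.toMonoidHom (sh (algebraMap (Polynomial K) (RatFunc K)
      (Polynomial.C (algebraMap ℂ K c))) g) = g := fun g => sh_neg_sh _ g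
    rwa [h2, h2] at h1
  deg := S.deg
  cover i := by
    obtain ⟨j, hj⟩ := S.cover i
    exact ⟨j, (shModel_On c _ _).2 hj⟩
  only j := by
    obtain ⟨i, hi, hi'⟩ := S.only j
    exact ⟨i, (shModel_On c _ _).2 hi, fun l hl h => hi' l hl ((shModel_On c _ _).1 h)⟩
  uniq e f hf he h0 := by
    set g := algebraMap (Polynomial K) (RatFunc K) (Polynomial.C (algebraMap ℂ K c)) with hg
    have h1 := S.uniq e (sh (-g) f) (sh_hom _ hf) he (by
      intro i
      have h2 := h0 i
      rw [← sh_sh_neg g f, hg, eval_uR_Ac] at h2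
      rw [hg]; exact h2)
    have h3 := map_dvd (sh g) h1
    rw [sh_sh_neg, map_prod] at h3
    simp only [shModel_GR]
    exact h3

end model

end GCAux

open GCAux

variable {K : Type} [Field K] [IsAlgClosed K] [CharZero K] [Algebra ℂ K]

/-- first step: the centre of projection, and `ℓ₀ ≠ 0` at the points -/
theorem exists_coord₁ {ι : Type} [Fintype ι] (y : ι → Fin 4 → K) (hy : ∀ i, y i ≠ 0) {n : ℕ}
    (hcard : 8 * Fintype.card ι < (n + 3) * (n + 5)) :
    ∃ (L : Matrix (Fin 4) (Fin 4) ℂ) (e : ℕ) (f : MvPolynomial (Fin 3) (RatFunc K)),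
      IsUnit L.det ∧ 2 * e ≤ n + 2 ∧ f.IsHomogeneous e ∧ eval ![0, 0, 1] f ≠ 0 ∧
      (∀ i, eval (uR (LK L (y i))) f = 0) ∧ ∀ i, LK L (y i) 0 ≠ 0 := by
  have he1 : 1 ≤ (n + 2) / 2 := by omega
  have he2 : 2 * ((n + 2) / 2) ≤ n + 2 := by omega
  have he3 : n + 1 ≤ 2 * ((n + 2) / 2) := by omega
  have hc2 : 2 * Fintype.card ι < ((n + 2) / 2 + 1) * ((n + 2) / 2 + 2) := by
    set e := (n + 2) / 2
    nlinarith
  obtain ⟨L₀, f₀, hL₀, hf₀, hf₁, hf₂⟩ := general_position y ((n + 2) / 2) he1 hc2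
  have hf₂' : ∀ i, eval (uR (LK L₀ (y i))) f₀ = 0 := hf₂
  have hor : ∀ i, LK L₀ (y i) 0 ≠ 0 ∨ LK L₀ (y i) 1 ≠ 0 := by
    intro i
    by_contra hcon
    push Not at hcon
    obtain ⟨h0, h1⟩ := hcon
    have hz := LK_ne_zero hL₀ (hy i)
    have h2 := hf₂' i
    have h3 : uR (LK L₀ (y i)) = fun k => uR (LK L₀ (y i)) 2 * (![0, 0, 1] : Fin 3 → RatFunc K) k := by
      funext k
      fin_cases k
      · simp [uR, uK, h0]
      · simp [uR, uK, h1]
      · simp
    rw [h3, eval_scale hf₀] at h2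
    rcases mul_eq_zero.1 h2 with h4 | h4
    · have h5 : uR (LK L₀ (y i)) 2 = 0 := by
        by_contra h6
        exact pow_ne_zero _ h6 h4
      have h6 : uK (LK L₀ (y i)) 2 = 0 := by
        have : algebraMap (Polynomial K) (RatFunc K) (uK (LK L₀ (y i)) 2) = 0 := h5
        exact (map_eq_zero_iff _ (RatFunc.algebraMap_injective K)).1 this
      apply hz
      rw [uK_two] at h6
      have h7 := congrArg (Polynomial.coeff · 0) h6
      have h8 := congrArg (Polynomial.coeff · 1) h6
      simp at h7 h8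
      have h9 : LK L₀ (y i) 2 = 0 := by simpa [Polynomial.coeff_C] using h7
      have h10 : LK L₀ (y i) 3 = 0 := by simpa [Polynomial.coeff_C] using h8
      funext k
      fin_cases k
      · exact h0
      · exact h1
      · exact h9
      · exact h10
    · exact hf₁ h4
  -- choose the shear
  obtain ⟨c, hc⟩ : ∃ c : ℂ, c ∉ ⋃ i, {c : ℂ | LK L₀ (y i) 0 + algebraMap ℂ K c * LK L₀ (y i) 1 = 0} :=
    (Set.finite_iUnion fun i => lin_finite (hor i)).exists_notMem
  simp only [Set.mem_iUnion, not_exists] at hc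
  refine ⟨Ac c * L₀, (n + 2) / 2, sh (algebraMap (Polynomial K) (RatFunc K)
      (Polynomial.C (algebraMap ℂ K c))) f₀, ?_, he2, sh_hom _ hf₀, ?_, ?_, ?_⟩
  · rw [Matrix.det_mul, Ac_det, one_mul]; exact hL₀
  · rw [eval_sh]
    have : (![(![0, 0, 1] : Fin 3 → RatFunc K) 0 - algebraMap (Polynomial K) (RatFunc K)
        (Polynomial.C (algebraMap ℂ K c)) * (![0, 0, 1] : Fin 3 → RatFunc K) 1,
        (![0, 0, 1] : Fin 3 → RatFunc K) 1, (![0, 0, 1] : Fin 3 → RatFunc K) 2]) = ![0, 0, 1] := by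
      funext i; fin_cases i <;> simp
    rw [this]; exact hf₁
  · intro i
    rw [LK_mul, eval_uR_Ac]; exact hf₂' i
  · intro i h0
    rw [LK_mul, LK_Ac] at h0
    exact hc i h0

/-- the points of the surface on a curve model not contained in it, up to scaling -/
theorem bad_finite {F : MvPolynomial (Fin 4) ℂ} {d h : ℕ} (hF : F.IsHomogeneous d)
    (M : CurveModel K h) (hx : M.xF F ≠ 0) :
    {z : Fin 4 → K | z 0 = 1 ∧ aeval z F = 0 ∧ M.On z}.Finite ∧
    {z : Fin 4 → K | z 0 = 0 ∧ z 1 = 1 ∧ M.On z}.Finite ∧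
    ∀ z : Fin 4 → K, z 0 = 0 → z 1 = 0 → M.On z → z = 0 := by
  classical
  refine ⟨?_, ?_, ?_⟩
  · obtain ⟨μ, -, hμ, -⟩ := M.exists_cycle (map (algebraMap ℂ K) F) (hF.map _) hx
    refine μ.support.finite_toSet.subset ?_
    intro z hz
    obtain ⟨h0, h1, h2⟩ := hz
    rw [Finset.mem_coe, Finsupp.mem_support_iff, hμ z]
    refine ⟨h0, ?_, h2⟩
    rw [eval_map, ← aeval_def]; exact h1
  · have hpt : ∀ (l : K) (z : Fin 4 → K), z 0 = 0 → z 1 = 1 → M.On z →
        ((M.gpolInf l).map (Polynomial.evalRingHom (0 : K))).eval (z 2 + l * z 3) = 0 := by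
      intro l z h0 h1 hon
      have h2 : ((M.gpolInf l).map (Polynomial.evalRingHom (0 : K))).eval (z 2 + l * z 3) =
          Polynomial.evalRingHom l (eval (uK z) M.G) := by
        unfold CurveModel.gpolInf
        have e1 : ((Polynomial.evalRingHom (z 2 + l * z 3)).comp
            (Polynomial.mapRingHom (Polynomial.evalRingHom (0 : K)))).comp
            (eval₂Hom ((Polynomial.C.comp Polynomial.C).comp (Polynomial.evalRingHom l))
              (![Polynomial.C Polynomial.X, 1, Polynomial.X] : Fin 3 → Polynomial (Polynomial K))) =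
            (Polynomial.evalRingHom l).comp (eval (uK z)) := by
          apply MvPolynomial.ringHom_ext
          · intro r; simp
          · intro k
            fin_cases k
            · simp [uK, h0]
            · simp [uK, h1]
            · simp [uK]; ring
        exact DFunLike.congr_fun e1 M.G
      rw [h2]
      have h3 : eval (uK z) M.G = 0 := hon
      rw [h3, map_zero]
    have hmon : ∀ l : K, ((M.gpolInf l).map (Polynomial.evalRingHom (0 : K))) ≠ 0 := fun l =>
      ((M.gpolInf_monic l).map _).ne_zero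
    have hfin : ∀ l : K, {x : K | ((M.gpolInf l).map (Polynomial.evalRingHom (0 : K))).eval x = 0}.Finite :=
      fun l => by
        refine (((M.gpolInf l).map (Polynomial.evalRingHom (0 : K))).roots.toFinset.finite_toSet).subset ?_
        intro x hx
        rw [Finset.mem_coe, Multiset.mem_toFinset, Polynomial.mem_roots (hmon l)]
        exact hx
    refine Set.Finite.of_finite_image (f := fun z : Fin 4 → K => (z 2 + 0 * z 3, z 2 + 1 * z 3))
      (((hfin 0).prod (hfin 1)).subset ?_) ?_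
    · rintro _ ⟨z, ⟨h0, h1, h2⟩, rfl⟩
      exact ⟨hpt 0 z h0 h1 h2, hpt 1 z h0 h1 h2⟩
    · intro z hz z' hz' heq
      obtain ⟨h0, h1, -⟩ := hz
      obtain ⟨h0', h1', -⟩ := hz'
      simp only [Prod.mk.injEq, zero_mul, add_zero, one_mul] at heq
      obtain ⟨e1, e2⟩ := heq
      funext k
      fin_cases k
      · exact h0.trans h0'.symm
      · exact h1.trans h1'.symm
      · exact e1
      · exact add_left_cancel (e1 ▸ e2)
  · intro z h0 h1 hon
    have h2 : eval (uK z) M.G = 0 := hon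
    have h3 : uK z = fun k => uK z 2 * (![0, 0, 1] : Fin 3 → Polynomial K) k := by
      funext k
      fin_cases k
      · simp [uK, h0]
      · simp [uK, h1]
      · simp
    rw [h3, eval_scale M.G_hom, M.G_top, mul_one] at h2
    have h6 : uK z 2 = 0 := by
      by_contra h6
      exact pow_ne_zero _ h6 h2
    rw [uK_two] at h6
    have h7 := congrArg (Polynomial.coeff · 0) h6
    have h8 := congrArg (Polynomial.coeff · 1) h6
    simp at h7 h8
    have h9 : z 2 = 0 := by simpa [Polynomial.coeff_C] using h7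
    have h10 : z 3 = 0 := by simpa [Polynomial.coeff_C] using h8
    funext k
    fin_cases k
    · exact h0
    · exact h1
    · exact h9
    · exact h10

/-- (GP) good coordinates -/
theorem exists_good_coord {F : MvPolynomial (Fin 4) ℂ} {d n : ℕ} (hd : d = n + 4)
    (hF : IsSmoothForm F d) (δ₁ δ₂ : Derivation ℂ K K) {ι : Type} [Fintype ι]
    (y : ι → Fin 4 → K) (J ν : ι → K) (hR : RelData F n δ₁ δ₂ y J ν)
    (hcard : 8 * Fintype.card ι < (n + 3) * (n + 5)) :
    ∃ L : Matrix (Fin 4) (Fin 4) ℂ, IsUnit L.det ∧ (∀ i, LK L (y i) 0 ≠ 0) ∧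
      ∃ S : ModelSys n (fun i : {i // J i ≠ 0} => LK L (y i)),
        (∀ j, (S.M j).xF (FL L F) ≠ 0) ∧
        (∀ z : Fin 4 → K, z ≠ 0 → z 0 = 0 → aeval z (FL L F) = 0 → ∀ j, ¬ (S.M j).On z) ∧
        ∃ β₂ β₃ : ℂ, aeval ![0, 1, β₂, β₃] (FL L F) ≠ 0 := by
  classical
  obtain ⟨L₁, e, f, hL₁, he, hf, hf1, hf0, hy1⟩ := exists_coord₁ y hR.np.1 hcard
  have hinv : L₁⁻¹ * L₁ = 1 := Matrix.nonsing_inv_mul _ hL₁
  have hF₁ : IsSmoothForm (FL L₁ F) d := hF.linear L₁ L₁⁻¹ hinv
  have hdet : (algebraMap ℂ K L₁.det) ≠ 0 := by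
    rw [Ne, map_eq_zero]; exact hL₁.ne_zero
  -- the relation in the new coordinates
  have hR₁ : RelData (FL L₁ F) n δ₁ δ₂ (fun i : {i // J i ≠ 0} => LK L₁ (y i))
      (fun i => algebraMap ℂ K L₁.det * J i) (fun i => ν i) := by
    refine ⟨⟨fun i => LK_ne_zero hL₁ (hR.np.1 i), ?_⟩, ?_, ?_, fun i => hR.ne i, ?_⟩
    · intro i j hij r h
      have h1 : LK L₁ (y i - r • y j) = 0 := by
        have h2 : LK L₁ (y i - r • y j) = LK L₁ (y i) - r • LK L₁ (y j) := by
          unfold LK
          rw [Matrix.mulVec_sub, Matrix.mulVec_smul]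
        have h' : LK L₁ (y i) = r • LK L₁ (y j) := h
        rw [h2, h', sub_self]
      by_cases h3 : y i - r • y j = 0
      · exact hR.np.2 i j (fun h4 => hij (Subtype.ext h4)) r (sub_eq_zero.1 h3)
      · exact LK_ne_zero hL₁ h3 h1
    · intro i
      rw [aeval_FL, ← LK_mul, hinv, LK_one]; exact hR.mem i
    · intro i
      exact (hR.res i).linear L₁ L₁⁻¹ hinv
    · intro g hg
      have hg' : (bind₁ (fun i => ∑ j, C (algebraMap ℂ K (L₁ i j)) * X j :
          Fin 4 → MvPolynomial (Fin 4) K) g).IsHomogeneous n := by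
        have := hg.aeval (fun i => ∑ j, C (algebraMap ℂ K (L₁ i j)) * X j :
          Fin 4 → MvPolynomial (Fin 4) K) (n := 1)
          (fun i => IsHomogeneous.sum _ _ _ fun j _ => isHomogeneous_C_mul_X _ _)
        rwa [one_mul] at this
      have h1 := hR.rel _ hg'
      have h2 : ∀ i, eval (y i) (bind₁ (fun i => ∑ j, C (algebraMap ℂ K (L₁ i j)) * X j :
          Fin 4 → MvPolynomial (Fin 4) K) g) = eval (LK L₁ (y i)) g := by
        intro i
        have h3 := aeval_bind₁ (y i) (fun i => ∑ j, C (algebraMap ℂ K (L₁ i j)) * X j :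
          Fin 4 → MvPolynomial (Fin 4) K) g
        have h4 : (fun k => (aeval (y i)) ((fun i => ∑ j, C (algebraMap ℂ K (L₁ i j)) * X j :
          Fin 4 → MvPolynomial (Fin 4) K) k)) = LK L₁ (y i) := by
          funext k
          rw [LK_apply]
          simp
        rw [h4] at h3
        simpa [aeval_eq_eval] using h3
      simp only [h2] at h1
      have h5 : ∑ i : {i // J i ≠ 0}, ν i * (algebraMap ℂ K L₁.det * J i * eval (LK L₁ (y i)) g) =
          ∑ i ∈ Finset.univ.filter (fun i => J i ≠ 0),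
            ν i * (algebraMap ℂ K L₁.det * J i * eval (LK L₁ (y i)) g) :=
        (Finset.sum_subtype (Finset.univ.filter (fun i => J i ≠ 0)) (by simp)
          (fun i => ν i * (algebraMap ℂ K L₁.det * J i * eval (LK L₁ (y i)) g))).symm
      rw [h5, Finset.sum_filter_of_ne]
      · calc ∑ i, ν i * (algebraMap ℂ K L₁.det * J i * eval (LK L₁ (y i)) g)
            = algebraMap ℂ K L₁.det * ∑ i, ν i * (J i * eval (LK L₁ (y i)) g) := by
              rw [Finset.mul_sum]
              exact Finset.sum_congr rfl fun i _ => by ring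
          _ = 0 := by rw [h1, mul_zero]
      · intro i _ hne h0
        apply hne
        rw [h0]; ring
  have hcard' : 8 * Fintype.card {i // J i ≠ 0} < (n + 3) * (n + 5) :=
    lt_of_le_of_lt (Nat.mul_le_mul_left 8 (Fintype.card_subtype_le _)) hcard
  obtain ⟨S₁, hS₁⟩ := exists_modelSys hd hF₁ δ₁ δ₂ _ _ _ hR₁
    (fun i => mul_ne_zero hdet i.2) hcard' (fun i => hy1 i) e he f hf hf1 (fun i => hf0 i)
  -- the surface at infinity
  obtain ⟨x, hx, hx1⟩ : ∃ x : Fin 4 → ℂ, eval x (FL L₁ F) ≠ 0 ∧ x 1 ≠ 0 := by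
    have hne : FL L₁ F ≠ 0 := by
      intro h0
      obtain ⟨i, hi⟩ := hF₁.smooth (fun _ => 1) (fun h => one_ne_zero (congrFun h 0))
        (by rw [h0, map_zero])
      apply hi
      rw [h0, map_zero, map_zero]
    have hne' : FL L₁ F * X 1 ≠ 0 := mul_ne_zero hne (X_ne_zero 1)
    by_contra hcon
    push Not at hcon
    apply hne'
    apply MvPolynomial.funext
    intro x
    rw [map_mul, eval_X, map_zero]
    by_cases h1 : eval x (FL L₁ F) = 0
    · rw [h1, zero_mul]
    · rw [hcon x h1, mul_zero]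
  -- normalise `x 1 = 1`
  set x' : Fin 4 → ℂ := fun i => (x 1)⁻¹ * x i with hx'
  have hx'1 : x' 1 = 1 := by rw [hx']; exact inv_mul_cancel₀ hx1
  have hx'F : eval x' (FL L₁ F) ≠ 0 := by
    rw [hx', eval_scale hF₁.hom]
    exact mul_ne_zero (pow_ne_zero _ (inv_ne_zero hx1)) hx
  set q : Polynomial ℂ := eval₂ Polynomial.C ![Polynomial.X, 1, Polynomial.C (x' 2),
    Polynomial.C (x' 3)] (FL L₁ F) with hq
  have hqe : ∀ s : ℂ, q.eval s = eval ![s, 1, x' 2, x' 3] (FL L₁ F) := by
    intro s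
    have h1 : (Polynomial.evalRingHom s).comp (eval₂Hom Polynomial.C (![Polynomial.X, 1,
        Polynomial.C (x' 2), Polynomial.C (x' 3)] : Fin 4 → Polynomial ℂ)) =
        (eval ![s, 1, x' 2, x' 3] : MvPolynomial (Fin 4) ℂ →+* ℂ) := by
      apply MvPolynomial.ringHom_ext
      · intro r; simp
      · intro k; fin_cases k <;> simp
    exact DFunLike.congr_fun h1 (FL L₁ F)
  have hq0 : q ≠ 0 := by
    intro h0
    have h1 := hqe (x' 0)
    rw [h0, Polynomial.eval_zero] at h1
    apply hx'F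
    rw [h1]
    congr 2
    funext k
    fin_cases k
    · rfl
    · exact hx'1
    · rfl
    · rfl
  have hqfin : {c : ℂ | q.eval (-c) = 0}.Finite := by
    have h1 : {s : ℂ | q.eval s = 0}.Finite := by
      refine (q.roots.toFinset.finite_toSet).subset ?_
      intro s hs
      rw [Finset.mem_coe, Multiset.mem_toFinset, Polynomial.mem_roots hq0]
      exact hs
    have h2 : {c : ℂ | q.eval (-c) = 0} = (fun c => -c) ⁻¹' {s : ℂ | q.eval s = 0} := rfl
    rw [h2]
    exact h1.preimage (neg_injective.injOn)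
  -- the set of bad `c`
  have hB1 : (⋃ i, {c : ℂ | LK L₁ (y i) 0 + algebraMap ℂ K c * LK L₁ (y i) 1 = 0}).Finite :=
    Set.finite_iUnion fun i => lin_finite (Or.inl (hy1 i))
  have hB2 : (⋃ j, ⋃ z ∈ {z : Fin 4 → K | z 0 = 1 ∧ aeval z (FL L₁ F) = 0 ∧ (S₁.M j).On z},
      {c : ℂ | z 0 + algebraMap ℂ K c * z 1 = 0}).Finite := by
    refine Set.finite_iUnion fun j => ?_
    refine (bad_finite hF₁.hom (S₁.M j) (hS₁ j)).1.biUnion fun z hz => ?_
    refine lin_finite (Or.inl ?_)
    rw [hz.1]; exact one_ne_zero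
  obtain ⟨c, hc⟩ := (((hB1.union hB2).union hqfin).union (Set.finite_singleton (0 : ℂ))).exists_notMem
  simp only [Set.mem_union, not_or] at hc
  obtain ⟨⟨⟨hc1, hc2⟩, hc3⟩, hc4⟩ := hc
  simp only [Set.mem_iUnion, not_exists] at hc1 hc2
  have hc4' : c ≠ 0 := hc4
  refine ⟨Ac c * L₁, ?_, ?_, ?_⟩
  · rw [Matrix.det_mul, Ac_det, one_mul]; exact hL₁
  · intro i h0
    rw [LK_mul, LK_Ac] at h0
    exact hc1 i h0
  · have hfun : (fun i : {i // J i ≠ 0} => LK (Ac c * L₁) (y i)) =
        fun i => LK (Ac c) ((fun i : {i // J i ≠ 0} => LK L₁ (y i)) i) := by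
      funext i; rw [LK_mul]
    rw [hfun]
    refine ⟨shSys c S₁, ?_, ?_, x' 2, x' 3, ?_⟩
    · intro j
      rw [FL_mul]
      exact shModel_xF c (S₁.M j) hF₁.hom (hS₁ j)
    · intro z hz hz0 hzF j hon
      -- back to the old coordinates
      set z' : Fin 4 → K := LK (Ac (-c)) z with hz'
      have hzz' : LK (Ac c) z' = z := by
        rw [hz', ← LK_mul]
        have := Ac_mul (-c)
        rw [neg_neg] at this
        rw [this, LK_one]
      have hon' : (S₁.M j).On z' := by
        rw [← shModel_On c, hzz']; exact hon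
      have hF' : aeval z' (FL L₁ F) = 0 := by
        rw [FL_mul, aeval_FL, Ac_inv] at hzF
        exact hzF
      have hz'0 : z' ≠ 0 := by
        intro h0
        apply hz
        rw [← hzz', h0]
        funext i; simp [LK_apply]
      have hrel : z' 0 + algebraMap ℂ K c * z' 1 = 0 := by
        have h1 := congrFun hzz' 0
        rw [LK_Ac] at h1
        simpa [hz0] using h1
      obtain ⟨-, -, hb3⟩ := bad_finite hF₁.hom (S₁.M j) (hS₁ j)
      have h00 : z' 0 ≠ 0 := by
        intro h0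
        rw [h0, zero_add] at hrel
        have h1 : z' 1 = 0 := by
          rcases mul_eq_zero.1 hrel with h2 | h2
          · exact absurd ((map_eq_zero _).1 h2) hc4'
          · exact h2
        exact hz'0 (hb3 z' h0 h1 hon')
      -- normalise
      set v : Fin 4 → K := fun i => (z' 0)⁻¹ * z' i with hv
      have hv0 : v 0 = 1 := inv_mul_cancel₀ h00
      have hvF : aeval v (FL L₁ F) = 0 := by
        rw [hv, aeval_scale hF₁.hom, hF', mul_zero]
      have hvon : (S₁.M j).On v := by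
        have h1 : uK v = fun i => Polynomial.C (z' 0)⁻¹ * uK z' i := by
          funext i
          fin_cases i <;> simp [uK, hv, mul_add, mul_assoc]
        unfold CurveModel.On at hon' ⊢
        rw [h1, eval_scale (S₁.M j).G_hom, hon', mul_zero]
      refine hc2 j v ⟨hv0, hvF, hvon⟩ ?_
      change v 0 + algebraMap ℂ K c * v 1 = 0
      rw [hv]
      change (z' 0)⁻¹ * z' 0 + algebraMap ℂ K c * ((z' 0)⁻¹ * z' 1) = 0
      have : (z' 0)⁻¹ * z' 0 + algebraMap ℂ K c * ((z' 0)⁻¹ * z' 1) =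
        (z' 0)⁻¹ * (z' 0 + algebraMap ℂ K c * z' 1) := by ring
      rw [this, hrel, mul_zero]
    · intro h0
      apply hc3
      change q.eval (-c) = 0
      rw [hqe]
      rw [FL_mul, aeval_eq_eval] at h0
      have h1 := eval₂_FL_Ac (RingHom.id ℂ) ![0, 1, x' 2, x' 3] c (FL L₁ F)
      have h2 : (![(![0, 1, x' 2, x' 3] : Fin 4 → ℂ) 0 - (RingHom.id ℂ) c *
          (![0, 1, x' 2, x' 3] : Fin 4 → ℂ) 1, (![0, 1, x' 2, x' 3] : Fin 4 → ℂ) 1,
          (![0, 1, x' 2, x' 3] : Fin 4 → ℂ) 2, (![0, 1, x' 2, x' 3] : Fin 4 → ℂ) 3]) =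
          ![-c, 1, x' 2, x' 3] := by
        funext k; fin_cases k <;> simp
      rw [h2] at h1
      exact h1.symm.trans h0

end Pool.Agent.LowDeg
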