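import Pool.Agent.LowDeg.ModelPoint

/-! Module C3 (doc section 3.3 and 14): the model is determined by its equation, up to a
semilinear isomorphism. -/

set_option autoImplicit false

open Polynomial IntermediateField

namespace Pool.Agent.LowDeg.CurveModel

variable {K : Type} [Field K] [IsAlgClosed K] [CharZero K] {h : ℕ}

namespace TwistAux

omit [IsAlgClosed K] [CharZero K] in
/-- semilinear map from `K(a)` -/
theorem exists_hom_base (M M' : CurveModel K h) (σ : K ≃+* K) :
    ∃ ψ : K⟮M.a⟯ →+* M'.E, ∀ p : K[X], ψ (aeval (AdjoinSimple.gen K M.a) p) =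
      eval₂ ((algebraMap K M'.E).comp (σ : K →+* K)) M'.a p := by
  let f : K[X] →+* M'.E := eval₂RingHom ((algebraMap K M'.E).comp (σ : K →+* K)) M'.a
  have hf : Function.Injective f := by
    rw [injective_iff_map_eq_zero]
    intro p hp
    have h1 : aeval M'.a (p.map (σ : K →+* K)) = 0 := by
      rw [aeval_def, eval₂_map]; exact hp
    have h2 := (transcendental_iff.1 M'.trans) _ h1
    exact (Polynomial.map_eq_zero _).1 h2
  have hf' : nonZeroDivisors K[X] ≤ (nonZeroDivisors M'.E).comap f :=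
    nonZeroDivisors_le_comap_nonZeroDivisors_of_injective f hf
  refine ⟨(RatFunc.liftRingHom f hf').comp
    ((RatFunc.algEquivOfTranscendental M.a M.trans).symm : K⟮M.a⟯ →+* RatFunc K), fun p => ?_⟩
  have h1 : (RatFunc.algEquivOfTranscendental M.a M.trans).symm
      (aeval (AdjoinSimple.gen K M.a) p) = algebraMap K[X] (RatFunc K) p := by
    rw [AlgEquiv.symm_apply_eq]
    apply Subtype.ext
    rw [RatFunc.algEquivOfTranscendental_algebraMap]
  have h2 : (RatFunc.liftRingHom f hf') (algebraMap K[X] (RatFunc K) p) = f p := by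
    simp
  rw [RingHom.comp_apply]
  exact (congrArg (RatFunc.liftRingHom f hf') h1).trans h2

omit [IsAlgClosed K] [CharZero K] in
theorem gpol_twist (M M' : CurveModel K h) (σ : K ≃+* K)
    (hG : M'.G = MvPolynomial.map (mapRingHom (σ : K →+* K)) M.G) (l : K) :
    M'.gpol (σ l) = (M.gpol l).map (mapRingHom (σ : K →+* K)) := by
  unfold gpol
  rw [hG, MvPolynomial.eval₂_map, ← coe_mapRingHom (mapRingHom (σ : K →+* K)),
    MvPolynomial.hom_eval₂]
  congr 1
  · ext x
    · simp
    · simp
  · ext i : 1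
    fin_cases i <;> simp

/-- semilinear map of a model to a conjugate model, compatible with one good projection -/
theorem exists_hom (M M' : CurveModel K h) (σ : K ≃+* K)
    (hG : M'.G = MvPolynomial.map (mapRingHom (σ : K →+* K)) M.G) (l : K)
    (hl : K⟮M.a⟯⟮M.th l⟯ = ⊤) :
    ∃ e : M.E →+* M'.E, (∀ c : K, e (algebraMap K M.E c) = algebraMap K M'.E (σ c)) ∧
      e M.a = M'.a ∧ e (M.th l) = M'.th (σ l) := by
  obtain ⟨ψ, hψ⟩ := exists_hom_base M M' σ
  let alg : Algebra K⟮M.a⟯ M'.E := ψ.toAlgebra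
  have hal : ∀ x : K⟮M.a⟯, algebraMap K⟮M.a⟯ M'.E x = ψ x := fun x => rfl
  have hint : IsIntegral K⟮M.a⟯ (M.th l) := Algebra.IsIntegral.isIntegral _
  have hroot : aeval (M'.th (σ l)) (minpoly K⟮M.a⟯ (M.th l)) = 0 := by
    rw [M.minpoly_eq l hl, aeval_def, eval₂_map]
    have h1 : (algebraMap K⟮M.a⟯ M'.E).comp
        (aeval (AdjoinSimple.gen K M.a) : K[X] →ₐ[K] K⟮M.a⟯).toRingHom =
        eval₂RingHom ((algebraMap K M'.E).comp (σ : K →+* K)) M'.a := by
      ext x
      · simpa [hal] using hψ (C x)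
      · simpa [hal] using hψ X
    rw [h1]
    have h2 := M'.gpol_root (σ l)
    rw [gpol_twist M M' σ hG l, eval₂_map] at h2
    rw [← h2]
    congr 1
    ext x
    · simp
    · simp
  let φ : K⟮M.a⟯⟮M.th l⟯ →ₐ[K⟮M.a⟯] M'.E :=
    (algHomAdjoinIntegralEquiv K⟮M.a⟯ hint).symm ⟨M'.th (σ l), by
      rw [mem_aroots]
      exact ⟨minpoly.ne_zero hint, hroot⟩⟩
  have hφ : φ (AdjoinSimple.gen K⟮M.a⟯ (M.th l)) = M'.th (σ l) :=
    algHomAdjoinIntegralEquiv_symm_apply_gen K⟮M.a⟯ hint _
  let ι : M.E →ₐ[K⟮M.a⟯] K⟮M.a⟯⟮M.th l⟯ :=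
    ((IntermediateField.equivOfEq hl.symm).toAlgHom).comp
      (IntermediateField.topEquiv (F := K⟮M.a⟯) (E := M.E)).symm.toAlgHom
  have hι : ∀ x, ((ι x : K⟮M.a⟯⟮M.th l⟯) : M.E) = x := fun x => rfl
  have hbase : ∀ x : K⟮M.a⟯, (φ.comp ι) (algebraMap K⟮M.a⟯ M.E x) = ψ x := fun x =>
    (φ.comp ι).commutes x
  refine ⟨(φ.comp ι).toRingHom, fun c => ?_, ?_, ?_⟩
  · have h1 := hbase (algebraMap K K⟮M.a⟯ c)
    have h2 := hψ (C c)
    simp only [aeval_C, eval₂_C] at h2
    rw [h2] at h1
    exact h1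
  · have h1 := hbase (AdjoinSimple.gen K M.a)
    have h2 := hψ X
    simp only [aeval_X, eval₂_X] at h2
    rw [h2] at h1
    exact h1
  · have h1 : ι (M.th l) = AdjoinSimple.gen K⟮M.a⟯ (M.th l) := Subtype.ext (hι _)
    change φ (ι (M.th l)) = _
    rw [h1, hφ]

/-- the derivative of the equation of a birational projection does not vanish -/
theorem deriv_ne_zero (M : CurveModel K h) (l : K) (hl : K⟮M.a⟯⟮M.th l⟯ = ⊤) :
    (M.gpol l).derivative.eval₂ (aeval M.a : K[X] →ₐ[K] M.E).toRingHom (M.th l) ≠ 0 := by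
  have hsep : (minpoly K⟮M.a⟯ (M.th l)).Separable :=
    (minpoly.irreducible (Algebra.IsIntegral.isIntegral _)).separable
  have h1 := hsep.aeval_derivative_ne_zero (minpoly.aeval K⟮M.a⟯ (M.th l))
  rw [M.minpoly_eq l hl, derivative_map, aeval_def, eval₂_map] at h1
  intro h2
  apply h1
  rw [← h2]
  congr 1
  ext x
  · simp
  · simp

/-- uniqueness of the lift of the root -/
theorem lift_unique (M' : CurveModel K h) (l : K) (hl : K⟮M'.a⟯⟮M'.th l⟯ = ⊤) (b w : M'.E)
    (hrel : MvPolynomial.eval₂ (mapRingHom (algebraMap K M'.E)) ![1, C M'.a, C b + C w * X]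
      M'.G = 0) (hth : b + algebraMap K M'.E l * w = M'.th l) : b = M'.b ∧ w = M'.w := by
  set Q : M'.E[X][X] := MvPolynomial.eval₂ (C.comp (mapRingHom (algebraMap K M'.E)))
    ![1, C (C M'.a), X] M'.G with hQ
  have hev : ∀ P : M'.E[X], Q.eval P =
      MvPolynomial.eval₂ (mapRingHom (algebraMap K M'.E)) ![1, C M'.a, P] M'.G := by
    intro P
    rw [hQ, ← coe_evalRingHom, MvPolynomial.hom_eval₂]
    congr 1
    · ext x
      · simp
      · simp
    · ext i : 1
      fin_cases i <;> simp
  set P' : M'.E[X] := C M'.b + C M'.w * X with hP'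
  set y : M'.E[X] := (X - C (algebraMap K M'.E l)) * C (w - M'.w) with hy
  have hPy : C b + C w * X = P' + y := by
    have hb : b = M'.b - algebraMap K M'.E l * (w - M'.w) := by
      have : M'.th l = M'.b + algebraMap K M'.E l * M'.w := rfl
      rw [this] at hth
      linear_combination hth
    rw [hP', hy, hb]
    simp only [C_sub, C_mul]
    ring
  have h1 : Q.eval P' = 0 := by rw [hev]; exact M'.rel
  have h2 : Q.eval (P' + y) = 0 := by rw [← hPy, hev]; exact hrel
  obtain ⟨k, hk⟩ := Polynomial.binomExpansion Q P' y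
  have h3 : (Q.derivative.eval P' + k * y) * y = 0 := by
    rw [h2, h1] at hk
    linear_combination -hk
  have hw : w - M'.w = 0 := by
    by_contra hne
    have hy0 : y ≠ 0 := by
      rw [hy]
      exact mul_ne_zero (X_sub_C_ne_zero _) (C_ne_zero.2 hne)
    have h4 := (mul_eq_zero.1 h3).resolve_right hy0
    have h5 := congrArg (Polynomial.eval (algebraMap K M'.E l)) h4
    have h6 : (Q.derivative.eval P').eval (algebraMap K M'.E l) = 0 := by
      simpa [hy] using h5
    apply deriv_ne_zero M' l hl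
    rw [← h6]
    have h7 : Q.map (evalRingHom (algebraMap K M'.E l)) =
        (M'.gpol l).map (aeval M'.a : K[X] →ₐ[K] M'.E).toRingHom := by
      rw [hQ, gpol, ← coe_mapRingHom, ← coe_mapRingHom, MvPolynomial.hom_eval₂,
        MvPolynomial.hom_eval₂]
      congr 1
      · ext x
        · simp
        · simp
      · ext i : 1
        fin_cases i <;> simp
    rw [← eval_map, ← derivative_map, ← h7, derivative_map]
    have h8 : P'.eval (algebraMap K M'.E l) = M'.th l := by
      rw [hP', eval_add, eval_mul, eval_C, eval_C, eval_X, th, mul_comm]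
    rw [← h8]
    change ((derivative Q).map (evalRingHom ((algebraMap K M'.E) l))).eval
      (evalRingHom ((algebraMap K M'.E) l) P') = _
    rw [eval_map, eval₂_at_apply]
    rfl
  have hw' : w = M'.w := sub_eq_zero.1 hw
  refine ⟨?_, hw'⟩
  have : M'.th l = M'.b + algebraMap K M'.E l * M'.w := rfl
  rw [this, hw'] at hth
  exact add_right_cancel hth

end TwistAux

theorem exists_twist (M M' : CurveModel K h) (σ : K ≃+* K)
    (hG : M'.G = MvPolynomial.map (mapRingHom (σ : K →+* K)) M.G) :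
    ∃ e : M.E ≃+* M'.E, (∀ c : K, e (algebraMap K M.E c) = algebraMap K M'.E (σ c)) ∧
      e M.a = M'.a ∧ e M.b = M'.b ∧ e M.w = M'.w := by
  obtain ⟨l, hl, hl'⟩ : ∃ l : K, K⟮M.a⟯⟮M.th l⟯ = ⊤ ∧ K⟮M'.a⟯⟮M'.th (σ l)⟯ = ⊤ := by
    have h1 := M.finite_not_primitive
    have h2 := M'.finite_not_primitive.preimage (f := σ) σ.injective.injOn
    obtain ⟨l, hl⟩ := (h1.union h2).exists_notMem
    simp only [Set.mem_union, Set.mem_ofPred_eq, Set.mem_preimage, not_or, not_not] at hl
    exact ⟨l, hl⟩
  obtain ⟨e, he, hea, heth⟩ := TwistAux.exists_hom M M' σ hG l hl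
  have hrel : MvPolynomial.eval₂ (mapRingHom (algebraMap K M'.E))
      ![1, C M'.a, C (e M.b) + C (e M.w) * X] M'.G = 0 := by
    have h1 := congrArg (mapRingHom e) M.rel
    rw [map_zero, MvPolynomial.hom_eval₂] at h1
    rw [hG, MvPolynomial.eval₂_map, ← h1]
    congr 1
    · ext x
      · simp [he]
      · simp
    · ext i : 1
      fin_cases i <;> simp [hea]
  obtain ⟨hb, hw⟩ := TwistAux.lift_unique M' (σ l) hl' (e M.b) (e M.w) hrel (by
    rw [← heth, th, map_add, map_mul, he])
  have hsurj : Function.Surjective e := by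
    have h1 : IntermediateField.adjoin K {M'.a, M'.b, M'.w} ≤
        (e.fieldRange.toIntermediateField fun c => ⟨algebraMap K M.E (σ.symm c), by
          rw [he, RingEquiv.apply_symm_apply]⟩ : IntermediateField K M'.E) := by
      rw [IntermediateField.adjoin_le_iff]
      rintro x (rfl | rfl | rfl)
      · exact ⟨M.a, hea⟩
      · exact ⟨M.b, hb⟩
      · exact ⟨M.w, hw⟩
    rw [M'.gen] at h1
    intro x
    exact h1 (IntermediateField.mem_top (x := x))
  exact ⟨RingEquiv.ofBijective e ⟨e.injective, hsurj⟩, he, hea, hb, hw⟩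

/-- transport of a place -/
noncomputable def TwistAux.mapPlace {M M' : CurveModel K h} (e : M.E ≃+* M'.E) (σ : K ≃+* K)
    (he : ∀ c : K, e (algebraMap K M.E c) = algebraMap K M'.E (σ c)) (P : Place K M.E) :
    Place K M'.E where
  ord x := P.ord (e.symm x)
  ord_zero := by rw [map_zero, P.ord_zero]
  ord_mul x y hx hy := by
    rw [map_mul, P.ord_mul _ _ (by simpa using hx) (by simpa using hy)]
  ord_add x y hx hy hxy := by
    rw [map_add]
    exact P.ord_add _ _ (by simpa using hx) (by simpa using hy)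
      (by rw [← map_add]; exact fun h0 => hxy ((map_eq_zero_iff _ e.symm.injective).1 h0))
  ord_const c hc := by
    have : e.symm (algebraMap K M'.E c) = algebraMap K M.E (σ.symm c) := by
      rw [RingEquiv.symm_apply_eq, he, RingEquiv.apply_symm_apply]
    rw [this, P.ord_const _ (by simpa using hc)]
  exists_unif := by
    obtain ⟨τ, h1, h2⟩ := P.exists_unif
    exact ⟨e τ, by simpa using h1, by rw [RingEquiv.symm_apply_apply, h2]⟩
  exists_res x hx h0 := by
    obtain ⟨c, hc⟩ := P.exists_res (e.symm x) (by simpa using hx) h0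
    have hc' : e.symm (algebraMap K M'.E (σ c)) = algebraMap K M.E c := by
      rw [RingEquiv.symm_apply_eq, he]
    refine ⟨σ c, hc.imp (fun h1 => ?_) (fun h1 => ?_)⟩
    · rw [← he, ← h1, RingEquiv.apply_symm_apply]
    · rw [map_sub, hc']; exact h1

section Cycle

variable {M M' : CurveModel K h} (e : M.E ≃+* M'.E) (σ : K ≃+* K)
  (he : ∀ c : K, e (algebraMap K M.E c) = algebraMap K M'.E (σ c))

omit [IsAlgClosed K] [CharZero K] in
theorem TwistAux.mapPlace_sm (P : Place K M.E) (x : M'.E) :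
    (TwistAux.mapPlace e σ he P).Sm x ↔ P.Sm (e.symm x) := by
  unfold Place.Sm TwistAux.mapPlace
  simp

omit [IsAlgClosed K] [CharZero K] in
theorem TwistAux.mapPlace_int (P : Place K M.E) (x : M'.E) :
    (TwistAux.mapPlace e σ he P).Int x ↔ P.Int (e.symm x) := by
  unfold Place.Int TwistAux.mapPlace
  simp

omit [IsAlgClosed K] [CharZero K] in
theorem TwistAux.mapPlace_isVal (P : Place K M.E) (x : M.E) (c : K) (hx : P.IsVal x c) :
    (TwistAux.mapPlace e σ he P).IsVal (e x) (σ c) := by
  unfold Place.IsVal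
  rw [TwistAux.mapPlace_sm, ← he, ← map_sub, RingEquiv.symm_apply_apply]
  exact hx

end Cycle

/-- consequence for cycles: `F` is fixed by `σ` since `σ` is `ℂ`-linear -/
theorem cycle_twist [Algebra ℂ K] (M M' : CurveModel K h) (σ : K ≃ₐ[ℂ] K)
    (hG : M'.G = MvPolynomial.map (mapRingHom (σ : K →+* K)) M.G)
    (F : MvPolynomial (Fin 4) ℂ) (μ μ' : (Fin 4 → K) →₀ ℕ)
    (hμ : M.IsCycle (M.xF F) μ) (hμ' : M'.IsCycle (M'.xF F) μ')
    (z : Fin 4 → K) : μ' (fun i => σ (z i)) = μ z := by
  classical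
  obtain ⟨e, he, hea, heb, hew⟩ := exists_twist M M' (σ : K ≃+* K) hG
  have hpt : ∀ i, e (M.pt i) = M'.pt i := by
    intro i
    fin_cases i <;> simp [pt, hea, heb, hew]
  have hx : e (M.xF F) = M'.xF F := by
    unfold xF
    rw [MvPolynomial.aeval_def, MvPolynomial.aeval_def, MvPolynomial.eval₂_map,
      MvPolynomial.eval₂_map]
    have h1 := MvPolynomial.hom_eval₂ F ((algebraMap K M.E).comp (algebraMap ℂ K))
      (e : M.E →+* M'.E) M.pt
    have h2 : (e : M.E →+* M'.E) (MvPolynomial.eval₂ ((algebraMap K M.E).comp (algebraMap ℂ K))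
      M.pt F) = e (MvPolynomial.eval₂ ((algebraMap K M.E).comp (algebraMap ℂ K)) M.pt F) := rfl
    rw [h2] at h1
    rw [h1]
    congr 1
    · ext c
      simp only [RingHom.comp_apply, RingHom.coe_coe]
      rw [he]
      congr 1
      exact σ.commutes c
    · ext i
      exact hpt i
  obtain ⟨S, ctr, hS, hctr, hμ⟩ := hμ
  obtain ⟨S', ctr', hS', hctr', hμ'⟩ := hμ'
  have hea' : e.symm M'.a = M.a := by rw [RingEquiv.symm_apply_eq, hea]
  have hx' : e.symm (M'.xF F) = M.xF F := by rw [RingEquiv.symm_apply_eq, hx]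
  have hord : ∀ P : Place K M.E,
      (TwistAux.mapPlace e (σ : K ≃+* K) he P).ord (M'.xF F) = P.ord (M.xF F) := by
    intro P
    change P.ord (e.symm (M'.xF F)) = _
    rw [hx']
  have hmem : ∀ P ∈ S, TwistAux.mapPlace e (σ : K ≃+* K) he P ∈ S' := by
    intro P hP
    rw [hS'] 
    rw [hS] at hP
    rw [TwistAux.mapPlace_int, hea', hord]
    exact hP
  have hcen : ∀ P ∈ S, ctr' (TwistAux.mapPlace e (σ : K ≃+* K) he P) = fun i => σ (ctr P i) := by
    intro P hP
    funext i
    have h1 := hctr' _ (hmem P hP) i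
    have h2 := TwistAux.mapPlace_isVal e (σ : K ≃+* K) he P _ _ (hctr P hP i)
    rw [hpt] at h2
    exact h1.unique h2
  have hsum : (μ' (fun i => σ (z i)) : ℤ) = μ z := by
    rw [hμ, hμ']
    symm
    refine Finset.sum_bij (fun P _ => TwistAux.mapPlace e (σ : K ≃+* K) he P)
      (fun P hP => hmem P hP) ?_ ?_ ?_
    · intro P _ Q _ hPQ
      ext x
      have h1 := congrFun (congrArg Place.ord hPQ) (e x)
      change P.ord (e.symm (e x)) = Q.ord (e.symm (e x)) at h1
      rwa [RingEquiv.symm_apply_apply] at h1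
    · intro P' hP'
      have he' : ∀ c : K, e.symm (algebraMap K M'.E c) =
          algebraMap K M.E ((σ : K ≃+* K).symm c) := by
        intro c
        rw [RingEquiv.symm_apply_eq, he, RingEquiv.apply_symm_apply]
      have h0 : TwistAux.mapPlace e (σ : K ≃+* K) he
          (TwistAux.mapPlace e.symm (σ : K ≃+* K).symm he' P') = P' := by
        ext x
        change P'.ord (e.symm.symm (e.symm x)) = _
        rw [RingEquiv.symm_symm, RingEquiv.apply_symm_apply]
      refine ⟨TwistAux.mapPlace e.symm (σ : K ≃+* K).symm he' P', ?_, h0⟩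
      rw [hS]
      rw [hS'] at hP'
      rw [← h0] at hP'
      rw [TwistAux.mapPlace_int, hea', hord] at hP'
      exact hP'
    · intro P hP
      rw [hord, hcen P hP]
      have : ((fun i => σ (ctr P i)) = fun i => σ (z i)) ↔ ctr P = z := by
        constructor
        · intro h1
          funext i
          exact σ.injective (congrFun h1 i)
        · rintro rfl; rfl
      simp only [this]
  exact_mod_cast hsum

end Pool.Agent.LowDeg.CurveModel
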