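import Pool.Agent.LowDeg.Sys
import Pool.Agent.LowDeg.ModelTwist

/-! Module MK5 (doc section 14): Galois invariance. -/

set_option autoImplicit false

open MvPolynomial

namespace Pool.Agent.LowDeg

namespace InvariantAux

/-! ### conjugate derivations -/

noncomputable def conj {K : Type} [Field K] [Algebra ℂ K] (σ : K ≃ₐ[ℂ] K)
    (D : Derivation ℂ K K) : Derivation ℂ K K :=
  Derivation.mk' (σ.symm.toLinearMap ∘ₗ (D : K →ₗ[ℂ] K) ∘ₗ σ.toLinearMap) fun a b => by
    change σ.symm (D (σ (a * b))) = a • σ.symm (D (σ b)) + b • σ.symm (D (σ a))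
    rw [map_mul, Derivation.leibniz, map_add, smul_eq_mul, smul_eq_mul, map_mul, map_mul,
      AlgEquiv.symm_apply_apply, AlgEquiv.symm_apply_apply, smul_eq_mul, smul_eq_mul]

theorem conj_apply {K : Type} [Field K] [Algebra ℂ K] (σ : K ≃ₐ[ℂ] K)
    (D : Derivation ℂ K K) (x : K) : σ (conj σ D x) = D (σ x) := by
  change σ (σ.symm (D (σ x))) = _
  rw [AlgEquiv.apply_symm_apply]

theorem map_det4 {K : Type} [Field K] [Algebra ℂ K] (σ : K ≃ₐ[ℂ] K) (a b c d : Fin 4 → K) :
    σ (det4 a b c d) = det4 (fun i => σ (a i)) (fun i => σ (b i)) (fun i => σ (c i))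
      (fun i => σ (d i)) := by
  unfold det4
  have h1 : σ (Matrix.of ![a, b, c, d]).det = (σ : K →+* K) (Matrix.of ![a, b, c, d]).det := rfl
  rw [h1, RingHom.map_det]
  congr 1
  ext i j
  fin_cases i <;> rfl

/-! ### action on rational functions -/

open Polynomial in
noncomputable def sR {K : Type} [Field K] (σ : K ≃+* K) : RatFunc K ≃+* RatFunc K :=
  IsFractionRing.ringEquivOfRingEquiv (Polynomial.mapEquiv σ)

open Polynomial in
theorem sR_alg {K : Type} [Field K] (σ : K ≃+* K) (p : K[X]) :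
    sR σ (algebraMap K[X] (RatFunc K) p) = algebraMap K[X] (RatFunc K) (p.map (σ : K →+* K)) :=
  IsFractionRing.ringEquivOfRingEquiv_algebraMap _ _

theorem sR_uR {K : Type} [Field K] (σ : K ≃+* K) (z : Fin 4 → K) (i : Fin 3) :
    sR σ (uR z i) = uR (fun i => σ (z i)) i := by
  unfold uR
  rw [sR_alg]
  congr 1
  fin_cases i <;> simp [uK]

theorem map_eval' {R S ι : Type} [CommRing R] [CommRing S] (f : R →+* S) (g : ι → R)
    (p : MvPolynomial ι R) : f (eval g p) = eval (fun i => f (g i)) (map f p) := by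
  rw [eval_map, ← eval₂_id, eval₂_comp_left, RingHom.comp_id]
  rfl

theorem on_iff {K : Type} [Field K] {h : ℕ} (M : CurveModel K h) (z : Fin 4 → K) :
    M.On z ↔ eval (uR z) M.GR = 0 := by
  unfold CurveModel.On CurveModel.GR uR
  rw [← map_eval']
  constructor
  · intro h
    rw [h, map_zero]
  · intro h
    exact (IsFractionRing.injective (Polynomial K) (RatFunc K)) (by rw [h, map_zero])

/-- evaluation at the vertex commutes with change of the base ring -/
theorem eval_top {R S : Type} [CommRing R] [CommRing S] (f : R →+* S)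
    (p : MvPolynomial (Fin 3) R) :
    eval ![0, 0, 1] (map f p) = f (eval ![0, 0, 1] p) := by
  rw [map_eval']
  have h1 : (fun i => f ((![0, 0, 1] : Fin 3 → R) i)) = ![0, 0, 1] := by
    funext i
    fin_cases i
    · exact map_zero f
    · exact map_zero f
    · exact map_one f
  rw [h1]

theorem GR_top {K : Type} [Field K] {h : ℕ} (M : CurveModel K h) :
    eval ![0, 0, 1] M.GR = 1 := by
  rw [CurveModel.GR, eval_top, M.G_top, map_one]

theorem GR_hom {K : Type} [Field K] {h : ℕ} (M : CurveModel K h) : M.GR.IsHomogeneous h :=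
  M.G_hom.map _

/-- a form divisible by another one of the same degree, both normalised -/
theorem eq_of_dvd {k : Type} [Field k] {h : ℕ} {P Q : MvPolynomial (Fin 3) k}
    (hP : P.IsHomogeneous h) (hQ : Q.IsHomogeneous h) (hP1 : eval ![0, 0, 1] P = 1)
    (hQ1 : eval ![0, 0, 1] Q = 1) (hd : P ∣ Q) : P = Q := by
  obtain ⟨R, rfl⟩ := hd
  have hP0 : P ≠ 0 := by
    rintro rfl
    rw [map_zero] at hP1
    exact zero_ne_one hP1
  have hPR : P * R ≠ 0 := by
    intro h
    rw [h, map_zero] at hQ1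
    exact zero_ne_one hQ1
  have hR0 : R ≠ 0 := right_ne_zero_of_mul hPR
  have h1 := totalDegree_mul_of_isDomain hP0 hR0
  rw [hP.totalDegree hP0, hQ.totalDegree hPR] at h1
  have h2 : R.totalDegree = 0 := by omega
  rw [totalDegree_eq_zero_iff_eq_C] at h2
  rw [map_mul, hP1, one_mul, h2, eval_C] at hQ1
  rw [h2, hQ1, C_1, mul_one]

/-- associated normalised polynomials are equal -/
theorem eq_of_associated {k : Type} [Field k] {P Q : MvPolynomial (Fin 3) k}
    (hP1 : eval ![0, 0, 1] P = 1) (hQ1 : eval ![0, 0, 1] Q = 1) (hd : Associated P Q) :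
    P = Q := by
  obtain ⟨u, rfl⟩ := hd
  obtain ⟨r, -, hr⟩ := isUnit_iff_eq_C_of_isReduced.mp u.isUnit
  rw [map_mul, hP1, one_mul, hr, eval_C] at hQ1
  rw [hr, hQ1, C_1, mul_one]

/-- the equation determines the degree of the model -/
theorem h_eq {K : Type} [Field K] {h h' : ℕ} (M : CurveModel K h) (M' : CurveModel K h')
    (σ : K ≃+* K) (hG : map (sR σ : RatFunc K →+* RatFunc K) M.GR = M'.GR) : h = h' := by
  have h1 : (map (sR σ : RatFunc K →+* RatFunc K) M.GR).IsHomogeneous h := (GR_hom M).map _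
  rw [hG] at h1
  refine h1.inj_right (GR_hom M') fun h0 => ?_
  have h2 := GR_top M'
  rw [h0, map_zero] at h2
  exact zero_ne_one h2

theorem G_eq {K : Type} [Field K] {h h' : ℕ} (M : CurveModel K h) (M' : CurveModel K h')
    (σ : K ≃+* K) (hG : map (sR σ : RatFunc K →+* RatFunc K) M.GR = M'.GR) :
    M'.G = map (Polynomial.mapRingHom (σ : K →+* K)) M.G := by
  apply map_injective (algebraMap (Polynomial K) (RatFunc K))
    (IsFractionRing.injective (Polynomial K) (RatFunc K))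
  change M'.GR = _
  rw [← hG, CurveModel.GR, map_map, map_map]
  have h1 : (sR σ : RatFunc K →+* RatFunc K).comp (algebraMap (Polynomial K) (RatFunc K)) =
      (algebraMap (Polynomial K) (RatFunc K)).comp (Polynomial.mapRingHom (σ : K →+* K)) :=
    RingHom.ext fun p => sR_alg σ p
  rw [h1]

theorem cycle_twist' {K : Type} [Field K] [IsAlgClosed K] [CharZero K] [Algebra ℂ K] {h h' : ℕ}
    (M : CurveModel K h) (M' : CurveModel K h') (he : h = h') (σ : K ≃ₐ[ℂ] K)
    (hG : M'.G = map (Polynomial.mapRingHom (σ : K →+* K)) M.G)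
    (F : MvPolynomial (Fin 4) ℂ) (μ μ' : (Fin 4 → K) →₀ ℕ)
    (hμ : M.IsCycle (M.xF F) μ) (hμ' : M'.IsCycle (M'.xF F) μ')
    (z : Fin 4 → K) : μ' (fun i => σ (z i)) = μ z := by
  subst he
  exact CurveModel.cycle_twist M M' σ hG F μ μ' hμ hμ' z

theorem cycle_twist_GR {K : Type} [Field K] [IsAlgClosed K] [CharZero K] [Algebra ℂ K] {h h' : ℕ}
    (M : CurveModel K h) (M' : CurveModel K h') (σ : K ≃ₐ[ℂ] K)
    (hG : map (sR (σ : K ≃+* K) : RatFunc K →+* RatFunc K) M.GR = M'.GR)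
    (F : MvPolynomial (Fin 4) ℂ) (μ μ' : (Fin 4 → K) →₀ ℕ)
    (hμ : M.IsCycle (M.xF F) μ) (hμ' : M'.IsCycle (M'.xF F) μ')
    (z : Fin 4 → K) : μ' (fun i => σ (z i)) = μ z := by
  have h1 := h_eq M M' (σ : K ≃+* K) hG
  have h2 := G_eq M M' (σ : K ≃+* K) hG
  have h3 : (((σ : K ≃+* K) : K →+* K)) = (σ : K →+* K) := rfl
  rw [h3] at h2
  exact cycle_twist' M M' h1 σ h2 F μ μ' hμ hμ' z

end InvariantAux

open InvariantAux

variable {K : Type} [Field K] [IsAlgClosed K] [CharZero K] [Algebra ℂ K]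

/-- being dominating is invariant under automorphisms -/
theorem isRes_zero_conj {F : MvPolynomial (Fin 4) ℂ} {d : ℕ} (hF : IsSmoothForm F d)
    (δ₁ δ₂ : Derivation ℂ K K) (hδ : ∀ D : Derivation ℂ K K, ∃ α β : K, D = α • δ₁ + β • δ₂)
    (σ : K ≃ₐ[ℂ] K) (z : Fin 4 → K) (hz : z ≠ 0) (hz0 : aeval z F = 0)
    (h : IsRes F δ₁ δ₂ z 0) : IsRes F δ₁ δ₂ (fun i => σ (z i)) 0 := by
  obtain ⟨α, β, h1⟩ := hδ (conj σ δ₁)
  obtain ⟨γ, δ, h2⟩ := hδ (conj σ δ₂)
  have h3 := h.comb α β γ δ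
  rw [← h1, ← h2, mul_zero] at h3
  intro v
  rw [zero_mul]
  have h4 := h3 fun i => σ.symm (v i)
  rw [zero_mul] at h4
  have h5 := congrArg σ h4
  rw [map_zero, map_det4] at h5
  rw [← h5]
  congr 1
  · funext i
    exact (AlgEquiv.apply_symm_apply σ (v i)).symm
  · funext i
    exact (conj_apply σ δ₁ (z i)).symm
  · funext i
    exact (conj_apply σ δ₂ (z i)).symm

namespace InvariantAux

theorem isRes_zero_iff_eq {F : MvPolynomial (Fin 4) ℂ} {d : ℕ} (hF : IsSmoothForm F d)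
    (δ₁ δ₂ : Derivation ℂ K K) (z : Fin 4 → K) (hz : z ≠ 0) (hz0 : aeval z F = 0) {J : K}
    (h : IsRes F δ₁ δ₂ z J) : IsRes F δ₁ δ₂ z 0 ↔ J = 0 := by
  constructor
  · intro h0
    exact (exists_isRes hF δ₁ δ₂ z hz hz0).unique h h0
  · intro h0
    rwa [h0] at h

theorem J_perm {F : MvPolynomial (Fin 4) ℂ} {d n : ℕ}
    (hF : IsSmoothForm F d) (δ₁ δ₂ : Derivation ℂ K K)
    (hδ : ∀ D : Derivation ℂ K K, ∃ α β : K, D = α • δ₁ + β • δ₂) {ι : Type} [Fintype ι]
    (y : ι → Fin 4 → K) (J ν : ι → K) (hR : RelData F n δ₁ δ₂ y J ν)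
    (σ : K ≃ₐ[ℂ] K) (i j : ι) (hπ : ∀ k, y j k = σ (y i k)) (hi : J i = 0) : J j = 0 := by
  have h1 : IsRes F δ₁ δ₂ (y i) 0 :=
    (isRes_zero_iff_eq hF δ₁ δ₂ (y i) (hR.np.1 i) (hR.mem i) (hR.res i)).mpr hi
  have h2 := isRes_zero_conj hF δ₁ δ₂ hδ σ (y i) (hR.np.1 i) (hR.mem i) h1
  have h3 : (fun k => σ (y i k)) = y j := funext fun k => (hπ k).symm
  rw [h3] at h2
  exact (isRes_zero_iff_eq hF δ₁ δ₂ (y j) (hR.np.1 j) (hR.mem j) (hR.res j)).mp h2

/-- the automorphism permutes the curves of the system -/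
theorem exists_perm {F : MvPolynomial (Fin 4) ℂ} {d n : ℕ}
    (hF : IsSmoothForm F d) (δ₁ δ₂ : Derivation ℂ K K)
    (hδ : ∀ D : Derivation ℂ K K, ∃ α β : K, D = α • δ₁ + β • δ₂) {ι : Type} [Fintype ι]
    (y : ι → Fin 4 → K) (J ν : ι → K) (hR : RelData F n δ₁ δ₂ y J ν)
    (S : ModelSys n (fun i : {i // J i ≠ 0} => y i))
    (σ : K ≃ₐ[ℂ] K) (π : ι ≃ ι) (hπ : ∀ i k, y (π i) k = σ (y i k)) :
    ∃ τ : S.J ≃ S.J, ∀ j, map (sR (σ : K ≃+* K) : RatFunc K →+* RatFunc K) (S.M j).GR =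
      (S.M (τ j)).GR := by
  set f : RatFunc K →+* RatFunc K := (sR (σ : K ≃+* K) : RatFunc K →+* RatFunc K) with hf
  set P : MvPolynomial (Fin 3) (RatFunc K) := ∏ j, (S.M j).GR with hP
  have hPh : P.IsHomogeneous (∑ j, S.h j) :=
    IsHomogeneous.prod _ _ _ fun j _ => GR_hom (S.M j)
  have hPt : eval ![0, 0, 1] P = 1 := by
    rw [hP, map_prod]
    exact Finset.prod_eq_one fun j _ => GR_top (S.M j)
  have hfP : map f P = P := by
    refine (eq_of_dvd hPh (hPh.map f) hPt ?_ ?_).symm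
    · rw [eval_top, hPt, map_one]
    · refine S.uniq _ _ (hPh.map f) ?_ ?_
      · have := S.deg
        omega
      · intro i
        have h1 : J (π.symm i.1) ≠ 0 := by
          intro h0
          refine i.2 (J_perm hF δ₁ δ₂ hδ y J ν hR σ (π.symm i.1) i.1 (fun k => ?_) h0)
          have := hπ (π.symm i.1) k
          rwa [Equiv.apply_symm_apply] at this
        obtain ⟨j, hj⟩ := S.cover ⟨π.symm i.1, h1⟩
        rw [on_iff] at hj
        have h2 : eval (uR (y (π.symm i.1))) P = 0 := by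
          rw [hP, map_prod]
          exact Finset.prod_eq_zero (Finset.mem_univ j) hj
        have h3 := congrArg f h2
        rw [map_eval', map_zero] at h3
        have h4 : (fun k => f (uR (y (π.symm i.1)) k)) = uR (y i.1) := by
          funext k
          rw [hf]
          change sR (σ : K ≃+* K) (uR (y (π.symm i.1)) k) = _
          rw [sR_uR]
          congr 1
          funext l
          have := hπ (π.symm i.1) l
          rw [Equiv.apply_symm_apply] at this
          exact this.symm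
        rwa [h4] at h3
  have hirr : ∀ j, Irreducible (map f (S.M j).GR) := by
    intro j
    have h1 : map f (S.M j).GR = mapEquiv (Fin 3) (sR (σ : K ≃+* K)) (S.M j).GR := rfl
    rw [h1, MulEquiv.irreducible_iff]
    exact S.irr j
  have hex : ∀ j, ∃ l, map f (S.M j).GR = (S.M l).GR := by
    intro j
    have h1 : map f (S.M j).GR ∣ ∏ l, (S.M l).GR := by
      rw [← hP, ← hfP]
      exact map_dvd (map f) (Finset.dvd_prod_of_mem _ (Finset.mem_univ j))
    obtain ⟨l, -, hl⟩ := (hirr j).prime.exists_mem_finset_dvd h1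
    refine ⟨l, eq_of_associated ?_ (GR_top _) ((hirr j).associated_of_dvd (S.irr l) hl)⟩
    rw [eval_top, GR_top, map_one]
  choose τ hτ using hex
  have hinj : Function.Injective τ := by
    intro i j hij
    by_contra hne
    refine S.na i j hne ?_
    have h1 : map f (S.M i).GR = map f (S.M j).GR := by rw [hτ, hτ, hij]
    rw [map_injective f f.injective h1]
  exact ⟨Equiv.ofBijective τ (Finite.injective_iff_bijective.mp hinj), hτ⟩

end InvariantAux

open scoped Classical in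
theorem decomp_invariant {F : MvPolynomial (Fin 4) ℂ} {d n : ℕ} (hd : d = n + 4)
    (hF : IsSmoothForm F d) (δ₁ δ₂ : Derivation ℂ K K)
    (hδ : ∀ D : Derivation ℂ K K, ∃ α β : K, D = α • δ₁ + β • δ₂) {ι : Type} [Fintype ι]
    (y : ι → Fin 4 → K) (J ν : ι → K) (hR : RelData F n δ₁ δ₂ y J ν) (hy0 : ∀ i, y i 0 = 1)
    (S : ModelSys n (fun i : {i // J i ≠ 0} => y i))
    (μ : S.J → (Fin 4 → K) →₀ ℕ) (hμ : ∀ j, (S.M j).IsCycle ((S.M j).xF F) (μ j))
    (hμs : ∀ j z, μ j z ≠ 0 ↔ z 0 = 1 ∧ aeval z F = 0 ∧ (S.M j).On z)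
    (κ : S.J → ℤ) (hκ : ∀ z : Fin 4 → K, z 0 = 1 → aeval z F = 0 → ¬ IsRes F δ₁ δ₂ z 0 →
      ∑ j, (κ j : K) * (μ j z : K) = ∑ i, if y i = z then ν i else 0)
    (σ : K ≃ₐ[ℂ] K) (π : ι ≃ ι) (hπ : ∀ i k, y (π i) k = σ (y i k)) (hπν : ∀ i, ν (π i) = ν i)
    (z : Fin 4 → K) :
    ∑ j, κ j * (μ j (fun i => σ (z i)) : ℤ) = ∑ j, κ j * (μ j z : ℤ) := by
  obtain ⟨τ, hτ⟩ := exists_perm hF δ₁ δ₂ hδ y J ν hR S σ π hπ
  have hcyc : ∀ j z, μ (τ j) (fun i => σ (z i)) = μ j z := fun j z =>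
    cycle_twist_GR (S.M j) (S.M (τ j)) σ (hτ j) F (μ j) (μ (τ j)) (hμ j) (hμ (τ j)) z
  -- the value of the sum at a point of the family
  have hyi : ∀ i i', y i' = y i → i' = i := by
    intro i i' h
    by_contra hne
    refine hR.np.2 i' i hne 1 ?_
    rw [one_smul, h]
  have hval : ∀ i, J i ≠ 0 → ∑ j, (κ j : K) * (μ j (y i) : K) = ν i := by
    intro i hi
    rw [hκ (y i) (hy0 i) (hR.mem i) (fun h0 => hi
      ((isRes_zero_iff_eq hF δ₁ δ₂ (y i) (hR.np.1 i) (hR.mem i) (hR.res i)).mp h0))]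
    rw [Finset.sum_eq_single i]
    · rw [if_pos rfl]
    · intro i' _ hne
      rw [if_neg fun h => hne (hyi i i' h)]
    · intro h
      exact absurd (Finset.mem_univ i) h
  have hκτ : ∀ j, κ (τ j) = κ j := by
    intro j
    obtain ⟨i, hon, hoff⟩ := S.only j
    have hμj : μ j (y i.1) ≠ 0 := (hμs j _).mpr ⟨hy0 _, hR.mem _, hon⟩
    have hμl : ∀ l, l ≠ j → μ l (y i.1) = 0 := by
      intro l hl
      by_contra h0
      exact hoff l hl ((hμs l _).mp h0).2.2
    have hJ : J (π i.1) ≠ 0 := by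
      intro h0
      refine i.2 (J_perm hF δ₁ δ₂ hδ y J ν hR σ.symm (π i.1) i.1 (fun k => ?_) h0)
      rw [hπ, AlgEquiv.symm_apply_apply]
    have h1 := hval i.1 i.2
    have h2 := hval (π i.1) hJ
    have hyπ : y (π i.1) = fun k => σ (y i.1 k) := funext (hπ i.1)
    rw [Finset.sum_eq_single j (fun l _ hl => by rw [hμl l hl, Nat.cast_zero, mul_zero])
      (fun h => absurd (Finset.mem_univ j) h)] at h1
    rw [← Equiv.sum_comp τ, hyπ] at h2
    simp_rw [hcyc] at h2
    rw [Finset.sum_eq_single j (fun l _ hl => by rw [hμl l hl, Nat.cast_zero, mul_zero])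
      (fun h => absurd (Finset.mem_univ j) h), hπν, ← h1] at h2
    have h3 : ((μ j (y i.1) : ℕ) : K) ≠ 0 := Nat.cast_ne_zero.mpr hμj
    exact Int.cast_injective (mul_right_cancel₀ h3 h2)
  rw [← Equiv.sum_comp τ]
  refine Finset.sum_congr rfl fun j _ => ?_
  rw [hcyc, hκτ]

end Pool.Agent.LowDeg
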