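import Pool.Agent.LowDeg.Place

/-!
# Curve models: function fields of space curves, in good coordinates
-/

set_option autoImplicit false

open Polynomial IntermediateField

namespace Pool.Agent.LowDeg

/-- The projection `(z₀, z₁, z₂ + λ z₃)` of the point `z`, with coordinates in `K[λ]`. -/
noncomputable def uK {K : Type} [Field K] (z : Fin 4 → K) : Fin 3 → K[X] :=
  ![C (z 0), C (z 1), C (z 2) + C (z 3) * X]

/-- The same with coordinates in `K(λ)`. -/
noncomputable def uR {K : Type} [Field K] (z : Fin 4 → K) : Fin 3 → RatFunc K :=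
  fun i => algebraMap K[X] (RatFunc K) (uK z i)

/-- A curve model of degree `h`: the function field of a space curve with affine coordinates
`a, b, w`, and the equation of its projections. -/
structure CurveModel (K : Type) [Field K] (h : ℕ) where
  E : Type
  [fE : Field E]
  [aE : Algebra K E]
  a : E
  b : E
  w : E
  trans : Transcendental K a
  fin : FiniteDimensional K⟮a⟯ E
  rank : Module.finrank K⟮a⟯ E = h
  gen : IntermediateField.adjoin K {a, b, w} = ⊤
  G : MvPolynomial (Fin 3) K[X]
  G_hom : G.IsHomogeneous h
  G_top : MvPolynomial.eval ![0, 0, 1] G = 1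
  rel : MvPolynomial.eval₂ (mapRingHom (algebraMap K E)) ![1, C a, C b + C w * X] G = 0

attribute [instance] CurveModel.fE CurveModel.aE CurveModel.fin

namespace CurveModel

variable {K : Type} [Field K] {h : ℕ} (M : CurveModel K h)

/-- The generic point of the curve. -/
noncomputable def pt : Fin 4 → M.E := ![1, M.a, M.b, M.w]

/-- The point `z` (with coordinates in `K`) lies on the curve. -/
def On (z : Fin 4 → K) : Prop := MvPolynomial.eval (uK z) M.G = 0

/-- `z` is the centre of the place `P`, normalised by `z 0 = 1` (finite places). -/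
def IsCentre (P : Place K M.E) (z : Fin 4 → K) : Prop := ∀ i, P.IsVal (M.pt i) (z i)

/-- `z` is the centre of the place `P`, normalised by `z 1 = 1` (infinite places). -/
def IsCentreInf (P : Place K M.E) (z : Fin 4 → K) : Prop := ∀ i, P.IsVal (M.pt i / M.a) (z i)

open scoped Classical in
/-- `μ` is the cycle of zeros of the function `x`, pushed forward by the centre map. -/
def IsCycle (x : M.E) (μ : (Fin 4 → K) →₀ ℕ) : Prop :=
  ∃ (S : Finset (Place K M.E)) (ctr : Place K M.E → Fin 4 → K),
    (∀ P, P ∈ S ↔ P.Int M.a ∧ P.ord x ≠ 0) ∧ (∀ P ∈ S, M.IsCentre P (ctr P)) ∧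
    ∀ z, (μ z : ℤ) = ∑ P ∈ S, if ctr P = z then P.ord x else 0

/-- The projection `b + l w`. -/
noncomputable def th (l : K) : M.E := M.b + algebraMap K M.E l * M.w

/-- The equation `G(l; 1, a, T)` of the projection, in `K[a][T]`. -/
noncomputable def gpol (l : K) : K[X][X] :=
  MvPolynomial.eval₂ ((C.comp C).comp (evalRingHom l)) ![1, C X, X] M.G

/-- The equation `G(l; t, 1, T)` of the projection near infinity, in `K[t][T]`. -/
noncomputable def gpolInf (l : K) : K[X][X] :=
  MvPolynomial.eval₂ ((C.comp C).comp (evalRingHom l)) ![C X, 1, X] M.G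

/-- The restriction to the curve of a form over `ℂ`. -/
noncomputable def xF [Algebra ℂ K] (F : MvPolynomial (Fin 4) ℂ) : M.E :=
  MvPolynomial.aeval M.pt (MvPolynomial.map (algebraMap ℂ K) F)

end CurveModel

end Pool.Agent.LowDeg
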