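import Pool.Agent.LowDeg.PlaneCount
import Pool.Agent.LowDeg.Model

/-! Module H1 (doc section 10.1): the polynomial `Q` is divisible by `G`. -/

set_option autoImplicit false

open MvPolynomial

namespace Pool.Agent.LowDeg

/-- apply a derivation to the coefficients -/
noncomputable def dcoef {k : Type} [Field k] (D : k → k) (G : MvPolynomial (Fin 3) k) :
    MvPolynomial (Fin 3) k :=
  ∑ m ∈ G.support, monomial m (D (coeff m G))

/-- the numerator of the second derivative of the root `T` of `G(1, a, T)` with respect to the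
parameter -/
noncomputable def Qform {k : Type} [Field k] (D : k → k) (G : MvPolynomial (Fin 3) k) :
    MvPolynomial (Fin 3) k :=
  dcoef D (dcoef D G) * (pderiv 2 G) ^ 2 - 2 * pderiv 2 (dcoef D G) * dcoef D G * pderiv 2 G +
    pderiv 2 (pderiv 2 G) * (dcoef D G) ^ 2

/-- the derivation `d/dλ` of `K(λ)` -/
theorem exists_ddlam (K : Type) [Field K] [CharZero K] :
    ∃ D : Derivation K (RatFunc K) (RatFunc K), D RatFunc.X = 1 := by
  have : Algebra.FormallyEtale (Polynomial K) (RatFunc K) :=
    Algebra.FormallyEtale.of_isLocalization (nonZeroDivisors (Polynomial K))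
  let d : Derivation K (Polynomial K) (RatFunc K) := Polynomial.mkDerivation K (1 : RatFunc K)
  let e := KaehlerDifferential.tensorKaehlerEquivOfFormallyEtale K (Polynomial K) (RatFunc K)
  let l : TensorProduct (Polynomial K) (RatFunc K) (KaehlerDifferential K (Polynomial K)) →ₗ[RatFunc K]
      RatFunc K := LinearMap.liftBaseChange (RatFunc K) d.liftKaehlerDifferential
  refine ⟨(l.comp e.symm.toLinearMap).compDer (KaehlerDifferential.D K (RatFunc K)), ?_⟩
  have h1 : (RatFunc.X : RatFunc K) = algebraMap (Polynomial K) (RatFunc K) Polynomial.X := by simp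
  have h2 : e.symm (KaehlerDifferential.D K (RatFunc K)
      (algebraMap (Polynomial K) (RatFunc K) Polynomial.X)) =
      (1 : RatFunc K) ⊗ₜ[Polynomial K] (KaehlerDifferential.D K (Polynomial K) Polynomial.X) :=
    KaehlerDifferential.tensorKaehlerEquivOfFormallyEtale_symm_D_algebraMap K (Polynomial K)
      (RatFunc K) Polynomial.X
  show l (e.symm (KaehlerDifferential.D K (RatFunc K) RatFunc.X)) = 1
  rw [h1, h2]
  simp [l, d]

namespace LemADvdAux

variable {k : Type} [Field k]

theorem coeff_dcoef (D : k → k) (hD : D 0 = 0) (G : MvPolynomial (Fin 3) k) (m : Fin 3 →₀ ℕ) :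
    coeff m (dcoef D G) = D (coeff m G) := by
  unfold dcoef
  rw [coeff_sum]
  simp only [coeff_monomial]
  rw [Finset.sum_ite_eq']
  split_ifs with h
  · rfl
  · rw [notMem_support_iff.mp h, hD]

theorem dcoef_hom (D : k → k) {G : MvPolynomial (Fin 3) k} {h : ℕ}
    (hG : G.IsHomogeneous h) : (dcoef D G).IsHomogeneous h := by
  unfold dcoef
  apply IsHomogeneous.sum
  intro m hm
  apply isHomogeneous_monomial
  have := hG (mem_support_iff.mp hm)
  rw [← this, Finsupp.degree_eq_weight_one]
  rfl

/-- additive and Leibniz -/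
structure IsDer (D : k → k) : Prop where
  add : ∀ x y, D (x + y) = D x + D y
  mul : ∀ x y, D (x * y) = x * D y + y * D x

theorem IsDer.zero {D : k → k} (h : IsDer D) : D 0 = 0 := by
  have := h.add 0 0
  simpa using this

theorem IsDer.one {D : k → k} (h : IsDer D) : D 1 = 0 := by
  have := h.mul 1 1
  simpa using this

theorem IsDer.natCast {D : k → k} (h : IsDer D) (n : ℕ) : D (n : k) = 0 := by
  induction n with
  | zero => simpa using h.zero
  | succ n ih => rw [Nat.cast_succ, h.add, ih, h.one, add_zero]

theorem pderiv_dcoef {D : k → k} (h : IsDer D) (i : Fin 3) (G : MvPolynomial (Fin 3) k) :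
    pderiv i (dcoef D G) = dcoef D (pderiv i G) := by
  ext m
  rw [coeff_dcoef _ h.zero, coeff_pderiv, coeff_pderiv, coeff_dcoef _ h.zero, h.mul]
  have : D ((m i : k) + 1) = 0 := by
    have := h.natCast (m i + 1)
    push_cast at this
    exact this
  rw [this]
  ring

theorem dcoef_C {D : k → k} (h : IsDer D) (a : k) : dcoef D (C a) = C (D a) := by
  ext m
  rw [coeff_dcoef _ h.zero, coeff_C, coeff_C]
  split_ifs with h'
  · rfl
  · exact h.zero

theorem dcoef_add {D : k → k} (h : IsDer D) (p q : MvPolynomial (Fin 3) k) :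
    dcoef D (p + q) = dcoef D p + dcoef D q := by
  ext m
  rw [coeff_add, coeff_dcoef _ h.zero, coeff_dcoef _ h.zero,
    coeff_dcoef _ h.zero, coeff_add, h.add]

theorem dcoef_mul_X {D : k → k} (h : IsDer D) (p : MvPolynomial (Fin 3) k) (i : Fin 3) :
    dcoef D (p * X i) = dcoef D p * X i := by
  classical
  ext m
  rw [coeff_dcoef _ h.zero, coeff_mul_X', coeff_mul_X']
  split_ifs with h'
  · rw [coeff_dcoef _ h.zero]
  · exact h.zero

/-- chain rule -/
theorem chain {D : k → k} (h : IsDer D) (u : Fin 3 → k) (G : MvPolynomial (Fin 3) k) :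
    D (eval u G) = eval u (dcoef D G) + ∑ j, eval u (pderiv j G) * D (u j) := by
  induction G using MvPolynomial.induction_on with
  | C a => simp [dcoef_C h]
  | add p q hp hq =>
    rw [map_add, h.add, hp, hq, dcoef_add h, map_add]
    simp only [map_add, add_mul, Finset.sum_add_distrib]
    ring
  | mul_X p i hp =>
    rw [map_mul, eval_X, h.mul, hp, dcoef_mul_X h, map_mul, eval_X]
    have hj : ∀ j, eval u (pderiv j (p * X i)) * D (u j) =
        u i * (eval u (pderiv j p) * D (u j)) + eval u p * (if j = i then D (u j) else 0) := by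
      intro j
      rw [Derivation.leibniz, pderiv_X]
      by_cases hj : j = i
      · subst hj
        simp only [Pi.single_eq_same, smul_eq_mul, map_add, map_mul, eval_X, if_true, map_one]
        ring
      · rw [Pi.single_eq_of_ne (Ne.symm hj)]
        simp only [smul_eq_mul, map_add, map_mul, eval_X, if_neg hj, map_zero]
        ring
    rw [Finset.sum_congr rfl fun j _ => hj j, Finset.sum_add_distrib, ← Finset.mul_sum,
      ← Finset.mul_sum, Finset.sum_ite_eq' Finset.univ i]
    simp only [Finset.mem_univ, if_true]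
    ring

theorem Qform_hom (D : k → k) {G : MvPolynomial (Fin 3) k} {h : ℕ} (hh : 1 ≤ h)
    (hG : G.IsHomogeneous h) : (Qform D G).IsHomogeneous (3 * h - 2) := by
  have hd := dcoef_hom D hG
  have hdd := dcoef_hom D hd
  have h2 : (pderiv 2 G).IsHomogeneous (h - 1) := hG.pderiv
  have hd2 : (pderiv 2 (dcoef D G)).IsHomogeneous (h - 1) := hd.pderiv
  have h22 : (pderiv 2 (pderiv 2 G)).IsHomogeneous (h - 1 - 1) := h2.pderiv
  unfold Qform
  apply IsHomogeneous.add
  · apply IsHomogeneous.sub
    · have := hdd.mul (h2.pow 2)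
      have he : h + (h - 1) * 2 = 3 * h - 2 := by omega
      rwa [he] at this
    · have h2' : (2 : MvPolynomial (Fin 3) k).IsHomogeneous 0 := by
        have := isHomogeneous_C (Fin 3) (2 : k)
        rwa [map_ofNat] at this
      have := ((h2'.mul hd2).mul hd).mul h2
      have he : 0 + (h - 1) + h + (h - 1) = 3 * h - 2 := by omega
      rwa [he] at this
  · rcases Nat.lt_or_ge h 2 with hlt | hge
    · have h1 : h = 1 := by omega
      subst h1
      have hzero : pderiv 2 (pderiv 2 G) = 0 := by
        have h0 : (pderiv 2 G).IsHomogeneous 0 := h2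
        rw [← totalDegree_zero_iff_isHomogeneous] at h0
        rw [totalDegree_eq_zero_iff_eq_C] at h0
        rw [h0]
        simp
      rw [hzero, zero_mul]
      exact isHomogeneous_zero _ _ _
    · have := h22.mul (hd.pow 2)
      have he : (h - 1 - 1) + h * 2 = 3 * h - 2 := by omega
      rwa [he] at this

end LemADvdAux

open LemADvdAux

theorem dvd_Qform {K : Type} [Field K] [CharZero K]
    (D : Derivation K (RatFunc K) (RatFunc K)) (hD : D RatFunc.X = 1)
    {ι : Type} [Fintype ι] [Nonempty ι] (t : ι → Fin 4 → K)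
    (hu : PairNP fun i => uR (t i)) {m h : ℕ} (hNR : NR (fun i => uR (t i)) m)
    (G : MvPolynomial (Fin 3) (RatFunc K)) (hG : G.IsHomogeneous h) (hirr : Irreducible G)
    (hG0 : ∀ i, eval (uR (t i)) G = 0) (hm : 4 * h < m + 5) : G ∣ Qform D G := by
  have hinf : Infinite (RatFunc K) :=
    Infinite.of_injective (algebraMap K (RatFunc K)) (algebraMap K (RatFunc K)).injective
  have hder : IsDer (⇑D) := ⟨fun x y => D.map_add x y, fun x y => by
    rw [D.leibniz]; simp only [smul_eq_mul]⟩
  have hh : 1 ≤ h := by
    by_contra hcon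
    have h0 : h = 0 := by omega
    subst h0
    rw [← totalDegree_zero_iff_isHomogeneous, totalDegree_eq_zero_iff_eq_C] at hG
    rw [hG] at hirr
    by_cases hc : coeff 0 G = 0
    · rw [hc, map_zero] at hirr
      exact hirr.ne_zero rfl
    · exact hirr.not_isUnit ((isUnit_iff_ne_zero.mpr hc).map C)
  have hQ0 : ∀ i, eval (uR (t i)) (Qform D G) = 0 := by
    intro i
    set u := uR (t i) with hu'
    set c3 : RatFunc K := algebraMap K (RatFunc K) (t i 3) with hc3
    have hconst : ∀ z : K, D (algebraMap K (RatFunc K) z) = 0 := fun z => D.map_algebraMap z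
    have hu0 : D (u 0) = 0 := by
      have : u 0 = algebraMap K (RatFunc K) (t i 0) := by
        simp [hu', uR, uK, RatFunc.algebraMap_C, RatFunc.algebraMap_eq_C]
      rw [this, hconst]
    have hu1 : D (u 1) = 0 := by
      have : u 1 = algebraMap K (RatFunc K) (t i 1) := by
        simp [hu', uR, uK, RatFunc.algebraMap_C, RatFunc.algebraMap_eq_C]
      rw [this, hconst]
    have hu2 : D (u 2) = c3 := by
      have : u 2 = algebraMap K (RatFunc K) (t i 2) + algebraMap K (RatFunc K) (t i 3) * RatFunc.X := by
        simp [hu', uR, uK, RatFunc.algebraMap_C, RatFunc.algebraMap_eq_C]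
      rw [this, hder.add, hder.mul, hconst, hconst, hD, hc3]
      ring
    have hch : ∀ P : MvPolynomial (Fin 3) (RatFunc K),
        D (eval u P) = eval u (dcoef D P) + eval u (pderiv 2 P) * c3 := by
      intro P
      have := chain hder u P
      rw [Fin.sum_univ_three, hu0, hu1, hu2] at this
      rw [this]
      ring
    have e1 := hch G
    rw [hG0 i, hder.zero] at e1
    have e2 := hch (dcoef D G)
    have e3 := hch (pderiv 2 G)
    have hcomm : dcoef D (pderiv 2 G) = pderiv 2 (dcoef D G) := (pderiv_dcoef hder 2 G).symm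
    rw [hcomm] at e3
    have e4 : D (eval u (dcoef D G)) + D (eval u (pderiv 2 G)) * c3 = 0 := by
      have h5 := congrArg D e1
      rw [hder.zero, hder.add, hder.mul, hc3, hconst, ← hc3] at h5
      linear_combination -h5
    rw [e2, e3] at e4
    unfold Qform
    simp only [map_add, map_sub, map_mul, map_pow]
    have h2e : eval u (2 : MvPolynomial (Fin 3) (RatFunc K)) = 2 := by simp
    rw [h2e]
    have e5 : eval u (dcoef D G) = - (eval u (pderiv 2 G) * c3) := by linear_combination -e1
    rw [e5]
    linear_combination (eval u (pderiv 2 G)) ^ 2 * e4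
  by_contra hnd
  have hrel : IsRelPrime G (Qform D G) := (hirr.isRelPrime_iff_not_dvd).mpr hnd
  have := plane_p1 (fun i => uR (t i)) hu hNR G (Qform D G) hG (Qform_hom D hh hG) hrel hG0 hQ0
  omega

end Pool.Agent.LowDeg
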