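import Mathlib

/-! Module H2a (doc section 10.2): constants of extensions of `F(λ)`. -/

set_option autoImplicit false

open IntermediateField

namespace Pool.Agent.LowDeg

variable {F L : Type} [Field F] [CharZero F] [Field L] [Algebra (RatFunc F) L] [Algebra F L]
  [IsScalarTower F (RatFunc F) L] [FiniteDimensional (RatFunc F) L]

namespace RatConstAux

/-- the embedding of polynomials in `L` -/
noncomputable def pol (F L : Type) [Field F] [Field L] [Algebra (RatFunc F) L] :
    Polynomial F →+* L :=
  (algebraMap (RatFunc F) L).comp (algebraMap (Polynomial F) (RatFunc F))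

omit [CharZero F] [FiniteDimensional (RatFunc F) L] in
lemma pol_eq_aeval (p : Polynomial F) :
    pol F L p = Polynomial.aeval (algebraMap (RatFunc F) L RatFunc.X) p := by
  unfold pol
  rw [RingHom.comp_apply]
  induction p using Polynomial.induction_on' with
  | add p q hp hq => simp only [map_add, hp, hq]
  | monomial n a =>
    rw [Polynomial.aeval_monomial, ← Polynomial.C_mul_X_pow_eq_monomial]
    simp only [map_mul, map_pow]
    rw [RatFunc.algebraMap_X, RatFunc.algebraMap_C, IsScalarTower.algebraMap_apply F (RatFunc F) L,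
      RatFunc.algebraMap_eq_C]

omit [CharZero F] [FiniteDimensional (RatFunc F) L] in
lemma D_pol (D : Derivation F L L) (hD : D (algebraMap (RatFunc F) L RatFunc.X) = 1)
    (p : Polynomial F) : D (pol F L p) = pol F L (Polynomial.derivative p) := by
  rw [pol_eq_aeval, pol_eq_aeval, Derivation.map_aeval, hD, smul_eq_mul, mul_one]

omit [CharZero F] [FiniteDimensional (RatFunc F) L] in
lemma D_rat (D : Derivation F L L) (hD : D (algebraMap (RatFunc F) L RatFunc.X) = 1)
    (r : RatFunc F) :
    algebraMap (RatFunc F) L r * pol F L (Polynomial.derivative r.denom)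
      + pol F L r.denom * D (algebraMap (RatFunc F) L r)
      = pol F L (Polynomial.derivative r.num) := by
  have h1 : algebraMap (RatFunc F) L r * pol F L r.denom = pol F L r.num := by
    unfold pol
    rw [RingHom.comp_apply, RingHom.comp_apply, ← map_mul]
    congr 1
    have h2 := RatFunc.num_div_denom r
    have h3 : algebraMap (Polynomial F) (RatFunc F) r.denom ≠ 0 :=
      RatFunc.algebraMap_ne_zero r.denom_ne_zero
    field_simp at h2
    rw [h2, mul_comm]
  have h4 := congrArg D h1
  rw [Derivation.leibniz, D_pol D hD, D_pol D hD, smul_eq_mul, smul_eq_mul] at h4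
  exact h4

omit [CharZero F] [FiniteDimensional (RatFunc F) L] in
lemma D_rat_mem (D : Derivation F L L) (hD : D (algebraMap (RatFunc F) L RatFunc.X) = 1)
    (r : RatFunc F) :
    ∃ s : RatFunc F, D (algebraMap (RatFunc F) L r) = algebraMap (RatFunc F) L s := by
  have h1 := D_rat D hD r
  have h3 : algebraMap (Polynomial F) (RatFunc F) r.denom ≠ 0 :=
    RatFunc.algebraMap_ne_zero r.denom_ne_zero
  refine ⟨(algebraMap (Polynomial F) (RatFunc F) (Polynomial.derivative r.num)
    - r * algebraMap (Polynomial F) (RatFunc F) (Polynomial.derivative r.denom)) /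
      algebraMap (Polynomial F) (RatFunc F) r.denom, ?_⟩
  rw [map_div₀, map_sub, map_mul]
  have h4 : algebraMap (RatFunc F) L (algebraMap (Polynomial F) (RatFunc F) r.denom) ≠ 0 := by
    rw [Ne, map_eq_zero]
    exact h3
  rw [eq_div_iff h4]
  unfold pol at h1
  simp only [RingHom.comp_apply] at h1
  linear_combination h1

omit [FiniteDimensional (RatFunc F) L] in
lemma const_of_D_rat (D : Derivation F L L)
    (hD : D (algebraMap (RatFunc F) L RatFunc.X) = 1)
    (r : RatFunc F) (hr : D (algebraMap (RatFunc F) L r) = 0) :
    ∃ c : F, algebraMap F (RatFunc F) c = r := by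
  have h1 := D_rat D hD r
  rw [hr, mul_zero, add_zero] at h1
  unfold pol at h1
  rw [RingHom.comp_apply, RingHom.comp_apply, ← map_mul] at h1
  have h2 := (algebraMap (RatFunc F) L).injective h1
  have h3 : algebraMap (Polynomial F) (RatFunc F) r.denom ≠ 0 :=
    RatFunc.algebraMap_ne_zero r.denom_ne_zero
  have h4 : r.num * Polynomial.derivative r.denom = Polynomial.derivative r.num * r.denom := by
    apply RatFunc.algebraMap_injective F
    rw [map_mul, map_mul, ← h2]
    have h5 := RatFunc.num_div_denom r
    have h6 : algebraMap (Polynomial F) (RatFunc F) r.num =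
        r * algebraMap (Polynomial F) (RatFunc F) r.denom := by
      field_simp at h5
      rw [h5, mul_comm]
    rw [h6]
    ring
  have h5 : IsCoprime r.denom r.num := (RatFunc.isCoprime_num_denom r).symm
  have h6 : r.denom ∣ Polynomial.derivative r.denom := by
    apply h5.dvd_of_dvd_mul_left
    rw [h4]
    exact Dvd.intro_left _ rfl
  have h7 : Polynomial.derivative r.denom = 0 := by
    by_contra h8
    have h9 := Polynomial.degree_le_of_dvd h6 h8
    have h10 := Polynomial.degree_derivative_lt r.denom_ne_zero
    exact absurd (lt_of_le_of_lt h9 h10) (lt_irrefl _)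
  have h8 : r.denom.natDegree = 0 := Polynomial.derivative_eq_zero.mp h7
  have h9 : r.denom = 1 := (RatFunc.monic_denom r).natDegree_eq_zero.mp h8
  have h10 : Polynomial.derivative r.num = 0 := by
    rw [h7, mul_zero, h9, mul_one] at h4
    exact h4.symm
  have h11 : r.num.natDegree = 0 := Polynomial.derivative_eq_zero.mp h10
  obtain ⟨c, hc⟩ := Polynomial.natDegree_eq_zero.mp h11
  refine ⟨c, ?_⟩
  have h12 := RatFunc.num_div_denom r
  rw [h9, map_one, div_one, ← hc, RatFunc.algebraMap_C] at h12
  rw [RatFunc.algebraMap_eq_C]
  exact h12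

/-- the minimal polynomial of a constant has constant coefficients -/
lemma minpoly_const (D : Derivation F L L)
    (hD : D (algebraMap (RatFunc F) L RatFunc.X) = 1) (x : L) (hx : D x = 0) (i : ℕ) :
    ∃ c : F, algebraMap F (RatFunc F) c = (minpoly (RatFunc F) x).coeff i := by
  apply const_of_D_rat D hD
  have hint : IsIntegral (RatFunc F) x := IsIntegral.of_finite _ _
  set p := minpoly (RatFunc F) x with hp
  have hpm : p.Monic := minpoly.monic hint
  choose δ hδ using D_rat_mem D hD
  have hδ1 : δ 1 = 0 := by
    have h1 := hδ 1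
    rw [map_one, Derivation.map_one_eq_zero] at h1
    have h2 : algebraMap (RatFunc F) L (δ 1) = 0 := h1.symm
    rwa [map_eq_zero] at h2
  set q : Polynomial (RatFunc F) := ∑ j ∈ Finset.range p.natDegree,
    Polynomial.monomial j (δ (p.coeff j)) with hq
  have hqdeg : q.degree < p.degree := by
    rw [Polynomial.degree_eq_natDegree hpm.ne_zero]
    apply lt_of_le_of_lt (Polynomial.degree_sum_le _ _)
    rw [Finset.sup_lt_iff (WithBot.bot_lt_coe _)]
    intro j hj
    apply lt_of_le_of_lt (Polynomial.degree_monomial_le _ _)
    exact_mod_cast Finset.mem_range.mp hj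
  have hDpow : ∀ j : ℕ, D (x ^ j) = 0 := by
    intro j
    rw [Derivation.leibniz_pow, hx, smul_zero, smul_zero]
  have hq0 : Polynomial.aeval x q = 0 := by
    have h1 : Polynomial.aeval x p = 0 := minpoly.aeval _ _
    rw [Polynomial.aeval_eq_sum_range, Finset.sum_range_succ, hpm.coeff_natDegree, one_smul] at h1
    have h2 := congrArg D h1
    rw [map_add, map_sum, hDpow, add_zero, map_zero] at h2
    rw [hq, map_sum]
    rw [← h2]
    apply Finset.sum_congr rfl
    intro j _
    rw [Polynomial.aeval_monomial, Algebra.smul_def, Derivation.leibniz, hDpow, smul_zero, zero_add,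
      hδ, smul_eq_mul, mul_comm]
  have hqz : q = 0 := by
    by_contra h
    have h1 := minpoly.degree_le_of_ne_zero (RatFunc F) x h hq0
    rw [← hp] at h1
    exact absurd (lt_of_le_of_lt h1 hqdeg) (lt_irrefl _)
  rw [hδ, map_eq_zero]
  rcases lt_trichotomy i p.natDegree with hi | hi | hi
  · have h1 : q.coeff i = 0 := by rw [hqz, Polynomial.coeff_zero]
    rw [hq, Polynomial.finsetSum_coeff] at h1
    simp only [Polynomial.coeff_monomial] at h1
    rw [Finset.sum_ite_eq' (Finset.range p.natDegree) i (fun j => δ (p.coeff j))] at h1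
    rw [if_pos (Finset.mem_range.mpr hi)] at h1
    exact h1
  · rw [hi, hpm.coeff_natDegree, hδ1]
  · rw [Polynomial.coeff_eq_zero_of_natDegree_lt hi]
    have h1 := hδ 0
    rw [map_zero, map_zero] at h1
    have h2 : algebraMap (RatFunc F) L (δ 0) = 0 := h1.symm
    rwa [map_eq_zero] at h2

lemma exists_lift (D : Derivation F L L)
    (hD : D (algebraMap (RatFunc F) L RatFunc.X) = 1) (x : L) (hx : D x = 0) :
    ∃ p : Polynomial F, p.Monic ∧ p.map (algebraMap F (RatFunc F)) = minpoly (RatFunc F) x ∧
      p.natDegree = (minpoly (RatFunc F) x).natDegree := by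
  have hint : IsIntegral (RatFunc F) x := IsIntegral.of_finite _ _
  have h1 : minpoly (RatFunc F) x ∈ Polynomial.lifts (algebraMap F (RatFunc F)) := by
    rw [Polynomial.lifts_iff_coeff_lifts]
    intro i
    obtain ⟨c, hc⟩ := minpoly_const D hD x hx i
    exact ⟨c, hc⟩
  obtain ⟨p, h2, h3, h4⟩ := Polynomial.lifts_and_natDegree_eq_and_monic h1 (minpoly.monic hint)
  exact ⟨p, h4, h2, h3⟩

lemma isIntegral_const (D : Derivation F L L)
    (hD : D (algebraMap (RatFunc F) L RatFunc.X) = 1) (x : L) (hx : D x = 0) :
    IsIntegral F x := by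
  obtain ⟨p, h1, h2, _⟩ := exists_lift D hD x hx
  refine ⟨p, h1, ?_⟩
  have h3 := minpoly.aeval (RatFunc F) x
  rw [← h2, Polynomial.aeval_map_algebraMap] at h3
  exact h3

lemma natDegree_const (D : Derivation F L L)
    (hD : D (algebraMap (RatFunc F) L RatFunc.X) = 1) (x : L) (hx : D x = 0) :
    (minpoly F x).natDegree = (minpoly (RatFunc F) x).natDegree := by
  obtain ⟨p, h1, h2, h3⟩ := exists_lift D hD x hx
  have hint := isIntegral_const D hD x hx
  apply le_antisymm
  · rw [← h3]
    apply Polynomial.natDegree_le_of_dvd _ h1.ne_zero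
    apply minpoly.dvd
    have h4 := minpoly.aeval (RatFunc F) x
    rw [← h2, Polynomial.aeval_map_algebraMap] at h4
    exact h4
  · have h5 : minpoly (RatFunc F) x ∣ (minpoly F x).map (algebraMap F (RatFunc F)) :=
      minpoly.dvd_map_of_isScalarTower F (RatFunc F) x
    have h6 := Polynomial.natDegree_le_of_dvd h5
      ((minpoly.monic hint).map (algebraMap F (RatFunc F))).ne_zero
    rwa [Polynomial.natDegree_map] at h6

/-- the field of constants -/
def consts (D : Derivation F L L) : IntermediateField F L where
  carrier := {z | D z = 0}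
  mul_mem' := by
    intro a b ha hb
    simp only [Set.mem_ofPred_eq] at *
    rw [Derivation.leibniz, ha, hb, smul_zero, smul_zero, add_zero]
  add_mem' := by
    intro a b ha hb
    simp only [Set.mem_ofPred_eq] at *
    rw [map_add, ha, hb, add_zero]
  algebraMap_mem' := by
    intro r
    simp only [Set.mem_ofPred_eq]
    exact Derivation.map_algebraMap D r
  inv_mem' := by
    intro a ha
    simp only [Set.mem_ofPred_eq] at *
    rw [Derivation.leibniz_inv, ha, smul_zero]

end RatConstAux

open RatConstAux

/-- constants are algebraic over `F` -/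
theorem const_isAlgebraic (D : Derivation F L L)
    (hD : D (algebraMap (RatFunc F) L RatFunc.X) = 1) (x : L) (hx : D x = 0) :
    IsAlgebraic F x :=
  (isIntegral_const D hD x hx).isAlgebraic

/-- descent of the degree -/
theorem const_finrank (D : Derivation F L L)
    (hD : D (algebraMap (RatFunc F) L RatFunc.X) = 1) (b w : L) (hb : D b = 0) (hw : D w = 0)
    (hgen : (RatFunc F)⟮b + algebraMap (RatFunc F) L RatFunc.X * w⟯ = ⊤) :
    Module.finrank F (IntermediateField.adjoin F {b, w}) = Module.finrank (RatFunc F) L := by
  set E := IntermediateField.adjoin F {b, w} with hE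
  have hEc : E ≤ consts D := by
    rw [hE, IntermediateField.adjoin_le_iff]
    intro z hz
    rcases hz with rfl | hz
    · exact hb
    · rw [Set.mem_singleton_iff] at hz
      subst hz
      exact hw
  have : FiniteDimensional F E := by
    rw [hE]
    apply IntermediateField.finiteDimensional_adjoin
    intro z hz
    rcases hz with rfl | hz
    · exact isIntegral_const D hD _ hb
    · rw [Set.mem_singleton_iff] at hz
      subst hz
      exact isIntegral_const D hD _ hw
  obtain ⟨α, hα⟩ := Field.exists_primitive_element F E
  have hαD : D (α : L) = 0 := hEc α.2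
  have h1 : Module.finrank F E = (minpoly F (α : L)).natDegree := by
    rw [(Field.primitive_element_iff_minpoly_natDegree_eq F α).mp hα |>.symm]
    rw [← minpoly.algebraMap_eq (algebraMap E L).injective α]
    rfl
  rw [h1, natDegree_const D hD _ hαD]
  have hsub : ∀ z : L, z ∈ E → z ∈ (RatFunc F)⟮(α : L)⟯ := by
    intro z hz
    have h2 : (⟨z, hz⟩ : E) ∈ (⊤ : IntermediateField F E) := IntermediateField.mem_top
    rw [← hα] at h2
    have h3 : z ∈ IntermediateField.map E.val (F⟮α⟯) := ⟨⟨z, hz⟩, h2, rfl⟩
    rw [IntermediateField.adjoin_map, Set.image_singleton] at h3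
    have h4 : IntermediateField.adjoin F {(E.val α : L)} ≤
        ((RatFunc F)⟮(α : L)⟯).restrictScalars F := by
      rw [IntermediateField.adjoin_le_iff, Set.singleton_subset_iff]
      exact IntermediateField.mem_adjoin_simple_self (RatFunc F) (α : L)
    exact h4 h3
  have htop : (RatFunc F)⟮(α : L)⟯ = ⊤ := by
    rw [eq_top_iff, ← hgen, IntermediateField.adjoin_le_iff, Set.singleton_subset_iff]
    apply add_mem
    · apply hsub
      exact IntermediateField.subset_adjoin F _ (by simp)
    · apply mul_mem
      · exact IntermediateField.algebraMap_mem _ _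
      · apply hsub
        exact IntermediateField.subset_adjoin F _ (by simp)
  have hint : IsIntegral (RatFunc F) (α : L) := IsIntegral.of_finite _ _
  rw [← IntermediateField.adjoin.finrank hint, htop, IntermediateField.finrank_top']

/-- the minimal polynomial of `b + λ w` over `F(λ)` has coefficients in `F[λ]` -/
theorem const_minpoly (D : Derivation F L L)
    (hD : D (algebraMap (RatFunc F) L RatFunc.X) = 1) (b w : L) (hb : D b = 0) (hw : D w = 0) :
    ∃ p : Polynomial (Polynomial F), p.Monic ∧
      p.map (algebraMap (Polynomial F) (RatFunc F)) =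
        minpoly (RatFunc F) (b + algebraMap (RatFunc F) L RatFunc.X * w) := by
  let : Algebra (Polynomial F) L := (pol F L).toAlgebra
  have : IsScalarTower (Polynomial F) (RatFunc F) L := IsScalarTower.of_algebraMap_eq
    (fun p => rfl)
  have : IsScalarTower F (Polynomial F) L := by
    apply IsScalarTower.of_algebraMap_eq
    intro c
    change algebraMap F L c = pol F L (algebraMap F (Polynomial F) c)
    rw [pol_eq_aeval]
    simp
  have h1 : IsIntegral (Polynomial F) b := (isIntegral_const D hD b hb).tower_top
  have h2 : IsIntegral (Polynomial F) w := (isIntegral_const D hD w hw).tower_top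
  have h3 : IsIntegral (Polynomial F) (algebraMap (RatFunc F) L RatFunc.X) := by
    have h4 : algebraMap (RatFunc F) L RatFunc.X = algebraMap (Polynomial F) L Polynomial.X := by
      change _ = pol F L Polynomial.X
      rw [pol_eq_aeval, Polynomial.aeval_X]
    rw [h4]
    exact isIntegral_algebraMap
  have h4 : IsIntegral (Polynomial F) (b + algebraMap (RatFunc F) L RatFunc.X * w) :=
    h1.add (h3.mul h2)
  refine ⟨minpoly (Polynomial F) (b + algebraMap (RatFunc F) L RatFunc.X * w),
    minpoly.monic h4, ?_⟩
  exact (minpoly.isIntegrallyClosed_eq_field_fractions' (RatFunc F) h4).symm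

end Pool.Agent.LowDeg
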