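import Pool.Agent.LowDeg.LemADvd
import Pool.Agent.LowDeg.RatConst

/-! Module H2 (doc sections 10.2, 10.3): the curve model. -/

set_option autoImplicit false

section P1
open MvPolynomial

namespace Pool.Agent.LowDeg.LemAModelAux

/-- dehomogenisation -/
noncomputable def dh (k : Type) [Field k] :
    MvPolynomial (Fin 3) k →+* Polynomial (Polynomial k) :=
  MvPolynomial.eval₂Hom (Polynomial.C.comp Polynomial.C) ![1, Polynomial.C Polynomial.X, Polynomial.X]

variable {k : Type} [Field k]

lemma dh_C (c : k) : dh k (C c) = Polynomial.C (Polynomial.C c) := by simp [dh]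
lemma dh_X0 : dh k (X 0) = 1 := by simp [dh]
lemma dh_X1 : dh k (X 1) = Polynomial.C Polynomial.X := by simp [dh]
lemma dh_X2 : dh k (X 2) = Polynomial.X := by simp [dh]

lemma dh_monomial (m : Fin 3 →₀ ℕ) (c : k) :
    dh k (monomial m c) = Polynomial.monomial (m 2) (Polynomial.monomial (m 1) c) := by
  rw [dh, coe_eval₂Hom, eval₂_monomial, Finsupp.prod_fintype _ _ (by simp)]
  simp only [Fin.prod_univ_three, Matrix.cons_val_zero, Matrix.cons_val_one, Matrix.cons_val_two,
    Matrix.head_cons, Matrix.tail_cons, one_pow, one_mul, RingHom.comp_apply]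
  rw [← Polynomial.C_mul_X_pow_eq_monomial, ← Polynomial.C_mul_X_pow_eq_monomial]
  simp [mul_assoc]

lemma dh_eq_sum (P : MvPolynomial (Fin 3) k) :
    dh k P = ∑ m ∈ P.support, Polynomial.monomial (m 2) (Polynomial.monomial (m 1) (coeff m P)) := by
  conv_lhs => rw [P.as_sum]
  rw [map_sum]
  exact Finset.sum_congr rfl fun m _ => dh_monomial m _

lemma deg3 (m : Fin 3 →₀ ℕ) : m.degree = m 0 + m 1 + m 2 := by
  rw [Finsupp.degree_eq_sum, Fin.sum_univ_three]

lemma dh_lift (p : Polynomial (Polynomial k)) :
    ∃ (n : ℕ) (P : MvPolynomial (Fin 3) k), P.IsHomogeneous n ∧ dh k P = p := by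
  have hadd : ∀ p q : Polynomial (Polynomial k),
      (∃ (n : ℕ) (P : MvPolynomial (Fin 3) k), P.IsHomogeneous n ∧ dh k P = p) →
      (∃ (n : ℕ) (P : MvPolynomial (Fin 3) k), P.IsHomogeneous n ∧ dh k P = q) →
      ∃ (n : ℕ) (P : MvPolynomial (Fin 3) k), P.IsHomogeneous n ∧ dh k P = p + q := by
    rintro p q ⟨n, P, hP, rfl⟩ ⟨m, Q, hQ, rfl⟩
    refine ⟨m + n, X 0 ^ m * P + X 0 ^ n * Q, ?_, by simp [dh_X0]⟩
    refine IsHomogeneous.add ((isHomogeneous_X_pow _ _).mul hP) ?_
    have := (isHomogeneous_X_pow (R := k) (0 : Fin 3) n).mul hQ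
    rwa [add_comm] at this
  induction p using Polynomial.induction_on' with
  | add p q hp hq => exact hadd p q hp hq
  | monomial n a =>
    induction a using Polynomial.induction_on' with
    | add p q hp hq => rw [map_add]; exact hadd _ _ hp hq
    | monomial m c =>
      refine ⟨m + n, C c * (X 1 ^ m * X 2 ^ n), ?_, ?_⟩
      · exact IsHomogeneous.C_mul ((isHomogeneous_X_pow _ _).mul (isHomogeneous_X_pow _ _)) _
      · rw [map_mul, map_mul, map_pow, map_pow, dh_C, dh_X1, dh_X2,
          ← Polynomial.C_mul_X_pow_eq_monomial, ← Polynomial.C_mul_X_pow_eq_monomial]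
        simp [mul_assoc]

lemma dh_inj {n : ℕ} {P : MvPolynomial (Fin 3) k} (hP : P.IsHomogeneous n) (h : dh k P = 0) :
    P = 0 := by
  by_contra hP0
  obtain ⟨m0, hm0⟩ := MvPolynomial.ne_zero_iff.mp hP0
  have hm0' : m0 ∈ P.support := by rwa [mem_support_iff]
  have h1 : ((dh k P).coeff (m0 2)).coeff (m0 1) = coeff m0 P := by
    rw [dh_eq_sum, Polynomial.finsetSum_coeff, Polynomial.finsetSum_coeff, Finset.sum_eq_single m0]
    · simp
    · intro m hm hne
      rw [Polynomial.coeff_monomial]
      split_ifs with h2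
      · rw [Polynomial.coeff_monomial, if_neg]
        intro h3
        apply hne
        have e1 := hP.degree_eq_sum_deg_support hm
        have e2 := hP.degree_eq_sum_deg_support hm0'
        have e3 : ∀ m : Fin 3 →₀ ℕ, ∑ i ∈ m.support, m i = m 0 + m 1 + m 2 := by
          intro m
          rw [← Fin.sum_univ_three]
          exact Finset.sum_subset (Finset.subset_univ _) (fun i _ hi => by simpa using hi)
        rw [e3] at e1 e2
        ext i
        fin_cases i <;> simp <;> omega
      · simp
    · intro h; exact absurd hm0' h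
  rw [h] at h1
  exact hm0 (by simpa using h1.symm)

lemma dh_monic {h : ℕ} {G : MvPolynomial (Fin 3) k} (hG : G.IsHomogeneous h)
    (hG1 : eval ![0, 0, 1] G = 1) : (dh k G).Monic ∧ (dh k G).natDegree = h := by
  have e3 : ∀ m ∈ G.support, m 0 + m 1 + m 2 = h := by
    intro m hm
    have e1 := hG.degree_eq_sum_deg_support hm
    rw [e1, ← Fin.sum_univ_three]
    exact (Finset.sum_subset (Finset.subset_univ _) (fun i _ hi => by simpa using hi)).symm
  have hle : (dh k G).natDegree ≤ h := by
    rw [dh_eq_sum]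
    refine Polynomial.natDegree_sum_le_of_forall_le _ _ fun m hm => ?_
    refine (Polynomial.natDegree_monomial_le _).trans ?_
    have := e3 m hm
    omega
  have hc : (dh k G).coeff h = 1 := by
    have h1 : Polynomial.C (eval ![0, 0, 1] G) = (1 : Polynomial k) := by rw [hG1]; simp
    rw [← h1, dh_eq_sum, Polynomial.finsetSum_coeff, eval_eq', map_sum]
    refine Finset.sum_congr rfl fun m hm => ?_
    have h2 := e3 m hm
    rw [Polynomial.coeff_monomial, Fin.prod_univ_three]
    simp only [Matrix.cons_val_zero, Matrix.cons_val_one, Matrix.cons_val_two,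
      Matrix.head_cons, Matrix.tail_cons, one_pow, mul_one]
    by_cases h3 : m 2 = h
    · have h4 : m 0 = 0 := by omega
      have h5 : m 1 = 0 := by omega
      simp [h3, h4, h5, Polynomial.monomial_zero_left]
    · rw [if_neg h3]
      have h4 : m 0 ≠ 0 ∨ m 1 ≠ 0 := by omega
      rcases h4 with h4 | h4 <;> simp [h4]
  have hm : (dh k G).Monic := Polynomial.monic_of_natDegree_le_of_coeff_eq_one h hle hc
  refine ⟨hm, le_antisymm hle ?_⟩
  exact Polynomial.le_natDegree_of_ne_zero (by rw [hc]; exact one_ne_zero)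

lemma dh_irreducible {h : ℕ} {G : MvPolynomial (Fin 3) k} (hG : G.IsHomogeneous h)
    (hirr : Irreducible G) (hh : 1 ≤ h) (hG1 : eval ![0, 0, 1] G = 1) :
    Irreducible (dh k G) := by
  obtain ⟨hmon, hdeg⟩ := dh_monic hG hG1
  have hnu : ¬ IsUnit (dh k G) := by
    intro hu
    have := hmon.isUnit_iff.mp hu
    rw [this, Polynomial.natDegree_one] at hdeg
    omega
  have hG0 : dh k G ≠ 0 := hmon.ne_zero
  refine ⟨hnu, ?_⟩
  intro p q hpq
  obtain ⟨n1, P, hP, rfl⟩ := dh_lift p
  obtain ⟨n2, Q, hQ, rfl⟩ := dh_lift q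
  have hprime : Prime G := hirr.prime
  have hdvd : G ∣ X 0 ^ h * (P * Q) := by
    have h1 : X 0 ^ (n1 + n2) * G - X 0 ^ h * (P * Q) = 0 := by
      refine dh_inj (n := n1 + n2 + h) (IsHomogeneous.sub ((isHomogeneous_X_pow _ _).mul hG) ?_) ?_
      · have := (isHomogeneous_X_pow (R := k) (0 : Fin 3) h).mul (hP.mul hQ)
        rwa [add_comm] at this
      · simp [dh_X0, hpq]
    rw [sub_eq_zero] at h1
    rw [← h1]
    exact dvd_mul_left _ _
  rcases hprime.dvd_or_dvd hdvd with h1 | h1
  · exfalso
    apply hnu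
    have h2 := hprime.dvd_of_dvd_pow h1
    have h3 := map_dvd (dh k) h2
    rw [dh_X0] at h3
    exact isUnit_of_dvd_one h3
  · rcases hprime.dvd_or_dvd h1 with h2 | h2
    · right
      obtain ⟨c, hc⟩ := map_dvd (dh k) h2
      have hP0 : dh k P ≠ 0 := by
        rintro h0
        rw [h0, zero_mul] at hpq
        exact hG0 hpq
      rw [hpq, mul_assoc] at hc
      have : dh k Q * c = 1 := by
        have := mul_left_cancel₀ hP0 ((mul_one _).trans hc)
        exact this.symm
      exact IsUnit.of_mul_eq_one _ this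
    · left
      obtain ⟨c, hc⟩ := map_dvd (dh k) h2
      have hP0 : dh k Q ≠ 0 := by
        rintro h0
        rw [h0, mul_zero] at hpq
        exact hG0 hpq
      rw [hpq, mul_comm (dh k P), mul_assoc] at hc
      have : dh k P * c = 1 := by
        have := mul_left_cancel₀ hP0 ((mul_one _).trans hc)
        exact this.symm
      exact IsUnit.of_mul_eq_one _ this

end Pool.Agent.LowDeg.LemAModelAux

end P1

section P2
open Polynomial

namespace Pool.Agent.LowDeg.LemAModelAux

section phi
variable (K F : Type) [Field K] [Field F] [Algebra K F]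

lemma phi0_inj : Function.Injective ((algebraMap F[X] (RatFunc F)).comp
    (Polynomial.mapRingHom (algebraMap K F))) := by
  rw [RingHom.coe_comp]
  exact (IsFractionRing.injective F[X] (RatFunc F)).comp
    (Polynomial.map_injective _ (algebraMap K F).injective)

/-- `K(λ) → F(λ)` -/
noncomputable def phi : RatFunc K →+* RatFunc F :=
  IsFractionRing.lift (A := K[X]) (phi0_inj K F)

lemma phi_algebraMap (p : K[X]) : phi K F (algebraMap K[X] (RatFunc K) p) =
    algebraMap F[X] (RatFunc F) (p.map (algebraMap K F)) := by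
  rw [phi, IsFractionRing.lift_algebraMap]; rfl

lemma phi_X : phi K F RatFunc.X = RatFunc.X := by
  rw [← RatFunc.algebraMap_X, phi_algebraMap, Polynomial.map_X, RatFunc.algebraMap_X]

lemma phi_C (c : K) : phi K F (RatFunc.C c) = RatFunc.C (algebraMap K F c) := by
  rw [← RatFunc.algebraMap_C, phi_algebraMap, Polynomial.map_C, RatFunc.algebraMap_C]

/-- `K(λ)[Y] → F(λ)`, `Y ↦ a` -/
noncomputable def psi (a : F) : (RatFunc K)[X] →+* RatFunc F :=
  Polynomial.eval₂RingHom (phi K F) (RatFunc.C a)

lemma psi_C (a : F) (c : RatFunc K) : psi K F a (C c) = phi K F c := by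
  simp [psi]

lemma psi_X (a : F) : psi K F a X = RatFunc.C a := by
  simp [psi]

lemma psi_map_eq (a : F) (P : K[X][X]) :
    psi K F a (P.map (algebraMap K[X] (RatFunc K))) =
      algebraMap F[X] (RatFunc F) ((Bivariate.swap P).map
        (Polynomial.eval₂RingHom (algebraMap K F) a)) := by
  have h : (psi K F a).comp (mapRingHom (algebraMap K[X] (RatFunc K))) =
      (algebraMap F[X] (RatFunc F)).comp ((mapRingHom
        (Polynomial.eval₂RingHom (algebraMap K F) a)).comp
        (Bivariate.swap (R := K) : K[X][X] →+* K[X][X])) := by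
    apply Polynomial.ringHom_ext'
    · apply Polynomial.ringHom_ext
      · intro c
        simp only [RingHom.comp_apply, coe_mapRingHom, map_C, psi_C, RatFunc.algebraMap_C, phi_C,
          RingHom.coe_coe, Bivariate.swap_C_C, coe_eval₂RingHom, eval₂_C]
      · simp only [RingHom.comp_apply, coe_mapRingHom, map_C, psi_C, RatFunc.algebraMap_X, phi_X,
          RingHom.coe_coe, Bivariate.swap_X, map_X]
    · simp only [RingHom.comp_apply, coe_mapRingHom, map_X, psi_X, RingHom.coe_coe,
        Bivariate.swap_Y, map_C, coe_eval₂RingHom, eval₂_X, RatFunc.algebraMap_C]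
  exact DFunLike.congr_fun h P

lemma psi_inj (a : F) (ha : Transcendental K a) : Function.Injective (psi K F a) := by
  rw [injective_iff_map_eq_zero]
  intro P hP
  obtain ⟨b, hb', hb⟩ := IsLocalization.integerNormalization_spec (nonZeroDivisors K[X]) P
  have hb0 : (b : K[X]) ≠ 0 := nonZeroDivisors.ne_zero hb'
  have h1 : psi K F a ((IsLocalization.integerNormalization (nonZeroDivisors K[X]) P).map
      (algebraMap K[X] (RatFunc K))) = 0 := by
    rw [hb]
    have : ((b : K[X]) • P) = C (algebraMap K[X] (RatFunc K) b) * P := by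
      rw [← smul_eq_C_mul, algebraMap_smul]
    rw [this, map_mul, hP, mul_zero]
  rw [psi_map_eq] at h1
  have h2 : (Bivariate.swap (IsLocalization.integerNormalization (nonZeroDivisors K[X]) P)).map
        (Polynomial.eval₂RingHom (algebraMap K F) a) = 0 := by
    have := (map_eq_zero_iff _ (IsFractionRing.injective F[X] (RatFunc F))).mp h1
    exact this
  have hinj : Function.Injective (Polynomial.eval₂RingHom (algebraMap K F) a) := by
    have := transcendental_iff_injective.mp ha
    intro x y hxy
    apply this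
    simpa [aeval_def] using hxy
  have h3 := (Polynomial.map_eq_zero_iff hinj).mp h2
  have h4 : IsLocalization.integerNormalization (nonZeroDivisors K[X]) P = 0 := by
    have := congrArg Bivariate.swap h3
    rwa [Bivariate.swap_swap_apply, map_zero] at this
  rw [h4, Polynomial.map_zero] at hb
  have h5 : (b : K[X]) • P = C (algebraMap K[X] (RatFunc K) b) * P := by
    rw [← smul_eq_C_mul, algebraMap_smul]
  rw [h5] at hb
  rcases mul_eq_zero.mp hb.symm with h6 | h6
  · exfalso
    apply hb0
    have h7 := Polynomial.C_eq_zero.mp h6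
    exact (map_eq_zero_iff _ (IsFractionRing.injective K[X] (RatFunc K))).mp h7
  · exact h6

lemma psi_surj (a : F) (ha : Transcendental K a)
    (hgen : ∀ x : F, ∃ p q : K[X], x = aeval a p / aeval a q) (z : RatFunc F) :
    ∃ x y, z = psi K F a x / psi K F a y := by
  let Psi : RatFunc (RatFunc K) →+* RatFunc F := IsFractionRing.lift (psi_inj K F a ha)
  have hPsi : ∀ x, Psi (algebraMap _ _ x) = psi K F a x := fun x =>
    IsFractionRing.lift_algebraMap _ _
  have hK : ∀ p : K[X], RatFunc.C (aeval a p) ∈ Psi.fieldRange := by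
    intro p
    refine ⟨algebraMap _ _ (p.map (algebraMap K (RatFunc K))), ?_⟩
    rw [hPsi, psi, coe_eval₂RingHom, eval₂_map, aeval_def, hom_eval₂]
    congr 1
    ext c
    simp [phi_C]
  have hF : ∀ x : F, RatFunc.C x ∈ Psi.fieldRange := by
    intro x
    obtain ⟨p, q, rfl⟩ := hgen x
    rw [map_div₀]
    exact div_mem (hK p) (hK q)
  have hX : (RatFunc.X : RatFunc F) ∈ Psi.fieldRange := by
    refine ⟨algebraMap _ _ (C (RatFunc.X : RatFunc K)), ?_⟩
    rw [hPsi, psi_C, phi_X]
  have hp : ∀ p : F[X], algebraMap F[X] (RatFunc F) p ∈ Psi.fieldRange := by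
    intro p
    induction p using Polynomial.induction_on' with
    | add p q hp hq => rw [map_add]; exact add_mem hp hq
    | monomial n c =>
      rw [← C_mul_X_pow_eq_monomial, map_mul, map_pow, RatFunc.algebraMap_C, RatFunc.algebraMap_X]
      exact mul_mem (hF c) (pow_mem hX n)
  have hz : z ∈ Psi.fieldRange := by
    obtain ⟨p, q, hq, rfl⟩ := IsFractionRing.div_surjective (A := F[X]) z
    exact div_mem (hp p) (hp q)
  obtain ⟨w, rfl⟩ := hz
  obtain ⟨x, y, hy, rfl⟩ := IsFractionRing.div_surjective (A := (RatFunc K)[X]) w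
  exact ⟨x, y, by rw [map_div₀, hPsi, hPsi]⟩

lemma irreducible_map (a : F) (ha : Transcendental K a)
    (hgen : ∀ x : F, ∃ p q : K[X], x = aeval a p / aeval a q) (q : (RatFunc K)[X][X])
    (hq : q.Monic) (hirr : Irreducible q) : Irreducible (q.map (psi K F a)) := by
  let _ : Algebra (RatFunc K)[X] (RatFunc F) := (psi K F a).toAlgebra
  have _ : FaithfulSMul (RatFunc K)[X] (RatFunc F) := by
    rw [faithfulSMul_iff_algebraMap_injective]
    exact psi_inj K F a ha
  have _ : IsFractionRing (RatFunc K)[X] (RatFunc F) :=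
    IsFractionRing.of_field _ _ (psi_surj K F a ha hgen)
  exact (Monic.irreducible_iff_irreducible_map_fraction_map (K := RatFunc F) hq).mp hirr

end phi

end Pool.Agent.LowDeg.LemAModelAux

end P2

section P3
open MvPolynomial

namespace Pool.Agent.LowDeg.LemAModelAux

lemma exists_ext {F E0 L : Type} [Field F] [Field E0] [Algebra F E0] [CharZero E0] [Field L]
    [Algebra E0 L] [Algebra F L] [IsScalarTower F E0 L] [FiniteDimensional E0 L]
    (δ : Derivation F E0 E0) : ∃ D : Derivation F L L,
      ∀ x, D (algebraMap E0 L x) = algebraMap E0 L (δ x) := by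
  let _ : Differential E0 := ⟨δ.restrictScalars ℤ⟩
  let _ : Differential L := Differential.differentialFiniteDimensional E0 L
  have hda : DifferentialAlgebra E0 L := Differential.differentialAlgebraFiniteDimensional
  have h1 : ∀ x : E0, Differential.deriv (algebraMap E0 L x) = algebraMap E0 L (δ x) := by
    intro x
    exact hda.deriv_algebraMap x
  have h2 : ∀ c : F, Differential.deriv (algebraMap F L c) = 0 := by
    intro c
    rw [IsScalarTower.algebraMap_apply F E0 L, h1, Derivation.map_algebraMap, map_zero]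
  have h3 : ∀ (c : F) (x : L), Differential.deriv (c • x) = c • Differential.deriv x := by
    intro c x
    rw [Algebra.smul_def, Derivation.leibniz, h2, smul_zero, add_zero, smul_eq_mul,
      Algebra.smul_def]
  let lin : L →ₗ[F] L :=
    { toFun := fun x => Differential.deriv x
      map_add' := fun x y => map_add _ x y
      map_smul' := fun c x => h3 c x }
  refine ⟨Derivation.mk' lin fun x y => ?_, fun x => h1 x⟩
  exact Derivation.leibniz _ x y

section dcoef
variable {k : Type} [Field k]

lemma coeff_dcoef (D : k → k) (h0 : D 0 = 0) (H : MvPolynomial (Fin 3) k) (m : Fin 3 →₀ ℕ) :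
    coeff m (dcoef D H) = D (coeff m H) := by
  classical
  rw [dcoef, coeff_sum]
  simp only [coeff_monomial]
  rw [Finset.sum_ite_eq' H.support m]
  split_ifs with h
  · rfl
  · rw [notMem_support_iff.mp h, h0]

lemma dcoef_add (D : k → k) (h0 : D 0 = 0) (hadd : ∀ x y, D (x + y) = D x + D y)
    (P Q : MvPolynomial (Fin 3) k) : dcoef D (P + Q) = dcoef D P + dcoef D Q := by
  ext m
  rw [coeff_dcoef D h0, coeff_add, coeff_add, coeff_dcoef D h0, coeff_dcoef D h0, hadd]

lemma dcoef_C (D : k → k) (h0 : D 0 = 0) (c : k) :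
    dcoef D (C c : MvPolynomial (Fin 3) k) = C (D c) := by
  classical
  ext m
  rw [coeff_dcoef D h0, coeff_C, coeff_C]
  split_ifs
  · rfl
  · exact h0

lemma dcoef_mul_X (D : k → k) (h0 : D 0 = 0) (P : MvPolynomial (Fin 3) k) (i : Fin 3) :
    dcoef D (P * X i) = dcoef D P * X i := by
  classical
  ext m
  rw [coeff_dcoef D h0, coeff_mul_X', coeff_mul_X']
  split_ifs
  · rw [coeff_dcoef D h0]
  · exact h0

end dcoef

lemma der_eval {k L F : Type} [Field k] [Field L] [Field F] [Algebra F L] (f : k →+* L)
    (D : k → k) (h0 : D 0 = 0) (hadd : ∀ x y, D (x + y) = D x + D y)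
    (d : Derivation F L L) (hd : ∀ c, d (f c) = f (D c)) (v : Fin 3 → L) (hv0 : d (v 0) = 0)
    (hv1 : d (v 1) = 0) (H : MvPolynomial (Fin 3) k) :
    d (eval₂ f v H) = eval₂ f v (dcoef D H) + eval₂ f v (pderiv 2 H) * d (v 2) := by
  induction H using MvPolynomial.induction_on with
  | C c => rw [eval₂_C, hd, dcoef_C D h0, eval₂_C, pderiv_C, eval₂_zero, zero_mul, add_zero]
  | add P Q hP hQ =>
    rw [eval₂_add, map_add, hP, hQ, dcoef_add D h0 hadd, eval₂_add, map_add, eval₂_add]
    ring
  | mul_X P i hP =>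
    rw [eval₂_mul, eval₂_X, Derivation.leibniz, hP, dcoef_mul_X D h0, eval₂_mul, eval₂_X,
      Derivation.leibniz, eval₂_add, smul_eq_mul, smul_eq_mul, smul_eq_mul, smul_eq_mul,
      eval₂_mul, eval₂_mul, eval₂_X, pderiv_X]
    fin_cases i
    · simp only [Fin.zero_eta, hv0]
      simp
      ring
    · simp only [Fin.mk_one, hv1]
      simp
      ring
    · simp
      ring

end Pool.Agent.LowDeg.LemAModelAux

end P3

section P4
open Polynomial

namespace Pool.Agent.LowDeg.LemAModelAux

lemma der_poly {K : Type} [Field K] (D : Derivation K (RatFunc K) (RatFunc K))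
    (hD : D RatFunc.X = 1) (p : K[X]) :
    D (algebraMap K[X] (RatFunc K) p) = algebraMap K[X] (RatFunc K) (derivative p) := by
  induction p using Polynomial.induction_on' with
  | add p q hp hq => rw [map_add, map_add, hp, hq, derivative_add, map_add]
  | monomial n c =>
    have hC : D (RatFunc.C c) = 0 := by
      rw [← RatFunc.algebraMap_eq_C]; exact D.map_algebraMap c
    rw [← C_mul_X_pow_eq_monomial, map_mul, map_pow, RatFunc.algebraMap_C, RatFunc.algebraMap_X,
      Derivation.leibniz, hC, smul_zero, add_zero, Derivation.leibniz_pow, hD,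
      derivative_C_mul_X_pow, map_mul, map_pow, RatFunc.algebraMap_C, RatFunc.algebraMap_X]
    simp [mul_assoc]

lemma der_phi {K F : Type} [Field K] [Field F] [Algebra K F]
    (D : Derivation K (RatFunc K) (RatFunc K)) (hD : D RatFunc.X = 1)
    (δ : Derivation F (RatFunc F) (RatFunc F)) (hδ : δ RatFunc.X = 1) (c : RatFunc K) :
    δ (phi K F c) = phi K F (D c) := by
  have h1 : ∀ p : K[X], δ (phi K F (algebraMap _ _ p)) = phi K F (D (algebraMap _ _ p)) := by
    intro p
    rw [phi_algebraMap, der_poly δ hδ, der_poly D hD, phi_algebraMap, derivative_map]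
  obtain ⟨p, q, hq, rfl⟩ := IsFractionRing.div_surjective (A := K[X]) c
  rw [map_div₀, Derivation.leibniz_div, Derivation.leibniz_div, h1, h1]
  simp [map_mul, map_sub, smul_eq_mul]

open MvPolynomial in
/-- evaluation at `(1, a, β)` -/
lemma eval₂_dh {K F L : Type} [Field K] [Field F] [Field L] [Algebra K F] [Algebra (RatFunc F) L]
    (a : F) (β : L) (H : MvPolynomial (Fin 3) (RatFunc K)) :
    MvPolynomial.eval₂ ((algebraMap (RatFunc F) L).comp (phi K F))
      ![1, algebraMap (RatFunc F) L (RatFunc.C a), β] H =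
    Polynomial.aeval β ((dh (RatFunc K) H).map (psi K F a)) := by
  have h : MvPolynomial.eval₂Hom ((algebraMap (RatFunc F) L).comp (phi K F))
      ![1, algebraMap (RatFunc F) L (RatFunc.C a), β] =
      ((Polynomial.aeval (R := RatFunc F) β : (RatFunc F)[X] →+* L).comp
        (Polynomial.mapRingHom (psi K F a))).comp (dh (RatFunc K)) := by
    apply MvPolynomial.ringHom_ext
    · intro c
      simp [dh_C, psi_C]
    · intro i
      fin_cases i
      · simp [dh_X0]
      · simp [dh_X1, psi_X]
      · simp [dh_X2]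
  exact DFunLike.congr_fun h H

lemma derivative_dh {k : Type} [Field k] (H : MvPolynomial (Fin 3) k) :
    Polynomial.derivative (dh k H) = dh k (MvPolynomial.pderiv 2 H) := by
  induction H using MvPolynomial.induction_on with
  | C c => simp [dh_C]
  | add P Q hP hQ => rw [map_add, map_add, map_add, map_add, hP, hQ]
  | mul_X P i hP =>
    rw [map_mul, derivative_mul, hP, Derivation.leibniz, map_add, smul_eq_mul, smul_eq_mul,
      map_mul, map_mul, MvPolynomial.pderiv_X]
    fin_cases i
    · simp [dh_X0]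
    · simp [dh_X1]; ring
    · simp [dh_X2]; ring

end Pool.Agent.LowDeg.LemAModelAux

end P4

section P5
open Polynomial IntermediateField

namespace Pool.Agent.LowDeg.LemAModelAux

lemma dcoef_pderiv {k : Type} [Field k] (D : k → k) (h0 : D 0 = 0)
    (hadd : ∀ x y, D (x + y) = D x + D y) (H : MvPolynomial (Fin 3) k) :
    dcoef D (MvPolynomial.pderiv 2 H) = MvPolynomial.pderiv 2 (dcoef D H) := by
  have hz : dcoef D (0 : MvPolynomial (Fin 3) k) = 0 := by simp [dcoef]
  induction H using MvPolynomial.induction_on with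
  | C c => rw [MvPolynomial.pderiv_C, hz, dcoef_C D h0, MvPolynomial.pderiv_C]
  | add P Q hP hQ =>
    rw [map_add, dcoef_add D h0 hadd, hP, hQ, dcoef_add D h0 hadd, map_add]
  | mul_X P i hP =>
    rw [dcoef_mul_X D h0, Derivation.leibniz, Derivation.leibniz, smul_eq_mul, smul_eq_mul,
      smul_eq_mul, smul_eq_mul, dcoef_add D h0 hadd, mul_comm (MvPolynomial.X i)
      (MvPolynomial.pderiv 2 P), dcoef_mul_X D h0, hP, MvPolynomial.pderiv_X]
    fin_cases i
    · simp [hz, mul_comm]
    · simp [hz, mul_comm]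
    · simp [mul_comm]

theorem core {K F : Type} [Field K] [CharZero K] [Field F] [CharZero F] [Algebra K F] (a : F)
    (ha : Transcendental K a) (hgen : ∀ x : F, ∃ p q : K[X], x = aeval a p / aeval a q)
    (D : Derivation K (RatFunc K) (RatFunc K)) (hD : D RatFunc.X = 1) {h : ℕ}
    (G : MvPolynomial (Fin 3) (RatFunc K)) (hG : G.IsHomogeneous h) (hirr : Irreducible G)
    (hh : 1 ≤ h) (hG1 : MvPolynomial.eval ![0, 0, 1] G = 1) (hQ : G ∣ Qform D G) :
    ∃ (L : Type) (_ : Field L) (_ : Algebra (RatFunc F) L) (_ : Algebra F L)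
      (_ : IsScalarTower F (RatFunc F) L) (_ : FiniteDimensional (RatFunc F) L)
      (d : Derivation F L L) (b w : L), d (algebraMap (RatFunc F) L RatFunc.X) = 1 ∧
      d b = 0 ∧ d w = 0 ∧
      minpoly (RatFunc F) (b + algebraMap (RatFunc F) L RatFunc.X * w) =
        (dh (RatFunc K) G).map (psi K F a) ∧
      (RatFunc F)⟮b + algebraMap (RatFunc F) L RatFunc.X * w⟯ = ⊤ := by
  obtain ⟨hmon, hdeg⟩ := dh_monic hG hG1
  have hgirr : Irreducible ((dh (RatFunc K) G).map (psi K F a)) :=
    irreducible_map K F a ha hgen _ hmon (dh_irreducible hG hirr hh hG1)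
  have hgmon : ((dh (RatFunc K) G).map (psi K F a)).Monic := hmon.map _
  have hfact : Fact (Irreducible ((dh (RatFunc K) G).map (psi K F a))) := ⟨hgirr⟩
  generalize hgdef : (dh (RatFunc K) G).map (psi K F a) = g at hgirr hgmon hfact
  have hfd : FiniteDimensional (RatFunc F) (AdjoinRoot g) :=
    (AdjoinRoot.powerBasis hgirr.ne_zero).finite
  obtain ⟨δ, hδ⟩ := exists_ddlam F
  obtain ⟨d, hd⟩ := exists_ext (F := F) (E0 := RatFunc F) (L := AdjoinRoot g) δ
  obtain ⟨β, hβ⟩ : ∃ β, β = AdjoinRoot.root g := ⟨_, rfl⟩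
  have haeval : aeval β g = 0 := by
    rw [hβ, AdjoinRoot.aeval_eq, AdjoinRoot.mk_self]
  have hmin : minpoly (RatFunc F) β = g :=
    (minpoly.eq_of_irreducible_of_monic hgirr haeval hgmon).symm
  -- evaluation
  obtain ⟨ev, hev⟩ : ∃ ev : MvPolynomial (Fin 3) (RatFunc K) →+* AdjoinRoot g,
      ev = MvPolynomial.eval₂Hom ((algebraMap (RatFunc F) (AdjoinRoot g)).comp (phi K F))
        ![1, algebraMap (RatFunc F) (AdjoinRoot g) (RatFunc.C a), β] := ⟨_, rfl⟩
  have hev' : ∀ H, ev H = aeval β ((dh (RatFunc K) H).map (psi K F a)) := by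
    intro H
    rw [hev]
    exact eval₂_dh a β H
  have hevG : ev G = 0 := by rw [hev', hgdef, haeval]
  have hev2 : ev (MvPolynomial.pderiv 2 G) ≠ 0 := by
    rw [hev', ← derivative_dh, ← derivative_map, hgdef]
    exact hgirr.separable.aeval_derivative_ne_zero haeval
  have hder : ∀ H, d (ev H) = ev (dcoef D H) + ev (MvPolynomial.pderiv 2 H) * d β := by
    intro H
    have h1 := der_eval ((algebraMap (RatFunc F) (AdjoinRoot g)).comp (phi K F)) D (map_zero D)
      (map_add D) d (fun c => by
        rw [RingHom.comp_apply, hd, der_phi D hD δ hδ, RingHom.comp_apply])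
      ![1, algebraMap (RatFunc F) (AdjoinRoot g) (RatFunc.C a), β] (by simp)
      (by
        show d (algebraMap (RatFunc F) (AdjoinRoot g) (RatFunc.C a)) = 0
        rw [hd]
        have : δ (RatFunc.C a) = 0 := by
          rw [← RatFunc.algebraMap_eq_C]; exact δ.map_algebraMap a
        rw [this, map_zero]) H
    rw [hev]
    exact h1
  obtain ⟨w, hw⟩ : ∃ w, w = d β := ⟨_, rfl⟩
  rw [← hw] at hder
  have e1 : ev (dcoef D G) + ev (MvPolynomial.pderiv 2 G) * w = 0 := by
    rw [← hder, hevG, map_zero]
  have e2 : d (ev (dcoef D G) + ev (MvPolynomial.pderiv 2 G) * w) = 0 := by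
    rw [e1, map_zero]
  rw [map_add, hder, Derivation.leibniz, hder, smul_eq_mul, smul_eq_mul,
    dcoef_pderiv D (map_zero D) (map_add D)] at e2
  have e3 : ev (Qform D G) = 0 := by
    obtain ⟨R, hR⟩ := hQ
    rw [hR, map_mul, hevG, zero_mul]
  rw [Qform] at e3
  simp only [map_add, map_sub, map_mul, map_pow, map_ofNat] at e3
  have e4 : ev (dcoef D G) = -(ev (MvPolynomial.pderiv 2 G) * w) := eq_neg_of_add_eq_zero_left e1
  rw [e4] at e3
  have e5 : ev (MvPolynomial.pderiv 2 G) ^ 2 * (ev (MvPolynomial.pderiv 2 G) * d w) = 0 := by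
    linear_combination (ev (MvPolynomial.pderiv 2 G)) ^ 2 * e2 - e3
  have hdw : d w = 0 := by
    rcases mul_eq_zero.mp e5 with h1 | h1
    · exact absurd (pow_eq_zero_iff (two_ne_zero) |>.mp h1) hev2
    · rcases mul_eq_zero.mp h1 with h2 | h2
      · exact absurd h2 hev2
      · exact h2
  have hdl : d (algebraMap (RatFunc F) (AdjoinRoot g) RatFunc.X) = 1 := by
    rw [hd, hδ, map_one]
  refine ⟨AdjoinRoot g, inferInstance, inferInstance, inferInstance, inferInstance, hfd, d,
    β - algebraMap (RatFunc F) (AdjoinRoot g) RatFunc.X * w, w, hdl, ?_, hdw, ?_, ?_⟩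
  · rw [map_sub, Derivation.leibniz, hdl, hdw, ← hw]
    simp
  · rw [sub_add_cancel, hmin]
  · rw [sub_add_cancel, hβ]
    exact IntermediateField.adjoin_root_eq_top g

end Pool.Agent.LowDeg.LemAModelAux

end P5

section P6
open Polynomial

namespace Pool.Agent.LowDeg.LemAModelAux

lemma psi_descend {K F : Type} [Field K] [Field F] [Algebra K F] (a : F)
    (ha : Transcendental K a) (c : (RatFunc K)[X]) (u : F[X])
    (hcu : psi K F a c = algebraMap F[X] (RatFunc F) u) :
    ∃ V : K[X][X], c = V.map (algebraMap K[X] (RatFunc K)) := by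
  obtain ⟨g, hg⟩ := LinearMap.exists_leftInverse_of_injective
    (Polynomial.aeval (R := K) a).toLinearMap
    (LinearMap.ker_eq_bot.mpr (transcendental_iff_injective.mp ha))
  have hg' : ∀ p : K[X], g (aeval a p) = p := fun p => DFunLike.congr_fun hg p
  obtain ⟨b, hb', hb⟩ := IsLocalization.integerNormalization_spec (nonZeroDivisors K[X]) c
  have hb0 : (b : K[X]) ≠ 0 := nonZeroDivisors.ne_zero hb'
  generalize IsLocalization.integerNormalization (nonZeroDivisors K[X]) c = N at hb
  have hbc : (b • c) = C (algebraMap K[X] (RatFunc K) b) * c := by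
    rw [← smul_eq_C_mul, algebraMap_smul]
  rw [hbc] at hb
  have h1 : (Bivariate.swap N).map (Polynomial.eval₂RingHom (algebraMap K F) a) =
      b.map (algebraMap K F) * u := by
    apply IsFractionRing.injective F[X] (RatFunc F)
    rw [← psi_map_eq, hb, map_mul, psi_C, phi_algebraMap, hcu, map_mul]
  let U : K[X][X] := ∑ m ∈ u.support, monomial m (g (u.coeff m))
  have hU : ∀ m, U.coeff m = g (u.coeff m) := by
    intro m
    show (∑ m ∈ u.support, monomial m (g (u.coeff m))).coeff m = _
    rw [finsetSum_coeff]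
    simp only [coeff_monomial]
    rw [Finset.sum_ite_eq' u.support m]
    split_ifs with h
    · rfl
    · rw [notMem_support_iff.mp h, map_zero]
  have h2 : Bivariate.swap N = b.map C * U := by
    ext1 m
    rw [coeff_mul]
    have h3 : ((Bivariate.swap N).map (Polynomial.eval₂RingHom (algebraMap K F) a)).coeff m =
      (b.map (algebraMap K F) * u).coeff m := by rw [h1]
    rw [coeff_map, coeff_mul, coe_eval₂RingHom, ← aeval_def] at h3
    have h4 := congrArg g h3
    rw [hg', map_sum] at h4
    rw [h4]
    refine Finset.sum_congr rfl fun x _ => ?_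
    rw [coeff_map, coeff_map, hU, ← smul_eq_C_mul, ← map_smul, Algebra.smul_def]
  have h5 : N = C b * Bivariate.swap U := by
    have := congrArg Bivariate.swap h2
    rw [Bivariate.swap_swap_apply, map_mul, Bivariate.swap_map_C] at this
    exact this
  refine ⟨Bivariate.swap U, ?_⟩
  rw [h5, Polynomial.map_mul, map_C] at hb
  have hne : C (algebraMap K[X] (RatFunc K) b) ≠ 0 := by
    rw [Ne, C_eq_zero]
    exact (map_ne_zero_iff _ (IsFractionRing.injective K[X] (RatFunc K))).mpr hb0
  exact (mul_left_cancel₀ hne hb).symm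

lemma coeff_dh {k : Type} [Field k] {n : ℕ} {P : MvPolynomial (Fin 3) k} (hP : P.IsHomogeneous n)
    (m0 : Fin 3 →₀ ℕ) (hm0' : m0 ∈ P.support) :
    ((dh k P).coeff (m0 2)).coeff (m0 1) = MvPolynomial.coeff m0 P := by
  rw [dh_eq_sum, Polynomial.finsetSum_coeff, Polynomial.finsetSum_coeff, Finset.sum_eq_single m0]
  · simp
  · intro m hm hne
    rw [Polynomial.coeff_monomial]
    split_ifs with h2
    · rw [Polynomial.coeff_monomial, if_neg]
      intro h3
      apply hne
      have e1 := hP.degree_eq_sum_deg_support hm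
      have e2 := hP.degree_eq_sum_deg_support hm0'
      have e3 : ∀ m : Fin 3 →₀ ℕ, ∑ i ∈ m.support, m i = m 0 + m 1 + m 2 := by
        intro m
        rw [← Fin.sum_univ_three]
        exact Finset.sum_subset (Finset.subset_univ _) (fun i _ hi => by simpa using hi)
      rw [e3] at e1 e2
      ext i
      fin_cases i <;> simp <;> omega
    · simp
  · intro h; exact absurd hm0' h

lemma descend {K F : Type} [Field K] [Field F] [Algebra K F] (a : F)
    (ha : Transcendental K a) {h : ℕ} (G : MvPolynomial (Fin 3) (RatFunc K))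
    (hG : G.IsHomogeneous h) (p : F[X][X])
    (hp : p.map (algebraMap F[X] (RatFunc F)) = (dh (RatFunc K) G).map (psi K F a)) :
    ∃ G0 : MvPolynomial (Fin 3) K[X],
      MvPolynomial.map (algebraMap K[X] (RatFunc K)) G0 = G := by
  have h1 : G ∈ Set.range (MvPolynomial.map (σ := Fin 3) (algebraMap K[X] (RatFunc K))) := by
    rw [MvPolynomial.mem_range_map_iff_coeffs_subset]
    intro c hc
    obtain ⟨m, hm, rfl⟩ := MvPolynomial.mem_coeffs_iff.mp hc
    have h2 := congrArg (fun q : (RatFunc F)[X] => q.coeff (m 2)) hp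
    simp only [coeff_map] at h2
    obtain ⟨V, hV⟩ := psi_descend a ha _ _ h2.symm
    rw [← coeff_dh hG m hm, hV, coeff_map]
    exact ⟨_, rfl⟩
  exact h1

end Pool.Agent.LowDeg.LemAModelAux

end P6

section P7
open Polynomial IntermediateField

namespace Pool.Agent.LowDeg.LemAModelAux

theorem mk_model {K F E : Type} [Field K] [Field F] [Field E] [Algebra K F] [Algebra F E]
    [Algebra K E] [IsScalarTower K F E] (a : F) (ha : Transcendental K a)
    (hgen : ∀ x : F, ∃ p q : K[X], x = aeval a p / aeval a q) (b w : E) {h : ℕ} (hh : 1 ≤ h)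
    (hfin : Module.finrank F E = h) (htop : IntermediateField.adjoin F {b, w} = ⊤)
    (G0 : MvPolynomial (Fin 3) K[X]) (hG : G0.IsHomogeneous h)
    (hG1 : MvPolynomial.eval ![0, 0, 1] G0 = 1)
    (hrel : MvPolynomial.eval₂ (mapRingHom (algebraMap K E))
      ![1, C (algebraMap F E a), C b + C w * X] G0 = 0) :
    ∃ M : CurveModel K h, M.G = G0 := by
  have hae : ∀ p : K[X], aeval (algebraMap F E a) p ∈ K⟮algebraMap F E a⟯ := by
    intro p
    have h1 := (aeval (AdjoinSimple.gen K (algebraMap F E a)) p).2
    rwa [← IntermediateField.aeval_coe, AdjoinSimple.coe_gen] at h1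
  have hmem : ∀ x : F, algebraMap F E x ∈ K⟮algebraMap F E a⟯ := by
    intro x
    obtain ⟨p, q, rfl⟩ := hgen x
    rw [map_div₀, ← aeval_algebraMap_apply, ← aeval_algebraMap_apply]
    exact div_mem (hae p) (hae q)
  have hle : K⟮algebraMap F E a⟯ ≤ (IsScalarTower.toAlgHom K F E).fieldRange := by
    rw [adjoin_simple_le_iff]
    exact ⟨a, rfl⟩
  let i0 : F →+* K⟮algebraMap F E a⟯ :=
    { toFun := fun x => ⟨algebraMap F E x, hmem x⟩
      map_zero' := Subtype.ext (map_zero _)
      map_one' := Subtype.ext (map_one _)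
      map_add' := fun x y => Subtype.ext (map_add _ x y)
      map_mul' := fun x y => Subtype.ext (map_mul _ x y) }
  have hi0 : Function.Bijective i0 := by
    refine ⟨i0.injective, fun y => ?_⟩
    obtain ⟨x, hx⟩ := hle y.2
    exact ⟨x, Subtype.ext hx⟩
  have hrank : Module.finrank K⟮algebraMap F E a⟯ E = h := by
    rw [← hfin]
    symm
    refine Algebra.finrank_eq_of_equiv_equiv (RingEquiv.ofBijective i0 hi0) (RingEquiv.refl E) ?_
    ext x
    rfl
  have hfd : FiniteDimensional K⟮algebraMap F E a⟯ E :=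
    Module.finite_of_finrank_pos (by rw [hrank]; omega)
  have hadj : IntermediateField.adjoin K {algebraMap F E a, b, w} = ⊤ := by
    rw [eq_top_iff]
    intro x _
    have hx : x ∈ IntermediateField.adjoin F {b, w} := by rw [htop]; trivial
    have hKa : K⟮algebraMap F E a⟯ ≤ IntermediateField.adjoin K {algebraMap F E a, b, w} :=
      IntermediateField.adjoin.mono _ _ _ (by
        intro y hy; rw [Set.mem_singleton_iff] at hy; rw [hy]; simp)
    induction hx using IntermediateField.adjoin_induction with
    | mem x hx =>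
      apply IntermediateField.subset_adjoin
      rcases hx with hx | hx
      · right; left; exact hx
      · right; right; exact hx
    | algebraMap x => exact hKa (hmem x)
    | add x y hx hy h1 h2 => exact add_mem (h1 trivial) (h2 trivial)
    | inv x hx h1 => exact inv_mem (h1 trivial)
    | mul x y hx hy h1 h2 => exact mul_mem (h1 trivial) (h2 trivial)
  have haE : Transcendental K (algebraMap F E a) :=
    (transcendental_algebraMap_iff (algebraMap F E).injective).mpr ha
  exact ⟨{ E := E, a := algebraMap F E a, b := b, w := w, trans := haE, fin := hfd, rank := hrank,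
           gen := hadj, G := G0, G_hom := hG, G_top := hG1, rel := hrel }, rfl⟩

end Pool.Agent.LowDeg.LemAModelAux

end P7

section P8
open Polynomial IntermediateField

namespace Pool.Agent.LowDeg.LemAModelAux

theorem gen_ratFunc (K : Type) [Field K] (x : RatFunc K) :
    ∃ p q : K[X], x = aeval (RatFunc.X : RatFunc K) p / aeval (RatFunc.X : RatFunc K) q := by
  obtain ⟨p, q, hq, rfl⟩ := IsFractionRing.div_surjective (A := K[X]) x
  exact ⟨p, q, by rw [RatFunc.aeval_X_left_eq_algebraMap, RatFunc.aeval_X_left_eq_algebraMap]⟩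

theorem main {K : Type} [Field K] [CharZero K]
    (D : Derivation K (RatFunc K) (RatFunc K)) (hD : D RatFunc.X = 1) {h : ℕ}
    (G : MvPolynomial (Fin 3) (RatFunc K)) (hG : G.IsHomogeneous h) (hirr : Irreducible G)
    (hh : 1 ≤ h) (hG1 : MvPolynomial.eval ![0, 0, 1] G = 1) (hQ : G ∣ Qform D G) :
    ∃ M : CurveModel K h, MvPolynomial.map (algebraMap (Polynomial K) (RatFunc K)) M.G = G := by
  have hcF : CharZero (RatFunc K) :=
    charZero_of_injective_algebraMap (algebraMap K (RatFunc K)).injective
  have haX : Transcendental K (RatFunc.X : RatFunc K) := RatFunc.transcendental_X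
  obtain ⟨L, _, _, _, _, _, d, b, w, hd1, hdb, hdw, hmin, htop⟩ :=
    core (F := RatFunc K) (RatFunc.X : RatFunc K) haX (gen_ratFunc K) D hD G hG hirr hh hG1 hQ
  obtain ⟨p, hpm, hp⟩ := const_minpoly d hd1 b w hdb hdw
  rw [hmin] at hp
  obtain ⟨G0, hG0⟩ := descend (F := RatFunc K) (RatFunc.X : RatFunc K) haX G hG p hp
  obtain ⟨hmon, hdeg⟩ := dh_monic hG hG1
  have hfr : Module.finrank (RatFunc (RatFunc K)) L = h := by
    have h1 := IntermediateField.adjoin.finrank (K := RatFunc (RatFunc K))
      (x := b + algebraMap (RatFunc (RatFunc K)) L RatFunc.X * w) (IsIntegral.of_finite _ _)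
    rw [htop, IntermediateField.finrank_top', hmin,
      Polynomial.natDegree_map_eq_of_injective (psi_inj K (RatFunc K) _ haX), hdeg] at h1
    exact h1
  have hfinE := const_finrank d hd1 b w hdb hdw htop
  rw [hfr] at hfinE
  have hfd : FiniteDimensional (RatFunc K) (IntermediateField.adjoin (RatFunc K) {b, w}) :=
    Module.finite_of_finrank_pos (by rw [hfinE]; omega)
  let _ : Algebra K (IntermediateField.adjoin (RatFunc K) {b, w}) :=
    ((algebraMap (RatFunc K) (IntermediateField.adjoin (RatFunc K) {b, w})).comp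
      (algebraMap K (RatFunc K))).toAlgebra
  have _ : IsScalarTower K (RatFunc K) (IntermediateField.adjoin (RatFunc K) {b, w}) :=
    IsScalarTower.of_algebraMap_eq (fun _ => rfl)
  have hb : b ∈ IntermediateField.adjoin (RatFunc K) {b, w} :=
    IntermediateField.subset_adjoin _ _ (by simp)
  have hw : w ∈ IntermediateField.adjoin (RatFunc K) {b, w} :=
    IntermediateField.subset_adjoin _ _ (by simp)
  have htopE : IntermediateField.adjoin (RatFunc K)
      {(⟨b, hb⟩ : IntermediateField.adjoin (RatFunc K) {b, w}), ⟨w, hw⟩} = ⊤ := by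
    rw [eq_top_iff]
    rintro ⟨x, hx⟩ _
    induction hx using IntermediateField.adjoin_induction with
    | mem x hx =>
      apply IntermediateField.subset_adjoin
      rcases hx with hx | hx
      · left; exact Subtype.ext hx
      · right; exact Subtype.ext hx
    | algebraMap x => exact IntermediateField.algebraMap_mem _ x
    | add x y hx hy h1 h2 => exact add_mem (h1 trivial) (h2 trivial)
    | inv x hx h1 => exact inv_mem (h1 trivial)
    | mul x y hx hy h1 h2 => exact mul_mem (h1 trivial) (h2 trivial)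
  have hinj := IsFractionRing.injective K[X] (RatFunc K)
  have hG0h : G0.IsHomogeneous h := by
    apply MvPolynomial.IsHomogeneous.of_map (f := algebraMap K[X] (RatFunc K)) hinj
    rw [hG0]; exact hG
  have hG01 : MvPolynomial.eval ![0, 0, 1] G0 = 1 := by
    apply hinj
    rw [map_one, ← hG1, ← hG0, MvPolynomial.eval_map, MvPolynomial.eval,
      MvPolynomial.coe_eval₂Hom, MvPolynomial.eval₂_comp_left, RingHom.comp_id]
    congr 1
    ext i
    fin_cases i <;> simp
  -- the relation
  have htr : Transcendental (IntermediateField.adjoin (RatFunc K) {b, w})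
      (algebraMap (RatFunc (RatFunc K)) L RatFunc.X) := by
    intro halg
    have h1 : IsAlgebraic (RatFunc K) (algebraMap (RatFunc (RatFunc K)) L RatFunc.X) :=
      halg.restrictScalars (RatFunc K)
    have h2 : Transcendental (RatFunc K) (algebraMap (RatFunc (RatFunc K)) L RatFunc.X) :=
      (transcendental_algebraMap_iff (algebraMap (RatFunc (RatFunc K)) L).injective).mpr
        RatFunc.transcendental_X
    exact h2 h1
  have hrel : MvPolynomial.eval₂ (mapRingHom (algebraMap K
      (IntermediateField.adjoin (RatFunc K) {b, w}))) ![1, C (algebraMap (RatFunc K)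
      (IntermediateField.adjoin (RatFunc K) {b, w}) RatFunc.X),
      C (⟨b, hb⟩ : IntermediateField.adjoin (RatFunc K) {b, w}) + C ⟨w, hw⟩ * X] G0 = 0 := by
    apply transcendental_iff_injective.mp htr
    rw [map_zero]
    have h1 := MvPolynomial.eval₂_comp_left (aeval (R := IntermediateField.adjoin (RatFunc K) {b, w})
      (algebraMap (RatFunc (RatFunc K)) L RatFunc.X) : _ →+* L) (mapRingHom (algebraMap K
      (IntermediateField.adjoin (RatFunc K) {b, w}))) ![1, C (algebraMap (RatFunc K)
      (IntermediateField.adjoin (RatFunc K) {b, w}) RatFunc.X),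
      C (⟨b, hb⟩ : IntermediateField.adjoin (RatFunc K) {b, w}) + C ⟨w, hw⟩ * X] G0
    have h2 : MvPolynomial.eval₂ ((algebraMap (RatFunc (RatFunc K)) L).comp (phi K (RatFunc K)))
      ![1, algebraMap (RatFunc (RatFunc K)) L (RatFunc.C RatFunc.X),
        b + algebraMap (RatFunc (RatFunc K)) L RatFunc.X * w] G = 0 := by
      rw [eval₂_dh, ← hmin, minpoly.aeval]
    rw [← hG0, MvPolynomial.eval₂_map] at h2
    refine (h1.trans ?_).trans h2
    have h3 : (aeval (R := IntermediateField.adjoin (RatFunc K) {b, w})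
      (algebraMap (RatFunc (RatFunc K)) L RatFunc.X) : _ →+* L).comp (mapRingHom (algebraMap K
      (IntermediateField.adjoin (RatFunc K) {b, w}))) = (((algebraMap (RatFunc (RatFunc K)) L).comp
        (phi K (RatFunc K))).comp (algebraMap K[X] (RatFunc K))) := by
      apply Polynomial.ringHom_ext
      · intro c
        simp only [RingHom.comp_apply, coe_mapRingHom, map_C, RingHom.coe_coe, aeval_C,
          RatFunc.algebraMap_C, phi_C]
        show algebraMap (IntermediateField.adjoin (RatFunc K) {b, w}) L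
          (algebraMap (RatFunc K) (IntermediateField.adjoin (RatFunc K) {b, w})
            (algebraMap K (RatFunc K) c)) = _
        rw [← IsScalarTower.algebraMap_apply (RatFunc K)
          (IntermediateField.adjoin (RatFunc K) {b, w}) L,
          IsScalarTower.algebraMap_apply (RatFunc K) (RatFunc (RatFunc K)) L,
          RatFunc.algebraMap_eq_C (K := RatFunc K)]
      · simp only [RingHom.comp_apply, coe_mapRingHom, map_X, RingHom.coe_coe, aeval_X,
          RatFunc.algebraMap_X, phi_X]
    rw [h3]
    congr 1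
    ext i
    fin_cases i
    · simp
    · simp only [Fin.mk_one, Function.comp_apply, Matrix.cons_val_one, Matrix.cons_val_zero,
        RingHom.coe_coe, aeval_C]
      rw [← IsScalarTower.algebraMap_apply (RatFunc K)
          (IntermediateField.adjoin (RatFunc K) {b, w}) L,
          IsScalarTower.algebraMap_apply (RatFunc K) (RatFunc (RatFunc K)) L,
          RatFunc.algebraMap_eq_C (K := RatFunc K)]
    · simp
      exact mul_comm _ _
  obtain ⟨M, hM⟩ := mk_model (RatFunc.X : RatFunc K) haX (gen_ratFunc K)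
    (⟨b, hb⟩ : IntermediateField.adjoin (RatFunc K) {b, w}) ⟨w, hw⟩ hh hfinE htopE G0 hG0h hG01
    hrel
  exact ⟨M, by rw [hM, hG0]⟩

end Pool.Agent.LowDeg.LemAModelAux

end P8

open MvPolynomial

namespace Pool.Agent.LowDeg

theorem exists_model {K : Type} [Field K] [CharZero K]
    (D : Derivation K (RatFunc K) (RatFunc K)) (hD : D RatFunc.X = 1) {h : ℕ}
    (G : MvPolynomial (Fin 3) (RatFunc K)) (hG : G.IsHomogeneous h) (hirr : Irreducible G)
    (hh : 1 ≤ h) (hG1 : eval ![0, 0, 1] G = 1) (hQ : G ∣ Qform D G) :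
    ∃ M : CurveModel K h, map (algebraMap (Polynomial K) (RatFunc K)) M.G = G :=
  LemAModelAux.main D hD G hG hirr hh hG1 hQ

end Pool.Agent.LowDeg
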