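import Pool.Agent.LowDeg.Model

/-! Module C1 (doc section 3.1): the equations of the projections, centres of places. -/

set_option autoImplicit false

open Polynomial IntermediateField

namespace Pool.Agent.LowDeg.CurveModel

variable {K : Type} [Field K] [IsAlgClosed K] [CharZero K] {h : ℕ} (M : CurveModel K h)

namespace ModelCentreAux

omit [IsAlgClosed K] [CharZero K]

lemma sum_eq {m : Fin 3 →₀ ℕ} {n : ℕ} (hm : m.degree = n) : m 0 + m 1 + m 2 = n := by
  rw [← hm, Finsupp.degree_eq_sum, Fin.sum_univ_three]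

lemma hom_deg {R : Type} [CommRing R] {G : MvPolynomial (Fin 3) R} {n : ℕ}
    (hG : G.IsHomogeneous n) {m : Fin 3 →₀ ℕ} (hm : m ∈ G.support) : m 0 + m 1 + m 2 = n :=
  sum_eq (by
    have h1 := hG (MvPolynomial.mem_support_iff.1 hm)
    rw [← h1]
    exact DFunLike.congr_fun (Finsupp.degree_eq_weight_one (R := ℕ) (σ := Fin 3)) m)

lemma single_of {m : Fin 3 →₀ ℕ} {n : ℕ} (hm : m 0 + m 1 + m 2 = n) (h2 : m 2 = n) :
    m = Finsupp.single 2 n := by
  ext i
  fin_cases i
  · simp; omega
  · simp; omega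
  · simp [h2]

/-- The coefficient of `X₂^n`. -/
lemma coeff_top {R : Type} [CommRing R] {G : MvPolynomial (Fin 3) R} {n : ℕ}
    (hG : G.IsHomogeneous n) (ht : MvPolynomial.eval ![0, 0, 1] G = 1) :
    G.coeff (Finsupp.single 2 n) = 1 := by
  rw [MvPolynomial.eval_eq'] at ht
  by_cases hs : Finsupp.single 2 n ∈ G.support
  · rw [Finset.sum_eq_single (Finsupp.single 2 n)] at ht
    · rw [Fin.prod_univ_three] at ht
      simpa using ht
    · intro m hm hne
      have h1 := hom_deg hG hm
      have h3 : m 0 ≠ 0 ∨ m 1 ≠ 0 := by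
        by_contra hcon
        push Not at hcon
        exact hne (single_of h1 (by omega))
      rw [Fin.prod_univ_three]
      rcases h3 with h3 | h3 <;> simp [h3]
    · intro h'; exact absurd hs h'
  · have hz : MvPolynomial.eval ![0, 0, 1] G = 0 := by
      rw [MvPolynomial.eval_eq']
      refine Finset.sum_eq_zero fun m hm => ?_
      have h1 := hom_deg hG hm
      have h3 : m 0 ≠ 0 ∨ m 1 ≠ 0 := by
        by_contra hcon
        push Not at hcon
        exact hs (by rw [← single_of h1 (by omega)]; exact hm)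
      rw [Fin.prod_univ_three]
      rcases h3 with h3 | h3 <;> simp [h3]
    rw [MvPolynomial.eval_eq'] at hz
    rw [hz] at ht
    rw [← mul_one (G.coeff (Finsupp.single 2 n)), ← ht, mul_zero]

/-- A general monicity statement: `G(p, q, T)` with `p, q` constants. -/
lemma monic_aux {R S : Type} [CommRing R] [CommRing S] [Nontrivial S] (f : R →+* S)
    (p q : S) {G : MvPolynomial (Fin 3) R} {n : ℕ}
    (hG : G.IsHomogeneous n) (ht : MvPolynomial.eval ![0, 0, 1] G = 1) :
    (MvPolynomial.eval₂ (C.comp f) ![C p, C q, X] G).Monic ∧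
      (MvPolynomial.eval₂ (C.comp f) ![C p, C q, X] G).natDegree = n := by
  have hexp : MvPolynomial.eval₂ (C.comp f) ![C p, C q, X] G =
      ∑ m ∈ G.support, C (f (G.coeff m) * p ^ m 0 * q ^ m 1) * X ^ m 2 := by
    rw [MvPolynomial.eval₂_eq']
    refine Finset.sum_congr rfl fun m _ => ?_
    rw [Fin.prod_univ_three]
    simp [mul_assoc]
  have hdeg : (MvPolynomial.eval₂ (C.comp f) ![C p, C q, X] G).natDegree ≤ n := by
    rw [hexp]
    refine natDegree_sum_le_of_forall_le _ _ fun m hm => ?_
    refine (natDegree_C_mul_X_pow_le _ _).trans ?_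
    have h1 := hom_deg hG hm
    omega
  have hco : (MvPolynomial.eval₂ (C.comp f) ![C p, C q, X] G).coeff n = 1 := by
    rw [hexp, finsetSum_coeff]
    have hcf := coeff_top hG ht
    have hs : Finsupp.single 2 n ∈ G.support ∨ G.coeff (Finsupp.single 2 n) = 0 := by
      by_cases h0 : G.coeff (Finsupp.single 2 n) = 0
      · exact Or.inr h0
      · exact Or.inl (MvPolynomial.mem_support_iff.2 h0)
    rw [Finset.sum_eq_single (Finsupp.single 2 n)]
    · rw [coeff_C_mul_X_pow]
      simp [hcf]
    · intro m hm hne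
      have h1 := hom_deg hG hm
      rw [coeff_C_mul_X_pow, if_neg]
      intro h2
      exact hne (single_of h1 h2.symm)
    · intro h'
      rw [MvPolynomial.mem_support_iff, not_not] at h'
      rw [h']; simp
  exact ⟨monic_of_natDegree_le_of_coeff_eq_one n hdeg hco,
    le_antisymm hdeg (le_natDegree_of_ne_zero (by rw [hco]; exact one_ne_zero))⟩

lemma gpol_eq (l : K) : M.gpol l =
    MvPolynomial.eval₂ (C.comp ((C : K →+* K[X]).comp (evalRingHom l))) ![C 1, C X, X] M.G := by
  rw [gpol, map_one]; rfl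

lemma gpolInf_eq (l : K) : M.gpolInf l =
    MvPolynomial.eval₂ (C.comp ((C : K →+* K[X]).comp (evalRingHom l))) ![C X, C 1, X] M.G := by
  rw [gpolInf, map_one]; rfl

/-- The relation, specialised at `λ = l`. -/
lemma rel_at (l : K) : MvPolynomial.eval₂ ((algebraMap K M.E).comp (evalRingHom l))
    ![1, M.a, M.th l] M.G = 0 := by
  have h1 := congrArg (evalRingHom (algebraMap K M.E l)) M.rel
  rw [map_zero, MvPolynomial.hom_eval₂] at h1
  rw [← h1]
  congr 1
  · ext p
    · simp
    · simp
  · funext i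
    fin_cases i
    · simp
    · simp
    · simp [th]; ring

lemma hom_scale {R S : Type} [CommRing R] [CommRing S] (f : R →+* S) {G : MvPolynomial (Fin 3) R}
    {n : ℕ} (hG : G.IsHomogeneous n) (c : S) (g : Fin 3 → S) :
    MvPolynomial.eval₂ f (fun i => c * g i) G = c ^ n * MvPolynomial.eval₂ f g G := by
  rw [MvPolynomial.eval₂_eq', MvPolynomial.eval₂_eq', Finset.mul_sum]
  refine Finset.sum_congr rfl fun m hm => ?_
  rw [← hom_deg hG hm, Fin.prod_univ_three, Fin.prod_univ_three]
  ring

lemma a_ne : M.a ≠ 0 := by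
  intro h0
  have := M.trans
  rw [h0] at this
  exact this isAlgebraic_zero

/-- Roots of monic polynomials with integral coefficients are integral. -/
lemma int_of_root {E : Type} [Field E] [Algebra K E] (P : Place K E) (t : E) (ht : P.Int t)
    (p : K[X][X]) (hp : p.Monic) (x : E)
    (hx : p.eval₂ (aeval t : K[X] →ₐ[K] E).toRingHom x = 0) : P.Int x := by
  by_contra hcon
  have hs : P.Sm x⁻¹ := Place.sm_inv_of_not_int hcon
  have hx0 : x ≠ 0 := fun h0 => hcon (Or.inl h0)
  rw [eval₂_eq_sum_range, Finset.sum_range_succ, hp.coeff_natDegree, map_one, one_mul] at hx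
  have hint : ∀ q : K[X], P.Int (aeval t q) := by
    intro q
    induction q using Polynomial.induction_on' with
    | add p q hp hq => rw [map_add]; exact hp.add hq
    | monomial n a => rw [aeval_monomial]; exact (P.int_const a).mul (ht.pow n)
  have h1 : (1 : E) = -∑ i ∈ Finset.range p.natDegree,
      (aeval t : K[X] →ₐ[K] E).toRingHom (p.coeff i) * (x⁻¹) ^ (p.natDegree - i) := by
    have h2 : (x⁻¹) ^ p.natDegree * (∑ i ∈ Finset.range p.natDegree,
        (aeval t : K[X] →ₐ[K] E).toRingHom (p.coeff i) * x ^ i + x ^ p.natDegree) = 0 := by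
      rw [hx, mul_zero]
    rw [mul_add, ← mul_pow, inv_mul_cancel₀ hx0, one_pow, Finset.mul_sum] at h2
    rw [← sub_eq_zero, sub_neg_eq_add, add_comm, ← h2]
    congr 1
    refine Finset.sum_congr rfl fun i hi => ?_
    have hi' := Finset.mem_range.1 hi
    obtain ⟨k, hk⟩ := Nat.exists_eq_add_of_le hi'.le
    rw [hk, Nat.add_sub_cancel_left, pow_add]
    have h3 : (x⁻¹) ^ i * x ^ i = 1 := by rw [← mul_pow, inv_mul_cancel₀ hx0, one_pow]
    linear_combination (-((aeval t : K[X] →ₐ[K] E).toRingHom (p.coeff i) * (x⁻¹) ^ k)) * h3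
  apply P.not_sm_one
  rw [h1]
  refine Place.Sm.neg (Place.Sm.sum _ fun i hi => ?_)
  have hi' := Finset.mem_range.1 hi
  refine Place.Int.mul_sm (hint _) ?_
  obtain ⟨k, hk⟩ : ∃ k, p.natDegree - i = k + 1 := ⟨p.natDegree - i - 1, by omega⟩
  rw [hk, pow_succ]
  exact Place.Int.mul_sm (hs.int.pow k) hs

end ModelCentreAux

open ModelCentreAux

theorem gpol_monic (l : K) : (M.gpol l).Monic := by
  rw [gpol_eq]
  exact (monic_aux _ _ _ M.G_hom M.G_top).1

theorem gpol_natDegree (l : K) : (M.gpol l).natDegree = h := by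
  rw [gpol_eq]
  exact (monic_aux _ _ _ M.G_hom M.G_top).2

theorem gpol_root (l : K) : (M.gpol l).eval₂ (aeval M.a : K[X] →ₐ[K] M.E).toRingHom (M.th l) = 0 := by
  rw [gpol, ← coe_eval₂RingHom, MvPolynomial.hom_eval₂, ← rel_at M l]
  congr 1
  · ext p
    · simp
    · simp
  · funext i
    fin_cases i
    · simp
    · simp
    · simp

theorem gpolInf_monic (l : K) : (M.gpolInf l).Monic := by
  rw [gpolInf_eq]
  exact (monic_aux _ _ _ M.G_hom M.G_top).1

theorem gpolInf_root (l : K) :
    (M.gpolInf l).eval₂ (aeval M.a⁻¹ : K[X] →ₐ[K] M.E).toRingHom (M.th l / M.a) = 0 := by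
  have h1 := hom_scale ((algebraMap K M.E).comp (evalRingHom l)) M.G_hom M.a⁻¹
    ![1, M.a, M.th l]
  rw [rel_at M l, mul_zero] at h1
  rw [gpolInf, ← coe_eval₂RingHom, MvPolynomial.hom_eval₂, ← h1]
  congr 1
  · ext p
    · simp
    · simp
  · funext i
    fin_cases i
    · simp
    · simp [a_ne M]
    · simp [div_eq_mul_inv, mul_comm]

theorem int_b (P : Place K M.E) (hP : P.Int M.a) : P.Int M.b := by
  have h1 := int_of_root P M.a hP _ (M.gpol_monic 0) _ (M.gpol_root 0)
  have h2 : M.th 0 = M.b := by simp [th]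
  rwa [h2] at h1

theorem int_w (P : Place K M.E) (hP : P.Int M.a) : P.Int M.w := by
  have h1 := int_of_root P M.a hP _ (M.gpol_monic 1) _ (M.gpol_root 1)
  have h2 : M.w = M.th 1 - M.b := by simp [th]
  rw [h2]
  exact h1.sub (M.int_b P hP)

theorem int_b_div (P : Place K M.E) (hP : ¬ P.Int M.a) : P.Int (M.b / M.a) := by
  have hs : P.Sm M.a⁻¹ := Place.sm_inv_of_not_int hP
  have h1 := int_of_root P M.a⁻¹ hs.int _ (M.gpolInf_monic 0) _ (M.gpolInf_root 0)
  have h2 : M.th 0 = M.b := by simp [th]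
  rwa [h2] at h1

theorem int_w_div (P : Place K M.E) (hP : ¬ P.Int M.a) : P.Int (M.w / M.a) := by
  have hs : P.Sm M.a⁻¹ := Place.sm_inv_of_not_int hP
  have h1 := int_of_root P M.a⁻¹ hs.int _ (M.gpolInf_monic 1) _ (M.gpolInf_root 1)
  have h2 : M.w / M.a = M.th 1 / M.a - M.b / M.a := by simp [th, ← sub_div]
  rw [h2]
  exact h1.sub (M.int_b_div P hP)

theorem exists_centre (P : Place K M.E) (hP : P.Int M.a) : ∃ z, M.IsCentre P z := by
  have h1 : ∀ i, ∃ c, P.IsVal (M.pt i) c := by
    intro i
    apply Place.Int.exists_isVal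
    fin_cases i
    · exact P.int_one
    · exact hP
    · exact M.int_b P hP
    · exact M.int_w P hP
  choose z hz using h1
  exact ⟨z, hz⟩

theorem exists_centreInf (P : Place K M.E) (hP : ¬ P.Int M.a) : ∃ z, M.IsCentreInf P z := by
  have hs : P.Sm M.a⁻¹ := Place.sm_inv_of_not_int hP
  have h1 : ∀ i, ∃ c, P.IsVal (M.pt i / M.a) c := by
    intro i
    apply Place.Int.exists_isVal
    fin_cases i
    · change P.Int (1 / M.a); rw [one_div]; exact hs.int
    · change P.Int (M.a / M.a); rw [div_self (a_ne M)]; exact P.int_one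
    · exact M.int_b_div P hP
    · exact M.int_w_div P hP
  choose z hz using h1
  exact ⟨z, hz⟩

namespace ModelCentreAux

/-- `On` from values. -/
lemma on_of_val {P : Place K M.E} {z : Fin 4 → K} (c : M.E)
    (hz : ∀ i, P.IsVal (c * M.pt i) (z i)) : M.On z := by
  rw [On]
  apply Polynomial.funext
  intro l
  rw [eval_zero]
  have h1 : eval l (MvPolynomial.eval (uK z) M.G) =
      MvPolynomial.aeval ![z 0, z 1, z 2 + l * z 3]
        (MvPolynomial.map (evalRingHom l) M.G) := by
    rw [← coe_evalRingHom, MvPolynomial.eval, MvPolynomial.coe_eval₂Hom, MvPolynomial.hom_eval₂,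
      MvPolynomial.aeval_def, MvPolynomial.eval₂_map]
    congr 1
    funext i
    fin_cases i
    · simp [uK]
    · simp [uK]
    · simp [uK]; ring
  have h2 : P.IsVal (MvPolynomial.aeval ![c * 1, c * M.a, c * M.th l]
      (MvPolynomial.map (evalRingHom l) M.G)) (eval l (MvPolynomial.eval (uK z) M.G)) := by
    rw [h1]
    refine Place.IsVal.aeval (fun i => ?_) _
    fin_cases i
    · exact hz 0
    · exact hz 1
    · have h3 := (hz 2).add ((P.isVal_const l).mul (hz 3))
      have h4 : c * M.pt 2 + algebraMap K M.E l * (c * M.pt 3) = c * M.th l := by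
        simp only [pt, th]
        simp
        ring
      rw [h4] at h3
      exact h3
  have h5 : MvPolynomial.aeval ![c * 1, c * M.a, c * M.th l]
      (MvPolynomial.map (evalRingHom l) M.G) = 0 := by
    have h6 := hom_scale ((algebraMap K M.E).comp (evalRingHom l)) M.G_hom c ![1, M.a, M.th l]
    rw [rel_at M l, mul_zero] at h6
    rw [MvPolynomial.aeval_def, MvPolynomial.eval₂_map, ← h6]
    congr 1
    funext i
    fin_cases i <;> simp
  rw [h5] at h2
  exact h2.unique (Place.isVal_zero_iff.2 P.sm_zero)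

end ModelCentreAux

variable {M}

theorem IsCentre.on {P : Place K M.E} {z : Fin 4 → K} (h : M.IsCentre P z) :
    z 0 = 1 ∧ M.On z := by
  refine ⟨(h 0).unique P.isVal_one, on_of_val M (P := P) 1 fun i => ?_⟩
  rw [one_mul]; exact h i

theorem IsCentreInf.on {P : Place K M.E} (hP : ¬ P.Int M.a) {z : Fin 4 → K}
    (h : M.IsCentreInf P z) : z 0 = 0 ∧ z 1 = 1 ∧ M.On z := by
  have hs : P.Sm M.a⁻¹ := Place.sm_inv_of_not_int hP
  refine ⟨(h 0).unique ?_, (h 1).unique ?_, on_of_val M (P := P) M.a⁻¹ fun i => ?_⟩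
  · change P.IsVal (1 / M.a) 0
    rw [one_div]
    exact Place.isVal_zero_iff.2 hs
  · change P.IsVal (M.a / M.a) 1
    rw [div_self (a_ne M)]
    exact P.isVal_one
  · rw [mul_comm, ← div_eq_mul_inv]; exact h i

end Pool.Agent.LowDeg.CurveModel
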