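import Pool.Agent.LowDeg.SpecEff
import Pool.Agent.LowDeg.ChowFamily
import Pool.Agent.LowDeg.ModelCentre

/-! Module FA3 (doc section 16): specialisation of the cycle of a curve section. -/

set_option autoImplicit false

open MvPolynomial
open scoped LinearAlgebra.Projectivization

namespace Pool.Agent.LowDeg

open Pool.Agent.Chow0 (IsChowForm cyc CH0 Z0 ratTriv)

namespace SpecCycleAux

section Tau

variable {S T : Type*} [CommRing S] [Algebra ℂ S] [CommRing T] [Algebra ℂ T]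

/-- linear substitution of the dual variables -/
noncomputable def tau (A : Matrix (Fin 4) (Fin 4) ℂ) :
    MvPolynomial (Fin 4) S →ₐ[S] MvPolynomial (Fin 4) S :=
  aeval (fun k => ∑ j, C (algebraMap ℂ S (A j k)) * X j)

/-- the matrix acting on vectors -/
noncomputable def act (A : Matrix (Fin 4) (Fin 4) ℂ) (z : Fin 4 → S) : Fin 4 → S :=
  fun j => ∑ k, algebraMap ℂ S (A j k) * z k

lemma tau_linF (A : Matrix (Fin 4) (Fin 4) ℂ) (z : Fin 4 → S) :
    tau A (linF z) = linF (act A z) := by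
  unfold tau linF act
  rw [map_sum]
  simp only [map_mul, aeval_X, map_sum, Finset.mul_sum, Finset.sum_mul]
  rw [Finset.sum_comm]
  apply Finset.sum_congr rfl
  intro j _
  apply Finset.sum_congr rfl
  intro k _
  rw [aeval_C, MvPolynomial.algebraMap_eq]
  ring

lemma map_tau (f : S →+* T) (hf : ∀ x : ℂ, f (algebraMap ℂ S x) = algebraMap ℂ T x)
    (A : Matrix (Fin 4) (Fin 4) ℂ) (p : MvPolynomial (Fin 4) S) :
    map f (tau A p) = tau A (map f p) := by
  induction p using MvPolynomial.induction_on with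
  | C a =>
    rw [← MvPolynomial.algebraMap_eq, AlgHom.commutes, MvPolynomial.algebraMap_eq, map_C,
      ← MvPolynomial.algebraMap_eq, AlgHom.commutes]
  | add p q hp hq => rw [map_add, map_add, map_add, map_add, hp, hq]
  | mul_X p i hp =>
    rw [map_mul, map_mul, map_mul, map_mul, hp, map_X]
    congr 1
    unfold tau
    rw [aeval_X, aeval_X, map_sum]
    apply Finset.sum_congr rfl
    intro j _
    rw [map_mul, map_C, map_X, hf]

lemma tau_C (A : Matrix (Fin 4) (Fin 4) ℂ) (a : S) : tau A (C a) = C a := by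
  rw [← MvPolynomial.algebraMap_eq, AlgHom.commutes]

lemma tau_prod (A : Matrix (Fin 4) (Fin 4) ℂ) (m : Multiset (Fin 4 → S)) :
    tau A (m.map linF).prod = ((m.map (act A)).map linF).prod := by
  rw [map_multiset_prod, Multiset.map_map, Multiset.map_map]
  congr 1
  apply Multiset.map_congr rfl
  intro z _
  exact tau_linF A z

lemma act_map (f : S →+* T) (hf : ∀ x : ℂ, f (algebraMap ℂ S x) = algebraMap ℂ T x)
    (A : Matrix (Fin 4) (Fin 4) ℂ) (z : Fin 4 → S) (i : Fin 4) :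
    f (act A z i) = act A (fun j => f (z j)) i := by
  unfold act
  rw [map_sum]
  apply Finset.sum_congr rfl
  intro k _
  rw [map_mul, hf]

omit [Algebra ℂ S] [Algebra ℂ T] in
lemma map_linF (f : S →+* T) (z : Fin 4 → S) : map f (linF z) = linF (fun i => f (z i)) := by
  unfold linF
  rw [map_sum]
  apply Finset.sum_congr rfl
  intro j _
  rw [map_mul, map_C, map_X]

omit [Algebra ℂ S] [Algebra ℂ T] in
lemma map_linF_prod (f : S →+* T) (m : Multiset (Fin 4 → S)) :
    map f (m.map linF).prod = ((m.map (fun z i => f (z i))).map linF).prod := by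
  rw [map_multiset_prod, Multiset.map_map, Multiset.map_map]
  congr 1
  apply Multiset.map_congr rfl
  intro z _
  exact map_linF f z

/-- scaling -/
lemma aeval_mul_of_hom {P : MvPolynomial (Fin 4) ℂ} {e : ℕ} (hP : P.IsHomogeneous e) (c : S)
    (z : Fin 4 → S) : aeval (fun i => c * z i) P = c ^ e * aeval z P := by
  rw [aeval_def, aeval_def, eval₂_eq', eval₂_eq', Finset.mul_sum]
  apply Finset.sum_congr rfl
  intro m hm
  have hdeg : ∑ i, m i = e := by
    have := hP (mem_support_iff.1 hm)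
    rw [Finsupp.weight_apply, Finsupp.sum_fintype] at this
    · simpa using this
    · intro i; simp
  have h1 : ∏ i, (c * z i) ^ m i = c ^ e * ∏ i, z i ^ m i := by
    rw [← hdeg, ← Finset.prod_pow_eq_pow_sum, ← Finset.prod_mul_distrib]
    apply Finset.prod_congr rfl
    intro i _
    rw [mul_pow]
  rw [h1]
  ring

lemma aeval_FL (L : Matrix (Fin 4) (Fin 4) ℂ) (F : MvPolynomial (Fin 4) ℂ) (z : Fin 4 → S) :
    aeval z (FL L F) = aeval (act L⁻¹ z) F := by
  unfold FL
  rw [aeval_bind₁]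
  congr 2
  funext i
  unfold act
  rw [map_sum]
  apply Finset.sum_congr rfl
  intro j _
  rw [map_mul, aeval_C, aeval_X]

lemma FL_hom (L : Matrix (Fin 4) (Fin 4) ℂ) {F : MvPolynomial (Fin 4) ℂ} {d : ℕ}
    (hF : F.IsHomogeneous d) : (FL L F).IsHomogeneous d := by
  have h := hF.aeval (fun i => ∑ j, C (L⁻¹ i j) * X j : Fin 4 → MvPolynomial (Fin 4) ℂ) (n := 1) (by
    intro i
    apply IsHomogeneous.sum
    intro j _
    have := (isHomogeneous_C (Fin 4) (L⁻¹ i j)).mul (isHomogeneous_X ℂ j)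
    simpa using this)
  rw [one_mul] at h
  exact h

end Tau

variable {K : Type} [Field K] [Algebra ℂ K]

lemma LK_eq_act (L : Matrix (Fin 4) (Fin 4) ℂ) (z : Fin 4 → K) : LK L z = act L z := by
  funext i
  rfl

lemma act_inv_row (L : Matrix (Fin 4) (Fin 4) ℂ) (hL : IsUnit L.det) (z : Fin 4 → K) :
    ∑ i, algebraMap ℂ K (L 0 i) * act L⁻¹ z i = z 0 := by
  have h1 : L * L⁻¹ = 1 := Matrix.mul_nonsing_inv L hL
  have h2 : ∀ k, ∑ i, L 0 i * L⁻¹ i k = (1 : Matrix (Fin 4) (Fin 4) ℂ) 0 k := by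
    intro k
    rw [← h1, Matrix.mul_apply]
  unfold act
  simp_rw [Finset.mul_sum]
  rw [Finset.sum_comm]
  have h3 : ∀ k, ∑ i, algebraMap ℂ K (L 0 i) * (algebraMap ℂ K (L⁻¹ i k) * z k) =
      algebraMap ℂ K ((1 : Matrix (Fin 4) (Fin 4) ℂ) 0 k) * z k := by
    intro k
    rw [← h2, map_sum, Finset.sum_mul]
    apply Finset.sum_congr rfl
    intro i _
    rw [map_mul]
    ring
  rw [Finset.sum_congr rfl (fun k _ => h3 k)]
  simp [Matrix.one_apply]

/-- the representative of the projective point of a nonzero vector -/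
lemma pp_rep {k : Type} [Field k] (v : Fin 4 → k) (hv : v ≠ 0) :
    ∃ a : k, a ≠ 0 ∧ ∀ i, (pp v).rep i = a * v i := by
  obtain ⟨a, ha⟩ := Projectivization.exists_smul_eq_mk_rep k v hv
  refine ⟨a, a.ne_zero, fun i => ?_⟩
  unfold pp
  rw [dif_pos hv, ← ha]
  rfl

lemma pp_rep_div {k : Type} [Field k] (v : Fin 4 → k) (hv : v ≠ 0) (i j : Fin 4) :
    (pp v).rep i / (pp v).rep j = v i / v j := by
  obtain ⟨a, ha, h⟩ := pp_rep v hv
  rw [h, h]
  exact mul_div_mul_left _ _ ha

omit [Algebra ℂ K] in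
open scoped Classical in
/-- the first nonzero coordinate -/
lemma first_coord (u : Fin 4 → K) (hu : u ≠ 0) (i₀ : Fin 4)
    (h : i₀ = if u 0 ≠ 0 then 0 else if u 1 ≠ 0 then 1 else if u 2 ≠ 0 then 2 else 3) :
    u i₀ ≠ 0 ∧ ∀ k, k < i₀ → u k = 0 := by
  by_cases h0 : u 0 ≠ 0
  · rw [if_pos h0] at h
    subst h
    exact ⟨h0, fun k hk => absurd hk (Fin.not_lt_zero k)⟩
  rw [if_neg h0] at h
  rw [not_not] at h0
  by_cases h1 : u 1 ≠ 0
  · rw [if_pos h1] at h
    subst h
    refine ⟨h1, fun k hk => ?_⟩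
    have : k = 0 := by
      apply Fin.ext
      have : k.val < 1 := hk
      change k.val = 0
      omega
    rw [this, h0]
  rw [if_neg h1] at h
  rw [not_not] at h1
  by_cases h2 : u 2 ≠ 0
  · rw [if_pos h2] at h
    subst h
    refine ⟨h2, fun k hk => ?_⟩
    have hk2 : k.val < 2 := hk
    have : k = 0 ∨ k = 1 := by
      rcases Nat.lt_or_ge k.val 1 with h | h
      · left; apply Fin.ext; change k.val = 0; omega
      · right; apply Fin.ext; change k.val = 1; omega
    rcases this with rfl | rfl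
    · exact h0
    · exact h1
  rw [if_neg h2] at h
  rw [not_not] at h2
  subst h
  refine ⟨fun h3 => hu ?_, fun k hk => ?_⟩
  · funext k
    fin_cases k
    · exact h0
    · exact h1
    · exact h2
    · exact h3
  · have hk2 : k.val < 3 := hk
    have : k = 0 ∨ k = 1 ∨ k = 2 := by
      rcases Nat.lt_or_ge k.val 1 with h | h
      · left; apply Fin.ext; change k.val = 0; omega
      · rcases Nat.lt_or_ge k.val 2 with h' | h'
        · right; left; apply Fin.ext; change k.val = 1; omega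
        · right; right; apply Fin.ext; change k.val = 2; omega
    rcases this with rfl | rfl | rfl
    · exact h0
    · exact h1
    · exact h2

variable [CharZero K]

/-- the specialised point of a point with coordinates in `R` -/
lemma spPt_spec {F : MvPolynomial (Fin 4) ℂ} {ξ : Fin 4 → K} {R : Subalgebra ℂ K}
    {p : surf F} (s : SpecAt F ξ R p) (v : Fin 4 → K) (hvR : ∀ i, v i ∈ R) (hin : InR R (pp v))
    (ℓ : Fin 4 → ℂ) (hℓ : ∑ i, algebraMap ℂ K (ℓ i) * v i = 1) {d : ℕ} (hF : F.IsHomogeneous d)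
    (hFv : aeval v F = 0) :
    spPt s (pp v) ∈ surf F ∧ ∃ c : ℂ, c ≠ 0 ∧ ∀ i, (spPt s (pp v)).rep i = c * s.φ ⟨v i, hvR i⟩ := by
  classical
  have hv : v ≠ 0 := by
    rintro rfl
    simp at hℓ
  set q := pp v with hq
  have hqne : q.rep ≠ 0 := Projectivization.rep_nonzero q
  set i₀ : Fin 4 := if q.rep 0 ≠ 0 then 0 else if q.rep 1 ≠ 0 then 1 else
    if q.rep 2 ≠ 0 then 2 else 3 with hi₀
  obtain ⟨hne, hlt⟩ := first_coord q.rep hqne i₀ hi₀
  have hmem : ∀ i, q.rep i / q.rep i₀ ∈ R := fun i => hin i i₀ hne hlt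
  have hdiv : ∀ i, q.rep i / q.rep i₀ = v i / v i₀ := fun i => pp_rep_div v hv i i₀
  have hv0 : v i₀ ≠ 0 := by
    obtain ⟨a, ha, h⟩ := pp_rep v hv
    intro h0
    apply hne
    rw [hq, h, h0, mul_zero]
  set w : Fin 4 → ℂ := fun i => if h : q.rep i / q.rep i₀ ∈ R then s.φ ⟨q.rep i / q.rep i₀, h⟩ else 0
    with hw
  have hsp : spPt s q = pp w := rfl
  have hwi : ∀ i, s.φ ⟨v i, hvR i⟩ = s.φ ⟨v i₀, hvR i₀⟩ * w i := by
    intro i
    have h1 : w i = s.φ ⟨q.rep i / q.rep i₀, hmem i⟩ := by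
      rw [hw]
      exact dif_pos (hmem i)
    rw [h1, ← map_mul]
    congr 1
    apply Subtype.ext
    change v i = v i₀ * (q.rep i / q.rep i₀)
    rw [hdiv i]
    field_simp
  have hsum : ∑ i, ℓ i * s.φ ⟨v i, hvR i⟩ = 1 := by
    have h1 : ∑ i, algebraMap ℂ R (ℓ i) * ⟨v i, hvR i⟩ = (1 : R) := by
      apply Subtype.ext
      rw [AddSubmonoidClass.coe_finsetSum]
      exact hℓ
    have h2 := congrArg s.φ h1
    rw [map_sum, map_one] at h2
    rw [← h2]
    apply Finset.sum_congr rfl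
    intro i _
    rw [map_mul, AlgHom.commutes]
    rfl
  have hc0 : s.φ ⟨v i₀, hvR i₀⟩ ≠ 0 := by
    intro h0
    have : ∑ i, ℓ i * s.φ ⟨v i, hvR i⟩ = 0 := by
      apply Finset.sum_eq_zero
      intro i _
      rw [hwi i, h0, zero_mul, mul_zero]
    rw [this] at hsum
    exact zero_ne_one hsum
  have hwne : w ≠ 0 := by
    intro h0
    have : ∑ i, ℓ i * s.φ ⟨v i, hvR i⟩ = 0 := by
      apply Finset.sum_eq_zero
      intro i _
      rw [hwi i, h0]
      simp
    rw [this] at hsum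
    exact zero_ne_one hsum
  obtain ⟨a, ha, hrep⟩ := pp_rep w hwne
  have hrep2 : ∀ i, (spPt s q).rep i = (a / s.φ ⟨v i₀, hvR i₀⟩) * s.φ ⟨v i, hvR i⟩ := by
    intro i
    rw [hsp, hrep i, hwi i]
    field_simp
  refine ⟨?_, _, div_ne_zero ha hc0, hrep2⟩
  change aeval (spPt s q).rep F = 0
  have h1 : (spPt s q).rep = fun i => (a / s.φ ⟨v i₀, hvR i₀⟩) * s.φ ⟨v i, hvR i⟩ := funext hrep2
  rw [h1, aeval_mul_of_hom hF]
  have h2 : aeval (fun i => s.φ ⟨v i, hvR i⟩) F = s.φ (aeval (fun i => (⟨v i, hvR i⟩ : R)) F) := by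
    rw [MvPolynomial.comp_aeval_apply]
  have h3 : aeval (fun i => (⟨v i, hvR i⟩ : R)) F = 0 := by
    apply Subtype.ext
    have h4 : ((aeval (fun i => (⟨v i, hvR i⟩ : R)) F : R) : K) = R.val (aeval (fun i => (⟨v i, hvR i⟩ : R)) F) := rfl
    rw [h4]
    have h5 : R.val (aeval (fun i => (⟨v i, hvR i⟩ : R)) F) = aeval (fun i => R.val (⟨v i, hvR i⟩ : R)) F := by
      rw [MvPolynomial.comp_aeval_apply]
    rw [h5]
    exact hFv
  rw [h2, h3, map_zero, mul_zero]


omit K [Field K] [Algebra ℂ K] [CharZero K] in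
lemma rel_nsmul {α β : Type*} {r : α → β → Prop} {A : Multiset α} {B : Multiset β}
    (h : Multiset.Rel r A B) (n : ℕ) : Multiset.Rel r (n • A) (n • B) := by
  induction n with
  | zero => rw [zero_nsmul, zero_nsmul]; exact Multiset.Rel.zero
  | succ n ih => rw [succ_nsmul, succ_nsmul]; exact Multiset.Rel.add ih h

section Lift

omit [CharZero K]

open Polynomial in
lemma lift_poly (R : Subalgebra ℂ K) (p : K[X]) (hp : ∀ x ∈ p.coeffs, x ∈ R) :
    ∃ p' : Polynomial R, p'.map R.val.toRingHom = p := by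
  have h : p ∈ (mapRingHom R.val.toRingHom).range := by
    rw [Polynomial.mem_map_range]
    intro n
    by_cases hn : p.coeff n = 0
    · rw [hn]; exact zero_mem _
    · exact ⟨⟨p.coeff n, hp _ (Polynomial.mem_coeffs_iff.2 ⟨n, Polynomial.mem_support_iff.2 hn, rfl⟩)⟩, rfl⟩
  obtain ⟨p', hp'⟩ := h
  exact ⟨p', hp'⟩

open Polynomial in
lemma lift_mv (R : Subalgebra ℂ K) (P : MvPolynomial (Fin 4) K[X])
    (hP : ∀ p ∈ P.coeffs, ∀ x ∈ p.coeffs, x ∈ R) :
    ∃ P' : MvPolynomial (Fin 4) (Polynomial R), map (mapRingHom R.val.toRingHom) P' = P := by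
  have h : P ∈ Set.range (MvPolynomial.map (σ := Fin 4) (mapRingHom R.val.toRingHom)) := by
    rw [mem_range_map_iff_coeffs_subset]
    intro p hp
    obtain ⟨p', hp'⟩ := lift_poly R p (hP p hp)
    exact ⟨p', hp'⟩
  obtain ⟨P', hP'⟩ := h
  exact ⟨P', hP'⟩

open Polynomial in
lemma eval_lift (R : Subalgebra ℂ K) (s : R) (P : MvPolynomial (Fin 4) (Polynomial R)) :
    map (R.val.toRingHom.comp (evalRingHom s)) P =
      map (evalRingHom (s : K)) (map (mapRingHom R.val.toRingHom) P) := by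
  have h : R.val.toRingHom.comp (evalRingHom s) =
      (evalRingHom (s : K)).comp (mapRingHom R.val.toRingHom) := by
    apply RingHom.ext
    intro p
    change R.val.toRingHom (Polynomial.eval s p) =
      Polynomial.eval (s : K) (Polynomial.map R.val.toRingHom p)
    rw [Polynomial.eval_map]
    exact (Polynomial.eval₂_at_apply R.val.toRingHom s).symm
  rw [MvPolynomial.map_map, h]

end Lift

omit [Algebra ℂ K] [CharZero K] in
lemma prod_eq (μ : (Fin 4 → K) →₀ ℕ) :
    (μ.prod fun z k => linF z ^ k) = ((Finsupp.toMultiset μ).map linF).prod := by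
  classical
  rw [Finset.prod_multiset_map_count, Finsupp.toFinset_toMultiset]
  unfold Finsupp.prod
  apply Finset.prod_congr rfl
  intro z _
  rw [Finsupp.count_toMultiset]

/-- the line section: the restriction of the form to the line, over `ℂ` -/
noncomputable def gl (G : MvPolynomial (Fin 4) ℂ) (β₂ β₃ : ℂ) : Polynomial ℂ :=
  aeval ![1, Polynomial.X, Polynomial.C β₂ * Polynomial.X, Polynomial.C β₃ * Polynomial.X] G

omit [CharZero K] in
lemma gl_map (G : MvPolynomial (Fin 4) ℂ) (β₂ β₃ : ℂ) :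
    (aeval ![1, Polynomial.X, Polynomial.C (algebraMap ℂ K β₂) * Polynomial.X,
      Polynomial.C (algebraMap ℂ K β₃) * Polynomial.X] (map (algebraMap ℂ K) G) : Polynomial K) =
      (gl G β₂ β₃).map (algebraMap ℂ K) := by
  unfold gl
  have h1 : (aeval ![1, Polynomial.X, Polynomial.C β₂ * Polynomial.X, Polynomial.C β₃ * Polynomial.X] G : Polynomial ℂ).map
      (algebraMap ℂ K) = Polynomial.mapAlgHom (Algebra.ofId ℂ K) (aeval ![1, Polynomial.X, Polynomial.C β₂ * Polynomial.X, Polynomial.C β₃ * Polynomial.X] G) := rfl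
  rw [h1, MvPolynomial.comp_aeval_apply, MvPolynomial.aeval_map_algebraMap]
  congr 2
  funext i
  fin_cases i <;> simp

lemma eval_gl (G : MvPolynomial (Fin 4) ℂ) (β₂ β₃ a₀ : ℂ) :
    (gl G β₂ β₃).eval a₀ = aeval ![1, a₀, β₂ * a₀, β₃ * a₀] G := by
  unfold gl
  have h1 : ∀ p : Polynomial ℂ, p.eval a₀ = Polynomial.aeval a₀ p := fun p => by
    rw [Polynomial.coe_aeval_eq_eval]
  rw [h1, MvPolynomial.comp_aeval_apply]
  congr 2
  funext i
  fin_cases i <;> simp

end SpecCycleAux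

open SpecCycleAux in
/-- (FA3) specialisation of the rational equivalence of a curve section with a multiple of a line
section: for `R` large enough the class of the specialised cycle of a curve model does not depend on
the specialisation. -/
theorem cycle_spec {K : Type} [Field K] [IsAlgClosed K] [CharZero K] [Algebra ℂ K]
    {F : MvPolynomial (Fin 4) ℂ} {d : ℕ} (hF : IsSmoothForm F d) (hd : 1 ≤ d)
    {ξ : Fin 4 → K} (hξ : IsGenericPoint F ξ) (L : Matrix (Fin 4) (Fin 4) ℂ) (hL : IsUnit L.det)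
    {h : ℕ} (M : CurveModel K h) (μ : (Fin 4 → K) →₀ ℕ)
    (cycle : M.IsCycle (M.xF (FL L F)) μ) (xF_ne : M.xF (FL L F) ≠ 0)
    (inf : ∀ z : Fin 4 → K, z ≠ 0 → z 0 = 0 → aeval z (FL L F) = 0 → ¬ M.On z)
    (β₂ β₃ : ℂ) (hβ : aeval ![0, 1, β₂, β₃] (FL L F) ≠ 0) :
    ∃ (A : Finset K) (ζ : CH0 (surf F)), ∀ R : Subalgebra ℂ K, (∀ i, ξ i ∈ R) →
      (A : Set K) ⊆ R →
      (∀ z, μ z ≠ 0 → InR R (pp (LK L⁻¹ z))) ∧
      ∀ (p : surf F) (s : SpecAt F ξ R p),
        ∃ t : Multiset (surf F),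
          t.map Subtype.val =
            Multiset.map (fun z => spPt s (pp (LK L⁻¹ z))) (Finsupp.toMultiset μ) ∧
          (QuotientAddGroup.mk (cyc t) : CH0 (surf F)) = ζ := by
  classical
  set F' : MvPolynomial (Fin 4) K := map (algebraMap ℂ K) (FL L F) with hF'
  have hFhom : F'.IsHomogeneous d := (FL_hom L hF.hom).map _
  have hevalF' : ∀ z : Fin 4 → K, eval z F' = aeval z (FL L F) := by
    intro z
    rw [hF', eval_map]
    rfl
  have hinf' : ∀ z : Fin 4 → K, z 0 = 0 → z 1 = 1 → M.On z → eval z F' ≠ 0 := by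
    intro z hz0 hz1 hon h0
    rw [hevalF'] at h0
    refine inf z ?_ hz0 h0 hon
    intro hz
    rw [hz] at hz1
    exact zero_ne_one hz1
  have hβ' : eval ![0, 1, algebraMap ℂ K β₂, algebraMap ℂ K β₃] F' ≠ 0 := by
    rw [hevalF']
    have h1 : aeval ![0, 1, algebraMap ℂ K β₂, algebraMap ℂ K β₃] (FL L F) =
        algebraMap ℂ K (aeval ![0, 1, β₂, β₃] (FL L F)) := by
      have h2 : algebraMap ℂ K (aeval ![0, 1, β₂, β₃] (FL L F)) =
          (Algebra.ofId ℂ K) (aeval ![0, 1, β₂, β₃] (FL L F)) := rfl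
      rw [h2, MvPolynomial.comp_aeval_apply]
      congr 2
      funext i
      fin_cases i <;> simp [Algebra.ofId_apply]
    rw [h1]
    exact (map_ne_zero _).2 hβ
  obtain ⟨c, N, FF', hc0, hc1, hfam, h0, h1⟩ := chow_family F' hFhom M xF_ne hinf' μ cycle
    (algebraMap ℂ K β₂) (algebraMap ℂ K β₃) hβ'
  -- transform to the original coordinates
  set FFK : MvPolynomial (Fin 4) (Polynomial K) := tau L⁻¹ FF' with hFFK
  have hev : ∀ s x, (Polynomial.evalRingHom s) (algebraMap ℂ (Polynomial K) x) = algebraMap ℂ K x := by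
    intro s x
    rw [IsScalarTower.algebraMap_apply ℂ K (Polynomial K), Polynomial.algebraMap_eq,
      Polynomial.coe_evalRingHom, Polynomial.eval_C]
  have hmapK : ∀ s : K, map (Polynomial.evalRingHom s) FFK =
      tau L⁻¹ (map (Polynomial.evalRingHom s) FF') := fun s => map_tau _ (hev s) _ _
  -- support of μ
  have hμ : ∀ z, μ z ≠ 0 → z 0 = 1 ∧ aeval z (FL L F) = 0 := by
    obtain ⟨S, ctr, hS, hctr, hsum⟩ := cycle
    intro z hz
    have h2 : ∃ P ∈ S, ctr P = z := by
      by_contra hcon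
      push Not at hcon
      apply hz
      have h3 := hsum z
      rw [Finset.sum_eq_zero (fun P hP => if_neg (hcon P hP))] at h3
      exact_mod_cast h3
    obtain ⟨P, hP, rfl⟩ := h2
    have hcen := hctr P hP
    refine ⟨(CurveModel.IsCentre.on hcen).1, ?_⟩
    by_contra hne
    apply ((hS P).1 hP).2
    have h4 : P.IsVal (aeval M.pt F') (aeval (ctr P) F') := Place.IsVal.aeval hcen F'
    apply h4.ord_eq_zero
    have h5 : aeval (ctr P) F' = eval (ctr P) F' := by
      rw [MvPolynomial.aeval_def, Algebra.algebraMap_self]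
      rfl
    rw [h5, hevalF']
    exact hne
  have hμmem : ∀ z ∈ Finsupp.toMultiset μ, μ z ≠ 0 := by
    intro z hz
    rw [Finsupp.mem_toMultiset, Finsupp.mem_support_iff] at hz
    exact hz
  have hrow : ∀ z : Fin 4 → K, ∑ i, algebraMap ℂ K (L 0 i) * act L⁻¹ z i = z 0 := act_inv_row L hL
  have hrowC : ∀ z : Fin 4 → ℂ, ∑ i, L 0 i * act L⁻¹ z i = z 0 := fun z => by
    have := act_inv_row (K := ℂ) L hL z
    simpa using this
  -- complex points of the line section
  set v₁ : ℂ → Fin 4 → ℂ := fun a₀ => act L⁻¹ ![1, a₀, β₂ * a₀, β₃ * a₀] with hv₁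
  set gC := gl (FL L F) β₂ β₃ with hgC
  have hv₁F : ∀ a₀, gC.eval a₀ = aeval (v₁ a₀) F := by
    intro a₀
    rw [hgC, eval_gl, aeval_FL]
  have hv₁row : ∀ a₀, ∑ i, L 0 i * v₁ a₀ i = 1 := by
    intro a₀
    rw [hv₁, hrowC]
    rfl
  have hv₁ne : ∀ a₀, v₁ a₀ ≠ 0 := by
    intro a₀ h0
    have := hv₁row a₀
    rw [h0] at this
    simp at this
  have hQmem : ∀ a₀, gC.eval a₀ = 0 → pp (v₁ a₀) ∈ surf F := by
    intro a₀ ha₀
    change aeval (pp (v₁ a₀)).rep F = 0
    obtain ⟨b, hb, hrep⟩ := pp_rep (v₁ a₀) (hv₁ne a₀)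
    have : (pp (v₁ a₀)).rep = fun i => b * v₁ a₀ i := funext hrep
    rw [this, aeval_mul_of_hom hF.hom, ← hv₁F, ha₀, mul_zero]
  have hroots : ∀ a₀ ∈ gC.roots, gC.eval a₀ = 0 := fun a₀ ha₀ => Polynomial.isRoot_of_mem_roots ha₀
  set S₁ : Multiset (surf F) := h • (gC.roots.pmap (fun a₀ ha₀ => ⟨pp (v₁ a₀), hQmem a₀ ha₀⟩) hroots) with hS₁
  -- the finite set
  set A : Finset K := FFK.coeffs.biUnion (fun q => q.coeffs) ∪ (c.coeffs ∪ ({(c.eval 0)⁻¹, (c.eval 1)⁻¹} ∪
    (μ.support.biUnion (fun z => Finset.univ.image (fun i => act L⁻¹ z i)) ∪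
      μ.support.biUnion (fun z => (Finset.univ ×ˢ Finset.univ).image
        (fun q : Fin 4 × Fin 4 => act L⁻¹ z q.1 / act L⁻¹ z q.2))))) with hA
  refine ⟨A, QuotientAddGroup.mk (cyc S₁), ?_⟩
  intro R hξR hAR
  have hA1 : ∀ q ∈ FFK.coeffs, ∀ x ∈ q.coeffs, x ∈ R := by
    intro q hq x hx
    apply hAR
    rw [hA, Finset.mem_coe, Finset.mem_union]
    left
    exact Finset.mem_biUnion.2 ⟨q, hq, hx⟩
  have hA2 : ∀ x ∈ c.coeffs, x ∈ R := by
    intro x hx
    apply hAR
    rw [hA, Finset.mem_coe, Finset.mem_union, Finset.mem_union]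
    right; left
    exact hx
  have hA3 : (c.eval 0)⁻¹ ∈ R ∧ (c.eval 1)⁻¹ ∈ R := by
    constructor
    · apply hAR
      rw [hA, Finset.mem_coe, Finset.mem_union, Finset.mem_union, Finset.mem_union]
      right; right; left
      simp
    · apply hAR
      rw [hA, Finset.mem_coe, Finset.mem_union, Finset.mem_union, Finset.mem_union]
      right; right; left
      simp
  have hA4 : ∀ z, μ z ≠ 0 → ∀ i, act L⁻¹ z i ∈ R := by
    intro z hz i
    apply hAR
    rw [hA, Finset.mem_coe, Finset.mem_union, Finset.mem_union, Finset.mem_union, Finset.mem_union]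
    right; right; right; left
    exact Finset.mem_biUnion.2 ⟨z, Finsupp.mem_support_iff.2 hz, Finset.mem_image.2 ⟨i, Finset.mem_univ _, rfl⟩⟩
  have hA5 : ∀ z, μ z ≠ 0 → ∀ i j, act L⁻¹ z i / act L⁻¹ z j ∈ R := by
    intro z hz i j
    apply hAR
    rw [hA, Finset.mem_coe, Finset.mem_union, Finset.mem_union, Finset.mem_union, Finset.mem_union]
    right; right; right; right
    exact Finset.mem_biUnion.2 ⟨z, Finsupp.mem_support_iff.2 hz,
      Finset.mem_image.2 ⟨(i, j), Finset.mem_product.2 ⟨Finset.mem_univ _, Finset.mem_univ _⟩, rfl⟩⟩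
  have hane : ∀ z, μ z ≠ 0 → act L⁻¹ z ≠ 0 := by
    intro z hz h0
    have := hrow z
    rw [h0, (hμ z hz).1] at this
    simp at this
  have hin : ∀ z, μ z ≠ 0 → InR R (pp (LK L⁻¹ z)) := by
    intro z hz i j _ _
    rw [LK_eq_act, pp_rep_div _ (hane z hz)]
    exact hA5 z hz i j
  refine ⟨hin, ?_⟩
  intro p s
  -- lifts to R
  obtain ⟨cR, hcR⟩ := lift_poly R c hA2
  obtain ⟨FFR, hFFR⟩ := lift_mv R FFK hA1
  have hcev : ∀ x : R, ((cR.eval x : R) : K) = c.eval (x : K) := by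
    intro x
    rw [← hcR, Polynomial.eval_map]
    exact (Polynomial.eval₂_at_apply R.val.toRingHom x).symm
  have hunit : ∀ x : R, c.eval (x : K) ≠ 0 → (c.eval (x : K))⁻¹ ∈ R → s.φ (cR.eval x) ≠ 0 := by
    intro x hx hxR h0
    have h2 : cR.eval x * ⟨(c.eval (x : K))⁻¹, hxR⟩ = 1 := by
      apply Subtype.ext
      change ((cR.eval x : R) : K) * (c.eval (x : K))⁻¹ = 1
      rw [hcev, mul_inv_cancel₀ hx]
    have h3 := congrArg s.φ h2
    rw [map_mul, h0, zero_mul, map_one] at h3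
    exact zero_ne_one h3
  have hφc0 : s.φ (cR.eval 0) ≠ 0 := hunit 0 hc0 hA3.1
  have hφc1 : s.φ (cR.eval 1) ≠ 0 := hunit 1 hc1 hA3.2
  have hinjR : Function.Injective (map (σ := Fin 4) R.val.toRingHom) :=
    MvPolynomial.map_injective _ Subtype.val_injective
  -- points over R
  set rr : (Fin 4 → K) → Fin 4 → R := fun z i => if hz : act L⁻¹ z i ∈ R then ⟨act L⁻¹ z i, hz⟩ else 0
    with hrr
  have hrrv : ∀ (z) (hz : μ z ≠ 0) (i), rr z i = ⟨act L⁻¹ z i, hA4 z hz i⟩ := by
    intro z hz i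
    rw [hrr]
    exact dif_pos (hA4 z hz i)
  set T₀ : Multiset (Fin 4 → R) := (Finsupp.toMultiset μ).map rr with hT₀
  set T₁ : Multiset (Fin 4 → R) := h • (gC.roots.map (fun a₀ i => algebraMap ℂ R (v₁ a₀ i))) with hT₁
  have h0R : map (Polynomial.evalRingHom 0) FFR = C (cR.eval 0) ^ N * (T₀.map linF).prod := by
    apply hinjR
    rw [MvPolynomial.map_map, eval_lift, hFFR]
    have h2 : ((0 : R) : K) = 0 := rfl
    rw [h2, hmapK, h0, prod_eq, map_mul, tau_C, tau_prod, map_mul, map_pow, map_pow, map_C,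
      map_linF_prod]
    congr 1
    · have h3 : R.val.toRingHom (cR.eval 0) = c.eval 0 := hcev 0
      rw [h3]
    · have h4 : T₀.map (fun z i => R.val.toRingHom (z i)) =
          (Finsupp.toMultiset μ).map (act L⁻¹) := by
        rw [hT₀, Multiset.map_map]
        apply Multiset.map_congr rfl
        intro z hz
        funext i
        simp only [Function.comp]
        rw [hrrv z (hμmem z hz) i]
        rfl
      rw [h4]
  have h1R : map (Polynomial.evalRingHom 1) FFR = C (cR.eval 1) ^ N * (T₁.map linF).prod := by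
    apply hinjR
    rw [MvPolynomial.map_map, eval_lift, hFFR]
    have h2 : ((1 : R) : K) = 1 := rfl
    rw [h2, hmapK, h1, gl_map, Polynomial.Splits.roots_map (IsAlgClosed.splits _), map_mul, tau_C,
      map_pow, map_mul, map_pow, map_pow, map_C, map_linF_prod]
    congr 1
    · have h3 : R.val.toRingHom (cR.eval 1) = c.eval 1 := hcev 1
      rw [h3]
    · rw [hT₁, Multiset.map_nsmul, Multiset.map_nsmul, Multiset.prod_nsmul]
      congr 1
      rw [Multiset.map_map]
      have h4 : (Multiset.map ((fun a₀ => linF ![1, a₀, algebraMap ℂ K β₂ * a₀, algebraMap ℂ K β₃ * a₀]) ∘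
          (algebraMap ℂ K)) gC.roots) =
          ((gC.roots.map (fun a₀ => ![1, algebraMap ℂ K a₀, algebraMap ℂ K β₂ * algebraMap ℂ K a₀,
            algebraMap ℂ K β₃ * algebraMap ℂ K a₀])).map linF) := by
        rw [Multiset.map_map]
        rfl
      have h6 : (gC.roots.map (fun a₀ i => algebraMap ℂ R (v₁ a₀ i))).map
            (fun z i => R.val.toRingHom (z i)) =
          (gC.roots.map (fun a₀ => ![1, algebraMap ℂ K a₀, algebraMap ℂ K β₂ * algebraMap ℂ K a₀,
            algebraMap ℂ K β₃ * algebraMap ℂ K a₀])).map (act L⁻¹) := by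
        rw [Multiset.map_map, Multiset.map_map]
        apply Multiset.map_congr rfl
        intro a₀ _
        funext i
        simp only [Function.comp]
        have h5 : (![1, algebraMap ℂ K a₀, algebraMap ℂ K β₂ * algebraMap ℂ K a₀,
              algebraMap ℂ K β₃ * algebraMap ℂ K a₀] : Fin 4 → K) =
            fun j => algebraMap ℂ K ((![1, a₀, β₂ * a₀, β₃ * a₀] : Fin 4 → ℂ) j) := by
          funext j
          fin_cases j <;> simp
        rw [h5, ← act_map (algebraMap ℂ K) (fun x => rfl) L⁻¹ ![1, a₀, β₂ * a₀, β₃ * a₀] i]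
        rfl
      rw [h4, tau_prod, h6]
  -- the specialised cycles
  have hsp : ∀ (z) (hz : μ z ≠ 0), spPt s (pp (LK L⁻¹ z)) ∈ surf F ∧ ∃ b : ℂ, b ≠ 0 ∧
      ∀ i, (spPt s (pp (LK L⁻¹ z))).rep i = b * s.φ ⟨act L⁻¹ z i, hA4 z hz i⟩ := by
    intro z hz
    have h2 : aeval (act L⁻¹ z) F = 0 := by
      rw [← aeval_FL]
      exact (hμ z hz).2
    exact spPt_spec s (act L⁻¹ z) (hA4 z hz) (hin z hz) (fun i => L 0 i)
      (by rw [hrow z, (hμ z hz).1]) hF.hom h2
  set P₀ : (Fin 4 → K) → surf F := fun z =>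
    if hz : spPt s (pp (LK L⁻¹ z)) ∈ surf F then ⟨spPt s (pp (LK L⁻¹ z)), hz⟩ else p with hP₀
  have hP₀v : ∀ z, μ z ≠ 0 → (P₀ z).1 = spPt s (pp (LK L⁻¹ z)) := by
    intro z hz
    rw [hP₀]
    simp only
    rw [dif_pos (hsp z hz).1]
  set S₀ : Multiset (surf F) := (Finsupp.toMultiset μ).map P₀ with hS₀
  refine ⟨S₀, ?_, ?_⟩
  · rw [hS₀, Multiset.map_map]
    apply Multiset.map_congr rfl
    intro z hz
    exact hP₀v z (hμmem z hz)
  have hrel0 : Multiset.Rel (IsSpecPt F R s.φ) T₀ S₀ := by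
    rw [hT₀, hS₀, Multiset.rel_map]
    apply Multiset.rel_refl_of_refl_on
    intro z hz
    obtain ⟨-, b, hb, hrep⟩ := hsp z (hμmem z hz)
    refine ⟨b, hb, fun i => ?_⟩
    rw [hP₀v z (hμmem z hz), hrep i, hrrv z (hμmem z hz) i]
  have hrel1 : Multiset.Rel (IsSpecPt F R s.φ) T₁ S₁ := by
    rw [hT₁, hS₁]
    have hone : Multiset.Rel (IsSpecPt F R s.φ) (gC.roots.map (fun a₀ i => algebraMap ℂ R (v₁ a₀ i)))
        (gC.roots.pmap (fun a₀ ha₀ => (⟨pp (v₁ a₀), hQmem a₀ ha₀⟩ : surf F)) hroots) := by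
      rw [Multiset.pmap_eq_map_attach, ← Multiset.attach_map_val' gC.roots
        (fun a₀ i => algebraMap ℂ R (v₁ a₀ i)), Multiset.rel_map]
      apply Multiset.rel_refl_of_refl_on
      intro a₀ _
      obtain ⟨b, hb, hrep⟩ := pp_rep (v₁ a₀.1) (hv₁ne a₀.1)
      refine ⟨b, hb, fun i => ?_⟩
      rw [AlgHom.commutes]
      exact hrep i
    exact rel_nsmul hone h
  have hfin := spec_link (K := K) hF.hom R s.φ (fun i => L 0 i) cR hφc0 hφc1 N FFR (by
    intro x hx
    have h2 : (((algebraMap ℂ R x : R)) : K) = algebraMap ℂ K x := rfl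
    have h3 : c.eval (algebraMap ℂ K x) ≠ 0 := by
      intro h4
      apply hx
      have h5 : cR.eval (algebraMap ℂ R x) = 0 := by
        apply Subtype.ext
        rw [hcev, h2, h4]
        rfl
      rw [h5, map_zero]
    obtain ⟨T, hT, hTe⟩ := hfam (algebraMap ℂ K x) h3
    refine ⟨T.map (act L⁻¹), ?_, ?_⟩
    · intro z hz
      rw [Multiset.mem_map] at hz
      obtain ⟨z', hz', rfl⟩ := hz
      refine ⟨?_, ?_⟩
      · rw [← aeval_FL, ← hevalF']
        exact (hT z' hz').2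
      · rw [hrow z', (hT z' hz').1]
    · rw [eval_lift, hFFR, h2, hmapK, hTe, map_mul, tau_C, tau_prod, hcev, h2, map_pow])
    T₀ T₁ h0R h1R S₀ S₁ hrel0 hrel1
  rw [QuotientAddGroup.eq]
  have h6 : -cyc S₀ + cyc S₁ = -(cyc S₀ - cyc S₁) := by abel
  rw [h6]
  exact (ratTriv (surf F)).neg_mem hfin

end Pool.Agent.LowDeg
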