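import Pool.Agent.LowDeg.MainK
import Pool.Agent.LowDeg.Descent
import Pool.Agent.LowDeg.SpecCycle

/-! Module FIN (doc section 17): the main theorem. -/

set_option autoImplicit false
set_option linter.unusedSectionVars false

open MvPolynomial
open scoped LinearAlgebra.Projectivization

namespace Pool.Agent.LowDeg

open Pool.Agent.Chow0 (IsChowForm IsLink cyc CH0 Z0 ratTriv chowForm)

namespace MainAux

section incl

variable {S S' : Set (ℙ ℂ (Fin 4 → ℂ))}

lemma isChowForm_incl (h : S ⊆ S') {G : MvPolynomial (Fin 4) ℂ} {s : Multiset S}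
    (hs : IsChowForm S G s) : IsChowForm S' G (s.map (Set.inclusion h)) := by
  obtain ⟨c, hc, hG⟩ := hs
  refine ⟨c, hc, ?_⟩
  rw [hG, Multiset.map_map]
  rfl

lemma isLink_incl (h : S ⊆ S') {s₀ s₁ : Multiset S} (hs : IsLink S s₀ s₁) :
    IsLink S' (s₀.map (Set.inclusion h)) (s₁.map (Set.inclusion h)) := by
  obtain ⟨F, h1, h2, h3⟩ := hs
  refine ⟨F, ?_, isChowForm_incl h h2, isChowForm_incl h h3⟩
  filter_upwards [h1] with t ht
  obtain ⟨s, hs⟩ := ht
  exact ⟨_, isChowForm_incl h hs⟩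

/-- the inclusion of cycles -/
noncomputable def inc (h : S ⊆ S') : Z0 S →+ Z0 S' := FreeAbelianGroup.map (Set.inclusion h)

lemma inc_cyc (h : S ⊆ S') (s : Multiset S) : inc h (cyc s) = cyc (s.map (Set.inclusion h)) := by
  induction s using Multiset.induction_on with
  | empty => simp [cyc, inc]
  | cons a s ih =>
    simp only [cyc, Multiset.map_cons, Multiset.sum_cons, map_add] at ih ⊢
    rw [ih]
    congr 1

lemma inc_ratTriv (h : S ⊆ S') {z : Z0 S} (hz : z ∈ ratTriv S) : inc h z ∈ ratTriv S' := by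
  have : ratTriv S ≤ (ratTriv S').comap (inc h) := by
    unfold ratTriv
    rw [AddSubgroup.closure_le]
    rintro _ ⟨s₀, s₁, hl, rfl⟩
    rw [SetLike.mem_coe, AddSubgroup.mem_comap, map_sub, inc_cyc, inc_cyc]
    exact AddSubgroup.subset_closure ⟨_, _, isLink_incl h hl, rfl⟩
  exact this hz

/-- the inclusion of cycles in cycles of projective space -/
noncomputable def tot (S : Set (ℙ ℂ (Fin 4 → ℂ))) : Z0 S →+ FreeAbelianGroup (ℙ ℂ (Fin 4 → ℂ)) :=
  FreeAbelianGroup.map Subtype.val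

lemma tot_injective (S : Set (ℙ ℂ (Fin 4 → ℂ))) : Function.Injective (tot S) := by
  classical
  intro x y hxy
  have h2 : (Finsupp.mapDomain.addMonoidHom (Subtype.val : S → _) : (S →₀ ℤ) →+ _).comp
      (FreeAbelianGroup.toFinsupp (X := S)) = (FreeAbelianGroup.toFinsupp).comp (tot S) := by
    ext a
    simp [tot]
  have h3 := DFunLike.congr_fun h2 x
  have h4 := DFunLike.congr_fun h2 y
  simp only [AddMonoidHom.comp_apply] at h3 h4
  rw [hxy, ← h4] at h3
  have h5 : FreeAbelianGroup.toFinsupp x = FreeAbelianGroup.toFinsupp y :=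
    Finsupp.mapDomain_injective Subtype.val_injective h3
  exact (FreeAbelianGroup.equivFinsupp S).injective h5

lemma tot_cyc (s : Multiset S) : tot S (cyc s) = ((s.map Subtype.val).map FreeAbelianGroup.of).sum := by
  induction s using Multiset.induction_on with
  | empty => simp [cyc, tot]
  | cons a s ih =>
    simp only [cyc, Multiset.map_cons, Multiset.sum_cons, map_add] at ih ⊢
    rw [ih]
    congr 1

end incl

variable {K : Type} [Field K] [IsAlgClosed K] [CharZero K] [Algebra ℂ K]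
  {F : MvPolynomial (Fin 4) ℂ} {ξ : Fin 4 → K}

lemma map_cy {α : Type} (f : ℙ K (Fin 4 → K) → α) {w : ℕ} (Γ : EffCorr F ξ w) :
    FreeAbelianGroup.map f Γ.cy = ((Multiset.map (fun i => f (pp (Γ.pts i))) Finset.univ.val).map
      FreeAbelianGroup.of).sum := by
  rw [EffCorr.cy, map_sum, Multiset.map_map]
  rfl

/-- the cycle of a multiset -/
noncomputable def ms {β γ : Type} (g : β → γ) : Multiset β →+ FreeAbelianGroup γ where
  toFun s := ((s.map g).map FreeAbelianGroup.of).sum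
  map_zero' := by simp
  map_add' s t := by simp

lemma ms_finsupp {β γ : Type} (g : β → γ) (μ : β →₀ ℕ) :
    ms g (Finsupp.toMultiset μ) = μ.sum fun z k => k • FreeAbelianGroup.of (g z) := by
  rw [Finsupp.toMultiset_apply, Finsupp.sum, Finsupp.sum, map_sum]
  refine Finset.sum_congr rfl fun z _ => ?_
  rw [map_nsmul]
  simp [ms]

lemma map_cyPL {α : Type} (f : ℙ K (Fin 4 → K) → α) (L : Matrix (Fin 4) (Fin 4) ℂ)
    (μ : (Fin 4 → K) →₀ ℕ) :
    FreeAbelianGroup.map f (cyPL L μ) =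
      ((Multiset.map (fun z => f (pp (LK L z))) (Finsupp.toMultiset μ)).map
        FreeAbelianGroup.of).sum := by
  have h := ms_finsupp (fun z => f (pp (LK L z))) μ
  change _ = ms (fun z => f (pp (LK L z))) (Finsupp.toMultiset μ)
  rw [h, cyPL, Finsupp.sum, Finsupp.sum, map_sum]
  refine Finset.sum_congr rfl fun z _ => ?_
  rw [map_nsmul]
  rfl

lemma map_cyP {α : Type} (f : ℙ K (Fin 4 → K) → α) (μ : (Fin 4 → K) →₀ ℕ) {w : ℕ}
    (W : EffCorr F ξ w) (hW : Multiset.map W.pts Finset.univ.val = Finsupp.toMultiset μ) :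
    FreeAbelianGroup.map f (cyP μ) =
      ((Multiset.map (fun i => f (pp (W.pts i))) Finset.univ.val).map
        FreeAbelianGroup.of).sum := by
  have h := ms_finsupp (fun z => f (pp z)) μ
  have h2 : Multiset.map (fun i => f (pp (W.pts i))) Finset.univ.val =
      Multiset.map (fun z => f (pp z)) (Finsupp.toMultiset μ) := by
    rw [← hW, Multiset.map_map]; rfl
  rw [h2]
  change _ = ms (fun z => f (pp z)) (Finsupp.toMultiset μ)
  rw [h, cyP, Finsupp.sum, Finsupp.sum, map_sum]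
  refine Finset.sum_congr rfl fun z _ => ?_
  rw [map_nsmul]
  rfl

/-- product of the forms of finitely many points -/
lemma exists_prod (hξ : IsGenericPoint F ξ) (T : Finset (Fin 4 → K))
    (hT : ∀ z ∈ T, ∃ (e : ℕ) (G : MvPolynomial (Fin 4) ℂ), G.IsHomogeneous e ∧ aeval z G = 0 ∧
      ¬ F ∣ G) :
    ∃ (e : ℕ) (G : MvPolynomial (Fin 4) ℂ), G.IsHomogeneous e ∧ (∀ z ∈ T, aeval z G = 0) ∧
      ¬ F ∣ G := by
  classical
  choose! e G h1 h2 h3 using hT
  refine ⟨∑ z ∈ T, e z, ∏ z ∈ T, G z, IsHomogeneous.prod _ _ _ fun z hz => h1 z hz, ?_, ?_⟩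
  · intro z hz
    rw [map_prod]
    exact Finset.prod_eq_zero hz (h2 z hz)
  · rintro ⟨Q, hQ⟩
    have h4 : aeval ξ (∏ z ∈ T, G z) = 0 := by rw [hQ, map_mul, hξ.zero, zero_mul]
    rw [map_prod, Finset.prod_eq_zero_iff] at h4
    obtain ⟨z, hz, h5⟩ := h4
    exact h3 z hz (hξ.gen _ _ (h1 z hz) h5)

/-- the generic point specialises to the point -/
lemma spPt_ξ (hξ : IsGenericPoint F ξ) {R : Subalgebra ℂ K} {p : surf F} (s : SpecAt F ξ R p) :
    spPt s (pp ξ) = p.1 := by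
  classical
  have hne : ξ ≠ 0 := by
    intro h
    have := hξ.one
    rw [h] at this
    simp at this
  obtain ⟨r, hr⟩ : ∃ r : Kˣ, r • ξ = (pp ξ).rep := by
    have h1 : pp ξ = Projectivization.mk K ξ hne := by rw [pp, dif_pos hne]
    obtain ⟨r, hr⟩ := (Projectivization.mk_eq_mk_iff K _ _ (Projectivization.rep_nonzero _) hne).1
      ((Projectivization.mk_rep (pp ξ)).trans h1)
    exact ⟨r, hr⟩
  have hr0 : (pp ξ).rep 0 = r := by rw [← hr]; simp [hξ.one, Units.smul_def]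
  have h0 : (pp ξ).rep 0 ≠ 0 := by rw [hr0]; exact r.ne_zero
  have hq : ∀ i, (pp ξ).rep i / (pp ξ).rep 0 = ξ i := by
    intro i
    rw [hr0, ← hr]
    simp [Units.smul_def]
  have h2 : spPt s (pp ξ) = pp fun i => p.1.rep i / p.1.rep 0 := by
    unfold spPt
    simp only [h0, ne_eq, not_false_eq_true, if_true]
    congr 1
    funext i
    obtain ⟨h, hφ⟩ := s.hξ i
    rw [← hφ]
    have h3 : (pp ξ).rep i / (pp ξ).rep 0 ∈ R := by rw [hq]; exact h
    rw [dif_pos h3]
    congr 1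
    exact Subtype.ext (hq i)
  rw [h2]
  have h4 : (fun i => p.1.rep i / p.1.rep 0) = (p.1.rep 0)⁻¹ • p.1.rep := by
    funext i
    simp [div_eq_inv_mul]
  have h5 : (p.1.rep 0)⁻¹ • p.1.rep ≠ 0 :=
    smul_ne_zero (inv_ne_zero s.rep0) (Projectivization.rep_nonzero _)
  rw [h4, pp, dif_pos h5]
  conv_rhs => rw [← Projectivization.mk_rep p.1]
  rw [Projectivization.mk_eq_mk_iff]
  exact ⟨(Units.mk0 _ s.rep0)⁻¹, by simp [Units.smul_def]⟩

end MainAux

open MainAux

set_option maxHeartbeats 1000000 in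
theorem main : MainStatement := by
  classical
  intro F d hd hF K _ _ _ ξ hξ w w' Γ Γ' m hw hact
  have : CharZero K := charZero_of_injective_algebraMap (algebraMap ℂ K).injective
  obtain ⟨m₀, hm, ⟨DK⟩⟩ := exists_decompK hd hF hξ Γ Γ' m hw hact
  refine ⟨m₀, hm, ?_⟩
  -- the correspondences to curves
  obtain ⟨wa, Wa, hWa⟩ := exists_effCorr hξ (fun i => DK.L 0 i) DK.a DK.a_nd.mem DK.a_nd.inv
  obtain ⟨wb, Wb, hWb⟩ := exists_effCorr hξ (fun i => DK.L 0 i) DK.b DK.b_nd.mem DK.b_nd.inv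
  obtain ⟨e₀, G₀, hG₀, hG₀z, hFG₀⟩ := exists_prod hξ (DK.a.support ∪ DK.b.support) (by
    intro z hz
    rcases Finset.mem_union.1 hz with h | h
    · exact DK.a_nd.curve z (Finsupp.mem_support_iff.1 h)
    · exact DK.b_nd.curve z (Finsupp.mem_support_iff.1 h))
  have hWa0 : ∀ i, aeval (Wa.pts i) G₀ = 0 := by
    intro i
    refine hG₀z _ (Finset.mem_union_left _ ?_)
    have h1 : Wa.pts i ∈ Finsupp.toMultiset DK.a := by
      rw [← hWa]; exact Multiset.mem_map_of_mem _ (Finset.mem_univ i)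
    rwa [Finsupp.mem_toMultiset] at h1
  have hWb0 : ∀ i, aeval (Wb.pts i) G₀ = 0 := by
    intro i
    refine hG₀z _ (Finset.mem_union_right _ ?_)
    have h1 : Wb.pts i ∈ Finsupp.toMultiset DK.b := by
      rw [← hWb]; exact Multiset.mem_map_of_mem _ (Finset.mem_univ i)
    rwa [Finsupp.mem_toMultiset] at h1
  -- specialisation data
  obtain ⟨A₁, hA₁⟩ := eff_spec hF.hom hξ Γ
  obtain ⟨A₂, hA₂⟩ := eff_spec hF.hom hξ Γ'
  obtain ⟨A₃, hA₃⟩ := eff_spec hF.hom hξ Wa
  obtain ⟨A₄, hA₄⟩ := eff_spec hF.hom hξ Wb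
  have hcs : ∀ j, ∃ (A : Finset K) (ζ : CH0 (surf F)), ∀ R : Subalgebra ℂ K, (∀ i, ξ i ∈ R) →
      (A : Set K) ⊆ R →
      (∀ z, DK.μ j z ≠ 0 → InR R (pp (LK DK.L⁻¹ z))) ∧
      ∀ (p : surf F) (s : SpecAt F ξ R p),
        ∃ t : Multiset (surf F),
          t.map Subtype.val =
            Multiset.map (fun z => spPt s (pp (LK DK.L⁻¹ z))) (Finsupp.toMultiset (DK.μ j)) ∧
          (QuotientAddGroup.mk (cyc t) : CH0 (surf F)) = ζ := fun j =>
    cycle_spec hF (by omega) hξ DK.L DK.hL (DK.M j) (DK.μ j) (DK.cycle j) (DK.xF_ne j)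
      (fun z hz h0 hz0 => DK.inf z hz h0 hz0 j) DK.β₂ DK.β₃ DK.hβ
  choose A₅ ζ hA₅ using hcs
  let B : Finset K := Finset.univ.image ξ ∪ A₁ ∪ A₂ ∪ A₃ ∪ A₄ ∪ Finset.univ.biUnion A₅
  let R : Subalgebra ℂ K := Algebra.adjoin ℂ (B : Set K)
  have hRFG : R.FG := ⟨B, rfl⟩
  have hBR : (B : Set K) ⊆ R := Algebra.subset_adjoin
  have hξR : ∀ i, ξ i ∈ R := fun i => hBR (by simp [B])
  have hR₁ : (A₁ : Set K) ⊆ R := fun x hx => hBR (by
    simp only [B, Finset.coe_union, Set.mem_union]; tauto)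
  have hR₂ : (A₂ : Set K) ⊆ R := fun x hx => hBR (by
    simp only [B, Finset.coe_union, Set.mem_union]; tauto)
  have hR₃ : (A₃ : Set K) ⊆ R := fun x hx => hBR (by
    simp only [B, Finset.coe_union, Set.mem_union]; tauto)
  have hR₄ : (A₄ : Set K) ⊆ R := fun x hx => hBR (by
    simp only [B, Finset.coe_union, Set.mem_union]; tauto)
  have hR₅ : ∀ j, (A₅ j : Set K) ⊆ R := fun j x hx => hBR (by
    have : x ∈ Finset.univ.biUnion A₅ := Finset.mem_biUnion.2 ⟨j, Finset.mem_univ _, hx⟩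
    simp only [B, Finset.coe_union, Set.mem_union, Finset.mem_coe]; tauto)
  obtain ⟨e, D, hD, hFD, hDs⟩ := exists_spec (by omega) hF.hom hξ R hRFG hξR
  have hsp : ∀ p : surf F, aeval p.1.rep D ≠ 0 → Nonempty (SpecAt F ξ R p) := by
    intro p hp
    obtain ⟨h0, φ, hφ⟩ := hDs p.1.rep p.2 hp
    exact ⟨⟨φ, h0, fun i => ⟨hξR i, hφ i⟩⟩⟩
  have hS0 : surf F = surf F ∩ surf 0 := by
    ext q
    simp [surf]
  refine ⟨e, D, hD, hFD, ?_, ?_⟩
  · intro p hp
    obtain ⟨s⟩ := hsp p hp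
    obtain ⟨t, ht, _⟩ := (hA₁ R hξR hR₁).2 p s (surf F) 0 0 (isHomogeneous_zero _ _ _)
      (fun i => by simp) hS0
    obtain ⟨t', ht', _⟩ := (hA₂ R hξR hR₂).2 p s (surf F) 0 0 (isHomogeneous_zero _ _ _)
      (fun i => by simp) hS0
    exact ⟨⟨t, ht⟩, ⟨t', ht'⟩⟩
  intro ι _ p k hpD hAlb s s' hs hs'
  have sp : ∀ i, SpecAt F ξ R (p i) := fun i => Classical.choice (hsp (p i) (hpD i))
  choose t ht htv using fun i => (hA₁ R hξR hR₁).2 (p i) (sp i) (surf F) 0 0
    (isHomogeneous_zero _ _ _) (fun i => by simp) hS0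
  choose t' ht' htv' using fun i => (hA₂ R hξR hR₂).2 (p i) (sp i) (surf F) 0 0
    (isHomogeneous_zero _ _ _) (fun i => by simp) hS0
  choose ta hta htav using fun i => (hA₃ R hξR hR₃).2 (p i) (sp i) (surf F ∩ surf G₀) G₀ e₀
    hG₀ hWa0 rfl
  choose tb htb htbv using fun i => (hA₄ R hξR hR₄).2 (p i) (sp i) (surf F ∩ surf G₀) G₀ e₀
    hG₀ hWb0 rfl
  choose tj htj htjζ using fun j i => (hA₅ j R hξR (hR₅ j)).2 (p i) (sp i)
  have hst : ∀ i, s i = t i := fun i => isChowForm_unique (hs i) (ht i)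
  have hst' : ∀ i, s' i = t' i := fun i => isChowForm_unique (hs' i) (ht' i)
  have hincl : surf F ∩ surf G₀ ⊆ surf F := Set.inter_subset_left
  -- the identity of cycles
  have key : ∀ i, cyc (s i) - cyc (s' i) - m₀ • FreeAbelianGroup.of (p i) =
      ∑ j, DK.κ j • cyc (tj j i) + inc hincl (cyc (ta i)) - inc hincl (cyc (tb i)) := by
    intro i
    apply tot_injective
    have h1 := congrArg (FreeAbelianGroup.map (spPt (sp i))) DK.eq
    simp only [map_sub, map_add, map_sum, map_zsmul] at h1 ⊢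
    rw [map_cy, map_cy, map_cyP _ _ Wa hWa, map_cyP _ _ Wb hWb] at h1
    simp only [map_cyPL] at h1
    rw [hst, hst', tot_cyc, tot_cyc, htv, htv', inc_cyc, inc_cyc, tot_cyc, tot_cyc,
      Multiset.map_map _ _ (ta i), Multiset.map_map _ _ (tb i)]
    have h2 : Multiset.map (Subtype.val ∘ Set.inclusion hincl) (ta i) =
        Multiset.map Subtype.val (ta i) := rfl
    have h3 : Multiset.map (Subtype.val ∘ Set.inclusion hincl) (tb i) =
        Multiset.map Subtype.val (tb i) := rfl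
    rw [h2, h3, htav, htbv]
    have h4 : ∀ j, tot (surf F) (cyc (tj j i)) =
        ((Multiset.map (fun z => spPt (sp i) (pp (LK DK.L⁻¹ z)))
          (Finsupp.toMultiset (DK.μ j))).map FreeAbelianGroup.of).sum := by
      intro j
      rw [tot_cyc, htj]
    simp only [h4]
    have h5 : tot (surf F) (FreeAbelianGroup.of (p i)) =
        FreeAbelianGroup.map (spPt (sp i)) (FreeAbelianGroup.of (pp ξ)) := by
      simp [tot, spPt_ξ hξ (sp i)]
    rw [h5]
    exact h1
  -- the correspondences to curves kill the cycle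
  have hka : inc hincl (∑ i, k i • cyc (ta i)) ∈ ratTriv (surf F) :=
    inc_ratTriv hincl ((QuotientAddGroup.eq_zero_iff _).1
      (hAlb.2 e₀ G₀ hG₀ hFG₀ wa Wa hWa0 ta hta))
  have hkb : inc hincl (∑ i, k i • cyc (tb i)) ∈ ratTriv (surf F) :=
    inc_ratTriv hincl ((QuotientAddGroup.eq_zero_iff _).1
      (hAlb.2 e₀ G₀ hG₀ hFG₀ wb Wb hWb0 tb htb))
  have hkj : (QuotientAddGroup.mk (∑ i, k i • ∑ j, DK.κ j • cyc (tj j i)) : CH0 (surf F)) = 0 := by
    have h1 : ∀ z : Z0 (surf F), (QuotientAddGroup.mk z : CH0 (surf F)) =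
      QuotientAddGroup.mk' (ratTriv (surf F)) z := fun _ => rfl
    rw [h1, map_sum]
    simp only [map_zsmul, map_sum]
    simp only [← h1, htjζ]
    rw [← Finset.sum_smul, hAlb.1, zero_smul]
  have h6 : (∑ i, k i • (cyc (s i) - cyc (s' i))) - ∑ i, k i • m₀ • FreeAbelianGroup.of (p i) =
      ∑ i, k i • ∑ j, DK.κ j • cyc (tj j i) + inc hincl (∑ i, k i • cyc (ta i)) -
        inc hincl (∑ i, k i • cyc (tb i)) := by
    rw [map_sum, map_sum, ← Finset.sum_sub_distrib, ← Finset.sum_add_distrib,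
      ← Finset.sum_sub_distrib]
    refine Finset.sum_congr rfl fun i _ => ?_
    rw [← smul_sub, key i, map_zsmul, map_zsmul, smul_sub, smul_add]
  rw [← sub_eq_zero]
  have h7 : (QuotientAddGroup.mk ((∑ i, k i • (cyc (s i) - cyc (s' i))) -
      ∑ i, k i • m₀ • FreeAbelianGroup.of (p i)) : CH0 (surf F)) = 0 := by
    rw [h6]
    have h8 : ∀ a b c : Z0 (surf F), (QuotientAddGroup.mk (a + b - c) : CH0 (surf F)) =
      QuotientAddGroup.mk a + QuotientAddGroup.mk b - QuotientAddGroup.mk c := fun _ _ _ => rfl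
    rw [h8, hkj, (QuotientAddGroup.eq_zero_iff _).2 hka, (QuotientAddGroup.eq_zero_iff _).2 hkb]
    simp
  exact h7

end Pool.Agent.LowDeg
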