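import Pool.Agent.LowDeg.Proj
import Pool.Agent.LowDeg.GoodCoord
import Pool.Agent.LowDeg.Decomp
import Pool.Agent.LowDeg.Invariant
import Pool.Agent.LowDeg.DerK

/-! Module MK6 (doc sections 13-15): the decomposition of a correspondence over `K`. -/

set_option autoImplicit false

open MvPolynomial
open scoped LinearAlgebra.Projectivization

namespace Pool.Agent.LowDeg

namespace MainKAux

section lin
variable {K : Type} [Field K] [Algebra ℂ K]

theorem LK_apply (L : Matrix (Fin 4) (Fin 4) ℂ) (z : Fin 4 → K) (i : Fin 4) :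
    LK L z i = ∑ j, algebraMap ℂ K (L i j) * z j := rfl

theorem LK_smul (L : Matrix (Fin 4) (Fin 4) ℂ) (c : K) (z : Fin 4 → K) :
    LK L (c • z) = c • LK L z := by
  unfold LK
  exact Matrix.mulVec_smul _ _ _

theorem LK_mul (A B : Matrix (Fin 4) (Fin 4) ℂ) (z : Fin 4 → K) :
    LK A (LK B z) = LK (A * B) z := by
  unfold LK
  rw [Matrix.mulVec_mulVec, ← Matrix.map_mul]

theorem LK_one (z : Fin 4 → K) : LK 1 z = z := by
  unfold LK
  rw [Matrix.map_one _ (map_zero _) (map_one _), Matrix.one_mulVec]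

theorem LK_inv_LK (L : Matrix (Fin 4) (Fin 4) ℂ) (hL : IsUnit L.det) (z : Fin 4 → K) :
    LK L⁻¹ (LK L z) = z := by
  rw [LK_mul, Matrix.nonsing_inv_mul L hL, LK_one]

theorem LK_LK_inv (L : Matrix (Fin 4) (Fin 4) ℂ) (hL : IsUnit L.det) (z : Fin 4 → K) :
    LK L (LK L⁻¹ z) = z := by
  rw [LK_mul, Matrix.mul_nonsing_inv L hL, LK_one]

theorem LK_zero (L : Matrix (Fin 4) (Fin 4) ℂ) : LK L (0 : Fin 4 → K) = 0 := by
  unfold LK
  exact Matrix.mulVec_zero _

theorem LK_ne_zero (L : Matrix (Fin 4) (Fin 4) ℂ) (hL : IsUnit L.det) {z : Fin 4 → K}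
    (hz : z ≠ 0) : LK L z ≠ 0 := by
  intro h
  apply hz
  rw [← LK_inv_LK L hL z, h, LK_zero]

theorem aeval_lin (L' : Matrix (Fin 4) (Fin 4) ℂ) (F : MvPolynomial (Fin 4) ℂ) (w : Fin 4 → K) :
    aeval w (bind₁ (fun i => ∑ j, C (L' i j) * X j) F) = aeval (LK L' w) F := by
  rw [aeval_bind₁]
  congr 2
  funext i
  rw [map_sum, LK_apply]
  refine Finset.sum_congr rfl fun j _ => ?_
  rw [map_mul, aeval_C, aeval_X]

theorem aeval_FL (L : Matrix (Fin 4) (Fin 4) ℂ) (hL : IsUnit L.det) (F : MvPolynomial (Fin 4) ℂ)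
    (z : Fin 4 → K) : aeval (LK L z) (FL L F) = aeval z F := by
  unfold FL
  rw [aeval_lin, LK_inv_LK L hL]

theorem LK_conj (σ : K ≃ₐ[ℂ] K) (L : Matrix (Fin 4) (Fin 4) ℂ) (z : Fin 4 → K) :
    LK L (fun i => σ (z i)) = fun i => σ (LK L z i) := by
  funext i
  rw [LK_apply, LK_apply, map_sum]
  refine Finset.sum_congr rfl fun j _ => ?_
  rw [map_mul, σ.commutes]

theorem isSmoothForm_FL {F : MvPolynomial (Fin 4) ℂ} {d : ℕ} (hF : IsSmoothForm F d)
    (L : Matrix (Fin 4) (Fin 4) ℂ) (hL : IsUnit L.det) : IsSmoothForm (FL L F) d :=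
  hF.linear L L⁻¹ (Matrix.nonsing_inv_mul L hL)

theorem isRes_LK {F : MvPolynomial (Fin 4) ℂ} {D₁ D₂ : Derivation ℂ K K} {z : Fin 4 → K} {J : K}
    (h : IsRes F D₁ D₂ z J) (L : Matrix (Fin 4) (Fin 4) ℂ) (hL : IsUnit L.det) :
    IsRes (FL L F) D₁ D₂ (LK L z) (algebraMap ℂ K L.det * J) :=
  h.linear L L⁻¹ (Matrix.nonsing_inv_mul L hL)

theorem isRes_zero_LK {F : MvPolynomial (Fin 4) ℂ} {d : ℕ} (hF : IsSmoothForm F d)
    (D₁ D₂ : Derivation ℂ K K) {z : Fin 4 → K} (hz : z ≠ 0) (hz0 : aeval z F = 0)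
    (L : Matrix (Fin 4) (Fin 4) ℂ) (hL : IsUnit L.det) (h : IsRes (FL L F) D₁ D₂ (LK L z) 0) :
    IsRes F D₁ D₂ z 0 := by
  obtain ⟨J, hJ, -⟩ := exists_isRes hF D₁ D₂ z hz hz0
  have h1 := isRes_LK hJ L hL
  have h2 : (0 : K) = algebraMap ℂ K L.det * J :=
    (exists_isRes (isSmoothForm_FL hF L hL) D₁ D₂ (LK L z) (LK_ne_zero L hL hz)
      (by rw [aeval_FL L hL]; exact hz0)).unique h h1
  have h3 : algebraMap ℂ K L.det ≠ 0 := by
    intro h4
    exact hL.ne_zero ((map_eq_zero _).1 h4)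
  have h4 : J = 0 := by
    rcases mul_eq_zero.1 h2.symm with h5 | h5
    · exact absurd h5 h3
    · exact h5
  rwa [h4] at hJ

end lin

section proj
variable {K : Type} [Field K]

theorem pp_of_ne {v : Fin 4 → K} (h : v ≠ 0) : pp v = Projectivization.mk K v h := dif_pos h

theorem pp_rep (p : ℙ K (Fin 4 → K)) : pp p.rep = p := by
  rw [pp_of_ne p.rep_nonzero, p.mk_rep]

theorem pp_eq_pp {v w : Fin 4 → K} (hv : v ≠ 0) (hw : w ≠ 0) :
    pp v = pp w ↔ ∃ a : K, a • w = v := by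
  rw [pp_of_ne hv, pp_of_ne hw, Projectivization.mk_eq_mk_iff']

theorem pp_smul {v : Fin 4 → K} (hv : v ≠ 0) {c : K} (hc : c ≠ 0) : pp (c • v) = pp v :=
  (pp_eq_pp (smul_ne_zero hc hv) hv).2 ⟨c, rfl⟩

theorem pp_rep_eq {v : Fin 4 → K} (hv : v ≠ 0) : ∃ a : K, a ≠ 0 ∧ (pp v).rep = a • v := by
  rw [pp_of_ne hv]
  obtain ⟨a, ha⟩ := Projectivization.exists_smul_eq_mk_rep K v hv
  exact ⟨a, a.ne_zero, ha.symm⟩

/-- the action of an automorphism on projective points -/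
noncomputable def sp (σ : K → K) (p : ℙ K (Fin 4 → K)) : ℙ K (Fin 4 → K) := pp fun i => σ (p.rep i)

end proj

section sp
variable {K : Type} [Field K] [Algebra ℂ K]

theorem conj_ne_zero (σ : K ≃ₐ[ℂ] K) {v : Fin 4 → K} (hv : v ≠ 0) : (fun i => σ (v i)) ≠ 0 := by
  intro h
  apply hv
  funext i
  have := congrFun h i
  simpa using this

theorem sp_pp (σ : K ≃ₐ[ℂ] K) {v : Fin 4 → K} (hv : v ≠ 0) :
    sp σ (pp v) = pp fun i => σ (v i) := by
  obtain ⟨a, ha, h⟩ := pp_rep_eq hv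
  unfold sp
  rw [h]
  have h1 : (fun i => σ ((a • v) i)) = σ a • fun i => σ (v i) := by
    funext i
    simp
  rw [h1]
  exact pp_smul (conj_ne_zero σ hv) (by simpa using ha)

theorem sp_symm (σ : K ≃ₐ[ℂ] K) (p : ℙ K (Fin 4 → K)) : sp σ.symm (sp σ p) = p := by
  have h1 : sp σ p = pp fun i => σ (p.rep i) := rfl
  rw [h1, sp_pp σ.symm (conj_ne_zero σ p.rep_nonzero)]
  have h2 : (fun i => σ.symm (σ (p.rep i))) = p.rep := by
    funext i
    simp
  rw [h2, pp_rep]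

theorem sp_injective (σ : K ≃ₐ[ℂ] K) : Function.Injective (sp (σ : K → K)) := by
  intro p q h
  rw [← sp_symm σ p, h, sp_symm]

end sp

section uf
variable {K : Type} [Field K]

theorem linF_smul (c : K) (z : Fin 4 → K) : linF (c • z) = C c * linF z := by
  unfold linF
  rw [Finset.mul_sum]
  refine Finset.sum_congr rfl fun j _ => ?_
  rw [Pi.smul_apply, smul_eq_mul, map_mul, mul_assoc]

theorem coeff_linF (z : Fin 4 → K) (i : Fin 4) : coeff (Finsupp.single i 1) (linF z) = z i := by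
  unfold linF
  rw [coeff_sum, Finset.sum_eq_single i]
  · rw [coeff_C_mul, coeff_X, if_pos rfl, mul_one]
  · intro j _ hj
    rw [coeff_C_mul, coeff_X, if_neg, mul_zero]
    rwa [Finsupp.single_left_inj one_ne_zero]
  · intro h
    exact absurd (Finset.mem_univ i) h

theorem linF_isHomogeneous (z : Fin 4 → K) : (linF z).IsHomogeneous 1 := by
  unfold linF
  refine IsHomogeneous.sum _ _ _ fun j _ => ?_
  have := (isHomogeneous_C (Fin 4) (z j)).mul (isHomogeneous_X K j)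
  rwa [zero_add] at this

theorem linF_ne_zero {z : Fin 4 → K} (hz : z ≠ 0) : linF z ≠ 0 := by
  intro h
  apply hz
  funext i
  rw [← coeff_linF z i, h, coeff_zero]
  rfl

theorem linF_irreducible {z : Fin 4 → K} (hz : z ≠ 0) : Irreducible (linF z) := by
  refine irreducible_of_totalDegree_eq_one
    ((linF_isHomogeneous z).totalDegree (linF_ne_zero hz)) fun x hx => ?_
  obtain ⟨i, hi⟩ : ∃ i, z i ≠ 0 := by
    by_contra h
    push Not at h
    exact hz (funext h)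
  have h1 := hx (Finsupp.single i 1)
  rw [coeff_linF] at h1
  refine isUnit_iff_ne_zero.2 ?_
  rintro rfl
  exact hi (zero_dvd_iff.1 h1)

theorem pp_eq_of_associated {z z' : Fin 4 → K} (hz : z ≠ 0)
    (h : Associated (linF z) (linF z')) : pp z = pp z' := by
  obtain ⟨u, hu⟩ := h
  obtain ⟨r, hr, hr'⟩ := isUnit_iff_eq_C_of_isReduced.1 u.isUnit
  have h1 : z' = r • z := by
    funext i
    rw [← coeff_linF z' i, ← hu, hr', mul_comm, coeff_C_mul, coeff_linF]
    rfl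
  rw [h1, pp_smul hz hr.ne_zero]

theorem rel_of_prod (f g : Multiset (MvPolynomial (Fin 4) K)) (hf : ∀ x ∈ f, Irreducible x)
    (hg : ∀ x ∈ g, Irreducible x) (h : Associated f.prod g.prod) : Multiset.Rel Associated f g :=
  UniqueFactorizationMonoid.factors_unique hf hg h

theorem map_pp_eq {w : ℕ} (y y' : Fin w → Fin 4 → K) (hy : ∀ i, y i ≠ 0) (hy' : ∀ i, y' i ≠ 0)
    {c c' : K} (hc : c ≠ 0) (hc' : c' ≠ 0)
    (h : C c * ∏ i, linF (y i) = C c' * ∏ i, linF (y' i)) :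
    Finset.univ.val.map (fun i => pp (y i)) = Finset.univ.val.map fun i => pp (y' i) := by
  have h1 : Associated (Finset.univ.val.map fun i => linF (y i)).prod
      (Finset.univ.val.map fun i => linF (y' i)).prod := by
    change Associated (∏ i, linF (y i)) (∏ i, linF (y' i))
    have ha : Associated (C c * ∏ i, linF (y i)) (∏ i, linF (y i)) :=
      associated_unit_mul_left _ _ ((isUnit_iff_ne_zero.2 hc).map C)
    have hb : Associated (C c' * ∏ i, linF (y' i)) (∏ i, linF (y' i)) :=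
      associated_unit_mul_left _ _ ((isUnit_iff_ne_zero.2 hc').map C)
    rw [h] at ha
    exact ha.symm.trans hb
  have h2 := rel_of_prod (Finset.univ.val.map fun i => linF (y i))
    (Finset.univ.val.map fun i => linF (y' i))
    (by
      intro x hx
      obtain ⟨i, -, rfl⟩ := Multiset.mem_map.1 hx
      exact linF_irreducible (hy i))
    (by
      intro x hx
      obtain ⟨i, -, rfl⟩ := Multiset.mem_map.1 hx
      exact linF_irreducible (hy' i)) h1
  rw [Multiset.rel_map] at h2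
  have h3 : Multiset.Rel (fun i j => pp (y i) = pp (y' j)) (Finset.univ.val : Multiset (Fin w))
      (Finset.univ.val : Multiset (Fin w)) :=
    h2.mono fun i _ j _ hij => pp_eq_of_associated (hy i) hij
  have h4 : Multiset.Rel Eq (Finset.univ.val.map fun i => pp (y i))
      (Finset.univ.val.map fun i => pp (y' i)) := Multiset.rel_map.2 h3
  exact Multiset.rel_eq.1 h4

end uf

section cnt
variable {K : Type} [Field K]

open scoped Classical in
/-- number of points of a family in a projective class -/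
noncomputable def cntZ {w : ℕ} (y : Fin w → Fin 4 → K) (p : ℙ K (Fin 4 → K)) : ℤ :=
  ∑ i, if pp (y i) = p then 1 else 0

theorem cntZ_nonneg {w : ℕ} (y : Fin w → Fin 4 → K) (p : ℙ K (Fin 4 → K)) : 0 ≤ cntZ y p := by
  unfold cntZ
  refine Finset.sum_nonneg fun i _ => ?_
  split_ifs <;> simp

theorem cntZ_eq_zero {w : ℕ} (y : Fin w → Fin 4 → K) (p : ℙ K (Fin 4 → K))
    (h : ∀ i, pp (y i) ≠ p) : cntZ y p = 0 := by
  unfold cntZ
  refine Finset.sum_eq_zero fun i _ => ?_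
  rw [if_neg (h i)]

theorem sum_cntZ_le {w : ℕ} (y : Fin w → Fin 4 → K) (T : Finset (ℙ K (Fin 4 → K))) :
    ∑ p ∈ T, cntZ y p ≤ w := by
  classical
  unfold cntZ
  rw [Finset.sum_comm]
  have h : ∀ i ∈ (Finset.univ : Finset (Fin w)),
      (∑ p ∈ T, if pp (y i) = p then (1 : ℤ) else 0) ≤ 1 := by
    intro i _
    rw [Finset.sum_ite_eq]
    split_ifs <;> simp
  refine (Finset.sum_le_sum h).trans ?_
  simp

theorem cntZ_congr {w : ℕ} (y y' : Fin w → Fin 4 → K)
    (h : Finset.univ.val.map (fun i => pp (y i)) = Finset.univ.val.map fun i => pp (y' i))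
    (p : ℙ K (Fin 4 → K)) : cntZ y p = cntZ y' p := by
  classical
  have h1 : ∀ y : Fin w → Fin 4 → K, cntZ y p =
      ((Finset.univ.val.map fun i => pp (y i)).map fun q => if q = p then (1 : ℤ) else 0).sum := by
    intro y
    rw [Multiset.map_map]
    rfl
  rw [h1, h1, h]

/-- regrouping of a sum over the points -/
theorem sum_cntZ_mul {w : ℕ} (y : Fin w → Fin 4 → K) (T : Finset (ℙ K (Fin 4 → K)))
    (hT : ∀ i, pp (y i) ∈ T) (G : ℙ K (Fin 4 → K) → K) :
    ∑ p ∈ T, (cntZ y p : K) * G p = ∑ i, G (pp (y i)) := by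
  classical
  unfold cntZ
  have h1 : ∀ p ∈ T, ((∑ i, if pp (y i) = p then (1 : ℤ) else 0 : ℤ) : K) * G p =
      ∑ i, if pp (y i) = p then G p else 0 := by
    intro p _
    rw [Int.cast_sum, Finset.sum_mul]
    refine Finset.sum_congr rfl fun i _ => ?_
    split_ifs <;> simp
  rw [Finset.sum_congr rfl h1, Finset.sum_comm]
  refine Finset.sum_congr rfl fun i _ => ?_
  rw [Finset.sum_ite_eq, if_pos (hT i)]

end cnt

section inv
variable {K : Type} [Field K] [Algebra ℂ K]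

theorem map_linF (σ : K ≃ₐ[ℂ] K) (z : Fin 4 → K) :
    map (σ : K →+* K) (linF z) = linF (fun i => σ (z i)) := by
  unfold linF
  rw [map_sum]
  refine Finset.sum_congr rfl fun j _ => ?_
  rw [map_mul, map_C, map_X]
  rfl

theorem cntZ_conj {F : MvPolynomial (Fin 4) ℂ} {ξ : Fin 4 → K} {w : ℕ} (Γ : EffCorr F ξ w)
    (σ : K ≃ₐ[ℂ] K) (hσ : ∀ i, σ (ξ i) = ξ i) (p : ℙ K (Fin 4 → K)) :
    cntZ Γ.pts (sp σ p) = cntZ Γ.pts p := by
  classical
  have h1 : (σ : K →+* K).comp (aeval ξ : MvPolynomial (Fin 4) ℂ →ₐ[ℂ] K).toRingHom =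
      (aeval ξ : MvPolynomial (Fin 4) ℂ →ₐ[ℂ] K).toRingHom := by
    have h2 : (σ : K →ₐ[ℂ] K).comp (aeval ξ) = (aeval ξ : MvPolynomial (Fin 4) ℂ →ₐ[ℂ] K) := by
      refine algHom_ext fun i => ?_
      simp [hσ i]
    exact congrArg AlgHom.toRingHom h2
  have h3 : C (σ Γ.c) * ∏ i, linF (fun k => σ (Γ.pts i k)) = C Γ.c * ∏ i, linF (Γ.pts i) := by
    rw [← Γ.fac]
    have h4 := congrArg (map (σ : K →+* K)) Γ.fac
    rw [map_map, h1, map_mul, map_C, map_prod] at h4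
    rw [h4]
    congr 1
    refine Finset.prod_congr rfl fun i _ => ?_
    rw [map_linF]
  have h5 := map_pp_eq (fun i => fun k => σ (Γ.pts i k)) Γ.pts
    (fun i => conj_ne_zero σ (Γ.pts_ne i)) Γ.pts_ne (by simpa using Γ.c_ne) Γ.c_ne h3
  rw [← cntZ_congr _ _ h5]
  unfold cntZ
  refine Finset.sum_congr rfl fun i _ => ?_
  have h6 : (pp fun k => σ (Γ.pts i k)) = sp σ (pp (Γ.pts i)) := (sp_pp σ (Γ.pts_ne i)).symm
  rw [h6]
  by_cases h7 : pp (Γ.pts i) = p
  · rw [if_pos h7, if_pos (by rw [h7])]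
  · rw [if_neg h7, if_neg fun h8 => h7 (sp_injective σ h8)]

end inv

section rel
variable {K : Type} [Field K] [Algebra ℂ K]

theorem eval_smul_hom {σ R : Type*} [CommRing R] {f : MvPolynomial σ R} {n : ℕ}
    (hf : f.IsHomogeneous n) (c : R) (z : σ → R) : eval (c • z) f = c ^ n * eval z f := by
  rw [eval_eq, eval_eq, Finset.mul_sum]
  refine Finset.sum_congr rfl fun m hm => ?_
  have h1 : ∑ i ∈ m.support, m i = n := by
    have := hf (mem_support_iff.1 hm)
    rwa [Finsupp.weight_apply, Finsupp.sum, Finset.sum_congr rfl (fun i _ => by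
      rw [Pi.one_apply, smul_eq_mul, mul_one])] at this
  have h2 : ∏ i ∈ m.support, (c • z) i ^ m i = c ^ n * ∏ i ∈ m.support, z i ^ m i := by
    rw [← h1, ← Finset.prod_pow_eq_pow_sum, ← Finset.prod_mul_distrib]
    refine Finset.prod_congr rfl fun i _ => ?_
    rw [Pi.smul_apply, smul_eq_mul, mul_pow]
  rw [h2]
  ring

/-- the relation of the residues, extended to forms over `K` -/
theorem relation {F : MvPolynomial (Fin 4) ℂ} {n : ℕ} {ξ : Fin 4 → K} {w w' : ℕ}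
    {Γ : EffCorr F ξ w} {Γ' : EffCorr F ξ w'} {m : ℂ} (hact : ActsByScalar F n Γ Γ' m)
    (D₁ D₂ : Derivation ℂ K K) (J : Fin w → K) (J' : Fin w' → K) (J₀ : K)
    (hJ : ∀ i, IsRes F D₁ D₂ (Γ.pts i) (J i)) (hJ' : ∀ i, IsRes F D₁ D₂ (Γ'.pts i) (J' i))
    (hJ₀ : IsRes F D₁ D₂ ξ J₀) (f : MvPolynomial (Fin 4) K) (hf : f.IsHomogeneous n) :
    ∑ i, eval (Γ.pts i) f * J i - ∑ i, eval (Γ'.pts i) f * J' i -
      algebraMap ℂ K m * (eval ξ f * J₀) = 0 := by
  have h1 : ∀ e : Fin 4 →₀ ℕ, coeff e f ≠ 0 →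
      ∑ i, eval (Γ.pts i) (monomial e 1) * J i - ∑ i, eval (Γ'.pts i) (monomial e 1) * J' i -
      algebraMap ℂ K m * (eval ξ (monomial e 1) * J₀) = 0 := by
    intro e he
    have h2 := hact D₁ D₂ (monomial e 1) (isHomogeneous_monomial _ (by
      rw [Finsupp.degree_eq_weight_one]
      exact hf he)) J J' J₀ hJ hJ' hJ₀
    have h3 : ∀ z : Fin 4 → K, aeval z (monomial e (1 : ℂ)) = eval z (monomial e (1 : K)) := by
      intro z
      rw [aeval_monomial, eval_monomial, map_one]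
    simp only [h3] at h2
    rw [h2, sub_self]
  have h4 : ∀ z : Fin 4 → K, eval z f =
      ∑ e ∈ f.support, coeff e f * eval z (monomial e 1) := by
    intro z
    conv_lhs => rw [f.as_sum, map_sum]
    refine Finset.sum_congr rfl fun e _ => ?_
    rw [eval_monomial, eval_monomial, one_mul]
  have h5 : ∀ (v : ℕ) (y : Fin v → Fin 4 → K) (J : Fin v → K), ∑ i, eval (y i) f * J i =
      ∑ e ∈ f.support, coeff e f * ∑ i, eval (y i) (monomial e 1) * J i := by
    intro v y J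
    simp only [h4, Finset.sum_mul, Finset.mul_sum]
    rw [Finset.sum_comm]
    refine Finset.sum_congr rfl fun e _ => Finset.sum_congr rfl fun i _ => ?_
    ring
  have h6 : algebraMap ℂ K m * (eval ξ f * J₀) =
      ∑ e ∈ f.support, coeff e f * (algebraMap ℂ K m * (eval ξ (monomial e 1) * J₀)) := by
    rw [h4 ξ, Finset.sum_mul, Finset.mul_sum]
    refine Finset.sum_congr rfl fun e _ => ?_
    ring
  rw [h5, h5, h6, ← Finset.sum_sub_distrib, ← Finset.sum_sub_distrib]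
  refine Finset.sum_eq_zero fun e he => ?_
  rw [← mul_sub, ← mul_sub, h1 e (mem_support_iff.1 he), mul_zero]

end rel

section model
variable {K : Type} [Field K]

theorem uK_smul (c : K) (z : Fin 4 → K) : uK (c • z) = Polynomial.C c • uK z := by
  funext i
  fin_cases i
  · simp [uK]
  · simp [uK]
  · simp [uK, mul_add, mul_assoc]

theorem uR_smul (c : K) (z : Fin 4 → K) :
    uR (c • z) = algebraMap (Polynomial K) (RatFunc K) (Polynomial.C c) • uR z := by
  funext i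
  unfold uR
  rw [uK_smul]
  simp

theorem on_smul {h : ℕ} (M : CurveModel K h) {c : K} (hc : c ≠ 0) (z : Fin 4 → K) :
    M.On (c • z) ↔ M.On z := by
  unfold CurveModel.On
  rw [uK_smul, eval_smul_hom M.G_hom, mul_eq_zero, pow_eq_zero_iff', Polynomial.C_eq_zero]
  constructor
  · rintro (h1 | h1)
    · exact absurd h1.1 hc
    · exact h1
  · exact Or.inr

theorem eval_uR_smul {e : ℕ} {f : MvPolynomial (Fin 3) (RatFunc K)} (hf : f.IsHomogeneous e)
    {c : K} (hc : c ≠ 0) (z : Fin 4 → K) : eval (uR (c • z)) f = 0 ↔ eval (uR z) f = 0 := by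
  rw [uR_smul, eval_smul_hom hf, mul_eq_zero, pow_eq_zero_iff']
  constructor
  · rintro (h1 | h1)
    · exfalso
      have h2 := (map_eq_zero_iff _ (IsFractionRing.injective (Polynomial K) (RatFunc K))).1 h1.1
      exact hc (Polynomial.C_eq_zero.1 h2)
    · exact h1
  · exact Or.inr

/-- change of the representatives of the points -/
noncomputable def transport {n : ℕ} {ι ι' : Type} {y : ι → Fin 4 → K} {y' : ι' → Fin 4 → K}
    (S : ModelSys n y) (e : ι' ≃ ι) (c : ι' → K) (hc : ∀ i, c i ≠ 0)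
    (h : ∀ i, y' i = c i • y (e i)) : ModelSys n y' where
  J := S.J
  fin := S.fin
  h := S.h
  M := S.M
  one_le := S.one_le
  irr := S.irr
  na := S.na
  deg := S.deg
  cover := by
    intro i
    obtain ⟨j, hj⟩ := S.cover (e i)
    exact ⟨j, by rw [h i, on_smul _ (hc i)]; exact hj⟩
  only := by
    intro j
    obtain ⟨i, hi, hl⟩ := S.only j
    refine ⟨e.symm i, ?_, fun l hlj => ?_⟩
    · rw [h, on_smul _ (hc _), e.apply_symm_apply]
      exact hi
    · rw [h, on_smul _ (hc _), e.apply_symm_apply]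
      exact hl l hlj
  uniq := by
    intro k f hf hk h0
    refine S.uniq k f hf hk fun i => ?_
    have h1 := h0 (e.symm i)
    rw [h, eval_uR_smul hf (hc _), e.apply_symm_apply] at h1
    exact h1

end model

section reldata
variable {K : Type} [Field K] [Algebra ℂ K]

theorem relData_LK {F : MvPolynomial (Fin 4) ℂ} {d n : ℕ} (hd : d = n + 4)
    (hF : IsSmoothForm F d) {δ₁ δ₂ : Derivation ℂ K K} {ι : Type} [Fintype ι]
    {y : ι → Fin 4 → K} {J ν : ι → K} (hR : RelData F n δ₁ δ₂ y J ν)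
    (L : Matrix (Fin 4) (Fin 4) ℂ) (hL : IsUnit L.det) (c : ι → K) (hc : ∀ i, c i ≠ 0) :
    RelData (FL L F) n δ₁ δ₂ (fun i => c i • LK L (y i))
      (fun i => algebraMap ℂ K L.det * J i * (c i ^ n)⁻¹) ν where
  np := by
    refine ⟨fun i => smul_ne_zero (hc i) (LK_ne_zero L hL (hR.np.1 i)), fun i j hij r h => ?_⟩
    have h1 : LK L (y i) = ((c i)⁻¹ * r * c j) • LK L (y j) := by
      have h2 : LK L (y i) = (c i)⁻¹ • c i • LK L (y i) := by
        rw [smul_smul, inv_mul_cancel₀ (hc i), one_smul]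
      rw [h2]
      dsimp only at h
      rw [h, smul_smul, smul_smul, mul_assoc]
    rw [← LK_smul] at h1
    have h3 := congrArg (LK L⁻¹) h1
    rw [LK_inv_LK L hL, LK_inv_LK L hL] at h3
    exact hR.np.2 i j hij _ h3
  mem := by
    intro i
    rw [← LK_smul, aeval_FL L hL]
    have h1 := hR.mem i
    have h2 : aeval (c i • y i) F = c i ^ d * aeval (y i) F := by
      have h3 := eval_smul_hom (hF.hom.map (algebraMap ℂ K)) (c i) (y i)
      rwa [eval_map, eval_map] at h3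
    rw [h2, h1, mul_zero]
  res := by
    intro i
    have h1 := (isRes_LK (hR.res i) L hL).smul (isSmoothForm_FL hF L hL) (by omega) (c i) (hc i)
    have h2 : d - 4 = n := by omega
    rw [h2] at h1
    exact h1
  ne := hR.ne
  rel := by
    intro f hf
    set g : MvPolynomial (Fin 4) K :=
      bind₁ (fun i => ∑ j, C (algebraMap ℂ K (L i j)) * X j) f with hg
    have hgh : g.IsHomogeneous n := by
      have h1 := hf.aeval (fun i => ∑ j, C (algebraMap ℂ K (L i j)) * X j) (n := 1) (fun i => by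
        refine IsHomogeneous.sum _ _ _ fun j _ => ?_
        have := (isHomogeneous_C (Fin 4) (algebraMap ℂ K (L i j))).mul (isHomogeneous_X K j)
        rwa [zero_add] at this)
      rw [one_mul] at h1
      exact h1
    have hge : ∀ z : Fin 4 → K, eval z g = eval (LK L z) f := by
      intro z
      rw [hg, ← coe_aeval_eq_eval, ← coe_aeval_eq_eval]
      simp only [RingHom.coe_coe]
      rw [aeval_bind₁]
      congr 2
      funext i
      rw [map_sum, LK_apply]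
      refine Finset.sum_congr rfl fun j _ => ?_
      rw [map_mul, aeval_C, aeval_X]
      rfl
    have h2 := hR.rel g hgh
    have h3 : ∀ i ∈ (Finset.univ : Finset ι), ν i * (algebraMap ℂ K L.det * J i * (c i ^ n)⁻¹ *
        eval (c i • LK L (y i)) f) = algebraMap ℂ K L.det * (ν i * (J i * eval (y i) g)) := by
      intro i _
      rw [eval_smul_hom hf, hge]
      have : c i ^ n ≠ 0 := pow_ne_zero _ (hc i)
      field_simp
    rw [Finset.sum_congr rfl h3, ← Finset.mul_sum, h2, mul_zero]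

end reldata

section fab
variable {X : Type}

open scoped Classical in
/-- the coefficient of a point in an element of the free abelian group -/
noncomputable def coef (p : X) : FreeAbelianGroup X →+ ℤ :=
  FreeAbelianGroup.lift fun q => if q = p then 1 else 0

open scoped Classical in
theorem coef_of (p q : X) : coef p (FreeAbelianGroup.of q) = if q = p then 1 else 0 :=
  FreeAbelianGroup.lift_apply_of _ _

theorem coef_eq (p : X) (x : FreeAbelianGroup X) : coef p x = FreeAbelianGroup.toFinsupp x p := by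
  classical
  have h : coef p = (Finsupp.applyAddHom p).comp (FreeAbelianGroup.toFinsupp) := by
    refine FreeAbelianGroup.lift_ext _ _ fun q => ?_
    rw [coef_of, AddMonoidHom.comp_apply, FreeAbelianGroup.toFinsupp_of, Finsupp.applyAddHom_apply,
      Finsupp.single_apply]
  rw [h]
  rfl

theorem ext_coef {x y : FreeAbelianGroup X} (h : ∀ p, coef p x = coef p y) : x = y := by
  refine (FreeAbelianGroup.equivFinsupp X).injective ?_
  ext p
  have := h p
  rw [coef_eq, coef_eq] at this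
  exact this

end fab

section coefs
variable {K : Type} [Field K]

open scoped Classical in
/-- coefficients of a cycle with normalised points -/
theorem coef_sum (μ : (Fin 4 → K) →₀ ℕ) (g : (Fin 4 → K) → Fin 4 → K) (p : ℙ K (Fin 4 → K))
    (z₀ : Fin 4 → K) (h : ∀ z, μ z ≠ 0 → pp (g z) = p → z = z₀) :
    coef p (μ.sum fun z k => k • FreeAbelianGroup.of (pp (g z))) =
      if pp (g z₀) = p then (μ z₀ : ℤ) else 0 := by
  rw [Finsupp.sum, map_sum]
  have h1 : ∀ z ∈ μ.support, coef p (μ z • FreeAbelianGroup.of (pp (g z))) =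
      if z = z₀ then (if pp (g z₀) = p then (μ z₀ : ℤ) else 0) else 0 := by
    intro z hz
    rw [map_nsmul, coef_of]
    by_cases hz0 : z = z₀
    · subst hz0
      rw [if_pos rfl]
      split_ifs <;> simp
    · rw [if_neg hz0, if_neg fun h2 => hz0 (h z (Finsupp.mem_support_iff.1 hz) h2), smul_zero]
  rw [Finset.sum_congr rfl h1, Finset.sum_ite_eq']
  by_cases h2 : z₀ ∈ μ.support
  · rw [if_pos h2]
  · rw [if_neg h2]
    rw [Finsupp.notMem_support_iff] at h2
    rw [h2]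
    simp

theorem coef_sum_zero (μ : (Fin 4 → K) →₀ ℕ) (g : (Fin 4 → K) → Fin 4 → K) (p : ℙ K (Fin 4 → K))
    (h : ∀ z, μ z ≠ 0 → pp (g z) ≠ p) :
    coef p (μ.sum fun z k => k • FreeAbelianGroup.of (pp (g z))) = 0 := by
  classical
  rw [Finsupp.sum, map_sum]
  refine Finset.sum_eq_zero fun z hz => ?_
  rw [map_nsmul, coef_of, if_neg (h z (Finsupp.mem_support_iff.1 hz)), smul_zero]

end coefs


section asm
variable {K : Type} [Field K] [Algebra ℂ K]

open scoped Classical in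
/-- the multiplicity of a point in the cycle to be decomposed -/
noncomputable def nuZ {F : MvPolynomial (Fin 4) ℂ} {ξ : Fin 4 → K} {w w' : ℕ}
    (Γ : EffCorr F ξ w) (Γ' : EffCorr F ξ w') (m₀ : ℤ) (p : ℙ K (Fin 4 → K)) : ℤ :=
  cntZ Γ.pts p - cntZ Γ'.pts p - if pp ξ = p then m₀ else 0

theorem nuZ_finite {F : MvPolynomial (Fin 4) ℂ} {ξ : Fin 4 → K} {w w' : ℕ}
    (Γ : EffCorr F ξ w) (Γ' : EffCorr F ξ w') (m₀ : ℤ) :
    {p | nuZ Γ Γ' m₀ p ≠ 0}.Finite := by
  refine ((Set.finite_range (fun i => pp (Γ.pts i))).union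
    ((Set.finite_range (fun i => pp (Γ'.pts i))).union (Set.finite_singleton (pp ξ)))).subset ?_
  intro p hp
  by_contra h
  apply hp
  have h1 : cntZ Γ.pts p = 0 := cntZ_eq_zero _ _ fun i hi => h (Or.inl ⟨i, hi⟩)
  have h2 : cntZ Γ'.pts p = 0 := cntZ_eq_zero _ _ fun i hi => h (Or.inr (Or.inl ⟨i, hi⟩))
  have h3 : pp ξ ≠ p := fun hi => h (Or.inr (Or.inr hi.symm))
  unfold nuZ
  rw [h1, h2, if_neg h3]
  rfl

theorem sp_xi {ξ : Fin 4 → K} (hξ0 : ξ ≠ 0) (σ : K ≃ₐ[ℂ] K) (hσ : ∀ i, σ (ξ i) = ξ i) :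
    sp σ (pp ξ) = pp ξ := by
  rw [sp_pp σ hξ0]
  congr 1
  funext i
  exact hσ i

theorem nuZ_conj {F : MvPolynomial (Fin 4) ℂ} {ξ : Fin 4 → K} (hξ0 : ξ ≠ 0) {w w' : ℕ}
    (Γ : EffCorr F ξ w) (Γ' : EffCorr F ξ w') (m₀ : ℤ) (σ : K ≃ₐ[ℂ] K)
    (hσ : ∀ i, σ (ξ i) = ξ i) (p : ℙ K (Fin 4 → K)) :
    nuZ Γ Γ' m₀ (sp σ p) = nuZ Γ Γ' m₀ p := by
  unfold nuZ
  rw [cntZ_conj Γ σ hσ, cntZ_conj Γ' σ hσ]
  congr 1
  by_cases h : pp ξ = p
  · rw [if_pos h, if_pos (by rw [← h, sp_xi hξ0 σ hσ])]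
  · rw [if_neg h, if_neg]
    intro h1
    apply h
    rw [← sp_xi hξ0 σ hσ] at h1
    exact sp_injective σ h1

theorem norm_unique (L : Matrix (Fin 4) (Fin 4) ℂ) {z z₀ : Fin 4 → K} (h : LK L z 0 = 1)
    (h₀ : LK L z₀ 0 = 1) (hp : pp z = pp z₀) : z = z₀ := by
  have hz : z ≠ 0 := by
    rintro rfl
    rw [LK_zero] at h
    exact zero_ne_one h
  have hz₀ : z₀ ≠ 0 := by
    rintro rfl
    rw [LK_zero] at h₀
    exact zero_ne_one h₀
  obtain ⟨a, ha⟩ := (pp_eq_pp hz hz₀).1 hp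
  have h1 : a = 1 := by
    have h2 : LK L z 0 = a * LK L z₀ 0 := by rw [← ha, LK_smul]; rfl
    rw [h, h₀, mul_one] at h2
    exact h2.symm
  rw [← ha, h1, one_smul]

theorem coef_cy {F : MvPolynomial (Fin 4) ℂ} {ξ : Fin 4 → K} {w : ℕ}
    (Γ : EffCorr F ξ w) (p : ℙ K (Fin 4 → K)) : coef p Γ.cy = cntZ Γ.pts p := by
  classical
  unfold EffCorr.cy cntZ
  rw [map_sum]
  refine Finset.sum_congr rfl fun i _ => ?_
  rw [coef_of]

theorem coef_lhs {F : MvPolynomial (Fin 4) ℂ} {ξ : Fin 4 → K} {w w' : ℕ}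
    (Γ : EffCorr F ξ w) (Γ' : EffCorr F ξ w') (m₀ : ℤ) (p : ℙ K (Fin 4 → K)) :
    coef p (Γ.cy - Γ'.cy - m₀ • FreeAbelianGroup.of (pp ξ)) = nuZ Γ Γ' m₀ p := by
  classical
  unfold nuZ
  rw [map_sub, map_sub, map_zsmul, coef_cy, coef_cy, coef_of]
  congr 1
  split_ifs <;> simp

variable [IsAlgClosed K] [CharZero K]

theorem assemble {F : MvPolynomial (Fin 4) ℂ} {d : ℕ} (hd : 5 ≤ d)
    (hF : IsSmoothForm F d) {ξ : Fin 4 → K} (hξ : IsGenericPoint F ξ) {w w' : ℕ}
    (Γ : EffCorr F ξ w) (Γ' : EffCorr F ξ w') (m₀ : ℤ)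
    (δ₁ δ₂ : Derivation ℂ K K) (hδ : ∀ D : Derivation ℂ K K, ∃ α β : K, D = α • δ₁ + β • δ₂)
    (L : Matrix (Fin 4) (Fin 4) ℂ) (hL : IsUnit L.det) (Jt : Type) [Fintype Jt] (h : Jt → ℕ)
    (M : ∀ j, CurveModel K (h j)) (κ : Jt → ℤ) (μ : Jt → (Fin 4 → K) →₀ ℕ) (β₂ β₃ : ℂ)
    (hν : ∀ p, nuZ Γ Γ' m₀ p ≠ 0 → aeval p.rep F = 0 ∧ LK L p.rep 0 ≠ 0)
    (hμ : ∀ j, (M j).IsCycle ((M j).xF (FL L F)) (μ j)) (hx : ∀ j, (M j).xF (FL L F) ≠ 0)
    (hinf : ∀ z : Fin 4 → K, z ≠ 0 → z 0 = 0 → aeval z (FL L F) = 0 → ∀ j, ¬ (M j).On z)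
    (hβ : aeval ![0, 1, β₂, β₃] (FL L F) ≠ 0)
    (hμs : ∀ j z, μ j z ≠ 0 → z 0 = 1 ∧ aeval z (FL L F) = 0)
    (hκ : ∀ z : Fin 4 → K, z 0 = 1 → aeval z (FL L F) = 0 → ¬ IsRes (FL L F) δ₁ δ₂ z 0 →
      ∑ j, κ j * (μ j z : ℤ) = nuZ Γ Γ' m₀ (pp (LK L⁻¹ z)))
    (hinv : ∀ (σ : K ≃ₐ[ℂ] K), (∀ i, σ (ξ i) = ξ i) → ∀ z : Fin 4 → K,
      ∑ j, κ j * (μ j (fun i => σ (z i)) : ℤ) = ∑ j, κ j * (μ j z : ℤ)) :
    Nonempty (DecompK F ξ Γ Γ' m₀) := by
  classical
  have hξ0 : ξ ≠ 0 := by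
    intro h
    have := hξ.one
    rw [h] at this
    exact zero_ne_one this
  have hne : ∀ z : Fin 4 → K, LK L z 0 = 1 → z ≠ 0 := by
    rintro z hz rfl
    rw [LK_zero] at hz
    exact zero_ne_one hz
  set nd : (Fin 4 → K) → ℤ := fun z =>
    (if LK L z 0 = 1 then nuZ Γ Γ' m₀ (pp z) else 0) - ∑ j, κ j * (μ j (LK L z) : ℤ) with hnd
  have hμ0 : ∀ z : Fin 4 → K, ¬ (LK L z 0 = 1 ∧ aeval z F = 0) →
      ∑ j, κ j * (μ j (LK L z) : ℤ) = 0 := by
    intro z hz
    refine Finset.sum_eq_zero fun j _ => ?_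
    have h1 : μ j (LK L z) = 0 := by
      by_contra h2
      have h3 := hμs j _ h2
      rw [aeval_FL L hL] at h3
      exact hz h3
    rw [h1, Nat.cast_zero, mul_zero]
  have F1 : ∀ z, nd z ≠ 0 → LK L z 0 = 1 := by
    intro z hz
    by_contra h1
    apply hz
    simp only [hnd]
    rw [if_neg h1, hμ0 z fun h2 => h1 h2.1, sub_zero]
  have F2 : ∀ z, nd z ≠ 0 → aeval z F = 0 := by
    intro z hz
    by_contra h1
    apply hz
    simp only [hnd]
    rw [if_pos (F1 z hz), hμ0 z fun h2 => h1 h2.2, sub_zero]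
    by_contra h2
    obtain ⟨h3, -⟩ := hν _ h2
    obtain ⟨a, ha, hav⟩ := pp_rep_eq (hne z (F1 z hz))
    rw [hav] at h3
    have h4 := eval_smul_hom (hF.hom.map (algebraMap ℂ K)) a z
    rw [eval_map, eval_map] at h4
    have h5 : aeval (a • z) F = a ^ d * aeval z F := h4
    rw [h5] at h3
    rcases mul_eq_zero.1 h3 with h6 | h6
    · exact ha (pow_eq_zero_iff'.1 h6).1
    · exact h1 h6
  have F3 : ∀ z, nd z ≠ 0 → IsRes F δ₁ δ₂ z 0 := by
    intro z hz
    by_contra h1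
    apply hz
    have hz1 := F1 z hz
    have hz2 := F2 z hz
    simp only [hnd]
    rw [if_pos hz1, hκ (LK L z) hz1 (by rw [aeval_FL L hL]; exact hz2)
      (fun h2 => h1 (isRes_zero_LK hF δ₁ δ₂ (hne z hz1) hz2 L hL h2)), LK_inv_LK L hL, sub_self]
  have F4 : ∀ (σ : K ≃ₐ[ℂ] K), (∀ i, σ (ξ i) = ξ i) → ∀ z : Fin 4 → K,
      nd (fun i => σ (z i)) = nd z := by
    intro σ hσ z
    simp only [hnd]
    rw [LK_conj, hinv σ hσ]
    congr 1
    by_cases h1 : LK L z 0 = 1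
    · have h2 : (fun i => σ (LK L z i)) 0 = 1 := by
        change σ (LK L z 0) = 1
        rw [h1, map_one]
      rw [if_pos h1, if_pos h2, ← sp_pp σ (hne z h1), nuZ_conj hξ0 Γ Γ' m₀ σ hσ]
    · rw [if_neg h1, if_neg]
      intro h2
      apply h1
      have h3 : σ (LK L z 0) = σ 1 := by
        rw [map_one]
        exact h2
      exact σ.injective h3
  have hLinj : Function.Injective (LK L : (Fin 4 → K) → Fin 4 → K) := by
    intro z z' hzz
    rw [← LK_inv_LK L hL z, hzz, LK_inv_LK L hL]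
  have F5 : (Function.support nd).Finite := by
    have h1 : {z : Fin 4 → K | LK L z 0 = 1 ∧ nuZ Γ Γ' m₀ (pp z) ≠ 0}.Finite := by
      refine Set.Finite.of_injOn (f := pp) (t := {p | nuZ Γ Γ' m₀ p ≠ 0}) (fun z hz => hz.2) ?_
        (nuZ_finite Γ Γ' m₀)
      intro z hz z' hz' hzz
      exact norm_unique L hz.1 hz'.1 hzz
    have h2 : (⋃ j : Jt, {z : Fin 4 → K | μ j (LK L z) ≠ 0}).Finite := by
      refine Set.finite_iUnion fun j => ?_
      have h3 : {z : Fin 4 → K | μ j (LK L z) ≠ 0} = LK L ⁻¹' ((μ j).support : Set _) := by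
        ext z
        simp
      rw [h3]
      exact (Finset.finite_toSet _).preimage hLinj.injOn
    refine (h1.union h2).subset fun z hz => ?_
    by_contra h3
    rw [Set.mem_union, not_or] at h3
    apply hz
    have h4 : ∑ j, κ j * (μ j (LK L z) : ℤ) = 0 := by
      refine Finset.sum_eq_zero fun j _ => ?_
      have h5 : μ j (LK L z) = 0 := by
        by_contra h6
        exact h3.2 (Set.mem_iUnion.2 ⟨j, h6⟩)
      rw [h5, Nat.cast_zero, mul_zero]
    simp only [hnd]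
    rw [h4, sub_zero]
    split_ifs with h5
    · by_contra h6
      exact h3.1 ⟨h5, h6⟩
    · rfl
  have hIs : ∀ g : (Fin 4 → K) →₀ ℕ, (∀ z, g z ≠ 0 → nd z ≠ 0) →
      (∀ z z', nd z = nd z' → g z = g z') → IsNd F ξ (fun i => L 0 i) g := by
    intro g hg hg'
    refine ⟨fun z hz => ⟨F2 z (hg z hz), F1 z (hg z hz)⟩, fun z hz => ?_, fun σ hσ z =>
      hg' _ _ (F4 σ hσ z)⟩
    have h1 := F1 z (hg z hz)
    have h2 := F2 z (hg z hz)
    have h3 := F3 z (hg z hz)
    exact exists_form_of_dependent (by omega) hF hξ δ₁ δ₂ hδ z (hne z h1) h2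
      ((isRes_zero_iff hF δ₁ δ₂ z (hne z h1) h2).1 h3)
  have hfa : (Function.support fun z => (nd z).toNat).Finite := by
    refine F5.subset fun z hz h1 => hz ?_
    dsimp only
    rw [h1]
    rfl
  have hfb : (Function.support fun z => (- nd z).toNat).Finite := by
    refine F5.subset fun z hz h1 => hz ?_
    dsimp only
    rw [h1]
    rfl
  set a : (Fin 4 → K) →₀ ℕ := Finsupp.ofSupportFinite (fun z => (nd z).toNat) hfa with ha
  set b : (Fin 4 → K) →₀ ℕ := Finsupp.ofSupportFinite (fun z => (- nd z).toNat) hfb with hb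
  have haz : ∀ z, a z = (nd z).toNat := fun z => rfl
  have hbz : ∀ z, b z = (- nd z).toNat := fun z => rfl
  have haz' : ∀ z, a z ≠ 0 → nd z ≠ 0 := by
    intro z hz h1
    rw [haz, h1] at hz
    exact hz rfl
  have hbz' : ∀ z, b z ≠ 0 → nd z ≠ 0 := by
    intro z hz h1
    rw [hbz, h1] at hz
    exact hz rfl
  refine ⟨{ L := L, hL := hL, J := Jt, fin := inferInstance, h := h, M := M, κ := κ, μ := μ,
            cycle := hμ, xF_ne := hx, inf := hinf, β₂ := β₂, β₃ := β₃, hβ := hβ, a := a, b := b,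
            a_nd := hIs a haz' fun z z' h1 => by rw [haz, haz, h1],
            b_nd := hIs b hbz' fun z z' h1 => by rw [hbz, hbz, h1], eq := ?_ }⟩
  refine ext_coef fun p => ?_
  rw [coef_lhs, map_sub, map_add, map_sum]
  have hsum : ∑ j, coef p (κ j • cyPL L⁻¹ (μ j)) = ∑ j, κ j * coef p (cyPL L⁻¹ (μ j)) := by
    refine Finset.sum_congr rfl fun j _ => ?_
    rw [map_zsmul, smul_eq_mul]
  rw [hsum]
  by_cases hp : LK L p.rep 0 = 0
  · have h0 : nuZ Γ Γ' m₀ p = 0 := by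
      by_contra h1
      exact (hν p h1).2 hp
    have h1 : ∀ z : Fin 4 → K, LK L z 0 = 1 → pp z ≠ p := by
      rintro z hz rfl
      obtain ⟨c, hc, hcv⟩ := pp_rep_eq (hne z hz)
      rw [hcv, LK_smul, Pi.smul_apply, hz, smul_eq_mul, mul_one] at hp
      exact hc hp
    have h2 : coef p (cyP a) = 0 :=
      coef_sum_zero a id p fun z hz => h1 z (F1 z (haz' z hz))
    have h3 : coef p (cyP b) = 0 :=
      coef_sum_zero b id p fun z hz => h1 z (F1 z (hbz' z hz))
    have h4 : ∀ j ∈ (Finset.univ : Finset Jt), κ j * coef p (cyPL L⁻¹ (μ j)) = 0 := by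
      intro j _
      have h5 : coef p (cyPL L⁻¹ (μ j)) = 0 :=
        coef_sum_zero (μ j) (LK L⁻¹) p fun z hz => h1 _ (by
          rw [LK_LK_inv L hL]
          exact (hμs j z hz).1)
      rw [h5, mul_zero]
    rw [Finset.sum_eq_zero h4, h2, h3, h0]
    rfl
  · set z₀ : Fin 4 → K := (LK L p.rep 0)⁻¹ • p.rep with hz₀
    have hz₀1 : LK L z₀ 0 = 1 := by
      rw [hz₀, LK_smul, Pi.smul_apply, smul_eq_mul, inv_mul_cancel₀ hp]
    have hz₀p : pp z₀ = p := by
      rw [hz₀, pp_smul p.rep_nonzero (inv_ne_zero hp), pp_rep]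
    have h1 : ∀ z : Fin 4 → K, LK L z 0 = 1 → pp z = p → z = z₀ := fun z hz hzp =>
      norm_unique L hz hz₀1 (hzp.trans hz₀p.symm)
    have h2 : coef p (cyP a) = (a z₀ : ℤ) := by
      have h := coef_sum a id p z₀ fun z hz hzp => h1 z (F1 z (haz' z hz)) hzp
      rw [if_pos (by exact hz₀p)] at h
      exact h
    have h3 : coef p (cyP b) = (b z₀ : ℤ) := by
      have h := coef_sum b id p z₀ fun z hz hzp => h1 z (F1 z (hbz' z hz)) hzp
      rw [if_pos (by exact hz₀p)] at h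
      exact h
    have h4 : ∀ j ∈ (Finset.univ : Finset Jt), κ j * coef p (cyPL L⁻¹ (μ j)) =
        κ j * (μ j (LK L z₀) : ℤ) := by
      intro j _
      have h := coef_sum (μ j) (LK L⁻¹) p (LK L z₀) fun z hz hzp => by
        have h5 := h1 (LK L⁻¹ z) (by rw [LK_LK_inv L hL]; exact (hμs j z hz).1) hzp
        rw [← h5, LK_LK_inv L hL]
      rw [if_pos (by rw [LK_inv_LK L hL]; exact hz₀p)] at h
      exact congrArg (κ j * ·) h
    rw [Finset.sum_congr rfl h4, h2, h3, haz, hbz]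
    have h5 : nd z₀ = nuZ Γ Γ' m₀ p - ∑ j, κ j * (μ j (LK L z₀) : ℤ) := by
      simp only [hnd]
      rw [if_pos hz₀1, hz₀p]
    have h6 := Int.toNat_sub_toNat_neg (nd z₀)
    linarith

end asm

end MainKAux

open MainKAux

variable {K : Type} [Field K] [IsAlgClosed K] [CharZero K] [Algebra ℂ K]

theorem exists_decompK {F : MvPolynomial (Fin 4) ℂ} {d : ℕ} (hd : 5 ≤ d)
    (hF : IsSmoothForm F d) {ξ : Fin 4 → K} (hξ : IsGenericPoint F ξ) {w w' : ℕ}
    (Γ : EffCorr F ξ w) (Γ' : EffCorr F ξ w') (m : ℂ)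
    (hw : 8 * (w + w') < (d - 3) * (d + 1)) (hact : ActsByScalar F (d - 4) Γ Γ' m) :
    ∃ m₀ : ℤ, m = m₀ ∧ Nonempty (DecompK F ξ Γ Γ' m₀) := by
  classical
  obtain ⟨n, hn⟩ : ∃ n, d = n + 4 := ⟨d - 4, by omega⟩
  have hn4 : d - 4 = n := by omega
  rw [hn4] at hact
  obtain ⟨δ₁, δ₂, hδ, hli⟩ := exists_basis_der (by omega) hF hξ
  have hξ0 : ξ ≠ 0 := by
    intro h
    have := hξ.one
    rw [h] at this
    exact zero_ne_one this
  have hinj : Function.Injective (algebraMap ℂ K) := (algebraMap ℂ K).injective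
  have hsmulF : ∀ (a : K) (v : Fin 4 → K), aeval v F = 0 → aeval (a • v) F = 0 := by
    intro a v hv
    have h3 := eval_smul_hom (hF.hom.map (algebraMap ℂ K)) a v
    rw [eval_map, eval_map] at h3
    have h4 : aeval (a • v) F = a ^ d * aeval v F := h3
    rw [h4, hv, mul_zero]
  -- residues at the representatives
  have hres : ∀ p : ℙ K (Fin 4 → K), ∃ J, aeval p.rep F = 0 → IsRes F δ₁ δ₂ p.rep J := by
    intro p
    by_cases h : aeval p.rep F = 0
    · obtain ⟨J, hJ, -⟩ := exists_isRes hF δ₁ δ₂ p.rep p.rep_nonzero h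
      exact ⟨J, fun _ => hJ⟩
    · exact ⟨0, fun h' => absurd h' h⟩
  choose Jr hJr using hres
  have hkey : ∀ v : Fin 4 → K, v ≠ 0 → aeval v F = 0 → ∃ J, IsRes F δ₁ δ₂ v J ∧
      ∀ f : MvPolynomial (Fin 4) K, f.IsHomogeneous n →
        eval v f * J = Jr (pp v) * eval (pp v).rep f := by
    intro v hv hv0
    obtain ⟨a, ha, hav⟩ := pp_rep_eq hv
    have h1 : v = a⁻¹ • (pp v).rep := by
      rw [hav, smul_smul, inv_mul_cancel₀ ha, one_smul]
    have h2 : aeval (pp v).rep F = 0 := by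
      rw [hav]
      exact hsmulF a v hv0
    have h3 := (hJr (pp v) h2).smul hF (by omega) a⁻¹ (inv_ne_zero ha)
    rw [← h1, hn4] at h3
    refine ⟨_, h3, fun f hf => ?_⟩
    have h4 : eval v f = (a⁻¹) ^ n * eval (pp v).rep f := by
      conv_lhs => rw [h1]
      exact eval_smul_hom hf _ _
    rw [h4]
    have h5 : (a⁻¹) ^ n ≠ 0 := pow_ne_zero _ (inv_ne_zero ha)
    field_simp
  choose J hJ hJf using fun i => hkey (Γ.pts i) (Γ.pts_ne i) (Γ.pts_mem i)
  choose J' hJ' hJf' using fun i => hkey (Γ'.pts i) (Γ'.pts_ne i) (Γ'.pts_mem i)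
  obtain ⟨J₀, hJ₀, hJf₀⟩ := hkey ξ hξ0 hξ.zero
  -- multiplicities
  set νK : ℙ K (Fin 4 → K) → K := fun p =>
    (cntZ Γ.pts p : K) - (cntZ Γ'.pts p : K) - (if pp ξ = p then algebraMap ℂ K m else 0) with hνK
  set T : Finset (ℙ K (Fin 4 → K)) := Finset.univ.image (fun i => pp (Γ.pts i)) ∪
    Finset.univ.image (fun i => pp (Γ'.pts i)) ∪ {pp ξ} with hT
  have hT1 : ∀ i, pp (Γ.pts i) ∈ T := fun i => by
    rw [hT]
    exact Finset.mem_union_left _ (Finset.mem_union_left _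
      (Finset.mem_image_of_mem _ (Finset.mem_univ i)))
  have hT2 : ∀ i, pp (Γ'.pts i) ∈ T := fun i => by
    rw [hT]
    exact Finset.mem_union_left _ (Finset.mem_union_right _
      (Finset.mem_image_of_mem _ (Finset.mem_univ i)))
  have hT3 : pp ξ ∈ T := by
    rw [hT]
    exact Finset.mem_union_right _ (Finset.mem_singleton_self _)
  have hTF : ∀ p ∈ T, aeval p.rep F = 0 := by
    intro p hp
    have h1 : ∃ v : Fin 4 → K, v ≠ 0 ∧ aeval v F = 0 ∧ pp v = p := by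
      rw [hT, Finset.mem_union, Finset.mem_union, Finset.mem_image, Finset.mem_image,
        Finset.mem_singleton] at hp
      rcases hp with (⟨i, -, hi⟩ | ⟨i, -, hi⟩) | hp
      · exact ⟨_, Γ.pts_ne i, Γ.pts_mem i, hi⟩
      · exact ⟨_, Γ'.pts_ne i, Γ'.pts_mem i, hi⟩
      · exact ⟨ξ, hξ0, hξ.zero, hp.symm⟩
    obtain ⟨v, hv, hv0, rfl⟩ := h1
    obtain ⟨a, -, hav⟩ := pp_rep_eq hv
    rw [hav]
    exact hsmulF a v hv0
  have hTν : ∀ p, νK p ≠ 0 → p ∈ T := by
    intro p hp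
    by_contra h
    apply hp
    have h1 : cntZ Γ.pts p = 0 := cntZ_eq_zero _ _ fun i hi => h (hi ▸ hT1 i)
    have h2 : cntZ Γ'.pts p = 0 := cntZ_eq_zero _ _ fun i hi => h (hi ▸ hT2 i)
    have h3 : pp ξ ≠ p := fun hi => h (hi ▸ hT3)
    simp only [hνK, h1, h2, if_neg h3, Int.cast_zero, sub_zero]
  have hTcard : T.card ≤ w + w' + 1 := by
    rw [hT]
    refine (Finset.card_union_le _ _).trans ?_
    rw [Finset.card_singleton]
    refine Nat.add_le_add_right ((Finset.card_union_le _ _).trans ?_) 1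
    exact Nat.add_le_add (Finset.card_image_le.trans (by simp))
      (Finset.card_image_le.trans (by simp))
  have hrel : ∀ f : MvPolynomial (Fin 4) K, f.IsHomogeneous n →
      ∑ p ∈ T, νK p * (Jr p * eval p.rep f) = 0 := by
    intro f hf
    have h1 := relation hact δ₁ δ₂ J J' J₀ hJ hJ' hJ₀ f hf
    have h2 := sum_cntZ_mul Γ.pts T hT1 fun p => Jr p * eval p.rep f
    have h3 := sum_cntZ_mul Γ'.pts T hT2 fun p => Jr p * eval p.rep f
    have h4 : ∀ p ∈ T, νK p * (Jr p * eval p.rep f) =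
        (cntZ Γ.pts p : K) * (Jr p * eval p.rep f) - (cntZ Γ'.pts p : K) * (Jr p * eval p.rep f) -
        (if pp ξ = p then algebraMap ℂ K m * (Jr p * eval p.rep f) else 0) := by
      intro p _
      simp only [hνK]
      split_ifs <;> ring
    rw [Finset.sum_congr rfl h4, Finset.sum_sub_distrib, Finset.sum_sub_distrib, h2, h3,
      Finset.sum_ite_eq, if_pos hT3, ← hJf₀ f hf, ← h1]
    congr 2
    · exact Finset.sum_congr rfl fun i _ => (hJf i f hf).symm
    · exact Finset.sum_congr rfl fun i _ => (hJf' i f hf).symm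
  set Y : Finset (ℙ K (Fin 4 → K)) := T.filter fun p => νK p ≠ 0 with hY
  have hYmem : ∀ p, p ∈ Y ↔ νK p ≠ 0 := by
    intro p
    rw [hY, Finset.mem_filter]
    exact ⟨fun h => h.2, fun h => ⟨hTν p h, h⟩⟩
  have hYF : ∀ p ∈ Y, aeval p.rep F = 0 := fun p hp => hTF p (hTν p ((hYmem p).1 hp))
  have hR : RelData F n δ₁ δ₂ (fun i : {p // p ∈ Y} => i.1.rep) (fun i => Jr i.1)
      (fun i => νK i.1) := by
    refine ⟨⟨fun i => i.1.rep_nonzero, fun i j hij r h => hij ?_⟩, fun i => hYF _ i.2,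
      fun i => hJr _ (hYF _ i.2), fun i => (hYmem _).1 i.2, fun f hf => ?_⟩
    · apply Subtype.ext
      rw [← pp_rep i.1, ← pp_rep j.1]
      exact (pp_eq_pp i.1.rep_nonzero j.1.rep_nonzero).2 ⟨r, h.symm⟩
    · rw [← hrel f hf, Finset.sum_coe_sort Y fun p => νK p * (Jr p * eval p.rep f)]
      refine Finset.sum_subset (Finset.filter_subset _ _) fun p _ hp2 => ?_
      have : νK p = 0 := by
        by_contra h
        exact hp2 ((hYmem p).2 h)
      rw [this, zero_mul]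
  have hcard : 8 * Fintype.card {p // p ∈ Y} < (n + 3) * (n + 5) := by
    have h1 : Fintype.card {p // p ∈ Y} ≤ w + w' + 1 := by
      rw [Fintype.card_coe]
      exact (Finset.card_filter_le _ _).trans hTcard
    have h2 : (d - 3) * (d + 1) = (n + 1) * (n + 5) := by
      subst hn
      congr 1
    rw [h2] at hw
    nlinarith
  obtain ⟨L, hL, hL0, S, hx, hinf, β₂, β₃, hβ⟩ := exists_good_coord hn hF δ₁ δ₂ _ _ _ hR hcard
  have hF' := isSmoothForm_FL hF L hL
  -- normalised points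
  set c : {p // p ∈ Y} → K := fun i => (LK L i.1.rep 0)⁻¹ with hc
  have hc0 : ∀ i, c i ≠ 0 := fun i => inv_ne_zero (hL0 i)
  set y' : {p // p ∈ Y} → Fin 4 → K := fun i => c i • LK L i.1.rep with hy'
  have hy'0 : ∀ i, y' i 0 = 1 := fun i => by
    simp only [hy', hc, Pi.smul_apply, smul_eq_mul]
    exact inv_mul_cancel₀ (hL0 i)
  have hR' := relData_LK hn hF hR L hL c hc0
  set Jn : {p // p ∈ Y} → K := fun i => algebraMap ℂ K L.det * Jr i.1 * (c i ^ n)⁻¹ with hJn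
  have hJn0 : ∀ i, Jn i ≠ 0 ↔ Jr i.1 ≠ 0 := by
    intro i
    have h1 : algebraMap ℂ K L.det ≠ 0 := fun h => hL.ne_zero ((map_eq_zero _).1 h)
    have h2 : (c i ^ n)⁻¹ ≠ 0 := inv_ne_zero (pow_ne_zero _ (hc0 i))
    simp only [hJn]
    constructor
    · intro h h3
      rw [h3, mul_zero, zero_mul] at h
      exact h rfl
    · intro h
      exact mul_ne_zero (mul_ne_zero h1 h) h2
  set S' : ModelSys n (fun i : {i // Jn i ≠ 0} => y' i) :=
    transport S (Equiv.subtypeEquivRight hJn0) (fun i => c i.1) (fun i => hc0 i.1)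
      (fun i => rfl) with hS'
  have hcyc : ∀ j : S'.J, ∃ μ : (Fin 4 → K) →₀ ℕ, (S'.M j).IsCycle ((S'.M j).xF (FL L F)) μ ∧
      (∀ z, μ z ≠ 0 ↔ z 0 = 1 ∧ aeval z (FL L F) = 0 ∧ (S'.M j).On z) ∧
      (μ.sum fun _ k => k) ≤ d * S'.h j := by
    intro j
    obtain ⟨μ, h1, h2, h3⟩ := (S'.M j).exists_cycle (map (algebraMap ℂ K) (FL L F))
      (hF'.hom.map _) (hx j)
    refine ⟨μ, h1, fun z => ?_, h3⟩
    rw [h2 z, eval_map]
    rfl
  choose μ hμ hμs hμd using hcyc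
  set i₀ : Option {p // p ∈ Y} := if h : pp ξ ∈ Y then some ⟨pp ξ, h⟩ else none with hi₀
  have hi₀' : ∀ i : {p // p ∈ Y}, some i ≠ i₀ → pp ξ ≠ i.1 := by
    intro i hi h
    apply hi
    rw [hi₀, dif_pos (h ▸ i.2)]
    exact congrArg some (Subtype.ext h.symm)
  have hN : ∀ i : {p // p ∈ Y}, some i ≠ i₀ →
      νK i.1 = ((cntZ Γ.pts i.1 - cntZ Γ'.pts i.1 : ℤ) : K) := by
    intro i hi
    simp only [hνK]
    rw [if_neg (hi₀' i hi)]
    push_cast
    ring
  have hw' : 8 * ∑ i ∈ Finset.univ.filter (fun i => some i ≠ i₀),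
      |cntZ Γ.pts i.1 - cntZ Γ'.pts i.1| < ((d : ℤ) - 3) * (d + 1) := by
    have h1 : ∑ i ∈ Finset.univ.filter (fun i => some i ≠ i₀),
        |cntZ Γ.pts i.1 - cntZ Γ'.pts i.1| ≤ (w : ℤ) + w' := by
      calc ∑ i ∈ Finset.univ.filter (fun i => some i ≠ i₀),
            |cntZ Γ.pts i.1 - cntZ Γ'.pts i.1|
          ≤ ∑ i : {p // p ∈ Y}, |cntZ Γ.pts i.1 - cntZ Γ'.pts i.1| :=
            Finset.sum_le_sum_of_subset_of_nonneg (Finset.filter_subset _ _)
              fun i _ _ => abs_nonneg _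
        _ = ∑ p ∈ Y, |cntZ Γ.pts p - cntZ Γ'.pts p| :=
            Finset.sum_coe_sort Y fun p => |cntZ Γ.pts p - cntZ Γ'.pts p|
        _ ≤ ∑ p ∈ Y, (cntZ Γ.pts p + cntZ Γ'.pts p) := by
            refine Finset.sum_le_sum fun p _ => ?_
            have h2 := cntZ_nonneg Γ.pts p
            have h3 := cntZ_nonneg Γ'.pts p
            rw [abs_le]
            constructor <;> linarith
        _ ≤ (w : ℤ) + w' := by
            rw [Finset.sum_add_distrib]
            exact add_le_add (sum_cntZ_le _ _) (sum_cntZ_le _ _)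
    have h2 : (8 * (w + w') : ℤ) < ((d : ℤ) - 3) * (d + 1) := by
      have h3 : ((8 * (w + w') : ℕ) : ℤ) < (((d - 3) * (d + 1) : ℕ) : ℤ) := by exact_mod_cast hw
      have h4 : ((d - 3 : ℕ) : ℤ) = (d : ℤ) - 3 := by
        rw [Nat.cast_sub (by omega)]
        rfl
      push_cast [h4] at h3
      exact h3
    linarith
  obtain ⟨κ, hκ⟩ := decomp hn hF' δ₁ δ₂ y' Jn (fun i => νK i.1) hR' hy'0 i₀
    (fun i => cntZ Γ.pts i.1 - cntZ Γ'.pts i.1) hN (by convert hw') S' hx hinf μ hμ hμs hμd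
  -- points with given normalisation
  have hy'L : ∀ i, y' i = LK L (c i • i.1.rep) := fun i => by rw [LK_smul]
  have hyiff : ∀ (i : {p // p ∈ Y}) (z : Fin 4 → K), z 0 = 1 →
      (y' i = z ↔ i.1 = pp (LK L⁻¹ z)) := by
    intro i z hz
    have hz0 : z ≠ 0 := by
      rintro rfl
      exact zero_ne_one hz
    have hLz : LK L⁻¹ z ≠ 0 := by
      intro h
      apply hz0
      rw [← LK_LK_inv L hL z, h, LK_zero]
    constructor
    · rintro rfl
      rw [hy'L, LK_inv_LK L hL, pp_smul i.1.rep_nonzero (hc0 i), pp_rep]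
    · intro h
      obtain ⟨a, ha, hav⟩ := pp_rep_eq hLz
      rw [← h] at hav
      have h1 : LK L i.1.rep = a • z := by rw [hav, LK_smul, LK_LK_inv L hL]
      have h2 : c i = a⁻¹ := by
        simp only [hc, h1, Pi.smul_apply, smul_eq_mul, hz, mul_one]
      simp only [hy']
      rw [h1, h2, smul_smul, inv_mul_cancel₀ ha, one_smul]
  have hνsum : ∀ z : Fin 4 → K, z 0 = 1 →
      (∑ i : {p // p ∈ Y}, if y' i = z then νK i.1 else 0) = νK (pp (LK L⁻¹ z)) := by
    intro z hz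
    have h1 : ∀ i ∈ (Finset.univ : Finset {p // p ∈ Y}), (if y' i = z then νK i.1 else 0) =
        if i.1 = pp (LK L⁻¹ z) then νK (pp (LK L⁻¹ z)) else 0 := by
      intro i _
      by_cases h : y' i = z
      · have h2 := (hyiff i z hz).1 h
        rw [if_pos h, if_pos h2, h2]
      · rw [if_neg h, if_neg fun h2 => h ((hyiff i z hz).2 h2)]
    rw [Finset.sum_congr rfl h1, Finset.sum_coe_sort Y fun p =>
      if p = pp (LK L⁻¹ z) then νK (pp (LK L⁻¹ z)) else 0, Finset.sum_ite_eq']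
    split_ifs with h2
    · rfl
    · by_contra h3
      exact h2 ((hYmem _).2 (Ne.symm h3))
  -- `m` is an integer
  have hξdom : ∀ v : Fin 4 → K, pp v = pp ξ → v ≠ 0 → ¬ IsRes F δ₁ δ₂ v 0 := by
    intro v hv hv0 h
    obtain ⟨a, ha⟩ := (pp_eq_pp hξ0 hv0).1 hv.symm
    have ha0 : a ≠ 0 := by
      rintro rfl
      exact hξ0 (by rw [← ha, zero_smul])
    have h1 := h.smul hF (by omega) a ha0
    rw [ha, zero_mul] at h1
    exact (isRes_zero_iff hF δ₁ δ₂ ξ hξ0 hξ.zero).1 h1 hli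
  have hmint : ∃ m₀ : ℤ, m = m₀ := by
    by_cases h : pp ξ ∈ Y
    · have h1 := hκ (y' ⟨pp ξ, h⟩) (hy'0 _) (hR'.mem _) (fun h2 => by
        rw [hy'L] at h2
        have hne : c ⟨pp ξ, h⟩ • (pp ξ).rep ≠ 0 := smul_ne_zero (hc0 _) (pp ξ).rep_nonzero
        have h3 := isRes_zero_LK hF δ₁ δ₂ hne (hsmulF _ _ (hYF _ h)) L hL h2
        exact hξdom _ (by rw [pp_smul (pp ξ).rep_nonzero (hc0 _), pp_rep]) hne h3)
      rw [hνsum _ (hy'0 _), ← (hyiff _ _ (hy'0 _)).1 rfl] at h1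
      simp only [hνK, if_true] at h1
      refine ⟨cntZ Γ.pts (pp ξ) - cntZ Γ'.pts (pp ξ) -
        ∑ j, κ j * (μ j (y' ⟨pp ξ, h⟩) : ℤ), hinj ?_⟩
      rw [map_intCast]
      push_cast
      rw [h1]
      ring
    · have h1 : νK (pp ξ) = 0 := by
        by_contra h2
        exact h ((hYmem _).2 h2)
      simp only [hνK, if_true] at h1
      refine ⟨cntZ Γ.pts (pp ξ) - cntZ Γ'.pts (pp ξ), hinj ?_⟩
      rw [map_intCast]
      push_cast
      exact (sub_eq_zero.1 h1).symm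
  obtain ⟨m₀, hm₀⟩ := hmint
  refine ⟨m₀, hm₀, ?_⟩
  have hmK : algebraMap ℂ K m = (m₀ : K) := by rw [hm₀, map_intCast]
  have hνc : ∀ p, νK p = (nuZ Γ Γ' m₀ p : K) := by
    intro p
    simp only [hνK, nuZ, hmK]
    push_cast
    split_ifs <;> simp
  have hνY : ∀ p, p ∈ Y ↔ nuZ Γ Γ' m₀ p ≠ 0 := by
    intro p
    rw [hYmem, hνc, Ne, Int.cast_eq_zero]
  have hδ' : ∀ (σ : K ≃ₐ[ℂ] K), (∀ i, σ (ξ i) = ξ i) → ∀ z : Fin 4 → K,
      ∑ j, κ j * (μ j (fun i => σ (z i)) : ℤ) = ∑ j, κ j * (μ j z : ℤ) := by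
    intro σ hσ z
    have hσ' : ∀ i, σ.symm (ξ i) = ξ i := by
      intro i
      rw [AlgEquiv.symm_apply_eq, hσ i]
    have hmem : ∀ p, p ∈ Y ↔ sp σ p ∈ Y := by
      intro p
      rw [hνY, hνY, nuZ_conj hξ0 Γ Γ' m₀ σ hσ]
    set π : {p // p ∈ Y} ≃ {p // p ∈ Y} := Equiv.subtypeEquiv
      ⟨sp σ, sp σ.symm, sp_symm σ, sp_symm σ.symm⟩ hmem with hπ
    have hπ1 : ∀ i, (π i).1 = sp σ i.1 := fun i => rfl
    refine decomp_invariant hn hF' δ₁ δ₂ hδ y' Jn (fun i => νK i.1) hR' hy'0 S' μ hμ hμs κ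
      (fun z h1 h2 h3 => by rw [hκ z h1 h2 h3]) σ π (fun i k => ?_) (fun i => ?_) z
    · have h1 : y' (π i) = fun k => σ (y' i k) := by
        refine (hyiff (π i) (fun k => σ (y' i k)) (by
          rw [hy'0, map_one])).2 ?_
        rw [LK_conj, hπ1, ← sp_pp σ]
        · rw [← (hyiff i (y' i) (hy'0 i)).1 rfl]
        · intro h
          have h2 := congrArg (LK L) h
          rw [LK_LK_inv L hL, LK_zero] at h2
          have h3 := hy'0 i
          rw [h2] at h3
          exact zero_ne_one h3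
      rw [h1]
    · rw [hπ1, hνc, hνc, nuZ_conj hξ0 Γ Γ' m₀ σ hσ]
  refine assemble hd hF hξ Γ Γ' m₀ δ₁ δ₂ hδ L hL S'.J S'.h S'.M κ μ β₂ β₃
    (fun p hp => ?_) hμ hx hinf hβ (fun j z hz => ?_) (fun z h1 h2 h3 => ?_) hδ'
  · have h1 := (hνY p).2 hp
    exact ⟨hYF p h1, hL0 ⟨p, h1⟩⟩
  · have h1 := (hμs j z).1 hz
    exact ⟨h1.1, h1.2.1⟩
  · have h4 : ∑ j, (κ j : K) * (μ j z : K) = νK (pp (LK L⁻¹ z)) := by
      rw [← hνsum z h1, hκ z h1 h2 h3]
    rw [hνc] at h4
    exact_mod_cast h4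

end Pool.Agent.LowDeg
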