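import Pool.Agent.LowDeg.Place

/-! Module A2 (doc section 2.1): the value of a trace. -/

set_option autoImplicit false
set_option linter.unusedSectionVars false

open Polynomial IntermediateField

namespace Pool.Agent.LowDeg

namespace TraceValAux

open IsDedekindDomain

/-- an integral element over an algebraically closed field is a constant -/
lemma mem_range_of_isIntegral {K R : Type} [Field K] [IsAlgClosed K] [CommRing R] [IsDomain R]
    [Algebra K R] (x : R) (hx : IsIntegral K x) : ∃ c : K, algebraMap K R c = x := by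
  have h := minpoly.mem_range_of_degree_eq_one K x
    (IsAlgClosed.degree_eq_one_of_irreducible K (minpoly.irreducible hx))
  exact h

section Residue

variable {K B : Type} [Field K] [IsAlgClosed K] [CommRing B] [IsDomain B]
  [Algebra K B] [Algebra K[X] B] [IsScalarTower K K[X] B] [Algebra.IsIntegral K[X] B]

/-- residue fields are `K` -/
lemma exists_residue (v : Ideal B) [v.IsPrime] (hv : v ≠ ⊥) (b : B) :
    ∃ c : K, b - algebraMap K B c ∈ v := by
  classical
  -- the contraction to `K[X]` is nonzero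
  obtain ⟨y, hy, hy0⟩ := Submodule.exists_mem_ne_zero_of_ne_bot hv
  have h1 : Ideal.comap (algebraMap K[X] B) v ≠ ⊥ :=
    Ideal.comap_ne_bot_of_integral_mem hy0 hy (Algebra.IsIntegral.isIntegral y)
  obtain ⟨f, hf, hf0⟩ := Submodule.exists_mem_ne_zero_of_ne_bot h1
  have hmk : ∀ g : K[X], Ideal.Quotient.mk v (algebraMap K[X] B g) =
      aeval (Ideal.Quotient.mk v (algebraMap K[X] B X)) g := by
    intro g
    have h2 : (Ideal.Quotient.mk v).comp (algebraMap K[X] B) =
        (aeval (R := K) (Ideal.Quotient.mk v (algebraMap K[X] B X))).toRingHom := by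
      apply Polynomial.ringHom_ext
      · intro a
        simp only [RingHom.coe_comp, Function.comp_apply, AlgHom.toRingHom_eq_coe, RingHom.coe_coe,
          aeval_C]
        have h3 : algebraMap K[X] B (C a) = algebraMap K B a := by
          rw [IsScalarTower.algebraMap_apply K K[X] B]; rfl
        rw [h3]; rfl
      · simp
    exact congrArg (fun φ : K[X] →+* B ⧸ v => φ g) h2
  have hX : IsIntegral K (Ideal.Quotient.mk v (algebraMap K[X] B X)) := by
    apply IsAlgebraic.isIntegral
    refine ⟨f, hf0, ?_⟩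
    rw [← hmk f]
    exact Ideal.Quotient.eq_zero_iff_mem.2 hf
  obtain ⟨c, hc⟩ := mem_range_of_isIntegral _ hX
  have hb : IsIntegral K (Ideal.Quotient.mk v b) := by
    have h5 : IsIntegral K[X] b := Algebra.IsIntegral.isIntegral b
    refine IsIntegral.map_of_comp_eq (Polynomial.evalRingHom c) (Ideal.Quotient.mk v) ?_ h5
    apply RingHom.ext
    intro g
    simp only [RingHom.coe_comp, Function.comp_apply, coe_evalRingHom]
    rw [hmk g, ← hc, aeval_algebraMap_apply_eq_algebraMap_eval]
  obtain ⟨d, hd⟩ := mem_range_of_isIntegral _ hb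
  refine ⟨d, ?_⟩
  rw [← Ideal.Quotient.mk_eq_mk_iff_sub_mem, ← hd]
  rfl

end Residue

section OrdP

variable {E B : Type} [Field E] [CommRing B] [IsDedekindDomain B] [Algebra B E]
  [IsFractionRing B E]

/-- order at a prime -/
noncomputable def ordP (v : HeightOneSpectrum B) (x : E) : ℤ := -(v.valuation E x).log

lemma ordP_mul (v : HeightOneSpectrum B) (x y : E) (hx : x ≠ 0) (hy : y ≠ 0) :
    ordP v (x * y) = ordP v x + ordP v y := by
  have h1 : v.valuation E x ≠ 0 := (Valuation.ne_zero_iff _).2 hx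
  have h2 : v.valuation E y ≠ 0 := (Valuation.ne_zero_iff _).2 hy
  rw [ordP, ordP, ordP, map_mul, WithZero.log_mul h1 h2]
  ring

lemma ordP_nonneg_iff (v : HeightOneSpectrum B) (x : E) (hx : x ≠ 0) :
    0 ≤ ordP v x ↔ v.valuation E x ≤ 1 := by
  have h1 : v.valuation E x ≠ 0 := (Valuation.ne_zero_iff _).2 hx
  rw [ordP, ← WithZero.log_le_log h1 one_ne_zero, WithZero.log_one]
  omega

lemma ordP_pos_iff (v : HeightOneSpectrum B) (x : E) (hx : x ≠ 0) :
    0 < ordP v x ↔ v.valuation E x < 1 := by
  have h1 : v.valuation E x ≠ 0 := (Valuation.ne_zero_iff _).2 hx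
  rw [ordP, ← WithZero.log_lt_log h1 one_ne_zero, WithZero.log_one]
  omega

lemma ordP_add (v : HeightOneSpectrum B) (x y : E) (hx : x ≠ 0) (hy : y ≠ 0) (hxy : x + y ≠ 0) :
    min (ordP v x) (ordP v y) ≤ ordP v (x + y) := by
  have h1 : v.valuation E x ≠ 0 := (Valuation.ne_zero_iff _).2 hx
  have h2 : v.valuation E y ≠ 0 := (Valuation.ne_zero_iff _).2 hy
  have h3 : v.valuation E (x + y) ≠ 0 := (Valuation.ne_zero_iff _).2 hxy
  have h4 := (v.valuation E).map_add x y
  rcases le_max_iff.1 h4 with h | h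
  · have := (WithZero.log_le_log h3 h1).2 h
    exact min_le_iff.2 (Or.inl (by unfold ordP; omega))
  · have := (WithZero.log_le_log h3 h2).2 h
    exact min_le_iff.2 (Or.inr (by unfold ordP; omega))

lemma ordP_algebraMap_of_notMem (v : HeightOneSpectrum B) (b : B) (hb : b ∉ v.asIdeal) :
    ordP v (algebraMap B E b) = 0 := by
  rw [ordP, (v.valuation_eq_one_iff_notMem (K := E)).2 hb, WithZero.log_one, neg_zero]

lemma ordP_algebraMap_pos_iff (v : HeightOneSpectrum B) (b : B) (hb : b ≠ 0) :
    0 < ordP v (algebraMap B E b) ↔ b ∈ v.asIdeal := by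
  have h0 : algebraMap B E b ≠ 0 := by
    simpa using hb
  rw [ordP_pos_iff v _ h0]
  exact v.valuation_lt_one_iff_mem b

lemma ordP_pow (v : HeightOneSpectrum B) (x : E) (hx : x ≠ 0) (n : ℤ) :
    ordP v (x ^ n) = n * ordP v x := by
  rw [ordP, ordP, map_zpow₀, WithZero.log_zpow]
  simp

/-- every nonzero `v`-integral element is a quotient with denominator off `v` -/
lemma exists_frac (v : HeightOneSpectrum B) (x : E) (hx : x ≠ 0) (h : 0 ≤ ordP v x) :
    ∃ n d : B, d ∉ v.asIdeal ∧ d ≠ 0 ∧ x = algebraMap B E n / algebraMap B E d := by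
  obtain ⟨n, d, hnd⟩ := v.exists_primeCompl_mul_eq_of_integer x ((ordP_nonneg_iff v x hx).1 h)
  have hd : (d : B) ∉ v.asIdeal := d.2
  have hd0 : (d : B) ≠ 0 := fun h0 => hd (h0 ▸ v.asIdeal.zero_mem)
  refine ⟨n, d, hd, hd0, ?_⟩
  rw [eq_div_iff (by simpa using hd0)]
  exact hnd

lemma exists_ordP_one (v : HeightOneSpectrum B) : ∃ π : E, π ≠ 0 ∧ ordP v π = 1 := by
  obtain ⟨π, hπ⟩ := v.valuation_exists_uniformizer E
  refine ⟨π, ?_, ?_⟩
  · rintro rfl
    rw [map_zero] at hπ
    exact WithZero.exp_ne_zero hπ.symm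
  · rw [ordP, hπ, WithZero.log_exp]; rfl

end OrdP

section OfPrime

variable {K E B : Type} [Field K] [IsAlgClosed K] [Field E] [Algebra K E] [CommRing B]
  [IsDedekindDomain B] [Algebra B E] [IsFractionRing B E] [Algebra K B]
  [IsScalarTower K B E] [Algebra K[X] B] [IsScalarTower K K[X] B] [Algebra.IsIntegral K[X] B]

lemma ordP_const (v : HeightOneSpectrum B) (c : K) (hc : c ≠ 0) :
    ordP v (algebraMap K E c) = 0 := by
  rw [IsScalarTower.algebraMap_apply K B E]
  apply ordP_algebraMap_of_notMem
  intro h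
  apply v.isPrime.ne_top
  exact Ideal.eq_top_of_isUnit_mem _ h ((IsUnit.mk0 c hc).map (algebraMap K B))

/-- the place of a prime -/
noncomputable def ofPrime (v : HeightOneSpectrum B) : Place K E where
  ord := fun x => ordP v x
  ord_zero := by
    show ordP v (0 : E) = 0
    rw [ordP, map_zero, WithZero.log_zero, neg_zero]
  ord_mul := ordP_mul v
  ord_add := ordP_add v
  ord_const := ordP_const v
  exists_unif := exists_ordP_one v
  exists_res := by
    intro x hx h
    obtain ⟨n, d, hd, hd0, rfl⟩ := exists_frac v x hx h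
    obtain ⟨c, hc⟩ := exists_residue (K := K) v.asIdeal v.ne_bot n
    obtain ⟨e, he⟩ := exists_residue (K := K) v.asIdeal v.ne_bot d
    have he0 : e ≠ 0 := by
      rintro rfl
      apply hd
      simpa using he
    have hdE : algebraMap B E d ≠ 0 := by simpa using hd0
    refine ⟨c / e, ?_⟩
    by_cases hz : algebraMap B E n / algebraMap B E d = algebraMap K E (c / e)
    · exact Or.inl hz
    right
    have hne : algebraMap B E n / algebraMap B E d - algebraMap K E (c / e) ≠ 0 := sub_ne_zero.2 hz
    have h1 : algebraMap B E n / algebraMap B E d - algebraMap K E (c / e) =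
        algebraMap B E (n - algebraMap K B (c / e) * d) * (algebraMap B E d) ^ (-1 : ℤ) := by
      rw [map_sub, map_mul, ← IsScalarTower.algebraMap_apply K B E]
      field_simp
    have h2 : n - algebraMap K B (c / e) * d ∈ v.asIdeal := by
      have h3 : n - algebraMap K B (c / e) * d =
          (n - algebraMap K B c) - algebraMap K B (c / e) * (d - algebraMap K B e) := by
        have h4 : algebraMap K B c = algebraMap K B (c / e) * algebraMap K B e := by
          rw [← map_mul, div_mul_cancel₀ _ he0]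
        rw [h4]; ring
      rw [h3]
      exact Ideal.sub_mem _ hc (Ideal.mul_mem_left _ _ he)
    have h5 : n - algebraMap K B (c / e) * d ≠ 0 := by
      intro h6
      rw [h1, h6] at hne
      simp at hne
    show 0 < ordP v _
    rw [h1, ordP_mul v _ _ ((map_ne_zero_iff _ (IsFractionRing.injective B E)).2 h5)
      (zpow_ne_zero _ hdE), ordP_pow v _ hdE,
      ordP_algebraMap_of_notMem v d hd]
    have := (ordP_algebraMap_pos_iff (E := E) v _ h5).2 h2
    omega

lemma ofPrime_ord (v : HeightOneSpectrum B) (x : E) : (ofPrime (K := K) v).ord x = ordP v x := rfl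

lemma ofPrime_int (v : HeightOneSpectrum B) (b : B) :
    (ofPrime (K := K) (E := E) v).Int (algebraMap B E b) := by
  rcases eq_or_ne b 0 with rfl | hb
  · exact Or.inl (map_zero _)
  · right
    rw [ofPrime_ord]
    by_cases h : b ∈ v.asIdeal
    · exact ((ordP_algebraMap_pos_iff v b hb).2 h).le
    · exact (ordP_algebraMap_of_notMem v b h).ge

lemma ofPrime_sm (v : HeightOneSpectrum B) (b : B) :
    (ofPrime (K := K) (E := E) v).Sm (algebraMap B E b) ↔ b ∈ v.asIdeal := by
  rcases eq_or_ne b 0 with rfl | hb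
  · simp [Place.Sm]
  · rw [Place.sm_iff_ord (by simpa using hb), ofPrime_ord]
    exact ordP_algebraMap_pos_iff v b hb

end OfPrime

section Centre

variable {K E : Type} [Field K] [Field E] [Algebra K E]

/-- the valuation ring of a place -/
def valRing (P : Place K E) : ValuationSubring E where
  carrier := {x | P.Int x}
  mul_mem' := fun ha hb => Place.Int.mul ha hb
  one_mem' := P.int_one
  add_mem' := fun ha hb => Place.Int.add ha hb
  zero_mem' := P.int_zero
  neg_mem' := fun ha => Place.Int.neg ha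
  mem_or_inv_mem' := by
    intro x
    by_cases h : P.Int x
    · exact Or.inl h
    · exact Or.inr (Place.Sm.int (Place.sm_inv_of_not_int h))

lemma mem_valRing (P : Place K E) (x : E) : x ∈ valRing P ↔ P.Int x := Iff.rfl

variable {B : Type} [CommRing B] [IsDedekindDomain B] [Algebra B E] [IsFractionRing B E]

/-- the centre of a place on `B` -/
def centreIdeal (P : Place K E) (hP : ∀ b : B, P.Int (algebraMap B E b)) : Ideal B where
  carrier := {b | P.Sm (algebraMap B E b)}
  add_mem' := by
    intro a b ha hb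
    show P.Sm _
    rw [map_add]; exact Place.Sm.add ha hb
  zero_mem' := by
    show P.Sm _
    rw [map_zero]; exact P.sm_zero
  smul_mem' := by
    intro c b hb
    show P.Sm _
    rw [smul_eq_mul, map_mul]; exact Place.Int.mul_sm (hP c) hb

lemma mem_centreIdeal (P : Place K E) (hP : ∀ b : B, P.Int (algebraMap B E b)) (b : B) :
    b ∈ centreIdeal P hP ↔ P.Sm (algebraMap B E b) := Iff.rfl

/-- the centre of a place on `B` -/
def centre (P : Place K E) (hP : ∀ b : B, P.Int (algebraMap B E b)) : HeightOneSpectrum B where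
  asIdeal := centreIdeal P hP
  isPrime := by
    refine ⟨?_, ?_⟩
    · intro h
      have h1 : (1 : B) ∈ centreIdeal P hP := by rw [h]; trivial
      rw [mem_centreIdeal, map_one] at h1
      exact P.not_sm_one h1
    · intro a b hab
      by_contra hcon
      push Not at hcon
      obtain ⟨ha, hb⟩ := hcon
      rw [mem_centreIdeal] at hab ha hb
      have ha0 : algebraMap B E a ≠ 0 := fun h0 => ha (Or.inl h0)
      have hb0 : algebraMap B E b ≠ 0 := fun h0 => hb (Or.inl h0)
      have ha1 := (hP a).resolve_left ha0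
      have hb1 := (hP b).resolve_left hb0
      rw [Place.sm_iff_ord ha0] at ha
      rw [Place.sm_iff_ord hb0] at hb
      rw [map_mul, Place.sm_iff_ord (mul_ne_zero ha0 hb0), P.ord_mul _ _ ha0 hb0] at hab
      omega
  ne_bot := by
    intro h
    have h1 : ∀ b : B, b ≠ 0 → P.ord (algebraMap B E b) = 0 := by
      intro b hb
      have hb0 : algebraMap B E b ≠ 0 := (map_ne_zero_iff _ (IsFractionRing.injective B E)).2 hb
      have h2 : b ∉ centreIdeal P hP := by
        rw [h]; simpa using hb
      rw [mem_centreIdeal, Place.sm_iff_ord hb0] at h2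
      have h3 := (hP b).resolve_left hb0
      omega
    obtain ⟨τ, hτ0, hτ⟩ := P.exists_unif
    obtain ⟨n, d, hd, rfl⟩ := IsFractionRing.div_surjective (A := B) τ
    have hd0 : d ≠ 0 := nonZeroDivisors.ne_zero hd
    have hn0 : n ≠ 0 := by
      rintro rfl
      simp at hτ0
    have hn0' : algebraMap B E n ≠ 0 := (map_ne_zero_iff _ (IsFractionRing.injective B E)).2 hn0
    have hd0' : algebraMap B E d ≠ 0 := (map_ne_zero_iff _ (IsFractionRing.injective B E)).2 hd0
    rw [P.ord_div hn0' hd0', h1 n hn0, h1 d hd0] at hτ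
    omega

lemma mem_centre (P : Place K E) (hP : ∀ b : B, P.Int (algebraMap B E b)) (b : B) :
    b ∈ (centre P hP).asIdeal ↔ P.Sm (algebraMap B E b) := Iff.rfl

lemma ord_eq_zero_of_notMem (P : Place K E) (hP : ∀ b : B, P.Int (algebraMap B E b)) (b : B)
    (hb : b ∉ (centre P hP).asIdeal) : P.ord (algebraMap B E b) = 0 := by
  rw [mem_centre] at hb
  have hb0 : algebraMap B E b ≠ 0 := fun h0 => hb (Or.inl h0)
  rw [Place.sm_iff_ord hb0] at hb
  have h3 := (hP b).resolve_left hb0
  omega

/-- a place is determined by its centre -/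
lemma ord_eq_ordP (P : Place K E) (hP : ∀ b : B, P.Int (algebraMap B E b)) (x : E) (hx : x ≠ 0) :
    P.ord x = ordP (centre P hP) x := by
  set v := centre P hP with hv
  obtain ⟨π, hπ0, hπ⟩ := exists_ordP_one (E := E) v
  -- units
  have h1 : ∀ y : E, y ≠ 0 → ordP v y = 0 → P.ord y = 0 := by
    intro y hy hy1
    obtain ⟨n, d, hd, hd0, rfl⟩ := exists_frac v y hy hy1.ge
    have hdE : algebraMap B E d ≠ 0 := (map_ne_zero_iff _ (IsFractionRing.injective B E)).2 hd0
    have hn0 : n ≠ 0 := by rintro rfl; simp at hy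
    have hnE : algebraMap B E n ≠ 0 := (map_ne_zero_iff _ (IsFractionRing.injective B E)).2 hn0
    have hn : n ∉ v.asIdeal := by
      intro hn
      have h2 := (ordP_algebraMap_pos_iff (E := E) v n hn0).2 hn
      have h3 : ordP v (algebraMap B E n) =
          ordP v (algebraMap B E n / algebraMap B E d) + ordP v (algebraMap B E d) := by
        rw [← ordP_mul v _ _ hy hdE, div_mul_cancel₀ _ hdE]
      rw [hy1, ordP_algebraMap_of_notMem v d hd] at h3
      omega
    rw [P.ord_div hnE hdE, ord_eq_zero_of_notMem P hP n hn, ord_eq_zero_of_notMem P hP d hd]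
    rfl
  -- proportionality
  have h2 : ∀ y : E, y ≠ 0 → P.ord y = ordP v y * P.ord π := by
    intro y hy
    have h3 : y * π ^ (-(ordP v y)) ≠ 0 := mul_ne_zero hy (zpow_ne_zero _ hπ0)
    have h4 : ordP v (y * π ^ (-(ordP v y))) = 0 := by
      rw [ordP_mul v _ _ hy (zpow_ne_zero _ hπ0), ordP_pow v _ hπ0, hπ]; ring
    have h5 := h1 _ h3 h4
    rw [P.ord_mul _ _ hy (zpow_ne_zero _ hπ0), P.ord_zpow hπ0] at h5
    linarith
  have h6 : 0 < P.ord π := by
    obtain ⟨n, d, hd, hd0, hnd⟩ := exists_frac v π hπ0 (by omega)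
    have hdE : algebraMap B E d ≠ 0 := (map_ne_zero_iff _ (IsFractionRing.injective B E)).2 hd0
    have hn0 : n ≠ 0 := by
      rintro rfl
      simp at hnd
      exact hπ0 hnd
    have hnE : algebraMap B E n ≠ 0 := (map_ne_zero_iff _ (IsFractionRing.injective B E)).2 hn0
    have hn : n ∈ v.asIdeal := by
      rw [← ordP_algebraMap_pos_iff (E := E) v n hn0]
      have h3 : ordP v (algebraMap B E n) = ordP v π + ordP v (algebraMap B E d) := by
        rw [← ordP_mul v _ _ hπ0 hdE, hnd, div_mul_cancel₀ _ hdE]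
      rw [ordP_algebraMap_of_notMem v d hd, hπ] at h3
      omega
    rw [hv, mem_centre, Place.sm_iff_ord hnE] at hn
    rw [hnd, P.ord_div hnE hdE, ord_eq_zero_of_notMem P hP d hd]
    omega
  obtain ⟨τ, hτ0, hτ⟩ := P.exists_unif
  have h7 := h2 τ hτ0
  rw [hτ] at h7
  have h8 : P.ord π = 1 := by
    rcases Int.eq_one_or_neg_one_of_mul_eq_one (u := P.ord π) (v := ordP v τ)
      (by rw [mul_comm]; exact h7.symm) with h | h
    · exact h
    · omega
  rw [h2 x hx, h8, mul_one]

lemma int_of_integral {R : Type} [CommRing R] [Algebra R B] (P : Place K E)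
    (hR : ∀ r : R, P.Int (algebraMap B E (algebraMap R B r))) (b : B) (hb : IsIntegral R b) :
    P.Int (algebraMap B E b) := by
  let φ : R →+* valRing P :=
    ((algebraMap B E).comp (algebraMap R B)).codRestrict (valRing P).toSubring hR
  have h1 : IsIntegral (valRing P) (algebraMap B E b) :=
    IsIntegral.map_of_comp_eq (R := R) (S := B) (T := valRing P) (U := E) φ
      (algebraMap B E) (by ext r; rfl) hb
  obtain ⟨y, hy⟩ := IsIntegrallyClosed.isIntegral_iff.1 h1
  rw [← hy]
  exact y.2

end Centre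

section Corr

variable {K E B : Type} [Field K] [IsAlgClosed K] [Field E] [Algebra K E] [CommRing B]
  [IsDedekindDomain B] [Algebra B E] [IsFractionRing B E] [Algebra K B]
  [IsScalarTower K B E] [Algebra K[X] B] [IsScalarTower K K[X] B] [Algebra.IsIntegral K[X] B]

lemma ofPrime_centre (P : Place K E) (hP : ∀ b : B, P.Int (algebraMap B E b)) :
    ofPrime (K := K) (centre P hP) = P := by
  ext x
  rcases eq_or_ne x 0 with rfl | hx
  · rw [P.ord_zero, Place.ord_zero]
  · rw [ord_eq_ordP P hP x hx]; rfl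

lemma centre_ofPrime (v : HeightOneSpectrum B) (hP) :
    centre (ofPrime (K := K) (E := E) v) hP = v := by
  ext b
  rw [mem_centre, ofPrime_sm]

/-- finitely many places in the support of an element of `B` -/
lemma finite_sm (b : B) (hb : b ≠ 0) :
    {P : Place K E | (∀ b : B, P.Int (algebraMap B E b)) ∧ P.Sm (algebraMap B E b)}.Finite := by
  have h1 : (Ideal.span {b} : Ideal B) ≠ 0 := by
    simpa [Ideal.zero_eq_bot, Ideal.span_singleton_eq_bot] using hb
  refine Set.Finite.subset ((Ideal.finite_factors h1).image (ofPrime (K := K) (E := E))) ?_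
  rintro P ⟨hP, hb'⟩
  refine ⟨centre P hP, ?_, ofPrime_centre P hP⟩
  show (centre P hP).asIdeal ∣ Ideal.span {b}
  rw [Ideal.dvd_span_singleton, mem_centre]
  exact hb'

end Corr

section Exchange

variable {K E : Type} [Field K] [Field E] [Algebra K E]

open scoped IntermediateField.algebraAdjoinAdjoin in
lemma trdeg_le_one (a : E) [FiniteDimensional K⟮a⟯ E] : Algebra.trdeg K E ≤ 1 := by
  have h1 : Algebra.IsAlgebraic (Algebra.adjoin K {a}) E :=
    (IsFractionRing.comap_isAlgebraic_iff (A := Algebra.adjoin K {a}) (K := K⟮a⟯)).2 inferInstance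
  have h2 := Algebra.IsAlgebraic.trdeg_le_cardinalMk K ({a} : Set E)
  simpa using h2

lemma alg_of_trans (a : E) [FiniteDimensional K⟮a⟯ E] (x : E) (hx : Transcendental K x) :
    Algebra.IsAlgebraic K⟮x⟯ E := by
  have hx' : AlgebraicIndependent K (fun _ : Unit => x) :=
    algebraicIndependent_unique_type_iff.2 hx
  have hb := hx'.isTranscendenceBasis_of_trdeg_le_of_finite (by simpa using trdeg_le_one a)
  have h3 := hb.isAlgebraic_field
  rw [Set.range_const] at h3
  exact h3

lemma findim_of_trans (a : E) [FiniteDimensional K⟮a⟯ E] (x : E) (hx : Transcendental K x) :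
    FiniteDimensional K⟮x⟯ E := by
  have := alg_of_trans a x hx
  have h1 : Algebra.EssFiniteType K K⟮a⟯ := by
    rw [IntermediateField.essFiniteType_iff]
    exact IntermediateField.fg_adjoin_of_finite (Set.finite_singleton a)
  have h2 : Algebra.EssFiniteType K E := .comp K K⟮a⟯ E
  have h3 : Algebra.EssFiniteType K⟮x⟯ E := .of_comp K K⟮x⟯ E
  exact Algebra.finite_of_essFiniteType_of_isAlgebraic

end Exchange

section Package

variable {K E : Type} [Field K] [CharZero K] [Field E] [Algebra K E]

/-- the integral closure of `K[t]` in `E` -/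
theorem package (t : E) (ht : Transcendental K t) [FiniteDimensional K⟮t⟯ E] :
    ∃ (B : Type) (_ : CommRing B) (_ : IsDedekindDomain B) (_ : Algebra B E)
      (_ : IsFractionRing B E) (_ : Algebra K B) (_ : IsScalarTower K B E) (_ : Algebra K[X] B)
      (_ : IsScalarTower K K[X] B) (_ : Module.Finite K[X] B) (_ : Module.IsTorsionFree K[X] B),
      (∀ f : K[X], algebraMap B E (algebraMap K[X] B f) = aeval t f) ∧
      (∀ b : B, ((Algebra.trace K⟮t⟯ E (algebraMap B E b) : K⟮t⟯) : E) =
        aeval t (Algebra.intTrace K[X] B b)) := by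
  let iE : Algebra K[X] E := (aeval t : K[X] →ₐ[K] E).toRingHom.toAlgebra
  let iL : Algebra K[X] K⟮t⟯ :=
    (aeval (AdjoinSimple.gen K t) : K[X] →ₐ[K] K⟮t⟯).toRingHom.toAlgebra
  have hmapE : ∀ f : K[X], algebraMap K[X] E f = aeval t f := fun _ => rfl
  have hmapL : ∀ f : K[X], algebraMap K[X] K⟮t⟯ f = aeval (AdjoinSimple.gen K t) f := fun _ => rfl
  have hcoe : ∀ f : K[X], ((algebraMap K[X] K⟮t⟯ f : K⟮t⟯) : E) = aeval t f := by
    intro f
    rw [hmapL]
    have := aeval_algHom_apply (IntermediateField.val K⟮t⟯) (AdjoinSimple.gen K t) f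
    exact this.symm
  have iKE : IsScalarTower K K[X] E := IsScalarTower.of_algebraMap_eq fun c => by
    rw [hmapE, algebraMap_eq, aeval_C]
  have iLE : IsScalarTower K[X] K⟮t⟯ E := IsScalarTower.of_algebraMap_eq fun f => (hcoe f).symm
  have hinjE : Function.Injective (algebraMap K[X] E) := transcendental_iff_injective.1 ht
  have hinjL : Function.Injective (algebraMap K[X] K⟮t⟯) := by
    intro f g hfg
    apply hinjE
    rw [hmapE, hmapE, ← hcoe, ← hcoe, hfg]
  have : FaithfulSMul K[X] K⟮t⟯ := (faithfulSMul_iff_algebraMap_injective K[X] K⟮t⟯).2 hinjL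
  have iFr : IsFractionRing K[X] K⟮t⟯ := by
    refine IsFractionRing.of_field K[X] K⟮t⟯ fun z => ?_
    obtain ⟨r, s, hrs⟩ := (IntermediateField.mem_adjoin_simple_iff K (z : E)).1 z.2
    refine ⟨r, s, ?_⟩
    apply Subtype.ext
    rw [IntermediateField.coe_div, hcoe, hcoe, hrs]
  have : CharZero K⟮t⟯ := charZero_of_injective_algebraMap (algebraMap K K⟮t⟯).injective
  have : Algebra.IsSeparable K⟮t⟯ E := inferInstance
  have h1 : IsDedekindDomain (integralClosure K[X] E) :=
    integralClosure.isDedekindDomain K[X] K⟮t⟯ E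
  have h2 : IsFractionRing (integralClosure K[X] E) E :=
    integralClosure.isFractionRing_of_finite_extension K⟮t⟯ E
  have h3 : Module.Finite K[X] (integralClosure K[X] E) :=
    IsIntegralClosure.finite K[X] K⟮t⟯ E (integralClosure K[X] E)
  have : FaithfulSMul K[X] E := (faithfulSMul_iff_algebraMap_injective K[X] E).2 hinjE
  have h4 : Module.IsTorsionFree K[X] (integralClosure K[X] E) := inferInstance
  refine ⟨integralClosure K[X] E, inferInstance, h1, inferInstance, h2, inferInstance,
    inferInstance, inferInstance, inferInstance, h3, h4, fun f => rfl, fun b => ?_⟩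
  rw [← hcoe, Algebra.algebraMap_intTrace (A := K[X]) (K := K⟮t⟯) (L := E)
    (B := integralClosure K[X] E) b]

end Package

section TraceExact

variable {K V U : Type} [Field K] [AddCommGroup V] [Module K V] [AddCommGroup U] [Module K U]

lemma trace_add_of_exact [FiniteDimensional K V] (x : V) (hx : x ≠ 0) (π : V →ₗ[K] U)
    (hπ : Function.Surjective π) (hker : ∀ v, π v = 0 ↔ ∃ a : K, v = a • x) (f : V →ₗ[K] V)
    (g : U →ₗ[K] U) (c : K) (hfx : f x = c • x) (hfg : ∀ v, π (f v) = g (π v)) :
    LinearMap.trace K V f = c + LinearMap.trace K U g := by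
  classical
  have : FiniteDimensional K U := Module.Finite.of_surjective π hπ
  obtain ⟨s, hs⟩ := LinearMap.exists_rightInverse_of_surjective π (LinearMap.range_eq_top.2 hπ)
  have hs' : ∀ u, π (s u) = u := fun u => LinearMap.congr_fun hs u
  have hφ : ∃ φ : V →ₗ[K] K, φ x = 1 := by
    by_contra hcon
    push Not at hcon
    apply hx
    rw [← Module.forall_dual_apply_eq_zero_iff K x]
    intro φ
    by_contra h
    apply hcon ((φ x)⁻¹ • φ)
    rw [LinearMap.smul_apply, smul_eq_mul, inv_mul_cancel₀ h]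
  obtain ⟨φ, hφ⟩ := hφ
  have hπx : π x = 0 := (hker x).2 ⟨1, (one_smul K x).symm⟩
  set ρ : V →ₗ[K] K := φ ∘ₗ (LinearMap.id - s ∘ₗ π) with hρ
  have h1 : ∀ v, v = ρ v • x + s (π v) := by
    intro v
    obtain ⟨a, ha⟩ := (hker (v - s (π v))).1 (by rw [map_sub, hs', sub_self])
    have h2 : ρ v = a := by
      show φ (v - s (π v)) = a
      rw [ha, map_smul, hφ, smul_eq_mul, mul_one]
    rw [h2, ← ha]; abel
  have h3 : f = ρ.smulRight (c • x) + (f ∘ₗ s) ∘ₗ π := by
    ext v
    conv_lhs => rw [h1 v, map_add, map_smul, hfx]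
    rfl
  have h4 : π ∘ₗ (f ∘ₗ s) = g := by
    ext u
    show π (f (s u)) = g u
    rw [hfg, hs']
  have h5 : ρ (c • x) = c := by
    show φ (c • x - s (π (c • x))) = c
    rw [map_smul π, hπx, smul_zero, map_zero, sub_zero, map_smul, hφ, smul_eq_mul, mul_one]
  conv_lhs => rw [h3]
  rw [map_add, LinearMap.trace_smulRight, LinearMap.trace_comp_comm', h4, h5]

end TraceExact

section Quot

variable {K B : Type} [Field K] [CommRing B] [IsDedekindDomain B] [Algebra K B]

open UniqueFactorizationMonoid in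
lemma trace_quot (hres : ∀ v : Ideal B, Prime v → ∀ b : B, ∃ c : K, b - algebraMap K B c ∈ v)
    (b : B) (c : Ideal B → K) (I : Ideal B) :
    I ≠ 0 → (∀ v, Prime v → v ∣ I → b - algebraMap K B (c v) ∈ v) →
      FiniteDimensional K (B ⧸ I) ∧
        Algebra.trace K (B ⧸ I) (Ideal.Quotient.mk I b) = ((normalizedFactors I).map c).sum := by
  induction I using UniqueFactorizationMonoid.induction_on_prime with
  | h₁ => intro h; exact absurd rfl h
  | h₂ I hI =>
    intro _ _
    have h1 : I = ⊤ := Ideal.isUnit_iff.1 hI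
    subst h1
    have : Subsingleton (B ⧸ (⊤ : Ideal B)) := Ideal.Quotient.subsingleton_iff.2 rfl
    refine ⟨inferInstance, ?_⟩
    rw [Subsingleton.elim ((Ideal.Quotient.mk ⊤) b) 0, map_zero,
      UniqueFactorizationMonoid.normalizedFactors_of_isUnit hI]
    simp
  | h₃ a p ha hp ih =>
    intro _ hc
    obtain ⟨ih1, ih2⟩ := ih ha (fun v hv hva => hc v hv (hva.mul_left p))
    have hle : p * a ≤ a := Ideal.mul_le_right
    have hlt : p * a < a := by
      refine lt_of_le_of_ne hle fun h => hp.not_isUnit ?_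
      have h2 : p * a = 1 * a := by rw [one_mul]; exact h
      rw [mul_right_cancel₀ ha h2]; exact isUnit_one
    obtain ⟨x, hxa, hxp⟩ := SetLike.exists_of_lt hlt
    set π : (B ⧸ (p * a)) →ₐ[K] (B ⧸ a) := Ideal.Quotient.factorₐ K hle with hπ
    have hπmk : ∀ y : B, π (Ideal.Quotient.mk _ y) = Ideal.Quotient.mk _ y := fun y => rfl
    have hx0 : (Ideal.Quotient.mk (p * a) x) ≠ 0 := by
      rwa [Ne, Ideal.Quotient.eq_zero_iff_mem]
    have hsurj : Function.Surjective π := by
      intro u
      obtain ⟨y, rfl⟩ := Ideal.Quotient.mk_surjective u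
      exact ⟨Ideal.Quotient.mk _ y, rfl⟩
    -- `a = K x + p a`
    have hgen : ∀ y ∈ a, ∃ d : K, y - algebraMap K B d * x ∈ p * a := by
      have h1 : Ideal.span {x} ⊔ p * a = a := by
        have h2 : Ideal.span {x} ⊔ p * a ≤ a :=
          sup_le ((Ideal.span_singleton_le_iff_mem a).2 hxa) hle
        rw [← Ideal.dvd_iff_le] at h2
        obtain ⟨k, hk⟩ := h2
        have h3 : a * k ∣ a * p := by
          rw [← hk, Ideal.dvd_iff_le, mul_comm]; exact le_sup_right
        have h4 : k ∣ p := (mul_dvd_mul_iff_left ha).1 h3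
        rcases (hp.irreducible.dvd_iff.1 h4) with h5 | h5
        · rw [hk]
          have h6 : k = 1 := by rw [Ideal.one_eq_top]; exact Ideal.isUnit_iff.1 h5
          rw [h6, mul_one]
        · exfalso
          apply hxp
          have h6 : p = k := associated_iff_eq.1 h5
          rw [h6, mul_comm, ← hk]
          exact Ideal.mem_sup_left (Ideal.mem_span_singleton_self x)
      intro y hy
      rw [← h1] at hy
      obtain ⟨z, hz, w, hw, rfl⟩ := Submodule.mem_sup.1 hy
      obtain ⟨e, rfl⟩ := Ideal.mem_span_singleton'.1 hz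
      obtain ⟨d, hd⟩ := hres p hp e
      refine ⟨d, ?_⟩
      have h7 : e * x + w - algebraMap K B d * x = (e - algebraMap K B d) * x + w := by ring
      rw [h7]
      exact Ideal.add_mem _ (Ideal.mul_mem_mul hd hxa) hw
    have hker : ∀ v, π.toLinearMap v = 0 ↔ ∃ d : K, v = d • (Ideal.Quotient.mk (p * a) x) := by
      intro v
      obtain ⟨y, rfl⟩ := Ideal.Quotient.mk_surjective v
      have h8 : ∀ d : K, d • (Ideal.Quotient.mk (p * a) x) =
          Ideal.Quotient.mk (p * a) (algebraMap K B d * x) := by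
        intro d
        rw [Algebra.smul_def, map_mul]; rfl
      constructor
      · intro h
        have h9 : y ∈ a := Ideal.Quotient.eq_zero_iff_mem.1 h
        obtain ⟨d, hd⟩ := hgen y h9
        refine ⟨d, ?_⟩
        rw [h8, Ideal.Quotient.mk_eq_mk_iff_sub_mem]; exact hd
      · rintro ⟨d, hd⟩
        rw [hd, h8]
        show (Ideal.Quotient.mk a) (algebraMap K B d * x) = 0
        rw [Ideal.Quotient.eq_zero_iff_mem]
        exact Ideal.mul_mem_left _ _ hxa
    have hfin : FiniteDimensional K (B ⧸ (p * a)) := by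
      have h10 : LinearMap.ker π.toLinearMap = Submodule.span K {Ideal.Quotient.mk (p * a) x} := by
        ext v
        rw [LinearMap.mem_ker, hker, Submodule.mem_span_singleton]
        constructor
        · rintro ⟨d, hd⟩; exact ⟨d, hd.symm⟩
        · rintro ⟨d, hd⟩; exact ⟨d, hd.symm⟩
      have h11 : FiniteDimensional K (LinearMap.ker π.toLinearMap) := by
        rw [h10]; infer_instance
      have h12 : FiniteDimensional K ((B ⧸ (p * a)) ⧸ (LinearMap.ker π.toLinearMap)) :=
        Module.Finite.equiv (LinearMap.quotKerEquivOfSurjective π.toLinearMap hsurj).symm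
      exact Module.Finite.of_submodule_quotient (LinearMap.ker π.toLinearMap)
    refine ⟨hfin, ?_⟩
    have hbp := hc p hp (dvd_mul_right p a)
    rw [Algebra.trace_apply,
      trace_add_of_exact (Ideal.Quotient.mk (p * a) x) hx0 π.toLinearMap hsurj hker _
        ((Algebra.lmul K (B ⧸ a)) (Ideal.Quotient.mk a b)) (c p) ?_ ?_, ← Algebra.trace_apply, ih2,
      normalizedFactors_mul hp.ne_zero ha, normalizedFactors_irreducible hp.irreducible,
      normalize_eq]
    · simp
    · show Ideal.Quotient.mk (p * a) b * Ideal.Quotient.mk (p * a) x = _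
      rw [Algebra.smul_def, ← map_mul]
      show _ = Ideal.Quotient.mk (p * a) (algebraMap K B (c p)) * _
      rw [← map_mul, Ideal.Quotient.mk_eq_mk_iff_sub_mem, ← sub_mul]
      exact Ideal.mul_mem_mul hbp hxa
    · intro v
      show π (Ideal.Quotient.mk (p * a) b * v) = Ideal.Quotient.mk a b * π v
      rw [map_mul, hπmk]

end Quot

section TraceZero

variable {K B : Type} [Field K] [CommRing B] [IsDedekindDomain B] [Algebra K B] [Algebra K[X] B]
  [IsScalarTower K K[X] B] [Module.Finite K[X] B] [Module.IsTorsionFree K[X] B]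

lemma trace_zero (b : B) :
    (Algebra.intTrace K[X] B b).eval 0 =
      Algebra.trace K (B ⧸ Ideal.map (algebraMap K[X] B) (Ideal.span {X}))
        (Ideal.Quotient.mk _ b) := by
  have hmax : (Ideal.span {(X : K[X])}).IsMaximal :=
    PrincipalIdealRing.isMaximal_of_irreducible Polynomial.irreducible_X
  have hmem : ∀ f : K[X], f ∈ Ideal.span {(X : K[X])} ↔ f.eval 0 = 0 := by
    intro f
    rw [Ideal.mem_span_singleton, X_dvd_iff, coeff_zero_eq_eval_zero]
  have h0 : Function.Bijective ((Ideal.Quotient.mk (Ideal.span {(X : K[X])})).comp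
      (C : K →+* K[X])) := by
    refine ⟨RingHom.injective _, fun u => ?_⟩
    obtain ⟨f, rfl⟩ := Ideal.Quotient.mk_surjective u
    refine ⟨f.eval 0, ?_⟩
    show Ideal.Quotient.mk _ (C (f.eval 0)) = _
    rw [Ideal.Quotient.mk_eq_mk_iff_sub_mem, hmem]
    simp
  let e₁ : K ≃+* (K[X] ⧸ Ideal.span {(X : K[X])}) := RingEquiv.ofBijective _ h0
  have h1 := Algebra.trace_eq_of_equiv_equiv e₁
    (RingEquiv.refl (B ⧸ Ideal.map (algebraMap K[X] B) (Ideal.span {X}))) (by
      ext c
      show Ideal.Quotient.mk _ (algebraMap K[X] B (C c)) = Ideal.Quotient.mk _ (algebraMap K B c)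
      rw [IsScalarTower.algebraMap_apply K K[X] B]; rfl) (Ideal.Quotient.mk _ b)
  rw [h1, RingEquiv.eq_symm_apply]
  show _ = Algebra.trace (K[X] ⧸ Ideal.span {(X : K[X])})
    (B ⧸ Ideal.map (algebraMap K[X] B) (Ideal.span {X})) (Ideal.Quotient.mk _ b)
  rw [Algebra.trace_quotient_eq_of_isDedekindDomain]
  show Ideal.Quotient.mk _ (C _) = _
  rw [Ideal.Quotient.mk_eq_mk_iff_sub_mem, hmem]
  simp

end TraceZero

section Assemble

section Count

variable {E B : Type} [Field E] [CommRing B] [IsDedekindDomain B] [Algebra B E]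
  [IsFractionRing B E]

open UniqueFactorizationMonoid in
lemma ordP_eq_count [DecidableEq (Ideal B)] (v : HeightOneSpectrum B) (b : B) (hb : b ≠ 0) :
    ordP v (algebraMap B E b) =
      (Multiset.count v.asIdeal (normalizedFactors (Ideal.span {b}))) := by
  have h1 : v.valuation E (algebraMap B E b) = v.intValuation b := v.valuation_of_algebraMap b
  have h2 : (Ideal.span {b} : Ideal B) ≠ 0 := by
    simpa [Ideal.zero_eq_bot, Ideal.span_singleton_eq_bot] using hb
  rw [ordP, h1, v.intValuation_eq_exp_neg_multiplicity hb, WithZero.log_exp, neg_neg]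
  have h3 := emultiplicity_eq_count_normalizedFactors v.irreducible h2
  rw [normalize_eq] at h3
  rw [multiplicity_eq_of_emultiplicity_eq_some h3]

end Count

variable {K E B : Type} [Field K] [IsAlgClosed K] [Field E] [Algebra K E] [CommRing B]
  [IsDedekindDomain B] [Algebra B E] [IsFractionRing B E] [Algebra K B]
  [IsScalarTower K B E] [Algebra K[X] B] [IsScalarTower K K[X] B] [Module.Finite K[X] B]
  [Module.IsTorsionFree K[X] B]

/-- `O_P ⊃ B` as soon as `t ∈ O_P` -/
lemma int_B (t : E) (hmap : ∀ f : K[X], algebraMap B E (algebraMap K[X] B f) = aeval t f)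
    (P : Place K E) (hP : P.Int t) (b : B) : P.Int (algebraMap B E b) := by
  refine int_of_integral P (R := K[X]) ?_ b (Algebra.IsIntegral.isIntegral b)
  intro f
  rw [hmap]
  obtain ⟨c, hc⟩ := hP.exists_isVal
  exact (hc.polyAeval f).int

lemma exists_mul_mem (t : E)
    (hmap : ∀ f : K[X], algebraMap B E (algebraMap K[X] B f) = aeval t f) (g : E) :
    ∃ f : K[X], f ≠ 0 ∧ ∃ b : B, algebraMap B E b = aeval t f * g := by
  obtain ⟨n, d, hd, rfl⟩ := IsFractionRing.div_surjective (A := B) g
  have hd0 : d ≠ 0 := nonZeroDivisors.ne_zero hd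
  have hd0' : algebraMap B E d ≠ 0 := (map_ne_zero_iff _ (IsFractionRing.injective B E)).2 hd0
  have h1 : Ideal.comap (algebraMap K[X] B) (Ideal.span {d}) ≠ ⊥ :=
    Ideal.comap_ne_bot_of_integral_mem hd0 (Ideal.mem_span_singleton_self d)
      (Algebra.IsIntegral.isIntegral d)
  obtain ⟨f, hf, hf0⟩ := Submodule.exists_mem_ne_zero_of_ne_bot h1
  obtain ⟨e, he⟩ := Ideal.mem_span_singleton'.1 (show algebraMap K[X] B f ∈ Ideal.span {d} from hf)
  refine ⟨f, hf0, e * n, ?_⟩
  rw [← hmap, ← he, map_mul, map_mul]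
  field_simp

lemma exists_strip (t : E) (ht0 : t ≠ 0)
    (hmap : ∀ f : K[X], algebraMap B E (algebraMap K[X] B f) = aeval t f) (g : E)
    (hg : ∀ P : Place K E, P.Sm t → P.Int g) :
    ∃ s : K[X], s.eval 0 ≠ 0 ∧ ∃ b : B, algebraMap B E b = aeval t s * g := by
  obtain ⟨f, hf0, b, hb⟩ := exists_mul_mem (B := B) t hmap g
  obtain ⟨s, hs, hs0⟩ := Polynomial.exists_eq_pow_rootMultiplicity_mul_and_not_dvd f hf0 0
  set k := f.rootMultiplicity 0
  have hs1 : s.eval 0 ≠ 0 := by
    intro h
    apply hs0
    exact Polynomial.dvd_iff_isRoot.2 h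
  refine ⟨s, hs1, ?_⟩
  have hT : algebraMap B E (algebraMap K[X] B X) = t := by rw [hmap, aeval_X]
  have hfs : aeval t f = t ^ k * aeval t s := by
    conv_lhs => rw [hs]
    rw [map_mul, map_pow, map_sub, aeval_X, aeval_C, map_zero, sub_zero]
  have h1 : ∀ v : HeightOneSpectrum B, v.valuation E (aeval t s * g) ≤ 1 := by
    intro v
    rcases eq_or_ne (aeval t s * g) 0 with h0 | h0
    · rw [h0, map_zero]; exact zero_le_one
    rw [← ordP_nonneg_iff v _ h0]
    set P : Place K E := ofPrime v with hPdef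
    show 0 ≤ P.ord (aeval t s * g)
    rw [← Place.int_iff_ord h0]
    by_cases hv : algebraMap K[X] B X ∈ v.asIdeal
    · have hsm : P.Sm t := by
        rw [← hT]; exact (ofPrime_sm v _).2 hv
      refine Place.Int.mul ?_ (hg P hsm)
      rw [← hmap]; exact ofPrime_int v _
    · have h2 : P.Int (algebraMap B E b) := ofPrime_int v _
      have h3 : ¬ P.Sm t := by
        rw [← hT]; exact fun h => hv ((ofPrime_sm v _).1 h)
      have h4 : P.Int t := by rw [← hT]; exact ofPrime_int v _
      have h5 := h4.inv_of_not_sm h3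
      have h6 : aeval t s * g = (t⁻¹) ^ k * algebraMap B E b := by
        rw [hb, hfs, inv_pow]
        field_simp
      rw [h6]
      exact (h5.pow k).mul h2
  obtain ⟨c, hc⟩ := HeightOneSpectrum.mem_integers_of_valuation_le_one E _ h1
  exact ⟨c, hc⟩

open UniqueFactorizationMonoid in
lemma sum_formula (t : E) (ht0 : t ≠ 0)
    (hmap : ∀ f : K[X], algebraMap B E (algebraMap K[X] B f) = aeval t f) (g : E)
    (S : Finset (Place K E)) (hS : ∀ P, P ∈ S ↔ P.Sm t) (s : K[X]) (b : B)
    (hb : algebraMap B E b = aeval t s * g) (v : Place K E → K)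
    (hv : ∀ P ∈ S, P.IsVal g (v P)) :
    (Algebra.intTrace K[X] B b).eval 0 = s.eval 0 * ∑ P ∈ S, (P.ord t : K) * v P := by
  classical
  have hT : algebraMap B E (algebraMap K[X] B X) = t := by rw [hmap, aeval_X]
  set T : B := algebraMap K[X] B X with hTdef
  have hT0 : T ≠ 0 := by
    rintro h
    rw [h, map_zero] at hT
    exact ht0 hT.symm
  have hI : Ideal.map (algebraMap K[X] B) (Ideal.span {X}) = Ideal.span {T} := by
    rw [Ideal.map_span, Set.image_singleton]
  have hI0 : (Ideal.span {T} : Ideal B) ≠ 0 := by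
    simpa [Ideal.zero_eq_bot, Ideal.span_singleton_eq_bot] using hT0
  let c : Ideal B → K := fun J =>
    if h : J.IsPrime ∧ J ≠ ⊥ then s.eval 0 * v (ofPrime (K := K) (E := E) ⟨J, h.1, h.2⟩) else 0
  have hc : ∀ w : HeightOneSpectrum B,
      c w.asIdeal = s.eval 0 * v (ofPrime (K := K) (E := E) w) := by
    intro w
    show (if h : w.asIdeal.IsPrime ∧ w.asIdeal ≠ ⊥ then
      s.eval 0 * v (ofPrime (K := K) (E := E) ⟨w.asIdeal, h.1, h.2⟩) else 0) = _
    rw [dif_pos ⟨w.isPrime, w.ne_bot⟩]
  have hprime : ∀ J : Ideal B, Prime J → ∃ w : HeightOneSpectrum B, w.asIdeal = J := by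
    intro J hJ
    exact ⟨⟨J, Ideal.isPrime_of_prime hJ, hJ.ne_zero⟩, rfl⟩
  have hmemT : ∀ w : HeightOneSpectrum B, w.asIdeal ∣ Ideal.span {T} ↔
      (ofPrime (K := K) (E := E) w).Sm t := by
    intro w
    rw [Ideal.dvd_span_singleton, ← hT, ofPrime_sm]
  have hval : ∀ w : HeightOneSpectrum B, (ofPrime (K := K) (E := E) w).Sm t →
      b - algebraMap K B (c w.asIdeal) ∈ w.asIdeal := by
    intro w hw
    set P : Place K E := ofPrime w with hP
    have h1 : P.IsVal g (v P) := hv P ((hS P).2 hw)
    have h2 : P.IsVal (aeval t s) (s.eval 0) := by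
      refine Place.IsVal.polyAeval ?_ s
      rw [Place.isVal_zero_iff]; exact hw
    have h3 := h2.mul h1
    rw [← ofPrime_sm (K := K) (E := E), map_sub, ← IsScalarTower.algebraMap_apply K B E, hb, hc w]
    exact h3
  obtain ⟨-, h1⟩ := trace_quot (K := K) (B := B)
    (fun J hJ b' => by
      have := Ideal.isPrime_of_prime hJ
      exact exists_residue J hJ.ne_zero b') b c (Ideal.span {T}) hI0
    (fun J hJ hJT => by
      obtain ⟨w, rfl⟩ := hprime J hJ
      exact hval w ((hmemT w).1 hJT))
  rw [trace_zero, hI, h1, Finset.sum_multiset_map_count, Finset.mul_sum]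
  symm
  have hPB : ∀ P ∈ S, ∀ b : B, P.Int (algebraMap B E b) := fun P hP =>
    int_B t hmap P ((hS P).1 hP).int
  refine Finset.sum_bij (fun P hP => (centre P (hPB P hP)).asIdeal) ?_ ?_ ?_ ?_
  · intro P hP
    rw [Multiset.mem_toFinset, Ideal.mem_normalizedFactors_iff (by simpa using hT0)]
    refine ⟨(centre P (hPB P hP)).isPrime, ?_⟩
    rw [Ideal.span_singleton_le_iff_mem, mem_centre, hT]
    exact (hS P).1 hP
  · intro P hP Q hQ h
    have h2 : centre P (hPB P hP) = centre Q (hPB Q hQ) := HeightOneSpectrum.ext h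
    rw [← ofPrime_centre P (hPB P hP), ← ofPrime_centre Q (hPB Q hQ), h2]
  · intro J hJ
    rw [Multiset.mem_toFinset] at hJ
    obtain ⟨w, rfl⟩ := hprime J (prime_of_normalized_factor J hJ)
    have h3 : (ofPrime (K := K) (E := E) w).Sm t :=
      (hmemT w).1 (dvd_of_mem_normalizedFactors hJ)
    refine ⟨ofPrime w, (hS _).2 h3, ?_⟩
    rw [centre_ofPrime]
  · intro P hP
    have h4 : P.ord t = (Multiset.count (centre P (hPB P hP)).asIdeal
        (normalizedFactors (Ideal.span {T}))) := by
      rw [ord_eq_ordP P (hPB P hP) t ht0, ← ordP_eq_count (E := E) _ _ hT0, hT]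
    rw [hc, ofPrime_centre, h4, nsmul_eq_mul, Int.cast_natCast]
    ring

end Assemble

end TraceValAux

variable {K E : Type} [Field K] [IsAlgClosed K] [CharZero K] [Field E] [Algebra K E]

/-- a function field of one variable is algebraic over `K(x)` for every nonconstant `x` -/
theorem algebraic_of_transcendental (a : E) (ha : Transcendental K a) [FiniteDimensional K⟮a⟯ E]
    (x : E) (hx : Transcendental K x) : Algebra.IsAlgebraic K⟮x⟯ E ∧ FiniteDimensional K⟮x⟯ E :=
  ⟨TraceValAux.alg_of_trans a x hx, TraceValAux.findim_of_trans a x hx⟩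

/-- finitely many zeros -/
theorem finite_zeros (a : E) (ha : Transcendental K a) [FiniteDimensional K⟮a⟯ E]
    (x : E) (hx : x ≠ 0) : {P : Place K E | P.ord x ≠ 0}.Finite := by
  by_cases hxt : Transcendental K x
  · -- `x` transcendental
    have key : ∀ y : E, Transcendental K y → {P : Place K E | P.Sm y}.Finite := by
      intro y hy
      have hfd := TraceValAux.findim_of_trans a y hy
      obtain ⟨B, i1, i2, i3, i4, i5, i6, i7, i8, i9, i10, hmap, -⟩ := TraceValAux.package y hy
      have hT : algebraMap B E (algebraMap K[X] B X) = y := by rw [hmap, aeval_X]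
      have hT0 : algebraMap K[X] B X ≠ 0 := by
        intro h
        rw [h, map_zero] at hT
        rw [← hT] at hy
        exact hy isAlgebraic_zero
      refine Set.Finite.subset (TraceValAux.finite_sm (K := K) (E := E) _ hT0) ?_
      intro P hP
      refine ⟨TraceValAux.int_B y hmap P hP.int, ?_⟩
      rw [hT]; exact hP
    have hxi : Transcendental K x⁻¹ := by
      intro h
      exact hxt (by simpa using h.inv)
    refine Set.Finite.subset ((key x hxt).union (key x⁻¹ hxi)) ?_
    intro P hP
    have hP' : P.ord x ≠ 0 := hP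
    rcases lt_or_gt_of_ne hP' with h | h
    · right
      exact Or.inr (by rw [P.ord_inv]; omega)
    · left
      exact Or.inr h
  · -- `x` constant
    rw [Transcendental, not_not] at hxt
    obtain ⟨c, hc⟩ := TraceValAux.mem_range_of_isIntegral x hxt.isIntegral
    have hc0 : c ≠ 0 := by
      rintro rfl
      exact hx (by rw [← hc, map_zero])
    refine Set.Finite.subset Set.finite_empty ?_
    intro P hP
    exact absurd (by rw [← hc]; exact P.ord_const c hc0) hP

/-- an element integral at all finite places is integral over `K[a]` -/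
theorem isIntegral_of_places (a : E) (ha : Transcendental K a) [FiniteDimensional K⟮a⟯ E]
    (x : E) (hx : ∀ P : Place K E, P.Int a → P.Int x) :
    ∃ p : K[X][X], p.Monic ∧ p.eval₂ (aeval a : K[X] →ₐ[K] E).toRingHom x = 0 := by
  obtain ⟨B, i1, i2, i3, i4, i5, i6, i7, i8, i9, i10, hmap, -⟩ := TraceValAux.package a ha
  have hT : algebraMap B E (algebraMap K[X] B X) = a := by rw [hmap, aeval_X]
  have h1 : ∀ v : IsDedekindDomain.HeightOneSpectrum B, v.valuation E x ≤ 1 := by
    intro v
    rcases eq_or_ne x 0 with h0 | h0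
    · rw [h0, map_zero]; exact zero_le_one
    rw [← TraceValAux.ordP_nonneg_iff v _ h0]
    have h2 := hx (TraceValAux.ofPrime v) (by rw [← hT]; exact TraceValAux.ofPrime_int v _)
    exact h2.resolve_left h0
  obtain ⟨c, hc⟩ := IsDedekindDomain.HeightOneSpectrum.mem_integers_of_valuation_le_one E _ h1
  obtain ⟨p, hp, hp0⟩ := Algebra.IsIntegral.isIntegral (R := K[X]) c
  refine ⟨p, hp, ?_⟩
  have h3 : (aeval a : K[X] →ₐ[K] E).toRingHom = (algebraMap B E).comp (algebraMap K[X] B) := by
    ext f
    · exact (hmap _).symm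
    · exact (hmap _).symm
  rw [h3, ← hc, ← Polynomial.hom_eval₂, hp0, map_zero]

theorem TraceValAux.trace_val_aux (t : E) (ht : Transcendental K t) [FiniteDimensional K⟮t⟯ E]
    (g : E) (hg : ∀ P : Place K E, P.Sm t → P.Int g) :
    ∃ S : Finset (Place K E), (∀ P, P ∈ S ↔ P.Sm t) ∧ ∃ p q : K[X], q.eval 0 ≠ 0 ∧
      (Algebra.trace K⟮t⟯ E g : E) * aeval t q = aeval t p ∧
      ∀ v : Place K E → K, (∀ P ∈ S, P.IsVal g (v P)) →
        p.eval 0 / q.eval 0 = ∑ P ∈ S, (P.ord t : K) * v P := by
  have ht0 : t ≠ 0 := by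
    rintro rfl
    exact ht isAlgebraic_zero
  obtain ⟨B, i1, i2, i3, i4, i5, i6, i7, i8, i9, i10, hmap, htr⟩ := TraceValAux.package t ht
  have hfin : {P : Place K E | P.Sm t}.Finite := by
    refine Set.Finite.subset (finite_zeros t ht t ht0) ?_
    intro P hP
    have h1 : 0 < P.ord t := hP.resolve_left ht0
    exact h1.ne'
  obtain ⟨s, hs, b, hb⟩ := TraceValAux.exists_strip (B := B) t ht0 hmap g hg
  have hS : ∀ P, P ∈ hfin.toFinset ↔ P.Sm t := by
    intro P; rw [Set.Finite.mem_toFinset]; rfl
  refine ⟨hfin.toFinset, hS, Algebra.intTrace K[X] B b, s, hs, ?_, ?_⟩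
  · rw [← htr, hb]
    have h2 : aeval t s * g = (aeval (AdjoinSimple.gen K t) s : K⟮t⟯) • g := by
      rw [Algebra.smul_def]
      congr 1
      exact aeval_algHom_apply (IntermediateField.val K⟮t⟯) (AdjoinSimple.gen K t) s
    have h3 : ((aeval (AdjoinSimple.gen K t) s : K⟮t⟯) : E) = aeval t s :=
      (aeval_algHom_apply (IntermediateField.val K⟮t⟯) (AdjoinSimple.gen K t) s).symm
    rw [h2, map_smul, smul_eq_mul, IntermediateField.coe_mul, h3, mul_comm]
  · intro v hv
    rw [TraceValAux.sum_formula t ht0 hmap g hfin.toFinset hS s b hb v hv]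
    field_simp

/-- (TV) the value of a trace -/
theorem trace_val (a : E) (ha : Transcendental K a) [FiniteDimensional K⟮a⟯ E] (t : E)
    (ht : K⟮t⟯ = K⟮a⟯) (g : E) (hg : ∀ P : Place K E, P.Sm t → P.Int g) :
    ∃ S : Finset (Place K E), (∀ P, P ∈ S ↔ P.Sm t) ∧ ∃ p q : K[X], q.eval 0 ≠ 0 ∧
      (Algebra.trace K⟮a⟯ E g : E) * aeval t q = aeval t p ∧
      ∀ v : Place K E → K, (∀ P ∈ S, P.IsVal g (v P)) →
        p.eval 0 / q.eval 0 = ∑ P ∈ S, (P.ord t : K) * v P := by
  have htt : Transcendental K t := by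
    intro h
    have h1 : Algebra.IsAlgebraic K K⟮t⟯ := by
      have := IntermediateField.adjoin.finiteDimensional h.isIntegral
      infer_instance
    rw [ht] at h1
    have h2 := h1.isAlgebraic (AdjoinSimple.gen K a)
    exact ha (by simpa using h2.algebraMap (A := E))
  generalize hF : K⟮a⟯ = F at *
  subst ht
  exact TraceValAux.trace_val_aux t htt g hg

end Pool.Agent.LowDeg
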