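import Pool.Agent.LowDeg.ModelCentre
import Pool.Agent.LowDeg.TraceVal

/-! Module C2 (doc section 3.2): primitive elements; every point of the curve is the centre of a
place. -/

set_option autoImplicit false

open Polynomial IntermediateField

namespace Pool.Agent.LowDeg.CurveModel

set_option linter.unusedSectionVars false

variable {K : Type} [Field K] [IsAlgClosed K] [CharZero K] {h : ℕ} (M : CurveModel K h)

/-- almost all projections are birational -/
theorem finite_not_primitive : {l : K | K⟮M.a⟯⟮M.th l⟯ ≠ ⊤}.Finite := by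
  have : CharZero K⟮M.a⟯ := charZero_of_injective_algebraMap (algebraMap K K⟮M.a⟯).injective
  have : Finite (IntermediateField K⟮M.a⟯ M.E) :=
    (Field.exists_primitive_element_iff_finite_intermediateField K⟮M.a⟯ M.E).1
      ⟨inferInstance, Field.exists_primitive_element K⟮M.a⟯ M.E⟩
  refine Set.Finite.of_finite_image (f := fun l => K⟮M.a⟯⟮M.th l⟯) (Set.toFinite _) ?_
  intro l hl l' hl' hll'
  by_contra hne
  apply hl
  simp only at hll'
  set L : IntermediateField K⟮M.a⟯ M.E := K⟮M.a⟯⟮M.th l⟯ with hL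
  have h1 : M.th l ∈ L := mem_adjoin_simple_self _ _
  have h2 : M.th l' ∈ L := by rw [hll']; exact mem_adjoin_simple_self _ _
  have hK : ∀ c : K, algebraMap K M.E c ∈ L := by
    intro c
    rw [IsScalarTower.algebraMap_apply K K⟮M.a⟯ M.E]
    exact L.algebraMap_mem _
  have hw : M.w ∈ L := by
    have h3 : M.th l - M.th l' ∈ L := L.sub_mem h1 h2
    have h4 : M.th l - M.th l' = algebraMap K M.E (l - l') * M.w := by
      simp only [th, map_sub]; ring
    have h5 : M.w = algebraMap K M.E (l - l')⁻¹ * (M.th l - M.th l') := by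
      rw [h4, ← mul_assoc, ← map_mul, inv_mul_cancel₀ (sub_ne_zero.2 hne), map_one, one_mul]
    rw [h5]
    exact L.mul_mem (hK _) h3
  have hb : M.b ∈ L := by
    have h5 : M.b = M.th l - algebraMap K M.E l * M.w := by simp only [th]; ring
    rw [h5]
    exact L.sub_mem h1 (L.mul_mem (hK _) hw)
  have ha : M.a ∈ L := by
    have := L.algebraMap_mem (AdjoinSimple.gen K M.a)
    rwa [AdjoinSimple.algebraMap_gen] at this
  have htop : (⊤ : IntermediateField K M.E) ≤ L.restrictScalars K := by
    rw [← M.gen, adjoin_le_iff]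
    intro x hx
    simp only [Set.mem_insert_iff, Set.mem_singleton_iff] at hx
    rcases hx with rfl | rfl | rfl
    · exact ha
    · exact hb
    · exact hw
  rw [eq_top_iff]
  intro x _
  exact htop (mem_top : x ∈ (⊤ : IntermediateField K M.E))

namespace ModelPointAux

/-- the embedding `K[X] → K(a)` -/
noncomputable abbrev ev : K[X] →+* K⟮M.a⟯ :=
  (aeval (AdjoinSimple.gen K M.a) : K[X] →ₐ[K] K⟮M.a⟯).toRingHom

lemma ev_inj : Function.Injective (ev M) := by
  intro p q hpq
  have h1 : aeval M.a p = aeval M.a q := by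
    have h2 := congrArg (algebraMap K⟮M.a⟯ M.E) hpq
    simp only [ev, AlgHom.toRingHom_eq_coe, RingHom.coe_coe] at h2
    rwa [← aeval_algebraMap_apply, ← aeval_algebraMap_apply, AdjoinSimple.algebraMap_gen] at h2
  have h2 := M.trans
  rw [transcendental_iff_injective] at h2
  exact h2 h1

lemma algebraMap_ev : (algebraMap K⟮M.a⟯ M.E).comp (ev M) =
    (aeval M.a : K[X] →ₐ[K] M.E).toRingHom := by
  ext x
  · simp [ev, ← IsScalarTower.algebraMap_apply K K⟮M.a⟯ M.E]
  · simp [ev]

lemma aeval_map_ev (p : K[X][X]) (x : M.E) :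
    aeval x (p.map (ev M)) = p.eval₂ (aeval M.a : K[X] →ₐ[K] M.E).toRingHom x := by
  rw [aeval_def, eval₂_map, algebraMap_ev]

end ModelPointAux

open ModelPointAux

/-- the minimal polynomial of a birational projection -/
theorem minpoly_eq (l : K) (hl : K⟮M.a⟯⟮M.th l⟯ = ⊤) :
    minpoly K⟮M.a⟯ (M.th l) =
      (M.gpol l).map (aeval (AdjoinSimple.gen K M.a) : K[X] →ₐ[K] K⟮M.a⟯).toRingHom := by
  have hint : IsIntegral K⟮M.a⟯ (M.th l) := Algebra.IsIntegral.isIntegral _
  have hmon : ((M.gpol l).map (ev M)).Monic := (M.gpol_monic l).map _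
  have hroot : aeval (M.th l) ((M.gpol l).map (ev M)) = 0 := by
    rw [aeval_map_ev]; exact M.gpol_root l
  have hdvd := minpoly.dvd _ _ hroot
  refine Polynomial.eq_of_monic_of_dvd_of_natDegree_le (minpoly.monic hint) hmon hdvd ?_ |>.symm
  have h1 : ((M.gpol l).map (ev M)).natDegree = h := by
    rw [(M.gpol_monic l).natDegree_map, M.gpol_natDegree]
  have h2 : (minpoly K⟮M.a⟯ (M.th l)).natDegree = h := by
    rw [← IntermediateField.adjoin.finrank hint, hl, IntermediateField.finrank_top', M.rank]
  rw [h1, h2]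

namespace ModelPointAux

/-- evaluation of `gpol` at a point -/
lemma gpol_eval (l : K) (z : Fin 4 → K) (hz : z 0 = 1) (hG : M.On z) :
    ((M.gpol l).eval (C (z 2 + l * z 3))).eval (z 1) = 0 := by
  have h1 : ((M.gpol l).eval (C (z 2 + l * z 3))).eval (z 1) =
      (MvPolynomial.eval (uK z) M.G).eval l := by
    unfold gpol
    have e1 : ∀ p : K[X][X], (p.eval (C (z 2 + l * z 3))).eval (z 1) =
        ((evalRingHom (z 1)).comp (evalRingHom (C (z 2 + l * z 3)))) p := by
      intro p; simp
    have e2 : ∀ p : K[X], p.eval l = evalRingHom l p := by intro p; simp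
    rw [e1, MvPolynomial.hom_eval₂, e2]
    rw [← MvPolynomial.eval₂_id, MvPolynomial.hom_eval₂]
    congr 1
    · ext x <;> simp
    · funext i
      fin_cases i
      · simp [uK, hz]
      · simp [uK]
      · simp [uK]; ring
  rw [h1]
  have h2 : MvPolynomial.eval (uK z) M.G = 0 := hG
  rw [h2, eval_zero]

/-- For a birational projection there is a place over `a = z 1` at which `th l` has the right
value. -/
lemma exists_place_th (l : K) (hl : K⟮M.a⟯⟮M.th l⟯ = ⊤) (z : Fin 4 → K) (hz : z 0 = 1)
    (hG : M.On z) (hbig : M.th l ≠ algebraMap K M.E (z 2 + l * z 3)) :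
    ∃ P : Place K M.E, P.Sm (M.a - algebraMap K M.E (z 1)) ∧
      P.Sm (M.th l - algebraMap K M.E (z 2 + l * z 3)) := by
  classical
  by_contra hcon
  push Not at hcon
  set c : K := z 2 + l * z 3 with hc
  set g : M.E := M.th l - algebraMap K M.E c with hg
  have hg0 : g ≠ 0 := sub_ne_zero.2 hbig
  have hgint : ∀ P : Place K M.E, P.Int M.a → P.Int g := by
    intro P hP
    exact ((M.int_b P hP).add ((P.int_const _).mul (M.int_w P hP))).sub (P.int_const _)
  have hfin := finite_zeros M.a M.trans g hg0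
  -- values of `a`
  have hval : ∀ P : Place K M.E, ∃ c : K, P.Int M.a → P.IsVal M.a c := by
    intro P
    by_cases hP : P.Int M.a
    · obtain ⟨c, hc⟩ := hP.exists_isVal
      exact ⟨c, fun _ => hc⟩
    · exact ⟨0, fun h => absurd h hP⟩
  choose va hva using hval
  have hac : ∀ c : K, M.a - algebraMap K M.E c ≠ 0 := by
    intro c h0
    have h1 : M.a = algebraMap K M.E c := sub_eq_zero.1 h0
    apply M.trans
    rw [h1]
    exact isAlgebraic_algebraMap c
  set S : Finset (Place K M.E) := hfin.toFinset.filter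
    (fun P => P.Int M.a ∧ ¬ P.Sm (M.a - algebraMap K M.E (z 1))) with hS
  set s : K[X] := ∏ P ∈ S, (X - C (va P)) ^ (P.ord g).toNat with hs
  have hsa : aeval M.a s = ∏ P ∈ S, (M.a - algebraMap K M.E (va P)) ^ (P.ord g).toNat := by
    rw [hs, map_prod]
    refine Finset.prod_congr rfl fun P _ => ?_
    simp
  have hs1 : s.eval (z 1) ≠ 0 := by
    rw [hs, eval_prod, Finset.prod_ne_zero_iff]
    intro P hP
    rw [hS, Finset.mem_filter] at hP
    rw [eval_pow]
    refine pow_ne_zero _ ?_
    rw [eval_sub, eval_X, eval_C, sub_ne_zero]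
    intro h1
    apply hP.2.2
    rw [h1]
    exact hva P hP.2.1
  have hyint : ∀ P : Place K M.E, P.Int M.a → P.Int (aeval M.a s * g⁻¹) := by
    intro P hP
    by_cases hPS : P ∈ S
    · rw [hsa, ← Finset.mul_prod_erase _ _ hPS, mul_assoc, mul_comm, mul_assoc]
      refine Place.Int.mul (Place.Int.prod _ fun Q _ => ?_) ?_
      · exact (hP.sub (P.int_const _)).pow _
      · refine Or.inr ?_
        rw [P.ord_mul _ _ (inv_ne_zero hg0) (pow_ne_zero _ (hac _)), P.ord_inv,
          P.ord_pow (hac _)]
        have h1 : 0 < P.ord (M.a - algebraMap K M.E (va P)) :=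
          (P.sm_iff_ord (hac _)).1 (hva P hP)
        have h2 : 0 ≤ P.ord g := (hgint P hP).resolve_left hg0
        have h3 : (((P.ord g).toNat : ℤ)) = P.ord g := Int.toNat_of_nonneg h2
        rw [h3]
        nlinarith
    · have h1 : P.Int (aeval M.a s) := by
        rw [hsa]
        exact Place.Int.prod _ fun Q _ => (hP.sub (P.int_const _)).pow _
      refine h1.mul ?_
      by_cases hz1 : P.Sm (M.a - algebraMap K M.E (z 1))
      · exact (hgint P hP).inv_of_not_sm (hcon P hz1)
      · have h2 : P.ord g = 0 := by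
          by_contra h3
          apply hPS
          rw [hS, Finset.mem_filter]
          exact ⟨by simpa using h3, hP, hz1⟩
        exact Or.inr (by rw [P.ord_inv, h2]; simp)
  obtain ⟨p, hpm, hp⟩ := isIntegral_of_places M.a M.trans _ hyint
  -- the polynomial with root `th l`
  set N := p.natDegree with hN
  set q : K[X][X] := ∑ i ∈ Finset.range (N + 1), C (p.coeff i * s ^ i) * (X - C (C c)) ^ (N - i)
    with hq
  have hqroot : q.eval₂ (aeval M.a : K[X] →ₐ[K] M.E).toRingHom (M.th l) = 0 := by
    rw [hq, eval₂_finsetSum]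
    have h1 : ∀ i ∈ Finset.range (N + 1),
        (C (p.coeff i * s ^ i) * (X - C (C c)) ^ (N - i) : K[X][X]).eval₂
          (aeval M.a : K[X] →ₐ[K] M.E).toRingHom (M.th l) =
        g ^ N * (aeval M.a (p.coeff i) * (aeval M.a s * g⁻¹) ^ i) := by
      intro i hi
      rw [Finset.mem_range] at hi
      have h2 : i ≤ N := by omega
      rw [eval₂_mul, eval₂_C, eval₂_pow, eval₂_sub, eval₂_X, eval₂_C]
      have h3 : (aeval M.a : K[X] →ₐ[K] M.E).toRingHom (C c) = algebraMap K M.E c := by simp
      rw [h3, ← hg]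
      have h4 : (aeval M.a : K[X] →ₐ[K] M.E).toRingHom (p.coeff i * s ^ i) =
        aeval M.a (p.coeff i) * (aeval M.a s) ^ i := by simp
      rw [h4, mul_pow, inv_pow]
      have h5 : g ^ N = g ^ (N - i) * g ^ i := by rw [← pow_add]; congr 1; omega
      rw [h5]
      have h6 : g ^ i ≠ 0 := pow_ne_zero _ hg0
      field_simp
    rw [Finset.sum_congr rfl h1, ← Finset.mul_sum]
    have h2 : ∑ i ∈ Finset.range (N + 1), aeval M.a (p.coeff i) * (aeval M.a s * g⁻¹) ^ i = 0 := by
      rw [eval₂_eq_sum_range] at hp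
      exact hp
    rw [h2, mul_zero]
  have hdvd : M.gpol l ∣ q := by
    rw [← Polynomial.map_dvd_map (ev M) (ev_inj M) (M.gpol_monic l)]
    have h1 := M.minpoly_eq l hl
    have h2 : (M.gpol l).map (ev M) = minpoly K⟮M.a⟯ (M.th l) := h1.symm
    rw [h2]
    apply minpoly.dvd
    rw [aeval_map_ev]
    exact hqroot
  obtain ⟨r, hr⟩ := hdvd
  have h1 : (q.eval (C c)).eval (z 1) = 0 := by
    rw [hr, eval_mul, eval_mul, gpol_eval M l z hz hG, zero_mul]
  have h2 : (q.eval (C c)).eval (z 1) = (s.eval (z 1)) ^ N := by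
    rw [hq, eval_finsetSum, eval_finsetSum, Finset.sum_range_succ, Finset.sum_eq_zero]
    · have h3 : p.coeff N = 1 := hpm
      simp [h3]
    · intro i hi
      rw [Finset.mem_range] at hi
      have h4 : N - i ≠ 0 := by omega
      simp [h4]
  rw [h2] at h1
  exact pow_ne_zero _ hs1 h1

lemma sub_const_ne_zero (c : K) : M.a - algebraMap K M.E c ≠ 0 := by
  intro h0
  have h1 : M.a = algebraMap K M.E c := sub_eq_zero.1 h0
  apply M.trans
  rw [h1]
  exact isAlgebraic_algebraMap _

/-- There is a place over every point of the line. -/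
lemma exists_place_over (c : K) : ∃ P : Place K M.E, P.Sm (M.a - algebraMap K M.E c) := by
  have ht : K⟮M.a - algebraMap K M.E c⟯ = K⟮M.a⟯ := by
    apply le_antisymm
    · rw [adjoin_simple_le_iff]
      exact sub_mem (mem_adjoin_simple_self _ _) (IntermediateField.algebraMap_mem _ _)
    · rw [adjoin_simple_le_iff]
      have h2 : (M.a - algebraMap K M.E c) + algebraMap K M.E c ∈
          K⟮M.a - algebraMap K M.E c⟯ :=
        add_mem (mem_adjoin_simple_self _ _) (IntermediateField.algebraMap_mem _ _)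
      rwa [sub_add_cancel] at h2
  obtain ⟨S, hS, p, q, hq, hpq, hv⟩ := trace_val M.a M.trans (M.a - algebraMap K M.E c) ht 1
    (fun P _ => P.int_one)
  by_contra hcon
  push Not at hcon
  have hSe : S = ∅ := by
    rw [Finset.eq_empty_iff_forall_notMem]
    intro P hP
    exact hcon P ((hS P).1 hP)
  have h1 := hv (fun _ => 0) (by simp [hSe])
  rw [hSe, Finset.sum_empty] at h1
  have h2 : p.eval 0 = 0 := by
    rcases div_eq_zero_iff.1 h1 with h | h
    · exact h
    · exact absurd h hq
  rw [← map_one (algebraMap K⟮M.a⟯ M.E), Algebra.trace_algebraMap, M.rank] at hpq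
  have hh : (h : K) ≠ 0 := by
    have h3 : 0 < h := by rw [← M.rank]; exact Module.finrank_pos
    exact_mod_cast h3.ne'
  have h3 : aeval (M.a - algebraMap K M.E c) (C (h : K) * q) =
      aeval (M.a - algebraMap K M.E c) p := by
    rw [← hpq, map_mul, aeval_C]
    simp
  have htr : Transcendental K (M.a - algebraMap K M.E c) := by
    intro halg
    apply M.trans
    have := halg.add (isAlgebraic_algebraMap (R := K) (A := M.E) c)
    rwa [sub_add_cancel] at this
  rw [transcendental_iff_injective] at htr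
  have h4 := htr h3
  rw [← h4, eval_mul, eval_C] at h2
  exact (mul_ne_zero hh hq) h2

end ModelPointAux

/-- every point of the curve with `z 0 = 1` is the centre of a place -/
theorem exists_place (z : Fin 4 → K) (hz : z 0 = 1) (hG : M.On z) :
    ∃ P : Place K M.E, M.IsCentre P z := by
  classical
  have : Infinite K := IsAlgClosed.instInfinite
  have key : ∀ l : K, ∃ P : Place K M.E, K⟮M.a⟯⟮M.th l⟯ = ⊤ →
      P.Sm (M.a - algebraMap K M.E (z 1)) ∧ P.Sm (M.th l - algebraMap K M.E (z 2 + l * z 3)) := by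
    intro l
    by_cases hl : K⟮M.a⟯⟮M.th l⟯ = ⊤
    · by_cases h0 : M.th l = algebraMap K M.E (z 2 + l * z 3)
      · obtain ⟨P, hP⟩ := exists_place_over M (z 1)
        exact ⟨P, fun _ => ⟨hP, Or.inl (by rw [h0, sub_self])⟩⟩
      · obtain ⟨P, hP⟩ := exists_place_th M l hl z hz hG h0
        exact ⟨P, fun _ => hP⟩
    · obtain ⟨P, _⟩ := exists_place_over M (z 1)
      exact ⟨P, fun h => absurd h hl⟩
  choose P hP using key
  have hinf : {l : K | K⟮M.a⟯⟮M.th l⟯ = ⊤}.Infinite := by
    have h1 := M.finite_not_primitive.infinite_compl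
    refine h1.mono ?_
    intro l hl
    simpa using hl
  have hmaps : Set.MapsTo P {l : K | K⟮M.a⟯⟮M.th l⟯ = ⊤}
      {P : Place K M.E | P.ord (M.a - algebraMap K M.E (z 1)) ≠ 0} := by
    intro l hl
    have h1 := (hP l hl).1
    rw [Place.sm_iff_ord (sub_const_ne_zero M _)] at h1
    exact h1.ne'
  obtain ⟨l, hl, l', hl', hne, heq⟩ := hinf.exists_ne_map_eq_of_mapsTo hmaps
    (finite_zeros M.a M.trans _ (sub_const_ne_zero M (z 1)))
  have h1 := hP l hl
  have h2 := (hP l' hl').2
  rw [← heq] at h2
  set Q := P l with hQ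
  have hw : Q.Sm (M.w - algebraMap K M.E (z 3)) := by
    have h3 : Q.Sm (algebraMap K M.E (l - l')⁻¹ * ((M.th l - algebraMap K M.E (z 2 + l * z 3)) -
        (M.th l' - algebraMap K M.E (z 2 + l' * z 3)))) :=
      (Q.int_const _).mul_sm (h1.2.sub h2)
    have h4 : algebraMap K M.E (l - l')⁻¹ * ((M.th l - algebraMap K M.E (z 2 + l * z 3)) -
        (M.th l' - algebraMap K M.E (z 2 + l' * z 3))) = M.w - algebraMap K M.E (z 3) := by
      have h5 : algebraMap K M.E (l - l')⁻¹ * algebraMap K M.E (l - l') = 1 := by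
        rw [← map_mul, inv_mul_cancel₀ (sub_ne_zero.2 hne), map_one]
      have h6 : (M.th l - algebraMap K M.E (z 2 + l * z 3)) -
        (M.th l' - algebraMap K M.E (z 2 + l' * z 3)) =
          algebraMap K M.E (l - l') * (M.w - algebraMap K M.E (z 3)) := by
        simp only [th, map_sub, map_add, map_mul]; ring
      rw [h6, ← mul_assoc, h5, one_mul]
    rwa [h4] at h3
  have hb : Q.Sm (M.b - algebraMap K M.E (z 2)) := by
    have h3 : Q.Sm ((M.th l - algebraMap K M.E (z 2 + l * z 3)) -
        algebraMap K M.E l * (M.w - algebraMap K M.E (z 3))) :=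
      h1.2.sub ((Q.int_const _).mul_sm hw)
    have h4 : (M.th l - algebraMap K M.E (z 2 + l * z 3)) -
        algebraMap K M.E l * (M.w - algebraMap K M.E (z 3)) = M.b - algebraMap K M.E (z 2) := by
      simp only [th, map_add, map_mul]; ring
    rwa [h4] at h3
  refine ⟨Q, fun i => ?_⟩
  fin_cases i
  · change Q.IsVal 1 (z 0)
    rw [hz]; exact Q.isVal_one
  · exact h1.1
  · exact hb
  · exact hw

end Pool.Agent.LowDeg.CurveModel
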