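import Mathlib

/-! Module G1 (doc section 9.1): finite sets of points of the plane imposing dependent conditions. -/

set_option autoImplicit false

open MvPolynomial

namespace Pool.Agent.LowDeg

/-- nonzero pairwise non-proportional vectors -/
def PairNP {k ι σ : Type} [Field k] (u : ι → σ → k) : Prop :=
  (∀ i, u i ≠ 0) ∧ ∀ i j, i ≠ j → ∀ r : k, u i ≠ r • u j

/-- there is a relation with nonzero coefficients between the values at the points of the forms
of degree `m` -/
def NR {k ι : Type} [Field k] [Fintype ι] (u : ι → Fin 3 → k) (m : ℕ) : Prop :=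
  ∃ c : ι → k, (∀ i, c i ≠ 0) ∧
    ∀ f : MvPolynomial (Fin 3) k, f.IsHomogeneous m → ∑ i, c i * eval (u i) f = 0

namespace G1

section Basic
variable {k : Type} [Field k]

/-- cross product -/
def crs (u v : Fin 3 → k) : Fin 3 → k :=
  ![u 1 * v 2 - u 2 * v 1, u 2 * v 0 - u 0 * v 2, u 0 * v 1 - u 1 * v 0]

/-- dot product -/
def dt (u v : Fin 3 → k) : k := u 0 * v 0 + u 1 * v 1 + u 2 * v 2

/-- the linear form with coefficient vector `w` -/
noncomputable def lin (w : Fin 3 → k) : MvPolynomial (Fin 3) k :=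
  C (w 0) * X 0 + C (w 1) * X 1 + C (w 2) * X 2

lemma lin_hom (w : Fin 3 → k) : (lin w).IsHomogeneous 1 :=
  ((isHomogeneous_C_mul_X _ _).add (isHomogeneous_C_mul_X _ _)).add (isHomogeneous_C_mul_X _ _)

lemma eval_lin (w y : Fin 3 → k) : eval y (lin w) = dt w y := by
  simp [lin, dt]

lemma exists_smul_of_crs {u v : Fin 3 → k} (hu : u ≠ 0) (h : crs u v = 0) : ∃ t : k, v = t • u := by
  have h0 : u 1 * v 2 = u 2 * v 1 := by
    have := congrFun h 0; simp [crs] at this; linear_combination this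
  have h1 : u 2 * v 0 = u 0 * v 2 := by
    have := congrFun h 1; simp [crs] at this; linear_combination this
  have h2 : u 0 * v 1 = u 1 * v 0 := by
    have := congrFun h 2; simp [crs] at this; linear_combination this
  obtain ⟨j, hj⟩ : ∃ j, u j ≠ 0 := Function.ne_iff.mp hu
  have key : ∀ l j, v l * u j = v j * u l := by
    intro l j
    fin_cases l <;> fin_cases j <;>
      simp only [Fin.zero_eta, Fin.mk_one, Fin.reduceFinMk, Fin.isValue] <;>
      first
        | rfl
        | linear_combination h0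
        | linear_combination -h0
        | linear_combination h1
        | linear_combination -h1
        | linear_combination h2
        | linear_combination -h2
  refine ⟨v j / u j, ?_⟩
  funext l
  simp only [Pi.smul_apply, smul_eq_mul]
  rw [div_mul_eq_mul_div, eq_div_iff hj]
  exact key l j

/-- a linear form vanishing at `u` and not at `v` -/
lemma exists_sep {u v : Fin 3 → k} (hu : u ≠ 0) (h : ∀ r : k, v ≠ r • u) :
    ∃ w : Fin 3 → k, dt w u = 0 ∧ dt w v ≠ 0 := by
  have hc : crs u v ≠ 0 := by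
    intro hc
    obtain ⟨t, ht⟩ := exists_smul_of_crs hu hc
    exact h t ht
  obtain ⟨j, hj⟩ : ∃ j, crs u v j ≠ 0 := Function.ne_iff.mp hc
  fin_cases j
  · refine ⟨![0, -u 2, u 1], ?_, ?_⟩
    · simp [dt]; ring
    · simp [dt]; simp [crs] at hj; contrapose! hj; linear_combination hj
  · refine ⟨![u 2, 0, -u 0], ?_, ?_⟩
    · simp [dt]; ring
    · simp [dt]; simp [crs] at hj; contrapose! hj; linear_combination hj
  · refine ⟨![-u 1, u 0, 0], ?_, ?_⟩
    · simp [dt]; ring
    · simp [dt]; simp [crs] at hj; contrapose! hj; linear_combination hj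

lemma eval_smul_of_hom {p : MvPolynomial (Fin 3) k} {e : ℕ} (hp : p.IsHomogeneous e) (t : k)
    (y : Fin 3 → k) : eval (t • y) p = t ^ e * eval y p := by
  rw [eval_eq', eval_eq', Finset.mul_sum]
  refine Finset.sum_congr rfl fun d hd => ?_
  have h1 : d.degree = e := hp.degree_eq_sum_deg_support hd ▸ rfl
  have h2 : ∏ i, (t • y) i ^ d i = t ^ e * ∏ i, y i ^ d i := by
    simp only [Pi.smul_apply, smul_eq_mul, mul_pow, Finset.prod_mul_distrib]
    rw [Finset.prod_pow_eq_pow_sum]
    congr 2
    rw [← h1, Finsupp.degree_eq_sum]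
  rw [h2]; ring

end Basic

section Deg
variable {k : Type} [Field k] {B : Type} [CommRing B] [Algebra k B]

/-- the substitution `X i ↦ a i T + β i` -/
noncomputable def sub (a : Fin 3 → k) (β : Fin 3 → B) (i : Fin 3) : Polynomial B :=
  Polynomial.C (algebraMap k B (a i)) * Polynomial.X + Polynomial.C (β i)

lemma sub_natDegree_le (a : Fin 3 → k) (β : Fin 3 → B) (i : Fin 3) :
    (sub a β i).natDegree ≤ 1 := by
  unfold sub
  exact Polynomial.natDegree_linear_le

lemma sub_coeff_one (a : Fin 3 → k) (β : Fin 3 → B) (i : Fin 3) :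
    (sub a β i).coeff 1 = algebraMap k B (a i) := by
  unfold sub
  simp [Polynomial.coeff_C]

lemma aux_pow (a : Fin 3 → k) (β : Fin 3 → B) (i : Fin 3) (n : ℕ) :
    (sub a β i ^ n).natDegree ≤ n ∧ (sub a β i ^ n).coeff n = algebraMap k B (a i) ^ n := by
  constructor
  · have := Polynomial.natDegree_pow_le_of_le n (sub_natDegree_le a β i)
    simpa using this
  · have := Polynomial.coeff_pow_of_natDegree_le (m := n) (sub_natDegree_le a β i)
    rw [mul_one, sub_coeff_one] at this
    exact this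

lemma aeval_sub_aux (a : Fin 3 → k) (β : Fin 3 → B) {p : MvPolynomial (Fin 3) k} {e : ℕ}
    (hp : p.IsHomogeneous e) :
    (aeval (sub a β) p).natDegree ≤ e ∧
      (aeval (sub a β) p).coeff e = algebraMap k B (eval a p) := by
  have hmon : ∀ d ∈ p.support,
      (∏ i, sub a β i ^ d i).natDegree ≤ e ∧
        (∏ i, sub a β i ^ d i).coeff e = ∏ i, algebraMap k B (a i) ^ d i := by
    intro d hd
    have h1 : d 0 + d 1 + d 2 = e := by
      have h1 : d.degree = e := hp.degree_eq_sum_deg_support hd ▸ rfl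
      rw [← h1, Finsupp.degree_eq_sum, Fin.sum_univ_three]
    rw [Fin.prod_univ_three, Fin.prod_univ_three]
    have h0 := aux_pow a β 0 (d 0)
    have h1' := aux_pow a β 1 (d 1)
    have h2 := aux_pow a β 2 (d 2)
    have h01 := Polynomial.natDegree_mul_le_of_le h0.1 h1'.1
    have h012 := Polynomial.natDegree_mul_le_of_le h01 h2.1
    refine ⟨by rw [← h1]; exact h012, ?_⟩
    rw [← h1, Polynomial.coeff_mul_add_eq_of_natDegree_le h01 h2.1,
      Polynomial.coeff_mul_add_eq_of_natDegree_le h0.1 h1'.1, h0.2, h1'.2, h2.2]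
  rw [aeval_eq_eval₂Hom, coe_eval₂Hom, eval₂_eq']
  constructor
  · refine Polynomial.natDegree_sum_le_of_forall_le _ _ fun d hd => ?_
    rw [IsScalarTower.algebraMap_apply k B (Polynomial B)]
    exact (Polynomial.natDegree_C_mul_le _ _).trans (hmon d hd).1
  · rw [Polynomial.finsetSum_coeff, eval_eq', map_sum]
    refine Finset.sum_congr rfl fun d hd => ?_
    rw [IsScalarTower.algebraMap_apply k B (Polynomial B), Polynomial.algebraMap_eq,
      Polynomial.coeff_C_mul, (hmon d hd).2, map_mul, map_prod]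
    simp

end Deg

section Comb
variable {k : Type} [Field k]

/-- the endomorphism `X i ↦ a i T + X i`, `T ↦ T` of `k[X][T]` -/
noncomputable def sg (a : Fin 3 → k) :
    Polynomial (MvPolynomial (Fin 3) k) →+* Polynomial (MvPolynomial (Fin 3) k) :=
  Polynomial.eval₂RingHom (aeval (sub a (X : Fin 3 → MvPolynomial (Fin 3) k)) :
    MvPolynomial (Fin 3) k →ₐ[k] Polynomial (MvPolynomial (Fin 3) k)).toRingHom Polynomial.X

lemma sg_C (a : Fin 3 → k) (p : MvPolynomial (Fin 3) k) :
    sg a (Polynomial.C p) = aeval (sub a (X : Fin 3 → MvPolynomial (Fin 3) k)) p := by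
  simp [sg]

lemma sg_X (a : Fin 3 → k) : sg a Polynomial.X = Polynomial.X := by
  simp [sg]

lemma sg_sg (a b : Fin 3 → k) (hab : ∀ i, a i + b i = 0)
    (F : Polynomial (MvPolynomial (Fin 3) k)) : sg a (sg b F) = F := by
  have : (sg a).comp (sg b) = RingHom.id _ := by
    apply Polynomial.ringHom_ext'
    · apply MvPolynomial.ringHom_ext
      · intro r
        simp only [RingHom.comp_apply, RingHom.id_apply, sg_C]
        rw [← MvPolynomial.algebraMap_eq, AlgHom.commutes,
          IsScalarTower.algebraMap_apply k (MvPolynomial (Fin 3) k) (Polynomial _),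
          Polynomial.algebraMap_eq, sg_C, AlgHom.commutes,
          IsScalarTower.algebraMap_apply k (MvPolynomial (Fin 3) k) (Polynomial _),
          Polynomial.algebraMap_eq]
      · intro i
        simp only [RingHom.comp_apply, RingHom.id_apply, sg_C, aeval_X, sub, map_add, map_mul,
          sg_X]
        rw [AlgHom.commutes,
          IsScalarTower.algebraMap_apply k (MvPolynomial (Fin 3) k) (Polynomial _),
          Polynomial.algebraMap_eq]
        have h := hab i
        rw [← add_assoc, ← add_mul, ← Polynomial.C_add, ← map_add, add_comm (b i), h]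
        simp
    · simp only [RingHom.comp_apply, RingHom.id_apply, sg_X]
  exact congrArg (fun f => f F) this

lemma relPrime_C {p q : MvPolynomial (Fin 3) k} (hpq : IsRelPrime p q) (hp : p ≠ 0) :
    IsRelPrime (Polynomial.C p) (Polynomial.C q) := by
  intro d hdp hdq
  have hd : d.natDegree = 0 := by
    have := Polynomial.natDegree_le_of_dvd hdp (by simpa using hp)
    simpa using this
  obtain ⟨c, rfl⟩ := Polynomial.natDegree_eq_zero.mp hd
  refine Polynomial.isUnit_C.mpr (hpq ?_ ?_)
  · have := (Polynomial.C_dvd_iff_dvd_coeff _ _).mp hdp 0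
    simpa using this
  · have := (Polynomial.C_dvd_iff_dvd_coeff _ _).mp hdq 0
    simpa using this

lemma relPrime_sg {p q : MvPolynomial (Fin 3) k} (hpq : IsRelPrime p q) (hp : p ≠ 0)
    (a : Fin 3 → k) :
    IsRelPrime (aeval (sub a (X : Fin 3 → MvPolynomial (Fin 3) k)) p)
      (aeval (sub a (X : Fin 3 → MvPolynomial (Fin 3) k)) q) := by
  intro d hdp hdq
  rw [← sg_C] at hdp hdq
  have h1 := map_dvd (sg (-a)) hdp
  have h2 := map_dvd (sg (-a)) hdq
  rw [sg_sg _ _ (by intro i; simp)] at h1 h2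
  have h3 := (relPrime_C hpq hp) h1 h2
  have h4 := h3.map (sg a)
  rwa [sg_sg _ _ (by intro i; simp)] at h4

lemma exists_comb {p q : MvPolynomial (Fin 3) k} {e₁ : ℕ} (hp : p.IsHomogeneous e₁)
    (hpq : IsRelPrime p q) (a : Fin 3 → k) (hpa : eval a p ≠ 0) :
    ∃ (d : MvPolynomial (Fin 3) k) (U V : Polynomial (MvPolynomial (Fin 3) k)), d ≠ 0 ∧
      U * aeval (sub a (X : Fin 3 → MvPolynomial (Fin 3) k)) p +
        V * aeval (sub a (X : Fin 3 → MvPolynomial (Fin 3) k)) q = Polynomial.C d := by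
  have hp0 : p ≠ 0 := by rintro rfl; simp at hpa
  have hrel := relPrime_sg hpq hp0 a
  obtain ⟨hdeg, hlc⟩ := aeval_sub_aux a (X : Fin 3 → MvPolynomial (Fin 3) k) hp
  set P := aeval (sub a (X : Fin 3 → MvPolynomial (Fin 3) k)) p with hP
  set Q := aeval (sub a (X : Fin 3 → MvPolynomial (Fin 3) k)) q with hQ
  set K := FractionRing (MvPolynomial (Fin 3) k) with hK
  have hinj : Function.Injective (algebraMap (MvPolynomial (Fin 3) k) K) :=
    IsFractionRing.injective _ _
  -- the monic multiple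
  set P' : Polynomial (MvPolynomial (Fin 3) k) := Polynomial.C (C (eval a p)⁻¹) * P with hP'
  have hmonic : P'.Monic := by
    refine Polynomial.monic_of_natDegree_le_of_coeff_eq_one e₁ ?_ ?_
    · exact (Polynomial.natDegree_C_mul_le _ _).trans hdeg
    · rw [hP', Polynomial.coeff_C_mul, hlc, MvPolynomial.algebraMap_eq, ← map_mul,
        inv_mul_cancel₀ hpa, map_one]
  have hPP' : P ∣ P' := Dvd.intro_left _ rfl
  have hP'P : P' ∣ P := by
    refine ⟨Polynomial.C (C (eval a p)), ?_⟩
    rw [hP', mul_right_comm, ← map_mul, ← map_mul, inv_mul_cancel₀ hpa]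
    simp
  have hco : IsCoprime (P.map (algebraMap _ K)) (Q.map (algebraMap _ K)) := by
    refine isCoprime_of_dvd _ _ ?_ ?_
    · rintro ⟨h1, -⟩
      have h2 : P = 0 := (Polynomial.map_eq_zero_iff hinj).mp h1
      rw [h2, Polynomial.coeff_zero, MvPolynomial.algebraMap_eq] at hlc
      exact hpa (MvPolynomial.C_eq_zero.mp hlc.symm)
    · intro z hz hz0 hzP hzQ
      have hzP' : z ∣ P'.map (algebraMap _ K) :=
        hzP.trans (Polynomial.map_dvd (algebraMap (MvPolynomial (Fin 3) k) K) hPP')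
      obtain ⟨g, hg⟩ := IsIntegrallyClosed.eq_map_mul_C_of_dvd K hmonic hzP'
      have hlz : z.leadingCoeff ≠ 0 := Polynomial.leadingCoeff_ne_zero.mpr hz0
      have hgm : g.Monic := by
        have h1 := congrArg Polynomial.leadingCoeff hg
        rw [Polynomial.leadingCoeff_mul, Polynomial.leadingCoeff_C,
          Polynomial.leadingCoeff_map_of_injective hinj] at h1
        have h2 : algebraMap (MvPolynomial (Fin 3) k) K g.leadingCoeff = 1 :=
          mul_right_cancel₀ hlz (by rw [h1, one_mul])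
        exact hinj (by rw [h2, map_one])
      have hgz : g.map (algebraMap _ K) ∣ z := ⟨_, hg.symm⟩
      have hgP : g ∣ P :=
        hgm.isPrimitive.dvd_of_fraction_map_dvd_fraction_map (K := K) (hgz.trans hzP)
      have hgQ : g ∣ Q :=
        hgm.isPrimitive.dvd_of_fraction_map_dvd_fraction_map (K := K) (hgz.trans hzQ)
      have hgu : IsUnit g := hrel hgP hgQ
      apply hz
      rw [← hg]
      exact (hgu.map (Polynomial.mapRingHom (algebraMap _ K))).mul
        (Polynomial.isUnit_C.mpr (isUnit_iff_ne_zero.mpr hlz))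
  obtain ⟨U, V, hUV⟩ := hco
  obtain ⟨b₁, hb₁, h1⟩ := IsLocalization.integerNormalization_spec
    (nonZeroDivisors (MvPolynomial (Fin 3) k)) U
  obtain ⟨b₂, hb₂, h2⟩ := IsLocalization.integerNormalization_spec
    (nonZeroDivisors (MvPolynomial (Fin 3) k)) V
  set U' := IsLocalization.integerNormalization (nonZeroDivisors (MvPolynomial (Fin 3) k)) U
  set V' := IsLocalization.integerNormalization (nonZeroDivisors (MvPolynomial (Fin 3) k)) V
  refine ⟨b₁ * b₂, Polynomial.C b₂ * U', Polynomial.C b₁ * V',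
    mul_ne_zero (nonZeroDivisors.ne_zero hb₁) (nonZeroDivisors.ne_zero hb₂), ?_⟩
  apply Polynomial.map_injective _ hinj
  rw [Polynomial.map_add, Polynomial.map_mul, Polynomial.map_mul, Polynomial.map_mul,
    Polynomial.map_mul, h1, h2, Polynomial.map_C, Polynomial.map_C, Polynomial.map_C]
  rw [Algebra.smul_def, Algebra.smul_def]
  have e1 : algebraMap (MvPolynomial (Fin 3) k) (Polynomial K) b₁ =
    Polynomial.C (algebraMap (MvPolynomial (Fin 3) k) K b₁) := rfl
  have e2 : algebraMap (MvPolynomial (Fin 3) k) (Polynomial K) b₂ =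
    Polynomial.C (algebraMap (MvPolynomial (Fin 3) k) K b₂) := rfl
  rw [e1, e2, map_mul, Polynomial.C_mul]
  linear_combination (Polynomial.C (algebraMap (MvPolynomial (Fin 3) k) K b₁) *
    Polynomial.C (algebraMap (MvPolynomial (Fin 3) k) K b₂)) * hUV

end Comb

section Coords
variable {k : Type} [Field k]

lemma exists_coords (a b c : Fin 3 → k) (h : dt (crs a c) b ≠ 0) :
    ∃ l1 x l2 : Fin 3 → k, (∀ y i, y i = a i * dt l1 y + c i * dt x y + b i * dt l2 y) ∧
      dt l1 a = 1 ∧ dt l1 b = 0 ∧ dt l2 a = 0 ∧ dt l2 b = 1 ∧ dt x a = 0 ∧ dt x b = 0 ∧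
      ∃ r : k, r ≠ 0 ∧ ∀ y, dt x y = r * dt (crs a y) b := by
  set D := dt (crs a c) b with hD
  have hD' : D = (a 1 * c 2 - a 2 * c 1) * b 0 + (a 2 * c 0 - a 0 * c 2) * b 1 +
      (a 0 * c 1 - a 1 * c 0) * b 2 := by
    rw [hD]; simp [dt, crs]
  refine ⟨D⁻¹ • crs c b, D⁻¹ • crs b a, D⁻¹ • crs a c, ?_, ?_, ?_, ?_, ?_, ?_, ?_, D⁻¹,
    inv_ne_zero h, ?_⟩
  · intro y i
    have e1 : ∀ w : Fin 3 → k, dt (D⁻¹ • w) y = D⁻¹ * dt w y := by
      intro w; simp [dt]; ring
    rw [e1, e1, e1]
    have e2 : D * y i = a i * dt (crs c b) y + c i * dt (crs b a) y + b i * dt (crs a c) y := by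
      rw [hD']
      fin_cases i <;> simp [dt, crs] <;> ring
    field_simp
    linear_combination e2
  all_goals try
    have e1 : ∀ w y : Fin 3 → k, dt (D⁻¹ • w) y = D⁻¹ * dt w y := by
      intro w y; simp [dt]; ring
  · rw [e1, inv_mul_eq_one₀ h, hD']; simp [dt, crs]; ring
  · rw [e1, mul_eq_zero]; right; simp [dt, crs]; ring
  · rw [e1, mul_eq_zero]; right; simp [dt, crs]; ring
  · rw [e1, inv_mul_eq_one₀ h, hD']; simp [dt, crs]
  · rw [e1, mul_eq_zero]; right; simp [dt, crs]; ring
  · rw [e1, mul_eq_zero]; right; simp [dt, crs]; ring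
  · intro y
    rw [e1]; congr 1; simp [dt, crs]; ring

lemma aeval_sub_mem {A : Type} [CommRing A] [Algebra k A] (I : Ideal A) (f g : Fin 3 → A)
    (h : ∀ i, f i - g i ∈ I) (p : MvPolynomial (Fin 3) k) : aeval f p - aeval g p ∈ I := by
  rw [← Ideal.Quotient.eq]
  have h1 : ∀ f : Fin 3 → A, Ideal.Quotient.mk I (aeval f p) =
      aeval (fun i => Ideal.Quotient.mk I (f i)) p := by
    intro f
    have := MvPolynomial.comp_aeval_apply (R := k) f (Ideal.Quotient.mkₐ k I) p
    simpa using this
  rw [h1, h1]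
  congr 2
  funext i
  exact Ideal.Quotient.eq.mpr (h i)

lemma lin_dvd [Infinite k] {a b c l1 x l2 : Fin 3 → k}
    (hy : ∀ y i, y i = a i * dt l1 y + c i * dt x y + b i * dt l2 y)
    {h : MvPolynomial (Fin 3) k} {N : ℕ} (hh : h.IsHomogeneous N) (hl2 : l2 ≠ 0)
    (h0 : ∀ t : k, eval (t • a + b) h = 0) : lin x ∣ h := by
  set f : Fin 3 → MvPolynomial (Fin 3) k := fun i => C (a i) * lin l1 + C (b i) * lin l2 with hf
  have h1 : aeval f h = 0 := by
    have h2 : lin l2 * aeval f h = 0 := by
      apply MvPolynomial.funext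
      intro y
      rw [map_mul, map_zero, eval_lin]
      by_cases hz : dt l2 y = 0
      · rw [hz, zero_mul]
      · have h3 : eval y (aeval f h) = eval (fun i => a i * dt l1 y + b i * dt l2 y) h := by
          have this : eval y (aeval f h) = eval (fun i => eval y (f i)) h :=
            MvPolynomial.comp_aeval_apply (R := k) f (aeval y) h
          have h4 : ∀ i, eval y (f i) = a i * dt l1 y + b i * dt l2 y := by
            intro i; simp [hf, eval_lin]
          simp only [h4] at this
          rw [this]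
        have h4 : (fun i => a i * dt l1 y + b i * dt l2 y) =
            dt l2 y • ((dt l1 y / dt l2 y) • a + b) := by
          funext i
          simp only [Pi.smul_apply, Pi.add_apply, smul_eq_mul]
          field_simp
        rw [h3, h4, eval_smul_of_hom hh, h0, mul_zero, mul_zero]
    rcases mul_eq_zero.mp h2 with h3 | h3
    · exfalso
      apply hl2
      funext j
      have h4 := congrArg (eval (Pi.single j (1 : k))) h3
      rw [eval_lin, map_zero] at h4
      fin_cases j <;> simpa [dt] using h4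
    · exact h3
  have h2 := aeval_sub_mem (k := k) (Ideal.span {lin x}) (X : Fin 3 → MvPolynomial (Fin 3) k) f
    (by
      intro i
      rw [Ideal.mem_span_singleton]
      refine ⟨C (c i), ?_⟩
      apply MvPolynomial.funext
      intro y
      simp only [map_sub, map_mul, eval_X, eval_C, eval_lin, hf, map_add]
      linear_combination hy y i) h
  rw [h1, sub_zero, aeval_X_left_apply, Ideal.mem_span_singleton] at h2
  exact h2

lemma homogeneousComponent_lin_mul (x : Fin 3 → k) (g : MvPolynomial (Fin 3) k) (n : ℕ) :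
    homogeneousComponent (n + 1) (lin x * g) = lin x * homogeneousComponent n g := by
  conv_lhs => rw [← sum_homogeneousComponent g, Finset.mul_sum, map_sum]
  have h1 : ∀ i ∈ Finset.range (g.totalDegree + 1),
      homogeneousComponent (n + 1) (lin x * homogeneousComponent i g) =
        if i = n then lin x * homogeneousComponent n g else 0 := by
    intro i _
    have h2 : (lin x * homogeneousComponent i g).IsHomogeneous (1 + i) :=
      (lin_hom x).mul (homogeneousComponent_isHomogeneous i g)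
    rw [homogeneousComponent_of_mem (n := 1 + i) h2]
    by_cases h : i = n
    · subst h; rw [if_pos (by omega), if_pos rfl]
    · rw [if_neg (by omega), if_neg h]
  rw [Finset.sum_congr rfl h1, Finset.sum_ite_eq']
  split_ifs with h
  · rfl
  · rw [homogeneousComponent_eq_zero, mul_zero]
    simpa using h

lemma lin_factor {x : Fin 3 → k} {h : MvPolynomial (Fin 3) k} {n : ℕ}
    (hh : h.IsHomogeneous (n + 1)) (hd : lin x ∣ h) :
    ∃ g : MvPolynomial (Fin 3) k, g.IsHomogeneous n ∧ h = lin x * g := by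
  obtain ⟨g, rfl⟩ := hd
  refine ⟨homogeneousComponent n g, homogeneousComponent_isHomogeneous n g, ?_⟩
  rw [← homogeneousComponent_lin_mul, homogeneousComponent_eq_self hh]

/-- homogenisation -/
noncomputable def hm (l1 l2 : Fin 3 → k) (n : ℕ) (G : Polynomial k) : MvPolynomial (Fin 3) k :=
  ∑ i ∈ Finset.range (n + 1), C (G.coeff i) * (lin l1 ^ i * lin l2 ^ (n - i))

lemma hm_hom (l1 l2 : Fin 3 → k) (n : ℕ) (G : Polynomial k) : (hm l1 l2 n G).IsHomogeneous n := by
  refine IsHomogeneous.sum _ _ _ fun i hi => IsHomogeneous.C_mul ?_ _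
  have h1 := ((lin_hom l1).pow i).mul ((lin_hom l2).pow (n - i))
  have h2 : 1 * i + 1 * (n - i) = n := by
    have := Finset.mem_range.mp hi
    omega
  rwa [h2] at h1

lemma dt_add_smul (l a b : Fin 3 → k) (t : k) : dt l (t • a + b) = t * dt l a + dt l b := by
  simp [dt]; ring

lemma eval_hm {l1 l2 a b : Fin 3 → k} (h1a : dt l1 a = 1) (h1b : dt l1 b = 0)
    (h2a : dt l2 a = 0) (h2b : dt l2 b = 1) {n : ℕ} {G : Polynomial k} (hG : G.natDegree ≤ n)
    (t : k) : eval (t • a + b) (hm l1 l2 n G) = G.eval t := by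
  rw [hm, map_sum, Polynomial.eval_eq_sum_range' (Nat.lt_succ_of_le hG)]
  refine Finset.sum_congr rfl fun i _ => ?_
  simp only [map_mul, map_pow, eval_C, eval_lin, dt_add_smul, h1a, h1b, h2a, h2b]
  simp

lemma eval_aeval_sub (a b : Fin 3 → k) (p : MvPolynomial (Fin 3) k) (t : k) :
    (aeval (sub a b) p : Polynomial k).eval t = eval (t • a + b) p := by
  have := MvPolynomial.comp_aeval_apply (R := k) (sub a b) (Polynomial.aeval t) p
  simp only [Polynomial.coe_aeval_eq_eval] at this
  rw [this]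
  have h2 : (fun i => Polynomial.eval t (sub a b i)) = t • a + b := by
    funext i
    simp [sub]
    ring
  rw [h2]
  rfl

/-- forms of high degree are in the ideal generated by `p`, `q` and a linear form -/
lemma exists_decomp [Infinite k] {a b c l1 x l2 : Fin 3 → k}
    (hy : ∀ y i, y i = a i * dt l1 y + c i * dt x y + b i * dt l2 y)
    (h1a : dt l1 a = 1) (h1b : dt l1 b = 0) (h2a : dt l2 a = 0) (h2b : dt l2 b = 1)
    {p q : MvPolynomial (Fin 3) k} {e₁ e₂ : ℕ} (hp : p.IsHomogeneous e₁) (hq : q.IsHomogeneous e₂)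
    (he₁ : 1 ≤ e₁) (he₂ : 1 ≤ e₂) (hpa : eval a p ≠ 0)
    (hco : IsCoprime (aeval (sub a b) p : Polynomial k) (aeval (sub a b) q))
    {n : ℕ} (hn : e₁ + e₂ ≤ n + 2) {f : MvPolynomial (Fin 3) k} (hf : f.IsHomogeneous (n + 1)) :
    ∃ A B g : MvPolynomial (Fin 3) k, g.IsHomogeneous n ∧ f = A * p + B * q + lin x * g := by
  obtain ⟨hPd, hPc⟩ := aeval_sub_aux a b hp
  obtain ⟨hQd, -⟩ := aeval_sub_aux a b hq
  obtain ⟨hFd, -⟩ := aeval_sub_aux a b hf
  have eP := eval_aeval_sub a b p
  have eQ := eval_aeval_sub a b q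
  have eF := eval_aeval_sub a b f
  set P : Polynomial k := aeval (sub a b) p
  set Q : Polynomial k := aeval (sub a b) q
  set F : Polynomial k := aeval (sub a b) f
  have hPc' : P.coeff e₁ ≠ 0 := by rw [hPc]; simpa using hpa
  have hPd' : P.natDegree = e₁ := Polynomial.natDegree_eq_of_le_of_coeff_ne_zero hPd hPc'
  have hP0 : P ≠ 0 := by rintro h; rw [h] at hPc'; simp at hPc'
  obtain ⟨U, V, hUV⟩ := hco
  -- division
  set B : Polynomial k := (F * V) % P with hB
  set A : Polynomial k := F * U + Q * ((F * V) / P) with hA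
  have hdiv : F * V = P * ((F * V) / P) + B := (EuclideanDomain.div_add_mod (F * V) P).symm
  have hFAB : F = A * P + B * Q := by
    rw [hA]
    linear_combination (-F) * hUV + Q * hdiv
  have hBd : B.natDegree ≤ e₁ - 1 := by
    have h2 : B.natDegree < P.natDegree := Polynomial.natDegree_mod_lt _ (by omega)
    omega
  have hAd : A.natDegree ≤ n + 1 - e₁ := by
    by_cases hA0 : A = 0
    · rw [hA0]; simp
    have h1 : (A * P).natDegree ≤ n + 1 := by
      have h2 : A * P = F - B * Q := by rw [hFAB]; ring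
      rw [h2]
      refine (Polynomial.natDegree_sub_le _ _).trans (max_le hFd ?_)
      have := Polynomial.natDegree_mul_le_of_le hBd hQd
      omega
    rw [Polynomial.natDegree_mul hA0 hP0, hPd'] at h1
    omega
  have hBQ : e₁ - 1 ≤ n + 1 - e₂ := by omega
  have hle : e₁ ≤ n + 1 ∧ e₂ ≤ n + 1 := by omega
  · set h : MvPolynomial (Fin 3) k := f - hm l1 l2 (n + 1 - e₁) A * p -
      hm l1 l2 (n + 1 - e₂) B * q with hh
    have hhom : h.IsHomogeneous (n + 1) := by
      refine (hf.sub ?_).sub ?_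
      · have := (hm_hom l1 l2 (n + 1 - e₁) A).mul hp
        rwa [Nat.sub_add_cancel hle.1] at this
      · have := (hm_hom l1 l2 (n + 1 - e₂) B).mul hq
        rwa [Nat.sub_add_cancel hle.2] at this
    have h0 : ∀ t : k, eval (t • a + b) h = 0 := by
      intro t
      rw [hh, map_sub, map_sub, map_mul, map_mul, eval_hm h1a h1b h2a h2b hAd,
        eval_hm h1a h1b h2a h2b (hBd.trans hBQ), ← eP, ← eQ, ← eF, hFAB]
      simp
    have hl2 : l2 ≠ 0 := by
      rintro rfl
      simp [dt] at h2b
    obtain ⟨g, hg, hgh⟩ := lin_factor hhom (lin_dvd hy hhom hl2 h0)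
    refine ⟨hm l1 l2 (n + 1 - e₁) A, hm l1 l2 (n + 1 - e₂) B, g, hg, ?_⟩
    rw [← hgh, hh]
    ring

end Coords

section Main
variable {k : Type} [Field k]

lemma degree_pos_of_relPrime {p : MvPolynomial (Fin 3) k} {e₁ : ℕ}
    (hp : p.IsHomogeneous e₁) (hp0 : p ≠ 0) {y : Fin 3 → k} (hy : eval y p = 0) :
    1 ≤ e₁ := by
  by_contra h
  have h0 : e₁ = 0 := by omega
  subst h0
  have h1 : p.totalDegree = 0 := Nat.le_zero.mp hp.totalDegree_le
  rw [totalDegree_eq_zero_iff_eq_C] at h1
  rw [h1, eval_C] at hy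
  rw [hy] at h1
  exact hp0 (by rw [h1]; simp)

lemma ne_zero_of_relPrime {p q : MvPolynomial (Fin 3) k} (hpq : IsRelPrime p q)
    {y : Fin 3 → k} (hp : eval y p = 0) (hq : eval y q = 0) : p ≠ 0 := by
  rintro rfl
  have h1 : IsUnit q := hpq (dvd_zero q) dvd_rfl
  have h2 := h1.map (eval y)
  rw [hq] at h2
  exact not_isUnit_zero h2

lemma lin_ne_zero {w : Fin 3 → k} (hw : w ≠ 0) : lin w ≠ 0 := by
  intro h
  apply hw
  funext j
  have h4 := congrArg (eval (Pi.single j (1 : k))) h
  rw [eval_lin, map_zero] at h4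
  fin_cases j <;> simpa [dt] using h4

lemma exists_eval_ne [Infinite k] {p : MvPolynomial (Fin 3) k} (hp : p ≠ 0) :
    ∃ y : Fin 3 → k, eval y p ≠ 0 := by
  by_contra h
  push Not at h
  exact hp (MvPolynomial.funext fun y => by rw [h y, map_zero])

lemma isCoprime_of_comb {p q d : MvPolynomial (Fin 3) k}
    {U V : Polynomial (MvPolynomial (Fin 3) k)} {a b : Fin 3 → k}
    (h : U * aeval (sub a (X : Fin 3 → MvPolynomial (Fin 3) k)) p +
        V * aeval (sub a (X : Fin 3 → MvPolynomial (Fin 3) k)) q = Polynomial.C d)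
    (hd : eval b d ≠ 0) :
    IsCoprime (aeval (sub a b) p : Polynomial k) (aeval (sub a b) q) := by
  have key : ∀ p : MvPolynomial (Fin 3) k,
      (aeval (sub a (X : Fin 3 → MvPolynomial (Fin 3) k)) p).map (eval b) = aeval (sub a b) p := by
    intro p
    have h1 := MvPolynomial.comp_aeval_apply (R := k)
      (sub a (X : Fin 3 → MvPolynomial (Fin 3) k)) (Polynomial.mapAlgHom (aeval (R := k) b)) p
    have h2 : ∀ i, Polynomial.mapAlgHom (aeval (R := k) b)
        (sub a (X : Fin 3 → MvPolynomial (Fin 3) k) i) = sub a b i := by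
      intro i
      simp [sub]
    simp only [h2] at h1
    exact h1
  have h1 := congrArg (Polynomial.map (eval b)) h
  rw [Polynomial.map_add, Polynomial.map_mul, Polynomial.map_mul, key, key, Polynomial.map_C] at h1
  refine ⟨Polynomial.C (eval b d)⁻¹ * U.map (eval b), Polynomial.C (eval b d)⁻¹ * V.map (eval b), ?_⟩
  have h2 : Polynomial.C (eval b d)⁻¹ * Polynomial.C (eval b d) = 1 := by
    rw [← Polynomial.C_mul, inv_mul_cancel₀ hd, Polynomial.C_1]
  linear_combination (Polynomial.C (eval b d)⁻¹) * h1 + h2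

end Main

end G1

/-- (P1) -/
theorem plane_p1 {k ι : Type} [Field k] [Infinite k] [Fintype ι] [Nonempty ι]
    (u : ι → Fin 3 → k) (hu : PairNP u) {m e₁ e₂ : ℕ} (hNR : NR u m)
    (p q : MvPolynomial (Fin 3) k) (hp : p.IsHomogeneous e₁) (hq : q.IsHomogeneous e₂)
    (hpq : IsRelPrime p q) (hp0 : ∀ i, eval (u i) p = 0) (hq0 : ∀ i, eval (u i) q = 0) :
    m + 3 ≤ e₁ + e₂ := by
  classical
  by_contra hlt
  have hlt' : e₁ + e₂ ≤ m + 2 := by omega
  obtain ⟨i₀⟩ := ‹Nonempty ι›
  have hpne : p ≠ 0 := G1.ne_zero_of_relPrime hpq (hp0 i₀) (hq0 i₀)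
  have hqne : q ≠ 0 := G1.ne_zero_of_relPrime hpq.symm (hq0 i₀) (hp0 i₀)
  have he₁ : 1 ≤ e₁ := G1.degree_pos_of_relPrime hp hpne (hp0 i₀)
  have he₂ : 1 ≤ e₂ := G1.degree_pos_of_relPrime hq hqne (hq0 i₀)
  obtain ⟨a, ha⟩ := G1.exists_eval_ne hpne
  obtain ⟨d, U, V, hd, hUV⟩ := G1.exists_comb hp hpq a ha
  have hcr : ∀ i, G1.crs a (u i) ≠ 0 := by
    intro i hi
    have hi' : G1.crs (u i) a = 0 := by
      have h0 := congrFun hi 0
      have h1 := congrFun hi 1
      have h2 := congrFun hi 2
      simp [G1.crs] at h0 h1 h2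
      funext j
      fin_cases j
      · simp [G1.crs]; linear_combination -h0
      · simp [G1.crs]; linear_combination -h1
      · simp [G1.crs]; linear_combination -h2
    obtain ⟨t, ht⟩ := G1.exists_smul_of_crs (hu.1 i) hi'
    apply ha
    rw [ht, G1.eval_smul_of_hom hp, hp0 i, mul_zero]
  have hprod : d * ∏ i, G1.lin (G1.crs a (u i)) ≠ 0 :=
    mul_ne_zero hd (Finset.prod_ne_zero_iff.mpr fun i _ => G1.lin_ne_zero (hcr i))
  obtain ⟨b, hb⟩ := G1.exists_eval_ne hprod
  rw [map_mul, map_prod] at hb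
  have hbd : eval b d ≠ 0 := left_ne_zero_of_mul hb
  have hbu : ∀ i, G1.dt (G1.crs a (u i)) b ≠ 0 := by
    intro i
    have := Finset.prod_ne_zero_iff.mp (right_ne_zero_of_mul hb) i (Finset.mem_univ i)
    rwa [G1.eval_lin] at this
  have hco := G1.isCoprime_of_comb hUV hbd
  obtain ⟨l1, x, l2, hy, h1a, h1b, h2a, h2b, -, -, r, hr, hx⟩ :=
    G1.exists_coords a b (u i₀) (hbu i₀)
  have hxu : ∀ i, G1.dt x (u i) ≠ 0 := fun i => by
    rw [hx]; exact mul_ne_zero hr (hbu i)
  obtain ⟨c, hc, hrel⟩ := hNR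
  -- the induction
  have key : ∀ j : ℕ, ∀ f : MvPolynomial (Fin 3) k, f.IsHomogeneous (m + j) →
      ∑ i, c i * (((G1.dt x (u i)) ^ j)⁻¹ * eval (u i) f) = 0 := by
    intro j
    induction j with
    | zero => intro f hf; simpa using hrel f hf
    | succ j ih =>
      intro f hf
      obtain ⟨A, B, g, hg, hfg⟩ := G1.exists_decomp hy h1a h1b h2a h2b hp hq he₁ he₂ ha hco
        (n := m + j) (by omega) (f := f) hf
      rw [← ih g hg]
      refine Finset.sum_congr rfl fun i _ => ?_
      have h1 : eval (u i) f = G1.dt x (u i) * eval (u i) g := by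
        rw [hfg]
        simp [hp0 i, hq0 i, G1.eval_lin]
      rw [h1, pow_succ, mul_inv]
      have h2 := hxu i
      field_simp
  -- separating forms
  have hsep : ∀ i, ∃ w : Fin 3 → k, i ≠ i₀ → G1.dt w (u i) = 0 ∧ G1.dt w (u i₀) ≠ 0 := by
    intro i
    by_cases hi : i = i₀
    · exact ⟨0, fun h => absurd hi h⟩
    · obtain ⟨w, hw⟩ := G1.exists_sep (hu.1 i) (v := u i₀) (hu.2 i₀ i (Ne.symm hi))
      exact ⟨w, fun _ => hw⟩
  choose w hw using hsep
  set S : Finset ι := Finset.univ.erase i₀ with hS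
  set f : MvPolynomial (Fin 3) k := (∏ i ∈ S, G1.lin (w i)) * G1.lin x ^ m with hf
  have hfhom : f.IsHomogeneous (m + S.card) := by
    have h1 : (∏ i ∈ S, G1.lin (w i)).IsHomogeneous (∑ i ∈ S, 1) :=
      IsHomogeneous.prod _ _ _ fun i _ => G1.lin_hom (w i)
    have h2 := h1.mul ((G1.lin_hom x).pow m)
    have h3 : (∑ i ∈ S, 1) + 1 * m = m + S.card := by
      rw [Finset.sum_const, smul_eq_mul]; ring
    rwa [h3] at h2
  have h1 := key S.card f hfhom
  rw [Finset.sum_eq_single i₀] at h1
  · have h2 : eval (u i₀) f ≠ 0 := by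
      rw [hf, map_mul, map_prod, map_pow]
      refine mul_ne_zero (Finset.prod_ne_zero_iff.mpr fun i hi => ?_) (pow_ne_zero _ ?_)
      · rw [G1.eval_lin]; exact (hw i (Finset.ne_of_mem_erase hi)).2
      · rw [G1.eval_lin]; exact hxu i₀
    rcases mul_eq_zero.mp h1 with h3 | h3
    · exact hc i₀ h3
    · rcases mul_eq_zero.mp h3 with h4 | h4
      · exact pow_ne_zero _ (hxu i₀) (inv_eq_zero.mp h4)
      · exact h2 h4
  · intro i _ hi
    have h2 : eval (u i) f = 0 := by
      rw [hf, map_mul, map_prod]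
      have h3 : ∏ j ∈ S, eval (u i) (G1.lin (w j)) = 0 := by
        refine Finset.prod_eq_zero (i := i) (Finset.mem_erase.mpr ⟨hi, Finset.mem_univ i⟩) ?_
        rw [G1.eval_lin]; exact (hw i hi).1
      rw [h3, zero_mul]
    rw [h2, mul_zero, mul_zero]
  · intro h; exact absurd (Finset.mem_univ i₀) h

/-- multiplication of a relation by a form -/
theorem NR.mul {k ι : Type} [Field k] [Fintype ι] {u : ι → Fin 3 → k} {m m' e : ℕ}
    (hNR : NR u m) (g : MvPolynomial (Fin 3) k) (hg : g.IsHomogeneous e) (hm : m' + e = m)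
    (p : ι → Prop) [DecidablePred p] (hpg : ∀ i, p i ↔ eval (u i) g ≠ 0) :
    NR (fun i : {i // p i} => u i) m' := by
  obtain ⟨c, hc, hrel⟩ := hNR
  refine ⟨fun i => c i * eval (u i) g, fun i => mul_ne_zero (hc i) ((hpg i).mp i.2), ?_⟩
  intro f hf
  have h1 : (f * g).IsHomogeneous m := hm ▸ hf.mul hg
  have h2 := hrel (f * g) h1
  rw [← h2]
  have h3 : ∀ i, c i * eval (u i) (f * g) = if p i then c i * eval (u i) g * eval (u i) f else 0 := by
    intro i
    split_ifs with hi
    · rw [map_mul]; ring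
    · have h4 : eval (u i) g = 0 := by
        by_contra h5; exact hi ((hpg i).mpr h5)
      rw [map_mul, h4, mul_zero, mul_zero]
  rw [Finset.sum_congr rfl fun i _ => h3 i, ← Finset.sum_filter]
  exact (Finset.sum_subtype (Finset.univ.filter p) (by simp)
    (fun i => c i * eval (u i) g * eval (u i) f)).symm

end Pool.Agent.LowDeg
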