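import Pool.Agent.LowDeg.Plane

/-! Module G2 (doc section 9.2): the number of points. -/

set_option autoImplicit false

open MvPolynomial

namespace Pool.Agent.LowDeg

namespace PlaneCountAux

variable {k : Type} [Field k]

/-- exponents of degree `N` -/
def idx (N : ℕ) : Finset (Fin 3 →₀ ℕ) := Finset.finsuppAntidiag Finset.univ N

lemma mem_idx (N : ℕ) (d : Fin 3 →₀ ℕ) : d ∈ idx N ↔ d.degree = N := by
  unfold idx
  rw [Finset.mem_finsuppAntidiag, Finsupp.degree_eq_sum]
  simp

lemma card_idx (N : ℕ) : 2 * (idx N).card = (N + 1) * (N + 2) := by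
  unfold idx
  rw [Finset.card_finsuppAntidiag_nat_eq_choose]
  have h1 : (Finset.univ : Finset (Fin 3)).card = 3 := by simp
  rw [h1]
  have h2 : (3 + N - 1).choose N = (N + 2).choose 2 := by
    have h3 : 3 + N - 1 = N + 2 := by omega
    rw [h3]
    have h4 := Nat.choose_symm (n := N + 2) (k := 2) (by omega)
    rwa [Nat.add_sub_cancel] at h4
  rw [h2, Nat.choose_two_right]
  have h5 : N + 2 - 1 = N + 1 := by omega
  rw [h5, mul_comm (N + 2) (N + 1)]
  exact Nat.mul_div_cancel' (Nat.even_mul_succ_self (N + 1)).two_dvd

/-- coefficients of a form -/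
noncomputable def cfEquiv (N : ℕ) : homogeneousSubmodule (Fin 3) k N ≃ₗ[k] (idx N → k) where
  toFun f := fun d => coeff d.1 f.1
  map_add' f g := by funext d; simp
  map_smul' c f := by funext d; simp
  invFun c := ⟨∑ d : idx N, monomial d.1 (c d), by
    rw [mem_homogeneousSubmodule]
    refine IsHomogeneous.sum _ _ _ fun d _ => ?_
    exact isHomogeneous_monomial _ ((mem_idx N d.1).1 d.2)⟩
  left_inv f := by
    apply Subtype.ext
    ext e
    simp only [coeff_sum, coeff_monomial]
    by_cases he : e ∈ idx N
    · rw [Finset.sum_eq_single (⟨e, he⟩ : idx N)]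
      · simp
      · intro b _ hb
        rw [if_neg]
        intro h
        exact hb (Subtype.ext h)
      · simp
    · rw [Finset.sum_eq_zero]
      · rw [mem_idx] at he
        exact (f.2.coeff_eq_zero he).symm
      · intro b _
        rw [if_neg]
        intro h
        exact he (h ▸ b.2)
  right_inv c := by
    funext e
    simp only [coeff_sum, coeff_monomial]
    rw [Finset.sum_eq_single e]
    · simp
    · intro b _ hb
      rw [if_neg]
      intro h
      exact hb (Subtype.ext h)
    · simp

lemma finrank_forms (N : ℕ) :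
    2 * Module.finrank k (homogeneousSubmodule (Fin 3) k N) = (N + 1) * (N + 2) := by
  rw [(cfEquiv (k := k) N).finrank_eq, Module.finrank_fintype_fun_eq_card, Fintype.card_coe,
    card_idx]

instance (N : ℕ) : FiniteDimensional k (homogeneousSubmodule (Fin 3) k N) :=
  Module.Finite.equiv (cfEquiv (k := k) N).symm

/-- evaluation at the points -/
noncomputable def evm {ι : Type} (u : ι → Fin 3 → k) (N : ℕ) :
    homogeneousSubmodule (Fin 3) k N →ₗ[k] (ι → k) where
  toFun f := fun i => eval (u i) f.1
  map_add' f g := by funext i; simp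
  map_smul' c f := by funext i; simp [smul_eval]

/-- multiplication by a form -/
noncomputable def mulm {h : ℕ} (g : MvPolynomial (Fin 3) k) (hg : g.IsHomogeneous h) (M : ℕ) :
    homogeneousSubmodule (Fin 3) k M →ₗ[k] homogeneousSubmodule (Fin 3) k (h + M) where
  toFun f := ⟨g * f.1, hg.mul f.2⟩
  map_add' f f' := by apply Subtype.ext; simp [mul_add]
  map_smul' c f := by apply Subtype.ext; simp

lemma comp_mul {h : ℕ} (g : MvPolynomial (Fin 3) k) (hg : g.IsHomogeneous h)
    (q : MvPolynomial (Fin 3) k) (N : ℕ) (hf : (g * q).IsHomogeneous N) :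
    g * q = if h ≤ N then g * homogeneousComponent (N - h) q else 0 := by
  have h1 : g * q = homogeneousComponent N (g * q) := (homogeneousComponent_eq_self hf).symm
  have h2 : homogeneousComponent N (g * q) =
      ∑ i ∈ Finset.range (q.totalDegree + 1), homogeneousComponent N (g * homogeneousComponent i q) := by
    conv_lhs => rw [← sum_homogeneousComponent q, Finset.mul_sum, map_sum]
  have h3 : ∀ i, homogeneousComponent N (g * homogeneousComponent i q) =
      if N = h + i then g * homogeneousComponent i q else 0 := by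
    intro i
    have h4 : g * homogeneousComponent i q ∈ homogeneousSubmodule (Fin 3) k (h + i) :=
      hg.mul (homogeneousComponent_isHomogeneous i q)
    rw [homogeneousComponent_of_mem h4]
  rw [h1, h2]
  simp only [h3]
  by_cases hh : h ≤ N
  · rw [if_pos hh]
    by_cases hr : N - h ∈ Finset.range (q.totalDegree + 1)
    · rw [Finset.sum_eq_single_of_mem (N - h) hr]
      · rw [if_pos (by omega)]
      · intro b _ hb
        rw [if_neg (by omega)]
    · rw [Finset.sum_eq_zero]
      · have hr' : q.totalDegree < N - h := by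
          rw [Finset.mem_range] at hr; omega
        rw [homogeneousComponent_eq_zero _ _ hr', mul_zero]
      · intro b hb
        rw [if_neg]
        intro h5
        apply hr
        have : N - h = b := by omega
        rw [this]; exact hb
  · rw [if_neg hh]
    refine Finset.sum_eq_zero fun b _ => ?_
    rw [if_neg (by omega)]

end PlaneCountAux

open PlaneCountAux

/-- small forms vanishing at the points are divisible by `g` -/
theorem dvd_of_vanish {k ι : Type} [Field k] [Infinite k] [Fintype ι] [Nonempty ι]
    (u : ι → Fin 3 → k) (hu : PairNP u) {m h e : ℕ} (hNR : NR u m)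
    (g : MvPolynomial (Fin 3) k) (hg : g.IsHomogeneous h) (hirr : Irreducible g)
    (hg0 : ∀ i, eval (u i) g = 0) (f : MvPolynomial (Fin 3) k) (hf : f.IsHomogeneous e)
    (hf0 : ∀ i, eval (u i) f = 0) (he : e + h < m + 3) : g ∣ f := by
  by_contra hn
  have h1 : IsRelPrime g f := hirr.isRelPrime_iff_not_dvd.2 hn
  have h2 := plane_p1 u hu hNR g f hg hf h1 hg0 hf0
  omega

/-- the number of points on an irreducible curve -/
theorem plane_count {k ι : Type} [Field k] [Infinite k] [Fintype ι] [Nonempty ι]
    (u : ι → Fin 3 → k) (hu : PairNP u) {m h N : ℕ} (hNR : NR u m) (hN : N + h = m + 2)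
    (g : MvPolynomial (Fin 3) k) (hg : g.IsHomogeneous h) (hirr : Irreducible g)
    (hg0 : ∀ i, eval (u i) g = 0) :
    (h : ℤ) * (2 * m + 7 - 3 * h) ≤ 2 * Fintype.card ι := by
  have hrn := LinearMap.finrank_range_add_finrank_ker (evm u N)
  have hr : Module.finrank k (LinearMap.range (evm u N)) ≤ Fintype.card ι := by
    calc Module.finrank k (LinearMap.range (evm u N)) ≤ Module.finrank k (ι → k) :=
          Submodule.finrank_le _
      _ = Fintype.card ι := Module.finrank_fintype_fun_eq_card k
  have hdiv : ∀ f : homogeneousSubmodule (Fin 3) k N, f ∈ LinearMap.ker (evm u N) → g ∣ f.1 := by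
    intro f hf
    refine dvd_of_vanish u hu hNR g hg hirr hg0 f.1 f.2 (fun i => ?_) (by omega)
    exact congrFun (LinearMap.mem_ker.1 hf) i
  have hVN := finrank_forms (k := k) N
  by_cases hh : h ≤ N
  · obtain ⟨M, rfl⟩ := Nat.exists_eq_add_of_le hh
    have hle : LinearMap.ker (evm u (h + M)) ≤ LinearMap.range (mulm g hg M) := by
      intro f hf
      obtain ⟨q, hq⟩ := hdiv f hf
      have h1 := comp_mul g hg q (h + M) (hq ▸ f.2)
      rw [if_pos hh, Nat.add_sub_cancel_left] at h1
      refine ⟨⟨homogeneousComponent M q, homogeneousComponent_isHomogeneous M q⟩, ?_⟩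
      apply Subtype.ext
      show g * homogeneousComponent M q = f.1
      rw [hq, ← h1]
    have hk : Module.finrank k (LinearMap.ker (evm u (h + M))) ≤
        Module.finrank k (homogeneousSubmodule (Fin 3) k M) :=
      (Submodule.finrank_mono hle).trans (LinearMap.finrank_range_le _)
    have hVM := finrank_forms (k := k) M
    have h2 : (h + M + 1) * (h + M + 2) ≤ 2 * Fintype.card ι + (M + 1) * (M + 2) := by
      rw [← hVN, ← hVM]; omega
    have hm : (m : ℤ) = h + M + h - 2 := by omega
    have h3 : ((h : ℤ) + M + 1) * (h + M + 2) ≤ 2 * Fintype.card ι + (M + 1) * (M + 2) := by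
      exact_mod_cast h2
    rw [hm]
    nlinarith
  · have hk : Module.finrank k (LinearMap.ker (evm u N)) = 0 := by
      rw [Submodule.finrank_eq_zero, eq_bot_iff]
      intro f hf
      obtain ⟨q, hq⟩ := hdiv f hf
      have h1 := comp_mul g hg q N (hq ▸ f.2)
      rw [if_neg hh] at h1
      rw [Submodule.mem_bot]
      apply Subtype.ext
      rw [hq, h1]; rfl
    have h2 : (N + 1) * (N + 2) ≤ 2 * Fintype.card ι := by
      rw [← hVN]; omega
    have h3 : ((N : ℤ) + 1) * (N + 2) ≤ 2 * Fintype.card ι := by
      exact_mod_cast h2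
    have hm : (m : ℤ) = N + h - 2 := by omega
    rw [hm]
    obtain ⟨t, ht⟩ := Nat.exists_eq_add_of_lt (not_le.1 hh)
    have ht' : (h : ℤ) = N + t + 1 := by exact_mod_cast ht
    rw [ht']
    have h4 : (0:ℤ) ≤ (t : ℤ) * (t - 1) := by
      rcases Nat.eq_zero_or_pos t with h0 | h0
      · subst h0; simp
      · have : (1:ℤ) ≤ t := by exact_mod_cast h0
        nlinarith
    nlinarith

end Pool.Agent.LowDeg
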