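import Pool.Agent.LowDeg.PlaneCount

/-! Module G3 (doc section 9.3): the minimal curve through the points. -/

set_option autoImplicit false

open MvPolynomial

namespace Pool.Agent.LowDeg

namespace PlaneCoverAux

section hom

variable {k : Type} [Field k]

/-- the homomorphism `X i ↦ X i T` -/
noncomputable def grd : MvPolynomial (Fin 3) k →ₐ[k] Polynomial (MvPolynomial (Fin 3) k) :=
  aeval (fun i => Polynomial.C (X i) * Polynomial.X)

lemma grd_hom {P : MvPolynomial (Fin 3) k} {d : ℕ} (hP : P.IsHomogeneous d) :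
    grd P = Polynomial.C P * Polynomial.X ^ d := by
  have h1 : Polynomial.C P = ∑ v ∈ P.support, Polynomial.C (monomial v (coeff v P)) := by
    rw [← map_sum]
    exact congrArg _ P.as_sum
  rw [grd, aeval_def, eval₂_eq, h1, Finset.sum_mul]
  refine Finset.sum_congr rfl fun s hs => ?_
  have hd := hP.degree_eq_sum_deg_support hs
  simp only [mul_pow]
  rw [Finset.prod_mul_distrib, Finset.prod_pow_eq_pow_sum, ← hd, monomial_eq, map_mul, ← mul_assoc]
  congr 2
  rw [Finsupp.prod, map_prod]
  exact Finset.prod_congr rfl fun i _ => (Polynomial.C_pow).symm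

lemma eval_grd (P : MvPolynomial (Fin 3) k) : (grd P).eval 1 = P := by
  have h : ((Polynomial.evalRingHom (1 : MvPolynomial (Fin 3) k)).comp
      (grd (k := k)).toRingHom) = RingHom.id _ := by
    ext i
    · simp [grd]
    · simp [grd]
  exact congrArg (fun f => f P) h

lemma grd_ne_zero {P : MvPolynomial (Fin 3) k} (hP : P ≠ 0) : grd P ≠ 0 := by
  intro h
  apply hP
  rw [← eval_grd P, h, Polynomial.eval_zero]

/-- a factor of a form is a form -/
lemma isHomogeneous_of_mul {p q : MvPolynomial (Fin 3) k} (hpq : p * q ≠ 0) {d : ℕ}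
    (h : (p * q).IsHomogeneous d) : ∃ a, p.IsHomogeneous a := by
  have hp0 : p ≠ 0 := left_ne_zero_of_mul hpq
  have hq0 : q ≠ 0 := right_ne_zero_of_mul hpq
  have h1 : grd p * grd q = Polynomial.monomial d (p * q) := by
    rw [← map_mul, grd_hom h, Polynomial.C_mul_X_pow_eq_monomial]
  have h2 := congrArg Polynomial.natDegree h1
  have h3 := congrArg Polynomial.natTrailingDegree h1
  rw [Polynomial.natDegree_mul (grd_ne_zero hp0) (grd_ne_zero hq0),
    Polynomial.natDegree_monomial_eq d hpq] at h2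
  rw [Polynomial.natTrailingDegree_mul (grd_ne_zero hp0) (grd_ne_zero hq0),
    Polynomial.natTrailingDegree_monomial hpq] at h3
  have h4 := Polynomial.natTrailingDegree_le_natDegree (grd p)
  have h5 := Polynomial.natTrailingDegree_le_natDegree (grd q)
  have h6 : (grd p).natTrailingDegree = (grd p).natDegree := by omega
  refine ⟨(grd p).natDegree, ?_⟩
  -- the coefficients of `grd p` are the homogeneous components
  have hsum : grd p = ∑ i ∈ Finset.range (p.totalDegree + 1),
      Polynomial.C (homogeneousComponent i p) * Polynomial.X ^ i := by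
    conv_lhs => rw [← sum_homogeneousComponent p]
    rw [map_sum]
    exact Finset.sum_congr rfl fun i _ => grd_hom (homogeneousComponent_isHomogeneous i p)
  have hcoeff : ∀ j, (grd p).coeff j = homogeneousComponent j p := by
    intro j
    rw [hsum, Polynomial.finsetSum_coeff]
    simp only [Polynomial.coeff_C_mul, Polynomial.coeff_X_pow, mul_ite, mul_one, mul_zero]
    rw [Finset.sum_ite_eq]
    split_ifs with hj
    · rfl
    · rw [Finset.mem_range, not_lt] at hj
      rw [homogeneousComponent_eq_zero j p (by omega)]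
  have hzero : ∀ j, j ≠ (grd p).natDegree → homogeneousComponent j p = 0 := by
    intro j hj
    rw [← hcoeff]
    rcases lt_or_gt_of_ne hj with h7 | h7
    · exact Polynomial.coeff_eq_zero_of_lt_natTrailingDegree (by rw [h6]; exact h7)
    · exact Polynomial.coeff_eq_zero_of_natDegree_lt h7
  have h8 : p = homogeneousComponent (grd p).natDegree p := by
    conv_lhs => rw [← eval_grd p, hsum, Polynomial.eval_finsetSum]
    simp only [Polynomial.eval_mul, Polynomial.eval_C, Polynomial.eval_pow, Polynomial.eval_X,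
      one_pow, mul_one]
    rw [Finset.sum_eq_single (grd p).natDegree]
    · intro j _ hj
      exact hzero j hj
    · intro hj
      rw [Finset.mem_range, not_lt] at hj
      exact homogeneousComponent_eq_zero _ p (by omega)
  rw [h8]
  have h9 : (grd (homogeneousComponent (grd p).natDegree p)).natDegree = (grd p).natDegree := by
    rw [← h8]
  rw [h9]
  exact homogeneousComponent_isHomogeneous _ _

lemma isHomogeneous_of_dvd {p P : MvPolynomial (Fin 3) k} (hP : P ≠ 0) {d : ℕ}
    (h : P.IsHomogeneous d) (hp : p ∣ P) : ∃ a, p.IsHomogeneous a := by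
  obtain ⟨q, rfl⟩ := hp
  exact isHomogeneous_of_mul hP h

end hom

section dim

variable {k : Type} [Field k]

/-- the monomials of degree at most `e` in two variables -/
def tri (n : ℕ) : Finset (Σ _ : ℕ, ℕ × ℕ) :=
  (Finset.range n).sigma fun n => Finset.HasAntidiagonal.antidiagonal n

lemma two_card_tri (n : ℕ) : 2 * (tri n).card = n * (n + 1) := by
  rw [tri, Finset.card_sigma]
  simp only [Finset.Nat.card_antidiagonal]
  induction n with
  | zero => simp
  | succ n ih =>
    rw [Finset.sum_range_succ, mul_add, ih]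
    ring

/-- the exponent of a ternary monomial of degree `e` -/
noncomputable def expo (e : ℕ) (q : Σ _ : ℕ, ℕ × ℕ) : Fin 3 →₀ ℕ :=
  Finsupp.single 0 q.2.1 + Finsupp.single 1 q.2.2 + Finsupp.single 2 (e - q.1)

lemma expo_injOn (e : ℕ) : Set.InjOn (expo e) (tri (e + 1) : Set (Σ _ : ℕ, ℕ × ℕ)) := by
  rintro ⟨n, a, b⟩ hq ⟨n', a', b'⟩ hq' h
  rw [Finset.mem_coe, tri, Finset.mem_sigma, Finset.HasAntidiagonal.mem_antidiagonal] at hq hq'
  have h0 := DFunLike.congr_fun h 0
  have h1 := DFunLike.congr_fun h 1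
  simp [expo] at h0 h1
  obtain ⟨_, hq⟩ := hq
  obtain ⟨_, hq'⟩ := hq'
  simp only at hq hq'
  subst h0 h1 hq hq'
  rfl

/-- the form with given coefficients -/
noncomputable def formL (e : ℕ) : (tri (e + 1) → k) →ₗ[k] MvPolynomial (Fin 3) k :=
  ∑ q : tri (e + 1), (monomial (expo e q)).comp (LinearMap.proj q)

lemma formL_apply (e : ℕ) (c : tri (e + 1) → k) :
    formL e c = ∑ q : tri (e + 1), monomial (expo e q) (c q) := by
  simp [formL, LinearMap.sum_apply]

lemma formL_isHomogeneous (e : ℕ) (c : tri (e + 1) → k) : (formL e c).IsHomogeneous e := by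
  rw [formL_apply]
  refine IsHomogeneous.sum _ _ _ fun q _ => ?_
  refine isHomogeneous_monomial _ ?_
  obtain ⟨⟨n, a, b⟩, hq⟩ := q
  rw [tri, Finset.mem_sigma, Finset.HasAntidiagonal.mem_antidiagonal, Finset.mem_range] at hq
  simp only [expo, map_add, Finsupp.degree_single]
  simp only at hq
  omega

lemma formL_ne_zero (e : ℕ) {c : tri (e + 1) → k} (hc : c ≠ 0) : formL e c ≠ 0 := by
  obtain ⟨q, hq⟩ := Function.ne_iff.1 hc
  intro h
  apply hq
  have h1 := congrArg (coeff (expo e q)) h
  rw [formL_apply, coeff_sum, Finset.sum_eq_single q] at h1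
  · rw [coeff_monomial, if_pos rfl, coeff_zero] at h1
    exact h1
  · intro q' _ hne
    rw [coeff_monomial, if_neg]
    intro heq
    exact hne (Subtype.ext (expo_injOn e q'.2 q.2 heq))
  · intro h2
    exact absurd (Finset.mem_univ q) h2

/-- forms through few points -/
lemma exists_form {ι : Type} [Fintype ι] (u : ι → Fin 3 → k) (e : ℕ)
    (h : 2 * Fintype.card ι < (e + 1) * (e + 2)) :
    ∃ P : MvPolynomial (Fin 3) k, P ≠ 0 ∧ P.IsHomogeneous e ∧ ∀ i, eval (u i) P = 0 := by
  let ev : ι → MvPolynomial (Fin 3) k →ₗ[k] k := fun i => (aeval (u i)).toLinearMap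
  let L : (tri (e + 1) → k) →ₗ[k] (ι → k) := LinearMap.pi fun i => (ev i).comp (formL e)
  have hlt : Module.finrank k (ι → k) < Module.finrank k (tri (e + 1) → k) := by
    rw [Module.finrank_fintype_fun_eq_card, Module.finrank_fintype_fun_eq_card]
    simp only [Fintype.card_coe]
    have h1 := two_card_tri (e + 1)
    have h2 : (e + 1) * (e + 1 + 1) = (e + 1) * (e + 2) := rfl
    omega
  have hker := LinearMap.ker_ne_bot_of_finrank_lt (f := L) hlt
  obtain ⟨c, hc, hc0⟩ := (Submodule.ne_bot_iff _).1 hker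
  rw [LinearMap.mem_ker] at hc
  refine ⟨formL e c, formL_ne_zero e hc0, formL_isHomogeneous e c, fun i => ?_⟩
  have h1 := congrFun hc i
  change aeval (u i) (formL e c) = 0 at h1
  rw [aeval_eq_eval] at h1
  exact h1

/-- factorisation into irreducible factors -/
lemma exists_family (P : MvPolynomial (Fin 3) k) (hP0 : P ≠ 0) :
    ∃ (J : Type) (_ : Fintype J) (G : J → MvPolynomial (Fin 3) k), (∀ j, Irreducible (G j)) ∧
      Associated (∏ j, G j) P := by
  obtain ⟨fs, hfs, hassoc⟩ := WfDvdMonoid.exists_factors P hP0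
  refine ⟨Fin fs.toList.length, inferInstance, fun j => fs.toList.get j,
    fun j => hfs _ (Multiset.mem_toList.1 (List.get_mem fs.toList j)), ?_⟩
  have h1 : ∏ j, fs.toList.get j = fs.toList.prod := by
    have := List.prod_ofFn (f := fun j : Fin fs.toList.length => fs.toList.get j)
    rw [List.ofFn_get] at this
    exact this.symm
  rw [h1, Multiset.prod_toList]
  exact hassoc

end dim

end PlaneCoverAux

open PlaneCoverAux

open scoped Classical in
/-- (Cover) -/
theorem plane_cover {k ι : Type} [Field k] [Infinite k] [Fintype ι] [Nonempty ι]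
    (u : ι → Fin 3 → k) (hu : PairNP u) {n : ℕ} (hNR : NR u n)
    (hcard : 8 * Fintype.card ι < (n + 3) * (n + 5)) :
    ∃ (J : Type) (_ : Fintype J) (G : J → MvPolynomial (Fin 3) k) (h : J → ℕ),
      (∀ j, Irreducible (G j) ∧ (G j).IsHomogeneous (h j) ∧ 1 ≤ h j) ∧
      (∀ i j, i ≠ j → ¬ Associated (G i) (G j)) ∧
      Nonempty J ∧ 6 * ∑ j, h j ≤ n + 4 ∧
      (∀ i, ∃ j, eval (u i) (G j) = 0) ∧
      (∀ j, ∃ i, eval (u i) (G j) = 0 ∧ ∀ l, l ≠ j → eval (u i) (G l) ≠ 0) ∧
      (∀ j, ∀ m : ℕ, m + ∑ l, h l = n + h j →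
        NR (fun i : {i // eval (u i) (G j) = 0 ∧ ∀ l, l ≠ j → eval (u i) (G l) ≠ 0} => u i) m) ∧
      (∀ (e : ℕ) (f : MvPolynomial (Fin 3) k), f.IsHomogeneous e → e + ∑ j, h j < n + 3 →
        (∀ i, eval (u i) f = 0) → ∏ j, G j ∣ f) := by
  -- the minimal degree
  have hex : ∃ e, ∃ P : MvPolynomial (Fin 3) k, P ≠ 0 ∧ P.IsHomogeneous e ∧
      ∀ i, eval (u i) P = 0 :=
    ⟨2 * Fintype.card ι, exists_form u _ (by nlinarith)⟩
  set H := Nat.find hex with hH
  obtain ⟨P, hP0, hPh, hPu⟩ := Nat.find_spec hex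
  have hmin : ∀ (e : ℕ) (Q : MvPolynomial (Fin 3) k), Q ≠ 0 → Q.IsHomogeneous e →
      (∀ i, eval (u i) Q = 0) → H ≤ e := fun e Q h1 h2 h3 => Nat.find_min' hex ⟨Q, h1, h2, h3⟩
  -- the factors
  obtain ⟨J, hJF, G, hGirr, hGassoc⟩ := exists_family P hP0
  have hGprod0 : ∏ j, G j ≠ 0 := (hGassoc.ne_zero_iff).2 hP0
  have hdeg : ∀ j, ∃ a, (G j).IsHomogeneous a := fun j =>
    isHomogeneous_of_dvd hP0 hPh ((Finset.dvd_prod_of_mem G (Finset.mem_univ j)).trans
      hGassoc.dvd)
  choose h hh using hdeg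
  have hh1 : ∀ j, 1 ≤ h j := by
    intro j
    rw [Nat.one_le_iff_ne_zero]
    intro h0
    have h1 := hh j
    rw [h0, ← totalDegree_zero_iff_isHomogeneous] at h1
    have h2 := totalDegree_eq_zero_iff_eq_C.1 h1
    apply (hGirr j).not_isUnit
    rw [h2]
    refine (isUnit_iff_ne_zero.2 fun h3 => (hGirr j).ne_zero ?_).map C
    rw [h2, h3, C_0]
  have hhom : ∀ S : Finset J, (∏ j ∈ S, G j).IsHomogeneous (∑ j ∈ S, h j) :=
    fun S => IsHomogeneous.prod S G h fun j _ => hh j
  have hne : ∀ S : Finset J, ∏ j ∈ S, G j ≠ 0 := fun S =>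
    Finset.prod_ne_zero_iff.2 fun j _ => (hGirr j).ne_zero
  have hsumle : ∑ j, h j ≤ H := by
    obtain ⟨r, hr⟩ := hGassoc.dvd
    have hr0 : r ≠ 0 := by
      rintro rfl
      exact hP0 (by rw [hr, mul_zero])
    have h1 := totalDegree_mul_of_isDomain hGprod0 hr0
    rw [← hr, hPh.totalDegree hP0, (hhom Finset.univ).totalDegree hGprod0] at h1
    omega
  have hvan : ∀ i, ∃ j, eval (u i) (G j) = 0 := by
    intro i
    obtain ⟨r, hr⟩ := hGassoc.symm.dvd
    have h1 : eval (u i) (∏ j, G j) = 0 := by rw [hr, map_mul, hPu, zero_mul]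
    rw [map_prod, Finset.prod_eq_zero_iff] at h1
    obtain ⟨j, -, hj⟩ := h1
    exact ⟨j, hj⟩
  have hmin' : ∀ j, ∃ i, ∀ l, l ≠ j → eval (u i) (G l) ≠ 0 := by
    intro j
    by_contra hcon
    push Not at hcon
    have h1 := hmin _ _ (hne (Finset.univ.erase j)) (hhom (Finset.univ.erase j)) fun i => by
      obtain ⟨l, hl, hl0⟩ := hcon i
      rw [map_prod]
      exact Finset.prod_eq_zero (Finset.mem_erase.2 ⟨hl, Finset.mem_univ l⟩) hl0
    have h2 := Finset.add_sum_erase Finset.univ h (Finset.mem_univ j)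
    have h3 := hh1 j
    omega
  have hU : ∀ i j, (∀ l, l ≠ j → eval (u i) (G l) ≠ 0) → eval (u i) (G j) = 0 := by
    intro i j hij
    obtain ⟨l, hl⟩ := hvan i
    by_cases hlj : l = j
    · rw [← hlj]
      exact hl
    · exact absurd hl (hij l hlj)
  have hnonas : ∀ i j, i ≠ j → ¬ Associated (G i) (G j) := by
    intro i j hij has
    obtain ⟨t, ht⟩ := hmin' j
    have h1 := hU t j ht
    apply ht i hij
    obtain ⟨r, hr⟩ := has.symm.dvd
    rw [hr, map_mul, h1, zero_mul]
  have hJ : Nonempty J := by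
    obtain ⟨i⟩ := (inferInstance : Nonempty ι)
    obtain ⟨j, -⟩ := hvan i
    exact ⟨j⟩
  set s := ∑ j, h j with hs
  have hHs : s = H := le_antisymm hsumle (hmin _ _ hGprod0 (hhom Finset.univ) fun i => by
    obtain ⟨j, hj⟩ := hvan i
    rw [map_prod]
    exact Finset.prod_eq_zero (Finset.mem_univ j) hj)
  -- dimension count
  have hcount : H * (H + 1) ≤ 2 * Fintype.card ι := by
    by_contra hcon
    push Not at hcon
    rcases Nat.eq_zero_or_pos H with h0 | h0
    · rw [h0] at hcon
      omega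
    · obtain ⟨Q, h1, h2, h3⟩ := exists_form u (H - 1) (by
        have e1 : H - 1 + 1 = H := by omega
        have e2 : H - 1 + 2 = H + 1 := by omega
        rw [e1, e2]
        exact hcon)
      have := hmin _ _ h1 h2 h3
      omega
  have h2H : 2 * H < n + 3 := by
    by_contra hcon
    push Not at hcon
    nlinarith
  have hjs : ∀ j, h j ≤ s := fun j => Finset.single_le_sum (fun _ _ => Nat.zero_le _)
    (Finset.mem_univ j)
  have hNRj : ∀ j, ∀ m : ℕ, m + s = n + h j →
      NR (fun i : {i // eval (u i) (G j) = 0 ∧ ∀ l, l ≠ j → eval (u i) (G l) ≠ 0} => u i) m := by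
    intro j m hm
    refine NR.mul hNR (∏ l ∈ Finset.univ.erase j, G l) (hhom _) (e := _) ?_ _ ?_
    · have h2 := Finset.add_sum_erase Finset.univ h (Finset.mem_univ j)
      omega
    · intro i
      rw [map_prod, Finset.prod_ne_zero_iff]
      constructor
      · rintro ⟨_, h2⟩ l hl
        exact h2 l (Finset.mem_erase.1 hl).1
      · intro h2
        have h3 : ∀ l, l ≠ j → eval (u i) (G l) ≠ 0 := fun l hl =>
          h2 l (Finset.mem_erase.2 ⟨hl, Finset.mem_univ l⟩)
        exact ⟨hU i j h3, h3⟩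
  -- the sets of points
  let V : J → Finset ι := fun j => Finset.univ.filter fun i =>
    eval (u i) (G j) = 0 ∧ ∀ l, l ≠ j → eval (u i) (G l) ≠ 0
  have hVcard : ∀ j, (V j).card = Fintype.card
      {i // eval (u i) (G j) = 0 ∧ ∀ l, l ≠ j → eval (u i) (G l) ≠ 0} := fun j =>
    (Fintype.card_subtype _).symm
  have hVdisj : ∀ i j, i ≠ j → Disjoint (V i) (V j) := by
    intro i j hij
    rw [Finset.disjoint_left]
    intro t ht ht'
    rw [Finset.mem_filter] at ht ht'
    exact ht'.2.2 i hij ht.2.1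
  have hVsum : ∑ j, (V j).card ≤ Fintype.card ι := by
    rw [← Finset.card_biUnion fun i _ j _ hij => hVdisj i j hij]
    exact Finset.card_le_univ _
  have hpnp : ∀ j, PairNP (fun i : {i // eval (u i) (G j) = 0 ∧
      ∀ l, l ≠ j → eval (u i) (G l) ≠ 0} => u i) := fun j =>
    ⟨fun i => hu.1 i, fun i i' hii => hu.2 i i' fun h => hii (Subtype.ext h)⟩
  have hnej : ∀ j, Nonempty {i // eval (u i) (G j) = 0 ∧
      ∀ l, l ≠ j → eval (u i) (G l) ≠ 0} := fun j => by
    obtain ⟨i, hi⟩ := hmin' j
    exact ⟨⟨i, hU i j hi, hi⟩⟩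
  have hcnt : ∀ j, (h j : ℤ) * (2 * n - 2 * s + 7 - h j) ≤ 2 * (V j).card := by
    intro j
    have hm : (n + h j - s) + s = n + h j := by
      have := hjs j
      have := hh1 j
      omega
    have := hnej j
    have h1 := plane_count (N := n + 2 - s) (h := h j) (fun i : {i // eval (u i) (G j) = 0 ∧
      ∀ l, l ≠ j → eval (u i) (G l) ≠ 0} => u i) (hpnp j) (hNRj j _ hm)
      (by
        have := hh1 j
        omega) (G j) (hh j) (hGirr j) (fun i => i.2.1)
    rw [← hVcard j] at h1
    have h2 : ((n + h j - s : ℕ) : ℤ) = n + h j - s := by omega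
    rw [h2] at h1
    linarith
  have hsix : 6 * s ≤ n + 4 := by
    have h1 : ∑ j, (h j : ℤ) * (2 * n - 2 * s + 7 - h j) ≤ ∑ j, (2 * (V j).card : ℤ) :=
      Finset.sum_le_sum fun j _ => hcnt j
    have h2 : ∑ j, (h j : ℤ) * (2 * n - 2 * s + 7 - h j) =
        s * (2 * n - 2 * s + 7) - ∑ j, (h j : ℤ) * h j := by
      rw [hs]
      push_cast
      rw [Finset.sum_mul, ← Finset.sum_sub_distrib]
      exact Finset.sum_congr rfl fun j _ => by ring
    have h3 : ∑ j, (h j : ℤ) * h j ≤ (s : ℤ) * s := by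
      have h4 : (s : ℤ) * s = ∑ j, (h j : ℤ) * s := by
        rw [← Finset.sum_mul, hs]
        push_cast
        rfl
      rw [h4]
      refine Finset.sum_le_sum fun j _ => ?_
      refine mul_le_mul_of_nonneg_left ?_ (Int.natCast_nonneg _)
      exact_mod_cast hjs j
    have h5 : ∑ j, (2 * (V j).card : ℤ) ≤ 2 * Fintype.card ι := by
      rw [← Finset.mul_sum]
      have : ((∑ j, (V j).card : ℕ) : ℤ) ≤ Fintype.card ι := by exact_mod_cast hVsum
      push_cast at this
      linarith
    have h6 : 8 * (Fintype.card ι : ℤ) < (n + 3) * (n + 5) := by exact_mod_cast hcard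
    have h7 : 0 < ((6 : ℤ) * s - n - 5) * (2 * s - n - 3) := by nlinarith
    have h8 : (2 : ℤ) * s - n - 3 < 0 := by
      have : 2 * s < n + 3 := by rw [hHs]; exact h2H
      omega
    have h9 : (6 : ℤ) * s - n - 5 < 0 := by
      by_contra hcon
      push Not at hcon
      nlinarith [mul_nonneg hcon (neg_nonneg.2 h8.le)]
    omega
  refine ⟨J, hJF, G, h, fun j => ⟨hGirr j, hh j, hh1 j⟩, hnonas, hJ, hsix,
    hvan, ?_, hNRj, ?_⟩
  · intro j
    obtain ⟨i, hi⟩ := hmin' j
    exact ⟨i, hU i j hi, hi⟩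
  · intro e f hf hef hf0
    refine Fintype.prod_dvd_of_isRelPrime ?_ ?_
    · intro i j hij
      rw [Function.onFun, (hGirr i).isRelPrime_iff_not_dvd]
      intro hd
      exact hnonas i j hij ((hGirr i).associated_of_dvd (hGirr j) hd)
    · intro j
      have hm : (n + h j - s) + s = n + h j := by
        have := hjs j
        have := hh1 j
        omega
      have := hnej j
      exact dvd_of_vanish (fun i : {i // eval (u i) (G j) = 0 ∧
        ∀ l, l ≠ j → eval (u i) (G l) ≠ 0} => u i) (hpnp j) (hNRj j _ hm) (G j) (hh j) (hGirr j)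
        (fun i => i.2.1) f hf (fun i => hf0 i) (by omega)

end Pool.Agent.LowDeg
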