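import Pool.Agent.LowDeg.Sys

/-!
# Cycles of projective points over `K`: definitions
-/

set_option autoImplicit false

open MvPolynomial
open scoped LinearAlgebra.Projectivization Polynomial

namespace Pool.Agent.LowDeg

variable {K : Type} [Field K]

open scoped Classical in
/-- the projective point of a vector (a fixed point if the vector is zero) -/
noncomputable def pp (v : Fin 4 → K) : ℙ K (Fin 4 → K) :=
  if h : v ≠ 0 then Projectivization.mk K v h
  else Projectivization.mk K (fun _ => (1 : K)) (fun h => one_ne_zero (congrFun h 0))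

/-- the cycle of projective points of a finitely supported multiplicity function on vectors -/
noncomputable def cyP (μ : (Fin 4 → K) →₀ ℕ) : FreeAbelianGroup (ℙ K (Fin 4 → K)) :=
  μ.sum fun z k => k • FreeAbelianGroup.of (pp z)

/-- the same after a linear change of coordinates of the points -/
noncomputable def cyPL [Algebra ℂ K] (L : Matrix (Fin 4) (Fin 4) ℂ) (μ : (Fin 4 → K) →₀ ℕ) :
    FreeAbelianGroup (ℙ K (Fin 4 → K)) :=
  μ.sum fun z k => k • FreeAbelianGroup.of (pp (LK L z))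

/-- the cycle of an effective correspondence over the generic point -/
noncomputable def EffCorr.cy [Algebra ℂ K] {F : MvPolynomial (Fin 4) ℂ} {ξ : Fin 4 → K} {w : ℕ}
    (Γ : EffCorr F ξ w) : FreeAbelianGroup (ℙ K (Fin 4 → K)) :=
  ∑ i, FreeAbelianGroup.of (pp (Γ.pts i))

/-- The multiplicity function `a` is a Galois invariant cycle of points of the surface which lie on
curves over `ℂ`, normalised by `∑ ℓ i z i = 1`. -/
structure IsNd [Algebra ℂ K] (F : MvPolynomial (Fin 4) ℂ) (ξ : Fin 4 → K) (ℓ : Fin 4 → ℂ)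
    (a : (Fin 4 → K) →₀ ℕ) : Prop where
  mem : ∀ z, a z ≠ 0 → aeval z F = 0 ∧ ∑ i, algebraMap ℂ K (ℓ i) * z i = 1
  curve : ∀ z, a z ≠ 0 →
    ∃ (e : ℕ) (G : MvPolynomial (Fin 4) ℂ), G.IsHomogeneous e ∧ aeval z G = 0 ∧ ¬ F ∣ G
  inv : ∀ (σ : K ≃ₐ[ℂ] K), (∀ i, σ (ξ i) = ξ i) → ∀ z, a (fun i => σ (z i)) = a z

/-- The result of the decomposition over `K`. -/
structure DecompK [Algebra ℂ K] (F : MvPolynomial (Fin 4) ℂ) (ξ : Fin 4 → K) {w w' : ℕ}
    (Γ : EffCorr F ξ w) (Γ' : EffCorr F ξ w') (m₀ : ℤ) where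
  L : Matrix (Fin 4) (Fin 4) ℂ
  hL : IsUnit L.det
  J : Type
  [fin : Fintype J]
  h : J → ℕ
  M : ∀ j, CurveModel K (h j)
  κ : J → ℤ
  μ : J → (Fin 4 → K) →₀ ℕ
  cycle : ∀ j, (M j).IsCycle ((M j).xF (FL L F)) (μ j)
  xF_ne : ∀ j, (M j).xF (FL L F) ≠ 0
  inf : ∀ z : Fin 4 → K, z ≠ 0 → z 0 = 0 → aeval z (FL L F) = 0 → ∀ j, ¬ (M j).On z
  β₂ : ℂ
  β₃ : ℂ
  hβ : aeval ![0, 1, β₂, β₃] (FL L F) ≠ 0
  a : (Fin 4 → K) →₀ ℕ
  b : (Fin 4 → K) →₀ ℕ
  a_nd : IsNd F ξ (fun i => L 0 i) a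
  b_nd : IsNd F ξ (fun i => L 0 i) b
  eq : Γ.cy - Γ'.cy - m₀ • FreeAbelianGroup.of (pp ξ) =
    ∑ j, κ j • cyPL L⁻¹ (μ j) + cyP a - cyP b

attribute [instance] DecompK.fin

end Pool.Agent.LowDeg
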