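import Pool.Agent.LowDeg.SmoothExt
import Pool.Agent.LowDeg.ModelPoint
import Pool.Agent.LowDeg.Residue
import Pool.Agent.LowDeg.LocalDer
import Pool.Agent.LowDeg.DerExt

/-! Module R (doc section 6): moving curves of low degree do not lie on the surface. -/

set_option autoImplicit false
set_option linter.unusedSectionVars false

open Polynomial IntermediateField

namespace Pool.Agent.LowDeg

namespace ResRAux

/-- Laplace expansion of the determinant. -/
lemma det4_expand {R : Type*} [CommRing R] (a b c d : Fin 4 → R) :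
    det4 a b c d =
      a 0 * (b 1 * (c 2 * d 3 - c 3 * d 2) - b 2 * (c 1 * d 3 - c 3 * d 1)
        + b 3 * (c 1 * d 2 - c 2 * d 1))
      - a 1 * (b 0 * (c 2 * d 3 - c 3 * d 2) - b 2 * (c 0 * d 3 - c 3 * d 0)
        + b 3 * (c 0 * d 2 - c 2 * d 0))
      + a 2 * (b 0 * (c 1 * d 3 - c 3 * d 1) - b 1 * (c 0 * d 3 - c 3 * d 0)
        + b 3 * (c 0 * d 1 - c 1 * d 0))
      - a 3 * (b 0 * (c 1 * d 2 - c 2 * d 1) - b 1 * (c 0 * d 2 - c 2 * d 0)
        + b 2 * (c 0 * d 1 - c 1 * d 0)) := by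
  simp [det4, Matrix.det_succ_row_zero, Fin.sum_univ_succ, Fin.succAbove]
  ring

lemma det4_sm {K E : Type} [Field K] [Field E] [Algebra K E] (P : Place K E)
    {a b c d : Fin 4 → E} (ha : ∀ i, P.Int (a i)) (hb : ∀ i, P.Int (b i))
    (hc : ∀ i, P.Int (c i)) (hd : ∀ i, P.Sm (d i)) : P.Sm (det4 a b c d) := by
  have h2 : ∀ i j, P.Sm (c i * d j - c j * d i) := fun i j =>
    ((hc i).mul_sm (hd j)).sub ((hc j).mul_sm (hd i))
  have h3 : ∀ i j k l m n p q r, P.Sm (b i * (c j * d k - c k * d j) -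
      b l * (c m * d n - c n * d m) + b p * (c q * d r - c r * d q)) := fun i j k l m n p q r =>
    (((hb i).mul_sm (h2 j k)).sub ((hb l).mul_sm (h2 m n))).add ((hb p).mul_sm (h2 q r))
  rw [det4_expand]
  exact ((((ha 0).mul_sm (h3 1 2 3 2 1 3 3 1 2)).sub ((ha 1).mul_sm (h3 0 2 3 2 0 3 3 0 2))).add
    ((ha 2).mul_sm (h3 0 1 3 1 0 3 3 0 1))).sub ((ha 3).mul_sm (h3 0 1 2 1 0 2 2 0 1))

lemma aeval_scale {R E : Type*} [CommRing R] [Field E] [Algebra R E]
    {p : MvPolynomial (Fin 4) R} {n : ℕ} (hp : p.IsHomogeneous n) (x : Fin 4 → E) (c : E) :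
    MvPolynomial.aeval (c • x) p = c ^ n * MvPolynomial.aeval x p := by
  rw [MvPolynomial.aeval_def, MvPolynomial.aeval_def, MvPolynomial.eval₂_eq',
    MvPolynomial.eval₂_eq', Finset.mul_sum]
  refine Finset.sum_congr rfl fun m hm => ?_
  have h1 : ∑ i, m i = n := by
    have h2 := hp (MvPolynomial.mem_support_iff.1 hm)
    have h3 : Finsupp.degree m = n := by rw [Finsupp.degree_eq_weight_one]; exact h2
    rw [← h3, Finsupp.degree_eq_sum]
  simp only [Pi.smul_apply, smul_eq_mul, mul_pow, Finset.prod_mul_distrib]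
  rw [Finset.prod_pow_eq_pow_sum, h1]
  ring


section main

variable {K : Type} [Field K] [IsAlgClosed K] [CharZero K] [Algebra ℂ K]
variable {F : MvPolynomial (Fin 4) ℂ} {d n h : ℕ}

omit [Algebra ℂ K] in
lemma halg (M : CurveModel K h) : ∀ x : M.E, Transcendental K x →
    Algebra.IsAlgebraic K⟮x⟯ M.E :=
  fun x hx => (algebraic_of_transcendental M.a M.trans x hx).1

lemma dF_single {R : Type*} [CommRing R] [Algebra ℂ R] (F : MvPolynomial (Fin 4) ℂ)
    (z : Fin 4 → R) (i : Fin 4) :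
    dF F z (Pi.single i 1) = MvPolynomial.aeval z (MvPolynomial.pderiv i F) := by
  simp [dF, Pi.single_apply]

/-- the common estimate: `t θ` is small if `t J q = ± det4 e p x y` with `y` small -/
lemma sm_of_det {E : Type} [Field E] [Algebra K E] (P : Place K E) {e p x y : Fin 4 → E}
    (he : ∀ i, P.Int (e i)) (hp : ∀ i, P.Int (p i)) (hx : ∀ i, P.Int (x i))
    (hy : ∀ i, P.Sm (y i)) {t g J q : E} {c : K} (hg : P.Int g) (hq : P.IsVal q c) (hc : c ≠ 0)
    (h : t * (J * q) = det4 e p x y) : P.Sm (t * (g * J)) := by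
  have hq0 : q ≠ 0 := hq.ne_zero hc
  have h1 : t * (g * J) = g * (t * (J * q)) * q⁻¹ := by field_simp
  rw [h1, h]
  exact (hg.mul_sm (det4_sm P he hp hx hy)).mul_int (hq.inv hc).int

lemma int_single {E : Type} [Field E] [Algebra K E] (P : Place K E) (i j : Fin 4) :
    P.Int ((Pi.single i (1 : E) : Fin 4 → E) j) := by
  rw [Pi.single_apply]
  split_ifs
  · exact P.int_one
  · exact P.int_zero

lemma trace_fJ (hd : d = n + 4) (hF : IsSmoothForm F d) (M : CurveModel K h)
    [Algebra ℂ M.E] [IsScalarTower ℂ K M.E]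
    (h0 : MvPolynomial.aeval M.pt F = 0) (δ : Derivation ℂ K K) (D dd : Derivation ℂ M.E M.E)
    (hD : ∀ c : K, D (algebraMap K M.E c) = algebraMap K M.E (δ c)) (hDa : D M.a = 0)
    (hdd : ∀ c : K, dd (algebraMap K M.E c) = 0) (hdda : dd M.a = 1) (J : M.E)
    (hJ : IsRes F D dd M.pt J) (f : MvPolynomial (Fin 4) K) (hf : f.IsHomogeneous n) :
    Algebra.trace K⟮M.a⟯ M.E (MvPolynomial.aeval M.pt f * J) = 0 := by
  have ha0 : M.a ≠ 0 := fun h => M.trans (by rw [h]; exact isAlgebraic_zero)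
  refine trace_zero M.a M.trans _ ?_ ?_
  · intro P c₀ hP
    obtain ⟨z, hz⟩ := M.exists_centre P hP.int
    have hz0 : z 0 = 1 := hz.on.1
    have hne : z ≠ 0 := fun h => by rw [h] at hz0; simp at hz0
    have hFz : MvPolynomial.aeval z F = 0 := by
      have h1 := Place.IsVal.aeval (R := ℂ) hz F
      rw [h0] at h1
      exact h1.unique (Place.isVal_zero_iff.2 P.sm_zero)
    obtain ⟨i, hi⟩ := smooth_ext hF z hne hFz
    set t : M.E := M.a - algebraMap K M.E c₀ with ht
    have ht0 : t ≠ 0 := by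
      intro h
      exact M.trans (by rw [sub_eq_zero.1 h]; exact isAlgebraic_algebraMap c₀)
    have hddt : dd t = 1 := by rw [ht, map_sub, hdda, hdd, sub_zero]
    let D' : Derivation ℂ M.E M.E := D + (algebraMap K M.E (δ c₀)) • dd
    have hD' : ∀ x, D' x = D x + algebraMap K M.E (δ c₀) * dd x := fun x => rfl
    have hD'c : ∀ c : K, D' (algebraMap K M.E c) = algebraMap K M.E (δ c) := by
      intro c; rw [hD', hD, hdd, mul_zero, add_zero]
    have hD't : D' t = 0 := by
      rw [hD', hddt, ht, map_sub, hDa, hD]; ring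
    let L : Derivation ℂ M.E M.E := t • dd
    have hL : ∀ x, L x = t * dd x := fun x => rfl
    have v1 := (der_log_int P (halg M) D' (fun c => ⟨δ c, hD'c c⟩) t ht0 hP
      ⟨0, by rw [hD't]; simp⟩).2.2
    have v2 := (der_log_val P (halg M) L (fun c => by rw [hL, hdd, mul_zero]) t ht0 hP
      (by rw [hL, hddt, mul_one])).2
    refine sm_of_det P (e := Pi.single i 1) (p := M.pt) (x := fun j => D' (M.pt j))
      (y := fun j => L (M.pt j)) (q := MvPolynomial.aeval M.pt (MvPolynomial.pderiv i F))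
      (int_single P i) (fun j => (hz j).int) (fun j => (v1 _ _ _ (hz j) (hD'c _)).int)
      (fun j => v2 _ (hz j).int) ?_ (Place.IsVal.aeval (R := ℂ) hz _) hi ?_
    · exact (Place.IsVal.aeval (R := K) hz f).int
    · rw [← dF_single, ← hJ, det4_expand, det4_expand]
      simp only [hD', hL]
      ring
  · intro P hP
    obtain ⟨z, hz⟩ := M.exists_centreInf P hP
    obtain ⟨hz0, hz1, -⟩ := hz.on hP
    have hne : z ≠ 0 := fun h => by rw [h] at hz1; simp at hz1
    set t : M.E := M.a⁻¹ with ht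
    have ht0 : t ≠ 0 := inv_ne_zero ha0
    have hPt : P.Sm t := Place.sm_inv_of_not_int hP
    let p' : Fin 4 → M.E := t • M.pt
    have hp' : ∀ i, p' i = t * M.pt i := fun i => rfl
    have hz' : ∀ i, P.IsVal (p' i) (z i) := by
      intro i
      have h1 := hz i
      rwa [div_eq_mul_inv, mul_comm] at h1
    have hFp : MvPolynomial.aeval p' F = 0 := by
      rw [aeval_scale hF.hom, h0, mul_zero]
    have hFz : MvPolynomial.aeval z F = 0 := by
      have h1 := Place.IsVal.aeval (R := ℂ) hz' F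
      rw [hFp] at h1
      exact h1.unique (Place.isVal_zero_iff.2 P.sm_zero)
    obtain ⟨i, hi⟩ := smooth_ext hF z hne hFz
    have hJ' := hJ.smul hF (by omega) t ht0
    have hn : d - 4 = n := by omega
    rw [hn] at hJ'
    have hfJ : MvPolynomial.aeval M.pt f * J =
        MvPolynomial.aeval p' f * (J * (t ^ n)⁻¹) := by
      rw [aeval_scale hf]
      have : t ^ n ≠ 0 := pow_ne_zero _ ht0
      field_simp
    have hDt : D t = 0 := by
      rw [ht, D.leibniz_inv, hDa, smul_zero]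
    have hddt : dd t = -t ^ 2 := by
      rw [ht, dd.leibniz_inv, hdda, smul_eq_mul, mul_one]
    let L : Derivation ℂ M.E M.E := (-M.a) • dd
    have hL : ∀ x, L x = -M.a * dd x := fun x => rfl
    have hLt : L t = t := by
      rw [hL, hddt, ht]; field_simp
    have v1 := (der_log_int P (halg M) D (fun c => ⟨δ c, hD c⟩) t ht0 hPt
      ⟨0, by rw [hDt]; simp⟩).2.2
    have v2 := (der_log_val P (halg M) L (fun c => by rw [hL, hdd, mul_zero]) t ht0 hPt hLt).2
    rw [hfJ]
    refine sm_of_det P (e := -Pi.single i 1) (p := p') (x := fun j => D (p' j))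
      (y := fun j => L (p' j)) (q := MvPolynomial.aeval p' (MvPolynomial.pderiv i F))
      (fun j => (int_single P i j).neg) (fun j => (hz' j).int)
      (fun j => (v1 _ _ _ (hz' j) (hD _)).int)
      (fun j => v2 _ (hz' j).int) ?_ (Place.IsVal.aeval (R := ℂ) hz' _) hi ?_
    · exact (Place.IsVal.aeval (R := K) hz' f).int
    · rw [← dF_single, ← hJ', det4_expand, det4_expand]
      simp only [hL, Pi.neg_apply]
      ring


lemma res_zero (hd : d = n + 4) (hF : IsSmoothForm F d) (M : CurveModel K h)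
    [Algebra ℂ M.E] [IsScalarTower ℂ K M.E] (hh : h ≤ n + 1)
    (h0 : MvPolynomial.aeval M.pt F = 0) (δ : Derivation ℂ K K) (D dd : Derivation ℂ M.E M.E)
    (hD : ∀ c : K, D (algebraMap K M.E c) = algebraMap K M.E (δ c)) (hDa : D M.a = 0)
    (hdd : ∀ c : K, dd (algebraMap K M.E c) = 0) (hdda : dd M.a = 1) (J : M.E)
    (hJ : IsRes F D dd M.pt J) : J = 0 := by
  classical
  obtain ⟨l, hl⟩ : ∃ l : K, K⟮M.a⟯⟮M.th l⟯ = ⊤ := by
    by_contra hc
    push Not at hc
    exact Set.infinite_univ (α := K) (M.finite_not_primitive.subset (fun l _ => hc l))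
  have hint : IsIntegral K⟮M.a⟯ (M.th l) := Algebra.IsIntegral.isIntegral _
  have hmon := minpoly.monic hint
  have hdeg : (minpoly K⟮M.a⟯ (M.th l)).natDegree = h := by
    rw [M.minpoly_eq l hl, (M.gpol_monic l).natDegree_map, M.gpol_natDegree]
  have htr : ∀ i, i < h → Algebra.trace K⟮M.a⟯ M.E ((M.th l) ^ i * J) = 0 := by
    intro i hi
    have hom : (MvPolynomial.X 0 ^ (n - i) * (MvPolynomial.X 2 +
        MvPolynomial.C l * MvPolynomial.X 3) ^ i : MvPolynomial (Fin 4) K).IsHomogeneous n := by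
      have h1 := (MvPolynomial.isHomogeneous_X K (0 : Fin 4)).pow (n - i)
      have h2 := (((MvPolynomial.isHomogeneous_X K (2 : Fin 4)).add
        ((MvPolynomial.isHomogeneous_X K (3 : Fin 4)).C_mul l)).pow i)
      have h3 := h1.mul h2
      have h4 : 1 * (n - i) + 1 * i = n := by omega
      rwa [h4] at h3
    have h5 := trace_fJ hd hF M h0 δ D dd hD hDa hdd hdda J hJ _ hom
    have h6 : MvPolynomial.aeval M.pt (MvPolynomial.X 0 ^ (n - i) * (MvPolynomial.X 2 +
        MvPolynomial.C l * MvPolynomial.X 3) ^ i : MvPolynomial (Fin 4) K) = (M.th l) ^ i := by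
      simp [CurveModel.pt, CurveModel.th]
    rwa [h6] at h5
  have hall : ∀ y, Algebra.trace K⟮M.a⟯ M.E (y * J) = 0 := by
    intro y
    have hy : y ∈ K⟮M.a⟯⟮M.th l⟯ := by rw [hl]; trivial
    rw [← IntermediateField.mem_toSubalgebra,
      IntermediateField.adjoin_simple_toSubalgebra_of_isAlgebraic hint.isAlgebraic,
      Algebra.adjoin_singleton_eq_range_aeval] at hy
    obtain ⟨p, rfl⟩ := hy
    have hmod : aeval (M.th l) p = aeval (M.th l) (p %ₘ minpoly K⟮M.a⟯ (M.th l)) := by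
      conv_lhs => rw [← Polynomial.modByMonic_add_div p (minpoly K⟮M.a⟯ (M.th l))]
      rw [map_add, map_mul, minpoly.aeval, zero_mul, add_zero]
    have hlt : (p %ₘ minpoly K⟮M.a⟯ (M.th l)).natDegree < h :=
      (Polynomial.natDegree_modByMonic_lt p hmon (minpoly.ne_one _ _)).trans_eq hdeg
    show Algebra.trace K⟮M.a⟯ M.E (aeval (M.th l) p * J) = 0
    rw [hmod, Polynomial.aeval_eq_sum_range' hlt, Finset.sum_mul, map_sum]
    refine Finset.sum_eq_zero fun i hi => ?_
    rw [smul_mul_assoc, map_smul, htr i (Finset.mem_range.1 hi), smul_zero]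
  refine (traceForm_nondegenerate K⟮M.a⟯ M.E).1 J (fun y => ?_)
  rw [Algebra.traceForm_apply, mul_comm]
  exact hall y

end main

end ResRAux

open ResRAux in
theorem isRes_zero_of_subset {K : Type} [Field K] [IsAlgClosed K] [CharZero K] [Algebra ℂ K]
    {F : MvPolynomial (Fin 4) ℂ} {d n h : ℕ} (hd : d = n + 4)
    (hF : IsSmoothForm F d) (M : CurveModel K h) (hh : h ≤ n + 1) (h0 : M.xF F = 0)
    (δ₁ δ₂ : Derivation ℂ K K) (P : Place K M.E) (z : Fin 4 → K) (hz : M.IsCentre P z) :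
    IsRes F δ₁ δ₂ z 0 := by
  let _ : Algebra ℂ M.E := ((algebraMap K M.E).comp (algebraMap ℂ K)).toAlgebra
  have _ : IsScalarTower ℂ K M.E := IsScalarTower.of_algebraMap_eq (fun _ => rfl)
  have h0' : MvPolynomial.aeval M.pt F = 0 := by
    rw [CurveModel.xF, MvPolynomial.aeval_map_algebraMap] at h0; exact h0
  obtain ⟨D₁, hD₁, hD₁a⟩ := exists_derivation M.a M.trans δ₁ 0
  obtain ⟨D₂, hD₂, hD₂a⟩ := exists_derivation M.a M.trans δ₂ 0
  obtain ⟨dd, hdd0, hdda⟩ := exists_derivation M.a M.trans (0 : Derivation ℂ K K) 1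
  have hdd : ∀ c : K, dd (algebraMap K M.E c) = 0 := fun c => by rw [hdd0]; simp
  have hpt : M.pt ≠ 0 := by
    intro h
    have := congrFun h 0
    simp [CurveModel.pt] at this
  have p0 : M.pt 0 = 1 := rfl
  have p1 : M.pt 1 = M.a := rfl
  have p2 : M.pt 2 = M.b := rfl
  have p3 : M.pt 3 = M.w := rfl
  have kill : ∀ (δ : Derivation ℂ K K) (D : Derivation ℂ M.E M.E),
      (∀ c : K, D (algebraMap K M.E c) = algebraMap K M.E (δ c)) → D M.a = 0 →
      D M.b = 0 ∧ D M.w = 0 := by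
    intro δ D hD hDa
    obtain ⟨J, hJ, -⟩ := exists_isRes hF D dd M.pt hpt h0'
    have hJ0 := res_zero hd hF M hh h0' δ D dd hD hDa hdd hdda J hJ
    subst hJ0
    have e3 := hJ ![0, 0, 0, 1]
    have e2 := hJ ![0, 0, 1, 0]
    rw [det4_expand, zero_mul] at e2 e3
    simp [p0, p1, p2, p3, hDa, hdda] at e2 e3
    exact ⟨e3, e2⟩
  obtain ⟨b1, w1⟩ := kill δ₁ D₁ hD₁ hD₁a
  obtain ⟨b2, w2⟩ := kill δ₂ D₂ hD₂ hD₂a
  set c₀ := z 1 with hc₀
  have hPa : P.IsVal M.a c₀ := hz 1
  set t : M.E := M.a - algebraMap K M.E c₀ with ht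
  have ht0 : t ≠ 0 := by
    intro h
    exact M.trans (by rw [sub_eq_zero.1 h]; exact isAlgebraic_algebraMap c₀)
  have hddt : dd t = 1 := by rw [ht, map_sub, hdda, hdd, sub_zero]
  have val : ∀ (δ : Derivation ℂ K K) (D : Derivation ℂ M.E M.E),
      (∀ c : K, D (algebraMap K M.E c) = algebraMap K M.E (δ c)) → D M.a = 0 →
      ∀ i, P.IsVal (D (M.pt i) + algebraMap K M.E (δ c₀) * dd (M.pt i)) (δ (z i)) := by
    intro δ D hD hDa i
    let D' : Derivation ℂ M.E M.E := D + (algebraMap K M.E (δ c₀)) • dd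
    have hD' : ∀ x, D' x = D x + algebraMap K M.E (δ c₀) * dd x := fun x => rfl
    have hD'c : ∀ c : K, D' (algebraMap K M.E c) = algebraMap K M.E (δ c) := by
      intro c; rw [hD', hD, hdd, mul_zero, add_zero]
    have hD't : D' t = 0 := by
      rw [hD', hddt, ht, map_sub, hDa, hD]; ring
    exact (der_log_int P (halg M) D' (fun c => ⟨δ c, hD'c c⟩) t ht0 hPa
      ⟨0, by rw [hD't]; simp⟩).2.2 _ _ _ (hz i) (hD'c _)
  have v1 := val δ₁ D₁ hD₁ hD₁a
  have v2 := val δ₂ D₂ hD₂ hD₂a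
  have key : ∀ i, δ₂ c₀ * δ₁ (z i) = δ₁ c₀ * δ₂ (z i) := by
    intro i
    have h1 := ((P.isVal_const (δ₂ c₀)).mul (v1 i)).sub ((P.isVal_const (δ₁ c₀)).mul (v2 i))
    have h2 : algebraMap K M.E (δ₂ c₀) * (D₁ (M.pt i) + algebraMap K M.E (δ₁ c₀) *
        dd (M.pt i)) - algebraMap K M.E (δ₁ c₀) * (D₂ (M.pt i) +
        algebraMap K M.E (δ₂ c₀) * dd (M.pt i)) = 0 := by
      have h3 : D₁ (M.pt i) = 0 ∧ D₂ (M.pt i) = 0 := by
        fin_cases i
        · exact ⟨D₁.map_one_eq_zero, D₂.map_one_eq_zero⟩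
        · exact ⟨hD₁a, hD₂a⟩
        · exact ⟨b1, b2⟩
        · exact ⟨w1, w2⟩
      rw [h3.1, h3.2]; ring
    rw [h2] at h1
    exact sub_eq_zero.1 ((h1.unique (Place.isVal_zero_iff.2 P.sm_zero)))
  have row : δ₁ c₀ = 0 → ∀ i, δ₁ (z i) = 0 := by
    intro h i
    have h1 := v1 i
    have h3 : D₁ (M.pt i) = 0 := by
      fin_cases i
      · exact D₁.map_one_eq_zero
      · exact hD₁a
      · exact b1
      · exact w1
    rw [h3, h, map_zero, zero_mul, add_zero] at h1
    exact h1.unique (Place.isVal_zero_iff.2 P.sm_zero)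
  intro v
  rw [zero_mul]
  by_cases h1 : δ₁ c₀ = 0
  · have h2 := row h1
    rw [det4_expand]
    simp only [h2]
    ring
  · have h2 : ∀ i, δ₂ (z i) = (δ₂ c₀ / δ₁ c₀) * δ₁ (z i) := by
      intro i
      field_simp
      linear_combination -(key i)
    rw [det4_expand]
    simp only [h2]
    ring

end Pool.Agent.LowDeg
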