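import Pool.Agent.LowDeg.Proj
import Pool.Agent.LowDeg.Spec
import Pool.Agent.Chow0.Functor
import Pool.Agent.Chow0.Pencil

/-! Modules FA1, FA2 (doc sections 16, 17): specialisation of effective correspondences. -/

set_option autoImplicit false

open MvPolynomial
open scoped LinearAlgebra.Projectivization

namespace Pool.Agent.LowDeg

open Pool.Agent.Chow0 (IsChowForm cyc CH0 Z0 ratTriv)

namespace SpecEffAux

open Pool.Agent.Chow0 (linForm chowForm linForm_ne_zero linForm_isHomogeneous linForm_smul)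

lemma irreducible_linForm {v : Fin 4 → ℂ} (hv : v ≠ 0) : Irreducible (linForm v) := by
  have h1 : (linForm v).totalDegree = 1 :=
    (linForm_isHomogeneous v).totalDegree (linForm_ne_zero hv)
  refine irreducible_of_totalDegree_eq_one h1 fun x hx => ?_
  have h2 : ∃ m, coeff m (linForm v) ≠ 0 := by
    by_contra hc
    push Not at hc
    exact linForm_ne_zero hv (MvPolynomial.ext _ _ fun m => by rw [hc m, coeff_zero])
  obtain ⟨m, hm⟩ := h2
  refine isUnit_iff_ne_zero.2 fun h0 => hm ?_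
  have := hx m
  rw [h0, zero_dvd_iff] at this
  exact this

lemma eval_single_linForm (v : Fin 4 → ℂ) (i : Fin 4) :
    eval (Pi.single i (1 : ℂ)) (linForm v) = v i := by
  classical
  simp [linForm, Pi.single_apply]

lemma eq_of_associated {p q : ℙ ℂ (Fin 4 → ℂ)} (h : Associated (linForm p.rep) (linForm q.rep)) :
    p = q := by
  obtain ⟨u, hu⟩ := h
  obtain ⟨r, hr, hr'⟩ := MvPolynomial.isUnit_iff_eq_C_of_isReduced.1 u.isUnit
  rw [hr'] at hu
  have h1 : ∀ i, r * p.rep i = q.rep i := by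
    intro i
    have := congrArg (eval (Pi.single i (1 : ℂ))) hu
    rw [map_mul, eval_single_linForm, eval_single_linForm, eval_C] at this
    rw [mul_comm]; exact this
  rw [← p.mk_rep, ← q.mk_rep, Projectivization.mk_eq_mk_iff']
  refine ⟨r⁻¹, ?_⟩
  funext i
  have hr0 : r ≠ 0 := hr.ne_zero
  rw [Pi.smul_apply, smul_eq_mul, ← h1 i, inv_mul_cancel_left₀ hr0]

end SpecEffAux

section FA1

/-- the effective cycle with a given Chow form is unique -/
theorem isChowForm_unique {S : Set (ℙ ℂ (Fin 4 → ℂ))} {G : MvPolynomial (Fin 4) ℂ}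
    {s s' : Multiset S} (h : IsChowForm S G s) (h' : IsChowForm S G s') : s = s' := by
  obtain ⟨c, hc, h⟩ := h
  obtain ⟨c', hc', h'⟩ := h'
  have hirr : ∀ s : Multiset S, ∀ x ∈ (s.map Subtype.val).map fun p => Chow0.linForm p.rep,
      Irreducible x := by
    intro s x hx
    obtain ⟨p, _, rfl⟩ := Multiset.mem_map.1 hx
    exact SpecEffAux.irreducible_linForm p.rep_nonzero
  have hass : Associated ((s.map Subtype.val).map fun p => Chow0.linForm p.rep).prod
      ((s'.map Subtype.val).map fun p => Chow0.linForm p.rep).prod := by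
    have hu : IsUnit (C c : MvPolynomial (Fin 4) ℂ) := (isUnit_iff_ne_zero.2 hc).map C
    have hu' : IsUnit (C c' : MvPolynomial (Fin 4) ℂ) := (isUnit_iff_ne_zero.2 hc').map C
    have e1 : Associated (Chow0.chowForm (s.map Subtype.val)) G := by
      rw [h]; exact associated_unit_mul_right _ _ hu
    have e2 : Associated (Chow0.chowForm (s'.map Subtype.val)) G := by
      rw [h']; exact associated_unit_mul_right _ _ hu'
    exact e1.trans e2.symm
  have hrel := UniqueFactorizationMonoid.factors_unique (hirr s) (hirr s') hass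
  rw [Multiset.map_map, Multiset.map_map, Multiset.rel_map] at hrel
  rw [← Multiset.rel_eq]
  exact hrel.mono fun a _ b _ hab => Subtype.ext (SpecEffAux.eq_of_associated hab)

/-- a product of linear forms is a Chow form -/
theorem isChowForm_prod {S : Set (ℙ ℂ (Fin 4 → ℂ))} {w : ℕ} (q : Fin w → S)
    (v : Fin w → Fin 4 → ℂ) (hv : ∀ i, ∃ r : ℂ, r ≠ 0 ∧ v i = r • (q i).1.rep) (c : ℂ)
    (hc : c ≠ 0) : IsChowForm S (C c * ∏ i, linF (v i)) (Multiset.map q Finset.univ.val) := by
  choose r hr hvr using hv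
  refine ⟨c * ∏ i, r i, mul_ne_zero hc (Finset.prod_ne_zero_iff.2 fun i _ => hr i), ?_⟩
  have h1 : Chow0.chowForm ((Multiset.map q Finset.univ.val).map Subtype.val) =
      ∏ i, Chow0.linForm (q i).1.rep := by
    simp only [Chow0.chowForm, Multiset.map_map]
    rfl
  rw [h1, C_mul, mul_assoc, map_prod, ← Finset.prod_mul_distrib]
  congr 1
  refine Finset.prod_congr rfl fun i _ => ?_
  rw [hvr i]
  exact Chow0.linForm_smul (r i) _

end FA1

variable {K : Type} [Field K] [IsAlgClosed K] [CharZero K] [Algebra ℂ K]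

/-- A specialisation: a homomorphism from a finitely generated subalgebra `R` of `K`, over the
point `p` of the surface. -/
structure SpecAt (F : MvPolynomial (Fin 4) ℂ) (ξ : Fin 4 → K) (R : Subalgebra ℂ K)
    (p : surf F) where
  φ : R →ₐ[ℂ] ℂ
  rep0 : p.1.rep 0 ≠ 0
  hξ : ∀ i, ∃ h : ξ i ∈ R, φ ⟨ξ i, h⟩ = p.1.rep i / p.1.rep 0

open scoped Classical in
/-- the specialisation of a projective point: the first nonzero coordinate is normalised to be 1;
the result is meaningful if the normalised coordinates are in `R`. -/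
noncomputable def spPt {F : MvPolynomial (Fin 4) ℂ} {ξ : Fin 4 → K} {R : Subalgebra ℂ K}
    {p : surf F} (s : SpecAt F ξ R p) (q : ℙ K (Fin 4 → K)) : ℙ ℂ (Fin 4 → ℂ) :=
  let i₀ : Fin 4 := if q.rep 0 ≠ 0 then 0 else if q.rep 1 ≠ 0 then 1 else
    if q.rep 2 ≠ 0 then 2 else 3
  pp fun i => if h : q.rep i / q.rep i₀ ∈ R then s.φ ⟨q.rep i / q.rep i₀, h⟩ else 0

/-- `R` contains the normalised coordinates of the projective point `q`. -/
def InR (R : Subalgebra ℂ K) (q : ℙ K (Fin 4 → K)) : Prop :=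
  ∀ i j, q.rep j ≠ 0 → (∀ k, k < j → q.rep k = 0) → q.rep i / q.rep j ∈ R

namespace SpecEffAux

lemma aeval_smul_hom {L : Type} [Field L] [Algebra ℂ L] {d : ℕ} {F : MvPolynomial (Fin 4) ℂ}
    (hF : F.IsHomogeneous d) (a : L) (v : Fin 4 → L) :
    aeval (a • v) F = a ^ d * aeval v F := by
  rw [aeval_def, aeval_def, eval₂_eq', eval₂_eq', Finset.mul_sum]
  refine Finset.sum_congr rfl fun m hm => ?_
  have h1 : m.degree = d := by
    by_contra hc
    exact (mem_support_iff.1 hm) (hF.coeff_eq_zero hc)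
  have h2 : ∏ i : Fin 4, (a • v) i ^ m i = a ^ d * ∏ i : Fin 4, v i ^ m i := by
    rw [← h1, Finsupp.degree_eq_sum, ← Finset.prod_pow_eq_pow_sum, ← Finset.prod_mul_distrib]
    exact Finset.prod_congr rfl fun i _ => by rw [Pi.smul_apply, smul_eq_mul, mul_pow]
  rw [h2]; ring

omit [IsAlgClosed K] [CharZero K] [Algebra ℂ K] in
lemma pp_rep {v : Fin 4 → K} (hv : v ≠ 0) : ∃ r : K, r ≠ 0 ∧ (pp v).rep = r • v := by
  have h1 : pp v = Projectivization.mk K v hv := dif_pos hv
  obtain ⟨a, ha⟩ := Projectivization.exists_smul_eq_mk_rep K v hv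
  exact ⟨a, a.ne_zero, by rw [h1, ← ha]; rfl⟩

open scoped Classical in
/-- the index of the first nonzero coordinate -/
noncomputable def piv (q : ℙ K (Fin 4 → K)) : Fin 4 :=
  if q.rep 0 ≠ 0 then 0 else if q.rep 1 ≠ 0 then 1 else if q.rep 2 ≠ 0 then 2 else 3

omit [IsAlgClosed K] [CharZero K] [Algebra ℂ K] in
lemma piv_ne (q : ℙ K (Fin 4 → K)) : q.rep (piv q) ≠ 0 := by
  classical
  have h := q.rep_nonzero
  unfold piv
  split_ifs with h0 h1 h2
  · exact h0
  · exact h1
  · exact h2
  · push Not at h0 h1 h2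
    intro h3
    apply h
    funext i
    fin_cases i
    · exact h0
    · exact h1
    · exact h2
    · exact h3

omit [IsAlgClosed K] [CharZero K] [Algebra ℂ K] in
lemma piv_lt (q : ℙ K (Fin 4 → K)) (k : Fin 4) (hk : k < piv q) : q.rep k = 0 := by
  classical
  unfold piv at hk
  split_ifs at hk with h0 h1 h2
  · exact absurd hk (by simp)
  · push Not at h0
    have : k = 0 := by
      apply Fin.ext
      have := Fin.lt_def.1 hk
      simp at this ⊢
      omega
    rw [this]; exact h0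
  · push Not at h0 h1
    have hk2 : k.val < 2 := Fin.lt_def.1 hk
    have : k = 0 ∨ k = 1 := by
      rcases k with ⟨k, hk'⟩
      simp only at hk2
      interval_cases k
      · left; rfl
      · right; rfl
    rcases this with rfl | rfl
    · exact h0
    · exact h1
  · push Not at h0 h1 h2
    have hk2 : k.val < 3 := Fin.lt_def.1 hk
    have : k = 0 ∨ k = 1 ∨ k = 2 := by
      rcases k with ⟨k, hk'⟩
      simp only at hk2
      interval_cases k
      · left; rfl
      · right; left; rfl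
      · right; right; rfl
    rcases this with rfl | rfl | rfl
    · exact h0
    · exact h1
    · exact h2

/-- the normalised coordinates -/
noncomputable def nrm (q : ℙ K (Fin 4 → K)) : Fin 4 → K := fun i => q.rep i / q.rep (piv q)

omit [IsAlgClosed K] [CharZero K] in
lemma inR_of (R : Subalgebra ℂ K) (q : ℙ K (Fin 4 → K)) (h : ∀ i, nrm q i ∈ R) : InR R q := by
  intro i j hj hlt
  have : j = piv q := by
    rcases lt_trichotomy j (piv q) with h1 | h1 | h1
    · exact absurd (piv_lt q j h1) hj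
    · exact h1
    · exact absurd (hlt _ h1) (piv_ne q)
  rw [this]
  exact h i

omit [IsAlgClosed K] [CharZero K] [Algebra ℂ K] in
lemma exists_nrm {v : Fin 4 → K} (hv : v ≠ 0) : ∃ a : K, a ≠ 0 ∧ v = a • nrm (pp v) := by
  obtain ⟨r, hr, hrv⟩ := pp_rep hv
  have hp := piv_ne (pp v)
  refine ⟨r⁻¹ * (pp v).rep (piv (pp v)), mul_ne_zero (inv_ne_zero hr) hp, ?_⟩
  funext i
  have h1 : (pp v).rep i = r * v i := by rw [hrv]; rfl
  rw [Pi.smul_apply, smul_eq_mul, nrm, mul_assoc, mul_div_cancel₀ _ hp, h1,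
    inv_mul_cancel_left₀ hr]

omit [IsAlgClosed K] [CharZero K] in
lemma spPt_eq {F : MvPolynomial (Fin 4) ℂ} {ξ : Fin 4 → K} {R : Subalgebra ℂ K}
    {p : surf F} (s : SpecAt F ξ R p) (q : ℙ K (Fin 4 → K)) (h : ∀ i, nrm q i ∈ R) :
    spPt s q = pp fun i => s.φ ⟨nrm q i, h i⟩ := by
  have h1 : spPt s q = pp fun i => open scoped Classical in
      if h : nrm q i ∈ R then s.φ ⟨nrm q i, h⟩ else 0 := rfl
  rw [h1]
  congr 1
  funext i
  rw [dif_pos (h i)]

end SpecEffAux

open SpecEffAux in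
omit [IsAlgClosed K] [CharZero K] in
/-- (FA2) specialisation of an effective correspondence: for `R` large enough the Chow form at a
point `p` is the Chow form of the specialised points, which lie on the forms vanishing at the points
over `K`. -/
theorem eff_spec {F : MvPolynomial (Fin 4) ℂ} {ξ : Fin 4 → K} {w d : ℕ} (hF : F.IsHomogeneous d)
    (_hξ : IsGenericPoint F ξ) (Γ : EffCorr F ξ w) :
    ∃ A : Finset K, ∀ R : Subalgebra ℂ K, (∀ i, ξ i ∈ R) → (A : Set K) ⊆ R →
      (∀ i, InR R (pp (Γ.pts i))) ∧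
      ∀ (p : surf F) (s : SpecAt F ξ R p) (S : Set (ℙ ℂ (Fin 4 → ℂ))) (G : MvPolynomial (Fin 4) ℂ)
        (e : ℕ), G.IsHomogeneous e → (∀ i, aeval (Γ.pts i) G = 0) → S = surf F ∩ surf G →
        ∃ t : Multiset S, IsChowForm S (Γ.at p.1.rep) t ∧
          t.map Subtype.val = Multiset.map (fun i => spPt s (pp (Γ.pts i))) Finset.univ.val := by
  classical
  choose a ha hpa using fun i => exists_nrm (Γ.pts_ne i)
  set c' : K := Γ.c * ∏ i, a i with hc'
  have hc'0 : c' ≠ 0 := mul_ne_zero Γ.c_ne (Finset.prod_ne_zero_iff.2 fun i _ => ha i)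
  let A : Finset K := {c', c'⁻¹} ∪ Finset.univ.image fun e : Fin w × Fin 4 =>
    nrm (pp (Γ.pts e.1)) e.2
  refine ⟨A, fun R hξR hAR => ?_⟩
  have hc'R : c' ∈ R := hAR (by simp [A])
  have hc'R' : c'⁻¹ ∈ R := hAR (by simp [A])
  have hnR : ∀ i j, nrm (pp (Γ.pts i)) j ∈ R := fun i j => hAR (by
    simp only [A, Finset.coe_union, Set.mem_union, Finset.coe_image, Set.mem_image]
    exact Or.inr ⟨(i, j), by simp, rfl⟩)
  refine ⟨fun i => inR_of R _ (hnR i), ?_⟩
  intro p s S G e hG hGz hS
  subst hS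
  let nR : Fin w → Fin 4 → R := fun i j => ⟨nrm (pp (Γ.pts i)) j, hnR i j⟩
  let cR : R := ⟨c', hc'R⟩
  let ξR : Fin 4 → R := fun i => ⟨ξ i, hξR i⟩
  have hval : ∀ (H : MvPolynomial (Fin 4) ℂ) (v : Fin 4 → R),
      ((aeval v H : R) : K) = aeval (fun i => (v i : K)) H := by
    intro H v
    exact MvPolynomial.comp_aeval_apply R.val H (f := v)
  have hmap : map (aeval ξR : MvPolynomial (Fin 4) ℂ →ₐ[ℂ] R).toRingHom Γ.Φ =
      C cR * ∏ i, linF (nR i) := by
    apply map_injective R.val.toRingHom Subtype.val_injective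
    rw [map_map]
    have e1 : (R.val.toRingHom.comp (aeval ξR : MvPolynomial (Fin 4) ℂ →ₐ[ℂ] R).toRingHom) =
        (aeval ξ : MvPolynomial (Fin 4) ℂ →ₐ[ℂ] K).toRingHom := by
      exact RingHom.ext fun H => hval H ξR
    rw [e1, Γ.fac, map_mul, map_C, map_prod]
    have e2 : ∀ i, map R.val.toRingHom (linF (nR i)) = linF (nrm (pp (Γ.pts i))) := by
      intro i
      simp only [linF, map_sum, map_mul, map_C, map_X]
      rfl
    have e3 : ∀ i, linF (Γ.pts i) = C (a i) * linF (nrm (pp (Γ.pts i))) := by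
      intro i
      conv_lhs => rw [hpa i]
      simp only [linF, Finset.mul_sum, Pi.smul_apply, smul_eq_mul, C_mul, mul_assoc]
    rw [Finset.prod_congr rfl fun i _ => e2 i, Finset.prod_congr rfl fun i _ => e3 i,
      Finset.prod_mul_distrib, ← map_prod, ← mul_assoc, ← C_mul]
    rfl
  let v : Fin w → Fin 4 → ℂ := fun i j => s.φ (nR i j)
  have hmapφ : map (eval fun i => p.1.rep i / p.1.rep 0) Γ.Φ =
      C (s.φ cR) * ∏ i, linF (v i) := by
    have h1 := congrArg (map s.φ.toRingHom) hmap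
    rw [map_map] at h1
    have e1 : (s.φ.toRingHom.comp (aeval ξR : MvPolynomial (Fin 4) ℂ →ₐ[ℂ] R).toRingHom) =
        (eval fun i => p.1.rep i / p.1.rep 0) := by
      refine ringHom_ext (fun r => ?_) fun i => ?_
      · simp only [AlgHom.toRingHom_eq_coe, RingHom.coe_comp, RingHom.coe_coe,
          Function.comp_apply, eval_C]
        rw [← algebraMap_eq, AlgHom.commutes, AlgHom.commutes]
        rfl
      · simp only [AlgHom.toRingHom_eq_coe, RingHom.coe_comp, RingHom.coe_coe,
          Function.comp_apply, eval_X, aeval_X]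
        obtain ⟨h, hh⟩ := s.hξ i
        exact hh
    rw [e1] at h1
    rw [h1, map_mul, map_C, map_prod]
    congr 1
    refine Finset.prod_congr rfl fun i _ => ?_
    simp only [linF, map_sum, map_mul, map_C, map_X]
    rfl
  have hat : Γ.at p.1.rep = C ((p.1.rep 0) ^ Γ.e * s.φ cR) * ∏ i, linF (v i) := by
    rw [C_mul, mul_assoc, ← hmapφ]
    apply MvPolynomial.ext
    intro m
    rw [EffCorr.at, coeff_map, coeff_C_mul, coeff_map]
    have h1 := aeval_smul_hom (Γ.hom m) (p.1.rep 0) (fun i => p.1.rep i / p.1.rep 0)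
    have h2 : (p.1.rep 0 • fun i => p.1.rep i / p.1.rep 0) = p.1.rep := by
      funext i
      rw [Pi.smul_apply, smul_eq_mul, mul_div_cancel₀ _ s.rep0]
    rw [h2] at h1
    exact h1
  have hv0 : ∀ i, v i ≠ 0 := by
    intro i h
    have h1 : nR i (piv (pp (Γ.pts i))) = 1 := by
      apply Subtype.ext
      exact div_self (piv_ne (pp (Γ.pts i)))
    have h2 := congrFun h (piv (pp (Γ.pts i)))
    change s.φ (nR i (piv (pp (Γ.pts i)))) = 0 at h2
    rw [h1, map_one] at h2
    exact one_ne_zero h2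
  have hvan : ∀ (H : MvPolynomial (Fin 4) ℂ) (k : ℕ), H.IsHomogeneous k → ∀ i,
      aeval (Γ.pts i) H = 0 → (pp (v i)) ∈ surf H := by
    intro H k hH i h0
    obtain ⟨r, hr, hrv⟩ := pp_rep (hv0 i)
    change aeval (pp (v i)).rep H = 0
    rw [hrv, aeval_smul_hom hH]
    have h1 : aeval (v i) H = s.φ (aeval (nR i) H) := by
      rw [← MvPolynomial.comp_aeval_apply]
    have h2 : aeval (nR i) H = 0 := by
      apply Subtype.ext
      rw [hval]
      rw [hpa i, aeval_smul_hom hH] at h0
      exact (mul_eq_zero.1 h0).resolve_left (pow_ne_zero _ (ha i))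
    rw [h1, h2, map_zero, mul_zero]
  let q : Fin w → (surf F ∩ surf G : Set (ℙ ℂ (Fin 4 → ℂ))) := fun i =>
    ⟨pp (v i), hvan F d hF i (Γ.pts_mem i), hvan G e hG i (hGz i)⟩
  refine ⟨Multiset.map q Finset.univ.val, ?_, ?_⟩
  · rw [hat]
    refine isChowForm_prod q v (fun i => ?_) _ ?_
    · obtain ⟨r, hr, hrv⟩ := pp_rep (hv0 i)
      refine ⟨r⁻¹, inv_ne_zero hr, ?_⟩
      change v i = r⁻¹ • (pp (v i)).rep
      rw [hrv, inv_smul_smul₀ hr]
    · refine mul_ne_zero (pow_ne_zero _ s.rep0) ?_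
      intro h0
      have h1 : cR * ⟨c'⁻¹, hc'R'⟩ = 1 := by
        apply Subtype.ext
        exact mul_inv_cancel₀ hc'0
      have h2 := congrArg s.φ h1
      rw [map_mul, h0, zero_mul, map_one] at h2
      exact zero_ne_one h2
  · rw [Multiset.map_map]
    refine Multiset.map_congr rfl fun i _ => ?_
    exact (spPt_eq s (pp (Γ.pts i)) (hnR i)).symm

end Pool.Agent.LowDeg
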