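import Pool.Agent.LowDeg.SmoothExt
import Pool.Agent.LowDeg.Model
import Pool.Agent.LowDeg.Plane

/-!
# Systems of curve models through a finite set of points: definitions
-/

set_option autoImplicit false

open MvPolynomial
open scoped Polynomial

namespace Pool.Agent.LowDeg

/-- the equation of a curve model over `K(λ)` -/
noncomputable def CurveModel.GR {K : Type} [Field K] {h : ℕ} (M : CurveModel K h) :
    MvPolynomial (Fin 3) (RatFunc K) :=
  map (algebraMap K[X] (RatFunc K)) M.G

/-- the minimal system of curves through the points `y i` -/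
structure ModelSys {K : Type} [Field K] (n : ℕ) {ι : Type} (y : ι → Fin 4 → K) where
  J : Type
  [fin : Fintype J]
  h : J → ℕ
  M : ∀ j, CurveModel K (h j)
  one_le : ∀ j, 1 ≤ h j
  irr : ∀ j, Irreducible (M j).GR
  na : ∀ i j, i ≠ j → ¬ Associated (M i).GR (M j).GR
  deg : 6 * ∑ j, h j ≤ n + 4
  cover : ∀ i, ∃ j, (M j).On (y i)
  only : ∀ j, ∃ i, (M j).On (y i) ∧ ∀ l, l ≠ j → ¬ (M l).On (y i)
  uniq : ∀ (e : ℕ) (f : MvPolynomial (Fin 3) (RatFunc K)), f.IsHomogeneous e →
    e + ∑ j, h j < n + 3 → (∀ i, eval (uR (y i)) f = 0) → ∏ j, (M j).GR ∣ f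

attribute [instance] ModelSys.fin

/-- linear change of coordinates of points -/
noncomputable def LK {K : Type} [Field K] [Algebra ℂ K] (L : Matrix (Fin 4) (Fin 4) ℂ)
    (z : Fin 4 → K) : Fin 4 → K := (L.map (algebraMap ℂ K)).mulVec z

/-- linear change of coordinates of forms: `(FL L F) (L z) = F z` -/
noncomputable def FL (L : Matrix (Fin 4) (Fin 4) ℂ) (F : MvPolynomial (Fin 4) ℂ) :
    MvPolynomial (Fin 4) ℂ := bind₁ (fun i => ∑ j, C (L⁻¹ i j) * X j) F

/-- Input data: finitely many points of the surface over `K`, not proportional to each other, with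
nonzero coefficients `ν i`, in a relation of degree `n`. `J i` is the value of the residue form. -/
structure RelData {K : Type} [Field K] [Algebra ℂ K] (F : MvPolynomial (Fin 4) ℂ) (n : ℕ)
    (δ₁ δ₂ : Derivation ℂ K K) {ι : Type} [Fintype ι] (y : ι → Fin 4 → K) (J ν : ι → K) : Prop where
  np : PairNP y
  mem : ∀ i, aeval (y i) F = 0
  res : ∀ i, IsRes F δ₁ δ₂ (y i) (J i)
  ne : ∀ i, ν i ≠ 0
  rel : ∀ f : MvPolynomial (Fin 4) K, f.IsHomogeneous n → ∑ i, ν i * (J i * eval (y i) f) = 0

end Pool.Agent.LowDeg
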