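import Pool.Agent.LowDeg.Sys
import Pool.Agent.LowDeg.PlaneCover
import Pool.Agent.LowDeg.LemAModel
import Pool.Agent.LowDeg.ResR

/-! Module MK2 (doc section 11.3): existence of the system of curve models. -/

set_option autoImplicit false

open MvPolynomial

namespace Pool.Agent.LowDeg

variable {K : Type} [Field K] [IsAlgClosed K] [CharZero K] [Algebra ℂ K]

namespace SysExistsAux

open Polynomial in
lemma algR_inj {L : Type} [Field L] :
    Function.Injective (algebraMap L[X] (RatFunc L)) :=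
  IsFractionRing.injective L[X] (RatFunc L)

/-- proportional projections come from proportional points -/
lemma prop_of_uR {L : Type} [Field L] (z z' : Fin 4 → L) (h01 : z 0 ≠ 0 ∨ z 1 ≠ 0)
    (r : RatFunc L) (h : uR z = r • uR z') : ∃ s : L, z = s • z' := by
  have h0 := congrFun h 0
  have h1 := congrFun h 1
  have h2 := congrFun h 2
  simp only [uR, uK, Pi.smul_apply, smul_eq_mul, Matrix.cons_val_zero, Matrix.cons_val_one,
    Matrix.cons_val] at h0 h1 h2
  have hr : ∃ s : L, r = algebraMap (Polynomial L) (RatFunc L) (Polynomial.C s) := by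
    rcases h01 with hz | hz
    · have hz' : z' 0 ≠ 0 := by
        intro h'
        rw [h', map_zero, map_zero, mul_zero] at h0
        have := algR_inj (h0.trans (map_zero _).symm)
        exact hz (Polynomial.C_eq_zero.1 this)
      refine ⟨z 0 / z' 0, ?_⟩
      have hne : algebraMap (Polynomial L) (RatFunc L) (Polynomial.C (z' 0)) ≠ 0 := by
        intro h'
        exact hz' (Polynomial.C_eq_zero.1 (algR_inj (h'.trans (map_zero _).symm)))
      apply mul_right_cancel₀ hne
      rw [← h0, ← map_mul, ← Polynomial.C_mul, div_mul_cancel₀ _ hz']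
    · have hz' : z' 1 ≠ 0 := by
        intro h'
        rw [h', map_zero, map_zero, mul_zero] at h1
        have := algR_inj (h1.trans (map_zero _).symm)
        exact hz (Polynomial.C_eq_zero.1 this)
      refine ⟨z 1 / z' 1, ?_⟩
      have hne : algebraMap (Polynomial L) (RatFunc L) (Polynomial.C (z' 1)) ≠ 0 := by
        intro h'
        exact hz' (Polynomial.C_eq_zero.1 (algR_inj (h'.trans (map_zero _).symm)))
      apply mul_right_cancel₀ hne
      rw [← h1, ← map_mul, ← Polynomial.C_mul, div_mul_cancel₀ _ hz']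
  obtain ⟨s, rfl⟩ := hr
  refine ⟨s, ?_⟩
  rw [← map_mul] at h0 h1 h2
  have e0 := algR_inj h0
  have e1 := algR_inj h1
  have e2 := algR_inj h2
  have c0 := congrArg (fun p => Polynomial.coeff p 0) e0
  have c1 := congrArg (fun p => Polynomial.coeff p 0) e1
  have c2 := congrArg (fun p => Polynomial.coeff p 0) e2
  have c3 := congrArg (fun p => Polynomial.coeff p 1) e2
  simp [Polynomial.coeff_C] at c0 c1 c2 c3
  funext i
  fin_cases i
  · simpa using c0
  · simpa using c1
  · simpa using c2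
  · simpa using c3

lemma uR_ne_zero {L : Type} [Field L] (z : Fin 4 → L) (h01 : z 0 ≠ 0 ∨ z 1 ≠ 0) : uR z ≠ 0 := by
  intro h
  obtain ⟨s, hs⟩ := prop_of_uR z 0 h01 0 (by rw [h, zero_smul])
  rw [hs] at h01
  simp at h01

/-- evaluation of a form over `K[λ]` at the projections -/
lemma eval_uR {L : Type} [Field L] (z : Fin 4 → L) (g : MvPolynomial (Fin 3) (Polynomial L)) :
    eval (uR z) (map (algebraMap (Polynomial L) (RatFunc L)) g) =
      algebraMap (Polynomial L) (RatFunc L) (eval (uK z) g) := by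
  rw [eval_map]
  have := eval₂_comp_left (algebraMap (Polynomial L) (RatFunc L)) (RingHom.id _) (uK z) g
  rw [RingHom.comp_id] at this
  rw [MvPolynomial.eval, coe_eval₂Hom]
  exact this.symm

/-- the curve passes through the point if and only if the form over `K(λ)` vanishes -/
lemma on_iff {L : Type} [Field L] {h : ℕ} (M : CurveModel L h) (z : Fin 4 → L) :
    M.On z ↔ eval (uR z) M.GR = 0 := by
  rw [CurveModel.GR, eval_uR, CurveModel.On]
  constructor
  · intro h
    rw [h, map_zero]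
  · intro h
    exact algR_inj (h.trans (map_zero _).symm)

/-- the relation over `K(λ)` between the projected points -/
lemma rel_uR {n : ℕ} {L : Type} [Field L] [Infinite L]
    {ι : Type} [Fintype ι] (y : ι → Fin 4 → L) (c : ι → L)
    (hrel : ∀ f : MvPolynomial (Fin 4) L, f.IsHomogeneous n → ∑ i, c i * eval (y i) f = 0)
    (f : MvPolynomial (Fin 3) (RatFunc L)) (hf : f.IsHomogeneous n) :
    ∑ i, algebraMap (Polynomial L) (RatFunc L) (Polynomial.C (c i)) * eval (uR (y i)) f = 0 := by
  have key : ∀ m : Fin 3 →₀ ℕ, m.degree = n →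
      ∑ i, algebraMap (Polynomial L) (RatFunc L) (Polynomial.C (c i)) *
        ∏ j, uR (y i) j ^ m j = 0 := by
    intro m hm
    have hp : (∑ i, Polynomial.C (c i) * ∏ j, uK (y i) j ^ m j : Polynomial L) = 0 := by
      apply Polynomial.funext
      intro l
      have hq : ((X 0 : MvPolynomial (Fin 4) L) ^ m 0 * X 1 ^ m 1 *
          (X 2 + C l * X 3) ^ m 2).IsHomogeneous n := by
        have h0 : ((X 0 : MvPolynomial (Fin 4) L) ^ m 0).IsHomogeneous (1 * m 0) :=
          (isHomogeneous_X _ _).pow _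
        have h1 : ((X 1 : MvPolynomial (Fin 4) L) ^ m 1).IsHomogeneous (1 * m 1) :=
          (isHomogeneous_X _ _).pow _
        have h2 : ((X 2 + C l * X 3 : MvPolynomial (Fin 4) L) ^ m 2).IsHomogeneous (1 * m 2) := by
          apply IsHomogeneous.pow
          apply (isHomogeneous_X _ _).add
          have := (isHomogeneous_C (Fin 4) l).mul (isHomogeneous_X L (3 : Fin 4))
          simpa using this
        have := (h0.mul h1).mul h2
        have hd : 1 * m 0 + 1 * m 1 + 1 * m 2 = n := by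
          rw [← hm, Finsupp.degree_eq_sum, Fin.sum_univ_three]
          ring
        rwa [hd] at this
      have h := hrel _ hq
      rw [Polynomial.eval_finsetSum, Polynomial.eval_zero, ← h]
      apply Finset.sum_congr rfl
      intro i _
      rw [Polynomial.eval_mul, Polynomial.eval_C, Fin.prod_univ_three]
      congr 1
      simp only [uK, Matrix.cons_val_zero, Matrix.cons_val_one, Matrix.cons_val,
        Polynomial.eval_mul, Polynomial.eval_pow, Polynomial.eval_add, Polynomial.eval_C,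
        Polynomial.eval_X, map_mul, map_pow, map_add, eval_X, eval_C]
      rw [mul_comm l]
    have h := congrArg (algebraMap (Polynomial L) (RatFunc L)) hp
    rw [map_sum, map_zero] at h
    rw [← h]
    apply Finset.sum_congr rfl
    intro i _
    rw [map_mul, map_prod]
    simp only [map_pow, uR]
  rw [f.as_sum]
  simp only [map_sum, Finset.mul_sum]
  rw [Finset.sum_comm]
  apply Finset.sum_eq_zero
  intro m hm
  have hdeg : m.degree = n := by
    have := hf (mem_support_iff.1 hm)
    rw [Finsupp.degree_eq_weight_one]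
    exact this
  have h := congrArg (fun r => coeff m f * r) (key m hdeg)
  simp only [mul_zero, Finset.mul_sum] at h
  rw [← h]
  apply Finset.sum_congr rfl
  intro i _
  rw [eval_monomial, Finsupp.prod_fintype _ _ (fun i => pow_zero _)]
  ring

end SysExistsAux

/-- points off the centre of projection stay non-proportional -/
theorem pairNP_uR {ι : Type} (y : ι → Fin 4 → K) (hy : PairNP y)
    (h01 : ∀ i, y i 0 ≠ 0 ∨ y i 1 ≠ 0) : PairNP fun i => uR (y i) := by
  refine ⟨fun i => SysExistsAux.uR_ne_zero _ (h01 i), fun i j hij r h => ?_⟩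
  obtain ⟨s, hs⟩ := SysExistsAux.prop_of_uR _ _ (h01 i) r h
  exact hy.2 i j hij s hs

namespace SysExistsAux

lemma hom_eval_smul {L σ : Type} [Field L] {g : MvPolynomial σ L} {e : ℕ}
    (hg : g.IsHomogeneous e) (c : L) (z : σ → L) : eval (c • z) g = c ^ e * eval z g := by
  conv_lhs => rw [g.as_sum]
  conv_rhs => rw [g.as_sum]
  simp only [map_sum, Finset.mul_sum]
  apply Finset.sum_congr rfl
  intro m hm
  have hdeg : m.degree = e := by
    have := hg (mem_support_iff.1 hm)
    rw [Finsupp.degree_eq_weight_one]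
    exact this
  rw [eval_monomial, eval_monomial]
  simp only [Finsupp.prod, Pi.smul_apply, smul_eq_mul, mul_pow, Finset.prod_mul_distrib]
  rw [Finset.prod_pow_eq_pow_sum]
  have hs : ∑ i ∈ m.support, m i = e := hdeg
  rw [hs]
  ring

lemma assoc_normal {L : Type} [Field L] (G : MvPolynomial (Fin 3) L)
    (h : eval ![0, 0, 1] G ≠ 0) : Associated G (C (eval ![0, 0, 1] G)⁻¹ * G) := by
  have hu : IsUnit (C (eval ![0, 0, 1] G)⁻¹ : MvPolynomial (Fin 3) L) :=
    (IsUnit.mk0 _ (inv_ne_zero h)).map C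
  rw [mul_comm]
  exact ⟨hu.unit, by simp⟩

/-- points of a curve on the surface have zero residue -/
lemma xF_ne {F : MvPolynomial (Fin 4) ℂ} {d n : ℕ} (hd : d = n + 4)
    (hF : IsSmoothForm F d) (δ₁ δ₂ : Derivation ℂ K K) {h : ℕ} (M : CurveModel K h)
    (hh : h ≤ n + 1) (z : Fin 4 → K) (J : K) (hJ : J ≠ 0) (hz : IsRes F δ₁ δ₂ z J)
    (hz0 : z 0 ≠ 0) (hzF : aeval z F = 0) (hzM : M.On z) : M.xF F ≠ 0 := by
  intro h0
  have hzne : z ≠ 0 := fun h => hz0 (by rw [h]; rfl)
  -- scaling of On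
  have hon : M.On ((z 0)⁻¹ • z) := by
    rw [on_iff] at hzM ⊢
    have hu : uR ((z 0)⁻¹ • z) =
        (algebraMap (Polynomial K) (RatFunc K) (Polynomial.C (z 0)⁻¹)) • uR z := by
      funext i
      fin_cases i <;> simp [uR, uK, mul_add, mul_assoc]
    have hGh : M.GR.IsHomogeneous h := M.G_hom.map _
    rw [hu, hom_eval_smul hGh, hzM, mul_zero]
  obtain ⟨P, hP⟩ := M.exists_place ((z 0)⁻¹ • z) (by simp [hz0]) hon
  have h1 := isRes_zero_of_subset hd hF M hh h0 δ₁ δ₂ P _ hP
  have h2 := hz.smul hF (by omega) ((z 0)⁻¹) (inv_ne_zero hz0)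
  have hzne' : ((z 0)⁻¹ • z) ≠ 0 := smul_ne_zero (inv_ne_zero hz0) hzne
  have hzF' : aeval ((z 0)⁻¹ • z) F = 0 := by
    have hFh : F.IsHomogeneous d := hF.hom
    have := hom_eval_smul (hFh.map (algebraMap ℂ K)) (z 0)⁻¹ z
    rw [eval_map, eval_map] at this
    rw [aeval_def, this]
    rw [aeval_def] at hzF
    rw [hzF, mul_zero]
  have h3 := (exists_isRes hF δ₁ δ₂ _ hzne' hzF').unique h1 h2
  have h4 : J * ((z 0)⁻¹ ^ (d - 4))⁻¹ ≠ 0 :=
    mul_ne_zero hJ (inv_ne_zero (pow_ne_zero _ (inv_ne_zero hz0)))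
  exact h4 h3.symm

end SysExistsAux

open SysExistsAux in
theorem exists_modelSys {F : MvPolynomial (Fin 4) ℂ} {d n : ℕ} (hd : d = n + 4)
    (hF : IsSmoothForm F d) (δ₁ δ₂ : Derivation ℂ K K) {ι : Type} [Fintype ι]
    (y : ι → Fin 4 → K) (J ν : ι → K) (hR : RelData F n δ₁ δ₂ y J ν) (hJ : ∀ i, J i ≠ 0)
    (hcard : 8 * Fintype.card ι < (n + 3) * (n + 5)) (hy0 : ∀ i, y i 0 ≠ 0)
    (e : ℕ) (he : 2 * e ≤ n + 2) (f : MvPolynomial (Fin 3) (RatFunc K)) (hf : f.IsHomogeneous e)
    (hf1 : eval ![0, 0, 1] f ≠ 0) (hf0 : ∀ i, eval (uR (y i)) f = 0) :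
    ∃ S : ModelSys n y, ∀ j, (S.M j).xF F ≠ 0 := by
  classical
  rcases isEmpty_or_nonempty ι with hι | hι
  · refine ⟨@ModelSys.mk K _ n ι y Empty inferInstance (fun j => j.elim) (fun j => j.elim)
      (fun j => j.elim) (fun j => j.elim) (fun j => j.elim) (by simp) (fun i => hι.elim i)
      (fun j => j.elim) (fun e f _ _ _ => by simp), fun j => j.elim⟩
  have hNP : PairNP fun i => uR (y i) := pairNP_uR y hR.np fun i => Or.inl (hy0 i)
  have hNR : NR (fun i => uR (y i)) n := by
    refine ⟨fun i => algebraMap (Polynomial K) (RatFunc K) (Polynomial.C (ν i * J i)), ?_, ?_⟩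
    · intro i h
      have := algR_inj (h.trans (map_zero _).symm)
      exact mul_ne_zero (hR.ne i) (hJ i) (Polynomial.C_eq_zero.1 this)
    · intro g hg
      apply rel_uR y (fun i => ν i * J i) _ g hg
      intro g' hg'
      have := hR.rel g' hg'
      simpa only [mul_assoc] using this
  obtain ⟨JJ, hJJ, G, h, hG, hna, hne, hdeg, hcov, honly, hNRj, huniq⟩ :=
    plane_cover (fun i => uR (y i)) hNP hNR hcard
  have hle : ∀ j, h j ≤ ∑ j, h j := fun j => Finset.single_le_sum (fun _ _ => Nat.zero_le _)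
    (Finset.mem_univ j)
  have hdvd : ∏ j, G j ∣ f := huniq e f hf (by omega) hf0
  have hG1 : ∀ j, eval ![0, 0, 1] (G j) ≠ 0 := by
    intro j h0
    obtain ⟨q, hq⟩ := (Finset.dvd_prod_of_mem G (Finset.mem_univ j)).trans hdvd
    apply hf1
    rw [hq, map_mul, h0, zero_mul]
  have hass : ∀ j, Associated (G j) (C (eval ![0, 0, 1] (G j))⁻¹ * G j) := fun j =>
    assoc_normal (G j) (hG1 j)
  obtain ⟨D, hD⟩ := exists_ddlam K
  have hmod : ∀ j, ∃ M : CurveModel K (h j), M.GR = C (eval ![0, 0, 1] (G j))⁻¹ * G j := by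
    intro j
    have hhom : (C (eval ![0, 0, 1] (G j))⁻¹ * G j).IsHomogeneous (h j) := by
      have := (isHomogeneous_C (Fin 3) (eval ![0, 0, 1] (G j))⁻¹).mul (hG j).2.1
      simpa using this
    have hirr : Irreducible (C (eval ![0, 0, 1] (G j))⁻¹ * G j) :=
      (hass j).irreducible (hG j).1
    have hone : eval ![0, 0, 1] (C (eval ![0, 0, 1] (G j))⁻¹ * G j) = 1 := by
      rw [map_mul, eval_C, inv_mul_cancel₀ (hG1 j)]
    have hlej := hle j
    obtain ⟨m, hm⟩ : ∃ m, m + ∑ l, h l = n + h j := ⟨n + h j - ∑ l, h l, by omega⟩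
    have hNRm := hNRj j m hm
    have hnonempty : Nonempty {i // eval (uR (y i)) (G j) = 0 ∧
        ∀ l, l ≠ j → eval (uR (y i)) (G l) ≠ 0} := by
      obtain ⟨i, hi⟩ := honly j
      exact ⟨⟨i, hi⟩⟩
    have hQ := dvd_Qform D hD
      (fun i : {i // eval (uR (y i)) (G j) = 0 ∧ ∀ l, l ≠ j → eval (uR (y i)) (G l) ≠ 0} => y i)
      ⟨fun i => hNP.1 i, fun i i' hii' r => hNP.2 i i' (fun h => hii' (Subtype.ext h)) r⟩ hNRm
      (C (eval ![0, 0, 1] (G j))⁻¹ * G j) hhom hirr
      (fun i => by rw [map_mul, i.2.1, mul_zero]) (by omega)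
    exact exists_model D hD _ hhom hirr (hG j).2.2 hone hQ
  choose M hM using hmod
  have hon : ∀ j i, (M j).On (y i) ↔ eval (uR (y i)) (G j) = 0 := by
    intro j i
    rw [on_iff, hM, map_mul, eval_C, mul_eq_zero, or_iff_right (inv_ne_zero (hG1 j))]
  have hirr : ∀ j, Irreducible (M j).GR := fun j => by
    rw [hM]; exact (hass j).irreducible (hG j).1
  have hna' : ∀ i j, i ≠ j → ¬ Associated (M i).GR (M j).GR := fun i j hij hh => by
    rw [hM, hM] at hh
    exact hna i j hij (((hass i).trans hh).trans (hass j).symm)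
  have hcov' : ∀ i, ∃ j, (M j).On (y i) := fun i => by
    obtain ⟨j, hj⟩ := hcov i
    exact ⟨j, (hon j i).2 hj⟩
  have honly' : ∀ j, ∃ i, (M j).On (y i) ∧ ∀ l, l ≠ j → ¬ (M l).On (y i) := fun j => by
    obtain ⟨i, hi, hi'⟩ := honly j
    exact ⟨i, (hon j i).2 hi, fun l hl hh => hi' l hl ((hon l i).1 hh)⟩
  have huniq' : ∀ (e : ℕ) (f : MvPolynomial (Fin 3) (RatFunc K)), f.IsHomogeneous e →
      e + ∑ j, h j < n + 3 → (∀ i, eval (uR (y i)) f = 0) → ∏ j, (M j).GR ∣ f :=
    fun e g hg he hg0 => by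
      have h1 := huniq e g hg he hg0
      have h2 : Associated (∏ j, G j) (∏ j, (M j).GR) := by
        simp only [hM]
        exact Associated.prod _ _ _ fun j _ => hass j
      exact h2.symm.dvd.trans h1
  refine ⟨@ModelSys.mk K _ n ι y JJ hJJ h M (fun j => (hG j).2.2) hirr hna' hdeg hcov' honly'
    huniq', fun j => ?_⟩
  obtain ⟨i, hi, -⟩ := honly j
  have hlej := hle j
  exact xF_ne hd hF δ₁ δ₂ (M j) (by omega) (y i) (J i) (hJ i) (hR.res i) (hy0 i) (hR.mem i)
    ((hon j i).2 hi)

end Pool.Agent.LowDeg
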